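import Pool.Agent.T6.H88.FP.Defs

/-! # Module A10 (helper94): `StmtNp` and `StmtP` -/

namespace Pool.Agent.T6.H88.FP

open Subgroup

namespace ModA10

section basics

variable {Γ : Type} [Group Γ]

lemma inv_iff {V X : Subgroup Γ} : Inv V X ↔ ∀ v ∈ V, ∀ x ∈ X, v * x * v⁻¹ ∈ X :=
  le_normalizer_iff

lemma mem_cen {X : Subgroup Γ} {B : Set Γ} {x : Γ} :
    x ∈ cen X B ↔ x ∈ X ∧ ∀ b ∈ B, b * x = x * b := by
  unfold cen
  rw [mem_inf, mem_centralizer_iff]

lemma hyp_gen {p : ℕ} (hp : p.Prime) {K V : Subgroup Γ} {e : Γ} (heV : e ∈ V) (heK : e ∉ K)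
    (hKV : K ≤ V) (h : K.relIndex V = p) : V ≤ K ⊔ zpowers e := by
  have h1 : K ≤ K ⊔ zpowers e := le_sup_left
  have h2 : K ⊔ zpowers e ≤ V := sup_le hKV (zpowers_le.mpr heV)
  have h3 := relIndex_mul_relIndex K (K ⊔ zpowers e) V h1 h2
  rw [h] at h3
  rcases (Nat.prime_mul_iff.mp (h3 ▸ hp)) with ⟨_, h5⟩ | ⟨_, h5⟩
  · exact relIndex_eq_one.mp h5
  · exfalso
    apply heK
    have h6 := relIndex_eq_one.mp h5
    exact h6 (mem_sup_right (mem_zpowers e))

/-- elements commuting with `K` and `e` commute with `V` -/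
lemma cen_hyp {K V R : Subgroup Γ} {e : Γ} (hV : V ≤ K ⊔ zpowers e) (hfix : cen R V = ⊥) {x : Γ}
    (hx : x ∈ R) (hxK : ∀ k ∈ K, k * x = x * k) (hxe : e * x = x * e) : x = 1 := by
  have h1 : K ⊔ zpowers e ≤ centralizer {x} := by
    refine sup_le ?_ (zpowers_le.mpr ?_)
    · intro k hk
      rw [mem_centralizer_singleton_iff]
      exact hxK k hk
    · rw [mem_centralizer_singleton_iff]
      exact hxe
  have h2 : x ∈ cen R (V : Set Γ) := by
    rw [mem_cen]
    refine ⟨hx, fun b hb => ?_⟩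
    have h3 := h1 (hV hb)
    rw [mem_centralizer_singleton_iff] at h3
    exact h3
  rw [hfix] at h2
  exact mem_bot.mp h2

lemma inv_zpowers {V X : Subgroup Γ} (h : Inv V X) {e : Γ} (he : e ∈ V) : Inv (zpowers e) X :=
  le_trans (zpowers_le.mpr he) h

lemma cop_le [Finite Γ] {A B C D : Subgroup Γ} (h : Nat.Coprime (Nat.card A) (Nat.card B))
    (hA : C ≤ A) (hB : D ≤ B) : Nat.Coprime (Nat.card C) (Nat.card D) :=
  Nat.Coprime.coprime_dvd_left (card_dvd_of_le hA)
    (Nat.Coprime.coprime_dvd_right (card_dvd_of_le hB) h)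

lemma solv_le {A B : Subgroup Γ} (h : Group.IsSolvable B) (hAB : A ≤ B) : Group.IsSolvable A := by
  have := h
  exact Group.isSolvable_of_isSolvable_injective (inclusion_injective hAB)

/-- coprime orders: trivial intersection -/
lemma cop_inter [Finite Γ] {A B : Subgroup Γ} (h : Nat.Coprime (Nat.card A) (Nat.card B)) {x : Γ}
    (hA : x ∈ A) (hB : x ∈ B) : x = 1 := by
  have h1 : orderOf x ∣ Nat.card A := Subgroup.orderOf_dvd_natCard A hA
  have h2 : orderOf x ∣ Nat.card B := Subgroup.orderOf_dvd_natCard B hB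
  have h3 : orderOf x ∣ 1 := by
    have := Nat.dvd_gcd h1 h2
    rwa [h] at this
  rw [← orderOf_eq_one_iff]
  exact Nat.dvd_one.mp h3

end basics

/-- `StmtNp` -/
theorem np (hCop : StmtCop) (hGen : StmtGen) (hF0 : StmtF0) : StmtNp := by
  intro Γ _ _ p V E R e hV hVR hVE hRE hfix hsR hsE hcop he hEe
  have hpR : ¬ p ∣ Nat.card R := hCop Γ p V R hV hVR hfix
  have hVR' := inv_iff.mp hVR
  have hVE' := inv_iff.mp hVE
  have hRE' := inv_iff.mp hRE
  -- N = C_R(E)
  have hNmem : ∀ x, x ∈ cen R (E : Set Γ) ↔ x ∈ R ∧ ∀ b ∈ E, b * x = x * b := fun x => mem_cen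
  have hNR : ∀ y ∈ R, ∀ x ∈ cen R (E : Set Γ), y * x * y⁻¹ ∈ cen R (E : Set Γ) := by
    intro y hy x hx
    rw [hNmem] at hx ⊢
    refine ⟨mul_mem (mul_mem hy hx.1) (inv_mem hy), fun b hb => ?_⟩
    have h1 := hx.2 (y⁻¹ * b * y⁻¹⁻¹) (hRE' y⁻¹ (inv_mem hy) b hb)
    rw [inv_inv] at h1
    calc b * (y * x * y⁻¹) = y * ((y⁻¹ * b * y) * x) * y⁻¹ := by group
      _ = y * (x * (y⁻¹ * b * y)) * y⁻¹ := by rw [h1]
      _ = y * x * y⁻¹ * b := by group
  have hNV : ∀ y ∈ V, ∀ x ∈ cen R (E : Set Γ), y * x * y⁻¹ ∈ cen R (E : Set Γ) := by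
    intro y hy x hx
    rw [hNmem] at hx ⊢
    refine ⟨hVR' y hy x hx.1, fun b hb => ?_⟩
    have h1 := hx.2 (y⁻¹ * b * y⁻¹⁻¹) (hVE' y⁻¹ (inv_mem hy) b hb)
    rw [inv_inv] at h1
    calc b * (y * x * y⁻¹) = y * ((y⁻¹ * b * y) * x) * y⁻¹ := by group
      _ = y * (x * (y⁻¹ * b * y)) * y⁻¹ := by rw [h1]
      _ = y * x * y⁻¹ * b := by group
  -- Y
  let Y : Subgroup Γ :=
    { carrier := {x | x ∈ R ∧ x⁻¹ * (e * x * e⁻¹) ∈ cen R (E : Set Γ)}
      mul_mem' := by
        rintro x y ⟨hx, hx'⟩ ⟨hy, hy'⟩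
        refine ⟨mul_mem hx hy, ?_⟩
        have h1 : (x * y)⁻¹ * (e * (x * y) * e⁻¹) =
            (y⁻¹ * (x⁻¹ * (e * x * e⁻¹)) * y⁻¹⁻¹) * (y⁻¹ * (e * y * e⁻¹)) := by group
        rw [h1]
        exact mul_mem (hNR _ (inv_mem hy) _ hx') hy'
      one_mem' := by
        refine ⟨one_mem _, ?_⟩
        have : (1 : Γ)⁻¹ * (e * 1 * e⁻¹) = 1 := by group
        rw [this]
        exact one_mem _
      inv_mem' := by
        rintro x ⟨hx, hx'⟩
        refine ⟨inv_mem hx, ?_⟩
        have h1 : x⁻¹⁻¹ * (e * x⁻¹ * e⁻¹) = x * (x⁻¹ * (e * x * e⁻¹))⁻¹ * x⁻¹ := by group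
        rw [h1]
        exact hNR _ hx _ (inv_mem hx') }
  have hY : ∀ x, x ∈ Y ↔ x ∈ R ∧ x⁻¹ * (e * x * e⁻¹) ∈ cen R (E : Set Γ) := fun x => Iff.rfl
  have hRY : R ≤ Y := by
    apply hGen Γ p V R Y hV hVR hpR hsR
    intro K hKV hKp x hx
    rw [mem_cen] at hx
    rw [hY]
    refine ⟨hx.1, ?_⟩
    by_cases heK : e ∈ K
    · have h1 := hx.2 e heK
      have h2 : x⁻¹ * (e * x * e⁻¹) = 1 := by
        rw [h1]; group
      rw [h2]
      exact one_mem _
    · have hKne : K.relIndex V ≠ 1 := by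
        intro h
        exact heK (relIndex_eq_one.mp h he)
      have hKp' : K.relIndex V = p := by
        rcases (Nat.dvd_prime hV.prime).mp hKp with h | h
        · exact absurd h hKne
        · exact h
      have hVK := hyp_gen hV.prime he heK hKV hKp'
      have hconj : ∀ z ∈ cen R (K : Set Γ), ∀ v ∈ V, v * z * v⁻¹ ∈ cen R (K : Set Γ) := by
        intro z hz v hv
        rw [mem_cen] at hz ⊢
        refine ⟨hVR' v hv z hz.1, fun b hb => ?_⟩
        have h1 := hz.2 b hb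
        have h2 := hV.comm v hv b (hKV hb)
        have h3 : v⁻¹ * b = b * v⁻¹ := by
          have := hV.comm v⁻¹ (inv_mem hv) b (hKV hb)
          exact this
        calc b * (v * z * v⁻¹) = (b * v) * z * v⁻¹ := by group
          _ = (v * b) * z * v⁻¹ := by rw [h2]
          _ = v * (b * z) * v⁻¹ := by group
          _ = v * (z * b) * v⁻¹ := by rw [h1]
          _ = v * z * (b * v⁻¹) := by group
          _ = v * z * (v⁻¹ * b) := by rw [h3]
          _ = v * z * v⁻¹ * b := by group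
      have hE : E ≤ centralizer (cen R (K : Set Γ) : Set Γ) := by
        apply hF0 Γ p E (cen R (K : Set Γ)) e hV.prime (hV.exp e he)
        · rw [inv_iff]
          intro v hv z hz
          exact hconj z hz v (zpowers_le.mpr he hv)
        · exact inv_zpowers hVE he
        · exact le_trans (show cen R (K : Set Γ) ≤ R from inf_le_left) hRE
        · rw [eq_bot_iff]
          intro z hz
          rw [mem_cen] at hz
          obtain ⟨hz1, hz2⟩ := hz
          rw [mem_cen] at hz1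
          rw [mem_bot]
          exact cen_hyp hVK hfix hz1.1 hz1.2 (hz2 e rfl)
        · exact hEe
        · exact cop_le hcop inf_le_left le_rfl
        · exact hsE
      have hmem : ∀ z ∈ cen R (K : Set Γ), z ∈ cen R (E : Set Γ) := by
        intro z hz
        rw [hNmem]
        refine ⟨(mem_cen.mp hz).1, fun b hb => ?_⟩
        have h1 := hE hb
        rw [mem_centralizer_iff] at h1
        exact (h1 z hz).symm
      have hxK : x ∈ cen R (K : Set Γ) := mem_cen.mpr hx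
      exact mul_mem (inv_mem (hmem x hxK)) (hmem _ (hconj x hxK e he))
  -- [R, e] ≤ N
  have hN : cm R e ≤ cen R (E : Set Γ) := by
    unfold cm
    rw [commutator_le]
    intro x hx g hg
    let Z : Subgroup Γ :=
      { carrier := {g | g ∈ V ∧ ∀ x ∈ R, x * g * x⁻¹ * g⁻¹ ∈ cen R (E : Set Γ)}
        mul_mem' := by
          rintro g h ⟨hg, hg'⟩ ⟨hh, hh'⟩
          refine ⟨mul_mem hg hh, fun x hx => ?_⟩
          have h1 : x * (g * h) * x⁻¹ * (g * h)⁻¹ =
              (x * g * x⁻¹ * g⁻¹) * (g * (x * h * x⁻¹ * h⁻¹) * g⁻¹) := by group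
          rw [h1]
          exact mul_mem (hg' x hx) (hNV g hg _ (hh' x hx))
        one_mem' := by
          refine ⟨one_mem _, fun x hx => ?_⟩
          have : x * 1 * x⁻¹ * 1⁻¹ = 1 := by group
          rw [this]
          exact one_mem _
        inv_mem' := by
          rintro g ⟨hg, hg'⟩
          refine ⟨inv_mem hg, fun x hx => ?_⟩
          have h1 : x * g⁻¹ * x⁻¹ * g⁻¹⁻¹ = g⁻¹ * (x * g * x⁻¹ * g⁻¹)⁻¹ * g⁻¹⁻¹ := by
            have : x * g⁻¹ * x⁻¹ * g⁻¹⁻¹ = x * g⁻¹ * x⁻¹ * g := by group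
            group
          rw [h1]
          exact hNV g⁻¹ (inv_mem hg) _ (inv_mem (hg' x hx)) }
    have hZ : ∀ g, g ∈ Z ↔ g ∈ V ∧ ∀ x ∈ R, x * g * x⁻¹ * g⁻¹ ∈ cen R (E : Set Γ) :=
      fun g => Iff.rfl
    have heZ : e ∈ Z := by
      rw [hZ]
      refine ⟨he, fun x hx => ?_⟩
      have h1 := (hY _).mp (hRY (inv_mem hx))
      have h2 := h1.2
      have h3 : x * e * x⁻¹ * e⁻¹ = x⁻¹⁻¹ * (e * x⁻¹ * e⁻¹) := by group
      rw [h3]
      exact h2
    have hgZ : g ∈ Z := zpowers_le.mpr heZ hg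
    rw [commutatorElement_def]
    exact ((hZ g).mp hgZ).2 x hx
  intro b hb
  rw [mem_centralizer_iff]
  intro x hx
  have h1 := (hNmem x).mp (hN hx)
  exact (h1.2 b hb).symm

/-- `StmtF0` in a section `E / N` -/
lemma f0sec (hF0 : StmtF0) {Γ : Type} [Group Γ] [Finite Γ] {p : ℕ} {E R N : Subgroup Γ} {e : Γ}
    (hp : p.Prime) (he : e ^ p = 1) (heR : Inv (zpowers e) R) (heE : Inv (zpowers e) E)
    (hRE : Inv R E) (hNE : N ≤ E) (hEN : Inv E N) (hRN : Inv R N) (heN : Inv (zpowers e) N)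
    (hR : cen R {e} = ⊥) (hE : ∀ x ∈ E, e * x * e⁻¹ * x⁻¹ ∈ N → x ∈ N)
    (hcop : Nat.Coprime (Nat.card R) (Nat.card E)) (hs : Group.IsSolvable E) :
    ∀ x ∈ E, ∀ y ∈ R, x * y * x⁻¹ * y⁻¹ ∈ N := by
  classical
  have heM : e ∈ normalizer (N : Set Γ) := heN (mem_zpowers e)
  have heR' : ∀ x ∈ R, e * x * e⁻¹ ∈ R := fun x hx => inv_iff.mp heR e (mem_zpowers e) x hx
  have heE' : ∀ x ∈ E, e * x * e⁻¹ ∈ E := fun x hx => inv_iff.mp heE e (mem_zpowers e) x hx
  let π : (normalizer (N : Set Γ)) →* (normalizer (N : Set Γ)) ⧸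
    (N.subgroupOf (normalizer (N : Set Γ))) := QuotientGroup.mk' _
  have hπs : Function.Surjective π := QuotientGroup.mk'_surjective _
  have hker : ∀ x : (normalizer (N : Set Γ)), π x = 1 ↔ (x : Γ) ∈ N := by
    intro x
    rw [show π x = ((x : (normalizer (N : Set Γ))) : (normalizer (N : Set Γ)) ⧸
      (N.subgroupOf (normalizer (N : Set Γ)))) from rfl, QuotientGroup.eq_one_iff]
    exact mem_subgroupOf
  -- images
  let im : Subgroup Γ → Subgroup ((normalizer (N : Set Γ)) ⧸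
    (N.subgroupOf (normalizer (N : Set Γ)))) := fun X => (X.subgroupOf (normalizer (N : Set Γ))).map π
  have him : ∀ (X : Subgroup Γ) y, y ∈ im X ↔
      ∃ x : (normalizer (N : Set Γ)), (x : Γ) ∈ X ∧ π x = y := by
    intro X y
    simp only [im, mem_map, mem_subgroupOf]
  have hcard : ∀ X : Subgroup Γ, Nat.card (im X) ∣ Nat.card X := by
    intro X
    refine dvd_trans (card_map_dvd _ _) ?_
    have h1 : Nat.card (X.subgroupOf (normalizer (N : Set Γ))) =
        Nat.card ((X.subgroupOf (normalizer (N : Set Γ))).map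
          (normalizer (N : Set Γ)).subtype) := by
      exact (card_map_of_injective (subtype_injective _)).symm
    rw [h1, subgroupOf_map_subtype]
    exact card_dvd_of_le inf_le_left
  have hinv : ∀ (B X : Subgroup Γ), Inv B X → Inv (im B) (im X) := by
    intro B X hBX
    rw [inv_iff] at hBX ⊢
    intro v hv x hx
    obtain ⟨v', hv', rfl⟩ := (him B v).mp hv
    obtain ⟨x', hx', rfl⟩ := (him X x).mp hx
    rw [him]
    refine ⟨v' * x' * v'⁻¹, ?_, by simp⟩
    simpa using hBX _ hv' _ hx'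
  have hz : zpowers (π ⟨e, heM⟩) = im (zpowers e) := by
    apply le_antisymm
    · rw [zpowers_le, him]
      exact ⟨⟨e, heM⟩, mem_zpowers e, rfl⟩
    · intro y hy
      obtain ⟨x, hx, rfl⟩ := (him _ _).mp hy
      obtain ⟨k, hk⟩ := mem_zpowers_iff.mp hx
      rw [mem_zpowers_iff]
      refine ⟨k, ?_⟩
      rw [← map_zpow]
      congr 1
      ext
      simpa using hk
  have hcE : E ≤ normalizer (N : Set Γ) := hEN
  have hcR : R ≤ normalizer (N : Set Γ) := hRN
  have key : im E ≤ centralizer (im R : Set _) := by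
    refine hF0 _ p (im E) (im R) (π ⟨e, heM⟩) hp ?_ ?_ ?_ (hinv _ _ hRE) ?_ ?_ ?_ ?_
    · rw [← map_pow]
      rw [hker]
      simp [he]
    · rw [hz]; exact hinv _ _ heR
    · rw [hz]; exact hinv _ _ heE
    · rw [eq_bot_iff]
      intro y hy
      rw [mem_cen] at hy
      obtain ⟨hy1, hy2⟩ := hy
      obtain ⟨x, hx, rfl⟩ := (him _ _).mp hy1
      have h1 := hy2 _ rfl
      rw [mem_bot]
      have h2 : π (⟨e, heM⟩ * x * ⟨e, heM⟩⁻¹ * x⁻¹) = 1 := by
        rw [map_mul, map_mul, map_mul, h1]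
        simp
      rw [hker] at h2
      have h2' : e * (x : Γ) * e⁻¹ * (x : Γ)⁻¹ ∈ N := by simpa using h2
      have h3 : e * (x : Γ) * e⁻¹ * (x : Γ)⁻¹ = 1 :=
        cop_inter hcop (mul_mem (heR' _ hx) (inv_mem hx)) (hNE h2')
      have h4 : (x : Γ) ∈ cen R {e} := by
        rw [mem_cen]
        refine ⟨hx, ?_⟩
        rintro b rfl
        have h5 : b * (x : Γ) * b⁻¹ = (x : Γ) := by
          rw [mul_inv_eq_one] at h3
          exact h3
        rw [mul_inv_eq_iff_eq_mul] at h5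
        exact h5
      rw [hR, mem_bot] at h4
      have h5 : x = 1 := by
        ext
        simpa using h4
      rw [h5, map_one]
    · rw [eq_bot_iff]
      intro y hy
      rw [mem_cen] at hy
      obtain ⟨hy1, hy2⟩ := hy
      obtain ⟨x, hx, rfl⟩ := (him _ _).mp hy1
      have h1 := hy2 _ rfl
      rw [mem_bot]
      have h2 : π (⟨e, heM⟩ * x * ⟨e, heM⟩⁻¹ * x⁻¹) = 1 := by
        rw [map_mul, map_mul, map_mul, h1]
        simp
      rw [hker] at h2
      have h2' : e * (x : Γ) * e⁻¹ * (x : Γ)⁻¹ ∈ N := by simpa using h2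
      rw [hker]
      exact hE _ hx h2'
    · exact Nat.Coprime.coprime_dvd_left (hcard R) (Nat.Coprime.coprime_dvd_right (hcard E) hcop)
    · have := hs
      have h1 : Group.IsSolvable (E.subgroupOf (normalizer (N : Set Γ))) := by
        refine Group.isSolvable_of_isSolvable_injective
          (f := (((normalizer (N : Set Γ)).subtype.comp
            (E.subgroupOf (normalizer (N : Set Γ))).subtype).codRestrict E
              (fun x => mem_subgroupOf.mp x.2))) ?_
        intro a b hab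
        have h2 : ((a : (normalizer (N : Set Γ))) : Γ) = ((b : (normalizer (N : Set Γ))) : Γ) :=
          congrArg (fun z : E => (z : Γ)) hab
        exact Subtype.ext (Subtype.ext h2)
      exact Group.isSolvable_of_surjective (f := π.subgroupMap _) (π.subgroupMap_surjective _)
  intro x hx y hy
  have h1 := key ((him E _).mpr ⟨⟨x, hcE hx⟩, hx, rfl⟩)
  rw [mem_centralizer_iff] at h1
  have h2 := h1 (π ⟨y, hcR hy⟩) ((him R _).mpr ⟨⟨y, hcR hy⟩, hy, rfl⟩)
  have h3 : π (⟨x, hcE hx⟩ * ⟨y, hcR hy⟩ * ⟨x, hcE hx⟩⁻¹ * ⟨y, hcR hy⟩⁻¹) = 1 := by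
    rw [map_mul, map_mul, map_mul, ← h2]
    simp
  rw [hker] at h3
  simpa using h3


/-- coprime action: if `ρ` centralises all commutators `[x, b]` then `ρ` centralises `E` -/
lemma cop_comm {Γ : Type} [Group Γ] [Finite Γ] {E ρ : Subgroup Γ} (hinv : Inv ρ E)
    (hcop : Nat.Coprime (Nat.card ρ) (Nat.card E))
    (h : ∀ x ∈ E, ∀ y ∈ ρ, ∀ z ∈ ρ, z * (x * y * x⁻¹ * y⁻¹) = (x * y * x⁻¹ * y⁻¹) * z) :
    E ≤ centralizer (ρ : Set Γ) := by
  have hinv' := inv_iff.mp hinv
  intro x hx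
  rw [mem_centralizer_iff]
  intro b hb
  have h1 : ∀ n : ℕ, x * b ^ n * x⁻¹ * (b ^ n)⁻¹ = (x * b * x⁻¹ * b⁻¹) ^ n := by
    intro n
    induction n with
    | zero => simp
    | succ n ih =>
      have h2 : x * b ^ (n + 1) * x⁻¹ * (b ^ (n + 1))⁻¹ =
          (x * b ^ n * x⁻¹ * (b ^ n)⁻¹) * (b ^ n * (x * b * x⁻¹ * b⁻¹) * (b ^ n)⁻¹) := by
        rw [pow_succ]; group
      have h3 := h x hx b hb (b ^ n) (pow_mem hb n)
      rw [h2, h3, ih, mul_inv_cancel_right, ← pow_succ]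
  have h2 := h1 (Nat.card ρ)
  have h3 : b ^ Nat.card ρ = 1 :=
    orderOf_dvd_iff_pow_eq_one.mp (Subgroup.orderOf_dvd_natCard ρ hb)
  rw [h3] at h2
  have h4 : x * b * x⁻¹ * b⁻¹ ∈ E := by
    have h5 := hinv' b hb x⁻¹ (inv_mem hx)
    have h6 : x * b * x⁻¹ * b⁻¹ = x * (b * x⁻¹ * b⁻¹) := by group
    rw [h6]
    exact mul_mem hx h5
  have h5 : orderOf (x * b * x⁻¹ * b⁻¹) ∣ Nat.card E := Subgroup.orderOf_dvd_natCard E h4
  have h6 : orderOf (x * b * x⁻¹ * b⁻¹) ∣ Nat.card ρ := by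
    rw [orderOf_dvd_iff_pow_eq_one, ← h2]
    simp
  have h7 : orderOf (x * b * x⁻¹ * b⁻¹) ∣ 1 := by
    have := Nat.dvd_gcd h6 h5
    rwa [hcop] at this
  have h8 : x * b * x⁻¹ * b⁻¹ = 1 := by
    rw [← orderOf_eq_one_iff]
    exact Nat.dvd_one.mp h7
  rw [mul_inv_eq_one, mul_inv_eq_iff_eq_mul] at h8
  exact h8.symm

/-- `StmtP` -/
theorem pp (hLift : StmtLift) (hF0 : StmtF0) : StmtP := by
  intro Γ _ _ p V K E ρ u hV hVρ hVE hρE hfix hsE hpE hcop hKV hK hρK hu huK hEu
  have hVK := hyp_gen hV.prime hu huK hKV hK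
  have hρu : cen ρ {u} = ⊥ := by
    rw [eq_bot_iff]
    intro x hx
    rw [mem_cen] at hx
    rw [mem_bot]
    refine cen_hyp hVK hfix hx.1 (fun k hk => ?_) (hx.2 u rfl)
    have h1 := hρK hx.1
    rw [mem_centralizer_iff] at h1
    exact h1 k hk
  have hpu : IsPGroup p (zpowers u) := by
    intro g
    refine ⟨1, ?_⟩
    have h1 : (g : Γ) ∈ V := zpowers_le.mpr hu g.2
    have h2 := hV.exp _ h1
    ext
    simpa using h2
  -- strong induction on the order of E
  have key : ∀ n : ℕ, ∀ E : Subgroup Γ, Nat.card E = n → Inv V E → Inv ρ E → Group.IsSolvable E →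
      ¬ p ∣ Nat.card E → Nat.Coprime (Nat.card ρ) (Nat.card E) →
      cen E {u} ≤ centralizer (ρ : Set Γ) → E ≤ centralizer (ρ : Set Γ) := by
    intro n
    induction n using Nat.strong_induction_on with
    | _ n ih =>
    intro E hn hVE hρE hsE hpE hcop hEu
    by_cases hE : E = ⊥
    · rw [hE]; exact bot_le
    have hVE' := inv_iff.mp hVE
    have hρE' := inv_iff.mp hρE
    -- the commutator subgroup
    have hDle : ⁅E, E⁆ ≤ E := by
      rw [commutator_le]
      intro g hg h hh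
      rw [commutatorElement_def]
      exact mul_mem (mul_mem (mul_mem hg hh) (inv_mem hg)) (inv_mem hh)
    have hDne : ⁅E, E⁆ ≠ E := by
      intro heq
      have hnt : Nontrivial E := by
        rw [Subgroup.nontrivial_iff_ne_bot]
        exact hE
      have := hsE
      have h1 := Group.IsSolvable.commutator_lt_top_of_nontrivial E
      have h2 : (commutator E).map E.subtype = (⊤ : Subgroup E).map E.subtype := by
        rw [commutator_def, map_commutator, ← MonoidHom.range_eq_map, range_subtype]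
        exact heq
      exact h1.ne (map_injective (subtype_injective E) h2)
    have hDinv : ∀ B : Subgroup Γ, Inv B E → Inv B ⁅E, E⁆ := by
      intro B hB g hg
      rw [mem_normalizer_iff_map_conj_eq]
      have h1 := hB hg
      rw [mem_normalizer_iff_map_conj_eq] at h1
      rw [map_commutator, h1]
    have hVD : Inv V ⁅E, E⁆ := hDinv V hVE
    have hρD : Inv ρ ⁅E, E⁆ := hDinv ρ hρE
    have hDcard : Nat.card (⁅E, E⁆ : Subgroup Γ) < n := by
      by_contra hcon
      push Not at hcon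
      rw [← hn] at hcon
      exact hDne (eq_of_le_of_card_ge hDle hcon)
    have hD : ⁅E, E⁆ ≤ centralizer (ρ : Set Γ) := by
      refine ih _ hDcard ⁅E, E⁆ rfl hVD hρD (solv_le hsE hDle) ?_ (cop_le hcop le_rfl hDle) ?_
      · intro h
        exact hpE (dvd_trans h (card_dvd_of_le hDle))
      · refine le_trans ?_ hEu
        exact inf_le_inf_right _ hDle
    -- N = C_E(ρ)
    have hNmem : ∀ x, x ∈ cen E (ρ : Set Γ) ↔ x ∈ E ∧ ∀ b ∈ ρ, b * x = x * b := fun x => mem_cen
    have hDN : ⁅E, E⁆ ≤ cen E (ρ : Set Γ) := le_inf hDle hD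
    have hVρ' := inv_iff.mp hVρ
    have hEN : Inv E (cen E (ρ : Set Γ)) := by
      rw [inv_iff]
      intro v hv x hx
      have h1 : v * x * v⁻¹ = (v * x * v⁻¹ * x⁻¹) * x := by group
      rw [h1]
      refine mul_mem (hDN ?_) hx
      have h2 := commutator_mem_commutator hv ((hNmem x).mp hx).1
      rwa [commutatorElement_def] at h2
    have hρN : Inv ρ (cen E (ρ : Set Γ)) := by
      rw [inv_iff]
      intro v hv x hx
      have h1 := ((hNmem x).mp hx).2 v hv
      rw [h1, mul_inv_cancel_right]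
      exact hx
    have hVN : Inv V (cen E (ρ : Set Γ)) := by
      rw [inv_iff]
      intro y hy x hx
      rw [hNmem] at hx ⊢
      refine ⟨hVE' y hy x hx.1, fun b hb => ?_⟩
      have h1 := hx.2 (y⁻¹ * b * y⁻¹⁻¹) (hVρ' y⁻¹ (inv_mem hy) b hb)
      rw [inv_inv] at h1
      calc b * (y * x * y⁻¹) = y * ((y⁻¹ * b * y) * x) * y⁻¹ := by group
        _ = y * (x * (y⁻¹ * b * y)) * y⁻¹ := by rw [h1]
        _ = y * x * y⁻¹ * b := by group
    have hNle : cen E (ρ : Set Γ) ≤ E := inf_le_left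
    have hfixE : ∀ x ∈ E, u * x * u⁻¹ * x⁻¹ ∈ cen E (ρ : Set Γ) → x ∈ cen E (ρ : Set Γ) := by
      intro x hx hux
      have hVN' := inv_iff.mp hVN
      have hEN' := inv_iff.mp hEN
      let Z : Subgroup Γ :=
        { carrier := {g | g ∈ V ∧ x⁻¹ * (g * x * g⁻¹) ∈ cen E (ρ : Set Γ)}
          mul_mem' := by
            rintro g h ⟨hg, hg'⟩ ⟨hh, hh'⟩
            refine ⟨mul_mem hg hh, ?_⟩
            have h1 : x⁻¹ * ((g * h) * x * (g * h)⁻¹) =
                (x⁻¹ * (g * x * g⁻¹)) * (g * (x⁻¹ * (h * x * h⁻¹)) * g⁻¹) := by group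
            rw [h1]
            exact mul_mem hg' (hVN' g hg _ hh')
          one_mem' := by
            refine ⟨one_mem _, ?_⟩
            have : x⁻¹ * (1 * x * 1⁻¹) = 1 := by group
            rw [this]
            exact one_mem _
          inv_mem' := by
            rintro g ⟨hg, hg'⟩
            refine ⟨inv_mem hg, ?_⟩
            have h1 : x⁻¹ * (g⁻¹ * x * g⁻¹⁻¹) = g⁻¹ * (x⁻¹ * (g * x * g⁻¹))⁻¹ * g⁻¹⁻¹ := by
              group
            rw [h1]
            exact hVN' g⁻¹ (inv_mem hg) _ (inv_mem hg') }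
      have huZ : u ∈ Z := by
        refine ⟨hu, ?_⟩
        have h2 : x⁻¹ * (u * x * u⁻¹) = x⁻¹ * (u * x * u⁻¹ * x⁻¹) * x⁻¹⁻¹ := by group
        rw [h2]
        exact hEN' x⁻¹ (inv_mem hx) _ hux
      have h1 : ∀ b ∈ zpowers u, x⁻¹ * (b * x * b⁻¹) ∈ cen E (ρ : Set Γ) := by
        intro b hb
        have h2 : b ∈ Z := zpowers_le.mpr huZ hb
        exact h2.2
      obtain ⟨m, hm, hm'⟩ := hLift Γ p (zpowers u) (cen E (ρ : Set Γ)) x hV.prime hpu
        (inv_zpowers hVN hu) (fun h => hpE (dvd_trans h (card_dvd_of_le hNle))) h1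
      have h2 : x * m ∈ cen E {u} := by
        rw [mem_cen]
        refine ⟨mul_mem hx (hNle hm), ?_⟩
        rintro b rfl
        exact hm' _ (mem_zpowers _)
      have h3 : x * m ∈ cen E (ρ : Set Γ) := by
        rw [hNmem]
        refine ⟨mul_mem hx (hNle hm), fun b hb => ?_⟩
        have h4 := hEu h2
        rw [mem_centralizer_iff] at h4
        exact h4 b hb
      have h4 : x = x * m * m⁻¹ := by group
      rw [h4]
      exact mul_mem h3 (inv_mem hm)
    have hcomm := f0sec hF0 hV.prime (hV.exp u hu) (inv_zpowers hVρ hu) (inv_zpowers hVE hu) hρE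
      hNle hEN hρN (inv_zpowers hVN hu) hρu hfixE hcop hsE
    exact cop_comm hρE hcop (fun x hx y hy z hz => ((hNmem _).mp (hcomm x hx y hy)).2 z hz)
  exact key _ E rfl hVE hρE hsE hpE hcop hEu

end ModA10

/-- Module A10 -/
theorem a10 (hCop : StmtCop) (hSplit : StmtSplit) (hLift : StmtLift) (hGen : StmtGen)
    (hF0 : StmtF0) : StmtNp ∧ StmtP :=
  have _ := hSplit
  ⟨ModA10.np hCop hGen hF0, ModA10.pp hLift hF0⟩

end Pool.Agent.T6.H88.FP
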