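import Pool.Agent.T6.H38.FP.Basic

/-! # Project FP, module A2: Thompson's `A × B` lemma (helper29) -/

set_option autoImplicit false

namespace Pool.Agent.T6.H88.FP

open Subgroup
open scoped commutatorElement

namespace ModA2

variable {Γ : Type} [Group Γ]

open Pool.Agent.T6.H38.FPB

/-- `⁅X, Y⁆ ≤ X` when `Y` normalises `X` -/
theorem comm_le {X Y : Subgroup Γ} (h : Inv Y X) : ⁅X, Y⁆ ≤ X := by
  rw [commutator_le]
  intro x hx z hz
  rw [commutatorElement_def, show x * z * x⁻¹ * z⁻¹ = x * (z * x⁻¹ * z⁻¹) by group]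
  exact mul_mem hx (inv_iff.1 h z hz _ (inv_mem hx))

/-- elementwise commuting subgroups normalise each other -/
theorem inv_of_comm {A B : Subgroup Γ} (h : ∀ a ∈ A, ∀ b ∈ B, a * b = b * a) : Inv A B := by
  rw [inv_iff]
  intro a ha b hb
  rw [h a ha b hb, mul_inv_cancel_right]
  exact hb

/-- in a nilpotent group `P ≤ ⁅P, B⁆` is possible for `P = ⊥` only -/
theorem eq_bot_of_comm {N P B : Subgroup Γ} (hN : Group.IsNilpotent N) (hP : P ≤ N) (hB : B ≤ N)
    (h : P ≤ ⁅P, B⁆) : P = ⊥ := by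
  obtain ⟨n, hn⟩ := (isNilpotent_iff_lowerCentralSeries N).1 hN
  have key : ∀ n : ℕ, P ≤ N.lowerCentralSeries n := by
    intro n
    induction n with
    | zero => exact hP
    | succ n ih => exact h.trans (commutator_mono ih hB)
  rw [eq_bot_iff, ← hn]
  exact key n

/-- if `A` centralises `⁅P, A⁆` then `A` centralises `P` (coprime orders) -/
theorem cent_of_cent_comm [Finite Γ] {q : ℕ} (hq : q.Prime) {A P : Subgroup Γ} (hP : IsPGroup q P)
    (hA : ¬ q ∣ Nat.card A) (hAP : Inv A P) (h : ⁅P, A⁆ ≤ centralizer (A : Set Γ)) :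
    P ≤ centralizer (A : Set Γ) := by
  intro x hx
  rw [mem_centralizer_iff]
  intro a ha
  set c := ⁅x, a⁆ with hc
  have hca : c ∈ ⁅P, A⁆ := commutator_mem_commutator hx ha
  have hcP : c ∈ P := comm_le hAP hca
  have h1 : Commute a c := mem_centralizer_iff.1 (h hca) a ha
  have h2 : x * a * x⁻¹ = c * a := by rw [hc, commutatorElement_def]; group
  have h3 : ∀ k : ℕ, x * a ^ k * x⁻¹ = c ^ k * a ^ k := by
    intro k
    rw [← conj_pow, h2, h1.symm.mul_pow]
  have h4 : c ^ orderOf a = 1 := by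
    have := h3 (orderOf a)
    rw [pow_orderOf_eq_one] at this
    simpa using this.symm
  obtain ⟨m, hm⟩ := hP ⟨c, hcP⟩
  have hm' : c ^ q ^ m = 1 := congrArg Subtype.val hm
  have h5 : Nat.Coprime (orderOf a) (q ^ m) := by
    apply Nat.Coprime.pow_right
    rw [Nat.coprime_comm, hq.coprime_iff_not_dvd]
    intro h6
    apply hA
    refine h6.trans ?_
    have := orderOf_dvd_natCard (⟨a, ha⟩ : A)
    rwa [orderOf_mk] at this
  have h6 : c = 1 := by
    have h7 : orderOf c ∣ Nat.gcd (orderOf a) (q ^ m) :=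
      Nat.dvd_gcd (orderOf_dvd_of_pow_eq_one h4) (orderOf_dvd_of_pow_eq_one hm')
    rw [h5] at h7
    exact orderOf_eq_one_iff.1 (Nat.dvd_one.1 h7)
  rw [h6, one_mul] at h2
  exact (mul_inv_eq_iff_eq_mul.1 h2).symm

theorem axb_aux [Finite Γ] {q : ℕ} (hq : q.Prime) {A B : Subgroup Γ} (hB : IsPGroup q B)
    (hA : ¬ q ∣ Nat.card A) (hAB : ∀ a ∈ A, ∀ b ∈ B, a * b = b * a) :
    ∀ (n : ℕ) (P : Subgroup Γ), Nat.card P ≤ n → IsPGroup q P → Inv A P → Inv B P →
      cen P B ≤ centralizer (A : Set Γ) → P ≤ centralizer (A : Set Γ) := by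
  intro n
  induction n with
  | zero =>
    intro P hn
    have : 0 < Nat.card P := Nat.card_pos
    omega
  | succ n ih =>
    intro P hn hP hAP hBP hc
    have hfact := Fact.mk hq
    have hIAB : Inv A B := inv_of_comm hAB
    have hIBA : Inv B A := inv_of_comm fun b hb a ha => (hAB a ha b hb).symm
    have sub : ∀ Q : Subgroup Γ, Q ≤ P → Q ≠ P → Inv A Q → Inv B Q →
        Q ≤ centralizer (A : Set Γ) := by
      intro Q hQ hne h1 h2
      refine ih Q ?_ (hP.to_le hQ) h1 h2 ((cen_mono hQ _).trans hc)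
      have : Nat.card Q < Nat.card P := by
        by_contra h
        exact hne (Subgroup.eq_of_le_of_card_ge hQ (not_lt.1 h))
      omega
    by_cases h1 : ⁅P, A⁆ = P
    · by_cases hbot : P = ⊥
      · rw [hbot]; exact bot_le
      have h2 : ⁅P, B⁆ ≠ P := by
        intro h2
        apply hbot
        have hN : IsPGroup q (P ⊔ B : Subgroup Γ) := by
          rw [sup_comm]
          exact hB.to_sup_of_normal_right' hP hBP
        exact eq_bot_of_comm (N := P ⊔ B) hN.isNilpotent le_sup_left le_sup_right h2.ge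
      have h3 : ⁅P, B⁆ ≤ centralizer (A : Set Γ) :=
        sub _ (comm_le hBP) h2 (inv_comm hAP hIAB) (inv_comm hBP (inv_self B))
      have h4 : ⁅⁅P, B⁆, A⁆ = ⊥ := commutator_eq_bot_iff_le_centralizer.2 h3
      have h5 : ⁅⁅B, A⁆, P⁆ = ⊥ := by
        have : ⁅B, A⁆ = ⊥ := by
          rw [commutator_eq_bot_iff_le_centralizer]
          intro b hb
          rw [mem_centralizer_iff]
          exact fun a ha => hAB a ha b hb
        rw [this, commutator_bot_left]
      have h6 : ⁅⁅A, P⁆, B⁆ = ⊥ := commutator_commutator_eq_bot_of_rotate h4 h5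
      rw [commutator_comm A P, h1, commutator_eq_bot_iff_le_centralizer] at h6
      refine le_trans ?_ hc
      exact le_inf le_rfl h6
    · exact cent_of_cent_comm hq hP hA hAP
        (sub _ (comm_le hAP) h1 (inv_comm hAP (inv_self A)) (inv_comm hBP hIBA))

end ModA2

/-- module A2 -/
theorem a2 (_hFix : StmtFix) (_hSplit : StmtSplit) : StmtAxB := by
  intro Γ _ _ q A B P hq hB hP hA hAP hBP hAB hc
  exact ModA2.axb_aux hq hB hA hAB _ P le_rfl hP hAP hBP hc

end Pool.Agent.T6.H88.FP
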