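import Pool.Agent.T6.H88.FP.A1

/-! # Project FP, module A3: invariant Sylow subgroups in the fixed point free situation -/

set_option autoImplicit false

namespace Pool.Agent.T6.H88.FP

open Subgroup
open scoped Pointwise

namespace ModA3

open ModA1

variable {Γ : Type} [Group Γ]

/-- the conjugation action of `V` on an invariant subgroup `X` -/
@[reducible] def actX (V X : Subgroup Γ) (h : Inv V X) : MulDistribMulAction V X where
  smul v x := ⟨v.1 * x.1 * v.1⁻¹, (inv_iff.1 h) v.1 v.2 x.1 x.2⟩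
  one_smul x := Subtype.ext (by show (1 : Γ) * x.1 * (1 : Γ)⁻¹ = x.1; simp)
  mul_smul v w x := Subtype.ext (by
    show (v.1 * w.1) * x.1 * (v.1 * w.1)⁻¹ = v.1 * (w.1 * x.1 * w.1⁻¹) * v.1⁻¹
    group)
  smul_mul v x y := Subtype.ext (by
    show v.1 * (x.1 * y.1) * v.1⁻¹ = (v.1 * x.1 * v.1⁻¹) * (v.1 * y.1 * v.1⁻¹)
    group)
  smul_one v := Subtype.ext (by show v.1 * (1 : Γ) * v.1⁻¹ = 1; simp)

theorem exists_inv_syl [Finite Γ] {p q : ℕ} {V X : Subgroup Γ} (hV : ElAb p V) (hI : Inv V X)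
    (hc : ¬ p ∣ Nat.card X) (hq : q.Prime) :
    ∃ S ≤ X, Inv V S ∧ IsPGroup q S ∧ ¬ q ∣ S.relIndex X := by
  haveI : Fact q.Prime := ⟨hq⟩
  haveI : Fact p.Prime := ⟨hV.prime⟩
  letI := actX V X hI
  have hcard : ¬ p ∣ Nat.card (Sylow q X) := by
    intro h
    obtain ⟨P⟩ : Nonempty (Sylow q X) := inferInstance
    exact hc ((h.trans P.card_dvd_index).trans (index_dvd_card _))
  obtain ⟨P, hP⟩ := (isPGroup_elab hV).nonempty_fixed_point_of_prime_not_dvd_card (Sylow q X) hcard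
  refine ⟨(P : Subgroup X).map X.subtype, map_subtype_le _, ?_, ?_, ?_⟩
  · rw [inv_iff]
    rintro v hv _ ⟨y, hy, rfl⟩
    have h1 : (⟨v, hv⟩ : V) • P = P := hP ⟨v, hv⟩
    have h2 : (⟨v, hv⟩ : V) • (P : Subgroup X) = (P : Subgroup X) := congrArg Sylow.toSubgroup h1
    have h3 : (⟨v, hv⟩ : V) • y ∈ (⟨v, hv⟩ : V) • (P : Subgroup X) :=
      smul_mem_pointwise_smul _ _ _ hy
    rw [h2] at h3
    exact ⟨_, h3, rfl⟩
  · exact P.isPGroup'.map _
  · have h1 : ((P : Subgroup X).map X.subtype).subgroupOf X = (P : Subgroup X) := by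
      ext x
      rw [mem_subgroupOf]
      constructor
      · rintro ⟨y, hy, hyx⟩
        have : y = x := Subtype.ext hyx
        exact this ▸ hy
      · intro hx; exact ⟨x, hx, rfl⟩
    rw [relIndex, h1]
    exact P.not_dvd_index

theorem uniq_inv_syl [Finite Γ] {p q : ℕ} {V X S T : Subgroup Γ} (hV : ElAb p V) (hI : Inv V X)
    (hc : cen X V = ⊥) (hpX : ¬ p ∣ Nat.card X) (hq : q.Prime) (hSX : S ≤ X) (hTX : T ≤ X) (hS : Inv V S)
    (hT : Inv V T) (hSq : IsPGroup q S) (hTq : IsPGroup q T) (hSi : ¬ q ∣ S.relIndex X)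
    (hTi : ¬ q ∣ T.relIndex X) (hFix : StmtFix) : S = T := by
  haveI : Fact q.Prime := ⟨hq⟩
  have hS' : IsPGroup q (S.subgroupOf X) := hSq.comap_subtype
  have hT' : IsPGroup q (T.subgroupOf X) := hTq.comap_subtype
  let P : Sylow q X := hS'.toSylow hSi
  let Q : Sylow q X := hT'.toSylow hTi
  obtain ⟨g, hg⟩ := MulAction.exists_smul_eq X P Q
  have hg' : MulAut.conj g • (S.subgroupOf X) = T.subgroupOf X := by
    have := congrArg Sylow.toSubgroup hg
    rw [Sylow.coe_subgroup_smul] at this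
    exact this
  have hg0 : ∀ x, x ∈ S ↔ (g : Γ) * x * (g : Γ)⁻¹ ∈ T := by
    intro x
    constructor
    · intro hx
      have h1 : MulAut.conj g • (⟨x, hSX hx⟩ : X) ∈ MulAut.conj g • (S.subgroupOf X) :=
        smul_mem_pointwise_smul _ _ _ (by rw [mem_subgroupOf]; exact hx)
      rw [hg'] at h1
      exact h1
    · intro hx
      have hxX : x ∈ X := by
        have h2 : x = (g : Γ)⁻¹ * ((g : Γ) * x * (g : Γ)⁻¹) * g := by group
        rw [h2]
        exact X.mul_mem (X.mul_mem (X.inv_mem g.2) (hTX hx)) g.2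
      have h1 : MulAut.conj g • (⟨x, hxX⟩ : X) ∈ T.subgroupOf X := by
        rw [mem_subgroupOf]; exact hx
      rw [← hg', smul_mem_pointwise_smul_iff] at h1
      exact h1
  obtain ⟨h, ⟨hhX, hh⟩, hcom⟩ := hFix Γ p V {h : Γ | h ∈ X ∧ ∀ x, x ∈ S ↔ h * x * h⁻¹ ∈ T}
    hV.prime (isPGroup_elab hV)
    (by
      rintro v hv h ⟨h1, h2⟩
      refine ⟨(inv_iff.1 hI) v hv h h1, fun x => ?_⟩
      have e1 : x ∈ S ↔ v⁻¹ * x * v ∈ S := by
        constructor
        · intro hx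
          have := (inv_iff.1 hS) v⁻¹ (inv_mem hv) x hx
          simpa using this
        · intro hx
          have := (inv_iff.1 hS) v hv _ hx
          have e : v * (v⁻¹ * x * v) * v⁻¹ = x := by group
          rwa [e] at this
      rw [e1, h2]
      have e2 : v * h * v⁻¹ * x * (v * h * v⁻¹)⁻¹ = v * (h * (v⁻¹ * x * v) * h⁻¹) * v⁻¹ := by group
      rw [e2]
      constructor
      · exact fun hx => (inv_iff.1 hT) v hv _ hx
      · intro hx
        have := (inv_iff.1 hT) v⁻¹ (inv_mem hv) _ hx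
        have e : v⁻¹ * (v * (h * (v⁻¹ * x * v) * h⁻¹) * v⁻¹) * v⁻¹⁻¹ = h * (v⁻¹ * x * v) * h⁻¹ := by group
        rwa [e] at this)
    (by
      have hset : {h : Γ | h ∈ X ∧ ∀ x, x ∈ S ↔ h * x * h⁻¹ ∈ T} =
          (fun n => (g : Γ) * n) '' ((X ⊓ normalizer (S : Set Γ) : Subgroup Γ) : Set Γ) := by
        ext h
        constructor
        · rintro ⟨h1, h2⟩
          refine ⟨(g : Γ)⁻¹ * h, ⟨X.mul_mem (X.inv_mem g.2) h1, ?_⟩, by simp⟩
          show (g : Γ)⁻¹ * h ∈ normalizer (S : Set Γ)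
          rw [mem_normalizer_iff]
          intro x
          show x ∈ S ↔ _ ∈ S
          rw [h2 x, hg0 ((g : Γ)⁻¹ * h * x * ((g : Γ)⁻¹ * h)⁻¹)]
          have e : (g : Γ) * ((g : Γ)⁻¹ * h * x * ((g : Γ)⁻¹ * h)⁻¹) * (g : Γ)⁻¹ = h * x * h⁻¹ := by
            group
          rw [e]
        · rintro ⟨n, ⟨h1, h2⟩, rfl⟩
          refine ⟨X.mul_mem g.2 h1, fun x => ?_⟩
          have h3 : n ∈ normalizer (S : Set Γ) := h2
          rw [mem_normalizer_iff] at h3
          have h4 : x ∈ S ↔ n * x * n⁻¹ ∈ S := h3 x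
          rw [h4, hg0]
          have e : (g : Γ) * (n * x * n⁻¹) * (g : Γ)⁻¹ = (g : Γ) * n * x * ((g : Γ) * n)⁻¹ := by group
          rw [e]
      rw [hset, Set.ncard_image_of_injective _ (mul_right_injective (g : Γ)), ← Nat.card_coe_set_eq]
      intro h
      exact hpX (h.trans (card_dvd_of_le inf_le_left)))
  have h1 : h ∈ cen X (V : Set Γ) := mem_cen.2 ⟨hhX, hcom⟩
  rw [hc, mem_bot] at h1
  subst h1
  ext x
  rw [hh x]; simp

/-- `V`-invariance of the normaliser -/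
theorem inv_normalizer {V X Y : Subgroup Γ} (hX : Inv V X) (hY : Inv V Y) :
    Inv V (X ⊓ normalizer (Y : Set Γ)) := by
  rw [inv_iff]
  rintro v hv x ⟨h1, h2⟩
  refine ⟨(inv_iff.1 hX) v hv x h1, ?_⟩
  have hvN : v ∈ normalizer (Y : Set Γ) := hY hv
  have h2' : x ∈ normalizer (Y : Set Γ) := h2
  exact (normalizer (Y : Set Γ)).mul_mem ((normalizer (Y : Set Γ)).mul_mem hvN h2')
    ((normalizer (Y : Set Γ)).inv_mem hvN)

theorem le_of_max [Finite Γ] {p q : ℕ} {V X S : Subgroup Γ} (hV : ElAb p V) (hI : Inv V X)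
    (hc : cen X V = ⊥) (hpX : ¬ p ∣ Nat.card X) (hq : q.Prime) (hSX : S ≤ X) (hS : Inv V S)
    (hSq : IsPGroup q S) (hSi : ¬ q ∣ S.relIndex X) (hFix : StmtFix)
    {Y : Subgroup Γ} (hYX : Y ≤ X) (hY : Inv V Y) (hYq : IsPGroup q Y) : Y ≤ S := by
  classical
  haveI : Fact q.Prime := ⟨hq⟩
  -- a maximal invariant `q`-subgroup containing `Y`
  have hfin : Set.Finite {Z : Subgroup Γ | Z ≤ X ∧ Inv V Z ∧ IsPGroup q Z} := Set.toFinite _
  obtain ⟨Z, hYZ, hZ⟩ := hfin.exists_le_maximal (a := Y) ⟨hYX, hY, hYq⟩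
  obtain ⟨⟨hZX, hZV, hZq⟩, hmax⟩ := hZ
  set N : Subgroup Γ := X ⊓ normalizer (Z : Set Γ) with hN
  have hNI : Inv V N := inv_normalizer hI hZV
  have hZN : Z ≤ N := le_inf hZX le_normalizer
  have hpN : ¬ p ∣ Nat.card N := fun h => hpX (h.trans (card_dvd_of_le inf_le_left))
  obtain ⟨T, hTN, hTV, hTq, hTi⟩ := exists_inv_syl hV hNI hpN hq
  -- `Z ≤ T`
  have hTZ : IsPGroup q (T ⊔ Z : Subgroup Γ) :=
    hTq.to_sup_of_normal_right' hZq (hTN.trans inf_le_right)
  have hsupInv : Inv V (T ⊔ Z) := by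
    intro v hv
    rw [mem_normalizer_iff]
    have h1 : ∀ W : Subgroup Γ, Inv V W → ∀ w ∈ V, W.map (MulAut.conj w).toMonoidHom ≤ W := by
      rintro W hW w hw _ ⟨x, hx, rfl⟩
      exact (inv_iff.1 hW) w hw x hx
    have h2 : ∀ w ∈ V, ∀ x ∈ T ⊔ Z, w * x * w⁻¹ ∈ T ⊔ Z := by
      intro w hw x hx
      have h3 : (T ⊔ Z).map (MulAut.conj w).toMonoidHom ≤ T ⊔ Z := by
        rw [Subgroup.map_sup]
        exact sup_le_sup (h1 T hTV w hw) (h1 Z hZV w hw)
      exact h3 ⟨x, hx, rfl⟩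
    exact (mem_normalizer_iff.1 ((inv_iff.2 h2) hv))
  have h3 : T ⊔ Z ≤ Z := hmax ⟨sup_le (hTN.trans inf_le_left) hZX, hsupInv, hTZ⟩ le_sup_right
  have hTZ' : T ≤ Z := le_sup_left.trans h3
  have hZi : ¬ q ∣ Z.relIndex N := by
    intro h
    exact hTi (h.trans (by
      rw [← relIndex_mul_relIndex T Z N hTZ' hZN]
      exact Dvd.intro_left _ rfl))
  -- `Z` is a Sylow subgroup of `X`
  have hZX' : ¬ q ∣ Z.relIndex X := by
    intro h
    apply hZi
    obtain ⟨n, hn⟩ := (IsPGroup.iff_card (p := q) (G := Z.subgroupOf X)).1 hZq.comap_subtype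
    have h4 := Sylow.card_quotient_normalizer_modEq_card_quotient (G := X) (p := q) hn
    have h5 : q ∣ Nat.card (X ⧸ Z.subgroupOf X) := by rwa [← index_eq_card]
    have h6 : q ∣ Nat.card (↥(normalizer ((Z.subgroupOf X : Subgroup X) : Set X)) ⧸
        comap (normalizer ((Z.subgroupOf X : Subgroup X) : Set X)).subtype (Z.subgroupOf X)) :=
      (Nat.ModEq.dvd_iff h4 (dvd_refl q)).2 h5
    have h7 : (Z.subgroupOf X).relIndex (normalizer ((Z.subgroupOf X : Subgroup X) : Set X)) =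
        Z.relIndex N := by
      have h8 : normalizer ((Z.subgroupOf X : Subgroup X) : Set X) = N.subgroupOf X := by
        ext x
        rw [mem_subgroupOf, mem_normalizer_iff]
        constructor
        · intro hx
          refine ⟨x.2, ?_⟩
          show (x : Γ) ∈ normalizer (Z : Set Γ)
          rw [mem_normalizer_iff]
          intro y
          constructor
          · intro hy
            exact (hx ⟨y, hZX hy⟩).1 hy
          · intro hy
            have hyX : y ∈ X := by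
              have e : y = (x : Γ)⁻¹ * ((x : Γ) * y * (x : Γ)⁻¹) * x := by group
              rw [e]
              exact X.mul_mem (X.mul_mem (X.inv_mem x.2) (hZX hy)) x.2
            exact (hx ⟨y, hyX⟩).2 hy
        · rintro ⟨_, hx⟩ y
          have hx' : (x : Γ) ∈ normalizer (Z : Set Γ) := hx
          exact (mem_normalizer_iff.1 hx') y
      rw [h8]
      exact relIndex_subgroupOf inf_le_left
    rw [← h7]
    exact h6
  have h8 := uniq_inv_syl hV hI hc hpX hq hZX hSX hZV hS hZq hSq hZX' hSi hFix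
  exact hYZ.trans h8.le

/-- the invariant Sylow subgroup -/
theorem exists_syl [Finite Γ] {p q : ℕ} {V X : Subgroup Γ} (hV : ElAb p V) (hI : Inv V X)
    (hc : cen X V = ⊥) (hq : q.Prime) (hCop : StmtCop) (hFix : StmtFix) :
    ∃ S ≤ X, Inv V S ∧ IsPGroup q S ∧ ¬ q ∣ S.relIndex X ∧
      ∀ Y ≤ X, Inv V Y → IsPGroup q Y → Y ≤ S := by
  have hpX := hCop Γ p V X hV hI hc
  obtain ⟨S, h1, h2, h3, h4⟩ := exists_inv_syl hV hI hpX hq
  exact ⟨S, h1, h2, h3, h4, fun Y hY hYV hYq => le_of_max hV hI hc hpX hq h1 h2 h3 h4 hFix hY hYV hYq⟩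

theorem syl_eq {q : ℕ} {V X S : Subgroup Γ} (h1 : S ≤ X) (h2 : Inv V S) (h3 : IsPGroup q S)
    (h5 : ∀ Y ≤ X, Inv V Y → IsPGroup q Y → Y ≤ S) : syl V q X = S :=
  le_antisymm (sSup_le fun Y hY => h5 Y hY.1 hY.2.1 hY.2.2) (le_sSup ⟨h1, h2, h3⟩)

end ModA3

open ModA1 ModA3

theorem a3 (hCop : StmtCop) (hFix : StmtFix) : StmtSyl := by
  intro Γ _ _ p V X q hV hI hc hq
  obtain ⟨S, h1, h2, h3, h4, h5⟩ := exists_syl hV hI hc hq hCop hFix
  have hS := syl_eq h1 h2 h3 h5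
  rw [hS]
  refine ⟨h1, h2, h3, h4, ?_⟩
  intro Y hYX hYV
  have hcY : cen Y V = ⊥ := by
    rw [eq_bot_iff, ← hc]
    exact inf_le_inf_right _ hYX
  obtain ⟨T, t1, t2, t3, t4, t5⟩ := exists_syl hV hYV hcY hq hCop hFix
  rw [syl_eq t1 t2 t3 t5]
  apply le_antisymm
  · exact le_inf t1 (h5 T (t1.trans hYX) t2 t3)
  · refine t5 _ inf_le_left ?_ ?_
    · rw [inv_iff]
      rintro v hv x ⟨hx1, hx2⟩
      exact ⟨(inv_iff.1 hYV) v hv x hx1, (inv_iff.1 h2) v hv x hx2⟩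
    · exact h3.to_le inf_le_right

end Pool.Agent.T6.H88.FP
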