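import Pool.Agent.T6.H88.FP.Tools

/-! # Project FP, module A4: the `V`-invariant Hall `{q, r}`-subgroup of a soluble group -/

set_option autoImplicit false

namespace Pool.Agent.T6.H88.FP

open Subgroup
open scoped Pointwise

namespace ModA4

/-- Complements of an abelian normal Hall subgroup are conjugate (as `compl_conj` of
`Pool/Agent/Helper851/Sat.lean`). -/
theorem compl_conj {N : Type} [Group N] [Finite N] (H : Subgroup N) [H.Normal]
    [IsMulCommutative ↥H] (hH : Nat.Coprime (Nat.card H) H.index) (K1 K2 : Subgroup N)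
    (h1 : IsComplement' H K1) (h2 : IsComplement' H K2) :
    ∃ h ∈ H, K2 = K1.map (MulAut.conj h).toMonoidHom := by
  have key : ∀ K : Subgroup N, IsComplement' H K → ∃ α : H.QuotientDiff,
      MulAction.stabilizer N α = K := by
    intro K hK
    let T : H.LeftTransversal := ⟨(K : Set N), hK.symm⟩
    let α : H.QuotientDiff := Quotient.mk'' T
    refine ⟨α, ?_⟩
    symm
    have hle : K ≤ MulAction.stabilizer N α := by
      intro k hk
      rw [MulAction.mem_stabilizer_iff]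
      change Quotient.mk'' (MulOpposite.op k⁻¹ • T) = Quotient.mk'' T
      congr 1
      apply Subtype.ext
      change MulOpposite.op k⁻¹ • (K : Set N) = (K : Set N)
      ext x
      rw [Set.mem_smul_set]
      constructor
      · rintro ⟨y, hy, rfl⟩
        exact mul_mem hy (inv_mem hk)
      · intro hx
        exact ⟨x * k, mul_mem hx hk, by simp⟩
    apply Subgroup.eq_of_le_of_card_ge hle
    have h3 := hK.card_mul_card
    have h4 := (isComplement'_stabilizer_of_coprime (α := α) hH).card_mul_card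
    rw [← h3] at h4
    have h5 : 0 < Nat.card H := Nat.card_pos
    exact (Nat.eq_of_mul_eq_mul_left h5 h4).le
  obtain ⟨α, hα⟩ := key K1 h1
  obtain ⟨β, hβ⟩ := key K2 h2
  obtain ⟨h, hh⟩ := exists_smul_eq hH α β
  refine ⟨h, h.2, ?_⟩
  rw [← hα, ← hβ, ← hh]
  exact MulAction.stabilizer_smul_eq_stabilizer_map_conj (h : N) α

variable {Γ : Type} [Group Γ]

/-- conjugate of a subgroup -/
def cj (g : Γ) (K : Subgroup Γ) : Subgroup Γ := K.map (MulAut.conj g).toMonoidHom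

lemma cj_one (K : Subgroup Γ) : cj 1 K = K := by
  unfold cj
  ext x
  simp

lemma cj_mul (g h : Γ) (K : Subgroup Γ) : cj (g * h) K = cj g (cj h K) := by
  unfold cj
  rw [Subgroup.map_map, map_mul]
  rfl

lemma cj_mono {g : Γ} {A B : Subgroup Γ} (h : A ≤ B) : cj g A ≤ cj g B := Subgroup.map_mono h

lemma cj_relIndex (g : Γ) (A B : Subgroup Γ) : (cj g A).relIndex (cj g B) = A.relIndex B :=
  relIndex_map_map_of_injective A B (MulAut.conj g).injective

lemma cj_eq {V X : Subgroup Γ} (h : Inv V X) {v : Γ} (hv : v ∈ V) : cj v X = X :=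
  inv_map_eq h hv

lemma mem_cj {g x : Γ} {K : Subgroup Γ} : x ∈ cj g K ↔ g⁻¹ * x * g ∈ K := by
  constructor
  · rintro ⟨y, hy, rfl⟩
    simpa [mul_assoc] using hy
  · intro h
    exact ⟨g⁻¹ * x * g, h, by simp [mul_assoc]⟩

lemma relIndex_pos' [Finite Γ] (A B : Subgroup Γ) : 0 < A.relIndex B :=
  Nat.pos_of_ne_zero (index_ne_zero_of_finite (H := A.subgroupOf B))

section compl

set_option linter.unusedSectionVars false

variable [Finite Γ] {M N H : Subgroup Γ}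

lemma card_br [(M.subgroupOf H).Normal] {K : Subgroup Γ} (hK : K ≤ H) :
    Nat.card ((K.subgroupOf H).map (QuotientGroup.mk' (M.subgroupOf H))) = M.relIndex K := by
  rw [← Subgroup.relIndex_ker, QuotientGroup.ker_mk', relIndex_subgroupOf hK]

lemma mem_br [(M.subgroupOf H).Normal] {K : Subgroup Γ} (hMK : M ≤ K) (x : H) :
    QuotientGroup.mk' (M.subgroupOf H) x ∈ (K.subgroupOf H).map (QuotientGroup.mk' (M.subgroupOf H))
      ↔ (x : Γ) ∈ K := by
  have h1 : ((K.subgroupOf H).map (QuotientGroup.mk' (M.subgroupOf H))).comap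
      (QuotientGroup.mk' (M.subgroupOf H)) = K.subgroupOf H := by
    rw [comap_map_eq, QuotientGroup.ker_mk']
    exact sup_eq_left.2 (fun y hy => hMK hy)
  rw [← mem_comap, h1, mem_subgroupOf]

lemma index_br [(M.subgroupOf H).Normal] {K : Subgroup Γ} (hMK : M ≤ K) :
    ((K.subgroupOf H).map (QuotientGroup.mk' (M.subgroupOf H))).index = K.relIndex H := by
  have h1 : ((K.subgroupOf H).map (QuotientGroup.mk' (M.subgroupOf H))).comap
      (QuotientGroup.mk' (M.subgroupOf H)) = K.subgroupOf H := by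
    ext x
    rw [mem_comap, mem_br hMK, mem_subgroupOf]
  rw [← index_comap_of_surjective _ (QuotientGroup.mk'_surjective (M.subgroupOf H)), h1]
  rfl

lemma compl_exists (hMN : M ≤ N) (hNH : N ≤ H) (hHM : Inv H M) (hHN : Inv H N)
    (hco : Nat.Coprime (M.relIndex N) (N.relIndex H)) :
    ∃ K, M ≤ K ∧ K ≤ H ∧ M.relIndex K = N.relIndex H := by
  have : (M.subgroupOf H).Normal := (normal_subgroupOf_iff_le_normalizer (hMN.trans hNH)).2 hHM
  have : (N.subgroupOf H).Normal := (normal_subgroupOf_iff_le_normalizer hNH).2 hHN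
  have : ((N.subgroupOf H).map (QuotientGroup.mk' (M.subgroupOf H))).Normal :=
    Normal.map inferInstance _ (QuotientGroup.mk'_surjective _)
  obtain ⟨K', hK'⟩ := exists_right_complement'_of_coprime
    (N := (N.subgroupOf H).map (QuotientGroup.mk' (M.subgroupOf H)))
    (by rw [card_br hNH, index_br hMN]; exact hco)
  have hMK : M ≤ (K'.comap (QuotientGroup.mk' (M.subgroupOf H))).map H.subtype := by
    intro m hm
    have hmH : m ∈ H := hNH (hMN hm)
    refine ⟨⟨m, hmH⟩, ?_, rfl⟩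
    have h1 : QuotientGroup.mk' (M.subgroupOf H) ⟨m, hmH⟩ = 1 := by
      rw [QuotientGroup.mk'_apply, QuotientGroup.eq_one_iff]
      exact hm
    show QuotientGroup.mk' (M.subgroupOf H) ⟨m, hmH⟩ ∈ K'
    rw [h1]; exact one_mem _
  have hKH : (K'.comap (QuotientGroup.mk' (M.subgroupOf H))).map H.subtype ≤ H :=
    map_subtype_le _
  refine ⟨_, hMK, hKH, ?_⟩
  rw [← card_br hKH]
  have h2 : (((K'.comap (QuotientGroup.mk' (M.subgroupOf H))).map H.subtype).subgroupOf H) =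
      K'.comap (QuotientGroup.mk' (M.subgroupOf H)) := by
    unfold subgroupOf
    exact comap_map_eq_self_of_injective (subtype_injective H) _
  rw [h2, map_comap_eq_self_of_surjective (QuotientGroup.mk'_surjective _)]
  have h3 := hK'.card_mul_card
  have h4 := card_mul_index ((N.subgroupOf H).map (QuotientGroup.mk' (M.subgroupOf H)))
  rw [← h3, index_br hMN] at h4
  exact (Nat.eq_of_mul_eq_mul_left Nat.card_pos h4).symm

lemma compl_trans (hMN : M ≤ N) (hNH : N ≤ H) (hHM : Inv H M) (hHN : Inv H N)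
    (hab : ∀ a ∈ N, ∀ b ∈ N, a * b * a⁻¹ * b⁻¹ ∈ M)
    (hco : Nat.Coprime (M.relIndex N) (N.relIndex H)) {K1 K2 : Subgroup Γ}
    (h1 : M ≤ K1 ∧ K1 ≤ H ∧ M.relIndex K1 = N.relIndex H)
    (h2 : M ≤ K2 ∧ K2 ≤ H ∧ M.relIndex K2 = N.relIndex H) :
    ∃ n ∈ N, K2 = cj n K1 := by
  have : (M.subgroupOf H).Normal := (normal_subgroupOf_iff_le_normalizer (hMN.trans hNH)).2 hHM
  have : (N.subgroupOf H).Normal := (normal_subgroupOf_iff_le_normalizer hNH).2 hHN
  have : ((N.subgroupOf H).map (QuotientGroup.mk' (M.subgroupOf H))).Normal :=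
    Normal.map inferInstance _ (QuotientGroup.mk'_surjective _)
  have : IsMulCommutative ((N.subgroupOf H).map (QuotientGroup.mk' (M.subgroupOf H))) := by
    refine ⟨⟨?_⟩⟩
    rintro ⟨_, ⟨a, ha, rfl⟩⟩ ⟨_, ⟨b, hb, rfl⟩⟩
    apply Subtype.ext
    show QuotientGroup.mk' (M.subgroupOf H) a * QuotientGroup.mk' (M.subgroupOf H) b =
      QuotientGroup.mk' (M.subgroupOf H) b * QuotientGroup.mk' (M.subgroupOf H) a
    rw [← map_mul, ← map_mul, QuotientGroup.mk'_apply, QuotientGroup.mk'_apply,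
      QuotientGroup.eq]
    rw [mem_subgroupOf]
    have h3 := hab _ (inv_mem (show (b : Γ) ∈ N from hb)) _ (inv_mem (show (a : Γ) ∈ N from ha))
    push_cast
    have h4 : ((a : Γ) * b)⁻¹ * (b * a) = (b : Γ)⁻¹ * (a : Γ)⁻¹ * ((b : Γ)⁻¹)⁻¹ * ((a : Γ)⁻¹)⁻¹ := by
      group
    rw [h4]; exact h3
  have hcoc : Nat.Coprime
      (Nat.card ((N.subgroupOf H).map (QuotientGroup.mk' (M.subgroupOf H))))
      ((N.subgroupOf H).map (QuotientGroup.mk' (M.subgroupOf H))).index := by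
    rw [card_br hNH, index_br hMN]; exact hco
  have hc : ∀ K : Subgroup Γ, M ≤ K ∧ K ≤ H ∧ M.relIndex K = N.relIndex H →
      IsComplement' ((N.subgroupOf H).map (QuotientGroup.mk' (M.subgroupOf H)))
        ((K.subgroupOf H).map (QuotientGroup.mk' (M.subgroupOf H))) := by
    intro K hK
    apply isComplement'_of_coprime
    · rw [card_br hK.2.1, hK.2.2, ← index_br hMN, card_mul_index]
    · rw [card_br hK.2.1, hK.2.2, card_br hNH]; exact hco
  obtain ⟨h, hh, hK⟩ := compl_conj _ hcoc _ _ (hc K1 h1) (hc K2 h2)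
  obtain ⟨n, hn, rfl⟩ := hh
  refine ⟨n, hn, ?_⟩
  have key : ∀ x : H, (x : Γ) ∈ K2 ↔ (n : Γ)⁻¹ * x * n ∈ K1 := by
    intro x
    rw [← mem_br h2.1 x, hK]
    have h5 := mem_br (H := H) h1.1 (n⁻¹ * x * n)
    have h6 : (((n⁻¹ * x * n : H)) : Γ) = (n : Γ)⁻¹ * x * n := by push_cast; rfl
    rw [h6] at h5
    rw [← h5]
    constructor
    · rintro ⟨y, hy, hyx⟩
      have h7 : QuotientGroup.mk' (M.subgroupOf H) (n⁻¹ * x * n) = y := by
        rw [map_mul, map_mul, map_inv, ← hyx]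
        simp [mul_assoc]
      rw [h7]; exact hy
    · intro hy
      refine ⟨_, hy, ?_⟩
      simp [mul_assoc]
  ext x
  rw [mem_cj]
  constructor
  · intro hx
    exact (key ⟨x, h2.2.1 hx⟩).1 hx
  · intro hx
    have hxH : x ∈ H := by
      have h8 : x = n * ((n : Γ)⁻¹ * x * n) * (n : Γ)⁻¹ := by group
      rw [h8]
      exact mul_mem (mul_mem n.2 (h1.2.1 hx)) (inv_mem n.2)
    exact (key ⟨x, hxH⟩).2 hx

/-- a `V`-invariant complement -/
lemma compl_inv {p : ℕ} (hp : p.Prime) {V : Subgroup Γ} (hV : IsPGroup p V)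
    (hMN : M ≤ N) (hNH : N ≤ H) (hHM : Inv H M) (hHN : Inv H N)
    (hVM : Inv V M) (hVN : Inv V N) (hVH : Inv V H)
    (hab : ∀ a ∈ N, ∀ b ∈ N, a * b * a⁻¹ * b⁻¹ ∈ M)
    (hco : Nat.Coprime (M.relIndex N) (N.relIndex H)) (hpn : ¬ p ∣ M.relIndex N) :
    ∃ K, M ≤ K ∧ K ≤ H ∧ Inv V K ∧ M.relIndex K = N.relIndex H ∧
      K.relIndex H = M.relIndex N := by
  classical
  let Ω : Set (Subgroup Γ) := {K | M ≤ K ∧ K ≤ H ∧ M.relIndex K = N.relIndex H}
  have hcj : ∀ (g : Γ), cj g M = M → cj g H = H → ∀ K ∈ Ω, cj g K ∈ Ω := by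
    intro g h1 h2 K hK
    refine ⟨?_, ?_, ?_⟩
    · rw [← h1]; exact cj_mono hK.1
    · rw [← h2]; exact cj_mono hK.2.1
    · rw [← hK.2.2, ← cj_relIndex g M K, h1]
  have : Fact p.Prime := ⟨hp⟩
  letI actV : MulAction V Ω :=
    { smul := fun v K => ⟨cj v K, hcj v (cj_eq hVM v.2) (cj_eq hVH v.2) K K.2⟩
      one_smul := fun K => Subtype.ext (cj_one K.1)
      mul_smul := fun v w K => Subtype.ext (cj_mul v.1 w.1 K.1) }
  letI actN : MulAction N Ω :=
    { smul := fun v K => ⟨cj v K, hcj v (cj_eq hHM (hNH v.2)) (cj_eq inv_self (hNH v.2)) K K.2⟩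
      one_smul := fun K => Subtype.ext (cj_one K.1)
      mul_smul := fun v w K => Subtype.ext (cj_mul v.1 w.1 K.1) }
  obtain ⟨K0, hK0⟩ := compl_exists hMN hNH hHM hHN hco
  have hcard : ¬ p ∣ Nat.card Ω := by
    have : MulAction.IsPretransitive N Ω := by
      refine ⟨fun K1 K2 => ?_⟩
      obtain ⟨n, hn, h⟩ := compl_trans hMN hNH hHM hHN hab hco K1.2 K2.2
      exact ⟨⟨n, hn⟩, Subtype.ext h.symm⟩
    have h1 := MulAction.index_stabilizer_of_transitive N (⟨K0, hK0⟩ : Ω)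
    have h2 : M.subgroupOf N ≤ MulAction.stabilizer N (⟨K0, hK0⟩ : Ω) := by
      intro m hm
      rw [MulAction.mem_stabilizer_iff]
      apply Subtype.ext
      exact cj_eq inv_self (hK0.1 hm)
    have h3 := index_dvd_of_le h2
    rw [h1] at h3
    intro h4
    exact hpn (h4.trans h3)
  obtain ⟨K, hK⟩ := hV.nonempty_fixed_point_of_prime_not_dvd_card Ω hcard
  refine ⟨K.1, K.2.1, K.2.2.1, ?_, K.2.2.2, ?_⟩
  · rw [inv_iff]
    intro v hv x hx
    have h1 : cj v K.1 = K.1 := congrArg Subtype.val (hK ⟨v, hv⟩)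
    rw [← h1]
    exact ⟨x, hx, rfl⟩
  · have h1 := relIndex_mul_relIndex M K.1 H K.2.1 K.2.2.1
    have h2 := relIndex_mul_relIndex M N H hMN hNH
    rw [K.2.2.2] at h1
    rw [← h1, mul_comm] at h2
    exact (Nat.eq_of_mul_eq_mul_left (relIndex_pos' N H) h2).symm

end compl

/-- Cauchy for a section -/
lemma cauchy [Finite Γ] {A B : Subgroup Γ} (hB : Inv B A) (k : ℕ)
    (hk : ∀ x ∈ B, x ^ k ∈ A) {t : ℕ} (ht : t.Prime) (htd : t ∣ A.relIndex B) : t ∣ k := by
  have : Fact t.Prime := ⟨ht⟩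
  have hN : (A.subgroupOf B).Normal := by
    refine ⟨fun x hx g => ?_⟩
    rw [mem_subgroupOf] at hx ⊢
    exact inv_iff.1 hB g g.2 x hx
  have h1 : t ∣ Nat.card (B ⧸ A.subgroupOf B) := htd
  obtain ⟨y, hy⟩ := exists_prime_orderOf_dvd_card' t h1
  obtain ⟨x, rfl⟩ := QuotientGroup.mk_surjective y
  rw [← hy]
  apply orderOf_dvd_of_pow_eq_one
  have h2 : ((x : B ⧸ A.subgroupOf B)) ^ k = ((x ^ k : B) : B ⧸ A.subgroupOf B) := rfl
  rw [h2, QuotientGroup.eq_one_iff, mem_subgroupOf]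
  exact hk x x.2

lemma pow_mem_of {M N : Subgroup Γ} (hNM : Inv N M)
    (hab : ∀ a ∈ N, ∀ b ∈ N, a * b * a⁻¹ * b⁻¹ ∈ M) {k : ℕ} {x y : Γ} (hx : x ∈ N) (hy : y ∈ N)
    (hxk : x ^ k ∈ M) (hyk : y ^ k ∈ M) : (x * y) ^ k ∈ M := by
  have hN : (M.subgroupOf N).Normal := by
    refine ⟨fun x hx g => ?_⟩
    rw [mem_subgroupOf] at hx ⊢
    exact inv_iff.1 hNM g g.2 x hx
  have h1 : Commute (((⟨x, hx⟩ : N) : N ⧸ M.subgroupOf N)) (((⟨y, hy⟩ : N) : N ⧸ M.subgroupOf N)) := by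
    show (((⟨x, hx⟩ * ⟨y, hy⟩ : N)) : N ⧸ M.subgroupOf N) =
      (((⟨y, hy⟩ * ⟨x, hx⟩ : N)) : N ⧸ M.subgroupOf N)
    rw [QuotientGroup.eq, mem_subgroupOf]
    have h3 := hab _ (inv_mem hy) _ (inv_mem hx)
    have h4 : (((⟨x, hx⟩ * ⟨y, hy⟩ : N)⁻¹ * (⟨y, hy⟩ * ⟨x, hx⟩) : N) : Γ) =
        y⁻¹ * x⁻¹ * (y⁻¹)⁻¹ * (x⁻¹)⁻¹ := by
      push_cast; group
    rw [h4]; exact h3
  have h2 := h1.mul_pow k
  have h3 : ((((⟨x, hx⟩ : N)) : N ⧸ M.subgroupOf N)) ^ k = 1 := by
    have : ((((⟨x, hx⟩ : N)) : N ⧸ M.subgroupOf N)) ^ k =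
      (((⟨x, hx⟩ : N) ^ k : N) : N ⧸ M.subgroupOf N) := rfl
    rw [this, QuotientGroup.eq_one_iff, mem_subgroupOf]
    exact hxk
  have h4 : ((((⟨y, hy⟩ : N)) : N ⧸ M.subgroupOf N)) ^ k = 1 := by
    have : ((((⟨y, hy⟩ : N)) : N ⧸ M.subgroupOf N)) ^ k =
      (((⟨y, hy⟩ : N) ^ k : N) : N ⧸ M.subgroupOf N) := rfl
    rw [this, QuotientGroup.eq_one_iff, mem_subgroupOf]
    exact hyk
  rw [h3, h4, mul_one] at h2
  have h5 : ((((⟨x, hx⟩ * ⟨y, hy⟩ : N)) ^ k : N) : N ⧸ M.subgroupOf N) = 1 := h2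
  rw [QuotientGroup.eq_one_iff, mem_subgroupOf] at h5
  exact h5

/-- `{x ∈ N | x ^ k ∈ M}` -/
def TT (M N : Subgroup Γ) (k : ℕ) (hNM : Inv N M)
    (hab : ∀ a ∈ N, ∀ b ∈ N, a * b * a⁻¹ * b⁻¹ ∈ M) : Subgroup Γ where
  carrier := {x | x ∈ N ∧ x ^ k ∈ M}
  mul_mem' := fun {x y} hx hy => ⟨mul_mem hx.1 hy.1, pow_mem_of hNM hab hx.1 hy.1 hx.2 hy.2⟩
  one_mem' := ⟨one_mem _, by rw [one_pow]; exact one_mem _⟩
  inv_mem' := fun {x} hx => ⟨inv_mem hx.1, by rw [inv_pow]; exact inv_mem hx.2⟩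

lemma inv_TT {W M N : Subgroup Γ} {k : ℕ} (hNM : Inv N M)
    (hab : ∀ a ∈ N, ∀ b ∈ N, a * b * a⁻¹ * b⁻¹ ∈ M) (hM : Inv W M) (hN : Inv W N) :
    Inv W (TT M N k hNM hab) := by
  rw [inv_iff]
  rintro v hv x ⟨hx1, hx2⟩
  refine ⟨inv_iff.1 hN v hv x hx1, ?_⟩
  rw [conj_pow]
  exact inv_iff.1 hM v hv _ hx2

/-- only the primes `q` and `r` divide `n` -/
def PN (q r n : ℕ) : Prop := ∀ s : ℕ, s.Prime → s ∣ n → s = q ∨ s = r

lemma step [Finite Γ] {p q r : ℕ} (hp : p.Prime) (hq : q.Prime) (hr : r.Prime) (hqr : q ≠ r)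
    {V X N H : Subgroup Γ} (hV : IsPGroup p V) (hpX : ¬ p ∣ Nat.card X)
    (hNX : N ≤ X) (hXN : Inv X N) (hVN : Inv V N) (hXM : Inv X ⁅N, N⁆) (hVM : Inv V ⁅N, N⁆)
    (hNH : N ≤ H) (hHX : H ≤ X) (hVH : Inv V H) (hPN : PN q r (N.relIndex H))
    (hqH : ¬ q ∣ H.relIndex X) (hrH : ¬ r ∣ H.relIndex X) :
    ∃ K, ⁅N, N⁆ ≤ K ∧ K ≤ X ∧ Inv V K ∧ PN q r (⁅N, N⁆.relIndex K) ∧
      ¬ q ∣ K.relIndex X ∧ ¬ r ∣ K.relIndex X := by
  have hMN : ⁅N, N⁆ ≤ N := by
    rw [commutator_le]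
    intro a ha b hb
    rw [commutatorElement_def]
    exact mul_mem (mul_mem (mul_mem ha hb) (inv_mem ha)) (inv_mem hb)
  have hab : ∀ a ∈ N, ∀ b ∈ N, a * b * a⁻¹ * b⁻¹ ∈ ⁅N, N⁆ := by
    intro a ha b hb
    rw [← commutatorElement_def]
    exact commutator_mem_commutator ha hb
  have hNM : Inv N ⁅N, N⁆ := inv_mono hXM hNX
  set n := ⁅N, N⁆.relIndex N with hn
  have hn0 : n ≠ 0 := (relIndex_pos' _ _).ne'
  set k := q ^ n.factorization q * r ^ n.factorization r with hk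
  have hkn : k ∣ n := by
    apply Nat.Coprime.mul_dvd_of_dvd_of_dvd
    · exact Nat.Coprime.pow _ _ ((Nat.coprime_primes hq hr).2 hqr)
    · exact Nat.ordProj_dvd n q
    · exact Nat.ordProj_dvd n r
  obtain ⟨l, hl⟩ := hkn
  have hk0 : k ≠ 0 := by rw [hk]; exact mul_ne_zero (pow_ne_zero _ hq.ne_zero) (pow_ne_zero _ hr.ne_zero)
  have hql : ¬ q ∣ l := by
    rintro ⟨c, hc⟩
    have h1 : q ^ (n.factorization q + 1) ∣ n := by
      refine ⟨r ^ n.factorization r * c, ?_⟩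
      calc n = k * l := hl
        _ = _ := by
          rw [hc, hk]
          generalize n.factorization q = a
          generalize n.factorization r = b
          ring
    exact absurd ((hq.pow_dvd_iff_le_factorization hn0).1 h1) (by omega)
  have hrl : ¬ r ∣ l := by
    rintro ⟨c, hc⟩
    have h1 : r ^ (n.factorization r + 1) ∣ n := by
      refine ⟨q ^ n.factorization q * c, ?_⟩
      calc n = k * l := hl
        _ = _ := by
          rw [hc, hk]
          generalize n.factorization q = a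
          generalize n.factorization r = b
          ring
    exact absurd ((hr.pow_dvd_iff_le_factorization hn0).1 h1) (by omega)
  have hpown : ∀ x ∈ N, x ^ n ∈ ⁅N, N⁆ := by
    intro x hx
    have hN : (⁅N, N⁆.subgroupOf N).Normal := by
      refine ⟨fun x hx g => ?_⟩
      rw [mem_subgroupOf] at hx ⊢
      exact inv_iff.1 hNM g g.2 x hx
    have := Subgroup.pow_index_mem (⁅N, N⁆.subgroupOf N) (⟨x, hx⟩ : N)
    rw [mem_subgroupOf] at this
    exact this
  set T := TT ⁅N, N⁆ N k hNM hab with hT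
  have hTN : T ≤ N := fun x hx => hx.1
  have hMT : ⁅N, N⁆ ≤ T := fun x hx => ⟨hMN hx, pow_mem hx k⟩
  have hXT : Inv X T := inv_TT hNM hab hXM hXN
  have hVT : Inv V T := inv_TT hNM hab hVM hVN
  have h1 : ∀ t : ℕ, t.Prime → t ∣ ⁅N, N⁆.relIndex T → t = q ∨ t = r := by
    intro t ht htd
    have h2 : t ∣ k := cauchy (inv_mono hNM hTN) k (fun x hx => hx.2) ht htd
    rw [hk, ht.dvd_mul] at h2
    rcases h2 with h2 | h2
    · left; exact (Nat.prime_dvd_prime_iff_eq ht hq).1 (ht.dvd_of_dvd_pow h2)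
    · right; exact (Nat.prime_dvd_prime_iff_eq ht hr).1 (ht.dvd_of_dvd_pow h2)
  have h2 : ∀ t : ℕ, t.Prime → t ∣ T.relIndex N → t ∣ l := by
    intro t ht htd
    refine cauchy (inv_mono hXT hNX) l (fun x hx => ⟨pow_mem hx l, ?_⟩) ht htd
    rw [← pow_mul, mul_comm, ← hl]
    exact hpown x hx
  have hco : Nat.Coprime (T.relIndex N) (N.relIndex H) := by
    apply Nat.coprime_of_dvd
    intro t ht ht1 ht2
    have h3 := h2 t ht ht1
    rcases hPN t ht ht2 with rfl | rfl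
    · exact hql h3
    · exact hrl h3
  have hpT : ¬ p ∣ T.relIndex N := by
    intro h3
    apply hpX
    have h4 : T.relIndex N ∣ Nat.card N := relIndex_dvd_card T N
    exact h3.trans (h4.trans (card_dvd_of_le hNX))
  obtain ⟨K, hTK, hKH, hVK, hK1, hK2⟩ := compl_inv hp hV hTN hNH (inv_mono hXT hHX)
    (inv_mono hXN hHX) hVT hVN hVH (fun a ha b hb => hMT (hab a ha b hb)) hco hpT
  refine ⟨K, hMT.trans hTK, hKH.trans hHX, hVK, ?_, ?_, ?_⟩
  · intro t ht htd
    rw [← relIndex_mul_relIndex _ _ _ hMT hTK, hK1, ht.dvd_mul] at htd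
    rcases htd with h | h
    · exact h1 t ht h
    · exact hPN t ht h
  · rw [← relIndex_mul_relIndex _ _ _ hKH hHX, hK2, hq.dvd_mul]
    rintro (h | h)
    · exact hql (h2 q hq h)
    · exact hqH h
  · rw [← relIndex_mul_relIndex _ _ _ hKH hHX, hK2, hr.dvd_mul]
    rintro (h | h)
    · exact hrl (h2 r hr h)
    · exact hrH h

lemma inv_commutator {W N : Subgroup Γ} (h : Inv W N) : Inv W ⁅N, N⁆ := by
  rw [inv_iff]
  intro v hv x hx
  have h1 : (⁅N, N⁆).map (MulAut.conj v).toMonoidHom = ⁅N, N⁆ := by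
    rw [map_commutator, inv_map_eq h hv]
  rw [← h1]
  exact ⟨x, hx, rfl⟩

lemma hall_exists [Finite Γ] {p q r : ℕ} (hp : p.Prime) (hq : q.Prime) (hr : r.Prime)
    (hqr : q ≠ r) {V X : Subgroup Γ} (hV : IsPGroup p V) (hpX : ¬ p ∣ Nat.card X)
    (hVX : Inv V X) (hsol : Group.IsSolvable X) :
    ∃ H ≤ X, Inv V H ∧ PN q r (Nat.card H) ∧ ¬ q ∣ H.relIndex X ∧ ¬ r ∣ H.relIndex X := by
  have key : ∀ i : ℕ, (derivedSeries X i).map X.subtype ≤ X ∧
      Inv X ((derivedSeries X i).map X.subtype) ∧ Inv V ((derivedSeries X i).map X.subtype) ∧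
      ∃ H, (derivedSeries X i).map X.subtype ≤ H ∧ H ≤ X ∧ Inv V H ∧
        PN q r (((derivedSeries X i).map X.subtype).relIndex H) ∧ ¬ q ∣ H.relIndex X ∧
        ¬ r ∣ H.relIndex X := by
    intro i
    induction i with
    | zero =>
      have h0 : (derivedSeries X 0).map X.subtype = X := by
        rw [derivedSeries_zero, ← MonoidHom.range_eq_map, range_subtype]
      rw [h0]
      refine ⟨le_rfl, inv_self, hVX, X, le_rfl, le_rfl, hVX, ?_, ?_, ?_⟩
      · intro s hs hd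
        rw [relIndex_self] at hd
        exact absurd hs (by rw [Nat.dvd_one.1 hd]; exact Nat.not_prime_one)
      · rw [relIndex_self, Nat.dvd_one]; exact hq.one_lt.ne'
      · rw [relIndex_self, Nat.dvd_one]; exact hr.one_lt.ne'
    | succ i ih =>
      obtain ⟨h1, h2, h3, H, h4, h5, h6, h7, h8, h9⟩ := ih
      have hs : (derivedSeries X (i + 1)).map X.subtype =
          ⁅(derivedSeries X i).map X.subtype, (derivedSeries X i).map X.subtype⁆ := by
        rw [derivedSeries_succ, map_commutator]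
      rw [hs]
      refine ⟨?_, inv_commutator h2, inv_commutator h3, ?_⟩
      · rw [← hs]; exact map_subtype_le _
      · exact step hp hq hr hqr hV hpX h1 h2 h3 (inv_commutator h2) (inv_commutator h3) h4 h5 h6
          h7 h8 h9
  obtain ⟨n, hn⟩ := hsol.solvable
  obtain ⟨-, -, -, H, -, h5, h6, h7, h8, h9⟩ := key n
  rw [hn, Subgroup.map_bot, relIndex_bot_left] at h7
  exact ⟨H, h5, h6, h7, h8, h9⟩

lemma prod_of [Finite Γ] {q r : ℕ} (hq : q.Prime) (hr : r.Prime) (hqr : q ≠ r)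
    {Y A B : Subgroup Γ} (hY : PN q r (Nat.card Y)) (hA : A ≤ Y) (hB : B ≤ Y)
    (hqA : IsPGroup q A) (hrB : IsPGroup r B) (hA' : ¬ q ∣ A.relIndex Y)
    (hB' : ¬ r ∣ B.relIndex Y) :
    Nat.card Y = Nat.card A * Nat.card B ∧ ∀ y ∈ Y, ∃ a ∈ A, ∃ b ∈ B, y = a * b := by
  have : Fact q.Prime := ⟨hq⟩
  have : Fact r.Prime := ⟨hr⟩
  have hco : Nat.Coprime (Nat.card A) (Nat.card B) :=
    IsPGroup.coprime_card_of_ne q r hqr A B hqA hrB
  have hdvd : Nat.card A * Nat.card B ∣ Nat.card Y :=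
    Nat.Coprime.mul_dvd_of_dvd_of_dvd hco (card_dvd_of_le hA) (card_dvd_of_le hB)
  obtain ⟨c, hc⟩ := hdvd
  have hc1 : c = 1 := by
    by_contra hne
    obtain ⟨s, hs, hsc⟩ := Nat.exists_prime_and_dvd hne
    have h1 := hY s hs (hc ▸ (hsc.trans (dvd_mul_left c _)))
    rcases h1 with rfl | rfl
    · apply hA'
      have h2 : A.relIndex Y * Nat.card A = Nat.card Y := by
        rw [← relIndex_bot_left A, ← relIndex_bot_left Y, mul_comm]
        exact relIndex_mul_relIndex _ _ _ bot_le hA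
      rw [hc] at h2
      have h3 : A.relIndex Y = Nat.card B * c := by
        apply Nat.eq_of_mul_eq_mul_left (Nat.card_pos (α := A))
        rw [mul_comm, h2]; ring
      rw [h3]; exact hsc.trans (dvd_mul_left c _)
    · apply hB'
      have h2 : B.relIndex Y * Nat.card B = Nat.card Y := by
        rw [← relIndex_bot_left B, ← relIndex_bot_left Y, mul_comm]
        exact relIndex_mul_relIndex _ _ _ bot_le hB
      rw [hc] at h2
      have h3 : B.relIndex Y = Nat.card A * c := by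
        apply Nat.eq_of_mul_eq_mul_left (Nat.card_pos (α := B))
        rw [mul_comm, h2]; ring
      rw [h3]; exact hsc.trans (dvd_mul_left c _)
  rw [hc1, mul_one] at hc
  refine ⟨hc, ?_⟩
  have hcA : Nat.card (A.subgroupOf Y) = Nat.card A :=
    Nat.card_congr (subgroupOfEquivOfLe hA).toEquiv
  have hcB : Nat.card (B.subgroupOf Y) = Nat.card B :=
    Nat.card_congr (subgroupOfEquivOfLe hB).toEquiv
  have hcomp : IsComplement' (A.subgroupOf Y) (B.subgroupOf Y) := by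
    apply isComplement'_of_coprime
    · rw [hcA, hcB, hc]
    · rw [hcA, hcB]; exact hco
  intro y hy
  obtain ⟨⟨a, b⟩, hab⟩ := hcomp.2 ⟨y, hy⟩
  refine ⟨a.1.1, a.2, b.1.1, b.2, ?_⟩
  have := congrArg Subtype.val hab
  exact this.symm

lemma syl_le_of_index [Finite Γ] {q : ℕ} (hq : q.Prime) {A S H X : Subgroup Γ}
    (hAS : A ≤ S) (hS : IsPGroup q S) (hSX : S ≤ X) (hAH : A ≤ H) (hHX : H ≤ X)
    (h1 : ¬ q ∣ A.relIndex H) (h2 : ¬ q ∣ H.relIndex X) : S ≤ A := by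
  have : Fact q.Prime := ⟨hq⟩
  obtain ⟨n, hn⟩ := hS.index (A.subgroupOf S)
  have h3 : A.relIndex S = q ^ n := hn
  rcases Nat.eq_zero_or_pos n with h0 | h0
  · rw [h0, pow_zero, relIndex_eq_one] at h3
    exact h3
  · exfalso
    have h4 : q ∣ A.relIndex X := by
      rw [← relIndex_mul_relIndex A S X hAS hSX, h3]
      exact (dvd_pow_self q h0.ne').mul_right _
    rw [← relIndex_mul_relIndex A H X hAH hHX, hq.dvd_mul] at h4
    rcases h4 with h4 | h4
    · exact h1 h4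
    · exact h2 h4

end ModA4

open ModA4 in
theorem a4 (hCop : StmtCop) (_hFix : StmtFix) (hSyl : StmtSyl) : StmtHall := by
  intro Γ _ _ p V X q r hV hVX hcen hsol hq hr hne
  have hpX := hCop Γ p V X hV hVX hcen
  have hcenY : ∀ Y ≤ X, cen Y V = ⊥ := by
    intro Y hY
    rw [eq_bot_iff, ← hcen]
    exact inf_le_inf_right _ hY
  have hY : ∀ Y ≤ X, Inv V Y → IsPi q r Y →
      Nat.card Y = Nat.card (syl V q Y) * Nat.card (syl V r Y) ∧
        ∀ y ∈ Y, ∃ a ∈ syl V q Y, ∃ b ∈ syl V r Y, y = a * b := by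
    intro Y hYX hVY hPi
    have h1 := hSyl Γ p V Y q hV hVY (hcenY Y hYX) hq
    have h2 := hSyl Γ p V Y r hV hVY (hcenY Y hYX) hr
    exact prod_of hq hr hne hPi h1.1 h2.1 h1.2.2.1 h2.2.2.1 h1.2.2.2.1 h2.2.2.2.1
  obtain ⟨H, hHX, hVH, hPi, hqH, hrH⟩ := hall_exists hV.prime hq hr hne hV.isPGroup hpX hVX hsol
  have hXq := hSyl Γ p V X q hV hVX hcen hq
  have hXr := hSyl Γ p V X r hV hVX hcen hr
  have hHq := hSyl Γ p V H q hV hVH (hcenY H hHX) hq
  have hHr := hSyl Γ p V H r hV hVH (hcenY H hHX) hr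
  have hsub : ∀ Y ≤ X, Inv V Y → syl V q Y ≤ syl V q X ∧ syl V r Y ≤ syl V r X := by
    intro Y hYX hVY
    rw [hXq.2.2.2.2 Y hYX hVY, hXr.2.2.2.2 Y hYX hVY]
    exact ⟨inf_le_right, inf_le_right⟩
  have hq1 : syl V q X ≤ syl V q H := syl_le_of_index hq (hsub H hHX hVH).1 hXq.2.2.1 hXq.1
    hHq.1 hHX hHq.2.2.2.1 hqH
  have hr1 : syl V r X ≤ syl V r H := syl_le_of_index hr (hsub H hHX hVH).2 hXr.2.2.1 hXr.1
    hHr.1 hHX hHr.2.2.2.1 hrH
  have hqe : syl V q H = syl V q X := le_antisymm (hsub H hHX hVH).1 hq1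
  have hre : syl V r H = syl V r X := le_antisymm (hsub H hHX hVH).2 hr1
  have hH := hY H hHX hVH hPi
  have hle : ∀ Y ≤ X, Inv V Y → IsPi q r Y → Y ≤ hall V q r X := by
    intro Y hYX hVY hPiY y hy
    obtain ⟨a, ha, b, hb, rfl⟩ := (hY Y hYX hVY hPiY).2 y hy
    exact mul_mem (le_sup_left (a := syl V q X) ((hsub Y hYX hVY).1 ha))
      (le_sup_right (a := syl V q X) ((hsub Y hYX hVY).2 hb))
  have heq : hall V q r X = H := by
    apply le_antisymm
    · unfold hall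
      exact sup_le (hq1.trans hHq.1) (hr1.trans hHr.1)
    · exact hle H hHX hVH hPi
  refine ⟨?_, ?_, hle⟩
  · rw [heq, ← hqe, ← hre]; exact hH.2
  · rw [heq, ← hqe, ← hre]; exact hH.1

end Pool.Agent.T6.H88.FP
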