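import Pool.Agent.T6.H88.FP.Defs

/-! # Project FP, module A5 (helper3): generation by the centralisers of hyperplanes -/

namespace Pool.Agent.T6.H88.FP

open Subgroup

namespace ModA5

section action

variable {V A : Type} [Group V] [CommGroup A] [MulDistribMulAction V A]

/-- the norm of `x` with respect to the cyclic group generated by `v` -/
def nm (p : ℕ) (v : V) (x : A) : A := ∏ j ∈ Finset.range p, v ^ j • x

lemma smul_nm (p : ℕ) (v : V) (hv : v ^ p = 1) (x : A) : v • nm p v x = nm p v x := by
  unfold nm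
  have h1 : v • ∏ j ∈ Finset.range p, v ^ j • x = ∏ j ∈ Finset.range p, v ^ (j + 1) • x := by
    rw [Finset.smul_prod']
    refine Finset.prod_congr rfl fun j _ => ?_
    rw [smul_smul, pow_succ']
  rw [h1]
  have h2 := Finset.prod_range_succ (fun j => v ^ j • x) p
  have h3 := Finset.prod_range_succ' (fun j => v ^ j • x) p
  rw [h2] at h3
  simp only [hv, one_smul, pow_zero] at h3
  exact (mul_right_cancel h3).symm

lemma smul_nm_comm (p : ℕ) (v c : V) (hc : c * v = v * c) (x : A) (hx : c • x = x) :
    c • nm p v x = nm p v x := by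
  unfold nm
  rw [Finset.smul_prod']
  refine Finset.prod_congr rfl fun j _ => ?_
  have h : c * v ^ j = v ^ j * c := (Commute.pow_right hc j).eq
  rw [smul_smul, h, ← smul_smul, hx]

lemma pow_smul_fix (v : V) (x : A) (h : v • x = x) (n : ℕ) : v ^ n • x = x := by
  induction n with
  | zero => simp
  | succ n ih => rw [pow_succ, ← smul_smul, h, ih]

/-- the basic identity -/
lemma key (p : ℕ) (hp : p.Prime) (a b : V) (hab : a * b = b * a) (x : A) :
    ∏ i ∈ Finset.range p, nm p (a * b ^ i) x =
      x ^ p * ∏ j ∈ Finset.range (p - 1), a ^ (j + 1) • nm p (b ^ (j + 1)) x := by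
  unfold nm
  rw [Finset.prod_comm]
  have h0 : p = (p - 1) + 1 := by have := hp.one_lt; omega
  have h1 : ∀ (f : ℕ → A), ∏ j ∈ Finset.range p, f j =
      f 0 * ∏ j ∈ Finset.range (p - 1), f (j + 1) := by
    intro f
    conv_lhs => rw [h0]
    rw [Finset.prod_range_succ', mul_comm]
  rw [h1]
  congr 1
  · simp
  · refine Finset.prod_congr rfl fun j _ => ?_
    rw [Finset.smul_prod']
    refine Finset.prod_congr rfl fun i _ => ?_
    rw [smul_smul]
    congr 1
    have hc : Commute a (b ^ i) := Commute.pow_right hab i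
    rw [hc.mul_pow, ← pow_mul, ← pow_mul, mul_comm i]

lemma abel [Finite V] [Finite A] (p : ℕ) (hp : p.Prime) (hexp : ∀ v : V, v ^ p = 1)
    (hcomm : ∀ v w : V, v * w = w * v) (hA : ¬ p ∣ Nat.card A) (H : Subgroup A)
    (h : ∀ K : Subgroup V, K.index ∣ p → ∀ x : A, (∀ k ∈ K, k • x = x) → x ∈ H) (x : A) :
    x ∈ H := by
  have main : ∀ B : Subgroup V, ∀ x : A, (∀ k ∈ B, k • x = x) → x ∈ H := by
    intro B
    induction B using WellFoundedGT.induction with
    | ind B ih =>
    intro x hx
    by_cases hB : B.index ∣ p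
    · exact h B hB x hx
    -- two independent elements
    have hnorm : B.Normal := ⟨fun n hn g => by
      rw [hcomm g n, mul_assoc, mul_inv_cancel, mul_one]; exact hn⟩
    have hcyc : ∀ b : V, ∃ a : V, (QuotientGroup.mk a : V ⧸ B) ∉
        zpowers (QuotientGroup.mk b : V ⧸ B) := by
      intro b
      by_contra hcon
      push Not at hcon
      apply hB
      have h1 : zpowers (QuotientGroup.mk b : V ⧸ B) = ⊤ := by
        rw [eq_top_iff]
        intro q _
        induction q using QuotientGroup.induction_on with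
        | H a => exact hcon a
      have h2 : Nat.card (V ⧸ B) = orderOf (QuotientGroup.mk b : V ⧸ B) := by
        rw [← Nat.card_zpowers, h1, Nat.card_congr (Subgroup.topEquiv.toEquiv)]
      have h3 : B.index = Nat.card (V ⧸ B) := rfl
      rw [h3, h2]
      apply orderOf_dvd_of_pow_eq_one
      rw [← QuotientGroup.mk_pow, hexp, QuotientGroup.mk_one]
    have hne : ∃ b : V, b ∉ B := by
      by_contra hcon
      push Not at hcon
      apply hB
      have : B = ⊤ := by rw [eq_top_iff]; exact fun v _ => hcon v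
      rw [this, Subgroup.index_top]
      exact one_dvd _
    obtain ⟨b, hb⟩ := hne
    obtain ⟨a, ha⟩ := hcyc b
    have hab : ∀ i : ℕ, a * b ^ i ∉ B := by
      intro i hi
      apply ha
      have h1 : (QuotientGroup.mk (a * b ^ i) : V ⧸ B) = 1 :=
        (QuotientGroup.eq_one_iff _).2 hi
      rw [QuotientGroup.mk_mul, QuotientGroup.mk_pow] at h1
      rw [eq_inv_of_mul_eq_one_left h1]
      exact (zpowers (QuotientGroup.mk b : V ⧸ B)).inv_mem
        ((zpowers _).pow_mem (mem_zpowers _) i)
    -- elements fixed by `B` and by `v ∉ B`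
    have hfix : ∀ v : V, v ∉ B → ∀ y : A, (∀ k ∈ B, k • y = y) → v • y = y → y ∈ H := by
      intro v hv y hy hvy
      refine ih (B ⊔ zpowers v) ?_ y ?_
      · refine lt_of_le_of_ne le_sup_left fun heq => hv ?_
        rw [heq]
        exact (le_sup_right : zpowers v ≤ B ⊔ zpowers v) (mem_zpowers v)
      · have h1 : B ⊔ zpowers v ≤ MulAction.stabilizer V y := by
          refine sup_le (fun k hk => hy k hk) ?_
          rw [zpowers_le]
          exact hvy
        exact fun k hk => h1 hk
    have hN : ∀ i ∈ Finset.range p, nm p (a * b ^ i) x ∈ H := by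
      intro i _
      refine hfix _ (hab i) _ (fun k hk => ?_) (smul_nm p _ (hexp _) x)
      exact smul_nm_comm p _ k (hcomm _ _) x (hx k hk)
    have hM : ∀ j ∈ Finset.range (p - 1), a ^ (j + 1) • nm p (b ^ (j + 1)) x ∈ H := by
      intro j hj
      rw [Finset.mem_range] at hj
      have hfb : b • nm p (b ^ (j + 1)) x = nm p (b ^ (j + 1)) x := by
        have h1 : (b ^ (j + 1)) • nm p (b ^ (j + 1)) x = nm p (b ^ (j + 1)) x :=
          smul_nm p _ (hexp _) x
        have hcop : Nat.Coprime (j + 1) p := by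
          rw [Nat.coprime_comm, Nat.Prime.coprime_iff_not_dvd hp]
          intro hd
          have := Nat.le_of_dvd (by omega) hd
          omega
        obtain ⟨m, -, hm⟩ := Nat.exists_mul_mod_eq_one_of_coprime hcop hp.one_lt
        have h2 := pow_smul_fix _ _ h1 m
        rw [← pow_mul] at h2
        have h3 : b ^ ((j + 1) * m) = b := by
          conv_lhs => rw [← Nat.div_add_mod ((j + 1) * m) p, hm]
          rw [pow_add, pow_mul, hexp, one_pow, one_mul, pow_one]
        rwa [h3] at h2
      refine hfix b hb _ (fun k hk => ?_) ?_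
      · rw [smul_smul, hcomm k, ← smul_smul, smul_nm_comm p _ k (hcomm _ _) x (hx k hk)]
      · rw [smul_smul, hcomm b, ← smul_smul, hfb]
    have hxp : x ^ p ∈ H := by
      have hk := key p hp a b (hcomm a b) x
      have h1 : x ^ p = (∏ i ∈ Finset.range p, nm p (a * b ^ i) x) *
          (∏ j ∈ Finset.range (p - 1), a ^ (j + 1) • nm p (b ^ (j + 1)) x)⁻¹ := by
        rw [hk, mul_inv_cancel_right]
      rw [h1]
      exact H.mul_mem (H.prod_mem hN) (H.inv_mem (H.prod_mem hM))
    -- `p` is prime to the order of `x`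
    have hcop : Nat.Coprime p (Nat.card A) := (Nat.Prime.coprime_iff_not_dvd hp).2 hA
    have hco : Nat.Coprime p (orderOf x) := hcop.coprime_dvd_right (orderOf_dvd_natCard x)
    obtain ⟨m, hm⟩ := exists_pow_eq_self_of_coprime hco
    rw [← hm]
    exact H.pow_mem hxp m
  exact main ⊥ x fun k hk => by
    rw [Subgroup.mem_bot] at hk
    rw [hk, one_smul]

end action

section quot

variable {Γ : Type} [Group Γ]

lemma inv_iff {V X : Subgroup Γ} : Inv V X ↔ ∀ v ∈ V, ∀ x ∈ X, v * x * v⁻¹ ∈ X := by
  constructor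
  · intro h v hv x hx
    exact (mem_normalizer_iff.1 (h hv) x).1 hx
  · intro h v hv
    refine mem_normalizer_iff.2 fun x => ⟨fun hx => h v hv x hx, fun hx => ?_⟩
    have := h v⁻¹ (inv_mem hv) _ hx
    simpa [mul_assoc] using this

lemma mem_cen {X : Subgroup Γ} {B : Set Γ} {x : Γ} :
    x ∈ cen X B ↔ x ∈ X ∧ ∀ b ∈ B, b * x = x * b := by
  unfold cen
  rw [mem_inf, mem_centralizer_iff]

/-- conjugation by `v` on `X` -/
def cj (V X : Subgroup Γ) (h : Inv V X) (v : V) : X →* X where
  toFun x := ⟨(v : Γ) * x * (v : Γ)⁻¹, inv_iff.1 h v v.2 x x.2⟩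
  map_one' := by ext; simp
  map_mul' x y := by ext; simp [mul_assoc]

/-- conjugation by `v` on `X / N` -/
def cq (V X N : Subgroup Γ) (hX : Inv V X) (hN : Inv V N) [(N.subgroupOf X).Normal] (v : V) :
    X ⧸ N.subgroupOf X →* X ⧸ N.subgroupOf X :=
  QuotientGroup.map _ _ (cj V X hX v) (by
    intro x hx
    rw [mem_subgroupOf] at hx
    rw [mem_comap, mem_subgroupOf]
    exact inv_iff.1 hN v v.2 x hx)

lemma layer [Finite Γ] (hLift : StmtLift) (p : ℕ) (V X N Y : Subgroup Γ) (hV : ElAb p V)
    (hX : Inv V X) (hN : Inv V N) (hNX : N ≤ X) (hXN : Inv X N)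
    (hab : ∀ x ∈ X, ∀ y ∈ X, x * y * x⁻¹ * y⁻¹ ∈ N) (hp : ¬ p ∣ Nat.card X) (hNY : N ≤ Y)
    (hY : ∀ K ≤ V, K.relIndex V ∣ p → cen X K ≤ Y) : X ≤ Y := by
  have hnorm : (N.subgroupOf X).Normal := ⟨fun n hn g => by
    rw [mem_subgroupOf] at *
    exact inv_iff.1 hXN g g.2 n hn⟩
  let A := X ⧸ N.subgroupOf X
  let _ : CommGroup A :=
    { (inferInstance : Group (X ⧸ N.subgroupOf X)) with
      mul_comm := by
        intro x y
        induction x using QuotientGroup.induction_on with
        | H x =>
        induction y using QuotientGroup.induction_on with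
        | H y =>
        rw [← QuotientGroup.mk_mul, ← QuotientGroup.mk_mul]
        refine QuotientGroup.eq.2 ?_
        rw [mem_subgroupOf]
        have := hab (y : Γ)⁻¹ (X.inv_mem y.2) (x : Γ)⁻¹ (X.inv_mem x.2)
        simpa [mul_assoc] using this }
  let _ : MulDistribMulAction V A :=
    { smul := fun v x => cq V X N hX hN v x
      one_smul := by
        intro x
        induction x using QuotientGroup.induction_on with
        | H x =>
        refine QuotientGroup.eq.2 ?_
        rw [mem_subgroupOf]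
        simp [cj, N.one_mem]
      mul_smul := by
        intro v w x
        induction x using QuotientGroup.induction_on with
        | H x =>
        refine QuotientGroup.eq.2 ?_
        rw [mem_subgroupOf]
        simp [cj, N.one_mem, mul_assoc]
      smul_mul := fun v x y => map_mul (cq V X N hX hN v) x y
      smul_one := fun v => map_one (cq V X N hX hN v) }
  have hA : ¬ p ∣ Nat.card A := by
    intro hd
    apply hp
    exact hd.trans (Subgroup.card_quotient_dvd_card _)
  have hNp : ¬ p ∣ Nat.card N := fun hd => hp (hd.trans (card_dvd_of_le hNX))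
  let H : Subgroup A := (Y.subgroupOf X).map (QuotientGroup.mk' (N.subgroupOf X))
  have hmem : ∀ g : X, (QuotientGroup.mk g : A) ∈ H → (g : Γ) ∈ Y := by
    rintro g ⟨y, hy, hyg⟩
    have h1 := QuotientGroup.eq.1 hyg
    rw [mem_subgroupOf] at h1
    have h2 : (g : Γ) = y * ((y⁻¹ * g : X) : Γ) := by simp
    rw [h2]
    exact Y.mul_mem hy (hNY h1)
  have hall := abel (V := V) (A := A) p hV.prime
    (fun v => Subtype.ext (hV.exp v v.2)) (fun v w => Subtype.ext (hV.comm v v.2 w w.2)) hA H (by
    intro K hK x hx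
    induction x using QuotientGroup.induction_on with
    | H g =>
    have hK' : (K.map V.subtype).relIndex V ∣ p := by
      have : (K.map V.subtype).relIndex V = K.index := by
        unfold relIndex
        rw [show (K.map V.subtype).subgroupOf V = K from
          Subgroup.comap_map_eq_self_of_injective V.subtype_injective K]
      rw [this]
      exact hK
    have hKV : K.map V.subtype ≤ V := Subgroup.map_subtype_le K
    have hPG : IsPGroup p (K.map V.subtype) := by
      rintro ⟨_, v, hv, rfl⟩
      refine ⟨1, ?_⟩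
      rw [pow_one]
      exact Subtype.ext (hV.exp _ v.2)
    have hfx : ∀ b ∈ K.map V.subtype, (g : Γ)⁻¹ * (b * g * b⁻¹) ∈ N := by
      rintro _ ⟨v, hv, rfl⟩
      have h1 := hx v hv
      have h2 := QuotientGroup.eq.1 h1.symm
      rw [mem_subgroupOf] at h2
      exact h2
    obtain ⟨n, hn, hn'⟩ := hLift Γ p (K.map V.subtype) N g hV.prime hPG (hKV.trans hN) hNp hfx
    have h1 : (g : Γ) * n ∈ cen X ((K.map V.subtype : Subgroup Γ) : Set Γ) :=
      mem_cen.2 ⟨X.mul_mem g.2 (hNX hn), fun b hb => hn' b hb⟩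
    have h2 := hY _ hKV hK' h1
    refine ⟨⟨(g : Γ) * n, X.mul_mem g.2 (hNX hn)⟩, h2, ?_⟩
    refine QuotientGroup.eq.2 ?_
    rw [mem_subgroupOf]
    simpa using hn)
  intro x hx
  exact hmem ⟨x, hx⟩ (hall _)

/-- the derived series as subgroups of `Γ` -/
def ds (X : Subgroup Γ) : ℕ → Subgroup Γ
  | 0 => X
  | n + 1 => ⁅ds X n, ds X n⁆

lemma ds_eq (X : Subgroup Γ) (n : ℕ) : ds X n = (derivedSeries X n).map X.subtype := by
  induction n with
  | zero => rw [derivedSeries_zero, ← MonoidHom.range_eq_map, Subgroup.range_subtype]; rfl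
  | succ n ih =>
    rw [ds, ih, derivedSeries_succ, map_commutator]

lemma ds_le (X : Subgroup Γ) (n : ℕ) : ds X n ≤ X := by
  rw [ds_eq]
  exact map_subtype_le _

lemma inv_ds {V X : Subgroup Γ} (h : Inv V X) (n : ℕ) : Inv V (ds X n) := by
  induction n with
  | zero => exact h
  | succ n ih =>
    rw [inv_iff] at ih ⊢
    intro v hv x hx
    have h1 : (ds X (n + 1)).map (MulAut.conj v).toMonoidHom ≤ ds X (n + 1) := by
      unfold ds
      rw [map_commutator]
      refine commutator_mono ?_ ?_ <;>
      · rintro _ ⟨y, hy, rfl⟩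
        exact ih v hv y hy
    exact h1 ⟨x, hx, rfl⟩

end quot

end ModA5

open ModA5 in
theorem a5_gen (hLift : StmtLift) : StmtGen := by
  intro Γ _ _ p V X Y hV hX hp hsol hY
  obtain ⟨n, hn⟩ := hsol.1
  have hcl : ∀ m : ℕ, m ≤ n → ds X (n - m) ≤ Y := by
    intro m
    induction m with
    | zero =>
      intro _
      rw [Nat.sub_zero, ds_eq, hn, Subgroup.map_bot]
      exact bot_le
    | succ m ih =>
      intro hm
      have h1 := ih (by omega)
      have h2 : n - m = (n - (m + 1)) + 1 := by omega
      rw [h2] at h1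
      set k := n - (m + 1) with hk
      refine layer hLift p V (ds X k) (ds X (k + 1)) Y hV (inv_ds hX _) (inv_ds hX _) ?_
        (inv_iff.2 ?_) ?_ (fun hd => hp (hd.trans (card_dvd_of_le (ds_le X k)))) h1
        fun K hK hi => le_trans (inf_le_inf_right _ (ds_le X k)) (hY K hK hi)
      · exact commutator_le_self _
      · intro v hv x hx
        have h3 := inv_ds (X := ds X k) (V := ds X k) le_normalizer 1
        exact inv_iff.1 h3 v hv x hx
      · intro x hx y hy
        exact commutator_mem_commutator hx hy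
  have := hcl n le_rfl
  rwa [Nat.sub_self] at this


theorem a5_gen2 (hGen : StmtGen) : StmtGen2 := by
  intro Γ _ _ p V X Y hV hc hX hp hsol hY
  refine hGen Γ p V X Y hV hX hp hsol fun K hK hi => ?_
  have hne : K ≠ ⊥ := by
    rintro rfl
    rw [relIndex_bot_left] at hi
    exact hc hi
  obtain ⟨v', hv'⟩ := Subgroup.ne_bot_iff_exists_ne_one.1 hne
  obtain ⟨v, hv, hv1⟩ : ∃ v ∈ K, v ≠ 1 := ⟨v'.1, v'.2, fun h' => hv' (Subtype.ext h')⟩
  refine le_trans ?_ (hY v (hK hv) hv1)
  exact inf_le_inf_left _ (centralizer_le (by simpa using hv))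

theorem a5 (hLift : StmtLift) (_hFix : StmtFix) : StmtGen ∧ StmtGen2 :=
  ⟨a5_gen hLift, a5_gen2 (a5_gen hLift)⟩

end Pool.Agent.T6.H88.FP
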