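import Pool.Agent.T6.H88.FP.Tools

/-! # Project FP, module A6: products detected by hyperplanes -/

namespace Pool.Agent.T6.H88.FP

open Subgroup

namespace ModA6

section hyper

variable {Γ : Type} [Group Γ] [Finite Γ] {p : ℕ} {V : Subgroup Γ}

/-- hyperplanes -/
noncomputable def HH (p : ℕ) (V : Subgroup Γ) : Finset (Subgroup Γ) :=
  (Set.toFinite {K | K ≤ V ∧ K.relIndex V = p}).toFinset

lemma mem_HH {K : Subgroup Γ} : K ∈ HH p V ↔ K ≤ V ∧ K.relIndex V = p := by simp [HH]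

lemma sup_HH (hp : p.Prime) {K K0 : Subgroup Γ} (hK : K ∈ HH p V) (hK0 : K0 ∈ HH p V)
    (hne : K ≠ K0) : K ⊔ K0 = V := by
  rw [mem_HH] at hK hK0
  have hle : K ⊔ K0 ≤ V := sup_le hK.1 hK0.1
  have h1 := relIndex_mul_relIndex K (K ⊔ K0) V le_sup_left hle
  rw [hK.2] at h1
  refine le_antisymm hle ?_
  rcases (Nat.dvd_prime hp).1 (Dvd.intro _ h1) with h2 | h2
  · exfalso
    apply hne
    have h3 : K0 ≤ K := le_sup_right.trans (relIndex_eq_one.1 h2)
    have h4 := relIndex_mul_relIndex K0 K V h3 hK.1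
    rw [hK.2, hK0.2] at h4
    have h5 : K0.relIndex K = 1 := by
      have := hp.pos
      exact Nat.eq_of_mul_eq_mul_right this (by rw [h4, one_mul])
    exact le_antisymm (relIndex_eq_one.1 h5) h3
  · rw [h2] at h1
    have h5 : (K ⊔ K0).relIndex V = 1 := by
      have := hp.pos
      exact Nat.eq_of_mul_eq_mul_left this (by rw [h1, mul_one])
    exact relIndex_eq_one.1 h5

/-- independence of the fixed point groups of the hyperplanes -/
lemma indep {Q : Type} [CommGroup Q] [Finite Q] (hV : ElAb p V) (f : Γ → Q → Q)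
    (hmul : ∀ v ∈ V, ∀ x y, f v (x * y) = f v x * f v y)
    (hcomp : ∀ v ∈ V, ∀ w ∈ V, ∀ x, f (v * w) x = f v (f w x)) (h1 : ∀ x, f 1 x = x)
    (hpQ : ¬ p ∣ Nat.card Q) (hfix : ∀ x, (∀ v ∈ V, f v x = x) → x = 1)
    (x : Subgroup Γ → Q) (hx : ∀ K ∈ HH p V, ∀ v ∈ K, f v (x K) = x K)
    (hprod : ∏ K ∈ HH p V, x K = 1) : ∀ K ∈ HH p V, x K = 1 := by
  classical
  intro K0 hK0
  have hK0V : K0 ≤ V := (mem_HH.1 hK0).1
  let F : V → (Q →* Q) := fun v =>
    { toFun := f v.1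
      map_one' := by
        have := hmul v.1 v.2 1 1
        rw [mul_one] at this
        exact (mul_eq_left.1 this.symm)
      map_mul' := hmul v.1 v.2 }
  have : Fintype K0 := Fintype.ofFinite _
  let N : Q → Q := fun y => ∏ v : K0, F ⟨v.1, hK0V v.2⟩ y
  have hNprod : N (∏ K ∈ HH p V, x K) = ∏ K ∈ HH p V, N (x K) := by
    simp only [N, map_prod]
    exact Finset.prod_comm
  have hN1 : N 1 = 1 := by simp [N]
  have hNK : ∀ K ∈ HH p V, K ≠ K0 → N (x K) = 1 := by
    intro K hK hne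
    have hKV : K ≤ V := (mem_HH.1 hK).1
    apply hfix
    let St : Subgroup Γ :=
      { carrier := {v | v ∈ V ∧ f v (N (x K)) = N (x K)}
        mul_mem' := by
          rintro a b ⟨ha, ha'⟩ ⟨hb, hb'⟩
          exact ⟨V.mul_mem ha hb, by rw [hcomp a ha b hb, hb', ha']⟩
        one_mem' := ⟨V.one_mem, h1 _⟩
        inv_mem' := by
          rintro a ⟨ha, ha'⟩
          refine ⟨V.inv_mem ha, ?_⟩
          have h2 := hcomp a⁻¹ (V.inv_mem ha) a ha (N (x K))
          rw [inv_mul_cancel, h1, ha'] at h2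
          exact h2.symm }
    have hSt0 : K0 ≤ St := by
      intro v hv
      refine ⟨hK0V hv, ?_⟩
      change F ⟨v, hK0V hv⟩ (∏ w : K0, F ⟨w.1, hK0V w.2⟩ (x K)) = _
      rw [map_prod]
      refine Fintype.prod_equiv (Equiv.mulLeft (⟨v, hv⟩ : K0)) _ _ fun w => ?_
      exact (hcomp v (hK0V hv) w.1 (hK0V w.2) (x K)).symm
    have hStK : K ≤ St := by
      intro v hv
      refine ⟨hKV hv, ?_⟩
      change F ⟨v, hKV hv⟩ (∏ w : K0, F ⟨w.1, hK0V w.2⟩ (x K)) = _
      rw [map_prod]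
      refine Finset.prod_congr rfl fun w _ => ?_
      change f v (f w.1 (x K)) = f w.1 (x K)
      rw [← hcomp v (hKV hv) w.1 (hK0V w.2), hV.comm v (hKV hv) w.1 (hK0V w.2),
        hcomp w.1 (hK0V w.2) v (hKV hv), hx K hK v hv]
    have hVSt : V ≤ St := by
      rw [← sup_HH hV.prime hK hK0 hne]
      exact sup_le hStK hSt0
    exact fun v hv => (hVSt hv).2
  have hN0 : N (x K0) = x K0 ^ Nat.card K0 := by
    have h2 : ∀ v : K0, F ⟨v.1, hK0V v.2⟩ (x K0) = x K0 := fun v => hx K0 hK0 v.1 v.2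
    simp only [N, h2, Finset.prod_const, Finset.card_univ, Nat.card_eq_fintype_card]
  have h3 : x K0 ^ Nat.card K0 = 1 := by
    rw [← hN0]
    rw [hprod, hN1, ← Finset.mul_prod_erase _ _ hK0, Finset.prod_eq_one, mul_one] at hNprod
    · exact hNprod.symm
    · intro K hK
      exact hNK K (Finset.mem_of_mem_erase hK) (Finset.ne_of_mem_erase hK)
  have hcop : Nat.Coprime (Nat.card K0) (Nat.card Q) := by
    have : Fact p.Prime := ⟨hV.prime⟩
    obtain ⟨k, hk⟩ := IsPGroup.iff_card.1 (hV.mono hK0V).isPGroup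
    rw [hk]
    exact Nat.Coprime.pow_left _ ((Nat.Prime.coprime_iff_not_dvd hV.prime).2 hpQ)
  have h4 : orderOf (x K0) ∣ 1 := by
    rw [← hcop]
    exact Nat.dvd_gcd (orderOf_dvd_of_pow_eq_one h3) (orderOf_dvd_natCard _)
  exact orderOf_eq_one_iff.1 (Nat.dvd_one.1 h4)

/-- counting: if the subgroups `D K` are independent and generate -/
lemma count {Q : Type} [CommGroup Q] [Finite Q] {ι : Type} (s : Finset ι) (D : ι → Subgroup Q)
    (hind : ∀ x : ι → Q, (∀ i ∈ s, x i ∈ D i) → ∏ i ∈ s, x i = 1 → ∀ i ∈ s, x i = 1)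
    (hgen : ∀ Y : Subgroup Q, (∀ i ∈ s, D i ≤ Y) → Y = ⊤) :
    Nat.card Q = ∏ i ∈ s, Nat.card (D i) := by
  classical
  let Φ : (∀ i : s, D i.1) →* Q :=
    { toFun := fun x => ∏ i : s, (x i : Q)
      map_one' := by simp
      map_mul' := by
        intro x y
        simp [Finset.prod_mul_distrib] }
  have hΦ : ∀ x : (∀ i : s, D i.1), Φ x = ∏ i : s, (x i : Q) := fun x => rfl
  have hinj : Function.Injective Φ := by
    rw [injective_iff_map_eq_one]
    intro x hx
    rw [hΦ] at hx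
    let y : ι → Q := fun i => if h : i ∈ s then (x ⟨i, h⟩ : Q) else 1
    have hy : ∀ i : s, y i.1 = x i := by
      intro i
      simp [y, i.2]
    have h2 : ∏ i ∈ s, y i = 1 := by
      rw [← Finset.prod_coe_sort, ← hx]
      exact Finset.prod_congr rfl fun i _ => hy i
    have h3 := hind y (fun i hi => by simp [y, hi]) h2
    funext i
    refine Subtype.ext ?_
    rw [← hy i, h3 i.1 i.2]
    rfl
  have hsurj : Function.Surjective Φ := by
    rw [← MonoidHom.range_eq_top]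
    refine hgen _ fun i hi z hz => ?_
    refine ⟨Pi.mulSingle ⟨i, hi⟩ ⟨z, hz⟩, ?_⟩
    rw [hΦ, Finset.prod_eq_single (⟨i, hi⟩ : s)]
    · simp
    · intro j _ hj
      rw [Pi.mulSingle_eq_of_ne hj]
      rfl
    · intro h
      exact absurd (Finset.mem_univ _) h
  rw [← Nat.card_congr (Equiv.ofBijective Φ ⟨hinj, hsurj⟩), Nat.card_pi]
  exact Finset.prod_coe_sort s fun i => Nat.card (D i)

/-- the quotient step -/
lemma step (hCop : StmtCop) (hLift : StmtLift) (hGen : StmtGen) {X N : Subgroup Γ}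
    (hV : ElAb p V) (hVX : Inv V X) (hfix : cen X (V : Set Γ) = ⊥) (hsol : Group.IsSolvable X)
    (hNX : N ≤ X) (hXN : Inv X N) (hVN : Inv V N)
    (hab : ∀ a ∈ X, ∀ b ∈ X, (a * b)⁻¹ * (b * a) ∈ N) :
    Nat.card X * ∏ K ∈ HH p V, Nat.card (cen N (K : Set Γ)) =
      Nat.card N * ∏ K ∈ HH p V, Nat.card (cen X (K : Set Γ)) := by
  classical
  have hnorm : (N.subgroupOf X).Normal := (normal_subgroupOf_iff_le_normalizer hNX).2 hXN
  let gQ : Group (X ⧸ N.subgroupOf X) := inferInstance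
  let cQ : CommGroup (X ⧸ N.subgroupOf X) :=
    { gQ with
      mul_comm := by
        intro a b
        induction a using QuotientGroup.induction_on with
        | H a =>
          induction b using QuotientGroup.induction_on with
          | H b =>
            exact QuotientGroup.eq.2 (hab a.1 a.2 b.1 b.2) }
  let mk : X →* (X ⧸ N.subgroupOf X) := QuotientGroup.mk' (N.subgroupOf X)
  have hmk : ∀ q, ∃ x, mk x = q := QuotientGroup.mk'_surjective _
  have hmk1 : ∀ x, mk x = 1 ↔ x.1 ∈ N := by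
    intro x
    exact (QuotientGroup.eq_one_iff x).trans (mem_subgroupOf)
  have hmkeq : ∀ x y : X, mk x = mk y ↔ x.1⁻¹ * y.1 ∈ N := by
    intro x y
    exact QuotientGroup.eq.trans (mem_subgroupOf)
  let cX : ∀ v ∈ V, X →* X := fun v hv =>
    { toFun := fun x => ⟨v * x.1 * v⁻¹, inv_iff.1 hVX v hv x.1 x.2⟩
      map_one' := Subtype.ext (by simp)
      map_mul' := fun x y => Subtype.ext (by simp [mul_assoc]) }
  have hcN : ∀ (v : Γ) (hv : v ∈ V), N.subgroupOf X ≤ (N.subgroupOf X).comap (cX v hv) := by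
    intro v hv x hx
    rw [mem_subgroupOf] at hx
    rw [mem_comap, mem_subgroupOf]
    exact inv_iff.1 hVN v hv x.1 hx
  let f : Γ → (X ⧸ N.subgroupOf X) → (X ⧸ N.subgroupOf X) := fun v q =>
    if hv : v ∈ V then QuotientGroup.map (N.subgroupOf X) (N.subgroupOf X) (cX v hv) (hcN v hv) q
    else q
  have hf : ∀ (v : Γ) (hv : v ∈ V) (x : X), f v (mk x) = mk (cX v hv x) := by
    intro v hv x
    simp only [f, dif_pos hv]
    rfl
  have hpX : ¬ p ∣ Nat.card X := hCop Γ p V X hV hVX hfix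
  have hpN : ¬ p ∣ Nat.card N := fun h => hpX (h.trans (card_dvd_of_le hNX))
  have hcardQ : Nat.card X = Nat.card (X ⧸ N.subgroupOf X) * Nat.card N := by
    rw [Subgroup.card_eq_card_quotient_mul_card_subgroup (N.subgroupOf X),
      Nat.card_congr (subgroupOfEquivOfLe hNX).toEquiv]
  have hpQ : ¬ p ∣ Nat.card (X ⧸ N.subgroupOf X) := fun h => hpX (by
    rw [hcardQ]
    exact h.mul_right _)
  let D : Subgroup Γ → Subgroup (X ⧸ N.subgroupOf X) := fun K =>
    ((cen X (K : Set Γ)).subgroupOf X).map mk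
  have hcard := count (HH p V) D ?_ ?_
  · have hD : ∀ K, Nat.card (D K) * Nat.card (cen N (K : Set Γ)) = Nat.card (cen X (K : Set Γ)) := by
      intro K
      let g : cen X (K : Set Γ) →* (X ⧸ N.subgroupOf X) :=
        mk.comp (inclusion (inf_le_left : cen X (K : Set Γ) ≤ X))
      have h1 := g.ker.card_mul_index
      rw [Subgroup.index_ker] at h1
      have h2 : g.range = D K := by
        ext q
        constructor
        · rintro ⟨x, rfl⟩
          exact ⟨⟨x.1, x.2.1⟩, mem_subgroupOf.2 x.2, rfl⟩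
        · rintro ⟨x, hx, rfl⟩
          exact ⟨⟨x.1, mem_subgroupOf.1 hx⟩, rfl⟩
      have h3 : Nat.card g.ker = Nat.card (cen N (K : Set Γ)) := by
        refine Nat.card_congr ⟨fun x => ⟨x.1.1, ?_⟩, fun x => ⟨⟨x.1, ?_⟩, ?_⟩, fun x => rfl,
          fun x => rfl⟩
        · exact ⟨(hmk1 ⟨x.1.1, x.1.2.1⟩).1 x.2, x.1.2.2⟩
        · exact ⟨hNX x.2.1, x.2.2⟩
        · exact (hmk1 ⟨x.1, hNX x.2.1⟩).2 x.2.1
      rw [← h1, h3, h2, mul_comm]
    rw [hcardQ, hcard]
    have h4 : ∏ K ∈ HH p V, Nat.card (cen X (K : Set Γ)) =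
        (∏ K ∈ HH p V, Nat.card (D K)) * ∏ K ∈ HH p V, Nat.card (cen N (K : Set Γ)) := by
      rw [← Finset.prod_mul_distrib]
      exact Finset.prod_congr rfl fun K _ => (hD K).symm
    rw [h4]
    ring
  · intro x hx hprod
    refine indep hV f ?_ ?_ ?_ hpQ ?_ x ?_ hprod
    · intro v hv a b
      simp only [f, dif_pos hv, map_mul]
    · intro v hv w hw q
      obtain ⟨y, rfl⟩ := hmk q
      rw [hf w hw, hf v hv, hf (v * w) (V.mul_mem hv hw)]
      congr 1
      refine Subtype.ext ?_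
      change v * w * y.1 * (v * w)⁻¹ = v * (w * y.1 * w⁻¹) * v⁻¹
      group
    · intro q
      obtain ⟨y, rfl⟩ := hmk q
      rw [hf 1 V.one_mem]
      congr 1
      refine Subtype.ext ?_
      change 1 * y.1 * 1⁻¹ = y.1
      group
    · intro q hq
      obtain ⟨y, rfl⟩ := hmk q
      obtain ⟨n, hn, hn'⟩ := hLift Γ p V N y.1 hV.prime hV.isPGroup hVN hpN (fun b hb => by
        have h5 := hq b hb
        rw [hf b hb] at h5
        have h6 := (hmkeq y (cX b hb y)).1 h5.symm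
        exact h6)
      have h7 : y.1 * n ∈ cen X (V : Set Γ) := mem_cen.2 ⟨X.mul_mem y.2 (hNX hn), hn'⟩
      rw [hfix, mem_bot] at h7
      rw [hmk1]
      rw [eq_inv_of_mul_eq_one_left h7]
      exact N.inv_mem hn
    · intro K hK v hv
      obtain ⟨y, hy, hy'⟩ := hx K hK
      rw [← hy', hf v ((mem_HH.1 hK).1 hv)]
      congr 1
      refine Subtype.ext ?_
      change v * y.1 * v⁻¹ = y.1
      rw [(mem_cen.1 (mem_subgroupOf.1 hy)).2 v hv]
      group
  · intro Y hY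
    have h8 := hGen Γ p V X ((Y.comap mk).map X.subtype) hV hVX hpX hsol (by
      intro K hK hd
      rcases (Nat.dvd_prime hV.prime).1 hd with h | h
      · have hVK : V ≤ K := relIndex_eq_one.1 h
        have h9 : K = V := le_antisymm hK hVK
        rw [h9, hfix]
        exact bot_le
      · intro x hx
        have hK' : K ∈ HH p V := mem_HH.2 ⟨hK, h⟩
        exact ⟨⟨x, hx.1⟩, hY K hK' ⟨⟨x, hx.1⟩, mem_subgroupOf.2 hx, rfl⟩, rfl⟩)
    rw [eq_top_iff]
    intro q _
    obtain ⟨y, rfl⟩ := hmk q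
    obtain ⟨z, hz, hz'⟩ := h8 y.2
    have h10 : z = y := Subtype.ext hz'
    rw [← h10]
    exact hz

/-- the order formula -/
lemma order (hCop : StmtCop) (hLift : StmtLift) (hGen : StmtGen) (hV : ElAb p V) :
    ∀ (n : ℕ) (X : Subgroup Γ), Nat.card X = n → Inv V X → cen X (V : Set Γ) = ⊥ →
      Group.IsSolvable X → Nat.card X = ∏ K ∈ HH p V, Nat.card (cen X (K : Set Γ)) := by
  intro n
  induction n using Nat.strong_induction_on with
  | _ n ih =>
    intro X hn hVX hfix hsol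
    by_cases hX : X = ⊥
    · subst hX
      rw [Subgroup.card_bot, Finset.prod_eq_one]
      intro K _
      have : cen (⊥ : Subgroup Γ) (K : Set Γ) = ⊥ := by
        unfold cen
        rw [bot_inf_eq]
      rw [this, Subgroup.card_bot]
    · have hlt : ⁅X, X⁆ < X := by
        have : Nontrivial X := (nontrivial_iff_ne_bot X).2 hX
        have h1 := Group.IsSolvable.commutator_lt_of_ne_bot (G := X) (H := (⊤ : Subgroup X)) top_ne_bot
        have h2 : Subgroup.map X.subtype ⁅(⊤ : Subgroup X), (⊤ : Subgroup X)⁆ <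
            Subgroup.map X.subtype (⊤ : Subgroup X) :=
          map_subtype_lt_map_subtype.2 h1
        rw [map_commutator, ← MonoidHom.range_eq_map, X.range_subtype] at h2
        exact h2
      have hXN : Inv X ⁅X, X⁆ := by
        rw [inv_iff]
        intro v hv x hx
        have h3 : ⁅X, X⁆.map (MulAut.conj v).toMonoidHom = ⁅X, X⁆ := by
          rw [map_commutator, inv_map_eq inv_self hv]
        rw [← h3]
        exact ⟨x, hx, rfl⟩
      have hVN : Inv V ⁅X, X⁆ := by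
        rw [inv_iff]
        intro v hv x hx
        have h3 : ⁅X, X⁆.map (MulAut.conj v).toMonoidHom = ⁅X, X⁆ := by
          rw [map_commutator, inv_map_eq hVX hv]
        rw [← h3]
        exact ⟨x, hx, rfl⟩
      have h4 := step hCop hLift hGen hV hVX hfix hsol hlt.le hXN hVN (by
        intro a ha b hb
        have h5 := commutator_mem_commutator (X.inv_mem hb) (X.inv_mem ha)
        rw [commutatorElement_def] at h5
        have h6 : (a * b)⁻¹ * (b * a) = b⁻¹ * a⁻¹ * b⁻¹⁻¹ * a⁻¹⁻¹ := by group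
        rw [h6]
        exact h5)
      have hcl : Nat.card (⁅X, X⁆ : Subgroup Γ) < n := by
        rw [← hn]
        by_contra h
        exact hlt.ne (Subgroup.eq_of_le_of_card_ge hlt.le (not_lt.1 h))
      have hfN : cen ⁅X, X⁆ (V : Set Γ) = ⊥ := by
        rw [eq_bot_iff, ← hfix]
        exact inf_le_inf_right _ hlt.le
      have hsN : Group.IsSolvable (⁅X, X⁆ : Subgroup Γ) :=
        solvable_of_solvable_injective (inclusion_injective hlt.le)
      have h7 := ih _ hcl ⁅X, X⁆ rfl hVN hfN hsN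
      have hpos : 0 < Nat.card (⁅X, X⁆ : Subgroup Γ) := Nat.card_pos
      rw [← h7, mul_comm] at h4
      exact Nat.eq_of_mul_eq_mul_left hpos h4

/-- product sets of two subgroups -/
lemma card_prod (P Q : Subgroup Γ) (T : Set Γ) (hT : ∀ x, x ∈ T ↔ ∃ a ∈ P, ∃ b ∈ Q, x = a * b) :
    Nat.card P * Nat.card Q = Nat.card T * Nat.card (P ⊓ Q : Subgroup Γ) := by
  have h1 : ∀ x : T, ∃ a ∈ P, ∃ b ∈ Q, x.1 = a * b := fun x => (hT x.1).1 x.2
  choose α hα β hβ hαβ using h1
  rw [← Nat.card_prod, ← Nat.card_prod]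
  refine Nat.card_congr
    { toFun := fun x => (⟨⟨x.1.1 * x.2.1, (hT _).2 ⟨_, x.1.2, _, x.2.2, rfl⟩⟩,
        ⟨(α ⟨x.1.1 * x.2.1, (hT _).2 ⟨_, x.1.2, _, x.2.2, rfl⟩⟩)⁻¹ * x.1.1, ?_, ?_⟩⟩ :
          T × (P ⊓ Q : Subgroup Γ))
      invFun := fun x => (⟨α x.1 * x.2.1, P.mul_mem (hα _) x.2.2.1⟩,
        ⟨x.2.1⁻¹ * β x.1, Q.mul_mem (Q.inv_mem x.2.2.2) (hβ _)⟩)
      left_inv := ?_
      right_inv := ?_ }
  · exact P.mul_mem (P.inv_mem (hα _)) x.1.2
  · have h2 := hαβ ⟨x.1.1 * x.2.1, (hT _).2 ⟨_, x.1.2, _, x.2.2, rfl⟩⟩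
    have h3 : (α ⟨x.1.1 * x.2.1, (hT _).2 ⟨_, x.1.2, _, x.2.2, rfl⟩⟩)⁻¹ * x.1.1 =
        β ⟨x.1.1 * x.2.1, (hT _).2 ⟨_, x.1.2, _, x.2.2, rfl⟩⟩ * x.2.1⁻¹ := by
      rw [inv_mul_eq_iff_eq_mul, ← mul_assoc, ← h2]
      simp
    change (α ⟨x.1.1 * x.2.1, (hT _).2 ⟨_, x.1.2, _, x.2.2, rfl⟩⟩)⁻¹ * x.1.1 ∈ Q
    rw [h3]
    exact Q.mul_mem (hβ _) (Q.inv_mem x.2.2)
  · rintro ⟨a, b⟩
    refine Prod.ext (Subtype.ext ?_) (Subtype.ext ?_)
    · simp
    · have h2 := hαβ ⟨a.1 * b.1, (hT _).2 ⟨_, a.2, _, b.2, rfl⟩⟩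
      simp only [mul_inv_rev, inv_inv]
      rw [mul_assoc, ← h2]
      simp
  · rintro ⟨x, c⟩
    have h2 := hαβ x
    have h3 : α x * c.1 * (c.1⁻¹ * β x) = x.1 := by
      rw [h2]; group
    refine Prod.ext (Subtype.ext ?_) (Subtype.ext ?_)
    · simpa using h3
    · have h4 : (⟨α x * c.1 * (c.1⁻¹ * β x), (hT _).2 ⟨_, P.mul_mem (hα _) c.2.1, _,
          Q.mul_mem (Q.inv_mem c.2.2) (hβ _), rfl⟩⟩ : T) = x := Subtype.ext h3
      change (α ⟨α x * c.1 * (c.1⁻¹ * β x), _⟩)⁻¹ * (α x * c.1) = c.1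
      rw [h4]
      group

end hyper

end ModA6

open ModA6 in
theorem a6 (hCop : StmtCop) (hLift : StmtLift) (hProd : StmtProd) (hGen : StmtGen) : StmtAB := by
  intro Γ _ _ p V S A B hV hVS hfix hsol hAS hBS hVA hVB hK
  have hfX : ∀ X ≤ S, cen X (V : Set Γ) = ⊥ := by
    intro X hX
    rw [eq_bot_iff, ← hfix]
    exact inf_le_inf_right _ hX
  have hsX : ∀ X ≤ S, Group.IsSolvable X := fun X hX =>
    solvable_of_solvable_injective (inclusion_injective hX)
  have oS := order hCop hLift hGen hV _ S rfl hVS hfix hsol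
  have oA := order hCop hLift hGen hV _ A rfl hVA (hfX A hAS) (hsX A hAS)
  have oB := order hCop hLift hGen hV _ B rfl hVB (hfX B hBS) (hsX B hBS)
  have oAB := order hCop hLift hGen hV _ (A ⊓ B) rfl (inv_inf hVA hVB)
    (hfX _ (inf_le_left.trans hAS)) (hsX _ (inf_le_left.trans hAS))
  have h1 : ∀ K ∈ HH p V, Nat.card (cen A (K : Set Γ)) * Nat.card (cen B (K : Set Γ)) =
      Nat.card (cen S (K : Set Γ)) * Nat.card (cen (A ⊓ B) (K : Set Γ)) := by
    intro K hK'
    obtain ⟨hKV, hKp⟩ := mem_HH.1 hK'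
    have h2 := card_prod (cen A (K : Set Γ)) (cen B (K : Set Γ)) (cen S (K : Set Γ) : Set Γ) (by
      intro x
      constructor
      · exact hK K hKV hKp x
      · rintro ⟨a, ha, b, hb, rfl⟩
        exact (cen S (K : Set Γ)).mul_mem (inf_le_inf_right _ hAS ha) (inf_le_inf_right _ hBS hb))
    have h3 : cen A (K : Set Γ) ⊓ cen B (K : Set Γ) = cen (A ⊓ B) (K : Set Γ) := by
      unfold cen
      rw [inf_inf_inf_comm, inf_idem]
    rw [h3] at h2
    exact h2
  have h4 : Nat.card A * Nat.card B = Nat.card S * Nat.card (A ⊓ B : Subgroup Γ) := by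
    rw [oS, oA, oB, oAB, ← Finset.prod_mul_distrib, ← Finset.prod_mul_distrib]
    exact Finset.prod_congr rfl h1
  have h5 := card_prod A B {x | ∃ a ∈ A, ∃ b ∈ B, x = a * b} (fun x => Iff.rfl)
  rw [h4] at h5
  have hpos : 0 < Nat.card (A ⊓ B : Subgroup Γ) := Nat.card_pos
  have h6 := Nat.eq_of_mul_eq_mul_right hpos h5
  have h7 : {x | ∃ a ∈ A, ∃ b ∈ B, x = a * b} ⊆ (S : Set Γ) := by
    rintro _ ⟨a, ha, b, hb, rfl⟩
    exact S.mul_mem (hAS ha) (hBS hb)
  have h8 : {x | ∃ a ∈ A, ∃ b ∈ B, x = a * b} = (S : Set Γ) := by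
    refine Set.eq_of_subset_of_ncard_le h7 ?_ (Set.toFinite _)
    rw [← Nat.card_coe_set_eq, ← Nat.card_coe_set_eq, ← h6]
    rfl
  intro x hx
  have h9 : x ∈ (S : Set Γ) := hx
  rw [← h8] at h9
  exact h9

end Pool.Agent.T6.H88.FP
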