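import Pool.Agent.T6.H88.FP.A9

/-! # Project FP, module A7: cores and Fitting's theorem -/

set_option autoImplicit false

namespace Pool.Agent.T6.H88.FP

open Subgroup
open scoped commutatorElement

namespace ModA7

open ModA1 ModA9

variable {Γ : Type} [Group Γ]

theorem inv_iff_map {V X : Subgroup Γ} :
    Inv V X ↔ ∀ v ∈ V, X.map (MulAut.conj v).toMonoidHom ≤ X := by
  rw [inv_iff]
  constructor
  · rintro h v hv _ ⟨x, hx, rfl⟩
    exact h v hv x hx
  · intro h v hv x hx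
    exact h v hv ⟨x, hx, rfl⟩

theorem inv_sup {V X Y : Subgroup Γ} (hX : Inv V X) (hY : Inv V Y) : Inv V (X ⊔ Y) := by
  rw [inv_iff_map] at *
  intro v hv
  rw [Subgroup.map_sup]
  exact sup_le_sup (hX v hv) (hY v hv)

theorem inv_inf {V X Y : Subgroup Γ} (hX : Inv V X) (hY : Inv V Y) : Inv V (X ⊓ Y) := by
  rw [inv_iff] at *
  rintro v hv x ⟨h1, h2⟩
  exact ⟨hX v hv x h1, hY v hv x h2⟩

theorem inv_comm {V X Y : Subgroup Γ} (hX : Inv V X) (hY : Inv V Y) : Inv V ⁅X, Y⁆ := by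
  rw [inv_iff_map] at *
  intro v hv
  rw [map_commutator]
  exact commutator_mono (hX v hv) (hY v hv)

theorem inv_cen {V X Y : Subgroup Γ} (hX : Inv V X) (hY : Inv V Y) :
    Inv V (cen X (Y : Set Γ)) := by
  rw [inv_iff] at *
  intro v hv x hx
  obtain ⟨h1, h2⟩ := mem_cen.1 hx
  refine mem_cen.2 ⟨hX v hv x h1, ?_⟩
  intro y hy
  have h3 := hY v⁻¹ (inv_mem hv) y hy
  rw [inv_inv] at h3
  have h4 := h2 _ h3
  calc y * (v * x * v⁻¹) = v * ((v⁻¹ * y * v) * x) * v⁻¹ := by group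
    _ = v * (x * (v⁻¹ * y * v)) * v⁻¹ := by rw [h4]
    _ = v * x * v⁻¹ * y := by group

theorem core_spec [Finite Γ] (q : ℕ) (X : Subgroup Γ) :
    core q X ≤ X ∧ Inv X (core q X) ∧ IsPGroup q (core q X) ∧
      ∀ N ≤ X, Inv X N → IsPGroup q N → N ≤ core q X := by
  classical
  have hfin : Set.Finite {N : Subgroup Γ | N ≤ X ∧ Inv X N ∧ IsPGroup q N} := Set.toFinite _
  have hne : Set.Nonempty {N : Subgroup Γ | N ≤ X ∧ Inv X N ∧ IsPGroup q N} := by
    refine ⟨⊥, bot_le, ?_, IsPGroup.of_bot⟩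
    rw [inv_iff]
    intro v _ x hx
    rw [mem_bot] at hx ⊢
    rw [hx]; simp
  obtain ⟨M, hM⟩ := hfin.exists_maximal hne
  obtain ⟨⟨h1, h2, h3⟩, hmax⟩ := hM
  have hle : ∀ N ≤ X, Inv X N → IsPGroup q N → N ≤ M := by
    intro N n1 n2 n3
    have h4 : N ⊔ M ≤ M := hmax ⟨sup_le n1 h1, inv_sup n2 h2,
      n3.to_sup_of_normal_right' h3 (n1.trans h2)⟩ le_sup_right
    exact le_sup_left.trans h4
  have heq : core q X = M :=
    le_antisymm (sSup_le fun N hN => hle N hN.1 hN.2.1 hN.2.2) (le_sSup ⟨h1, h2, h3⟩)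
  rw [heq]
  exact ⟨h1, h2, h3, hle⟩

theorem core_inv [Finite Γ] {q : ℕ} {V X : Subgroup Γ} (h : Inv V X) : Inv V (core q X) := by
  obtain ⟨h1, h2, h3, h4⟩ := core_spec q X
  rw [inv_iff_map]
  intro v hv
  apply h4
  · exact (map_mono h1).trans (inv_iff_map.1 h v hv)
  · rw [inv_iff]
    rintro x hx _ ⟨c, hc, rfl⟩
    have h5 : v⁻¹ * x * v ∈ X := by
      have := (inv_iff.1 h) v⁻¹ (inv_mem hv) x hx
      simpa using this
    refine ⟨(v⁻¹ * x * v) * c * (v⁻¹ * x * v)⁻¹, (inv_iff.1 h2) _ h5 c hc, ?_⟩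
    show v * ((v⁻¹ * x * v) * c * (v⁻¹ * x * v)⁻¹) * v⁻¹ = x * (v * c * v⁻¹) * x⁻¹
    group
  · exact h3.map _

/-- a nilpotent normal `{q, r}`-subgroup is in the product of the cores -/
theorem nilp_le [Finite Γ] {q r : ℕ} (hq : q.Prime) (hr : r.Prime) {X K : Subgroup Γ}
    (hKX : K ≤ X) (hI : Inv X K) (hpi : IsPi q r X) (hn : Group.IsNilpotent K) :
    K ≤ core q X ⊔ core r X := by
  classical
  have hsyl : ∀ s : ℕ, (hs : s.Prime) → ∃ P : Subgroup K, P.map K.subtype ≤ core s X ∧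
      ¬ s ∣ P.index := by
    intro s hs
    haveI : Fact s.Prime := ⟨hs⟩
    obtain ⟨P⟩ : Nonempty (Sylow s K) := inferInstance
    haveI : Group.IsNilpotent K := hn
    haveI hPn : (P : Subgroup K).Normal := inferInstance
    haveI hPc : (P : Subgroup K).Characteristic := P.characteristic_of_normal hPn
    refine ⟨P, ?_, P.not_dvd_index⟩
    refine (core_spec s X).2.2.2 _ ((map_subtype_le _).trans hKX) ?_ (P.isPGroup'.map _)
    rw [inv_iff]
    rintro x hx _ ⟨y, hy, rfl⟩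
    have hxK : ∀ z, z ∈ K ↔ x * z * x⁻¹ ∈ K := by
      intro z
      exact (mem_normalizer_iff.1 (hI hx)) z
    let φ : K ≃* K :=
      { toFun := fun z => ⟨x * z * x⁻¹, (hxK z).1 z.2⟩
        invFun := fun z => ⟨x⁻¹ * z * x, (hxK _).2 (by
          have : x * (x⁻¹ * (z : Γ) * x) * x⁻¹ = z := by group
          rw [this]; exact z.2)⟩
        left_inv := fun z => Subtype.ext (by
          show x⁻¹ * (x * (z : Γ) * x⁻¹) * x = z; group)
        right_inv := fun z => Subtype.ext (by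
          show x * (x⁻¹ * (z : Γ) * x) * x⁻¹ = z; group)
        map_mul' := fun z w => Subtype.ext (by
          show x * ((z : Γ) * w) * x⁻¹ = (x * z * x⁻¹) * (x * w * x⁻¹); group) }
    have h1 := (characteristic_iff_map_eq.1 hPc) φ
    have h2 : φ y ∈ (P : Subgroup K) := by
      have h3 : φ y ∈ (P : Subgroup K).map φ.toMonoidHom := ⟨y, hy, rfl⟩
      rwa [h1] at h3
    exact ⟨φ y, h2, rfl⟩
  obtain ⟨P, hP1, hP2⟩ := hsyl q hq
  obtain ⟨Q, hQ1, hQ2⟩ := hsyl r hr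
  have htop : P ⊔ Q = ⊤ := by
    rw [← index_eq_one]
    by_contra hne
    obtain ⟨s, hs, hsd⟩ := Nat.exists_prime_and_dvd hne
    have h1 : s ∣ Nat.card X := by
      refine (hsd.trans (index_dvd_card _)).trans (card_dvd_of_le hKX)
    rcases hpi s hs h1 with rfl | rfl
    · exact hP2 (hsd.trans (index_dvd_of_le le_sup_left))
    · exact hQ2 (hsd.trans (index_dvd_of_le le_sup_right))
  have h1 : K = (P ⊔ Q).map K.subtype := by
    rw [htop, ← MonoidHom.range_eq_map, range_subtype]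
  rw [h1, Subgroup.map_sup]
  exact sup_le_sup hP1 hQ1

theorem nilp_of_central {K : Subgroup Γ} (h : (⁅K, K⁆ : Subgroup Γ) ≤ centralizer (K : Set Γ)) :
    Group.IsNilpotent K := by
  apply _root_.isNilpotent_of_ker_le_center (Abelianization.of (G := K))
  intro x hx
  rw [Abelianization.ker_of] at hx
  have h3 : (commutator K).map K.subtype = (⁅K, K⁆ : Subgroup Γ) := by
    rw [_root_.commutator_def, map_commutator, ← MonoidHom.range_eq_map, range_subtype]
  have h4 : (x : Γ) ∈ (⁅K, K⁆ : Subgroup Γ) := by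
    rw [← h3]; exact ⟨x, hx, rfl⟩
  rw [mem_center_iff]
  intro y
  exact Subtype.ext ((mem_centralizer_iff.1 (h h4)) y y.2)

theorem fitting [Finite Γ] {q r : ℕ} (hq : q.Prime) (hr : r.Prime) {X : Subgroup Γ}
    (hpi : IsPi q r X) (hs : Group.IsSolvable X) :
    cen X ((core q X ⊔ core r X : Subgroup Γ) : Set Γ) ≤ core q X ⊔ core r X := by
  set F : Subgroup Γ := core q X ⊔ core r X with hF
  have hFX : F ≤ X := sup_le (core_spec q X).1 (core_spec r X).1
  have hFI : Inv X F := inv_sup (core_spec q X).2.1 (core_spec r X).2.1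
  have hCI : Inv X (cen X (F : Set Γ)) := inv_cen le_normalizer hFI
  have key : ∀ n : ℕ, ∀ K ≤ cen X (F : Set Γ), Inv X K → Nat.card K = n → K ≤ F := by
    intro n
    induction n using Nat.strong_induction_on with
    | _ n ih =>
      intro K hK hKI hn
      by_cases hbot : K = ⊥
      · rw [hbot]; exact bot_le
      have hKX : K ≤ X := hK.trans inf_le_left
      have hKs : Group.IsSolvable K := by
        haveI := hs
        exact solvable_of_solvable_injective (inclusion_injective hKX)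
      have hD : (⁅K, K⁆ : Subgroup Γ) ≤ K := by
        rw [commutator_le]
        intro x hx y hy
        simp only [commutatorElement_def]
        exact K.mul_mem (K.mul_mem (K.mul_mem hx hy) (K.inv_mem hx)) (K.inv_mem hy)
      have h1 := ih _ (hn ▸ derived_lt K hKs hbot) ⁅K, K⁆ (hD.trans hK) (inv_comm hKI hKI) rfl
      have h2 : (⁅K, K⁆ : Subgroup Γ) ≤ centralizer (K : Set Γ) := by
        intro x hx
        rw [mem_centralizer_iff]
        intro k hk
        exact ((mem_cen.1 (hK hk)).2 x (h1 hx)).symm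
      exact nilp_le hq hr hKX hKI hpi (nilp_of_central h2)
  exact key _ _ le_rfl hCI rfl

/-- a normal `r`-subgroup is contained in every Sylow `r`-subgroup -/
theorem le_syl_of_normal [Finite Γ] {r : ℕ} (hr : r.Prime) {X R T : Subgroup Γ} (hR : R ≤ X)
    (hRI : Inv X R) (hRr : IsPGroup r R) (hT : T ≤ X) (hTr : IsPGroup r T)
    (hTi : ¬ r ∣ T.relIndex X) : R ≤ T := by
  haveI : Fact r.Prime := ⟨hr⟩
  have h1 : IsPGroup r (T ⊔ R : Subgroup Γ) := hTr.to_sup_of_normal_right' hRr (hT.trans hRI)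
  obtain ⟨n, hn⟩ := (IsPGroup.iff_card (p := r)).1 h1
  have h2 : T.relIndex (T ⊔ R) ∣ r ^ n := by
    rw [← hn]; exact relIndex_dvd_card _ _
  have h3 : ¬ r ∣ T.relIndex (T ⊔ R) := by
    intro h
    apply hTi
    rw [← relIndex_mul_relIndex T (T ⊔ R) X le_sup_left (sup_le hT hR)]
    exact h.mul_right _
  have h4 : T.relIndex (T ⊔ R) = 1 := by
    obtain ⟨k, _, hk⟩ := (Nat.dvd_prime_pow hr).1 h2
    rcases Nat.eq_zero_or_pos k with h0 | h0
    · rw [hk, h0, pow_zero]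
    · exact absurd (hk ▸ dvd_pow_self r h0.ne') h3
  rw [relIndex_eq_one] at h4
  exact le_sup_right.trans h4

theorem stmtQ (hSplit : StmtSplit) : StmtQ := by
  intro Γ _ _ p X T e q r hp he hI hpX hs hq hr hqr hpi hTX hTr hTi hTe
  obtain ⟨c1, c2, c3, c4⟩ := core_spec q X
  set Q : Subgroup Γ := core q X with hQ
  set N : Subgroup Γ := normalizer (Q : Set Γ) with hN
  have hQN : Q ≤ N := le_normalizer
  have hXN : X ≤ N := c2
  have heN : e ∈ N := core_inv hI (mem_zpowers e)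
  let Q' : Subgroup N := Q.subgroupOf N
  haveI hQn : Q'.Normal := normal_in_normalizer
  let π : N →* N ⧸ Q' := QuotientGroup.mk' Q'
  have hπ1 : ∀ (y : Γ) (hy : y ∈ N), π ⟨y, hy⟩ = 1 ↔ y ∈ Q := by
    intro y hy
    have : π ⟨y, hy⟩ = 1 ↔ (⟨y, hy⟩ : N) ∈ Q' := by
      show (QuotientGroup.mk' Q') _ = 1 ↔ _
      rw [← MonoidHom.mem_ker, QuotientGroup.ker_mk']
    rw [this, mem_subgroupOf]
  let Xb : Subgroup (N ⧸ Q') := (X.subgroupOf N).map π
  let Tb : Subgroup (N ⧸ Q') := (T.subgroupOf N).map π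
  let eb : N ⧸ Q' := π ⟨e, heN⟩
  have hcardX : Nat.card Xb ∣ Nat.card X := by
    have h1 := card_map_dvd (X.subgroupOf N) π
    have h2 : Nat.card (X.subgroupOf N) = Nat.card X :=
      Nat.card_congr (subgroupOfEquivOfLe hXN).toEquiv
    rwa [h2] at h1
  have hpiX : IsPi q r Xb := fun s hs hd => hpi s hs (hd.trans hcardX)
  have hsX : Group.IsSolvable Xb := by
    haveI := hs
    have h1 : Group.IsSolvable (X.subgroupOf N) :=
      solvable_of_solvable_injective (f := (subgroupOfEquivOfLe hXN).toMonoidHom)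
        (subgroupOfEquivOfLe hXN).injective
    haveI := h1
    exact solvable_of_surjective (π.subgroupMap_surjective (X.subgroupOf N))
  -- the core is trivial
  have hcore : core q Xb = ⊥ := by
    obtain ⟨d1, d2, d3, -⟩ := core_spec q Xb
    let Y : Subgroup Γ := ((core q Xb).comap π).map N.subtype ⊓ X
    have hmemY : ∀ y, y ∈ Y ↔ y ∈ X ∧ ∃ hy : y ∈ N, π ⟨y, hy⟩ ∈ core q Xb := by
      intro y
      constructor
      · rintro ⟨⟨z, hz, rfl⟩, h2⟩
        exact ⟨h2, z.2, hz⟩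
      · rintro ⟨h1, hy, h2⟩
        exact ⟨⟨⟨y, hy⟩, h2, rfl⟩, h1⟩
    have hY : Y ≤ Q := by
      apply c4
      · exact inf_le_right
      · rw [inv_iff]
        intro x hx y hy
        obtain ⟨h1, hyN, h2⟩ := (hmemY y).1 hy
        refine (hmemY _).2 ⟨X.mul_mem (X.mul_mem hx h1) (X.inv_mem hx), ?_, ?_⟩
        · exact N.mul_mem (N.mul_mem (hXN hx) hyN) (N.inv_mem (hXN hx))
        · have h3 : π ⟨x, hXN hx⟩ ∈ Xb := ⟨⟨x, hXN hx⟩, by rw [SetLike.mem_coe, mem_subgroupOf]; exact hx, rfl⟩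
          have h4 := (inv_iff.1 d2) _ h3 _ h2
          exact h4
      · rintro ⟨y, hy⟩
        obtain ⟨h1, hyN, h2⟩ := (hmemY y).1 hy
        obtain ⟨k, hk⟩ := d3 ⟨_, h2⟩
        have hk' : (π ⟨y, hyN⟩) ^ q ^ k = 1 := congrArg Subtype.val hk
        rw [← map_pow] at hk'
        have h3 : y ^ q ^ k ∈ Q := (hπ1 (y ^ q ^ k) (N.pow_mem hyN _)).1 hk'
        obtain ⟨l, hl⟩ := c3 ⟨_, h3⟩
        have hl' : (y ^ q ^ k) ^ q ^ l = 1 := congrArg Subtype.val hl
        refine ⟨k + l, Subtype.ext ?_⟩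
        show y ^ q ^ (k + l) = 1
        rw [pow_add, pow_mul]; exact hl'
    rw [eq_bot_iff]
    intro z hz
    obtain ⟨x, hx, rfl⟩ := d1 hz
    have hx' : (x : Γ) ∈ X := by rw [SetLike.mem_coe, mem_subgroupOf] at hx; exact hx
    have h1 : (x : Γ) ∈ Y := (hmemY _).2 ⟨hx', x.2, hz⟩
    rw [mem_bot]
    exact (hπ1 (x : Γ) x.2).2 (hY h1)
  -- the other core is centralised by `e`
  obtain ⟨r1, r2, r3, -⟩ := core_spec r Xb
  set Rb : Subgroup (N ⧸ Q') := core r Xb with hRb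
  have hTbX : Tb ≤ Xb := map_mono (fun x hx => by
    rw [mem_subgroupOf] at hx ⊢; exact hTX hx)
  have hTbr : IsPGroup r Tb := hTr.comap_subtype.map π
  have hTbi : ¬ r ∣ Tb.relIndex Xb := by
    intro h
    apply hTi
    have h1 : Tb.relIndex Xb = ((T.subgroupOf N) ⊔ π.ker).relIndex ((X.subgroupOf N) ⊔ π.ker) :=
      relIndex_map_map π _ _
    have h2 : (X.subgroupOf N) ⊔ π.ker = X.subgroupOf N := by
      apply sup_eq_left.2
      intro x hx
      have : π ⟨x, x.2⟩ = 1 := hx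
      rw [hπ1] at this
      rw [mem_subgroupOf]
      exact c1 this
    rw [h2] at h1
    rw [h1] at h
    have h3 := h.trans (relIndex_dvd_of_le_left (X.subgroupOf N)
      (le_sup_left : T.subgroupOf N ≤ (T.subgroupOf N) ⊔ π.ker))
    rwa [relIndex_subgroupOf hXN] at h3
  have hRT : Rb ≤ Tb := le_syl_of_normal hr r1 r2 r3 hTbX hTbr hTbi
  have hRe : ∀ z ∈ Rb, ∀ w ∈ zpowers eb, z * w = w * z := by
    intro z hz w hw
    obtain ⟨t, ht, rfl⟩ := hRT hz
    have ht' : (t : Γ) ∈ T := by rw [SetLike.mem_coe, mem_subgroupOf] at ht; exact ht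
    have h1 : e * (t : Γ) = (t : Γ) * e := (mem_centralizer_iff.1 (hTe ht')) e rfl
    have h2 : Commute (⟨e, heN⟩ : N) t := Subtype.ext h1
    have h3 : Commute eb (π t) := h2.map π
    obtain ⟨k, rfl⟩ := mem_zpowers_iff.1 hw
    exact (h3.zpow_left k).symm.eq
  have hfit := fitting hq hr hpiX hsX
  rw [hcore, bot_sup_eq] at hfit
  -- three subgroups
  have hInvX : Inv (zpowers eb) Xb := by
    rw [inv_iff]
    rintro w hw _ ⟨x, hx, rfl⟩
    obtain ⟨k, rfl⟩ := mem_zpowers_iff.1 hw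
    have hx' : (x : Γ) ∈ X := by rw [SetLike.mem_coe, mem_subgroupOf] at hx; exact hx
    have h1 := (inv_iff.1 hI) (e ^ k) (zpow_mem (mem_zpowers e) k) x hx'
    refine ⟨(⟨e, heN⟩ : N) ^ k * x * ((⟨e, heN⟩ : N) ^ k)⁻¹, ?_, ?_⟩
    · rw [SetLike.mem_coe, mem_subgroupOf]
      simpa using h1
    · rw [map_mul, map_mul, map_inv, map_zpow]
  have hRZ : ⁅Rb, zpowers eb⁆ = ⊥ := by
    rw [commutator_eq_bot_iff_le_centralizer]
    intro z hz
    rw [mem_centralizer_iff]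
    intro w hw
    exact (hRe z hz w hw).symm
  have h3s : ⁅⁅Xb, zpowers eb⁆, Rb⁆ = ⊥ := by
    apply commutator_commutator_eq_bot_of_rotate
    · rw [commutator_comm (zpowers eb) Rb, hRZ, commutator_bot_left]
    · rw [eq_bot_iff, ← hRZ]
      apply commutator_mono _ le_rfl
      rw [commutator_le]
      intro z hz x hx
      have h4 := (inv_iff.1 r2) x hx z⁻¹ (Rb.inv_mem hz)
      have h5 : ⁅z, x⁆ = z * (x * z⁻¹ * x⁻¹) := by
        simp only [commutatorElement_def]; group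
      rw [h5]
      exact Rb.mul_mem hz h4
  have hcmX : cm Xb eb ≤ Xb := cm_le hInvX
  have hcmR : cm Xb eb ≤ Rb := by
    refine le_trans ?_ hfit
    refine le_inf hcmX ?_
    exact commutator_eq_bot_iff_le_centralizer.1 h3s
  have heb : eb ^ p = 1 := by
    have h1 : (⟨e, heN⟩ : N) ^ p = 1 := Subtype.ext he
    show (π ⟨e, heN⟩) ^ p = 1
    rw [← map_pow, h1, map_one]
  have hsplit := (hSplit (N ⧸ Q') p Xb eb hp heb hInvX (fun h => hpX (h.trans hcardX))).2
  have hcm0 : cm Xb eb = ⊥ := by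
    rw [eq_bot_iff, ← hsplit, ← hRZ]
    exact commutator_mono hcmR le_rfl
  show ⁅X, zpowers e⁆ ≤ Q
  rw [commutator_le]
  intro x hx z hz
  have hzN : z ∈ N := (zpowers_le.2 heN) hz
  have h1 : π ⟨x, hXN hx⟩ ∈ Xb := ⟨⟨x, hXN hx⟩, by rw [SetLike.mem_coe, mem_subgroupOf]; exact hx, rfl⟩
  have h2 : π ⟨z, hzN⟩ ∈ zpowers eb := by
    obtain ⟨k, rfl⟩ := mem_zpowers_iff.1 hz
    refine mem_zpowers_iff.2 ⟨k, ?_⟩
    show (π ⟨e, heN⟩) ^ k = _
    rw [← map_zpow]; rfl
  have h3 : ⁅π ⟨x, hXN hx⟩, π ⟨z, hzN⟩⁆ ∈ cm Xb eb := commutator_mem_commutator h1 h2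
  rw [hcm0, mem_bot, ← map_commutatorElement] at h3
  have h4 := (hπ1 ⁅x, z⁆ (N.mul_mem (N.mul_mem (N.mul_mem (hXN hx) hzN) (N.inv_mem (hXN hx)))
    (N.inv_mem hzN))).1 h3
  exact h4

end ModA7

open ModA1 ModA7

theorem a7 (hSplit : StmtSplit) : StmtCore ∧ StmtQ := by
  refine ⟨?_, stmtQ hSplit⟩
  intro Γ _ _ q X hq
  obtain ⟨h1, h2, h3, h4⟩ := core_spec q X
  exact ⟨⟨h1, h2, h3, fun V hV => core_inv hV⟩, fun r hr _ hpi hs => fitting hq hr hpi hs⟩

end Pool.Agent.T6.H88.FP
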