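import Pool.Agent.T6.H88.FP.A1

/-! # Project FP, module A9: the Frobenius partition argument -/

set_option autoImplicit false

namespace Pool.Agent.T6.H88.FP

open Subgroup
open scoped commutatorElement

namespace ModA9

open ModA1

/-- an element commuting with `e ^ i`, `p ∤ i`, commutes with `e`, if `e ^ p = 1` -/
theorem comm_of_pow {G : Type} [Group G] {p : ℕ} (hp : p.Prime) {e d : G} (he : e ^ p = 1)
    {i : ℕ} (hi0 : i ≠ 0) (hi : i < p) (h : Commute d (e ^ i)) : Commute d e := by
  have hcop : Nat.Coprime i p := (Nat.coprime_of_lt_prime hi0 hi hp).symm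
  have h1 : (e ^ i) ^ (i.gcdA p) = e := by
    have h2 := Nat.gcd_eq_gcd_ab i p
    rw [hcop] at h2
    have h3 : e ^ ((i : ℤ) * i.gcdA p + p * i.gcdB p) = e := by
      rw [← h2]; simp
    rw [zpow_add, zpow_mul, zpow_mul, zpow_natCast, zpow_natCast, he, one_zpow, mul_one] at h3
    exact h3
  rw [← h1]
  exact h.zpow_right _

theorem frob {G : Type} [Group G] {A : Type} [CommGroup A] [Finite A] [MulDistribMulAction G A]
    {p : ℕ} (hp : p.Prime) (R : Subgroup G) [Finite R] (e : G) (he : e ^ p = 1)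
    (hI : ∀ x ∈ R, e * x * e⁻¹ ∈ R) (hR : ∀ x ∈ R, Commute x e → x = 1)
    (hA : ∀ a : A, e • a = a → a = 1) (hcop : Nat.Coprime (Nat.card R) (Nat.card A)) :
    ∀ r ∈ R, ∀ a : A, r • a = a := by
  classical
  haveI : Fintype R := Fintype.ofFinite R
  -- the product over the powers of `e` is one
  have hE : ∀ a : A, ∏ i ∈ Finset.range p, (e ^ i) • a = 1 := by
    intro a
    apply hA
    rw [Finset.smul_prod']
    have h1 : ∀ i ∈ Finset.range p, e • (e ^ i) • a = (e ^ (i + 1)) • a := by
      intro i _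
      rw [smul_smul, ← pow_succ']
    rw [Finset.prod_congr rfl h1]
    have h2 := Finset.prod_range_succ' (fun i => (e ^ i) • a) p
    have h3 := Finset.prod_range_succ (fun i => (e ^ i) • a) p
    rw [h3] at h2
    simp only [he, pow_zero] at h2
    exact (mul_right_cancel h2).symm
  -- inverse conjugation
  have hI' : ∀ x ∈ R, e⁻¹ * x * e ∈ R := by
    intro x hx
    have hpos : 0 < p := hp.pos
    have hk : ∀ k : ℕ, e ^ k * x * (e ^ k)⁻¹ ∈ R := by
      intro k
      induction k with
      | zero => simpa using hx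
      | succ k ih =>
        have := hI _ ih
        have h1 : e ^ (k + 1) * x * (e ^ (k + 1))⁻¹ = e * (e ^ k * x * (e ^ k)⁻¹) * e⁻¹ := by
          rw [pow_succ']; group
        rw [h1]; exact this
    have h1 : e⁻¹ = e ^ (p - 1) := by
      rw [inv_eq_iff_mul_eq_one, ← pow_succ']
      rw [Nat.sub_add_cancel hpos, he]
    have h2 := hk (p - 1)
    rw [← h1, inv_inv] at h2
    exact h2
  have hIi : ∀ i : ℕ, ∀ x ∈ R, (e ^ i)⁻¹ * x * e ^ i ∈ R := by
    intro i
    induction i with
    | zero => intro x hx; simpa using hx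
    | succ i ih =>
      intro x hx
      have := hI' _ (ih x hx)
      have h1 : (e ^ (i + 1))⁻¹ * x * e ^ (i + 1) = e⁻¹ * ((e ^ i)⁻¹ * x * e ^ i) * e := by
        rw [pow_succ]; group
      rw [h1]; exact this
  -- the key identity
  have key : ∀ u : A, u ^ (Nat.card R) = ∏ r : R, (r : G) • u := by
    intro u
    set S : A := ∏ r : R, (r : G) • u with hS
    have h1 : ∀ b : R, ∏ i ∈ Finset.range p, ((b : G) * e ^ i * (b : G)⁻¹) • u = 1 := by
      intro b
      have h2 := hE ((b : G)⁻¹ • u)
      have h3 : ∏ i ∈ Finset.range p, ((b : G) * e ^ i * (b : G)⁻¹) • u =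
          (b : G) • ∏ i ∈ Finset.range p, (e ^ i) • ((b : G)⁻¹ • u) := by
        rw [Finset.smul_prod']
        refine Finset.prod_congr rfl fun i _ => ?_
        rw [smul_smul, smul_smul]
      rw [h3, h2, smul_one]
    have h2 : ∏ b : R, ∏ i ∈ Finset.range p, ((b : G) * e ^ i * (b : G)⁻¹) • u = 1 :=
      Finset.prod_eq_one fun b _ => h1 b
    rw [Finset.prod_comm] at h2
    -- each power `i ≠ 0`
    have h3 : ∀ i ∈ Finset.range p, i ≠ 0 →
        ∏ b : R, ((b : G) * e ^ i * (b : G)⁻¹) • u = (e ^ i) • S := by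
      intro i hi hi0
      rw [hS, Finset.smul_prod']
      let f : R → R := fun b => ⟨((e ^ i)⁻¹ * (b : G) * e ^ i) * (b : G)⁻¹,
        R.mul_mem (hIi i b b.2) (R.inv_mem b.2)⟩
      have hf : Function.Injective f := by
        intro b c hbc
        have h4 : ((e ^ i)⁻¹ * (b : G) * e ^ i) * (b : G)⁻¹ = ((e ^ i)⁻¹ * (c : G) * e ^ i) * (c : G)⁻¹ :=
          congrArg Subtype.val hbc
        have h5 : Commute ((c : G)⁻¹ * b) (e ^ i) := by
          show ((c : G)⁻¹ * b) * e ^ i = e ^ i * ((c : G)⁻¹ * b)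
          have h6 : (b : G) = e ^ i * (((e ^ i)⁻¹ * (c : G) * e ^ i) * (c : G)⁻¹) * b * (e ^ i)⁻¹ := by
            rw [← h4]; group
          calc ((c : G)⁻¹ * b) * e ^ i
              = (c : G)⁻¹ * (e ^ i * (((e ^ i)⁻¹ * (c : G) * e ^ i) * (c : G)⁻¹) * b * (e ^ i)⁻¹) * e ^ i := by
                rw [← h6]
            _ = e ^ i * ((c : G)⁻¹ * b) := by group
        have h7 := comm_of_pow hp he hi0 (Finset.mem_range.1 hi) h5
        have h8 := hR _ (R.mul_mem (R.inv_mem c.2) b.2) h7
        apply Subtype.ext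
        rw [inv_mul_eq_one] at h8
        exact h8.symm
      have hbij : Function.Bijective f := Finite.injective_iff_bijective.1 hf
      rw [← Equiv.prod_comp (Equiv.ofBijective f hbij) (fun r : R => (e ^ i) • (r : G) • u)]
      refine Finset.prod_congr rfl fun b _ => ?_
      show ((b : G) * e ^ i * (b : G)⁻¹) • u =
        (e ^ i) • (((e ^ i)⁻¹ * (b : G) * e ^ i) * (b : G)⁻¹) • u
      rw [smul_smul]
      congr 1
      group
    obtain ⟨q, hq⟩ : ∃ q, p = q + 1 := ⟨p - 1, by have := hp.pos; omega⟩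
    have h4 := hE S
    rw [hq] at h2 h4 h3
    rw [Finset.prod_range_succ'] at h2 h4
    have h5 : ∏ k ∈ Finset.range q, ∏ b : R, ((b : G) * e ^ (k + 1) * (b : G)⁻¹) • u =
        ∏ k ∈ Finset.range q, (e ^ (k + 1)) • S := by
      refine Finset.prod_congr rfl fun k hk => h3 (k + 1) ?_ (by omega)
      rw [Finset.mem_range] at hk ⊢; omega
    rw [h5] at h2
    have h6 : ∏ b : R, ((b : G) * e ^ 0 * (b : G)⁻¹) • u = u ^ (Nat.card R) := by
      simp
    rw [h6] at h2
    rw [pow_zero, one_smul] at h4
    exact mul_left_cancel (h2.trans h4.symm)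
  intro r hr a
  -- `S` is fixed by `R`
  have h1 : r • a ^ (Nat.card R) = a ^ (Nat.card R) := by
    rw [key a, Finset.smul_prod']
    have := Equiv.prod_comp (Equiv.mulLeft (⟨r, hr⟩ : R)) (fun s : R => (s : G) • a)
    rw [← this]
    refine Finset.prod_congr rfl fun s _ => ?_
    rw [smul_smul]; rfl
  have h2 : (r • a * a⁻¹) ^ (Nat.card R) = 1 := by
    rw [mul_pow, ← smul_pow', h1, inv_pow, mul_inv_cancel]
  have h3 : orderOf (r • a * a⁻¹) = 1 := by
    have h4 := orderOf_dvd_of_pow_eq_one h2
    have h5 := orderOf_dvd_natCard (r • a * a⁻¹)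
    exact Nat.eq_one_of_dvd_coprimes hcop h4 h5
  rw [orderOf_eq_one_iff] at h3
  exact mul_inv_eq_one.1 h3

/-- conjugation on `E` -/
def cj {Γ : Type} [Group Γ] (E : Subgroup Γ) (g : normalizer (E : Set Γ)) : E →* E where
  toFun x := ⟨g.1 * x.1 * g.1⁻¹, ((mem_normalizer_iff.1 g.2) x.1).1 x.2⟩
  map_one' := Subtype.ext (by simp)
  map_mul' x y := Subtype.ext (by
    show g.1 * (x.1 * y.1) * g.1⁻¹ = (g.1 * x.1 * g.1⁻¹) * (g.1 * y.1 * g.1⁻¹)
    group)

/-- the action on `E / E'` -/
@[reducible] def actAb {Γ : Type} [Group Γ] (E : Subgroup Γ) :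
    MulDistribMulAction (normalizer (E : Set Γ)) (Abelianization E) where
  smul g a := Abelianization.map (cj E g) a
  one_smul a := by
    induction a using QuotientGroup.induction_on with
    | H x =>
      show Abelianization.map (cj E 1) (Abelianization.of x) = Abelianization.of x
      rw [Abelianization.map_of]
      congr 1
      exact Subtype.ext (by show (1 : Γ) * x.1 * (1 : Γ)⁻¹ = x.1; simp)
  mul_smul g h a := by
    induction a using QuotientGroup.induction_on with
    | H x =>
      show Abelianization.map (cj E (g * h)) (Abelianization.of x) =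
        Abelianization.map (cj E g) (Abelianization.map (cj E h) (Abelianization.of x))
      rw [Abelianization.map_of, Abelianization.map_of, Abelianization.map_of]
      congr 1
      exact Subtype.ext (by
        show (g.1 * h.1) * x.1 * (g.1 * h.1)⁻¹ = g.1 * (h.1 * x.1 * h.1⁻¹) * g.1⁻¹
        group)
  smul_mul g a b := map_mul _ a b
  smul_one g := map_one _

/-- `E'` is a proper subgroup of a nontrivial soluble group `E` -/
theorem derived_lt {Γ : Type} [Group Γ] [Finite Γ] (E : Subgroup Γ) (hs : Group.IsSolvable E)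
    (hE : E ≠ ⊥) : Nat.card (⁅E, E⁆ : Subgroup Γ) < Nat.card E := by
  have hle : (⁅E, E⁆ : Subgroup Γ) ≤ E := by
    rw [commutator_le]
    intro x hx y hy
    simp only [commutatorElement_def]
    exact E.mul_mem (E.mul_mem (E.mul_mem hx hy) (E.inv_mem hx)) (E.inv_mem hy)
  rcases lt_or_eq_of_le (Nat.card_le_card_of_injective _ (inclusion_injective hle)) with h | h
  · exact h
  · exfalso
    have h1 : (⁅E, E⁆ : Subgroup Γ) = E := by
      apply SetLike.coe_injective
      apply Set.eq_of_subset_of_ncard_le hle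
      · rw [← Nat.card_coe_set_eq, ← Nat.card_coe_set_eq]
        exact h.ge
    haveI := hs
    haveI : Nontrivial E := (nontrivial_iff_ne_bot E).2 hE
    have h2 := IsSolvable.commutator_lt_top_of_nontrivial E
    apply h2.ne
    have h3 : (commutator E).map E.subtype = (⁅E, E⁆ : Subgroup Γ) := by
      rw [_root_.commutator_def, map_commutator, ← MonoidHom.range_eq_map, range_subtype]
    rw [h1] at h3
    have h4 : (commutator E).map E.subtype = (⊤ : Subgroup E).map E.subtype := by
      rw [h3, ← MonoidHom.range_eq_map, range_subtype]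
    exact map_injective E.subtype_injective h4

end ModA9

open ModA1 ModA9

theorem a9 : StmtF0 := by
  intro Γ _ _ p E R e hp he hIR hIE hRE hR hE hcop hs
  induction hn : Nat.card E using Nat.strong_induction_on generalizing E with
  | _ n ih =>
  subst hn
  by_cases hbot : E = ⊥
  · rw [hbot]; exact bot_le
  -- `p` does not divide the order of `E`
  have hel : ElAb p (zpowers e) := by
    refine ⟨hp, ?_, ?_⟩
    · intro v hv
      obtain ⟨k, rfl⟩ := mem_zpowers_iff.1 hv
      rw [← zpow_natCast, ← zpow_mul, mul_comm, zpow_mul, zpow_natCast, he, one_zpow]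
    · intro v hv w hw
      obtain ⟨k, rfl⟩ := mem_zpowers_iff.1 hv
      obtain ⟨l, rfl⟩ := mem_zpowers_iff.1 hw
      rw [← zpow_add, ← zpow_add, add_comm]
  have hcE : cen E (zpowers e : Set Γ) = ⊥ := by
    rw [eq_bot_iff, ← hE]
    intro x hx
    obtain ⟨h1, h2⟩ := mem_cen.1 hx
    refine mem_cen.2 ⟨h1, ?_⟩
    intro b hb
    rw [Set.mem_singleton_iff] at hb
    subst hb
    exact h2 b (mem_zpowers b)
  have hpE : ¬ p ∣ Nat.card E := a1_cop Γ p (zpowers e) E hel hIE hcE
  set D : Subgroup Γ := ⁅E, E⁆ with hD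
  have hDE : D ≤ E := by
    rw [hD, commutator_le]
    intro x hx y hy
    simp only [commutatorElement_def]
    exact E.mul_mem (E.mul_mem (E.mul_mem hx hy) (E.inv_mem hx)) (E.inv_mem hy)
  have hinvD : ∀ V : Subgroup Γ, Inv V E → Inv V D := by
    intro V hV
    rw [inv_iff]
    intro v hv x hx
    rw [hD, Subgroup.commutator_def] at hx ⊢
    refine closure_induction (p := fun x _ => v * x * v⁻¹ ∈ closure {g | ∃ g₁ ∈ E, ∃ g₂ ∈ E, ⁅g₁, g₂⁆ = g})
      ?_ ?_ ?_ ?_ hx
    · rintro _ ⟨b, hb, c, hc, rfl⟩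
      refine subset_closure ⟨v * b * v⁻¹, (inv_iff.1 hV) v hv b hb, v * c * v⁻¹,
        (inv_iff.1 hV) v hv c hc, ?_⟩
      simp only [commutatorElement_def]; group
    · simp
    · intro x y _ _ hx hy
      have : v * (x * y) * v⁻¹ = (v * x * v⁻¹) * (v * y * v⁻¹) := by group
      rw [this]; exact mul_mem hx hy
    · intro x _ hx
      have : v * x⁻¹ * v⁻¹ = (v * x * v⁻¹)⁻¹ := by group
      rw [this]; exact inv_mem hx
  have hdvd : Nat.card D ∣ Nat.card E := card_dvd_of_le hDE
  have hcenD : D ≤ centralizer (R : Set Γ) := by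
    refine ih (Nat.card D) (derived_lt E hs hbot) D (hinvD _ hIE) (hinvD _ hRE) ?_
      (Nat.Coprime.coprime_dvd_right hdvd hcop) ?_ rfl
    · rw [eq_bot_iff, ← hE]
      exact inf_le_inf_right _ hDE
    · haveI := hs
      exact solvable_of_solvable_injective (inclusion_injective hDE)
  -- the action on `E / D`
  letI := actAb E
  have heN : e ∈ normalizer (E : Set Γ) := hIE (mem_zpowers e)
  let e' : normalizer (E : Set Γ) := ⟨e, heN⟩
  let R' : Subgroup (normalizer (E : Set Γ)) := R.subgroupOf (normalizer (E : Set Γ))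
  have hker : ∀ x : E, Abelianization.of x = 1 → (x : Γ) ∈ D := by
    intro x hx
    have h1 : x ∈ commutator E := by
      rw [← Abelianization.ker_of E]; exact hx
    have h3 : (commutator E).map E.subtype = D := by
      rw [_root_.commutator_def, map_commutator, hD, ← MonoidHom.range_eq_map, range_subtype]
    rw [← h3]
    exact ⟨x, h1, rfl⟩
  have hfix : ∀ a : Abelianization E, e' • a = a → a = 1 := by
    intro a
    induction a using QuotientGroup.induction_on with
    | H x =>
      intro h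
      have h1 : Abelianization.of (cj E e' x) = Abelianization.of x := by
        rw [← Abelianization.map_of]; exact h
      have h2 : Abelianization.of (x⁻¹ * cj E e' x) = 1 := by
        rw [map_mul, map_inv, h1, inv_mul_cancel]
      have h3 : (x : Γ)⁻¹ * (e * x * e⁻¹) ∈ D := hker _ h2
      -- all powers
      have h4 : ∀ b ∈ zpowers e, (x : Γ)⁻¹ * (b * x * b⁻¹) ∈ D := by
        have hnat : ∀ k : ℕ, (x : Γ)⁻¹ * (e ^ k * x * (e ^ k)⁻¹) ∈ D := by
          intro k
          induction k with
          | zero => simp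
          | succ k ihk =>
            have h5 : (x : Γ)⁻¹ * (e ^ (k + 1) * x * (e ^ (k + 1))⁻¹) =
                ((x : Γ)⁻¹ * (e * x * e⁻¹)) * (e * ((x : Γ)⁻¹ * (e ^ k * x * (e ^ k)⁻¹)) * e⁻¹) := by
              rw [pow_succ']; group
            rw [h5]
            exact D.mul_mem h3 ((inv_iff.1 (hinvD _ hIE)) e (mem_zpowers e) _ ihk)
        intro b hb
        obtain ⟨k, hk⟩ := (mem_powers_iff_mem_zpowers.2 hb)
        have hk' : e ^ k = b := hk
        rw [← hk']
        exact hnat k
      obtain ⟨n, hn, hcom⟩ := a1_lift Γ p (zpowers e) D x hp (isPGroup_zpowers he) (hinvD _ hIE)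
        (fun h => hpE (h.trans hdvd)) h4
      have h5 : (x : Γ) * n ∈ cen E {e} := by
        refine mem_cen.2 ⟨E.mul_mem x.2 (hDE hn), ?_⟩
        intro b hb
        rw [Set.mem_singleton_iff] at hb
        subst hb
        exact hcom b (mem_zpowers b)
      rw [hE, mem_bot] at h5
      have h6 : (x : Γ) ∈ D := by
        have : (x : Γ) = n⁻¹ := mul_eq_one_iff_eq_inv.1 h5
        rw [this]; exact D.inv_mem hn
      show Abelianization.of x = 1
      have h3' : (commutator E).map E.subtype = D := by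
        rw [_root_.commutator_def, map_commutator, hD, ← MonoidHom.range_eq_map, range_subtype]
      rw [← h3'] at h6
      obtain ⟨y, hy, hyx⟩ := h6
      have hyx' : y = x := Subtype.ext hyx
      rw [← hyx']
      have : y ∈ (Abelianization.of (G := E)).ker := by rw [Abelianization.ker_of E]; exact hy
      exact this
  have hcard' : Nat.card R' = Nat.card R := by
    have hle : R ≤ normalizer (E : Set Γ) := hRE
    exact Nat.card_congr (subgroupOfEquivOfLe hle).toEquiv
  have hcop' : Nat.Coprime (Nat.card R') (Nat.card (Abelianization E)) := by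
    rw [hcard']
    exact Nat.Coprime.coprime_dvd_right (card_quotient_dvd_card _) hcop
  have htriv := frob (A := Abelianization E) hp R' e' (Subtype.ext he)
    (by
      rintro ⟨x, hx⟩ hxR
      exact (inv_iff.1 hIR) e (mem_zpowers e) x hxR)
    (by
      rintro ⟨x, hx⟩ hxR hcom
      have h1 : x * e = e * x := congrArg Subtype.val hcom.eq
      have h2 : x ∈ cen R {e} := by
        refine mem_cen.2 ⟨hxR, ?_⟩
        intro b hb
        rw [Set.mem_singleton_iff] at hb
        subst hb
        exact h1.symm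
      rw [hR, mem_bot] at h2
      exact Subtype.ext h2)
    hfix hcop'
  -- conclusion
  intro x hx
  rw [mem_centralizer_iff]
  intro b hb
  have hbN : b ∈ normalizer (E : Set Γ) := hRE hb
  have h1 := htriv ⟨b, hbN⟩ hb (Abelianization.of ⟨x, hx⟩)
  have h2 : Abelianization.of (cj E ⟨b, hbN⟩ ⟨x, hx⟩) = Abelianization.of ⟨x, hx⟩ := by
    rw [← Abelianization.map_of]; exact h1
  have h3 : Abelianization.of (cj E ⟨b, hbN⟩ ⟨x, hx⟩ * (⟨x, hx⟩ : E)⁻¹) = 1 := by
    rw [map_mul, map_inv, h2, mul_inv_cancel]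
  have h4 : b * x * b⁻¹ * x⁻¹ ∈ D := hker _ h3
  set c := b * x * b⁻¹ * x⁻¹ with hc
  have hbc : b * c = c * b := (mem_centralizer_iff.1 (hcenD h4)) b hb
  have hpow : ∀ k : ℕ, b ^ k * x * (b ^ k)⁻¹ = c ^ k * x := by
    intro k
    induction k with
    | zero => simp
    | succ k ihk =>
      have h5 : Commute b (c ^ k) := (show Commute b c from hbc).pow_right k
      calc b ^ (k + 1) * x * (b ^ (k + 1))⁻¹ = b * (b ^ k * x * (b ^ k)⁻¹) * b⁻¹ := by
            rw [pow_succ']; group
        _ = (b * c ^ k) * x * b⁻¹ := by rw [ihk]; group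
        _ = (c ^ k * b) * x * b⁻¹ := by rw [h5.eq]
        _ = c ^ k * c * x := by rw [hc]; group
        _ = c ^ (k + 1) * x := by rw [pow_succ]
  have h6 : c ^ (Nat.card R) = 1 := by
    have h7 := hpow (Nat.card R)
    have h8 : b ^ (Nat.card R) = 1 := by
      have := pow_card_eq_one' (x := (⟨b, hb⟩ : R))
      exact congrArg Subtype.val this
    rw [h8] at h7
    simp only [one_mul, inv_one, mul_one] at h7
    exact (mul_eq_right.1 h7.symm)
  have h9 : c = 1 := by
    have h10 : orderOf c ∣ Nat.card R := orderOf_dvd_of_pow_eq_one h6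
    have h11 : orderOf c ∣ Nat.card E := by
      have := orderOf_dvd_natCard (⟨c, hDE h4⟩ : E)
      rwa [← orderOf_mk] 
    exact orderOf_eq_one_iff.1 (Nat.eq_one_of_dvd_coprimes hcop h10 h11)
  have h12 : b * x * b⁻¹ = x := mul_inv_eq_one.1 (hc ▸ h9)
  calc b * x = (b * x * b⁻¹) * b := by group
    _ = x * b := by rw [h12]

end Pool.Agent.T6.H88.FP
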