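import Pool.Agent.T6.H88.FP.Tools

/-! # Project FP, module B1: regular orbits on cosets -/

set_option autoImplicit false

namespace Pool.Agent.T6.H88.FP

open Subgroup
open scoped commutatorElement

namespace ModB1

/-- an abelian group of operators of order prime to that of the abelian group `U`: some element of
`U` is fixed only by the operators which act trivially. -/
theorem reg {U : Type} [CommGroup U] [Finite U] {B : Type} [Group B] [Finite B]
    (hc : ∀ b c : B, b * c = c * b) (f : B →* Monoid.End U)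
    (hcop : (Nat.card B).Coprime (Nat.card U)) :
    ∃ u : U, ∀ b : B, f b u = u → ∀ w, f b w = w := by
  classical
  have : Fintype B := Fintype.ofFinite B
  obtain ⟨u, hu⟩ := Finite.exists_min (fun u : U => Nat.card {b : B // f b u = u})
  refine ⟨u, ?_⟩
  by_contra hcon
  push Not at hcon
  obtain ⟨b₀, hb₀, w, hw⟩ := hcon
  have hmul : ∀ a b : B, ∀ x : U, f (a * b) x = f a (f b x) := by
    intro a b x
    rw [map_mul]; rfl
  let D : Subgroup B :=
    { carrier := {b | f b u = u}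
      mul_mem' := by
        intro a b ha hb
        show f (a * b) u = u
        rw [hmul, show f b u = u from hb, show f a u = u from ha]
      one_mem' := by show f 1 u = u; rw [map_one]; rfl
      inv_mem' := by
        intro a ha
        show f a⁻¹ u = u
        have h1 : f a⁻¹ (f a u) = u := by rw [← hmul, inv_mul_cancel, map_one]; rfl
        rwa [show f a u = u from ha] at h1 }
  have hD : ∀ b, b ∈ D ↔ f b u = u := fun b => Iff.rfl
  let N : U → U := fun x => ∏ d : D, f (d : B) x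
  have hNmul : ∀ x y, N (x * y) = N x * N y := by
    intro x y
    simp only [N, map_mul, Finset.prod_mul_distrib]
  have hNinv : ∀ x, N x⁻¹ = (N x)⁻¹ := by
    intro x
    simp only [N, map_inv, Finset.prod_inv_distrib]
  have hNpow : ∀ x (n : ℕ), N (x ^ n) = N x ^ n := by
    intro x n
    simp only [N, map_pow, Finset.prod_pow]
  have hNfix : ∀ d ∈ D, ∀ x, f d (N x) = N x := by
    intro d hd x
    show f d (∏ e : D, f (e : B) x) = ∏ e : D, f (e : B) x
    rw [map_prod]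
    have h1 : ∀ e : D, f d (f (e : B) x) = f (((⟨d, hd⟩ : D) * e : D) : B) x := by
      intro e
      rw [← hmul]; rfl
    simp only [h1]
    exact Fintype.prod_equiv (Equiv.mulLeft (⟨d, hd⟩ : D)) _ _ (fun e => rfl)
  have hNcomm : ∀ (b : B) x, f b (N x) = N (f b x) := by
    intro b x
    show f b (∏ e : D, f (e : B) x) = ∏ e : D, f (e : B) (f b x)
    rw [map_prod]
    refine Finset.prod_congr rfl fun e _ => ?_
    rw [← hmul, ← hmul, hc]
  have hNof : ∀ x, (∀ d ∈ D, f d x = x) → N x = x ^ (Nat.card D) := by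
    intro x hx
    show ∏ e : D, f (e : B) x = x ^ (Nat.card D)
    rw [Finset.prod_congr rfl (fun (e : D) _ => hx e.1 e.2), Finset.prod_const, Finset.card_univ,
      Nat.card_eq_fintype_card]
  have hcopD : (Nat.card D).Coprime (Nat.card U) :=
    Nat.Coprime.coprime_dvd_left (card_subgroup_dvd_card D) hcop
  have hpinj : ∀ x y : U, x ^ (Nat.card D) = y ^ (Nat.card D) → x = y := by
    intro x y hxy
    exact (powCoprime hcopD.symm).injective hxy
  have huN : N u = u ^ (Nat.card D) := hNof u fun d hd => hd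
  set w' : U := w ^ (Nat.card D) * (N w)⁻¹ with hw'
  have hNw' : N w' = 1 := by
    rw [hw', hNmul, hNpow, hNinv, hNof (N w) (fun d hd => hNfix d hd w)]
    simp
  have hfix : ∀ b : B, f b (u * w') = u * w' → f b u = u ∧ f b w' = w' := by
    intro b hb
    have h1 : N (f b (u * w')) = N (u * w') := by rw [hb]
    rw [← hNcomm, hNmul, hNw', mul_one, huN, map_pow] at h1
    have h2 : f b u = u := hpinj _ _ h1
    refine ⟨h2, ?_⟩
    rw [map_mul, h2] at hb
    exact mul_left_cancel hb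
  have hsub : ∀ b : B, f b (u * w') = u * w' → f b u = u := fun b hb => (hfix b hb).1
  have hcard := hu (u * w')
  have hall : ∀ b : B, f b u = u → f b (u * w') = u * w' := by
    intro b hb
    have hinj : Function.Injective
        (fun x : {b : B // f b (u * w') = u * w'} => (⟨x.1, hsub x.1 x.2⟩ : {b : B // f b u = u})) := by
      intro x y hxy
      have := congrArg Subtype.val hxy
      exact Subtype.ext this
    have hsurj : Function.Surjective
        (fun x : {b : B // f b (u * w') = u * w'} => (⟨x.1, hsub x.1 x.2⟩ : {b : B // f b u = u})) := by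
      have hce : Nat.card {b : B // f b (u * w') = u * w'} = Nat.card {b : B // f b u = u} :=
        le_antisymm (Nat.card_le_card_of_injective _ hinj) hcard
      exact ((Nat.bijective_iff_injective_and_card _).2 ⟨hinj, hce⟩).2
    obtain ⟨x, hx⟩ := hsurj ⟨b, hb⟩
    have h3 : x.1 = b := congrArg Subtype.val hx
    rw [← h3]; exact x.2
  have hw'fix : ∀ d ∈ D, f d w' = w' := fun d hd => (hfix d (hall d hd)).2
  have hw'1 : w' = 1 := by
    have h4 := hNof w' hw'fix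
    rw [hNw'] at h4
    exact (hpinj w' 1 (by rw [← h4, one_pow]))
  have h5 : w ^ (Nat.card D) = N w := by
    rw [hw'] at hw'1
    exact mul_inv_eq_one.1 hw'1
  apply hw
  apply hpinj
  rw [← map_pow, h5, hNfix b₀ hb₀]

variable {Γ : Type} [Group Γ]

/-- the elements of `B` acting trivially on the cosets of `T` in `X` -/
theorem fixAll_mul {B X T : Subgroup Γ} (hT : Inv B T) {b c : Γ} (hb : b ∈ B) (_hc : c ∈ B)
    (h1 : ∀ x ∈ X, x⁻¹ * (b * x * b⁻¹) ∈ T) (h2 : ∀ x ∈ X, x⁻¹ * (c * x * c⁻¹) ∈ T) :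
    ∀ x ∈ X, x⁻¹ * (b * c * x * (b * c)⁻¹) ∈ T := by
  intro x hx
  have h3 : x⁻¹ * (b * c * x * (b * c)⁻¹) =
      (x⁻¹ * (b * x * b⁻¹)) * (b * (x⁻¹ * (c * x * c⁻¹)) * b⁻¹) := by group
  rw [h3]
  exact mul_mem (h1 x hx) (inv_iff.1 hT b hb _ (h2 x hx))

theorem fixAll_inv {B X T : Subgroup Γ} (hT : Inv B T) {b : Γ} (hb : b ∈ B)
    (h1 : ∀ x ∈ X, x⁻¹ * (b * x * b⁻¹) ∈ T) :
    ∀ x ∈ X, x⁻¹ * (b⁻¹ * x * b⁻¹⁻¹) ∈ T := by
  intro x hx
  have h3 : x⁻¹ * (b⁻¹ * x * b⁻¹⁻¹) = b⁻¹ * (x⁻¹ * (b * x * b⁻¹))⁻¹ * b⁻¹⁻¹ := by group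
  rw [h3]
  exact inv_iff.1 hT b⁻¹ (inv_mem hb) _ (inv_mem (h1 x hx))

/-- the subgroup of the elements of `B` which act trivially on the cosets of `T` in `X` -/
def tr (B X T : Subgroup Γ) (hT : Inv B T) : Subgroup Γ where
  carrier := {b | b ∈ B ∧ ∀ x ∈ X, x⁻¹ * (b * x * b⁻¹) ∈ T}
  mul_mem' := fun ha hb => ⟨mul_mem ha.1 hb.1, fixAll_mul hT ha.1 hb.1 ha.2 hb.2⟩
  one_mem' := ⟨one_mem _, fun x _ => by simp⟩
  inv_mem' := fun ha => ⟨inv_mem ha.1, fixAll_inv hT ha.1 ha.2⟩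

theorem mem_tr {B X T : Subgroup Γ} {hT : Inv B T} {b : Γ} :
    b ∈ tr B X T hT ↔ b ∈ B ∧ ∀ x ∈ X, x⁻¹ * (b * x * b⁻¹) ∈ T := Iff.rfl

/-- `[X, b] ≤ T` -/
theorem cm_le_of_fix {B X T : Subgroup Γ} (hT : Inv B T) {b : Γ} (hb : b ∈ B)
    (h : ∀ x ∈ X, x⁻¹ * (b * x * b⁻¹) ∈ T) : cm X b ≤ T := by
  unfold cm
  rw [commutator_le]
  intro x hx z hz
  have h1 : zpowers b ≤ tr B X T hT := by
    rw [zpowers_le]; exact ⟨hb, h⟩
  have h2 := (h1 hz).2 x⁻¹ (inv_mem hx)
  have h3 : ⁅x, z⁆ = x⁻¹⁻¹ * (z * x⁻¹ * z⁻¹) := by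
    simp only [commutatorElement_def]; group
  rw [h3]; exact h2

theorem mem_cm {X : Subgroup Γ} {b x : Γ} (hx : x ∈ X) : x⁻¹ * (b * x * b⁻¹) ∈ cm X b := by
  have h3 : x⁻¹ * (b * x * b⁻¹) = ⁅x⁻¹, b⁆ := by
    simp only [commutatorElement_def]; group
  rw [h3]
  exact commutator_mem_commutator (inv_mem hx) (mem_zpowers b)

/-- abelian sections -/
theorem regSec [Finite Γ] {p : ℕ} {B A T : Subgroup Γ} (hB : ElAb p B) (hA : Inv B A)
    (hT : Inv B T) (hp : ¬ p ∣ Nat.card A) (hAT : ⁅A, A⁆ ≤ T) :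
    ∃ a ∈ A, ∀ b ∈ B, a⁻¹ * (b * a * b⁻¹) ∈ T → ∀ x ∈ A, x⁻¹ * (b * x * b⁻¹) ∈ T := by
  classical
  have hn : (T.subgroupOf A).Normal := by
    refine ⟨fun n hn g => ?_⟩
    rw [mem_subgroupOf] at hn ⊢
    have h1 : ((g * n * g⁻¹ : A) : Γ) = ⁅(g : Γ), (n : Γ)⁆ * n := by
      simp only [commutatorElement_def]
      push_cast
      group
    rw [h1]
    exact mul_mem (hAT (commutator_mem_commutator g.2 n.2)) hn
  let U := A ⧸ T.subgroupOf A
  have hcomm : ∀ x y : U, x * y = y * x := by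
    intro x y
    obtain ⟨x, rfl⟩ := QuotientGroup.mk_surjective x
    obtain ⟨y, rfl⟩ := QuotientGroup.mk_surjective y
    rw [← QuotientGroup.mk_mul, ← QuotientGroup.mk_mul, QuotientGroup.eq, mem_subgroupOf]
    have h1 : (((x * y)⁻¹ * (y * x) : A) : Γ) = ⁅(y : Γ)⁻¹, (x : Γ)⁻¹⁆ := by
      simp only [commutatorElement_def]
      push_cast
      group
    rw [h1]
    exact hAT (commutator_mem_commutator (inv_mem y.2) (inv_mem x.2))
  letI : CommGroup U := { (inferInstance : Group U) with mul_comm := hcomm }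
  have hconj : ∀ b : B, ∀ x ∈ A, (b : Γ) * x * (b : Γ)⁻¹ ∈ A := fun b x hx =>
    inv_iff.1 hA b.1 b.2 x hx
  let c : B → (A →* A) := fun b =>
    { toFun := fun x => ⟨(b : Γ) * x * (b : Γ)⁻¹, hconj b x x.2⟩
      map_one' := Subtype.ext (by simp)
      map_mul' := fun x y => Subtype.ext (by
        show (b : Γ) * ((x * y : A) : Γ) * (b : Γ)⁻¹ = _
        push_cast
        group) }
  have hc : ∀ b, T.subgroupOf A ≤ (T.subgroupOf A).comap (c b) := by
    intro b x hx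
    rw [mem_comap, mem_subgroupOf]
    rw [mem_subgroupOf] at hx
    exact inv_iff.1 hT b.1 b.2 _ hx
  let F : B → (U →* U) := fun b => QuotientGroup.map _ _ (c b) (hc b)
  have hF : ∀ (b : B) (x : A), F b (QuotientGroup.mk x) = QuotientGroup.mk (c b x) := by
    intro b x
    rfl
  let f : B →* Monoid.End U :=
    { toFun := fun b => F b
      map_one' := by
        apply MonoidHom.ext
        intro x
        obtain ⟨x, rfl⟩ := QuotientGroup.mk_surjective x
        rw [hF]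
        show _ = (QuotientGroup.mk x : U)
        congr 1
        apply Subtype.ext
        show ((1 : B) : Γ) * x * ((1 : B) : Γ)⁻¹ = x
        simp
      map_mul' := by
        intro a b
        apply MonoidHom.ext
        intro x
        obtain ⟨x, rfl⟩ := QuotientGroup.mk_surjective x
        show F (a * b) (QuotientGroup.mk x) = F a (F b (QuotientGroup.mk x))
        rw [hF, hF, hF]
        congr 1
        apply Subtype.ext
        show ((a * b : B) : Γ) * x * ((a * b : B) : Γ)⁻¹ = (a : Γ) * ((b : Γ) * x * (b : Γ)⁻¹) * (a : Γ)⁻¹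
        push_cast
        group }
  have hf : ∀ (b : B) (x : A), f b (QuotientGroup.mk x) = QuotientGroup.mk (c b x) := hF
  have hcopU : (Nat.card B).Coprime (Nat.card U) := by
    have : Fact p.Prime := ⟨hB.prime⟩
    obtain ⟨n, hn⟩ := (IsPGroup.iff_card (p := p) (G := B)).1 hB.isPGroup
    rw [hn]
    apply Nat.Coprime.pow_left
    rw [Nat.Prime.coprime_iff_not_dvd hB.prime]
    intro h
    exact hp (h.trans (Subgroup.card_quotient_dvd_card _))
  obtain ⟨u, hu⟩ := reg (fun b c : B => Subtype.ext (hB.comm b b.2 c c.2)) f hcopU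
  obtain ⟨a, rfl⟩ := QuotientGroup.mk_surjective u
  have hkey : ∀ (b : B) (x : A), f b (QuotientGroup.mk x) = QuotientGroup.mk x ↔
      (x : Γ)⁻¹ * ((b : Γ) * x * (b : Γ)⁻¹) ∈ T := by
    intro b x
    rw [hf, eq_comm, QuotientGroup.eq, mem_subgroupOf]
    rfl
  refine ⟨a, a.2, fun b hb h x hx => ?_⟩
  exact (hkey ⟨b, hb⟩ ⟨x, hx⟩).1 (hu ⟨b, hb⟩ ((hkey ⟨b, hb⟩ a).2 h) _)

/-- the induction step -/
theorem step (hLift : StmtLift) (hSplit : StmtSplit) [Finite Γ] {p : ℕ} {B R T A : Subgroup Γ}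
    (hB : ElAb p B) (hR : Inv B R) (hp : ¬ p ∣ Nat.card R) (hTR : T ≤ R) (hT : Inv B T)
    (hAR : A ≤ R) (hA : Inv B A) (hRA : Inv R A) (hAT : ⁅A, A⁆ ≤ T) {g₁ : Γ} (hg₁ : g₁ ∈ R)
    (h : ∀ b ∈ B, g₁⁻¹ * (b * g₁ * b⁻¹) ∈ T ⊔ A → ∀ x ∈ R, x⁻¹ * (b * x * b⁻¹) ∈ T ⊔ A) :
    ∃ g ∈ R, ∀ b ∈ B, g⁻¹ * (b * g * b⁻¹) ∈ T → ∀ x ∈ R, x⁻¹ * (b * x * b⁻¹) ∈ T := by
  have hTA : Inv B (T ⊔ A) := by
    intro b hb
    rw [mem_normalizer_iff_map_conj_eq]
    rw [Subgroup.map_sup]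
    have h1 := inv_map_eq hT hb
    have h2 := inv_map_eq hA hb
    exact congrArg₂ (· ⊔ ·) h1 h2
  have hTAR : T ⊔ A ≤ R := sup_le hTR hAR
  -- decomposition of the elements of `T ⊔ A`
  have hdec : ∀ x ∈ T ⊔ A, ∃ a ∈ A, ∃ t ∈ T, x = a * t := by
    intro x hx
    have h1 : T ≤ normalizer (A : Set Γ) := hTR.trans hRA
    rw [sup_comm] at hx
    have h2 := coe_mul_of_right_le_normalizer_left A T h1
    have h3 : x ∈ ((A ⊔ T : Subgroup Γ) : Set Γ) := hx
    rw [h2] at h3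
    obtain ⟨a, ha, t, ht, h4⟩ := h3
    exact ⟨a, ha, t, ht, h4.symm⟩
  set B₁ : Subgroup Γ := tr B R (T ⊔ A) hTA with hB₁
  have hB₁B : B₁ ≤ B := fun b hb => hb.1
  have hB₁e : ElAb p B₁ := hB.mono hB₁B
  obtain ⟨n, hn, hcom⟩ := hLift Γ p B₁ (T ⊔ A) g₁ hB.prime hB₁e.isPGroup (inv_mono hTA hB₁B)
    (fun hd => hp (hd.trans (card_dvd_of_le hTAR))) (fun b hb => hb.2 g₁ hg₁)
  obtain ⟨a, ha, hafix⟩ := regSec hB₁e (inv_mono hA hB₁B) (inv_mono hT hB₁B)
    (fun hd => hp (hd.trans (card_dvd_of_le hAR))) hAT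
  refine ⟨g₁ * n * a, mul_mem (mul_mem hg₁ (hTAR hn)) (hAR ha), fun b hb hfix => ?_⟩
  have hbB₁ : b ∈ B₁ := by
    refine ⟨hb, h b hb ?_⟩
    have h1 : g₁⁻¹ * (b * g₁ * b⁻¹) =
        n * a * ((g₁ * n * a)⁻¹ * (b * (g₁ * n * a) * b⁻¹)) * (b * a * b⁻¹)⁻¹ * (b * n * b⁻¹)⁻¹ := by
      group
    rw [h1]
    refine mul_mem (mul_mem (mul_mem (mul_mem hn (le_sup_right (a := T) ha)) (le_sup_left (b := A) hfix))
      (inv_mem (le_sup_right (a := T) (inv_iff.1 hA b hb a ha))))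
      (inv_mem (inv_iff.1 hTA b hb n hn))
  have hbc := hcom b hbB₁
  have hba : a⁻¹ * (b * a * b⁻¹) ∈ T := by
    have h1 : (g₁ * n * a)⁻¹ * (b * (g₁ * n * a) * b⁻¹) =
        a⁻¹ * ((g₁ * n)⁻¹ * (b * (g₁ * n))) * a * b⁻¹ := by group
    rw [h1, hbc] at hfix
    have h2 : a⁻¹ * ((g₁ * n)⁻¹ * ((g₁ * n) * b)) * a * b⁻¹ = a⁻¹ * (b * a * b⁻¹) := by group
    rwa [h2] at hfix
  have hA' := hafix b hbB₁ hba
  have h1 : cm R b ≤ T ⊔ A := cm_le_of_fix hTA hb hbB₁.2
  have h2 : cm (T ⊔ A) b ≤ T := by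
    refine cm_le_of_fix hT hb fun x hx => ?_
    obtain ⟨a', ha', t, ht, rfl⟩ := hdec x hx
    have h3 : (a' * t)⁻¹ * (b * (a' * t) * b⁻¹) =
        t⁻¹ * (a'⁻¹ * (b * a' * b⁻¹)) * (b * t * b⁻¹) := by group
    rw [h3]
    exact mul_mem (mul_mem (inv_mem ht) (hA' a' ha')) (inv_iff.1 hT b hb t ht)
  have h3 : cm (cm R b) b = cm R b :=
    (hSplit Γ p R b hB.prime (hB.exp b hb) (inv_mono hR (by rwa [zpowers_le])) hp).2
  have h4 : cm R b ≤ T := by
    rw [← h3]
    exact (commutator_mono h1 le_rfl).trans h2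
  intro x hx
  exact h4 (mem_cm hx)

/-- the derived series, as subgroups of `Γ` -/
def dS (R : Subgroup Γ) : ℕ → Subgroup Γ
  | 0 => R
  | n + 1 => ⁅dS R n, dS R n⁆

theorem dS_eq (R : Subgroup Γ) (n : ℕ) : dS R n = (derivedSeries R n).map R.subtype := by
  induction n with
  | zero =>
    rw [derivedSeries_zero, ← MonoidHom.range_eq_map, range_subtype]
    rfl
  | succ n ih => rw [dS, ih, derivedSeries_succ, map_commutator]

theorem inv_comm {B A : Subgroup Γ} (h : Inv B A) : Inv B ⁅A, A⁆ := by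
  rw [inv_iff]
  intro b hb x hx
  have h1 : ⁅A, A⁆.map (MulAut.conj b).toMonoidHom = ⁅A, A⁆ := by
    rw [map_commutator, inv_map_eq h hb]
  rw [← h1]
  exact ⟨x, hx, rfl⟩

theorem dS_inv {B R : Subgroup Γ} (h : Inv B R) (n : ℕ) : Inv B (dS R n) := by
  induction n with
  | zero => exact h
  | succ n ih => exact inv_comm ih

theorem dS_le {R : Subgroup Γ} (n : ℕ) : dS R n ≤ R := by
  rw [dS_eq]
  exact map_subtype_le _

theorem dS_anti {R : Subgroup Γ} (n : ℕ) : dS R (n + 1) ≤ dS R n := by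
  show ⁅dS R n, dS R n⁆ ≤ dS R n
  rw [commutator_le]
  intro a ha b hb
  rw [commutatorElement_def]
  exact mul_mem (mul_mem (mul_mem ha hb) (inv_mem ha)) (inv_mem hb)

end ModB1

open ModB1

/-- module B1 -/
theorem b1 (hLift : StmtLift) (hSplit : StmtSplit) : StmtRO := by
  intro Γ _ _ p B R T hB hR hp hsol hTR hT
  have key : ∀ n : ℕ, ∃ g ∈ R, ∀ b ∈ B, g⁻¹ * (b * g * b⁻¹) ∈ T ⊔ dS R n →
      ∀ x ∈ R, x⁻¹ * (b * x * b⁻¹) ∈ T ⊔ dS R n := by
    intro n
    induction n with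
    | zero =>
      refine ⟨1, one_mem _, fun b hb _ x hx => ?_⟩
      exact le_sup_right (a := T) (show x⁻¹ * (b * x * b⁻¹) ∈ R from
        mul_mem (inv_mem hx) (inv_iff.1 hR b hb x hx))
    | succ n ih =>
      obtain ⟨g₁, hg₁, h⟩ := ih
      have hT' : Inv B (T ⊔ dS R (n + 1)) := by
        intro b hb
        rw [mem_normalizer_iff_map_conj_eq, Subgroup.map_sup]
        exact congrArg₂ (· ⊔ ·) (inv_map_eq hT hb) (inv_map_eq (dS_inv hR (n + 1)) hb)
      have hsup : T ⊔ dS R (n + 1) ⊔ dS R n = T ⊔ dS R n := by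
        rw [sup_assoc, sup_eq_right.2 (dS_anti n)]
      refine step hLift hSplit hB hR hp (sup_le hTR (dS_le _)) hT' (dS_le n) (dS_inv hR n)
        (dS_inv le_normalizer n) (le_sup_right (a := T)) hg₁ ?_
      rw [hsup]
      exact h
  obtain ⟨n, hn⟩ := hsol.solvable
  obtain ⟨g, hg, h⟩ := key n
  have h0 : T ⊔ dS R n = T := by
    rw [dS_eq, hn, Subgroup.map_bot, sup_bot_eq]
  rw [h0] at h
  exact ⟨g, hg, h⟩

end Pool.Agent.T6.H88.FP
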