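import Mathlib

/-! # Project FP (helper88): MP_e56c9f_al, frozen statement S03375

Everything takes place inside a finite group `Γ` (think of the semidirect product `G ⋊ V`); `V` is an
elementary abelian `p`-subgroup which normalises the subgroup `G`. Definitions and the statements of
the modules. The proofs are in `NOTES.md` and in the rows of `paper_proofs`. -/

namespace Pool.Agent.T6.H88.FP

open Subgroup

section defs

variable {Γ : Type} [Group Γ]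

/-- `V` is an elementary abelian `p`-subgroup -/
structure ElAb (p : ℕ) (V : Subgroup Γ) : Prop where
  prime : p.Prime
  exp : ∀ v ∈ V, v ^ p = 1
  comm : ∀ v ∈ V, ∀ w ∈ V, v * w = w * v

/-- `V` normalises `X` -/
def Inv (V X : Subgroup Γ) : Prop := V ≤ normalizer (X : Set Γ)

/-- `C_X(B)` -/
def cen (X : Subgroup Γ) (B : Set Γ) : Subgroup Γ := X ⊓ centralizer B

/-- `[X, e]` -/
def cm (X : Subgroup Γ) (e : Γ) : Subgroup Γ := ⁅X, zpowers e⁆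

/-- `X` is a `{q, r}`-group -/
def IsPi (q r : ℕ) (X : Subgroup Γ) : Prop :=
  ∀ s : ℕ, s.Prime → s ∣ Nat.card X → s = q ∨ s = r

/-- the join of all `V`-invariant `q`-subgroups of `X` (in the fixed point free situation this is the
unique `V`-invariant Sylow `q`-subgroup of `X`, see `StmtSyl`) -/
def syl (V : Subgroup Γ) (q : ℕ) (X : Subgroup Γ) : Subgroup Γ :=
  sSup {Y | Y ≤ X ∧ Inv V Y ∧ IsPGroup q Y}

/-- for soluble `X` this is the `V`-invariant Hall `{q, r}`-subgroup of `X`, see `StmtHall` -/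
def hall (V : Subgroup Γ) (q r : ℕ) (X : Subgroup Γ) : Subgroup Γ := syl V q X ⊔ syl V r X

/-- `O_q(X)` -/
def core (q : ℕ) (X : Subgroup Γ) : Subgroup Γ :=
  sSup {N | N ≤ X ∧ Inv X N ∧ IsPGroup q N}

/-- elementary abelian `q`-subgroup (possibly trivial) -/
def eab (q : ℕ) (A : Subgroup Γ) : Prop :=
  (∀ a ∈ A, a ^ q = 1) ∧ ∀ a ∈ A, ∀ b ∈ A, a * b = b * a

/-- Thompson subgroup: generated by the elementary abelian subgroups of `T` of maximal order -/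
def JJ (q : ℕ) (T : Subgroup Γ) : Subgroup Γ :=
  sSup {A | A ≤ T ∧ eab q A ∧ ∀ B ≤ T, eab q B → Nat.card B ≤ Nat.card A}

/-- `Ω₁(Z(T))` -/
def ZZ (q : ℕ) (T : Subgroup Γ) : Subgroup Γ :=
  sSup {A | A ≤ cen T T ∧ eab q A}

/-- `X` is `p`-nilpotent: it has a normal `p`-complement -/
def PNil (p : ℕ) (X : Subgroup Γ) : Prop :=
  ∃ N ≤ X, Inv X N ∧ ¬ p ∣ Nat.card N ∧ ∃ k : ℕ, N.relIndex X = p ^ k

end defs

/-! ## Part A: coprime action -/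

/-- A1 -/
def StmtCop : Prop := ∀ (Γ : Type) [Group Γ] [Finite Γ] (p : ℕ) (V X : Subgroup Γ),
  ElAb p V → Inv V X → cen X V = ⊥ → ¬ p ∣ Nat.card X

/-- A1: a `p`-group acting by conjugation on a set of order prime to `p` fixes a point -/
def StmtFix : Prop := ∀ (Γ : Type) [Group Γ] [Finite Γ] (p : ℕ) (B : Subgroup Γ) (Ω : Set Γ),
  p.Prime → IsPGroup p B → (∀ b ∈ B, ∀ x ∈ Ω, b * x * b⁻¹ ∈ Ω) → ¬ p ∣ Ω.ncard →
  ∃ x ∈ Ω, ∀ b ∈ B, b * x = x * b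

/-- A1: fixed points lift (applied to the `B`-invariant coset `g N`) -/
def StmtLift : Prop := ∀ (Γ : Type) [Group Γ] [Finite Γ] (p : ℕ) (B N : Subgroup Γ) (g : Γ),
  p.Prime → IsPGroup p B → Inv B N → ¬ p ∣ Nat.card N →
  (∀ b ∈ B, g⁻¹ * (b * g * b⁻¹) ∈ N) → ∃ n ∈ N, ∀ b ∈ B, b * (g * n) = (g * n) * b

/-- A1: fixed points of a product of two invariant subgroups -/
def StmtProd : Prop := ∀ (Γ : Type) [Group Γ] [Finite Γ] (p : ℕ) (B A C : Subgroup Γ) (a c : Γ),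
  p.Prime → IsPGroup p B → Inv B A → Inv B C → ¬ p ∣ Nat.card A → a ∈ A → c ∈ C →
  (∀ b ∈ B, b * (a * c) = (a * c) * b) →
  ∃ a' ∈ cen A B, ∃ c' ∈ cen C B, a * c = a' * c'

/-- A1: `X = C_X(e) [X, e]` and `[X, e, e] = [X, e]` -/
def StmtSplit : Prop := ∀ (Γ : Type) [Group Γ] [Finite Γ] (p : ℕ) (X : Subgroup Γ) (e : Γ),
  p.Prime → e ^ p = 1 → Inv (zpowers e) X → ¬ p ∣ Nat.card X →
  (∀ x ∈ X, ∃ c ∈ cen X {e}, ∃ y ∈ cm X e, x = c * y) ∧ cm (cm X e) e = cm X e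

/-- A2: Thompson's `A × B` lemma -/
def StmtAxB : Prop := ∀ (Γ : Type) [Group Γ] [Finite Γ] (q : ℕ) (A B P : Subgroup Γ),
  q.Prime → IsPGroup q B → IsPGroup q P → ¬ q ∣ Nat.card A → Inv A P → Inv B P →
  (∀ a ∈ A, ∀ b ∈ B, a * b = b * a) → cen P B ≤ centralizer (A : Set Γ) →
  P ≤ centralizer (A : Set Γ)

/-- A3: the `V`-invariant Sylow subgroup -/
def StmtSyl : Prop := ∀ (Γ : Type) [Group Γ] [Finite Γ] (p : ℕ) (V X : Subgroup Γ) (q : ℕ),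
  ElAb p V → Inv V X → cen X V = ⊥ → q.Prime →
  syl V q X ≤ X ∧ Inv V (syl V q X) ∧ IsPGroup q (syl V q X) ∧ ¬ q ∣ (syl V q X).relIndex X ∧
  ∀ Y ≤ X, Inv V Y → syl V q Y = Y ⊓ syl V q X

/-- A4: the `V`-invariant Hall `{q, r}`-subgroup of a soluble group -/
def StmtHall : Prop := ∀ (Γ : Type) [Group Γ] [Finite Γ] (p : ℕ) (V X : Subgroup Γ) (q r : ℕ),
  ElAb p V → Inv V X → cen X V = ⊥ → Group.IsSolvable X → q.Prime → r.Prime → q ≠ r →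
  (∀ x ∈ hall V q r X, ∃ a ∈ syl V q X, ∃ b ∈ syl V r X, x = a * b) ∧
  Nat.card (hall V q r X) = Nat.card (syl V q X) * Nat.card (syl V r X) ∧
  ∀ Y ≤ X, Inv V Y → IsPi q r Y → Y ≤ hall V q r X

/-- A5: generation by the centralisers of hyperplanes -/
def StmtGen : Prop := ∀ (Γ : Type) [Group Γ] [Finite Γ] (p : ℕ) (V X Y : Subgroup Γ),
  ElAb p V → Inv V X → ¬ p ∣ Nat.card X → Group.IsSolvable X →
  (∀ K ≤ V, K.relIndex V ∣ p → cen X K ≤ Y) → X ≤ Y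

/-- A5: generation by the centralisers of elements, for noncyclic `V` -/
def StmtGen2 : Prop := ∀ (Γ : Type) [Group Γ] [Finite Γ] (p : ℕ) (V X Y : Subgroup Γ),
  ElAb p V → ¬ Nat.card V ∣ p → Inv V X → ¬ p ∣ Nat.card X → Group.IsSolvable X →
  (∀ v ∈ V, v ≠ 1 → cen X {v} ≤ Y) → X ≤ Y

/-- A6: products of two invariant subgroups are detected by the hyperplanes -/
def StmtAB : Prop := ∀ (Γ : Type) [Group Γ] [Finite Γ] (p : ℕ) (V S A B : Subgroup Γ),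
  ElAb p V → Inv V S → cen S V = ⊥ → Group.IsSolvable S → A ≤ S → B ≤ S → Inv V A → Inv V B →
  (∀ K ≤ V, K.relIndex V = p → ∀ x ∈ cen S K, ∃ a ∈ cen A K, ∃ b ∈ cen B K, x = a * b) →
  ∀ x ∈ S, ∃ a ∈ A, ∃ b ∈ B, x = a * b

/-- A7: the core, and Fitting's theorem for soluble `{q, r}`-groups -/
def StmtCore : Prop := ∀ (Γ : Type) [Group Γ] [Finite Γ] (q : ℕ) (X : Subgroup Γ), q.Prime →
  (core q X ≤ X ∧ Inv X (core q X) ∧ IsPGroup q (core q X) ∧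
    ∀ V : Subgroup Γ, Inv V X → Inv V (core q X)) ∧
  ∀ r : ℕ, r.Prime → q ≠ r → IsPi q r X → Group.IsSolvable X →
    cen X ((core q X ⊔ core r X : Subgroup Γ) : Set Γ) ≤ core q X ⊔ core r X

/-- A8: an automorphism `e` centralising a Sylow `r`-subgroup of a soluble `{q, r}`-group -/
def StmtQ : Prop := ∀ (Γ : Type) [Group Γ] [Finite Γ] (p : ℕ) (X T : Subgroup Γ) (e : Γ) (q r : ℕ),
  p.Prime → e ^ p = 1 → Inv (zpowers e) X → ¬ p ∣ Nat.card X → Group.IsSolvable X → q.Prime →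
  r.Prime → q ≠ r → IsPi q r X → T ≤ X → IsPGroup r T → ¬ r ∣ T.relIndex X →
  T ≤ centralizer {e} → cm X e ≤ core q X

/-- A9: Frobenius partition argument: `e` of prime order without fixed points on `R` and on `E` -/
def StmtF0 : Prop := ∀ (Γ : Type) [Group Γ] [Finite Γ] (p : ℕ) (E R : Subgroup Γ) (e : Γ),
  p.Prime → e ^ p = 1 → Inv (zpowers e) R → Inv (zpowers e) E → Inv R E → cen R {e} = ⊥ →
  cen E {e} = ⊥ → Nat.Coprime (Nat.card R) (Nat.card E) → Group.IsSolvable E →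
  E ≤ centralizer (R : Set Γ)

/-- A10: `C_E(e) = 1` implies that `[R, e]` centralises `E` -/
def StmtNp : Prop := ∀ (Γ : Type) [Group Γ] [Finite Γ] (p : ℕ) (V E R : Subgroup Γ) (e : Γ),
  ElAb p V → Inv V R → Inv V E → Inv R E → cen R V = ⊥ → Group.IsSolvable R →
  Group.IsSolvable E → Nat.Coprime (Nat.card R) (Nat.card E) → e ∈ V → cen E {e} = ⊥ →
  E ≤ centralizer (cm R e : Set Γ)

/-- A10: if the hyperplane `K` centralises `ρ` and `u ∉ K` then `C_E(u)` is not centralised by `ρ`,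
unless `ρ` centralises `E` -/
def StmtP : Prop := ∀ (Γ : Type) [Group Γ] [Finite Γ] (p : ℕ) (V K E ρ : Subgroup Γ) (u : Γ),
  ElAb p V → Inv V ρ → Inv V E → Inv ρ E → cen ρ V = ⊥ → Group.IsSolvable E →
  ¬ p ∣ Nat.card E → Nat.Coprime (Nat.card ρ) (Nat.card E) → K ≤ V → K.relIndex V = p →
  ρ ≤ centralizer (K : Set Γ) → u ∈ V → u ∉ K → cen E {u} ≤ centralizer (ρ : Set Γ) → E ≤ centralizer (ρ : Set Γ)

/-! ## Part B: the representation theoretic part and the soluble case -/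

/-- B1: regular orbits on cosets -/
def StmtRO : Prop := ∀ (Γ : Type) [Group Γ] [Finite Γ] (p : ℕ) (B R T : Subgroup Γ),
  ElAb p B → Inv B R → ¬ p ∣ Nat.card R → Group.IsSolvable R → T ≤ R → Inv B T →
  ∃ g ∈ R, ∀ b ∈ B, g⁻¹ * (b * g * b⁻¹) ∈ T → ∀ x ∈ R, x⁻¹ * (b * x * b⁻¹) ∈ T

/-- B2, B3: `N` is an irreducible `R I`-submodule of `W` without nonzero `I`-fixed points; the
conclusion: `[R, v]` acts trivially on `N` for some `1 ≠ v ∈ I` -/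
def NConcl {k : Type} [Field k] {W : Type} [AddCommGroup W] [Module k W] {Γ : Type} [Group Γ]
    (ρ : Representation k Γ W) (R I : Subgroup Γ) (N : Submodule k W) : Prop :=
  N ≠ ⊥ → (∀ g ∈ R ⊔ I, N.map (ρ g) ≤ N) →
  (∀ N' : Submodule k W, N' ≤ N → N' ≠ ⊥ → (∀ g ∈ R ⊔ I, N'.map (ρ g) ≤ N') → N' = N) →
  (∀ n ∈ N, (∀ v ∈ I, ρ v n = n) → n = 0) →
  ∃ v ∈ I, v ≠ 1 ∧ ∀ x ∈ cm R v, ∀ n ∈ N, ρ x n = n

/-- B2a: weights of a subgroup `A` which acts on `N` by commuting operators. `J` is the kernel of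
the action of `I` on the weights, `N'` a weight space the stabiliser of which in `I` is `J`. -/
def StmtWt : Prop := ∀ (k : Type) [Field k] [IsAlgClosed k] (W : Type) [AddCommGroup W]
  [Module k W] [FiniteDimensional k W] (Γ : Type) [Group Γ] [Finite Γ] (ρ : Representation k Γ W)
  (p : ℕ) (V R I A : Subgroup Γ) (N : Submodule k W),
  ElAb p V → Inv V R → ¬ p ∣ Nat.card R → Group.IsSolvable R → I ≤ V →
  A ≤ R → Inv R A → Inv V A → ((Nat.card A : ℕ) : k) ≠ 0 →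
  (∀ a ∈ A, ∀ b ∈ A, ∀ n ∈ N, ρ (a * b) n = ρ (b * a) n) →
  N ≠ ⊥ → (∀ g ∈ R ⊔ I, N.map (ρ g) ≤ N) →
  (∀ N' : Submodule k W, N' ≤ N → N' ≠ ⊥ → (∀ g ∈ R ⊔ I, N'.map (ρ g) ≤ N') → N' = N) →
  (∀ n ∈ N, (∀ v ∈ I, ρ v n = n) → n = 0) →
  ∃ (J : Subgroup Γ) (N' : Submodule k W), J ≤ I ∧
    (∀ v ∈ I, v ∈ J ↔ ∀ x ∈ cm A v, ∀ n ∈ N, ρ x n = n) ∧
    N' ≤ N ∧ N' ≠ ⊥ ∧ (∀ v ∈ J, N'.map (ρ v) ≤ N') ∧
    (∀ g ∈ R, (∀ a ∈ A, ∀ n ∈ N, ρ (a * g * a⁻¹ * g⁻¹) n = n) → N'.map (ρ g) ≤ N') ∧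
    (∀ n ∈ N', (∀ v ∈ J, ρ v n = n) → n = 0)

/-- B2b: pure group theory -/
def StmtNil : Prop := ∀ (Γ : Type) [Group Γ] [Finite Γ] (p : ℕ) (V R I : Subgroup Γ),
  ElAb p V → Inv V R → cen R V = ⊥ → Group.IsNilpotent R → I ≤ V →
  (∀ A ≤ R, Inv R A → Inv V A → (∀ a ∈ A, ∀ b ∈ A, a * b = b * a) →
    A ≤ centralizer (R : Set Γ) ∧ A ≤ centralizer (I : Set Γ)) →
  R ≤ centralizer (I : Set Γ)

/-- B2c: nilpotent `R` of order prime to the characteristic -/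
def StmtNN : Prop := ∀ (k : Type) [Field k] [IsAlgClosed k] (W : Type) [AddCommGroup W]
  [Module k W] [FiniteDimensional k W] (Γ : Type) [Group Γ] [Finite Γ] (ρ : Representation k Γ W)
  (p : ℕ) (V R I : Subgroup Γ) (N : Submodule k W),
  ElAb p V → Inv V R → cen R V = ⊥ → Group.IsNilpotent R → ((Nat.card R : ℕ) : k) ≠ 0 → I ≤ V →
  NConcl ρ R I N

/-- B3a: from the irreducible `X I`-submodules of `N` to `N`, for `X` normal in `R` -/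
def StmtKer : Prop := ∀ (k : Type) [Field k] [IsAlgClosed k] (W : Type) [AddCommGroup W]
  [Module k W] [FiniteDimensional k W] (Γ : Type) [Group Γ] [Finite Γ] (ρ : Representation k Γ W)
  (p : ℕ) (V R I X : Subgroup Γ) (N : Submodule k W),
  ElAb p V → Inv V R → ¬ p ∣ Nat.card R → Group.IsSolvable R → I ≤ V →
  X ≤ R → Inv R X → Inv V X → ((Nat.card X : ℕ) : k) ≠ 0 →
  N ≠ ⊥ → (∀ g ∈ R ⊔ I, N.map (ρ g) ≤ N) →
  (∀ N' : Submodule k W, N' ≤ N → N' ≠ ⊥ → (∀ g ∈ R ⊔ I, N'.map (ρ g) ≤ N') → N' = N) →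
  (∀ N₁ : Submodule k W, N₁ ≤ N → N₁ ≠ ⊥ → (∀ g ∈ X ⊔ I, N₁.map (ρ g) ≤ N₁) →
    (∀ N' : Submodule k W, N' ≤ N₁ → N' ≠ ⊥ → (∀ g ∈ X ⊔ I, N'.map (ρ g) ≤ N') → N' = N₁) →
    ∃ v ∈ I, v ≠ 1 ∧ ∀ x ∈ cm X v, ∀ n ∈ N₁, ρ x n = n) →
  ∃ v ∈ I, v ≠ 1 ∧ ∀ x ∈ cm X v, ∀ n ∈ N, ρ x n = n

/-- B3: soluble `R` without nontrivial normal subgroups of `char k`-power order -/
def StmtNS : Prop := ∀ (k : Type) [Field k] [IsAlgClosed k] (W : Type) [AddCommGroup W]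
  [Module k W] [FiniteDimensional k W] (Γ : Type) [Group Γ] [Finite Γ] (ρ : Representation k Γ W)
  (p : ℕ) (V R I : Subgroup Γ) (N : Submodule k W),
  ElAb p V → Inv V R → cen R V = ⊥ → Group.IsSolvable R →
  (∀ s : ℕ, s.Prime → (s : k) = 0 → core s R = ⊥) → I ≤ V →
  (∀ x ∈ R, (∀ v ∈ V, ∀ n ∈ N, ρ (v * x * v⁻¹) n = n) → x = 1) → NConcl ρ R I N

/-- B4: the irreducible linear version over the prime field -/
def StmtStar : Prop := ∀ (r p : ℕ) (_ : Fact r.Prime) (U : Type) [AddCommGroup U]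
  [Module (ZMod r) U] [Finite U] [Nontrivial U] (V R : Subgroup (U ≃ₗ[ZMod r] U)),
  ElAb p V → Inv V R → cen R V = ⊥ → Group.IsSolvable R →
  (∀ N : Submodule (ZMod r) U, (∀ g ∈ R ⊔ V, ∀ n ∈ N, g n ∈ N) → N = ⊥ ∨ N = ⊤) →
  (∀ u : U, (∀ v ∈ V, v u = u) → u = 0) →
  ∃ v ∈ V, v ≠ 1 ∧ ∀ g ∈ R, v * g = g * v

/-- B5: chief factors -/
def StmtChief : Prop := ∀ (Γ : Type) [Group Γ] [Finite Γ] (p : ℕ) (V X U₁ U₂ : Subgroup Γ),
  ElAb p V → Inv V X → cen X V = ⊥ → Group.IsSolvable X → U₂ < U₁ → U₁ ≤ X → Inv X U₁ →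
  Inv X U₂ → Inv V U₁ → Inv V U₂ →
  (∀ N : Subgroup Γ, U₂ ≤ N → N ≤ U₁ → Inv X N → Inv V N → N = U₂ ∨ N = U₁) →
  ∃ v ∈ V, (∃ u ∈ U₁, v * u * v⁻¹ * u⁻¹ ∉ U₂) ∧ ⁅cm X v, U₁⁆ ≤ U₂

/-- B6: the soluble case of the problem -/
def StmtMainSol : Prop := ∀ (Γ : Type) [Group Γ] [Finite Γ] (p : ℕ) (V G : Subgroup Γ),
  ElAb p V → V ≠ ⊥ → Inv V G → cen G V = ⊥ → Group.IsSolvable G →
  Group.IsNilpotent (⨅ (v : Γ) (_ : v ∈ V ∧ v ≠ 1), cm G v : Subgroup Γ)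

/-! ## Part C: Thompson's theorems, fusion -/

/-- C1: a group acting faithfully with an offender has a transvection -/
def StmtOff : Prop := ∀ (q : ℕ) (_ : Fact q.Prime) (W : Type) [AddCommGroup W]
  [Module (ZMod q) W] [Finite W] (A R : Subgroup (W ≃ₗ[ZMod q] W)),
  eab q A → A ≠ ⊥ → Inv A R → ¬ q ∣ Nat.card R → Group.IsSolvable R → cen A R = ⊥ →
  Nat.card W ≤ Nat.card A * Nat.card {w : W // ∀ a ∈ A, a w = w} →
  ∃ a ∈ A, a ≠ 1 ∧ Nat.card W ≤ q * Nat.card {w : W // a w = w}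

/-- C2: for odd `q` a transvection centralises every abelian `q'`-group which it normalises -/
def StmtTrA : Prop := ∀ (q : ℕ) (_ : Fact q.Prime) (W : Type) [AddCommGroup W]
  [Module (ZMod q) W] [Finite W] (R : Subgroup (W ≃ₗ[ZMod q] W)) (a : W ≃ₗ[ZMod q] W),
  q ≠ 2 → ¬ q ∣ Nat.card R → (∀ x ∈ R, ∀ y ∈ R, x * y = y * x) → Inv (zpowers a) R →
  a ^ q = 1 → Nat.card W ≤ q * Nat.card {w : W // a w = w} → ∀ x ∈ R, a * x = x * a

/-- C3: a `q'`-group `R` normalised but not centralised by a transvection `a`: `q - 1` divides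
(up to multiplicities) the order of `R ⟨a⟩` (it involves `SL₂(q)`) -/
def StmtTrV : Prop := ∀ (q : ℕ) (_ : Fact q.Prime) (W : Type) [AddCommGroup W]
  [Module (ZMod q) W] [Finite W] (R : Subgroup (W ≃ₗ[ZMod q] W)) (a : W ≃ₗ[ZMod q] W),
  ¬ q ∣ Nat.card R → Inv (zpowers a) R → a ^ q = 1 →
  Nat.card W ≤ q * Nat.card {w : W // a w = w} → (∃ x ∈ R, a * x ≠ x * a) →
  ∀ p : ℕ, p.Prime → p ∣ q - 1 → p ∣ Nat.card (R ⊔ zpowers a : Subgroup (W ≃ₗ[ZMod q] W))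

/-- C4: Thompson's normal `p`-complement theorem -/
def StmtTho : Prop := ∀ (Γ : Type) [Group Γ] [Finite Γ] (p : ℕ) (G P : Subgroup Γ),
  p.Prime → p ≠ 2 → P ≤ G → IsPGroup p P → ¬ p ∣ P.relIndex G →
  PNil p (G ⊓ normalizer (JJ p P : Set Γ)) → PNil p (cen G (cen P P : Set Γ)) → PNil p G

/-- C5: Thompson: a fixed point free automorphism of prime order -/
def StmtS1 : Prop := ∀ (Γ : Type) [Group Γ] [Finite Γ] (p : ℕ) (V G : Subgroup Γ),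
  ElAb p V → Nat.card V ∣ p → Inv V G → cen G V = ⊥ → Group.IsNilpotent G

/-- C6: fusion -/
def StmtFus : Prop := ∀ (Γ : Type) [Group Γ] [Finite Γ] (p r : ℕ) (G S : Subgroup Γ) (e : Γ),
  p.Prime → r.Prime → e ^ p = 1 → Inv (zpowers e) G → ¬ p ∣ Nat.card G → S ≤ G → IsPGroup r S →
  ¬ r ∣ S.relIndex G → S ≠ ⊥ → S ≤ centralizer {e} → Group.IsNilpotent (cen G {e}) →
  ⁅G, G⁆ ≠ G

/-! ## Part D: the local analysis -/

section loc

variable {Γ : Type} [Group Γ]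

/-- a minimal counterexample `G` to solubility together with a bad pair of primes -/
structure Bad (p q r : ℕ) (V G : Subgroup Γ) : Prop where
  elAb' : ElAb p V
  inv : Inv V G
  fpf : cen G V = ⊥
  big : ¬ Nat.card V ∣ p
  hq : q.Prime
  hr : r.Prime
  ne : q ≠ r
  hqG : q ∣ Nat.card G
  hrG : r ∣ Nat.card G
  sol : ∀ X ≤ G, Inv V X → X ≠ G → Group.IsSolvable X
  simp : ∀ N ≤ G, Inv V N → Inv G N → N = ⊥ ∨ N = G
  nsol : ¬ Group.IsSolvable G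
  faith : ∀ v ∈ V, v ≠ 1 → cen G {v} ≠ G
  bad : ∀ X ≤ G, Inv V X → IsPi q r X → syl V q G ≤ X → syl V r G ≤ X → X = G

/-- the `V`-invariant `{q, r}`-subgroups `≠ G` of `G` -/
def LL (V G : Subgroup Γ) (q r : ℕ) (X : Subgroup Γ) : Prop :=
  X ≤ G ∧ Inv V X ∧ X ≠ G ∧ IsPi q r X

/-- the maximal ones -/
def MM (V G : Subgroup Γ) (q r : ℕ) (M : Subgroup Γ) : Prop :=
  LL V G q r M ∧ ∀ X, LL V G q r X → M ≤ X → X = M

/-- the `V`-invariant Hall `{q, r}`-subgroup of `N_G(x)` -/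
def Hn (V G : Subgroup Γ) (q r : ℕ) (x : Subgroup Γ) : Subgroup Γ :=
  hall V q r (G ⊓ normalizer (x : Set Γ))

/-- the `V`-invariant Hall `{q, r}`-subgroup of `C_G(v)` -/
def Hc (V G : Subgroup Γ) (q r : ℕ) (v : Γ) : Subgroup Γ := hall V q r (cen G {v})

/-- D1: the basic properties of the sets `LL` and `MM`. The properties with `q` and `r` exchanged
are the components of `Loc p r q V G`. -/
structure Loc (p q r : ℕ) (V G : Subgroup Γ) : Prop where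
  cop : ¬ p ∣ Nat.card G
  /-- symmetry -/
  symL : ∀ X, LL V G q r X → LL V G r q X
  symM : ∀ X, MM V G q r X → MM V G r q X
  symn : ∀ x, Hn V G q r x = Hn V G r q x
  symc : ∀ v, Hc V G q r v = Hc V G r q v
  /-- Sylow subgroups -/
  sq : syl V q G ≤ G ∧ Inv V (syl V q G) ∧ IsPGroup q (syl V q G) ∧
    ¬ q ∣ (syl V q G).relIndex G ∧ syl V q G ≠ ⊥ ∧ LL V G q r (syl V q G)
  syl_eq : ∀ X ≤ G, Inv V X → syl V q X = X ⊓ syl V q G
  le_syl : ∀ X ≤ G, Inv V X → IsPGroup q X → X ≤ syl V q G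
  /-- maximal elements -/
  mx : ∀ X, LL V G q r X → ∃ M, MM V G q r M ∧ X ≤ M
  /-- `X = X_q X_r`, `X` soluble -/
  dec : ∀ X, LL V G q r X → Group.IsSolvable X ∧
    ∀ x ∈ X, ∃ a ∈ X ⊓ syl V q G, ∃ b ∈ X ⊓ syl V r G, x = a * b
  /-- normalisers -/
  nor : ∀ x ≤ G, Inv V x → x ≠ ⊥ → x ≠ G → LL V G q r (Hn V G q r x) ∧ Inv (Hn V G q r x) x
  le_nor : ∀ X x, LL V G q r X → Inv X x → x ≤ G → Inv V x → x ≠ ⊥ → x ≠ G →
    X ≤ Hn V G q r x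
  eqn : ∀ M x, MM V G q r M → x ≤ M → Inv V x → Inv M x → x ≠ ⊥ → Hn V G q r x = M
  /-- centralisers of elements of `V` -/
  cn : ∀ v ∈ V, v ≠ 1 → LL V G q r (Hc V G q r v) ∧ Hc V G q r v ≤ centralizer {v}
  le_cn : ∀ X, LL V G q r X → ∀ v ∈ V, v ≠ 1 → X ≤ centralizer {v} → X ≤ Hc V G q r v
  /-- `C_G(K)` is nilpotent for hyperplanes `K` of `V` -/
  nilK : ∀ K ≤ V, K.relIndex V = p → ∀ x ∈ cen (syl V q G) K, ∀ y ∈ cen (syl V r G) K,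
    x * y = y * x
  /-- the cores -/
  cq : ∀ X, LL V G q r X → core q X ≤ X ∧ Inv X (core q X) ∧ IsPGroup q (core q X) ∧
    Inv V (core q X)
  fit : ∀ X, LL V G q r X → cen X ((core q X ⊔ core r X : Subgroup Γ) : Set Γ) ≤
    core q X ⊔ core r X
  lemQ : ∀ X, LL V G q r X → ∀ e ∈ V, X ⊓ syl V r G ≤ centralizer {e} → cm X e ≤ core q X

end loc

/-- D1 -/
def StmtLoc : Prop := ∀ (Γ : Type) [Group Γ] [Finite Γ] (p q r : ℕ) (V G : Subgroup Γ),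
  Bad p q r V G → Bad p r q V G ∧ Loc p q r V G ∧ Loc p r q V G

/-- D2: uniqueness theorem -/
def StmtU : Prop := ∀ (Γ : Type) [Group Γ] [Finite Γ] (p q r : ℕ) (V G : Subgroup Γ),
  Bad p q r V G → ∀ M, MM V G q r M → core q M ≠ ⊥ → core r M ≠ ⊥ → ∀ X, LL V G q r X →
  ∀ x y : Subgroup Γ, x ≤ core q M → y ≤ core r M → x ≠ ⊥ → y ≠ ⊥ → Inv V x → Inv V y →
  x ≤ X → y ≤ X → X ≤ M

/-- D3: there are no maximal subgroups with two nontrivial cores -/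
def StmtTA : Prop := ∀ (Γ : Type) [Group Γ] [Finite Γ] (p q r : ℕ) (V G : Subgroup Γ),
  Bad p q r V G → ∀ M, MM V G q r M → core q M = ⊥ ∨ core r M = ⊥

/-- D4: rank two -/
def StmtTB2 : Prop := ∀ (Γ : Type) [Group Γ] [Finite Γ] (p q r : ℕ) (V G : Subgroup Γ),
  Bad p q r V G → Nat.card V ∣ p ^ 2 → False

/-- D5: elementary abelian subgroups satisfying the Thompson inequality centralise `W` -/
def StmtF : Prop := ∀ (Γ : Type) [Group Γ] [Finite Γ] (p q r : ℕ) (V M W A : Subgroup Γ),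
  ElAb p V → Inv V M → cen M V = ⊥ → Group.IsSolvable M → q.Prime → r.Prime → q ≠ r →
  IsPi q r M → W ≤ M → eab q W → Inv M W → Inv V W →
  (∀ D ≤ M, Inv M D → (∃ k : ℕ, (cen M W).relIndex D = q ^ k) → D ≤ cen M W) →
  A ≤ M → eab q A →
  (∀ B ≤ A, Nat.card B * Nat.card (cen W B) ≤ Nat.card A * Nat.card (cen W A)) →
  A ≤ centralizer (W : Set Γ)

/-- D6: domination, rank at least three. `core r M = ⊥` means that `M` has type `q`. -/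
def Dom {Γ : Type} [Group Γ] (p q r : ℕ) (V G : Subgroup Γ) : Prop :=
  (∃ L ≤ V, L.relIndex V = p ∧ ∀ v ∈ L, v ≠ 1 →
    ∃ M, MM V G q r M ∧ core r M = ⊥ ∧ Hc V G q r v ≤ M) ∧
  ∀ X, MM V G q r X → core q X = ⊥ → X ⊓ ZZ q (syl V q G) = ⊥

/-- D6 -/
def StmtDom : Prop := ∀ (Γ : Type) [Group Γ] [Finite Γ] (p q r : ℕ) (V G : Subgroup Γ),
  Bad p q r V G → ¬ Nat.card V ∣ p ^ 2 → Dom p q r V G ∨ Dom p r q V G

/-- the normal closure of `Ω₁(Z(S_q))` in `M` -/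
def WW {Γ : Type} [Group Γ] (V G : Subgroup Γ) (q : ℕ) (M : Subgroup Γ) : Subgroup Γ :=
  ⨆ m ∈ M, (ZZ q (syl V q G)).map (MulAut.conj m).toMonoidHom

/-- D7: the maximal subgroup `MJ` of type `q` with `WW M ≤ WW MJ` for all `M` of type `q`, and the
decomposition of the elements of `M_r` -/
def StmtW : Prop := ∀ (Γ : Type) [Group Γ] [Finite Γ] (p q r : ℕ) (V G : Subgroup Γ),
  Bad p q r V G → ¬ Nat.card V ∣ p ^ 2 → Dom p q r V G →
  ∃ MJ, MM V G q r MJ ∧ core r MJ = ⊥ ∧ syl V q G ≤ MJ ∧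
    Hn V G q r (WW V G q MJ) = MJ ∧
    ∀ M, MM V G q r M → core r M = ⊥ → ∀ K ≤ V, ∀ x ∈ cen (M ⊓ syl V r G) K,
      ∃ a ∈ cen (cen (syl V r G) (ZZ q (syl V q G) : Set Γ)) K,
      ∃ b ∈ cen (MJ ⊓ syl V r G) K, x = a * b

/-- D8: rank at least three -/
def StmtTB3 : Prop := ∀ (Γ : Type) [Group Γ] [Finite Γ] (p q r : ℕ) (V G : Subgroup Γ),
  Bad p q r V G → ¬ Nat.card V ∣ p ^ 2 → False

/-- D9: P. Hall, Wielandt -/
def StmtHW : Prop := ∀ (Γ : Type) [Group Γ] [Finite Γ] (p : ℕ) (V G : Subgroup Γ),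
  ElAb p V → Inv V G → cen G V = ⊥ →
  (∀ X ≤ G, Inv V X → X ≠ G → Group.IsSolvable X) →
  (∀ N ≤ G, Inv V N → Inv G N → N = ⊥ ∨ N = G) →
  (∀ q r : ℕ, q.Prime → r.Prime → q ≠ r → q ∣ Nat.card G → r ∣ Nat.card G →
    ∃ X ≤ G, Inv V X ∧ X ≠ G ∧ syl V q G ≤ X ∧ syl V r G ≤ X) →
  Group.IsSolvable G

/-- D10: solubility -/
def StmtSolv : Prop := ∀ (Γ : Type) [Group Γ] [Finite Γ] (p : ℕ) (V G : Subgroup Γ),
  ElAb p V → Inv V G → cen G V = ⊥ → Group.IsSolvable G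

end Pool.Agent.T6.H88.FP
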