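import Mathlib
import Pool.Agent.T6.H88.FP.Defs

set_option autoImplicit false

/-! # Project FP, module B2a: weights -/

namespace Pool.Agent.T6.H88.FP.ModB2a

open Subgroup

/-- functions on the group, with the conjugation action -/
@[ext] structure WF (Γ k : Type) where
  f : Γ → k

section

variable {Γ k : Type} [Group Γ]

instance : MulAction Γ (WF Γ k) where
  smul g ω := ⟨fun x => ω.f (g⁻¹ * x * g)⟩
  one_smul ω := by
    ext x
    change ω.f ((1 : Γ)⁻¹ * x * 1) = ω.f x
    simp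
  mul_smul g h ω := by
    ext x
    change ω.f ((g * h)⁻¹ * x * (g * h)) = ω.f (h⁻¹ * (g⁻¹ * x * g) * h)
    congr 1
    group

lemma smul_f (g : Γ) (ω : WF Γ k) (x : Γ) : (g • ω).f x = ω.f (g⁻¹ * x * g) := rfl

/-- support in `A` -/
def Supp [Zero k] (A : Subgroup Γ) (ω : WF Γ k) : Prop := ∀ x, x ∉ A → ω.f x = 0

lemma Supp.smul [Zero k] {A : Subgroup Γ} {ω : WF Γ k} (h : Supp A ω) {g : Γ}
    (hg : g ∈ normalizer (A : Set Γ)) : Supp A (g • ω) := by
  intro x hx
  rw [smul_f]
  apply h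
  intro h2
  apply hx
  rw [mem_normalizer_iff''] at hg
  exact (hg x).2 h2

end

variable {Γ : Type} [Group Γ] {k : Type} [Field k] {W : Type} [AddCommGroup W] [Module k W]

/-- weight space -/
def wt (ρ : Representation k Γ W) (A : Subgroup Γ) (N : Submodule k W) (ω : WF Γ k) :
    Submodule k W where
  carrier := {n | n ∈ N ∧ ∀ a ∈ A, ρ a n = ω.f a • n}
  add_mem' := by
    rintro x y ⟨hx, hx'⟩ ⟨hy, hy'⟩
    refine ⟨N.add_mem hx hy, fun a ha => ?_⟩
    rw [map_add, hx' a ha, hy' a ha, smul_add]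
  zero_mem' := ⟨N.zero_mem, fun a _ => by simp⟩
  smul_mem' := by
    rintro c x ⟨hx, hx'⟩
    refine ⟨N.smul_mem c hx, fun a ha => ?_⟩
    rw [map_smul, hx' a ha, smul_comm]

lemma mem_wt {ρ : Representation k Γ W} {A : Subgroup Γ} {N : Submodule k W} {ω : WF Γ k} {n : W} :
    n ∈ wt ρ A N ω ↔ n ∈ N ∧ ∀ a ∈ A, ρ a n = ω.f a • n := Iff.rfl

lemma wt_le {ρ : Representation k Γ W} {A : Subgroup Γ} {N : Submodule k W} {ω : WF Γ k} :
    wt ρ A N ω ≤ N := fun _ h => h.1

lemma rho_mul (ρ : Representation k Γ W) (a b : Γ) (n : W) : ρ (a * b) n = ρ a (ρ b n) := by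
  rw [map_mul]; rfl

lemma rho_one (ρ : Representation k Γ W) (n : W) : ρ 1 n = n := by
  rw [map_one]; rfl

lemma rho_inv_self (ρ : Representation k Γ W) (g : Γ) (n : W) : ρ g⁻¹ (ρ g n) = n := by
  rw [← rho_mul, inv_mul_cancel, rho_one]

lemma rho_self_inv (ρ : Representation k Γ W) (g : Γ) (n : W) : ρ g (ρ g⁻¹ n) = n := by
  rw [← rho_mul, mul_inv_cancel, rho_one]

lemma smul_mem_wt {ρ : Representation k Γ W} {A : Subgroup Γ} {N : Submodule k W} {ω : WF Γ k}
    {n : W} (hn : n ∈ wt ρ A N ω) {g : Γ} (hg : g ∈ normalizer (A : Set Γ))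
    (hgN : ∀ n ∈ N, ρ g n ∈ N) : ρ g n ∈ wt ρ A N (g • ω) := by
  refine ⟨hgN n hn.1, fun a ha => ?_⟩
  have h1 : g⁻¹ * a * g ∈ A := ((mem_normalizer_iff''.1 hg) a).1 ha
  rw [smul_f, ← map_smul, ← hn.2 _ h1, ← rho_mul, ← rho_mul]
  congr 2
  group

lemma rho_inj (ρ : Representation k Γ W) (g : Γ) {n : W} (h : ρ g n = 0) : n = 0 := by
  rw [← rho_inv_self ρ g n, h, map_zero]

lemma wt_ne_bot {ρ : Representation k Γ W} {A : Subgroup Γ} {N : Submodule k W} {ω : WF Γ k}
    (hω : wt ρ A N ω ≠ ⊥) {g : Γ} (hg : g ∈ normalizer (A : Set Γ))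
    (hgN : ∀ n ∈ N, ρ g n ∈ N) : wt ρ A N (g • ω) ≠ ⊥ := by
  obtain ⟨n, hn, hn0⟩ := Submodule.exists_mem_ne_zero_of_ne_bot hω
  intro h
  have := smul_mem_wt hn hg hgN
  rw [h, Submodule.mem_bot] at this
  exact hn0 (rho_inj ρ g this)

/-- existence of a weight -/
lemma exists_wt [IsAlgClosed k] [FiniteDimensional k W] [Finite Γ] (ρ : Representation k Γ W)
    (A : Subgroup Γ) (N : Submodule k W)
    (hcomm : ∀ a ∈ A, ∀ b ∈ A, ∀ n ∈ N, ρ (a * b) n = ρ (b * a) n)
    (hNA : ∀ a ∈ A, ∀ n ∈ N, ρ a n ∈ N) (hN : N ≠ ⊥) :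
    ∃ ω : WF Γ k, Supp A ω ∧ wt ρ A N ω ≠ ⊥ := by
  classical
  have key : ∀ S : Finset Γ, ∃ (c : Γ → k) (M : Submodule k W), M ≤ N ∧ M ≠ ⊥ ∧
      (∀ a ∈ A, ∀ n ∈ M, ρ a n ∈ M) ∧ ∀ a ∈ S, a ∈ A → ∀ n ∈ M, ρ a n = c a • n := by
    intro S
    induction S using Finset.induction_on with
    | empty => exact ⟨fun _ => 0, N, le_rfl, hN, hNA, by simp⟩
    | insert a S haS ih =>
      obtain ⟨c, M, hMN, hM, hMA, hc⟩ := ih
      by_cases haA : a ∈ A
      · haveI : Nontrivial M := (Submodule.nontrivial_iff_ne_bot).2 hM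
        obtain ⟨μ, hμ⟩ := Module.End.exists_eigenvalue ((ρ a).restrict (hMA a haA))
        obtain ⟨x, hx⟩ := hμ.exists_hasEigenvector
        have hx1 : ρ a (x : W) = μ • (x : W) := by
          have := hx.apply_eq_smul
          have h2 := congrArg Subtype.val this
          simpa using h2
        have hx0 : (x : W) ≠ 0 := fun h => hx.2 (Subtype.ext h)
        let M' : Submodule k W :=
          { carrier := {n | n ∈ M ∧ ρ a n = μ • n}
            add_mem' := by
              rintro x y ⟨hx, hx'⟩ ⟨hy, hy'⟩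
              exact ⟨M.add_mem hx hy, by rw [map_add, hx', hy', smul_add]⟩
            zero_mem' := ⟨M.zero_mem, by simp⟩
            smul_mem' := by
              rintro c x ⟨hx, hx'⟩
              exact ⟨M.smul_mem c hx, by rw [map_smul, hx', smul_comm]⟩ }
        refine ⟨Function.update c a μ, M', fun n hn => hMN hn.1, ?_, ?_, ?_⟩
        · intro h
          have : (x : W) ∈ M' := ⟨x.2, hx1⟩
          rw [h, Submodule.mem_bot] at this
          exact hx0 this
        · rintro b hb n ⟨hn, hn'⟩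
          refine ⟨hMA b hb n hn, ?_⟩
          rw [← rho_mul, hcomm a haA b hb n (hMN hn), rho_mul, hn', map_smul]
        · rintro b hb hbA n ⟨hn, hn'⟩
          rcases Finset.mem_insert.1 hb with hb' | hb'
          · subst hb'
            rw [Function.update_self]; exact hn'
          · have hne : b ≠ a := fun e => haS (e ▸ hb')
            rw [Function.update_of_ne hne]
            exact hc b hb' hbA n hn
      · refine ⟨c, M, hMN, hM, hMA, ?_⟩
        intro b hb hbA n hn
        rcases Finset.mem_insert.1 hb with rfl | hb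
        · exact absurd hbA haA
        · exact hc b hb hbA n hn
  haveI := Fintype.ofFinite Γ
  obtain ⟨c, M, hMN, hM, _, hc⟩ := key Finset.univ
  refine ⟨⟨fun x => if x ∈ A then c x else 0⟩, fun x hx => by simp [hx], ?_⟩
  obtain ⟨n, hn, hn0⟩ := Submodule.exists_mem_ne_zero_of_ne_bot hM
  intro h
  have : n ∈ wt ρ A N ⟨fun x => if x ∈ A then c x else 0⟩ := by
    refine ⟨hMN hn, fun a ha => ?_⟩
    simp only [if_pos ha]
    exact hc a (Finset.mem_univ _) ha n hn
  rw [h, Submodule.mem_bot] at this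
  exact hn0 this

/-- independence of the weight spaces -/
lemma indep {ι : Type*} [DecidableEq ι] (ρ : Representation k Γ W) (A : Subgroup Γ)
    (N : Submodule k W) (ω : ι → WF Γ k) (s : Finset ι) :
    ∀ (n : ι → W), (∀ i ∈ s, Supp A (ω i)) → (∀ i ∈ s, ∀ j ∈ s, ω i = ω j → i = j) →
      (∀ i ∈ s, n i ∈ wt ρ A N (ω i)) → ∑ i ∈ s, n i = 0 → ∀ i ∈ s, n i = 0 := by
  induction s using Finset.induction_on with
  | empty => intro n _ _ _ _ i hi; simp at hi
  | insert j s hj ih =>
    intro n hS hinj hn hsum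
    have hstep : ∀ a ∈ A, ∀ i ∈ s, ((ω i).f a - (ω j).f a) • n i = 0 := by
      intro a ha
      apply ih (fun i => ((ω i).f a - (ω j).f a) • n i)
        (fun i hi => hS i (Finset.mem_insert_of_mem hi))
        (fun i hi i' hi' => hinj i (Finset.mem_insert_of_mem hi) i' (Finset.mem_insert_of_mem hi'))
        (fun i hi => (wt ρ A N (ω i)).smul_mem _ (hn i (Finset.mem_insert_of_mem hi)))
      have h1 : ρ a (∑ i ∈ insert j s, n i) - (ω j).f a • ∑ i ∈ insert j s, n i = 0 := by
        rw [hsum]; simp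
      rw [map_sum, Finset.smul_sum, ← Finset.sum_sub_distrib, Finset.sum_insert hj,
        (hn j (Finset.mem_insert_self _ _)).2 a ha, sub_self, zero_add] at h1
      rw [← h1]
      refine Finset.sum_congr rfl fun i hi => ?_
      rw [(hn i (Finset.mem_insert_of_mem hi)).2 a ha, sub_smul]
    have h0 : ∀ i ∈ s, n i = 0 := by
      intro i hi
      by_contra hne
      have hEq : ω i = ω j := by
        ext x
        by_cases hx : x ∈ A
        · have := hstep x hx i hi
          rcases smul_eq_zero.1 this with h | h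
          · exact sub_eq_zero.1 h
          · exact absurd h hne
        · rw [hS i (Finset.mem_insert_of_mem hi) x hx, hS j (Finset.mem_insert_self _ _) x hx]
      have := hinj i (Finset.mem_insert_of_mem hi) j (Finset.mem_insert_self _ _) hEq
      exact hj (this ▸ hi)
    intro i hi
    rcases Finset.mem_insert.1 hi with rfl | hi
    · rw [Finset.sum_insert hj, Finset.sum_eq_zero h0, add_zero] at hsum
      exact hsum
    · exact h0 i hi

/-- **Module B2a.** -/
theorem b2a (hFix : StmtFix) (hRO : StmtRO) : StmtWt := by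
  classical
  intro k _ _ W _ _ _ Γ _ _ ρ p V R I A N hV hVR hpR hRs hIV hAR hRA hVA _ hcomm hN hNinv hirr hfix
  haveI := Fintype.ofFinite Γ
  set H : Subgroup Γ := R ⊔ I with hH
  have hRH : R ≤ H := le_sup_left
  have hIH : I ≤ H := le_sup_right
  have hIR : I ≤ normalizer (R : Set Γ) := hIV.trans hVR
  have hHA : H ≤ normalizer (A : Set Γ) := sup_le hRA (hIV.trans hVA)
  have hNH : ∀ g ∈ H, ∀ n ∈ N, ρ g n ∈ N := fun g hg n hn =>
    hNinv g hg (Submodule.mem_map_of_mem hn)
  have hNA : ∀ a ∈ A, ∀ n ∈ N, ρ a n ∈ N := fun a ha => hNH a (hRH (hAR ha))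
  have hAH : A ≤ H := hAR.trans hRH
  obtain ⟨ω₀, hS₀, hw₀⟩ := exists_wt ρ A N hcomm hNA hN
  -- decomposition of the elements of `H`
  have hdec : ∀ h ∈ H, ∃ w ∈ I, ∃ x ∈ R, h = w * x := by
    intro h hh
    rw [hH, sup_comm, ← SetLike.mem_coe, coe_mul_of_left_le_normalizer_right I R hIR,
      Set.mem_mul] at hh
    obtain ⟨w, hw, x, hx, e⟩ := hh
    exact ⟨w, hw, x, hx, e.symm⟩
  -- the `R`-orbit
  set O : Set (WF Γ k) := MulAction.orbit R ω₀ with hO
  have hOmem : ∀ ω, ω ∈ O ↔ ∃ x ∈ R, x • ω₀ = ω := by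
    intro ω
    constructor
    · rintro ⟨x, hx⟩
      exact ⟨x, x.2, hx⟩
    · rintro ⟨x, hx, e⟩
      exact ⟨⟨x, hx⟩, e⟩
  have hOcard : ¬ p ∣ O.ncard := by
    rw [hO, ← MulAction.index_stabilizer]
    intro h
    exact hpR (h.trans (Subgroup.index_dvd_card _))
  -- the stabiliser of the orbit in `I`
  let P : Subgroup Γ :=
    { carrier := {v | v ∈ I ∧ ∀ ω, ω ∈ O ↔ v • ω ∈ O}
      mul_mem' := by
        rintro a b ⟨ha, ha'⟩ ⟨hb, hb'⟩
        refine ⟨I.mul_mem ha hb, fun ω => ?_⟩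
        rw [hb' ω, ha' (b • ω), mul_smul]
      one_mem' := ⟨I.one_mem, fun ω => by rw [one_smul]⟩
      inv_mem' := by
        rintro a ⟨ha, ha'⟩
        refine ⟨I.inv_mem ha, fun ω => ?_⟩
        rw [ha' (a⁻¹ • ω), smul_inv_smul] }
  have hPmem : ∀ v, v ∈ P ↔ v ∈ I ∧ ∀ ω, ω ∈ O ↔ v • ω ∈ O := fun v => Iff.rfl
  have hPI : P ≤ I := fun v hv => hv.1
  -- a fixed point of `P` on `O`
  let OO : SubMulAction P (WF Γ k) :=
    { carrier := O
      smul_mem' := fun v ω hω => ((v.2.2) ω).1 hω }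
  have hPp : IsPGroup p P := by
    intro v
    refine ⟨1, Subtype.ext ?_⟩
    rw [pow_one]
    exact hV.exp _ (hIV (hPI v.2))
  haveI : Fact p.Prime := ⟨hV.prime⟩
  have hOO : ¬ p ∣ Nat.card OO := by
    have : Nat.card OO = O.ncard := Nat.card_coe_set_eq O
    rw [this]
    exact hOcard
  obtain ⟨ω₁, hω₁⟩ := hPp.nonempty_fixed_point_of_prime_not_dvd_card OO hOO
  set ω : WF Γ k := (ω₁ : WF Γ k) with hω
  have hωO : ω ∈ O := ω₁.2
  have hPfix : ∀ v ∈ P, v • ω = ω := by
    intro v hv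
    have := hω₁ ⟨v, hv⟩
    have := congrArg Subtype.val this
    exact this
  obtain ⟨x₀, hx₀, hx₀e⟩ := (hOmem ω).1 hωO
  have hO' : ∀ ω', ω' ∈ O ↔ ∃ x ∈ R, x • ω = ω' := by
    intro ω'
    rw [hOmem]
    constructor
    · rintro ⟨x, hx, rfl⟩
      refine ⟨x * x₀⁻¹, R.mul_mem hx (R.inv_mem hx₀), ?_⟩
      rw [← hx₀e, smul_smul, inv_mul_cancel_right]
    · rintro ⟨x, hx, rfl⟩
      refine ⟨x * x₀, R.mul_mem hx hx₀, ?_⟩
      rw [← hx₀e, smul_smul]
  -- the stabiliser in `R`
  let T : Subgroup Γ := R ⊓ MulAction.stabilizer Γ ω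
  have hTmem : ∀ x, x ∈ T ↔ x ∈ R ∧ x • ω = ω := fun x => Iff.rfl
  have hconjR : ∀ v ∈ I, ∀ x ∈ R, v * x * v⁻¹ ∈ R := fun v hv x hx =>
    ((mem_normalizer_iff.1 (hIR hv)) x).1 hx
  have hconjR' : ∀ v ∈ I, ∀ x ∈ R, v⁻¹ * x * v ∈ R := fun v hv x hx =>
    ((mem_normalizer_iff''.1 (hIR hv)) x).1 hx
  have hPT : Inv P T := by
    unfold Inv
    rw [le_normalizer_iff]
    intro v hv x hx
    refine ⟨hconjR v (hPI hv) x hx.1, ?_⟩
    change (v * x * v⁻¹) • ω = ω
    have h1 : v⁻¹ • ω = ω := by rw [inv_smul_eq_iff, hPfix v hv]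
    rw [mul_smul, mul_smul, h1, ((hTmem x).1 hx).2, hPfix v hv]
  obtain ⟨g, hgR, hg⟩ := hRO Γ p P R T ⟨hV.prime, fun v hv => hV.exp v (hIV (hPI hv)),
    fun v hv w hw => hV.comm v (hIV (hPI hv)) w (hIV (hPI hw))⟩
    ((hPI.trans hIV).trans hVR) hpR hRs inf_le_left hPT
  -- the condition means fixing a point of the orbit
  have hcond : ∀ b ∈ P, ∀ x ∈ R, (x⁻¹ * (b * x * b⁻¹) ∈ T ↔ b • (x • ω) = x • ω) := by
    intro b hb x hx
    have h1 : b⁻¹ • ω = ω := by rw [inv_smul_eq_iff, hPfix b hb]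
    rw [hTmem]
    constructor
    · rintro ⟨_, h2⟩
      rw [mul_smul, mul_smul, mul_smul, h1, inv_smul_eq_iff] at h2
      exact h2
    · intro h2
      refine ⟨R.mul_mem (R.inv_mem hx) (hconjR b (hPI hb) x hx), ?_⟩
      rw [mul_smul, mul_smul, mul_smul, h1, inv_smul_eq_iff]
      exact h2
  let J : Subgroup Γ := I ⊓ MulAction.stabilizer Γ (g • ω)
  have hJmem : ∀ v, v ∈ J ↔ v ∈ I ∧ v • (g • ω) = g • ω := fun v => Iff.rfl
  have hJP : J ≤ P := by
    intro v hv
    obtain ⟨hvI, hvg⟩ := (hJmem v).1 hv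
    have hvO : ∀ ω' ∈ O, v • ω' ∈ O := by
      intro ω' hω'
      obtain ⟨x, hx, rfl⟩ := (hO' ω').1 hω'
      rw [hO']
      refine ⟨v * (x * g⁻¹) * v⁻¹ * g, R.mul_mem (hconjR v hvI _ (R.mul_mem hx (R.inv_mem hgR))) hgR,
        ?_⟩
      have h1 : v⁻¹ • (g • ω) = g • ω := by rw [inv_smul_eq_iff, hvg]
      rw [mul_smul, mul_smul, mul_smul, h1, ← mul_smul (x * g⁻¹), inv_mul_cancel_right]
    have hvO' : ∀ ω' ∈ O, v⁻¹ • ω' ∈ O := by
      intro ω' hω'
      obtain ⟨x, hx, rfl⟩ := (hO' ω').1 hω'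
      rw [hO']
      refine ⟨v⁻¹ * (x * g⁻¹) * v * g, R.mul_mem (hconjR' v hvI _ (R.mul_mem hx (R.inv_mem hgR)))
        hgR, ?_⟩
      rw [mul_smul, mul_smul, mul_smul, hvg, ← mul_smul (x * g⁻¹), inv_mul_cancel_right]
    refine ⟨hvI, fun ω' => ⟨hvO ω', fun h => ?_⟩⟩
    have := hvO' _ h
    rwa [inv_smul_smul] at this
  -- the elements of `J` fix all the weights
  have hJall : ∀ v ∈ J, ∀ h ∈ H, v • (h • ω) = h • ω := by
    intro v hv h hh
    obtain ⟨w, hw, x, hx, rfl⟩ := hdec h hh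
    have h1 : v • (x • ω) = x • ω := by
      rw [← hcond v (hJP hv) x hx]
      exact hg v (hJP hv) ((hcond v (hJP hv) g hgR).2 ((hJmem v).1 hv).2) x hx
    have h2 : v * w = w * v := hV.comm v (hIV ((hJmem v).1 hv).1) w (hIV hw)
    rw [mul_smul, ← mul_smul v, h2, mul_smul, h1]
  -- properties of the weights
  have hSω : Supp A ω := by rw [← hx₀e]; exact hS₀.smul (hHA (hRH hx₀))
  have hwω : wt ρ A N ω ≠ ⊥ := by
    rw [← hx₀e]; exact wt_ne_bot hw₀ (hHA (hRH hx₀)) (hNH _ (hRH hx₀))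
  have hSh : ∀ h ∈ H, Supp A (h • ω) := fun h hh => hSω.smul (hHA hh)
  have hwh : ∀ h ∈ H, wt ρ A N (h • ω) ≠ ⊥ := fun h hh =>
    wt_ne_bot hwω (hHA hh) (hNH h hh)
  -- the weight spaces span
  have hspan : (⨆ h : H, wt ρ A N ((h : Γ) • ω)) = N := by
    apply hirr
    · exact iSup_le fun h => wt_le
    · intro h
      have h1 : wt ρ A N (((1 : H) : Γ) • ω) ≤ ⊥ := by
        rw [← h]
        exact le_iSup (fun h : H => wt ρ A N ((h : Γ) • ω)) 1
      exact hwh 1 H.one_mem (le_bot_iff.1 h1)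
    · intro y hy
      rw [Submodule.map_iSup]
      refine iSup_le fun h => ?_
      rintro _ ⟨n, hn, rfl⟩
      have h1 := smul_mem_wt hn (hHA hy) (hNH y hy)
      rw [smul_smul] at h1
      exact (le_iSup (fun h : H => wt ρ A N ((h : Γ) • ω)) ⟨y * h, H.mul_mem hy h.2⟩) h1
  have htriv : ∀ y : Γ, (∀ h ∈ H, ∀ n ∈ wt ρ A N (h • ω), ρ y n = n) → ∀ n ∈ N, ρ y n = n := by
    intro y hy n hn
    have h1 : N ≤ LinearMap.eqLocus (ρ y) LinearMap.id := by
      rw [← hspan]
      refine iSup_le fun h => ?_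
      intro m hm
      rw [LinearMap.mem_eqLocus]
      exact hy h h.2 m hm
    have := h1 hn
    rw [LinearMap.mem_eqLocus] at this
    exact this
  have hval : ∀ h ∈ H, ∀ a ∈ A, (h • ω).f a ≠ 0 := by
    intro h hh a ha h0
    obtain ⟨n, hn, hn0⟩ := Submodule.exists_mem_ne_zero_of_ne_bot (hwh h hh)
    have h1 := hn.2 a ha
    rw [h0, zero_smul] at h1
    exact hn0 (rho_inj ρ a h1)
  have hgH : g ∈ H := hRH hgR
  refine ⟨J, wt ρ A N (g • ω), inf_le_left, ?_, wt_le, hwh g hgH, ?_, ?_, ?_⟩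
  · -- description of `J`
    intro v hvI
    have hvA : v ∈ normalizer (A : Set Γ) := hVA (hIV hvI)
    constructor
    · intro hvJ x hx
      -- the elements acting trivially form a subgroup
      let Q : Subgroup Γ :=
        { carrier := {y | y ∈ H ∧ ∀ n ∈ N, ρ y n = n}
          mul_mem' := by
            rintro a b ⟨haH, ha⟩ ⟨hbH, hb⟩
            exact ⟨H.mul_mem haH hbH, fun n hn => by rw [rho_mul, hb n hn, ha n hn]⟩
          one_mem' := ⟨H.one_mem, fun n _ => rho_one ρ n⟩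
          inv_mem' := by
            rintro a ⟨haH, ha⟩
            refine ⟨H.inv_mem haH, fun n hn => ?_⟩
            conv_lhs => rw [← ha n hn]
            rw [rho_inv_self] }
      have hle : cm A v ≤ Q := by
        unfold cm
        rw [Subgroup.commutator_le]
        intro a ha w hw
        have hwJ : w ∈ J := (Subgroup.zpowers_le.2 hvJ) hw
        have hwI : w ∈ I := ((hJmem w).1 hwJ).1
        have hwA : w ∈ normalizer (A : Set Γ) := hVA (hIV hwI)
        refine ⟨?_, ?_⟩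
        · rw [commutatorElement_def]
          exact H.mul_mem (H.mul_mem (H.mul_mem (hAH ha) (hIH hwI)) (H.inv_mem (hAH ha)))
            (H.inv_mem (hIH hwI))
        · apply htriv
          intro h hh n hn
          rw [commutatorElement_def]
          have hb : w * a⁻¹ * w⁻¹ ∈ A := ((mem_normalizer_iff.1 hwA) _).1 (A.inv_mem ha)
          have e1 : a * w * a⁻¹ * w⁻¹ = a * (w * a⁻¹ * w⁻¹) := by group
          have hwinv : w⁻¹ ∈ J := J.inv_mem hwJ
          have e2 : (h • ω).f (w * a⁻¹ * w⁻¹) = (h • ω).f a⁻¹ := by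
            have := congrArg (fun z => WF.f z a⁻¹) (hJall w⁻¹ hwinv h hh)
            simp only [smul_f w⁻¹, inv_inv] at this
            exact this
          rw [e1, rho_mul, hn.2 _ hb, map_smul, e2, hn.2 _ ha, smul_smul]
          have e3 : ρ a⁻¹ (ρ a n) = n := rho_inv_self ρ a n
          rw [hn.2 _ ha, map_smul, hn.2 _ (A.inv_mem ha), smul_smul] at e3
          rw [mul_comm]
          exact e3
      exact (hle hx).2
    · intro htr
      rw [hJmem]
      refine ⟨hvI, ?_⟩
      ext a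
      rw [smul_f]
      by_cases ha : a ∈ A
      · obtain ⟨n, hn, hn0⟩ := Submodule.exists_mem_ne_zero_of_ne_bot (hwh g hgH)
        have hb : v⁻¹ * a * v ∈ A := ((mem_normalizer_iff''.1 hvA) a).1 ha
        have hc : a⁻¹ * (v⁻¹ * a * v) ∈ cm A v := by
          have h1 : a⁻¹ * v⁻¹ * a⁻¹⁻¹ * v⁻¹⁻¹ ∈ cm A v :=
            Subgroup.commutator_mem_commutator (A.inv_mem ha)
              (Subgroup.inv_mem _ (Subgroup.mem_zpowers v))
          rw [inv_inv, inv_inv] at h1
          have e : a⁻¹ * (v⁻¹ * a * v) = a⁻¹ * v⁻¹ * a * v := by group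
          rw [e]
          exact h1
        have h2 : ρ (v⁻¹ * a * v) n = ρ a n := by
          have h3 := htr _ hc n hn.1
          rw [rho_mul] at h3
          have h4 := congrArg (ρ a) h3
          rw [rho_self_inv] at h4
          exact h4
        rw [hn.2 _ hb, hn.2 _ ha] at h2
        have h5 : ((g • ω).f (v⁻¹ * a * v) - (g • ω).f a) • n = 0 := by
          rw [sub_smul, h2, sub_self]
        rcases smul_eq_zero.1 h5 with h6 | h6
        · exact sub_eq_zero.1 h6
        · exact absurd h6 hn0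
      · have hb : v⁻¹ * a * v ∉ A := fun h => ha (((mem_normalizer_iff''.1 hvA) a).2 h)
        rw [hSh g hgH _ hb, hSh g hgH _ ha]
  · -- `J` preserves the weight space
    intro v hv
    rintro _ ⟨n, hn, rfl⟩
    have hvH : v ∈ H := hIH ((hJmem v).1 hv).1
    have := smul_mem_wt hn (hHA hvH) (hNH v hvH)
    rwa [((hJmem v).1 hv).2] at this
  · -- the elements of `R` which centralise `A` modulo the kernel
    intro y hyR hy
    have hyH : y ∈ H := hRH hyR
    have hyA := hHA hyH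
    have hfixy : y • (g • ω) = g • ω := by
      ext a
      rw [smul_f]
      by_cases ha : a ∈ A
      · obtain ⟨n, hn, hn0⟩ := Submodule.exists_mem_ne_zero_of_ne_bot (hwh g hgH)
        have hb : y⁻¹ * a * y ∈ A := ((mem_normalizer_iff''.1 hyA) a).1 ha
        have h2 : ρ (y⁻¹ * a * y) n = ρ a n := by
          have e : y⁻¹ * a * y = y⁻¹ * (a * y * a⁻¹ * y⁻¹) * (y * a) := by group
          rw [e, rho_mul, rho_mul, rho_mul ρ y a, hy a ha _ (hNH y hyH _ (hNA a ha n hn.1)),
            rho_inv_self]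
        rw [hn.2 _ hb, hn.2 _ ha] at h2
        have h5 : ((g • ω).f (y⁻¹ * a * y) - (g • ω).f a) • n = 0 := by
          rw [sub_smul, h2, sub_self]
        rcases smul_eq_zero.1 h5 with h6 | h6
        · exact sub_eq_zero.1 h6
        · exact absurd h6 hn0
      · have hb : y⁻¹ * a * y ∉ A := fun h => ha (((mem_normalizer_iff''.1 hyA) a).2 h)
        rw [hSh g hgH _ hb, hSh g hgH _ ha]
    rintro _ ⟨n, hn, rfl⟩
    have := smul_mem_wt hn hyA (hNH y hyH)
    rwa [hfixy] at this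
  · -- no fixed points
    intro n hn hJn
    let JI : Subgroup I := J.subgroupOf I
    have hFwd : ∀ u v : I, (QuotientGroup.leftRel JI) u v → ρ (u : Γ) n = ρ (v : Γ) n := by
      intro u v huv
      rw [QuotientGroup.leftRel_apply] at huv
      have h1 : ((u⁻¹ * v : I) : Γ) ∈ J := huv
      have h2 : ((v : I) : Γ) = (u : Γ) * ((u⁻¹ * v : I) : Γ) := by
        push_cast; group
      rw [h2, rho_mul, hJn _ h1]
    let F : (I ⧸ JI) → W := fun c => Quotient.liftOn' c (fun u : I => ρ (u : Γ) n) hFwd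
    have hFmk : ∀ u : I, F (QuotientGroup.mk u) = ρ (u : Γ) n := fun u => rfl
    haveI : Fintype (I ⧸ JI) := Fintype.ofFinite _
    have hsumN : (∑ c, F c) ∈ N := by
      refine N.sum_mem fun c _ => ?_
      induction c using QuotientGroup.induction_on with
      | H u => rw [hFmk]; exact hNH u (hIH u.2) n hn.1
    have hsum0 : (∑ c, F c) = 0 := by
      apply hfix _ hsumN
      intro v hv
      rw [map_sum]
      have h1 : ∀ c : I ⧸ JI, ρ v (F c) = F ((⟨v, hv⟩ : I) • c) := by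
        intro c
        induction c using QuotientGroup.induction_on with
        | H u =>
          have : (⟨v, hv⟩ : I) • (QuotientGroup.mk u : I ⧸ JI) = QuotientGroup.mk (⟨v, hv⟩ * u) := rfl
          rw [this, hFmk, hFmk, ← rho_mul]
          rfl
      simp_rw [h1]
      exact Fintype.sum_equiv (MulAction.toPerm (⟨v, hv⟩ : I)) _ _ (fun c => rfl)
    let Om : (I ⧸ JI) → WF Γ k := fun c => Quotient.liftOn' c (fun u : I => (u : Γ) • (g • ω)) (by
      intro u v huv
      rw [QuotientGroup.leftRel_apply] at huv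
      have h1 : ((u⁻¹ * v : I) : Γ) ∈ J := huv
      have h2 : ((v : I) : Γ) = (u : Γ) * ((u⁻¹ * v : I) : Γ) := by
        push_cast; group
      change (u : Γ) • (g • ω) = (v : Γ) • (g • ω)
      rw [h2, mul_smul, ((hJmem _).1 h1).2])
    have hOmk : ∀ u : I, Om (QuotientGroup.mk u) = (u : Γ) • (g • ω) := fun u => rfl
    have hall := indep ρ A N Om Finset.univ F
      (by
        intro c _
        induction c using QuotientGroup.induction_on with
        | H u => rw [hOmk]; exact (hSh g hgH).smul (hHA (hIH u.2)))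
      (by
        intro c _ c' _
        induction c using QuotientGroup.induction_on with
        | H u =>
          induction c' using QuotientGroup.induction_on with
          | H u' =>
            intro h
            rw [hOmk, hOmk] at h
            rw [QuotientGroup.eq]
            change ((u⁻¹ * u' : I) : Γ) ∈ J
            rw [hJmem]
            refine ⟨(u⁻¹ * u' : I).2, ?_⟩
            push_cast
            rw [mul_smul, ← h, inv_smul_smul])
      (by
        intro c _
        induction c using QuotientGroup.induction_on with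
        | H u => rw [hOmk, hFmk]; exact smul_mem_wt hn (hHA (hIH u.2)) (hNH u (hIH u.2)))
      hsum0
    have := hall (QuotientGroup.mk 1) (Finset.mem_univ _)
    rw [hFmk] at this
    simpa using this

end Pool.Agent.T6.H88.FP.ModB2a
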