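import Pool.Agent.T6.H88.FP.Defs

/-! # Project FP, module A1: basic coprime action -/

set_option autoImplicit false

namespace Pool.Agent.T6.H88.FP

open Subgroup
open scoped commutatorElement

namespace ModA1

variable {Γ : Type} [Group Γ]

theorem inv_iff {V X : Subgroup Γ} : Inv V X ↔ ∀ v ∈ V, ∀ x ∈ X, v * x * v⁻¹ ∈ X := by
  constructor
  · intro h v hv x hx
    exact ((mem_normalizer_iff.1 (h hv)) x).1 hx
  · intro h v hv
    rw [mem_normalizer_iff]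
    intro x
    constructor
    · exact fun hx => h v hv x hx
    · intro hx
      have := h v⁻¹ (inv_mem hv) _ hx
      simpa [mul_assoc] using this

theorem mem_cen {X : Subgroup Γ} {B : Set Γ} {x : Γ} :
    x ∈ cen X B ↔ x ∈ X ∧ ∀ b ∈ B, b * x = x * b := by
  unfold cen
  rw [mem_inf, mem_centralizer_iff]

/-- `H` normalises `[H, K]` -/
theorem inv_comm_left (H K : Subgroup Γ) : Inv H ⁅H, K⁆ := by
  rw [inv_iff]
  intro a ha x hx
  rw [Subgroup.commutator_def] at hx ⊢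
  refine closure_induction (p := fun x _ => a * x * a⁻¹ ∈ closure {g | ∃ g₁ ∈ H, ∃ g₂ ∈ K, ⁅g₁, g₂⁆ = g})
    ?_ ?_ ?_ ?_ hx
  · rintro _ ⟨b, hb, c, hc, rfl⟩
    have h1 : a * ⁅b, c⁆ * a⁻¹ = ⁅a * b, c⁆ * (⁅a, c⁆)⁻¹ := by
      simp only [commutatorElement_def]; group
    rw [h1]
    exact mul_mem (subset_closure ⟨a * b, mul_mem ha hb, c, hc, rfl⟩)
      (inv_mem (subset_closure ⟨a, ha, c, hc, rfl⟩))
  · simp
  · intro x y _ _ hx hy
    have : a * (x * y) * a⁻¹ = (a * x * a⁻¹) * (a * y * a⁻¹) := by group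
    rw [this]; exact mul_mem hx hy
  · intro x _ hx
    have : a * x⁻¹ * a⁻¹ = (a * x * a⁻¹)⁻¹ := by group
    rw [this]; exact inv_mem hx

/-- `K` normalises `[H, K]` -/
theorem inv_comm_right (H K : Subgroup Γ) : Inv K ⁅H, K⁆ := by
  rw [commutator_comm]; exact inv_comm_left K H

/-- `[X, e] ≤ X` -/
theorem cm_le {X : Subgroup Γ} {e : Γ} (h : Inv (zpowers e) X) : cm X e ≤ X := by
  unfold cm
  rw [commutator_le]
  intro x hx z hz
  have h1 := (inv_iff.1 h) z hz x⁻¹ (inv_mem hx)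
  have h2 : ⁅x, z⁆ = x * (z * x⁻¹ * z⁻¹) := by
    simp only [commutatorElement_def]; group
  rw [h2]; exact mul_mem hx h1

theorem isPGroup_zpowers {p : ℕ} {e : Γ} (he : e ^ p = 1) : IsPGroup p (zpowers e) := by
  rintro ⟨g, hg⟩
  refine ⟨1, ?_⟩
  obtain ⟨k, rfl⟩ := mem_zpowers_iff.1 hg
  apply Subtype.ext
  simp only [pow_one, SubmonoidClass.mk_pow, OneMemClass.coe_one]
  rw [← zpow_natCast, ← zpow_mul, mul_comm, zpow_mul, zpow_natCast, he, one_zpow]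

theorem isPGroup_elab {p : ℕ} {V : Subgroup Γ} (h : ElAb p V) : IsPGroup p V := by
  rintro ⟨g, hg⟩
  exact ⟨1, Subtype.ext (by simpa using h.exp g hg)⟩

end ModA1

open ModA1

theorem a1_fix : StmtFix := by
  intro Γ _ _ p B Ω hp hB hΩ hc
  haveI : Fact p.Prime := ⟨hp⟩
  letI act : MulAction B Ω :=
    { smul := fun b x => ⟨b.1 * x.1 * b.1⁻¹, hΩ b.1 b.2 x.1 x.2⟩
      one_smul := fun x => Subtype.ext (by show (1 : Γ) * x.1 * (1 : Γ)⁻¹ = x.1; simp)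
      mul_smul := fun a b x => Subtype.ext (by
        show (a.1 * b.1) * x.1 * (a.1 * b.1)⁻¹ = a.1 * (b.1 * x.1 * b.1⁻¹) * a.1⁻¹
        group) }
  obtain ⟨x, hx⟩ := hB.nonempty_fixed_point_of_prime_not_dvd_card Ω
    (by simpa [Nat.card_coe_set_eq] using hc)
  refine ⟨x.1, x.2, fun b hb => ?_⟩
  have h1 : (⟨b, hb⟩ : B) • x = x := hx ⟨b, hb⟩
  have h2 : b * x.1 * b⁻¹ = x.1 := congrArg Subtype.val h1
  calc b * x.1 = (b * x.1 * b⁻¹) * b := by group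
    _ = x.1 * b := by rw [h2]

theorem a1_cop : StmtCop := by
  intro Γ _ _ p V X hV hI hc hdvd
  have hP := isPGroup_elab hV
  have hnd : ¬ p ∣ ((X : Set Γ) \ {1}).ncard := by
    rw [Set.ncard_diff_singleton_of_mem (one_mem X)]
    intro h
    have h1 : (X : Set Γ).ncard = Nat.card X := by
      rw [← Nat.card_coe_set_eq]; rfl
    rw [h1] at h
    have h0 : 0 < Nat.card X := Nat.card_pos
    have := (Nat.dvd_sub_iff_right (by omega : 1 ≤ Nat.card X) hdvd).1 h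
    exact hV.prime.one_lt.ne' (Nat.dvd_one.1 this)
  obtain ⟨x, ⟨hxX, hx1⟩, hx⟩ := a1_fix Γ p V _ hV.prime hP (fun b hb x hx => by
    refine ⟨(inv_iff.1 hI) b hb x hx.1, ?_⟩
    intro h
    apply hx.2
    have h' : b * x * b⁻¹ = 1 := h
    show x = 1
    have : x = b⁻¹ * (b * x * b⁻¹) * b := by group
    rw [this, h']; group) hnd
  have : x ∈ cen X (V : Set Γ) := mem_cen.2 ⟨hxX, hx⟩
  rw [hc, mem_bot] at this
  exact hx1 this

theorem a1_lift : StmtLift := by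
  intro Γ _ _ p B N g hp hB hN hc h
  obtain ⟨x, ⟨n, hn, rfl⟩, hx⟩ := a1_fix Γ p B ((fun n => g * n) '' (N : Set Γ)) hp hB
    (by
      rintro b hb _ ⟨n, hn, rfl⟩
      refine ⟨(g⁻¹ * (b * g * b⁻¹)) * (b * n * b⁻¹), mul_mem (h b hb) ((inv_iff.1 hN) b hb n hn), ?_⟩
      show g * ((g⁻¹ * (b * g * b⁻¹)) * (b * n * b⁻¹)) = b * (g * n) * b⁻¹
      group)
    (by
      rw [Set.ncard_image_of_injective _ (mul_right_injective g)]
      rw [← Nat.card_coe_set_eq]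
      exact hc)
  exact ⟨n, hn, hx⟩

theorem a1_prod : StmtProd := by
  intro Γ _ _ p B A C a c hp hB hA hC hc ha hcC hcom
  have hset : {x : Γ | x ∈ A ∧ x⁻¹ * (a * c) ∈ C} = (fun n => a * n) '' ((A ⊓ C : Subgroup Γ) : Set Γ) := by
    ext x
    constructor
    · rintro ⟨h1, h2⟩
      refine ⟨a⁻¹ * x, ⟨A.mul_mem (A.inv_mem ha) h1, ?_⟩, by simp⟩
      have h3 : a⁻¹ * x = c * (x⁻¹ * (a * c))⁻¹ := by group
      rw [h3]
      exact C.mul_mem hcC (C.inv_mem h2)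
    · rintro ⟨n, ⟨h1, h2⟩, rfl⟩
      refine ⟨mul_mem ha h1, ?_⟩
      have h3 : (a * n)⁻¹ * (a * c) = n⁻¹ * c := by group
      show (a * n)⁻¹ * (a * c) ∈ C
      rw [h3]; exact mul_mem (inv_mem h2) hcC
  obtain ⟨x, ⟨hxA, hxC⟩, hx⟩ := a1_fix Γ p B {x : Γ | x ∈ A ∧ x⁻¹ * (a * c) ∈ C} hp hB
    (by
      rintro b hb x ⟨h1, h2⟩
      refine ⟨(inv_iff.1 hA) b hb x h1, ?_⟩
      have h3 : (b * x * b⁻¹)⁻¹ * (a * c) = b * (x⁻¹ * (a * c)) * b⁻¹ := by
        have h4 := hcom b hb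
        calc (b * x * b⁻¹)⁻¹ * (a * c) = b * x⁻¹ * b⁻¹ * (a * c) := by group
          _ = b * x⁻¹ * b⁻¹ * ((a * c) * b) * b⁻¹ := by group
          _ = b * x⁻¹ * b⁻¹ * (b * (a * c)) * b⁻¹ := by rw [h4]
          _ = b * (x⁻¹ * (a * c)) * b⁻¹ := by group
      rw [h3]
      exact (inv_iff.1 hC) b hb _ h2)
    (by
      rw [hset, Set.ncard_image_of_injective _ (mul_right_injective a)]
      rw [← Nat.card_coe_set_eq]
      intro h
      exact hc (h.trans (card_dvd_of_le inf_le_left)))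
  refine ⟨x, mem_cen.2 ⟨hxA, hx⟩, x⁻¹ * (a * c), mem_cen.2 ⟨hxC, fun b hb => ?_⟩, by group⟩
  have h1 := hx b hb
  have h2 := hcom b hb
  have h3 : b * x⁻¹ = x⁻¹ * b := by
    calc b * x⁻¹ = x⁻¹ * (x * b) * x⁻¹ := by group
      _ = x⁻¹ * (b * x) * x⁻¹ := by rw [h1]
      _ = x⁻¹ * b := by group
  calc b * (x⁻¹ * (a * c)) = (b * x⁻¹) * (a * c) := by group
    _ = x⁻¹ * (b * (a * c)) := by rw [h3]; group
    _ = x⁻¹ * (a * c) * b := by rw [h2]; group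

theorem a1_split : StmtSplit := by
  intro Γ _ _ p X e hp he hI hc
  have hN : cm X e ≤ X := cm_le hI
  have hZ : Inv (zpowers e) (cm X e) := inv_comm_right _ _
  have hX : Inv X (cm X e) := inv_comm_left _ _
  have key : ∀ x ∈ X, ∃ c ∈ cen X {e}, ∃ y ∈ cm X e, x = c * y := by
    intro x hx
    obtain ⟨n, hn, h⟩ := a1_lift Γ p (zpowers e) (cm X e) x hp (isPGroup_zpowers he) hZ
      (fun h => hc (h.trans (card_dvd_of_le hN)))
      (by
        intro b hb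
        have : x⁻¹ * (b * x * b⁻¹) = ⁅x⁻¹, b⁆ := by
          simp only [commutatorElement_def]; group
        rw [this]
        exact commutator_mem_commutator (inv_mem hx) hb)
    refine ⟨x * n, mem_cen.2 ⟨mul_mem hx (hN hn), ?_⟩, n⁻¹, inv_mem hn, by group⟩
    intro b hb
    rw [Set.mem_singleton_iff] at hb
    subst hb
    exact h b (mem_zpowers b)
  refine ⟨key, le_antisymm (commutator_mono hN le_rfl) ?_⟩
  show ⁅X, zpowers e⁆ ≤ ⁅cm X e, zpowers e⁆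
  rw [commutator_le]
  intro x hx z hz
  obtain ⟨c, hc', y, hy, rfl⟩ := key x hx
  obtain ⟨hcX, hce⟩ := mem_cen.1 hc'
  have hcz : c * z = z * c := by
    obtain ⟨k, rfl⟩ := mem_zpowers_iff.1 hz
    have h1 : Commute e c := hce e rfl
    exact (h1.zpow_left k).symm.eq
  have h1 : ⁅c * y, z⁆ = ⁅c * y * c⁻¹, z⁆ := by
    simp only [commutatorElement_def]
    have h2 : c⁻¹ * z⁻¹ = z⁻¹ * c⁻¹ := by
      have := congrArg (·⁻¹) hcz
      simpa [mul_inv_rev] using this.symm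
    calc c * y * z * (c * y)⁻¹ * z⁻¹ = c * y * z * y⁻¹ * (c⁻¹ * z⁻¹) := by group
      _ = c * y * z * y⁻¹ * (z⁻¹ * c⁻¹) := by rw [h2]
      _ = c * y * (z * (y⁻¹ * z⁻¹ * c⁻¹)) := by group
      _ = c * y * (c⁻¹ * (c * z)) * (y⁻¹ * z⁻¹ * c⁻¹) := by group
      _ = c * y * (c⁻¹ * (z * c)) * (y⁻¹ * z⁻¹ * c⁻¹) := by rw [hcz]
      _ = c * y * c⁻¹ * z * (c * y⁻¹) * (z⁻¹ * c⁻¹) := by group
      _ = c * y * c⁻¹ * z * (c * y⁻¹) * (c⁻¹ * z⁻¹) := by rw [h2]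
      _ = c * y * c⁻¹ * z * (c * y * c⁻¹)⁻¹ * z⁻¹ := by group
  rw [h1]
  exact commutator_mem_commutator ((inv_iff.1 hX) c hcX y hy) hz

theorem a1 : StmtCop ∧ StmtFix ∧ StmtLift ∧ StmtProd ∧ StmtSplit :=
  ⟨a1_cop, a1_fix, a1_lift, a1_prod, a1_split⟩

end Pool.Agent.T6.H88.FP
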