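import Mathlib
import Pool.Agent.T6.H88.FP.Defs
import Pool.Agent.T6.H88.FP.A1
import Pool.Agent.T6.H38.FP.Basic

/-! # Project FP (helper88), module B2b (helper69): `StmtNil` -/

set_option autoImplicit false

namespace Pool.Agent.T6.H88.FP.ModB2b

open Subgroup Pool.Agent.T6.H38.FPB

variable {Γ : Type} [Group Γ]

lemma inv_sup {V A B : Subgroup Γ} (hA : Inv V A) (hB : Inv V B) : Inv V (A ⊔ B) := by
  rw [inv_iff]
  intro v hv
  have h : A ⊔ B ≤ (A ⊔ B).comap (MulAut.conj v).toMonoidHom := by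
    refine sup_le (fun a ha => ?_) (fun b hb => ?_)
    · exact le_sup_left (a := A) (b := B) (inv_iff.1 hA v hv a ha)
    · exact le_sup_right (a := A) (b := B) (inv_iff.1 hB v hv b hb)
  exact fun x hx => h hx

/-- the preimage of the centre of `R / Z(R)` -/
def BB (R : Subgroup Γ) : Subgroup Γ where
  carrier := {x | x ∈ R ∧ ∀ g ∈ R, x * g * x⁻¹ * g⁻¹ ∈ cen R (R : Set Γ)}
  one_mem' := ⟨R.one_mem, fun g hg => by simpa using (cen R (R : Set Γ)).one_mem⟩
  mul_mem' := by
    rintro x y ⟨hx, hx'⟩ ⟨hy, hy'⟩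
    refine ⟨R.mul_mem hx hy, fun g hg => ?_⟩
    have h1 := hy' g hg
    have h2 := (mem_cen.1 h1).2 x hx
    have e : x * y * g * (x * y)⁻¹ * g⁻¹ = (y * g * y⁻¹ * g⁻¹) * (x * g * x⁻¹ * g⁻¹) := by
      calc x * y * g * (x * y)⁻¹ * g⁻¹ = (x * (y * g * y⁻¹ * g⁻¹)) * (g * x⁻¹ * g⁻¹) := by group
        _ = ((y * g * y⁻¹ * g⁻¹) * x) * (g * x⁻¹ * g⁻¹) := by rw [h2]
        _ = (y * g * y⁻¹ * g⁻¹) * (x * g * x⁻¹ * g⁻¹) := by group
    rw [e]
    exact mul_mem h1 (hx' g hg)
  inv_mem' := by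
    rintro x ⟨hx, hx'⟩
    refine ⟨R.inv_mem hx, fun g hg => ?_⟩
    have h1 := hx' g hg
    have h2 := (mem_cen.1 h1).2 x⁻¹ (R.inv_mem hx)
    have e : x⁻¹ * g * x⁻¹⁻¹ * g⁻¹ = (x * g * x⁻¹ * g⁻¹)⁻¹ := by
      have h3 : x⁻¹ * (x * g * x⁻¹ * g⁻¹) * x = x * g * x⁻¹ * g⁻¹ := by
        rw [h2]; group
      calc x⁻¹ * g * x⁻¹⁻¹ * g⁻¹ = (x⁻¹ * (x * g * x⁻¹ * g⁻¹) * x)⁻¹ := by group
        _ = (x * g * x⁻¹ * g⁻¹)⁻¹ := by rw [h3]
    rw [e]
    exact inv_mem h1

theorem b2b (hA1 : StmtLift) (hSplit : StmtSplit) (hGen : StmtGen) : StmtNil := by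
  intro Γ _ _ p V R I hV hVR hfix hnil hIV hA
  set Z := cen R (R : Set Γ) with hZ
  have hVZ : Inv V Z := inv_cen hVR hVR
  have hRZ : Inv R Z := inv_cen (inv_self R) (inv_self R)
  have hZR : Z ≤ R := cen_le _ _
  have hZI : Z ≤ centralizer (I : Set Γ) := by
    refine (hA Z hZR hRZ hVZ ?_).2
    intro a ha b hb
    exact (mem_cen.1 hb).2 a (hZR ha)
  have hBR : BB R ≤ R := fun x hx => hx.1
  have hZB : Z ≤ BB R := by
    intro x hx
    refine ⟨hZR hx, fun g hg => ?_⟩
    rw [← (mem_cen.1 hx).2 g hg, mul_assoc, mul_assoc, ← mul_assoc x, mul_inv_cancel, one_mul,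
      mul_inv_cancel]
    exact one_mem _
  have hD : ∀ D : Subgroup Γ, Z ≤ D → D ≤ BB R → Inv R D := by
    intro D hZD hDB
    rw [inv_iff]
    intro g hg x hx
    have e : g * x * g⁻¹ = (x * g * x⁻¹ * g⁻¹)⁻¹ * x := by group
    rw [e]
    exact mul_mem (inv_mem (hZD ((hDB hx).2 g hg))) hx
  have hVB : Inv V (BB R) := by
    rw [inv_iff]
    rintro v hv x ⟨hx, hx'⟩
    refine ⟨inv_iff.1 hVR v hv x hx, fun g hg => ?_⟩
    have h1 : v⁻¹ * g * v ∈ R := by
      have := inv_iff.1 hVR v⁻¹ (inv_mem hv) g hg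
      simpa using this
    have h2 := inv_iff.1 hVZ v hv _ (hx' _ h1)
    have e : v * x * v⁻¹ * g * (v * x * v⁻¹)⁻¹ * g⁻¹ =
        v * (x * (v⁻¹ * g * v) * x⁻¹ * (v⁻¹ * g * v)⁻¹) * v⁻¹ := by group
    rw [e]
    exact h2
  have hRB : Inv R (BB R) := hD _ hZB le_rfl
  have hpR : ¬ p ∣ Nat.card R := a1_cop Γ p V R hV hVR hfix
  have hsR : Group.IsSolvable R := inferInstance
  have hBI : BB R ≤ centralizer (I : Set Γ) := by
    refine hGen Γ p V (BB R) _ hV hVB (fun h => hpR (h.trans (card_dvd_of_le hBR)))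
      (solvable_mono hBR hsR) ?_
    intro K hK hidx
    by_cases hIK : I ≤ K
    · intro x hx
      rw [mem_centralizer_iff]
      exact fun i hi => (mem_cen.1 hx).2 i (hIK hi)
    · have hidx' : K.relIndex V = p := by
        rcases (Nat.dvd_prime hV.prime).1 hidx with h | h
        · exact absurd (hIV.trans (relIndex_eq_one.1 h)) hIK
        · exact h
      have hKI : K ⊔ I = V := by
        refine eq_of_prime_index hV.prime hidx' le_sup_left (sup_le hK hIV) ?_
        exact fun h => hIK (le_sup_right.trans h)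
      have hVBK : Inv V (cen (BB R) (K : Set Γ)) := by
        refine inv_cenS hVB fun v hv k hk => ?_
        rw [mul_assoc, hV.comm k (hK hk) v hv, inv_mul_cancel_left]
        exact hk
      have hcomm : ∀ x ∈ cen (BB R) (K : Set Γ), ∀ y ∈ cen (BB R) (K : Set Γ),
          x * y = y * x := by
        intro x hx y hy
        have hc : x * y * x⁻¹ * y⁻¹ ∈ Z := (mem_cen.1 hx).1.2 y (hBR (mem_cen.1 hy).1)
        have hcK : K ≤ centralizer {x * y * x⁻¹ * y⁻¹} := by
          intro k hk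
          rw [mem_centralizer_singleton_iff]
          have hx1 : Commute k x := (mem_cen.1 hx).2 k hk
          have hy1 : Commute k y := (mem_cen.1 hy).2 k hk
          exact ((((hx1.mul_right hy1).mul_right hx1.inv_right).mul_right hy1.inv_right)).eq
        have hcI : I ≤ centralizer {x * y * x⁻¹ * y⁻¹} := by
          intro i hi
          rw [mem_centralizer_singleton_iff]
          exact mem_centralizer_iff.1 (hZI hc) i hi
        have hcV : x * y * x⁻¹ * y⁻¹ ∈ cen R (V : Set Γ) := by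
          refine mem_cen.2 ⟨hZR hc, fun v hv => ?_⟩
          have : v ∈ centralizer {x * y * x⁻¹ * y⁻¹} :=
            (hKI ▸ sup_le hcK hcI : V ≤ _) hv
          exact mem_centralizer_singleton_iff.1 this
        rw [hfix, mem_bot] at hcV
        calc x * y = (x * y * x⁻¹ * y⁻¹) * (y * x) := by group
          _ = y * x := by rw [hcV, one_mul]
      have hDB : Z ⊔ cen (BB R) (K : Set Γ) ≤ BB R := sup_le hZB (cen_le _ _)
      have hcD : Z ⊔ cen (BB R) (K : Set Γ) ≤
          centralizer ((Z ⊔ cen (BB R) (K : Set Γ) : Subgroup Γ) : Set Γ) := by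
        refine sup_le ?_ ?_
        · intro z hz
          rw [mem_centralizer_iff]
          exact fun d hd => (mem_cen.1 hz).2 d (hBR (hDB hd))
        · rw [le_centralizer_iff]
          refine sup_le ?_ ?_
          · intro z hz
            rw [mem_centralizer_iff]
            exact fun d hd => (mem_cen.1 hz).2 d (hBR (cen_le _ _ hd))
          · intro z hz
            rw [mem_centralizer_iff]
            exact fun d hd => hcomm d hd z hz
      have h := (hA (Z ⊔ cen (BB R) (K : Set Γ)) (hDB.trans hBR) (hD _ le_sup_left hDB)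
        (inv_sup hVZ hVBK) (fun a ha b hb => mem_centralizer_iff.1 (hcD hb) a ha)).2
      exact le_sup_right.trans h
  have hVQ : Inv V (cen R (BB R : Set Γ)) := inv_cen hVR hVB
  have hRQ : Inv R (cen R (BB R : Set Γ)) := inv_cen (inv_self R) hRB
  have hQB : cen R (BB R : Set Γ) ⊓ BB R ≤ Z := by
    have h := (hA (cen R (BB R : Set Γ) ⊓ BB R) (inf_le_right.trans hBR) (inv_inf hRQ hRB)
      (inv_inf hVQ hVB) (fun a ha b hb => (mem_cen.1 hb.1).2 a ha.2)).1
    intro x hx
    exact ⟨hBR hx.2, h hx⟩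
  have hQZ : cen R (BB R : Set Γ) ≤ Z := by
    obtain ⟨n, hn⟩ := hnil
    have key : ∀ n : ℕ, ∀ x (hx : x ∈ R), x ∈ cen R (BB R : Set Γ) →
        (⟨x, hx⟩ : R) ∈ Subgroup.upperCentralSeries R n → x ∈ Z := by
      intro n
      induction n with
      | zero =>
        intro x hx _ h
        rw [Subgroup.upperCentralSeries_zero, mem_bot] at h
        have : x = 1 := congrArg Subtype.val h
        rw [this]
        exact one_mem _
      | succ n ih =>
        intro x hx hxQ h
        rw [Subgroup.mem_upperCentralSeries_succ_iff] at h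
        refine hQB ⟨hxQ, hx, fun g hg => ?_⟩
        have h1 := h ⟨g, hg⟩
        have h2 : x * g * x⁻¹ * g⁻¹ ∈ cen R (BB R : Set Γ) := by
          have e : x * g * x⁻¹ * g⁻¹ = x * (g * x⁻¹ * g⁻¹) := by group
          rw [e]
          exact mul_mem hxQ (inv_iff.1 hRQ g hg _ (inv_mem hxQ))
        exact ih _ (cen_le _ _ h2) h2 h1
    intro x hx
    refine key n x (cen_le _ _ hx) hx ?_
    rw [hn]
    exact mem_top _
  rw [le_centralizer_iff]
  intro v hv
  have hvV : v ∈ V := hIV hv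
  have hzR : Inv (zpowers v) R := zpowers_inv hVR hvV
  have h1 : cm R v ≤ centralizer ((BB R : Subgroup Γ) : Set Γ) := by
    refine cm_le_centralizer hRB fun x hx => ?_
    rw [mem_centralizer_singleton_iff]
    exact (mem_centralizer_iff.1 (hBI hx) v hv).symm
  have h2 : cm R v ≤ centralizer {v} := by
    intro x hx
    have h3 : x ∈ Z := hQZ ⟨cm_le hzR hx, h1 hx⟩
    rw [mem_centralizer_singleton_iff]
    exact (mem_centralizer_iff.1 (hZI h3) v hv).symm
  have h4 : cm R v = ⊥ := by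
    rw [← (hSplit Γ p R v hV.prime (hV.exp v hvV) hzR hpR).2]
    exact cm_eq_bot.2 h2
  have h5 := cm_eq_bot.1 h4
  rw [mem_centralizer_iff]
  intro x hx
  exact mem_centralizer_singleton_iff.1 (h5 hx)

end Pool.Agent.T6.H88.FP.ModB2b
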