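import Pool.Agent.T6.H88.FP.Defs

/-! # Module B2c of project FP (MP_e56c9f_al): `StmtNN` -/

namespace Pool.Agent.T6.H88.FP.ModB2c

open Subgroup Pool.Agent.T6.H88.FP

section basics

variable {Γ : Type} [Group Γ]

lemma inv_iff {V X : Subgroup Γ} : Inv V X ↔ ∀ v ∈ V, ∀ x ∈ X, v * x * v⁻¹ ∈ X := by
  constructor
  · intro h v hv x hx
    exact (mem_normalizer_iff.1 (h hv) x).1 hx
  · intro h v hv
    refine mem_normalizer_iff.2 fun x => ⟨fun hx => h v hv x hx, fun hx => ?_⟩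
    have := h v⁻¹ (V.inv_mem hv) _ hx
    simpa [mul_assoc] using this

lemma cm_le_of {X Y : Subgroup Γ} {e : Γ} (h : ∀ x ∈ X, ∀ i : ℤ, x * e ^ i * x⁻¹ * (e ^ i)⁻¹ ∈ Y) :
    cm X e ≤ Y := by
  refine commutator_le.2 ?_
  rintro x hx _ ⟨i, rfl⟩
  simpa [commutatorElement_def] using h x hx i

lemma mem_cm {X : Subgroup Γ} {e x : Γ} (hx : x ∈ X) (i : ℤ) :
    x * e ^ i * x⁻¹ * (e ^ i)⁻¹ ∈ cm X e := by
  have := commutator_mem_commutator hx (zpow_mem_zpowers e i) (H₂ := zpowers e)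
  rw [commutatorElement_def] at this
  exact this

lemma cm_mono {X Y : Subgroup Γ} (h : X ≤ Y) (e : Γ) : cm X e ≤ cm Y e :=
  commutator_mono h le_rfl

/-- `[X, e] ≤ X` if `e` normalises `X` -/
lemma cm_le {V X : Subgroup Γ} (h : Inv V X) {e : Γ} (he : e ∈ V) : cm X e ≤ X := by
  refine cm_le_of fun x hx i => ?_
  have h1 := inv_iff.1 h _ (V.zpow_mem he i) _ (X.inv_mem hx)
  have := X.mul_mem hx h1
  simpa [mul_assoc] using this

/-- `[X, e]` is normalised by `X` -/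
lemma inv_cm_self (X : Subgroup Γ) (e : Γ) : ∀ s ∈ X, ∀ x ∈ cm X e, s * x * s⁻¹ ∈ cm X e := by
  intro s hs x hx
  have hle : cm X e ≤ (cm X e).comap (MulAut.conj s).toMonoidHom := by
    refine cm_le_of fun r hr i => ?_
    have h1 := mem_cm (e := e) (X.mul_mem hs hr) i
    have h2 := (cm X e).inv_mem (mem_cm (e := e) hs i)
    have := (cm X e).mul_mem h1 h2
    simp only [mem_comap, MulEquiv.coe_toMonoidHom, MulAut.conj_apply]
    convert this using 1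
    group
  exact hle hx

/-- `[X, e]` is normalised by `V` if `V` normalises `X` and centralises `e` -/
lemma inv_cm {V X : Subgroup Γ} (h : Inv V X) {e : Γ} (he : ∀ v ∈ V, v * e = e * v) :
    Inv V (cm X e) := by
  refine inv_iff.2 fun v hv x hx => ?_
  have hle : cm X e ≤ (cm X e).comap (MulAut.conj v).toMonoidHom := by
    refine cm_le_of fun r hr i => ?_
    have h1 := mem_cm (e := e) (inv_iff.1 h v hv r hr) i
    simp only [mem_comap, MulEquiv.coe_toMonoidHom, MulAut.conj_apply]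
    have hc : Commute v (e ^ i) := Commute.zpow_right (he v hv) i
    have hc' : v * e ^ i * v⁻¹ = e ^ i := by rw [hc.eq]; group
    have hc'' : v * (e ^ i)⁻¹ * v⁻¹ = (e ^ i)⁻¹ := by
      have := congrArg (·⁻¹) hc'
      simpa [mul_assoc] using this
    have : v * (r * e ^ i * r⁻¹ * (e ^ i)⁻¹) * v⁻¹ =
        (v * r * v⁻¹) * (v * e ^ i * v⁻¹) * (v * r * v⁻¹)⁻¹ * (v * (e ^ i)⁻¹ * v⁻¹) := by group
    rw [this, hc', hc'']
    exact h1
  exact hle hx

lemma isPGroup_of_elab {p : ℕ} {V : Subgroup Γ} (hV : ElAb p V) : IsPGroup p V := by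
  rintro ⟨v, hv⟩
  refine ⟨1, ?_⟩
  ext
  simpa using hV.exp v hv

end basics

section rep

variable {k : Type} [Field k] {W : Type} [AddCommGroup W] [Module k W] {Γ : Type} [Group Γ]

/-- the kernel of `R` on all the conjugates of `N` under `V` -/
def R0 (ρ : Representation k Γ W) (V R : Subgroup Γ) (N : Submodule k W) : Subgroup Γ where
  carrier := {x | x ∈ R ∧ ∀ v ∈ V, ∀ n ∈ N, ρ (v * x * v⁻¹) n = n}
  one_mem' := by
    refine ⟨R.one_mem, fun v _ n _ => ?_⟩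
    simp
  mul_mem' := by
    rintro x y ⟨hx, hx'⟩ ⟨hy, hy'⟩
    refine ⟨R.mul_mem hx hy, fun v hv n hn => ?_⟩
    have : v * (x * y) * v⁻¹ = (v * x * v⁻¹) * (v * y * v⁻¹) := by group
    rw [this, map_mul, Module.End.mul_apply, hy' v hv n hn, hx' v hv n hn]
  inv_mem' := by
    rintro x ⟨hx, hx'⟩
    refine ⟨R.inv_mem hx, fun v hv n hn => ?_⟩
    have h1 := hx' v hv n hn
    have : v * x⁻¹ * v⁻¹ * (v * x * v⁻¹) = 1 := by group
    calc ρ (v * x⁻¹ * v⁻¹) n = ρ (v * x⁻¹ * v⁻¹) (ρ (v * x * v⁻¹) n) := by rw [h1]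
      _ = (ρ (v * x⁻¹ * v⁻¹) * ρ (v * x * v⁻¹)) n := rfl
      _ = ρ (v * x⁻¹ * v⁻¹ * (v * x * v⁻¹)) n := by rw [map_mul ρ (v * x⁻¹ * v⁻¹)]
      _ = n := by rw [this]; simp

variable {ρ : Representation k Γ W} {V R : Subgroup Γ} {N : Submodule k W}

lemma mem_R0 {x : Γ} : x ∈ R0 ρ V R N ↔ x ∈ R ∧ ∀ v ∈ V, ∀ n ∈ N, ρ (v * x * v⁻¹) n = n := Iff.rfl

lemma R0_le : R0 ρ V R N ≤ R := fun _ hx => hx.1

lemma R0_triv {x : Γ} (hx : x ∈ R0 ρ V R N) {n : W} (hn : n ∈ N) : ρ x n = n := by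
  have := (mem_R0.1 hx).2 1 V.one_mem n hn
  simpa using this

lemma R0_invV (h : Inv V R) : Inv V (R0 ρ V R N) := by
  refine inv_iff.2 fun v hv x hx => mem_R0.2 ⟨inv_iff.1 h v hv x hx.1, fun w hw n hn => ?_⟩
  have := (mem_R0.1 hx).2 (w * v) (V.mul_mem hw hv) n hn
  have e : w * (v * x * v⁻¹) * w⁻¹ = w * v * x * (w * v)⁻¹ := by group
  rw [e]; exact this

lemma R0_invR (h : Inv V R) (hN : ∀ g ∈ R, ∀ n ∈ N, ρ g n ∈ N) : Inv R (R0 ρ V R N) := by
  refine inv_iff.2 fun g hg x hx => mem_R0.2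
    ⟨R.mul_mem (R.mul_mem hg hx.1) (R.inv_mem hg), fun w hw n hn => ?_⟩
  have hg' := inv_iff.1 h w hw g hg
  have h1 : ρ (w * g * w⁻¹)⁻¹ n ∈ N := hN _ (R.inv_mem hg') n hn
  have h2 := (mem_R0.1 hx).2 w hw _ h1
  have e : w * (g * x * g⁻¹) * w⁻¹ = (w * g * w⁻¹) * (w * x * w⁻¹) * (w * g * w⁻¹)⁻¹ := by group
  rw [e, map_mul, Module.End.mul_apply, map_mul, Module.End.mul_apply, h2, ← Module.End.mul_apply,
    ← map_mul]
  simp

lemma le_R0 {X : Subgroup Γ} (hX : X ≤ R) (hVX : Inv V X) (h : ∀ x ∈ X, ∀ n ∈ N, ρ x n = n) :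
    X ≤ R0 ρ V R N := fun x hx =>
  mem_R0.2 ⟨hX hx, fun v hv n hn => h _ (inv_iff.1 hVX v hv x hx) n hn⟩

/-- the centraliser of `A` modulo `R₀` in `R` -/
def CC (R A S : Subgroup Γ) (hS : Inv R S) : Subgroup Γ where
  carrier := {g | g ∈ R ∧ ∀ a ∈ A, a * g * a⁻¹ * g⁻¹ ∈ S}
  one_mem' := ⟨R.one_mem, fun a _ => by simp⟩
  mul_mem' := by
    rintro x y ⟨hx, hx'⟩ ⟨hy, hy'⟩
    refine ⟨R.mul_mem hx hy, fun a ha => ?_⟩
    have e : a * (x * y) * a⁻¹ * (x * y)⁻¹ =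
      (a * x * a⁻¹ * x⁻¹) * (x * (a * y * a⁻¹ * y⁻¹) * x⁻¹) := by group
    rw [e]
    exact S.mul_mem (hx' a ha) (inv_iff.1 hS x hx _ (hy' a ha))
  inv_mem' := by
    rintro x ⟨hx, hx'⟩
    refine ⟨R.inv_mem hx, fun a ha => ?_⟩
    have h1 := inv_iff.1 hS _ (R.inv_mem hx) _ (S.inv_mem (hx' a ha))
    have e : a * x⁻¹ * a⁻¹ * x⁻¹⁻¹ = a * x⁻¹ * a⁻¹ * x := by group
    have e' : x⁻¹ * (a * x * a⁻¹ * x⁻¹)⁻¹ * x⁻¹⁻¹ = a * x⁻¹ * a⁻¹ * x := by group
    rw [e, ← e']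
    exact h1

lemma mem_CC {A S : Subgroup Γ} {hS : Inv R S} {g : Γ} :
    g ∈ CC R A S hS ↔ g ∈ R ∧ ∀ a ∈ A, a * g * a⁻¹ * g⁻¹ ∈ S := Iff.rfl

lemma CC_invV {A S : Subgroup Γ} {hS : Inv R S} (hVR : Inv V R) (hVA : Inv V A) (hVS : Inv V S) :
    Inv V (CC R A S hS) := by
  refine inv_iff.2 fun v hv g hg => mem_CC.2 ⟨inv_iff.1 hVR v hv g hg.1, fun a ha => ?_⟩
  have ha' : v⁻¹ * a * v⁻¹⁻¹ ∈ A := inv_iff.1 hVA _ (V.inv_mem hv) a ha
  have h1 := inv_iff.1 hVS v hv _ ((mem_CC.1 hg).2 _ ha')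
  convert h1 using 1
  group

end rep

/-- a minimal nonzero submodule which is invariant under a set of endomorphisms -/
lemma exists_min {k : Type} [Field k] {W : Type} [AddCommGroup W] [Module k W]
    [FiniteDimensional k W] (P : Submodule k W → Prop) (N : Submodule k W) (hN : N ≠ ⊥)
    (hP : P N) : ∃ N' ≤ N, N' ≠ ⊥ ∧ P N' ∧ ∀ N'' ≤ N', N'' ≠ ⊥ → P N'' → N'' = N' := by
  obtain ⟨M, ⟨hM1, hM2, hM3⟩, hmin⟩ := WellFounded.has_min
    (wellFounded_lt (α := Submodule k W)) {M | M ≤ N ∧ M ≠ ⊥ ∧ P M} ⟨N, le_rfl, hN, hP⟩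
  refine ⟨M, hM1, hM2, hM3, fun N'' h1 h2 h3 => ?_⟩
  rcases h1.eq_or_lt with h | h
  · exact h
  · exact absurd h (hmin N'' ⟨h1.trans hM1, h2, h3⟩)

lemma map_sup {k : Type} [Field k] {W : Type} [AddCommGroup W] [Module k W] {Γ : Type} [Group Γ]
    (ρ : Representation k Γ W) (A B : Subgroup Γ) (M : Submodule k W)
    (hA : ∀ g ∈ A, ∀ n ∈ M, ρ g n ∈ M) (hB : ∀ g ∈ B, ∀ n ∈ M, ρ g n ∈ M) :
    ∀ g ∈ A ⊔ B, ∀ n ∈ M, ρ g n ∈ M := by
  let T : Subgroup Γ :=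
    { carrier := {g | (∀ n ∈ M, ρ g n ∈ M) ∧ ∀ n ∈ M, ρ g⁻¹ n ∈ M}
      one_mem' := by simp
      mul_mem' := by
        rintro x y ⟨hx, hx'⟩ ⟨hy, hy'⟩
        refine ⟨fun n hn => ?_, fun n hn => ?_⟩
        · rw [map_mul, Module.End.mul_apply]
          exact hx _ (hy _ hn)
        · rw [mul_inv_rev, map_mul, Module.End.mul_apply]
          exact hy' _ (hx' _ hn)
      inv_mem' := by
        rintro x ⟨hx, hx'⟩
        exact ⟨hx', by simpa using hx⟩ }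
  have hT : A ⊔ B ≤ T := sup_le (fun g hg => ⟨hA g hg, hA _ (A.inv_mem hg)⟩)
    (fun g hg => ⟨hB g hg, hB _ (B.inv_mem hg)⟩)
  intro g hg
  exact (hT hg).1

/-- Case 2: passage to the quotient by `S` -/
lemma case2 {Γ : Type} [Group Γ] [Finite Γ] (hLift : StmtLift) (hNil : StmtNil) (p : ℕ)
    (V R I S : Subgroup Γ) (hV : ElAb p V) (hVR : Inv V R) (hcen : cen R V = ⊥)
    (hnil : Group.IsNilpotent R) (hI : I ≤ V) (hSR : S ≤ R) (hRS : Inv R S) (hVS : Inv V S)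
    (hpS : ¬ p ∣ Nat.card S)
    (hA : ∀ A ≤ R, Inv R A → Inv V A → (∀ a ∈ A, ∀ b ∈ A, a * b * a⁻¹ * b⁻¹ ∈ S) →
      (∀ a ∈ A, ∀ r ∈ R, a * r * a⁻¹ * r⁻¹ ∈ S) ∧ (∀ a ∈ A, ∀ v ∈ I, a * v * a⁻¹ * v⁻¹ ∈ S)) :
    ∀ r ∈ R, ∀ v ∈ I, r * v * r⁻¹ * v⁻¹ ∈ S := by
  set H : Subgroup Γ := R ⊔ V with hH
  have hRH : R ≤ H := le_sup_left
  have hVH : V ≤ H := le_sup_right
  have hHS : H ≤ normalizer (S : Set Γ) := sup_le hRS hVS
  have : (S.subgroupOf H).Normal := by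
    refine ⟨fun n hn g => ?_⟩
    rw [mem_subgroupOf] at hn ⊢
    exact (mem_normalizer_iff.1 (hHS g.2) _).1 hn
  let f : H →* H ⧸ S.subgroupOf H := QuotientGroup.mk' (S.subgroupOf H)
  have hf1 : ∀ x : H, f x = 1 ↔ (x : Γ) ∈ S := by
    intro x
    rw [← mem_subgroupOf, ← MonoidHom.mem_ker, QuotientGroup.ker_mk']
  have hfc : ∀ x y : H, f x * f y = f y * f x ↔ (x : Γ) * y * (x : Γ)⁻¹ * (y : Γ)⁻¹ ∈ S := by
    intro x y
    have : f (x * y * x⁻¹ * y⁻¹) = 1 ↔ (x : Γ) * y * (x : Γ)⁻¹ * (y : Γ)⁻¹ ∈ S := hf1 _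
    rw [← this]
    simp only [map_mul, map_inv]
    constructor
    · intro h; rw [h]; group
    · intro h
      have := mul_inv_eq_one.1 h
      rw [mul_inv_eq_iff_eq_mul] at this
      exact this
  let im : Subgroup Γ → Subgroup (H ⧸ S.subgroupOf H) := fun X => (X.subgroupOf H).map f
  have him : ∀ X : Subgroup Γ, ∀ y, y ∈ im X ↔ ∃ x : H, (x : Γ) ∈ X ∧ f x = y := by
    intro X y
    simp only [im, mem_map, mem_subgroupOf]
  have hfim : ∀ X : Subgroup Γ, ∀ x : H, (x : Γ) ∈ X → f x ∈ im X := fun X x hx =>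
    (him X _).2 ⟨x, hx, rfl⟩
  have hV' : ElAb p (im V) := by
    refine ⟨hV.prime, ?_, ?_⟩
    · intro v hv
      obtain ⟨x, hx, rfl⟩ := (him V v).1 hv
      rw [← map_pow]
      have : x ^ p = 1 := by ext; simpa using hV.exp _ hx
      rw [this, map_one]
    · intro v hv w hw
      obtain ⟨x, hx, rfl⟩ := (him V v).1 hv
      obtain ⟨y, hy, rfl⟩ := (him V w).1 hw
      rw [← map_mul, ← map_mul]
      congr 1
      ext
      simpa using hV.comm _ hx _ hy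
  have hVR' : Inv (im V) (im R) := by
    refine inv_iff.2 fun v hv x hx => ?_
    obtain ⟨v', hv', rfl⟩ := (him V v).1 hv
    obtain ⟨x', hx', rfl⟩ := (him R x).1 hx
    rw [← map_mul, ← map_inv, ← map_mul]
    exact hfim R _ (by simpa using inv_iff.1 hVR _ hv' _ hx')
  have hcen' : cen (im R) (im V : Set (H ⧸ S.subgroupOf H)) = ⊥ := by
    rw [eq_bot_iff]
    rintro y ⟨hy, hy'⟩
    obtain ⟨r, hr, rfl⟩ := (him R y).1 hy
    rw [mem_bot]
    have h1 : ∀ b ∈ V, (r : Γ)⁻¹ * (b * r * b⁻¹) ∈ S := by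
      intro b hb
      have h2 := mem_centralizer_iff.1 hy' (f ⟨b, hVH hb⟩) (hfim V _ hb)
      rw [hfc] at h2
      have h3 := inv_iff.1 hRS _ (R.inv_mem hr) _ h2
      convert h3 using 1
      simp [mul_assoc]
    obtain ⟨n, hn, hn'⟩ := hLift Γ p V S r hV.prime (isPGroup_of_elab hV) hVS hpS h1
    have h4 : (r : Γ) * n ∈ cen R V := by
      refine mem_inf.2 ⟨R.mul_mem hr (hSR hn), mem_centralizer_iff.2 ?_⟩
      intro b hb
      exact hn' b hb
    rw [hcen, mem_bot] at h4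
    rw [hf1]
    have : (r : Γ) = n⁻¹ := mul_eq_one_iff_eq_inv.1 h4
    rw [this]
    exact S.inv_mem hn
  have hnil' : Group.IsNilpotent (im R) := by
    let g : R →* H ⧸ S.subgroupOf H := f.comp (Subgroup.inclusion hRH)
    have hg : g.range = im R := by
      ext y
      rw [him, MonoidHom.mem_range]
      constructor
      · rintro ⟨x, rfl⟩
        exact ⟨Subgroup.inclusion hRH x, x.2, rfl⟩
      · rintro ⟨x, hx, rfl⟩
        exact ⟨⟨x, hx⟩, rfl⟩
    rw [← hg]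
    exact Group.nilpotent_of_surjective g.rangeRestrict g.rangeRestrict_surjective
  have hII : im I ≤ im V := by
    intro y hy
    obtain ⟨x, hx, rfl⟩ := (him I y).1 hy
    exact hfim V _ (hI hx)
  have key := hNil (H ⧸ S.subgroupOf H) p (im V) (im R) (im I) hV' hVR' hcen' hnil' hII ?_
  · intro r hr v hv
    have h1 := mem_centralizer_iff.1 (key (hfim R ⟨r, hRH hr⟩ hr)) (f ⟨v, hVH (hI hv)⟩)
      (hfim I _ hv)
    exact (hfc ⟨r, hRH hr⟩ ⟨v, hVH (hI hv)⟩).1 h1.symm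
  · intro A' hA'R hRA' hVA' hab
    let A : Subgroup Γ := (A'.comap f).map H.subtype
    have hmA : ∀ x : H, (x : Γ) ∈ A ↔ f x ∈ A' := by
      intro x
      simp only [A, mem_map, mem_comap, coe_subtype]
      constructor
      · rintro ⟨y, hy, h⟩
        have : y = x := Subtype.ext h
        rwa [← this]
      · intro h
        exact ⟨x, h, rfl⟩
    have hAH : A ≤ H := by
      rintro _ ⟨y, _, rfl⟩
      exact y.2
    have hAR : A ≤ R := by
      intro x hx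
      have h1 := (hmA ⟨x, hAH hx⟩).1 hx
      obtain ⟨r, hr, hrx⟩ := (him R _).1 (hA'R h1)
      have h2 : f (r⁻¹ * ⟨x, hAH hx⟩) = 1 := by
        rw [map_mul, map_inv, hrx]; group
      rw [hf1] at h2
      have h3 := R.mul_mem hr (hSR h2)
      simpa using h3
    have hconj : ∀ X : Subgroup Γ, X ≤ H → Inv (im X) A' → Inv X A := by
      intro X hX hXA
      refine inv_iff.2 fun v hv x hx => ?_
      have h1 := inv_iff.1 hXA _ (hfim X ⟨v, hX hv⟩ hv) _ ((hmA ⟨x, hAH hx⟩).1 hx)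
      rw [← map_mul, ← map_inv, ← map_mul] at h1
      exact (hmA (⟨v, hX hv⟩ * ⟨x, hAH hx⟩ * ⟨v, hX hv⟩⁻¹)).2 h1
    obtain ⟨h1, h2⟩ := hA A hAR (hconj R hRH hRA') (hconj V hVH hVA') (by
      intro a ha b hb
      exact (hfc ⟨a, hAH ha⟩ ⟨b, hAH hb⟩).1
        (hab _ ((hmA ⟨a, hAH ha⟩).1 ha) _ ((hmA ⟨b, hAH hb⟩).1 hb)))
    constructor
    · intro y hy
      obtain ⟨a, ha, rfl⟩ := (him R y).1 (hA'R hy)
      rw [mem_centralizer_iff]
      intro z hz
      obtain ⟨r, hr, rfl⟩ := (him R z).1 hz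
      exact ((hfc a r).2 (h1 a ((hmA a).2 hy) r hr)).symm
    · intro y hy
      obtain ⟨a, ha, rfl⟩ := (him R y).1 (hA'R hy)
      rw [mem_centralizer_iff]
      intro z hz
      obtain ⟨r, hr, rfl⟩ := (him I z).1 hz
      exact ((hfc a r).2 (h2 a ((hmA a).2 hy) r hr)).symm

/-- three subgroups lemma, modulo `S` -/
lemma three {Γ : Type} [Group Γ] {V R A S : Subgroup Γ} {v : Γ} (hv : v ∈ V) (hVR : Inv V R)
    (hRA : Inv R A) (hRS : Inv R S) (hVS : Inv V S) (hAv : cm A v ≤ S) :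
    cm R v ≤ CC R A S hRS := by
  refine cm_le_of fun r hr i => mem_CC.2 ⟨cm_le hVR hv (mem_cm hr i), fun a ha => ?_⟩
  have hu : v ^ i ∈ V := V.zpow_mem hv i
  have ha' : r⁻¹ * a * r⁻¹⁻¹ ∈ A := inv_iff.1 hRA _ (R.inv_mem hr) a ha
  have h1 := hAv (mem_cm ha' i)
  have h2 := hAv (mem_cm ha (-i))
  rw [zpow_neg] at h2
  have h3 := inv_iff.1 hRS _ hr _ h1
  have h4 := inv_iff.1 hRS _ hr _ (inv_iff.1 hVS _ hu _ (inv_iff.1 hRS _ (R.inv_mem hr) _ h2))
  generalize v ^ i = u at *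
  have e : a * (r * u * r⁻¹ * u⁻¹) * a⁻¹ * (r * u * r⁻¹ * u⁻¹)⁻¹ =
      (r * (r⁻¹ * a * r⁻¹⁻¹ * u * (r⁻¹ * a * r⁻¹⁻¹)⁻¹ * u⁻¹) * r⁻¹) *
      (r * (u * (r⁻¹ * (a * u⁻¹ * a⁻¹ * u⁻¹⁻¹) * r⁻¹⁻¹) * u⁻¹) * r⁻¹) := by group
  rw [e]
  exact S.mul_mem h3 h4

theorem main (hCop : StmtCop) (hLift : StmtLift) (hSplit : StmtSplit) (hWt : StmtWt)
    (hNil : StmtNil) : StmtNN := by
  intro k _ _ W _ _ _ Γ _ _ ρ p V R I N hV hVR hcen hnil hRk hI
  suffices H : ∀ m : ℕ, ∀ (R I : Subgroup Γ) (N : Submodule k W), Nat.card R + Nat.card I ≤ m →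
      Inv V R → cen R V = ⊥ → Group.IsNilpotent R → ((Nat.card R : ℕ) : k) ≠ 0 → I ≤ V →
      NConcl ρ R I N from H _ R I N le_rfl hVR hcen hnil hRk hI
  intro m
  induction m with
  | zero =>
    intro R I N hm
    have := Nat.card_pos (α := R)
    omega
  | succ m ih =>
    intro R I N hm hVR hcen hnil hRk hI hN hinv hirr hfix
    have hp : ¬ p ∣ Nat.card R := hCop Γ p V R hV hVR hcen
    have hNR : ∀ g ∈ R, ∀ n ∈ N, ρ g n ∈ N := fun g hg n hn =>
      hinv g ((le_sup_left : R ≤ R ⊔ I) hg) (Submodule.mem_map_of_mem hn)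
    have hNI : ∀ g ∈ I, ∀ n ∈ N, ρ g n ∈ N := fun g hg n hn =>
      hinv g ((le_sup_right : I ≤ R ⊔ I) hg) (Submodule.mem_map_of_mem hn)
    have hSR : R0 ρ V R N ≤ R := R0_le
    have hRS : Inv R (R0 ρ V R N) := R0_invR hVR hNR
    have hVS : Inv V (R0 ρ V R N) := R0_invV hVR
    have hpS : ¬ p ∣ Nat.card (R0 ρ V R N) := fun h => hp (h.trans (card_dvd_of_le hSR))
    have hcomm : ∀ v ∈ V, ∀ w ∈ V, w * v = v * w := fun v hv w hw => hV.comm w hw v hv
    have hcmS : ∀ X ≤ R, Inv V X → ∀ v ∈ I, (∀ x ∈ cm X v, ∀ n ∈ N, ρ x n = n) →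
        cm X v ≤ R0 ρ V R N := fun X hX hVX v hv h =>
      le_R0 ((cm_le hVX (hI hv)).trans hX) (inv_cm hVX (hcomm v (hI hv))) h
    by_cases hA : ∃ A ≤ R, Inv R A ∧ Inv V A ∧ (∀ a ∈ A, ∀ b ∈ A, a * b * a⁻¹ * b⁻¹ ∈ R0 ρ V R N) ∧
      ¬ ((∀ a ∈ A, ∀ r ∈ R, a * r * a⁻¹ * r⁻¹ ∈ R0 ρ V R N) ∧
        (∀ a ∈ A, ∀ v ∈ I, a * v * a⁻¹ * v⁻¹ ∈ R0 ρ V R N))
    · obtain ⟨A, hAR, hRA, hVA, hAA, hbad⟩ := hA
      have hAk : ((Nat.card A : ℕ) : k) ≠ 0 := by
        intro h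
        obtain ⟨c, hc⟩ := card_dvd_of_le hAR
        apply hRk
        rw [hc, Nat.cast_mul, h, zero_mul]
      have hAcomm : ∀ a ∈ A, ∀ b ∈ A, ∀ n ∈ N, ρ (a * b) n = ρ (b * a) n := by
        intro a ha b hb n hn
        have h1 : ρ (b * a) n ∈ N := hNR _ (R.mul_mem (hAR hb) (hAR ha)) n hn
        have h2 := R0_triv (hAA a ha b hb) h1
        rw [← h2, ← Module.End.mul_apply, ← map_mul]
        congr 2
        group
      obtain ⟨J, N', hJI, hJ, hN'N, hN'0, hJN', hCN', hfix'⟩ := hWt k W Γ ρ p V R I A N hV hVR hp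
        (by infer_instance) hI hAR hRA hVA hAk hAcomm hN hinv hirr hfix
      have hCR : CC R A _ hRS ≤ R := fun g hg => hg.1
      have hCN'' : ∀ g ∈ CC R A _ hRS, ∀ n ∈ N', ρ g n ∈ N' := by
        intro g hg n hn
        exact hCN' g hg.1 (fun a ha n hn => R0_triv ((mem_CC.1 hg).2 a ha) hn)
          (Submodule.mem_map_of_mem hn)
      have hJN'' : ∀ g ∈ J, ∀ n ∈ N', ρ g n ∈ N' := fun g hg n hn =>
        hJN' g hg (Submodule.mem_map_of_mem hn)
      obtain ⟨N₂, hN₂, hN₂0, hN₂inv, hN₂irr⟩ := exists_min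
        (fun M : Submodule k W => ∀ g ∈ CC R A _ hRS ⊔ J, M.map (ρ g) ≤ M) N' hN'0 (by
          intro g hg
          rintro _ ⟨n, hn, rfl⟩
          exact map_sup ρ _ _ N' hCN'' hJN'' g hg n hn)
      have hcle : Nat.card (CC R A _ hRS) ≤ Nat.card R :=
        Nat.le_of_dvd Nat.card_pos (card_dvd_of_le hCR)
      have hJle : Nat.card J ≤ Nat.card I := Nat.le_of_dvd Nat.card_pos (card_dvd_of_le hJI)
      have hlt : Nat.card (CC R A _ hRS) + Nat.card J < Nat.card R + Nat.card I := by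
        by_contra hge
        have h1 : Nat.card R ≤ Nat.card (CC R A _ hRS) := by omega
        have h2 : Nat.card I ≤ Nat.card J := by omega
        have h3 : CC R A _ hRS = R := eq_of_le_of_card_ge hCR h1
        have h4 : J = I := eq_of_le_of_card_ge hJI h2
        apply hbad
        constructor
        · intro a ha r hr
          rw [← h3] at hr
          exact (mem_CC.1 hr).2 a ha
        · intro a ha v hv
          have h5 : v ∈ J := by rw [h4]; exact hv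
          have h6 := hcmS A hAR hVA v hv ((hJ v hv).1 h5)
          have h7 := h6 (mem_cm ha 1)
          simpa using h7
      obtain ⟨v, hvJ, hv1, hvt⟩ := ih (CC R A _ hRS) J N₂ (by omega)
        (CC_invV hVR hVA hVS)
        (by
          rw [eq_bot_iff, ← hcen]
          exact inf_le_inf_right _ hCR)
        (Group.nilpotent_of_surjective (subgroupOfEquivOfLe hCR).toMonoidHom
          (subgroupOfEquivOfLe hCR).surjective)
        (by
          intro h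
          obtain ⟨c, hc⟩ := card_dvd_of_le hCR
          apply hRk
          rw [hc, Nat.cast_mul, h, zero_mul])
        (hJI.trans hI) hN₂0 hN₂inv hN₂irr (fun n hn h => hfix' n (hN₂ hn) h)
      have hvI := hJI hvJ
      have hvV := hI hvI
      have h6 := hcmS A hAR hVA v hvI ((hJ v hvI).1 hvJ)
      have h7 : cm R v ≤ CC R A _ hRS := three hvV hVR hRA hRS hVS h6
      have h8 : cm (cm R v) v = cm R v := (hSplit Γ p R v hV.prime (hV.exp v hvV)
        (by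
          refine le_trans ?_ hVR
          rw [zpowers_le]; exact hvV) hp).2
      have h9 : ∀ x ∈ cm R v, ∀ n ∈ N₂, ρ x n = n := by
        intro x hx n hn
        refine hvt x ?_ n hn
        rw [← h8] at hx
        exact cm_mono h7 v hx
      let F : Submodule k W :=
        { carrier := {n | n ∈ N ∧ ∀ x ∈ cm R v, ρ x n = n}
          zero_mem' := ⟨N.zero_mem, fun x _ => map_zero _⟩
          add_mem' := by
            rintro a b ⟨ha, ha'⟩ ⟨hb, hb'⟩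
            exact ⟨N.add_mem ha hb, fun x hx => by rw [map_add, ha' x hx, hb' x hx]⟩
          smul_mem' := by
            rintro c a ⟨ha, ha'⟩
            exact ⟨N.smul_mem c ha, fun x hx => by rw [map_smul, ha' x hx]⟩ }
      have hinvF : ∀ X : Subgroup Γ, (∀ g ∈ X, ∀ n ∈ N, ρ g n ∈ N) → Inv X (cm R v) →
          ∀ g ∈ X, ∀ n ∈ F, ρ g n ∈ F := by
        rintro X hX hXD g hg n ⟨hn, hn'⟩
        refine ⟨hX g hg n hn, fun x hx => ?_⟩
        have h1 := hn' _ (inv_iff.1 hXD _ (X.inv_mem hg) x hx)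
        calc ρ x (ρ g n) = (ρ x * ρ g) n := rfl
          _ = ρ (g * (g⁻¹ * x * g⁻¹⁻¹)) n := by
            rw [← map_mul]
            congr 2
            group
          _ = ρ g (ρ (g⁻¹ * x * g⁻¹⁻¹) n) := by rw [map_mul, Module.End.mul_apply]
          _ = ρ g n := by rw [h1]
      have hF : F = N := by
        refine hirr F (fun n hn => hn.1) ?_ ?_
        · intro h
          apply hN₂0
          rw [eq_bot_iff, ← h]
          intro n hn
          exact ⟨hN'N (hN₂ hn), fun x hx => h9 x hx n hn⟩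
        · rintro g hg _ ⟨n, hn, rfl⟩
          refine map_sup ρ R I F (hinvF R hNR (inv_iff.2 (inv_cm_self R v)))
            (hinvF I hNI ?_) g hg n hn
          exact le_trans hI (inv_cm hVR (hcomm v hvV))
      refine ⟨v, hvI, hv1, fun x hx n hn => ?_⟩
      rw [← hF] at hn
      exact hn.2 x hx
    · push Not at hA
      have hcase := case2 hLift hNil p V R I (R0 ρ V R N) hV hVR hcen hnil hI hSR hRS hVS hpS
        (fun A h1 h2 h3 h4 => by
          by_contra h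
          exact h (hA A h1 h2 h3 h4))
      have hI1 : ∃ v ∈ I, v ≠ 1 := by
        by_contra h
        push Not at h
        apply hN
        rw [eq_bot_iff]
        intro n hn
        refine hfix n hn fun v hv => ?_
        rw [h v hv]
        simp
      obtain ⟨v, hv, hv1⟩ := hI1
      refine ⟨v, hv, hv1, fun x hx n hn => ?_⟩
      have h1 : cm R v ≤ R0 ρ V R N := cm_le_of fun r hr i => hcase r hr _ (I.zpow_mem hv i)
      exact R0_triv (h1 hx) hn

end Pool.Agent.T6.H88.FP.ModB2c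

namespace Pool.Agent.T6.H88.FP

/-- module B2c -/
theorem b2c (hCop : StmtCop) (hLift : StmtLift) (hSplit : StmtSplit) (hWt : StmtWt)
    (hNil : StmtNil) : StmtNN := ModB2c.main hCop hLift hSplit hWt hNil

end Pool.Agent.T6.H88.FP
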