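import Pool.Agent.T6.H88.FP.Defs

/-! Module B3 of the project FP (MP_e56c9f_al): the soluble case. -/

set_option autoImplicit false

namespace Pool.Agent.T6.H88.FP.B3

open Subgroup
open scoped commutatorElement

section

variable {Γ : Type} [Group Γ]

lemma inv_iff {A X : Subgroup Γ} : Inv A X ↔ ∀ a ∈ A, ∀ x ∈ X, a * x * a⁻¹ ∈ X := by
  constructor
  · intro h a ha x hx
    exact (mem_normalizer_iff.1 (h ha) x).1 hx
  · intro e a ha
    rw [mem_normalizer_iff]
    intro h
    refine ⟨e a ha h, fun hh => ?_⟩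
    have := e a⁻¹ (inv_mem ha) _ hh
    have e2 : a⁻¹ * (a * h * a⁻¹) * a⁻¹⁻¹ = h := by group
    rwa [e2] at this

lemma inv_cen {A X Y : Subgroup Γ} (hX : Inv A X) (hY : Inv A Y) : Inv A (cen X (Y : Set Γ)) := by
  rw [inv_iff] at *
  intro a ha x hx
  refine ⟨hX a ha x hx.1, ?_⟩
  refine mem_centralizer_iff.2 ?_
  intro y hy
  have h1 : a⁻¹ * y * a⁻¹⁻¹ ∈ Y := hY _ (inv_mem ha) y hy
  have h2 := mem_centralizer_iff.1 hx.2 _ h1
  calc y * (a * x * a⁻¹) = a * ((a⁻¹ * y * a⁻¹⁻¹) * x) * a⁻¹ := by group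
    _ = a * (x * (a⁻¹ * y * a⁻¹⁻¹)) * a⁻¹ := by rw [h2]
    _ = (a * x * a⁻¹) * y := by group

lemma inv_comm {A X Y : Subgroup Γ} (hX : Inv A X) (hY : Inv A Y) : Inv A ⁅X, Y⁆ := by
  rw [inv_iff] at *
  intro a ha x hx
  have h : (⁅X, Y⁆ : Subgroup Γ).map (MulAut.conj a).toMonoidHom ≤ ⁅X, Y⁆ := by
    rw [map_commutator]
    refine commutator_mono ?_ ?_
    · rintro _ ⟨m, hm, rfl⟩
      exact hX a ha m hm
    · rintro _ ⟨m, hm, rfl⟩
      exact hY a ha m hm
  exact h ⟨x, hx, rfl⟩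

lemma inv_char {A F : Subgroup Γ} (K : Subgroup F) (hK : K.Characteristic) (h : Inv A F) :
    Inv A (K.map F.subtype) := by
  rw [inv_iff]
  rintro a ha _ ⟨x, hx, rfl⟩
  let φ : MulAut F := F.normalizerMonoidHom ⟨a, h ha⟩
  have h1 : K.map φ.toMonoidHom = K := (characteristic_iff_map_eq.1 hK) φ
  have h2 : φ x ∈ K := by
    rw [← h1]
    exact ⟨x, hx, rfl⟩
  exact ⟨φ x, h2, rfl⟩

lemma inv_sup {A X Y : Subgroup Γ} (hX : Inv A X) (hY : Inv A Y) : Inv A (X ⊔ Y) := by
  rw [inv_iff] at *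
  intro a ha x hx
  have h : (X ⊔ Y : Subgroup Γ).map (MulAut.conj a).toMonoidHom ≤ X ⊔ Y := by
    rw [Subgroup.map_sup]
    refine sup_le_sup ?_ ?_
    · rintro _ ⟨m, hm, rfl⟩
      exact hX a ha m hm
    · rintro _ ⟨m, hm, rfl⟩
      exact hY a ha m hm
  exact h ⟨x, hx, rfl⟩

/-- derived series in the ambient group -/
def ds (C : Subgroup Γ) : ℕ → Subgroup Γ
  | 0 => C
  | n + 1 => ⁅ds C n, ds C n⁆

lemma ds_eq (C : Subgroup Γ) (n : ℕ) : ds C n = (derivedSeries C n).map C.subtype := by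
  induction n with
  | zero => simp [ds, ← MonoidHom.range_eq_map]
  | succ n ih => rw [ds, ih, derivedSeries_succ, map_commutator]

lemma ds_inv {A C : Subgroup Γ} (h : Inv A C) (n : ℕ) : Inv A (ds C n) := by
  induction n with
  | zero => exact h
  | succ n ih => exact inv_comm ih ih

lemma ds_le (C : Subgroup Γ) (n : ℕ) : ds C n ≤ C := by
  rw [ds_eq]
  exact map_subtype_le _

lemma nil_sup {F D : Subgroup Γ} (hF : Group.IsNilpotent F) (hD : Group.IsNilpotent D)
    (h : D ≤ centralizer (F : Set Γ)) : Group.IsNilpotent (F ⊔ D : Subgroup Γ) := by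
  let f : F × D →* Γ := MonoidHom.noncommCoprod F.subtype D.subtype
    (fun x y => (mem_centralizer_iff.1 (h y.2) x x.2))
  have hr : f.range = F ⊔ D := by
    have h1 := MonoidHom.noncommCoprod_range F.subtype D.subtype
      (fun x y => (mem_centralizer_iff.1 (h y.2) x x.2))
    rw [range_subtype, range_subtype] at h1
    exact h1
  rw [← hr]
  exact Group.nilpotent_of_surjective f.rangeRestrict f.rangeRestrict_surjective

lemma exists_fit [Finite Γ] (V R : Subgroup Γ) (hVR : Inv V R) (hsol : Group.IsSolvable R) :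
    ∃ F : Subgroup Γ, F ≤ R ∧ Inv R F ∧ Inv V F ∧ Group.IsNilpotent F ∧
      cen R (F : Set Γ) ≤ F := by
  classical
  let S : Set (Subgroup Γ) := {F | F ≤ R ∧ Inv R F ∧ Inv V F ∧ Group.IsNilpotent F}
  have hS0 : (⊥ : Subgroup Γ) ∈ S := by
    refine ⟨bot_le, ?_, ?_, inferInstance⟩ <;>
    · rw [inv_iff]
      intro a _ x hx
      rw [mem_bot] at hx ⊢
      rw [hx]
      group
  obtain ⟨F, hF, hmax⟩ := Set.exists_max_image S (fun N => Nat.card N) (Set.toFinite S) ⟨_, hS0⟩
  refine ⟨F, hF.1, hF.2.1, hF.2.2.1, hF.2.2.2, ?_⟩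
  by_contra hcon
  have hCR : Inv R (cen R (F : Set Γ)) := inv_cen le_normalizer hF.2.1
  have hCV : Inv V (cen R (F : Set Γ)) := inv_cen hVR hF.2.2.1
  have hsolC : Group.IsSolvable (cen R (F : Set Γ)) := by
    have hle : cen R (F : Set Γ) ≤ R := inf_le_left
    exact Group.isSolvable_of_isSolvable_injective (inclusion_injective hle)
  obtain ⟨n, hn⟩ := hsolC.solvable
  have hex : ∃ n, ds (cen R (F : Set Γ)) n ≤ F := ⟨n, by
    rw [ds_eq, hn, Subgroup.map_bot]
    exact bot_le⟩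
  have hm : ds (cen R (F : Set Γ)) (Nat.find hex) ≤ F := Nat.find_spec hex
  have hm0 : Nat.find hex ≠ 0 := by
    intro h0
    apply hcon
    have := hm
    rwa [h0] at this
  obtain ⟨j, hj⟩ := Nat.exists_eq_succ_of_ne_zero hm0
  have hjn : ¬ ds (cen R (F : Set Γ)) j ≤ F := Nat.find_min hex (by omega)
  have hm' : ⁅ds (cen R (F : Set Γ)) j, ds (cen R (F : Set Γ)) j⁆ ≤ F := by
    have := hm
    rw [hj] at this
    exact this
  have hDC : ds (cen R (F : Set Γ)) j ≤ cen R (F : Set Γ) := ds_le _ j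
  have hDR := ds_inv hCR j
  have hDV := ds_inv hCV j
  obtain ⟨D, hD⟩ : ∃ D, D = ds (cen R (F : Set Γ)) j := ⟨_, rfl⟩
  rw [← hD] at hm' hDC hDR hDV hjn
  have hDF : D ≤ centralizer (F : Set Γ) := hDC.trans inf_le_right
  have hDnil : Group.IsNilpotent D := by
    rw [isNilpotent_iff_lowerCentralSeries]
    refine ⟨2, ?_⟩
    rw [Subgroup.lowerCentralSeries_succ, Subgroup.lowerCentralSeries_succ,
      Subgroup.lowerCentralSeries_zero,
      commutator_eq_bot_iff_le_centralizer, le_centralizer_iff]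
    refine hDF.trans (centralizer_le ?_)
    exact hm'
  have hmem : F ⊔ D ∈ S := ⟨sup_le hF.1 (hDC.trans inf_le_left), inv_sup hF.2.1 hDR,
    inv_sup hF.2.2.1 hDV, nil_sup hF.2.2.2 hDnil hDF⟩
  have h2 := hmax _ hmem
  have h3 : F = F ⊔ D := Subgroup.eq_of_le_of_card_ge le_sup_left h2
  apply hjn
  rw [h3]
  exact le_sup_right

end

end Pool.Agent.T6.H88.FP.B3

namespace Pool.Agent.T6.H88.FP

open Subgroup B3
open scoped commutatorElement

theorem b3 (hCop : StmtCop) (hSplit : StmtSplit) (hNN : StmtNN) (hKer : StmtKer) : StmtNS := by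
  classical
  intro k _ _ W _ _ _ Γ _ _ ρ p V R I N hE hVR hcen hsol hcore hIV hfaith hN0 hNinv hNmin hNfix
  have hpR : ¬ p ∣ Nat.card R := hCop Γ p V R hE hVR hcen
  obtain ⟨F, hFR, hRF, hVF, hnil, hCF⟩ := exists_fit V R hVR hsol
  have hcenF : cen F V = ⊥ := by
    rw [eq_bot_iff, ← hcen]
    exact inf_le_inf_right _ hFR
  have hcard : ((Nat.card F : ℕ) : k) ≠ 0 := by
    intro h0
    obtain ⟨s, hs⟩ := CharP.exists k
    have h1 : s ∣ Nat.card F := (CharP.cast_eq_zero_iff k s _).1 h0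
    have hs0 : s.Prime := by
      rcases CharP.char_is_prime_or_zero k s with h | h
      · exact h
      · rw [h, zero_dvd_iff] at h1
        exact absurd h1 Nat.card_pos.ne'
    have : Fact s.Prime := ⟨hs0⟩
    let P : Sylow s F := default
    have hPc : (P : Subgroup F).Characteristic := P.characteristic_of_normal inferInstance
    have h2 : (P : Subgroup F).map F.subtype ≤ core s R := by
      refine le_sSup ⟨(map_subtype_le _).trans hFR, inv_char _ hPc hRF, P.2.map _⟩
    rw [hcore s hs0 (CharP.cast_eq_zero k s), le_bot_iff, Subgroup.map_eq_bot_iff_of_injective _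
      F.subtype_injective] at h2
    exact P.ne_bot_of_dvd_card h1 h2
  obtain ⟨v, hvI, hv1, hv⟩ := hKer k W Γ ρ p V R I F N hE hVR hpR hsol hIV hFR hRF hVF hcard hN0
    hNinv hNmin (by
      intro N₁ hN₁ hN₁0 hN₁inv hN₁min
      exact hNN k W Γ ρ p V F I N₁ hE hVF hcenF hnil hcard hIV hN₁0 hN₁inv hN₁min
        (fun n hn h => hNfix n (hN₁ hn) h))
  have hvV : v ∈ V := hIV hvI
  have hVz : Inv V (zpowers v) := by
    rw [inv_iff]
    rintro a ha _ ⟨j, rfl⟩
    have : a * v ^ j * a⁻¹ = v ^ j := by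
      have h1 : Commute a (v ^ j) := (show Commute a v from hE.comm a ha v hvV).zpow_right j
      rw [h1.eq]
      group
    show a * v ^ j * a⁻¹ ∈ zpowers v
    rw [this]
    exact zpow_mem (mem_zpowers v) j
  have hcmF : cm F v = ⊥ := by
    rw [eq_bot_iff]
    intro x hx
    rw [mem_bot]
    have hinv : Inv V (cm F v) := inv_comm hVF hVz
    have hxF : x ∈ F := by
      have : cm F v ≤ F := by
        unfold cm
        rw [commutator_le]
        intro a ha c hc
        have hcV : c ∈ V := (zpowers_le.2 hvV) hc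
        have h1 : c * a⁻¹ * c⁻¹ ∈ F := (inv_iff.1 hVF) c hcV _ (inv_mem ha)
        have h2 : ⁅a, c⁆ = a * (c * a⁻¹ * c⁻¹) := by
          rw [commutatorElement_def]
          group
        rw [h2]
        exact mul_mem ha h1
      exact this hx
    apply hfaith x (hFR hxF)
    intro w hw n hn
    exact hv _ ((inv_iff.1 hinv) w hw x hx) n hn
  have h3 : ⁅⁅R, zpowers v⁆, F⁆ = ⊥ := by
    apply commutator_commutator_eq_bot_of_rotate
    · rw [commutator_comm (zpowers v) F]
      have : ⁅F, zpowers v⁆ = ⊥ := hcmF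
      rw [this, commutator_bot_left]
    · rw [eq_bot_iff, ← hcmF]
      refine commutator_mono ?_ le_rfl
      rw [commutator_comm]
      rw [commutator_le]
      intro a ha c hc
      have h1 : a * c * a⁻¹ ∈ F := (inv_iff.1 hRF) a ha c hc
      rw [commutatorElement_def]
      exact mul_mem h1 (inv_mem hc)
  have hcmR : cm R v ≤ R := by
    unfold cm
    rw [commutator_le]
    intro a ha c hc
    have hcV : c ∈ V := (zpowers_le.2 hvV) hc
    have h1 : c * a⁻¹ * c⁻¹ ∈ R := (inv_iff.1 hVR) c hcV _ (inv_mem ha)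
    have h2 : ⁅a, c⁆ = a * (c * a⁻¹ * c⁻¹) := by
      rw [commutatorElement_def]
      group
    rw [h2]
    exact mul_mem ha h1
  have h4 : cm R v ≤ F := by
    refine le_trans (le_inf hcmR ?_) hCF
    exact commutator_eq_bot_iff_le_centralizer.1 h3
  have h5 : cm R v = ⊥ := by
    have h6 := (hSplit Γ p R v hE.prime (hE.exp v hvV) ((zpowers_le.2 hvV).trans hVR) hpR).2
    rw [← h6, eq_bot_iff, ← hcmF]
    exact commutator_mono h4 le_rfl
  refine ⟨v, hvI, hv1, fun x hx n hn => ?_⟩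
  rw [h5, mem_bot] at hx
  rw [hx, map_one, Module.End.one_apply]

end Pool.Agent.T6.H88.FP
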