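import Pool.Agent.T6.H88.FP.D6

/-! Module B3a of the project FP. -/

set_option autoImplicit false
set_option linter.unusedSectionVars false
set_option linter.unusedVariables false

namespace Pool.Agent.T6.H88.FP

open Subgroup
open scoped commutatorElement

namespace B3a

open D6

section grp

variable {Γ : Type} [Group Γ]

theorem mem_mul {R I : Subgroup Γ} (h : Inv I R) {g : Γ} (hg : g ∈ R ⊔ I) :
    ∃ x ∈ R, ∃ w ∈ I, g = x * w := by
  let H : Subgroup Γ :=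
    { carrier := {g | ∃ x ∈ R, ∃ w ∈ I, g = x * w}
      mul_mem' := by
        rintro _ _ ⟨x, hx, w, hw, rfl⟩ ⟨x', hx', w', hw', rfl⟩
        exact ⟨x * (w * x' * w⁻¹), R.mul_mem hx (inv_mem h hw hx'), w * w', I.mul_mem hw hw',
          by group⟩
      one_mem' := ⟨1, R.one_mem, 1, I.one_mem, by simp⟩
      inv_mem' := by
        rintro _ ⟨x, hx, w, hw, rfl⟩
        refine ⟨w⁻¹ * x⁻¹ * w, ?_, w⁻¹, I.inv_mem hw, by group⟩
        have := inv_mem h (I.inv_mem hw) (R.inv_mem hx)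
        simpa using this }
  have : R ⊔ I ≤ H := sup_le (fun x hx => ⟨x, hx, 1, I.one_mem, by simp⟩)
    (fun w hw => ⟨1, R.one_mem, w, hw, by simp⟩)
  exact this hg

theorem mem_mul' {R I : Subgroup Γ} (h : Inv I R) {g : Γ} (hg : g ∈ R ⊔ I) :
    ∃ w ∈ I, ∃ x ∈ R, g = w * x := by
  obtain ⟨x, hx, w, hw, rfl⟩ := mem_mul h hg
  refine ⟨w, hw, w⁻¹ * x * w, ?_, by group⟩
  have := inv_mem h (I.inv_mem hw) hx
  simpa using this

theorem inter_triv [Finite Γ] {p : ℕ} {V I R : Subgroup Γ} (hV : ElAb p V) (hI : I ≤ V)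
    (hR : ¬ p ∣ Nat.card R) {w : Γ} (hw : w ∈ I) (hw' : w ∈ R) : w = 1 := by
  have h1 : orderOf w ∣ p := orderOf_dvd_of_pow_eq_one (hV.exp w (hI hw))
  have h2 : orderOf w ∣ Nat.card R := Subgroup.orderOf_dvd_natCard R hw'
  rcases (Nat.dvd_prime hV.prime).1 h1 with h | h
  · exact orderOf_eq_one_iff.1 h
  · exact absurd (h ▸ h2) hR

theorem pow_mem {R I : Subgroup Γ} (h : Inv I R) {x w : Γ} (hx : x ∈ R) (hw : w ∈ I) (n : ℕ) :
    ∃ y ∈ R, (x * w) ^ n = y * w ^ n := by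
  induction n with
  | zero => exact ⟨1, R.one_mem, by simp⟩
  | succ n ih =>
    obtain ⟨y, hy, e⟩ := ih
    refine ⟨y * (w ^ n * x * (w ^ n)⁻¹), R.mul_mem hy (inv_mem h (I.pow_mem hw n) hx), ?_⟩
    rw [pow_succ, e, pow_succ]
    group

/-- a `p`-subgroup of `R I` is conjugate to a subgroup of `I` -/
theorem conj_le [Finite Γ] {p : ℕ} {V I R Q : Subgroup Γ} (hV : ElAb p V) (hI : I ≤ V)
    (hIR : Inv I R) (hR : ¬ p ∣ Nat.card R) (hQ : Q ≤ R ⊔ I) (hQp : IsPGroup p Q) :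
    ∃ g ∈ R ⊔ I, ∀ q ∈ Q, g⁻¹ * q * g ∈ I := by
  have fp : Fact p.Prime := ⟨hV.prime⟩
  set H := R ⊔ I with hH
  let f : R → (↥H ⧸ I.subgroupOf H) := fun x => QuotientGroup.mk ⟨x, le_sup_left (a := R) x.2⟩
  have hf : Function.Bijective f := by
    constructor
    · intro x y hxy
      have h1 := QuotientGroup.eq.1 hxy
      rw [mem_subgroupOf] at h1
      have h2 : ((x : Γ)⁻¹ * y) ∈ I := h1
      have h3 := inter_triv hV hI hR h2 (R.mul_mem (R.inv_mem x.2) y.2)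
      apply Subtype.ext
      exact (inv_mul_eq_one.1 h3)
    · intro z
      obtain ⟨⟨g, hg⟩, rfl⟩ := QuotientGroup.mk_surjective z
      obtain ⟨x, hx, w, hw, rfl⟩ := mem_mul hIR hg
      refine ⟨⟨x, hx⟩, ?_⟩
      apply QuotientGroup.eq.2
      rw [mem_subgroupOf]
      change x⁻¹ * (x * w) ∈ I
      rw [inv_mul_cancel_left]
      exact hw
  have hcard : ¬ p ∣ Nat.card (↥H ⧸ I.subgroupOf H) := by
    rw [← Nat.card_congr (Equiv.ofBijective f hf)]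
    exact hR
  have hQ' : IsPGroup p (Q.subgroupOf H) := by
    rintro ⟨⟨x, hx⟩, hx'⟩
    obtain ⟨n, hn⟩ := hQp ⟨x, hx'⟩
    refine ⟨n, ?_⟩
    have h0 : x ^ p ^ n = 1 := by
      have := congrArg Subtype.val hn
      simpa using this
    apply Subtype.ext
    apply Subtype.ext
    simpa using h0
  obtain ⟨z, hz⟩ := hQ'.nonempty_fixed_point_of_prime_not_dvd_card (↥H ⧸ I.subgroupOf H) hcard
  obtain ⟨⟨g, hg⟩, rfl⟩ := QuotientGroup.mk_surjective z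
  refine ⟨g, hg, fun q hq => ?_⟩
  have h1 := hz ⟨⟨q, hQ hq⟩, hq⟩
  have h2 : (QuotientGroup.mk (⟨q, hQ hq⟩ * ⟨g, hg⟩ : ↥H) : ↥H ⧸ I.subgroupOf H) =
      QuotientGroup.mk ⟨g, hg⟩ := h1
  have h3 := QuotientGroup.eq.1 h2.symm
  rw [mem_subgroupOf] at h3
  have h4 : g⁻¹ * (q * g) ∈ I := h3
  rwa [← mul_assoc] at h4

/-- decomposition of a subgroup `Y` of `R I` -/
theorem decomp [Finite Γ] {p : ℕ} {V I R Y : Subgroup Γ} (hV : ElAb p V) (hI : I ≤ V)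
    (hIR : Inv I R) (hR : ¬ p ∣ Nat.card R) (hY : Y ≤ R ⊔ I) :
    ∃ g ∈ R ⊔ I, ∀ y ∈ Y, ∃ t ∈ R, t ∈ Y ∧ ∃ q ∈ Y, g⁻¹ * q * g ∈ I ∧ y = t * q := by
  have fp : Fact p.Prime := ⟨hV.prime⟩
  have hHR : Inv (R ⊔ I) R := by
    refine inv_of fun h hh x hx => ?_
    obtain ⟨a, ha, w, hw, rfl⟩ := mem_mul hIR hh
    have h1 : a * w * x * (a * w)⁻¹ = a * (w * x * w⁻¹) * a⁻¹ := by group
    rw [h1]
    exact R.mul_mem (R.mul_mem ha (inv_mem hIR hw hx)) (R.inv_mem ha)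
  set T := R.subgroupOf Y with hT
  have hTn : T.Normal := by
    constructor
    rintro ⟨t, ht⟩ htT ⟨y, hy⟩
    rw [hT, mem_subgroupOf] at htT ⊢
    exact inv_mem hHR (hY hy) htT
  have hquot : IsPGroup p (↥Y ⧸ T) := by
    intro z
    obtain ⟨⟨y, hy⟩, rfl⟩ := QuotientGroup.mk_surjective z
    refine ⟨1, ?_⟩
    rw [pow_one, ← QuotientGroup.mk_pow, QuotientGroup.eq_one_iff]
    rw [hT, mem_subgroupOf]
    obtain ⟨x, hx, w, hw, rfl⟩ := mem_mul hIR (hY hy)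
    obtain ⟨a, ha, e⟩ := pow_mem hIR hx hw p
    change (x * w) ^ p ∈ R
    rw [e, hV.exp w (hI hw), mul_one]
    exact ha
  obtain ⟨n, hn⟩ := IsPGroup.iff_card.1 hquot
  have hidx : T.index = p ^ n := hn
  have hTc : ¬ p ∣ Nat.card T := by
    intro h
    apply hR
    refine h.trans ?_
    let f : T →* R := (Y.subtype.comp T.subtype).codRestrict R (fun t => t.2)
    refine Subgroup.card_dvd_of_injective f ?_
    intro a b hab
    have : (f a : Γ) = f b := congrArg Subtype.val hab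
    apply Subtype.ext
    apply Subtype.ext
    exact this
  have hcop : Nat.Coprime (Nat.card T) T.index := by
    rw [hidx]
    apply Nat.Coprime.pow_right
    exact ((Nat.Prime.coprime_iff_not_dvd hV.prime).2 hTc).symm
  obtain ⟨Q, hQ⟩ := Subgroup.exists_right_complement'_of_coprime hcop
  have hQc : Nat.card Q = p ^ n := by
    rw [← hidx]
    exact hQ.symm.index_eq_card.symm
  have hQp : IsPGroup p (Q.map Y.subtype) := (IsPGroup.of_card hQc).map _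
  obtain ⟨g, hg, hgQ⟩ := conj_le hV hI hIR hR
    (show Q.map Y.subtype ≤ R ⊔ I from (Subgroup.map_subtype_le Q).trans hY) hQp
  refine ⟨g, hg, fun y hy => ?_⟩
  obtain ⟨⟨⟨⟨t, htY⟩, ht⟩, ⟨⟨q, hqY⟩, hq⟩⟩, e⟩ := hQ.2 ⟨y, hy⟩
  refine ⟨t, ht, htY, q, hqY, hgQ q ⟨⟨q, hqY⟩, hq, rfl⟩, ?_⟩
  have := congrArg Subtype.val e
  exact this.symm

end grp

section rep

variable {k : Type} [Field k] {W : Type} [AddCommGroup W] [Module k W] {Γ : Type} [Group Γ]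

/-- invariant submodules -/
def IS (ρ : Representation k Γ W) (H : Subgroup Γ) (N : Submodule k W) : Prop :=
  ∀ g ∈ H, ∀ n ∈ N, ρ g n ∈ N

theorem IS_iff {ρ : Representation k Γ W} {H : Subgroup Γ} {N : Submodule k W} :
    IS ρ H N ↔ ∀ g ∈ H, N.map (ρ g) ≤ N := by
  constructor
  · rintro h g hg _ ⟨n, hn, rfl⟩
    exact h g hg n hn
  · intro h g hg n hn
    exact h g hg ⟨n, hn, rfl⟩

/-- minimal nonzero invariant submodules -/
def Irr (ρ : Representation k Γ W) (H : Subgroup Γ) (N : Submodule k W) : Prop :=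
  N ≠ ⊥ ∧ IS ρ H N ∧ ∀ N' ≤ N, N' ≠ ⊥ → IS ρ H N' → N' = N

theorem exists_irr [FiniteDimensional k W] {ρ : Representation k Γ W} {H : Subgroup Γ}
    {N : Submodule k W} (h0 : N ≠ ⊥) (h1 : IS ρ H N) : ∃ S ≤ N, Irr ρ H S := by
  have hwf : WellFounded ((· < ·) : Submodule k W → Submodule k W → Prop) := wellFounded_lt
  obtain ⟨S, ⟨hS1, hS2, hS3⟩, hmin⟩ := hwf.has_min {S | S ≤ N ∧ S ≠ ⊥ ∧ IS ρ H S} ⟨N, le_rfl, h0, h1⟩
  refine ⟨S, hS1, hS2, hS3, fun N' hN' h2 h3 => ?_⟩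
  by_contra hne
  exact hmin N' ⟨hN'.trans hS1, h2, h3⟩ (lt_of_le_of_ne hN' hne)

/-- trivial action -/
def tr (ρ : Representation k Γ W) (S : Submodule k W) (g : Γ) : Prop := ∀ s ∈ S, ρ g s = s

theorem rho_mul (ρ : Representation k Γ W) (a b : Γ) (s : W) : ρ (a * b) s = ρ a (ρ b s) := by
  rw [map_mul]; rfl

theorem rho_inv (ρ : Representation k Γ W) (a : Γ) (s : W) : ρ a (ρ a⁻¹ s) = s := by
  rw [← rho_mul, mul_inv_cancel, map_one]; rfl

theorem rho_inv' (ρ : Representation k Γ W) (a : Γ) (s : W) : ρ a⁻¹ (ρ a s) = s := by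
  rw [← rho_mul, inv_mul_cancel, map_one]; rfl

theorem tr_mul {ρ : Representation k Γ W} {S : Submodule k W} {a b : Γ} (ha : tr ρ S a)
    (hb : tr ρ S b) : tr ρ S (a * b) := fun s hs => by rw [rho_mul, hb s hs, ha s hs]

theorem tr_one {ρ : Representation k Γ W} {S : Submodule k W} : tr ρ S 1 := fun s hs => by
  rw [map_one]; rfl

theorem tr_inv {ρ : Representation k Γ W} {S : Submodule k W} {a : Γ} (ha : tr ρ S a) :
    tr ρ S a⁻¹ := fun s hs => by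
  conv_lhs => rw [← ha s hs]
  exact rho_inv' ρ a s

theorem tr_map {ρ : Representation k Γ W} {S : Submodule k W} {g h : Γ} :
    tr ρ (S.map (ρ g)) h ↔ tr ρ S (g⁻¹ * h * g) := by
  constructor
  · intro H s hs
    rw [mul_assoc, rho_mul, rho_mul, H _ ⟨s, hs, rfl⟩, rho_inv']
  · rintro H _ ⟨s, hs, rfl⟩
    have h1 := H s hs
    rw [mul_assoc, rho_mul, rho_mul] at h1
    calc ρ h (ρ g s) = ρ g (ρ g⁻¹ (ρ h (ρ g s))) := (rho_inv ρ g _).symm
      _ = ρ g s := by rw [h1]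

/-- the subgroup of the elements acting trivially on `X` modulo the kernel of `S` -/
def Yg (ρ : Representation k Γ W) (H X : Subgroup Γ) (hX : Inv H X) (S : Submodule k W) :
    Subgroup Γ where
  carrier := {y | y ∈ H ∧ ∀ x ∈ X, tr ρ S (y * x * y⁻¹ * x⁻¹)}
  mul_mem' := by
    rintro y z ⟨hy, hy'⟩ ⟨hz, hz'⟩
    refine ⟨H.mul_mem hy hz, fun x hx => ?_⟩
    have h1 : y * z * x * (y * z)⁻¹ * x⁻¹ =
        (y * (z * x * z⁻¹) * y⁻¹ * (z * x * z⁻¹)⁻¹) * (z * x * z⁻¹ * x⁻¹) := by group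
    rw [h1]
    exact tr_mul (hy' _ (inv_mem hX hz hx)) (hz' x hx)
  one_mem' := ⟨H.one_mem, fun x hx => by simpa using tr_one⟩
  inv_mem' := by
    rintro y ⟨hy, hy'⟩
    refine ⟨H.inv_mem hy, fun x hx => ?_⟩
    have h1 : y⁻¹ * x * y⁻¹⁻¹ * x⁻¹ =
        (y * (y⁻¹ * x * y⁻¹⁻¹) * y⁻¹ * (y⁻¹ * x * y⁻¹⁻¹)⁻¹)⁻¹ := by group
    rw [h1]
    exact tr_inv (hy' _ (inv_mem hX (H.inv_mem hy) hx))

theorem mem_Yg {ρ : Representation k Γ W} {H X : Subgroup Γ} {hX : Inv H X} {S : Submodule k W}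
    {y : Γ} : y ∈ Yg ρ H X hX S ↔ y ∈ H ∧ ∀ x ∈ X, tr ρ S (y * x * y⁻¹ * x⁻¹) := Iff.rfl

theorem Yg_map {ρ : Representation k Γ W} {H X : Subgroup Γ} {hX : Inv H X} {S : Submodule k W}
    {g y : Γ} (hg : g ∈ H) : y ∈ Yg ρ H X hX (S.map (ρ g)) ↔ g⁻¹ * y * g ∈ Yg ρ H X hX S := by
  rw [mem_Yg, mem_Yg]
  constructor
  · rintro ⟨h1, h2⟩
    refine ⟨H.mul_mem (H.mul_mem (H.inv_mem hg) h1) hg, fun x hx => ?_⟩
    have h3 := h2 (g * x * g⁻¹) (inv_mem hX hg hx)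
    rw [tr_map] at h3
    have h4 : g⁻¹ * y * g * x * (g⁻¹ * y * g)⁻¹ * x⁻¹ =
      g⁻¹ * (y * (g * x * g⁻¹) * y⁻¹ * (g * x * g⁻¹)⁻¹) * g := by group
    rw [h4]
    exact h3
  · rintro ⟨h1, h2⟩
    refine ⟨?_, fun x hx => ?_⟩
    · have h3 := H.mul_mem (H.mul_mem hg h1) (H.inv_mem hg)
      have h4 : g * (g⁻¹ * y * g) * g⁻¹ = y := by group
      rwa [h4] at h3
    · rw [tr_map]
      have h3 := h2 (g⁻¹ * x * g⁻¹⁻¹) (inv_mem hX (H.inv_mem hg) hx)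
      have h4 : g⁻¹ * (y * x * y⁻¹ * x⁻¹) * g =
        g⁻¹ * y * g * (g⁻¹ * x * g⁻¹⁻¹) * (g⁻¹ * y * g)⁻¹ * (g⁻¹ * x * g⁻¹⁻¹)⁻¹ := by group
      rw [h4]
      exact h3

/-- `[X, v]` acts trivially on `S` -/
theorem cm_tr {ρ : Representation k Γ W} {H X : Subgroup Γ} {hX : Inv H X} {S : Submodule k W}
    {v : Γ} (hv : v ∈ H) : (∀ x ∈ cm X v, tr ρ S x) ↔ v ∈ Yg ρ H X hX S := by
  constructor
  · intro h
    refine ⟨hv, fun x hx => ?_⟩
    have h1 : v * x * v⁻¹ * x⁻¹ = (x * v * x⁻¹ * v⁻¹)⁻¹ := by group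
    rw [h1]
    refine tr_inv (h _ ?_)
    exact commutator_mem_commutator hx (mem_zpowers v)
  · intro h
    have hle : cm X v ≤
        { carrier := {x | tr ρ S x}
          mul_mem' := fun ha hb => tr_mul ha hb
          one_mem' := tr_one
          inv_mem' := fun ha => tr_inv ha : Subgroup Γ } := by
      unfold cm
      rw [commutator_le]
      rintro x hx _ ⟨n, rfl⟩
      change tr ρ S (x * v ^ n * x⁻¹ * (v ^ n)⁻¹)
      have h1 : x * v ^ n * x⁻¹ * (v ^ n)⁻¹ = (v ^ n * x * (v ^ n)⁻¹ * x⁻¹)⁻¹ := by group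
      rw [h1]
      exact tr_inv (((Yg ρ H X hX S).zpow_mem h n).2 x hx)
    exact fun x hx => hle hx

theorem irr_map {ρ : Representation k Γ W} {H X : Subgroup Γ} (hX : Inv H X) {S : Submodule k W}
    {g : Γ} (hg : g ∈ H) (hS : Irr ρ X S) : Irr ρ X (S.map (ρ g)) := by
  refine ⟨?_, ?_, ?_⟩
  · intro h
    apply hS.1
    rw [eq_bot_iff]
    intro s hs
    have h1 : ρ g s ∈ S.map (ρ g) := ⟨s, hs, rfl⟩
    rw [h, Submodule.mem_bot] at h1
    have h2 := rho_inv' ρ g s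
    rw [h1, map_zero] at h2
    rw [Submodule.mem_bot]
    exact h2.symm
  · rintro x hx _ ⟨s, hs, rfl⟩
    refine ⟨ρ (g⁻¹ * x * g⁻¹⁻¹) s, hS.2.1 _ (inv_mem hX (H.inv_mem hg) hx) s hs, ?_⟩
    rw [← rho_mul, ← rho_mul]
    congr 2
    group
  · intro N' hN' h0 h1
    have h2 : N'.map (ρ g⁻¹) = S := by
      apply hS.2.2
      · rintro _ ⟨n, hn, rfl⟩
        obtain ⟨s, hs, rfl⟩ := hN' hn
        rw [rho_inv']
        exact hs
      · intro h
        apply h0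
        rw [eq_bot_iff]
        intro s hs
        have h1 : ρ g⁻¹ s ∈ N'.map (ρ g⁻¹) := ⟨s, hs, rfl⟩
        rw [h, Submodule.mem_bot] at h1
        have h2 := rho_inv ρ g s
        rw [h1, map_zero] at h2
        rw [Submodule.mem_bot]
        exact h2.symm
      · rintro x hx _ ⟨s, hs, rfl⟩
        refine ⟨ρ (g * x * g⁻¹) s, h1 _ (inv_mem hX hg hx) s hs, ?_⟩
        rw [← rho_mul, ← rho_mul]
        congr 2
        group
    apply le_antisymm hN'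
    rintro _ ⟨s, hs, rfl⟩
    rw [← h2] at hs
    obtain ⟨n, hn, rfl⟩ := hs
    rw [rho_inv]
    exact hn

/-- the span of the images -/
def orb (ρ : Representation k Γ W) (H : Subgroup Γ) (S : Submodule k W) : Submodule k W :=
  Submodule.span k {w | ∃ h ∈ H, ∃ s ∈ S, w = ρ h s}

theorem orb_inv {ρ : Representation k Γ W} {H : Subgroup Γ} {S : Submodule k W} :
    IS ρ H (orb ρ H S) := by
  intro g hg n hn
  have h1 : orb ρ H S ≤ (orb ρ H S).comap (ρ g) := by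
    unfold orb
    rw [Submodule.span_le]
    rintro _ ⟨h, hh, s, hs, rfl⟩
    change ρ g (ρ h s) ∈ Submodule.span k {w | ∃ h ∈ H, ∃ s ∈ S, w = ρ h s}
    rw [← rho_mul]
    exact Submodule.subset_span ⟨g * h, H.mul_mem hg hh, s, hs, rfl⟩
  exact h1 hn

theorem le_orb {ρ : Representation k Γ W} {H : Subgroup Γ} {S : Submodule k W} :
    S ≤ orb ρ H S := fun s hs => Submodule.subset_span ⟨1, H.one_mem, s, hs, by rw [map_one]; rfl⟩

theorem orb_le {ρ : Representation k Γ W} {H : Subgroup Γ} {S N : Submodule k W} (h : S ≤ N)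
    (hN : IS ρ H N) : orb ρ H S ≤ N := by
  unfold orb
  rw [Submodule.span_le]
  rintro _ ⟨g, hg, s, hs, rfl⟩
  exact hN g hg s (h hs)

end rep

section main

variable {k : Type} [Field k] {W : Type} [AddCommGroup W] [Module k W] [FiniteDimensional k W]
  {Γ : Type} [Group Γ] [Finite Γ]

theorem cm_inv {p : ℕ} {V X : Subgroup Γ} (hV : ElAb p V) (hX : Inv V X) {v : Γ} (hv : v ∈ V) :
    Inv V (cm X v) := by
  refine inv_of fun w hw d hd => ?_
  have hle : cm X v ≤ (cm X v).comap (MulAut.conj w).toMonoidHom := by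
    unfold cm
    rw [commutator_le]
    rintro x hx _ ⟨n, rfl⟩
    rw [mem_comap]
    change w * (x * v ^ n * x⁻¹ * (v ^ n)⁻¹) * w⁻¹ ∈ _
    have hc : w * v ^ n = v ^ n * w := hV.comm w hw _ (V.zpow_mem hv n)
    have h1 : w * (x * v ^ n * x⁻¹ * (v ^ n)⁻¹) * w⁻¹ =
        (w * x * w⁻¹) * v ^ n * (w * x * w⁻¹)⁻¹ * (v ^ n)⁻¹ := by
      have hc' : (v ^ n)⁻¹ * w⁻¹ = w⁻¹ * (v ^ n)⁻¹ := by
        rw [← mul_inv_rev, hc, mul_inv_rev]
      have hc'' : w⁻¹ * v ^ n * w = v ^ n := by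
        rw [mul_assoc, ← hc, inv_mul_cancel_left]
      calc w * (x * v ^ n * x⁻¹ * (v ^ n)⁻¹) * w⁻¹ =
            w * x * v ^ n * x⁻¹ * ((v ^ n)⁻¹ * w⁻¹) := by group
        _ = w * x * (w⁻¹ * v ^ n * w) * x⁻¹ * (w⁻¹ * (v ^ n)⁻¹) := by rw [hc', hc'']
        _ = _ := by group
    rw [h1]
    exact commutator_mem_commutator (inv_mem hX hw hx) ⟨n, rfl⟩
  exact hle hd

theorem cm_le {V X : Subgroup Γ} (hX : Inv V X) {v : Γ} (hv : v ∈ V) : cm X v ≤ X := by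
  unfold cm
  rw [commutator_le]
  rintro x hx _ ⟨n, rfl⟩
  change x * v ^ n * x⁻¹ * (v ^ n)⁻¹ ∈ X
  have h1 : x * v ^ n * x⁻¹ * (v ^ n)⁻¹ = x * (v ^ n * x⁻¹ * (v ^ n)⁻¹) := by group
  rw [h1]
  exact X.mul_mem hx (inv_mem hX (V.zpow_mem hv n) (X.inv_mem hx))

/-- `[X, v]` is normal in `X` -/
theorem cm_normal {V X : Subgroup Γ} (hX : Inv V X) {v : Γ} (hv : v ∈ V) : Inv X (cm X v) := by
  refine inv_of fun y hy d hd => ?_
  have hle : cm X v ≤ (cm X v).comap (MulAut.conj y).toMonoidHom := by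
    unfold cm
    rw [commutator_le]
    rintro x hx _ ⟨n, rfl⟩
    rw [mem_comap]
    change y * (x * v ^ n * x⁻¹ * (v ^ n)⁻¹) * y⁻¹ ∈ _
    have h1 : y * (x * v ^ n * x⁻¹ * (v ^ n)⁻¹) * y⁻¹ =
        ⁅y * x, v ^ n⁆ * ⁅y, v ^ n⁆⁻¹ := by
      rw [commutatorElement_def, commutatorElement_def]
      group
    rw [h1]
    exact mul_mem (commutator_mem_commutator (X.mul_mem hy hx) ⟨n, rfl⟩)
      (inv_mem_iff.2 (commutator_mem_commutator hy ⟨n, rfl⟩))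
  exact hle hd

/-- step 1 -/
theorem step1 {ρ : Representation k Γ W} {p : ℕ} {V I X : Subgroup Γ} {N S : Submodule k W}
    (hV : ElAb p V) (hI : I ≤ V) (hX : Inv V X) (hXk : ((Nat.card X : ℕ) : k) ≠ 0)
    (hN : IS ρ (X ⊔ I) N) (hSN : S ≤ N) (hS : Irr ρ X S)
    (hyp : ∀ N₁ : Submodule k W, N₁ ≤ N → N₁ ≠ ⊥ → (∀ g ∈ X ⊔ I, N₁.map (ρ g) ≤ N₁) →
    (∀ N' : Submodule k W, N' ≤ N₁ → N' ≠ ⊥ → (∀ g ∈ X ⊔ I, N'.map (ρ g) ≤ N') → N' = N₁) →
    ∃ v ∈ I, v ≠ 1 ∧ ∀ x ∈ cm X v, ∀ n ∈ N₁, ρ x n = n) :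
    ∃ v ∈ I, v ≠ 1 ∧ ∀ x ∈ cm X v, tr ρ S x := by
  classical
  have hIX : Inv I X := fun w hw => hX (hI hw)
  set M := orb ρ I S with hM
  have hMI : IS ρ (X ⊔ I) M := by
    intro g hg n hn
    obtain ⟨x, hx, w, hw, rfl⟩ := mem_mul hIX hg
    rw [rho_mul]
    have h1 : ρ w n ∈ M := orb_inv w hw n hn
    have h2 : M ≤ M.comap (ρ x) := by
      rw [hM]
      conv_lhs => unfold orb
      rw [Submodule.span_le]
      rintro _ ⟨w', hw', s, hs, rfl⟩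
      change ρ x (ρ w' s) ∈ orb ρ I S
      refine Submodule.subset_span ⟨w', hw', ρ (w'⁻¹ * x * w'⁻¹⁻¹) s,
        hS.2.1 _ (inv_mem hIX (I.inv_mem hw') hx) s hs, ?_⟩
      rw [← rho_mul, ← rho_mul]
      congr 2
      group
    exact h2 h1
  have hMN : M ≤ N := orb_le hSN (fun g hg => hN g (le_sup_right (a := X) hg))
  have hM0 : M ≠ ⊥ := by
    intro h
    apply hS.1
    rw [eq_bot_iff, ← h]
    exact le_orb
  obtain ⟨N₁, hN₁M, hN₁⟩ := exists_irr hM0 hMI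
  obtain ⟨v, hv, hv1, hvt⟩ := hyp N₁ (hN₁M.trans hMN) hN₁.1 (IS_iff.1 hN₁.2.1)
    (fun N' h1 h2 h3 => hN₁.2.2 N' h1 h2 (IS_iff.2 h3))
  refine ⟨v, hv, hv1, ?_⟩
  have hDX : cm X v ≤ X := cm_le hX (hI hv)
  have hDn : Inv X (cm X v) := cm_normal hX (hI hv)
  have hDV : Inv V (cm X v) := cm_inv hV hX (hI hv)
  -- fixed points of `D` on `S`
  let F : Submodule k W :=
    { carrier := {s | s ∈ S ∧ ∀ d ∈ cm X v, ρ d s = s}
      add_mem' := by
        rintro a b ⟨ha, ha'⟩ ⟨hb, hb'⟩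
        exact ⟨S.add_mem ha hb, fun d hd => by rw [map_add, ha' d hd, hb' d hd]⟩
      zero_mem' := ⟨S.zero_mem, fun d _ => map_zero _⟩
      smul_mem' := by
        rintro c a ⟨ha, ha'⟩
        exact ⟨S.smul_mem c ha, fun d hd => by rw [map_smul, ha' d hd]⟩ }
  have hFS : F ≤ S := fun s hs => hs.1
  have hFX : IS ρ X F := by
    rintro x hx s ⟨hs, hs'⟩
    refine ⟨hS.2.1 x hx s hs, fun d hd => ?_⟩
    have h1 := hs' _ (inv_mem hDn (X.inv_mem hx) hd)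
    have h2 : ρ d (ρ x s) = ρ x (ρ (x⁻¹ * d * x⁻¹⁻¹) s) := by
      rw [← rho_mul, ← rho_mul]
      congr 2
      group
    rw [h2, h1]
  by_cases hF0 : F = ⊥
  · exfalso
    have hfin : Fintype (cm X v) := Fintype.ofFinite _
    let T : W →ₗ[k] W := ∑ d : cm X v, ρ (d : Γ)
    have hTapp : ∀ s, T s = ∑ d : cm X v, ρ (d : Γ) s := by
      intro s
      simp only [T, LinearMap.sum_apply]
    have hTd : ∀ e ∈ cm X v, ∀ s, ρ e (T s) = T s := by
      intro e he s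
      rw [hTapp, map_sum]
      refine Fintype.sum_equiv (Equiv.mulLeft ⟨e, he⟩) _ _ ?_
      intro d
      rw [← rho_mul]
      rfl
    have hTS : ∀ s ∈ S, T s = 0 := by
      intro s hs
      have h1 : T s ∈ F := by
        refine ⟨?_, fun e he => hTd e he s⟩
        rw [hTapp]
        exact S.sum_mem fun d _ => hS.2.1 _ (hDX d.2) s hs
      rw [hF0, Submodule.mem_bot] at h1
      exact h1
    have hTM : M ≤ LinearMap.ker T := by
      rw [hM]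
      unfold orb
      rw [Submodule.span_le]
      rintro _ ⟨w, hw, s, hs, rfl⟩
      change T (ρ w s) = 0
      have h2 : T (ρ w s) = ρ w (T s) := by
        rw [hTapp, hTapp, map_sum]
        refine Fintype.sum_equiv
          (Equiv.mk (fun d : cm X v => (⟨w⁻¹ * d * w⁻¹⁻¹,
              inv_mem hDV (V.inv_mem (hI hw)) d.2⟩ : cm X v))
            (fun d => ⟨w * d * w⁻¹, inv_mem hDV (hI hw) d.2⟩)
            (fun d => by apply Subtype.ext; simp only; group)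
            (fun d => by apply Subtype.ext; simp only; group)) _ _ ?_
        intro d
        simp only [Equiv.coe_fn_mk]
        rw [← rho_mul, ← rho_mul]
        congr 2
        group
      rw [h2, hTS s hs, map_zero]
    obtain ⟨n, hn, hn0⟩ := Submodule.exists_mem_ne_zero_of_ne_bot hN₁.1
    have h3 : T n = 0 := hTM (hN₁M hn)
    have h4 : T n = ((Nat.card (cm X v) : ℕ) : k) • n := by
      rw [hTapp, Finset.sum_congr rfl fun d _ => hvt _ d.2 n hn, Finset.sum_const,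
        Finset.card_univ, ← Nat.card_eq_fintype_card, Nat.cast_smul_eq_nsmul]
    have h5 : ((Nat.card (cm X v) : ℕ) : k) ≠ 0 := by
      obtain ⟨c, hc⟩ := Subgroup.card_dvd_of_le hDX
      intro h
      apply hXk
      rw [hc, Nat.cast_mul, h, zero_mul]
    rw [h4] at h3
    rcases smul_eq_zero.1 h3 with h | h
    · exact h5 h
    · exact hn0 h
  · have h1 := hS.2.2 F hFS hF0 hFX
    intro d hd s hs
    rw [← h1] at hs
    exact hs.2 d hd

end main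

end B3a

open D6 B3a in
theorem b3a (hFix : StmtFix) (hRO : StmtRO) : StmtKer := by
  intro k _ _ W _ _ _ Γ _ _ ρ p V R I X N hV hVR hpR hRs hIV hXR hRX hVX hXk hN0 hNI hNmin hyp
  have hIR : Inv I R := fun w hw => hVR (hIV hw)
  have hHX : Inv (R ⊔ I) X := sup_le hRX (fun w hw => hVX (hIV hw))
  have hHR : Inv (R ⊔ I) R := sup_le le_normalizer hIR
  have hXH : X ⊔ I ≤ R ⊔ I := sup_le_sup_right hXR I
  have hNIS : IS ρ (R ⊔ I) N := IS_iff.2 hNI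
  have hNX : IS ρ (X ⊔ I) N := fun g hg => hNIS g (hXH hg)
  have hNX' : IS ρ X N := fun g hg => hNIS g (hXH (le_sup_left (a := X) hg))
  obtain ⟨S₀, hS₀N, hS₀⟩ := exists_irr hN0 hNX'
  obtain ⟨g₀, hg₀, hdec⟩ := decomp hV hIV hIR hpR
    (show Yg ρ (R ⊔ I) X hHX S₀ ≤ R ⊔ I from fun y hy => hy.1)
  set S := S₀.map (ρ g₀⁻¹) with hS
  have hg₀' : g₀⁻¹ ∈ R ⊔ I := (R ⊔ I).inv_mem hg₀
  have hSirr : Irr ρ X S := irr_map hHX hg₀' hS₀
  have hSN : S ≤ N := by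
    rintro _ ⟨s, hs, rfl⟩
    exact hNIS _ hg₀' s (hS₀N hs)
  set Y := Yg ρ (R ⊔ I) X hHX S with hY
  -- `Y = T P`
  have hYdec : ∀ y ∈ Y, ∃ t ∈ R, t ∈ Y ∧ ∃ w ∈ I, w ∈ Y ∧ y = t * w := by
    intro y hy
    have h1 : g₀⁻¹⁻¹ * y * g₀⁻¹ ∈ Yg ρ (R ⊔ I) X hHX S₀ := (Yg_map hg₀').1 hy
    obtain ⟨t, ht, htY, q, hqY, hqI, e⟩ := hdec _ h1
    have h2 : ∀ z, z ∈ Yg ρ (R ⊔ I) X hHX S₀ → g₀⁻¹ * z * g₀⁻¹⁻¹ ∈ Y := by
      intro z hz
      rw [hY, hS, Yg_map hg₀']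
      have : g₀⁻¹⁻¹ * (g₀⁻¹ * z * g₀⁻¹⁻¹) * g₀⁻¹ = z := by group
      rw [this]
      exact hz
    refine ⟨g₀⁻¹ * t * g₀⁻¹⁻¹, inv_mem hHR hg₀' ht, h2 t htY, g₀⁻¹ * q * g₀⁻¹⁻¹, ?_, h2 q hqY, ?_⟩
    · rw [inv_inv]; exact hqI
    · have h3 : y = g₀⁻¹ * (g₀⁻¹⁻¹ * y * g₀⁻¹) * g₀⁻¹⁻¹ := by group
      rw [h3, e]
      group
  -- regular orbits
  have hP : ElAb p (Y ⊓ I : Subgroup Γ) :=
    ⟨hV.prime, fun v hv => hV.exp v (hIV hv.2), fun v hv w hw => hV.comm v (hIV hv.2) w (hIV hw.2)⟩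
  have hPT : Inv (Y ⊓ I) (Y ⊓ R) := by
    refine inv_of fun v hv t ht => ⟨?_, ?_⟩
    · exact Y.mul_mem (Y.mul_mem hv.1 ht.1) (Y.inv_mem hv.1)
    · exact inv_mem hIR hv.2 ht.2
  obtain ⟨g, hg, hreg⟩ := hRO Γ p (Y ⊓ I) R (Y ⊓ R) hP (fun v hv => hIR hv.2) hpR hRs inf_le_right
    hPT
  have hgH : g ∈ R ⊔ I := le_sup_left (a := R) hg
  obtain ⟨v, hv, hv1, hvt⟩ := step1 hV hIV hVX hXk hNX
    (show S.map (ρ g) ≤ N by
      rintro _ ⟨s, hs, rfl⟩
      exact hNIS _ hgH s (hSN hs)) (irr_map hHX hgH hSirr) hyp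
  have hvH : v ∈ R ⊔ I := le_sup_right (a := R) hv
  have h1 : g⁻¹ * v * g ∈ Y := (Yg_map hgH).1 ((cm_tr (hX := hHX) hvH).1 hvt)
  obtain ⟨t, ht, htY, w, hw, hwY, e⟩ := hYdec _ h1
  have hvw : v = w := by
    have h2 : v * w⁻¹ = g * t * (w * g⁻¹ * w⁻¹) := by
      have : v = g * (g⁻¹ * v * g) * g⁻¹ := by group
      rw [this, e]
      group
    have h3 : v * w⁻¹ = 1 := by
      refine inter_triv hV hIV hpR (I.mul_mem hv (I.inv_mem hw)) ?_
      rw [h2]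
      exact R.mul_mem (R.mul_mem hg ht) (inv_mem hIR hw (R.inv_mem hg))
    exact mul_inv_eq_one.1 h3
  subst hvw
  have h4 : g⁻¹ * (v * g * v⁻¹) ∈ Y ⊓ R := by
    have : g⁻¹ * (v * g * v⁻¹) = t := by
      calc g⁻¹ * (v * g * v⁻¹) = (g⁻¹ * v * g) * v⁻¹ := by group
        _ = t := by rw [e]; group
    rw [this]
    exact ⟨htY, ht⟩
  have h5 := hreg v ⟨hwY, hv⟩ h4
  refine ⟨v, hv, hv1, ?_⟩
  -- `D` is trivial on all `ρ x S`
  have h6 : ∀ x ∈ R, ∀ d ∈ cm X v, tr ρ (S.map (ρ x)) d := by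
    intro x hx
    have hxH : x ∈ R ⊔ I := le_sup_left (a := R) hx
    rw [cm_tr (hX := hHX) hvH, Yg_map hxH]
    have h7 := (h5 x hx).1
    have h8 : x⁻¹ * v * x = x⁻¹ * (v * x * v⁻¹) * v := by group
    rw [h8]
    exact Y.mul_mem h7 hwY
  have hDV : Inv V (cm X v) := cm_inv hV hVX (hIV hv)
  let Fx : Submodule k W :=
    { carrier := {s | ∀ d ∈ cm X v, ρ d s = s}
      add_mem' := by
        rintro a b ha hb
        exact fun d hd => by rw [map_add, ha d hd, hb d hd]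
      zero_mem' := fun d _ => map_zero _
      smul_mem' := by
        rintro c a ha
        exact fun d hd => by rw [map_smul, ha d hd] }
  have hle : orb ρ (R ⊔ I) S ≤ Fx := by
    unfold orb
    rw [Submodule.span_le]
    rintro _ ⟨h, hh, s, hs, rfl⟩ d hd
    obtain ⟨w, hw, x, hx, rfl⟩ := mem_mul' hIR hh
    have h9 := h6 x hx _ (inv_mem hDV (V.inv_mem (hIV hw)) hd) (ρ x s) ⟨s, hs, rfl⟩
    have h10 : ρ d (ρ (w * x) s) = ρ w (ρ (w⁻¹ * d * w⁻¹⁻¹) (ρ x s)) := by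
      rw [← rho_mul, ← rho_mul, ← rho_mul]
      congr 2
      group
    rw [h10, h9, rho_mul]
  have horb : orb ρ (R ⊔ I) S = N := by
    apply hNmin
    · exact orb_le hSN hNIS
    · intro h
      apply hSirr.1
      rw [eq_bot_iff, ← h]
      exact le_orb
    · exact IS_iff.1 orb_inv
  intro x hx n hn
  rw [← horb] at hn
  exact hle hn x hx

end Pool.Agent.T6.H88.FP
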