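import Pool.Agent.T6.H88.FP.Defs

/-! Module B4 of the project FP (MP_e56c9f_al): descent to the prime field. -/

set_option autoImplicit false

namespace Pool.Agent.T6.H88.FP.B4

open Subgroup TensorProduct

section desc

variable {r : ℕ} [Fact r.Prime] {U : Type} [AddCommGroup U] [Module (ZMod r) U]
variable (k : Type) [Field k] [Algebra (ZMod r) k]

/-- base change representation -/
noncomputable def rho : Representation k (U ≃ₗ[ZMod r] U) (k ⊗[ZMod r] U) where
  toFun g := LinearMap.baseChange k (g : U →ₗ[ZMod r] U)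
  map_one' := by
    show LinearMap.baseChange k (LinearMap.id : U →ₗ[ZMod r] U) = LinearMap.id
    exact LinearMap.baseChange_id
  map_mul' g h := by
    show LinearMap.baseChange k ((g : U →ₗ[ZMod r] U) ∘ₗ (h : U →ₗ[ZMod r] U)) = _
    rw [LinearMap.baseChange_comp]
    rfl

variable {k}

/-- `c ⊗ u ↦ ℓ c • u` -/
noncomputable def T (l : k →ₗ[ZMod r] ZMod r) : k ⊗[ZMod r] U →ₗ[ZMod r] U :=
  (TensorProduct.lid (ZMod r) U : ZMod r ⊗[ZMod r] U →ₗ[ZMod r] U) ∘ₗ (LinearMap.rTensor U l)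

lemma T_tmul (l : k →ₗ[ZMod r] ZMod r) (c : k) (u : U) : T l (c ⊗ₜ[ZMod r] u) = l c • u := by
  simp [T]

lemma T_rho (l : k →ₗ[ZMod r] ZMod r) (g : U ≃ₗ[ZMod r] U) (w : k ⊗[ZMod r] U) :
    T l (rho k g w) = g (T l w) := by
  induction w using TensorProduct.induction_on with
  | zero => simp
  | tmul c u =>
    have : rho k g (c ⊗ₜ[ZMod r] u) = c ⊗ₜ[ZMod r] (g u) := rfl
    rw [this, T_tmul, T_tmul, map_smul]
  | add a b ha hb => rw [map_add, map_add, map_add, map_add, ha, hb]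

lemma sep (w : k ⊗[ZMod r] U) [Module.Finite (ZMod r) U]
    (h : ∀ l : k →ₗ[ZMod r] ZMod r, T l w = 0) : w = 0 := by
  classical
  let b := Module.finBasis (ZMod r) U
  let B := Algebra.TensorProduct.basis k b
  have hw : w = ∑ j, (B.repr w j) ⊗ₜ[ZMod r] (b j) := by
    conv_lhs => rw [← B.sum_repr w]
    refine Finset.sum_congr rfl fun j _ => ?_
    rw [Algebra.TensorProduct.basis_apply, TensorProduct.smul_tmul', smul_eq_mul, mul_one]
  have hc : ∀ j, B.repr w j = 0 := by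
    intro j
    rw [← Module.forall_dual_apply_eq_zero_iff (ZMod r)]
    intro l
    have h1 := h l
    rw [hw, map_sum] at h1
    simp only [T_tmul] at h1
    exact (Fintype.linearIndependent_iff.1 b.linearIndependent) (fun j => l (B.repr w j)) h1 j
  rw [hw]
  refine Finset.sum_eq_zero fun j _ => ?_
  rw [hc j, TensorProduct.zero_tmul]

/-- an invariant subgroup with a nonzero fixed vector is trivial -/
lemma triv (V R : Subgroup (U ≃ₗ[ZMod r] U))
    (hirr : ∀ N : Submodule (ZMod r) U, (∀ g ∈ R ⊔ V, ∀ n ∈ N, g n ∈ N) → N = ⊥ ∨ N = ⊤)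
    (X : Subgroup (U ≃ₗ[ZMod r] U)) (hX : R ⊔ V ≤ normalizer (X : Set (U ≃ₗ[ZMod r] U)))
    (u : U) (hu : u ≠ 0) (hf : ∀ x ∈ X, x u = u) : X = ⊥ := by
  let F : Submodule (ZMod r) U :=
    { carrier := {u | ∀ x ∈ X, x u = u}
      add_mem' := by
        intro a c ha hc x hx
        rw [map_add, ha x hx, hc x hx]
      zero_mem' := by
        intro x _
        exact map_zero x
      smul_mem' := by
        intro c a ha x hx
        rw [map_smul, ha x hx] }
  have hF : F = ⊥ ∨ F = ⊤ := by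
    apply hirr
    intro g hg n hn x hx
    have h1 : g⁻¹ * x * g ∈ X := by
      have h2 := (mem_normalizer_iff.1 (hX (inv_mem hg)) x).1 hx
      rwa [inv_inv] at h2
    have h3 := hn _ h1
    have h4 : g ((g⁻¹ * x * g) n) = x (g n) := by
      have : g * (g⁻¹ * x * g) = x * g := by group
      exact congrArg (fun e : U ≃ₗ[ZMod r] U => e n) this
    rw [← h4, h3]
  rcases hF with hF | hF
  · exfalso
    apply hu
    have : u ∈ F := hf
    rw [hF] at this
    exact (Submodule.mem_bot _).1 this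
  · rw [eq_bot_iff]
    intro x hx
    rw [mem_bot]
    ext w
    have : w ∈ F := by rw [hF]; exact Submodule.mem_top
    exact this x hx

end desc

/-- maximal normal `s`-subgroup -/
lemma core_aux {Γ : Type} [Group Γ] [Finite Γ] (s : ℕ) (V R : Subgroup Γ) (hVR : Inv V R) :
    ∃ M : Subgroup Γ, M ≤ R ∧ Inv R M ∧ IsPGroup s M ∧ Inv V M ∧ core s R ≤ M := by
  classical
  let S : Set (Subgroup Γ) := {N | N ≤ R ∧ Inv R N ∧ IsPGroup s N}
  have hS0 : (⊥ : Subgroup Γ) ∈ S := by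
    refine ⟨bot_le, ?_, IsPGroup.of_bot⟩
    intro g _
    rw [mem_normalizer_iff]
    intro h
    simp
  obtain ⟨M, hM, hmax⟩ := Set.exists_max_image S (fun N => Nat.card N) (Set.toFinite S) ⟨_, hS0⟩
  have hle : ∀ N ∈ S, N ≤ M := by
    intro N hN
    have h1 : M ⊔ N ∈ S := by
      refine ⟨sup_le hM.1 hN.1, ?_, ?_⟩
      · intro g hg
        have e : ∀ g ∈ R, ∀ h ∈ M ⊔ N, g * h * g⁻¹ ∈ M ⊔ N := by
          intro g hg h hh
          have h2 : (M ⊔ N).map (MulAut.conj g).toMonoidHom ≤ M ⊔ N := by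
            rw [Subgroup.map_sup]
            refine sup_le_sup ?_ ?_
            · rintro _ ⟨m, hm, rfl⟩
              exact (mem_normalizer_iff.1 (hM.2.1 hg) m).1 hm
            · rintro _ ⟨m, hm, rfl⟩
              exact (mem_normalizer_iff.1 (hN.2.1 hg) m).1 hm
          exact h2 ⟨h, hh, rfl⟩
        rw [mem_normalizer_iff]
        intro h
        refine ⟨e g hg h, fun hh => ?_⟩
        have := e g⁻¹ (inv_mem hg) _ hh
        have e2 : g⁻¹ * (g * h * g⁻¹) * g⁻¹⁻¹ = h := by group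
        rwa [e2] at this
      · exact hM.2.2.to_sup_of_normal_right' hN.2.2 (hM.1.trans hN.2.1)
    have h2 := hmax _ h1
    have h3 : M = M ⊔ N := Subgroup.eq_of_le_of_card_ge le_sup_left h2
    rw [h3]
    exact le_sup_right
  refine ⟨M, hM.1, hM.2.1, hM.2.2, ?_, sSup_le hle⟩
  have e : ∀ v ∈ V, ∀ m ∈ M, v * m * v⁻¹ ∈ M := by
    intro v hv
    have h1 : M.map (MulAut.conj v).toMonoidHom ∈ S := by
      refine ⟨?_, ?_, ?_⟩
      · rintro _ ⟨m, hm, rfl⟩
        exact (mem_normalizer_iff.1 (hVR hv) m).1 (hM.1 hm)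
      · have e3 : ∀ g ∈ R, ∀ h ∈ M.map (MulAut.conj v).toMonoidHom,
            g * h * g⁻¹ ∈ M.map (MulAut.conj v).toMonoidHom := by
          rintro g hg _ ⟨m, hm, rfl⟩
          have hg' : v⁻¹ * g * v⁻¹⁻¹ ∈ R := (mem_normalizer_iff.1 (hVR (inv_mem hv)) g).1 hg
          refine ⟨(v⁻¹ * g * v⁻¹⁻¹) * m * (v⁻¹ * g * v⁻¹⁻¹)⁻¹,
            (mem_normalizer_iff.1 (hM.2.1 hg') m).1 hm, ?_⟩
          simp only [MulEquiv.toMonoidHom_eq_coe, MonoidHom.coe_coe, MulAut.conj_apply]
          group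
        intro g hg
        rw [mem_normalizer_iff]
        intro h
        refine ⟨e3 g hg h, fun hh => ?_⟩
        have := e3 g⁻¹ (inv_mem hg) _ hh
        have e2 : g⁻¹ * (g * h * g⁻¹) * g⁻¹⁻¹ = h := by group
        rwa [e2] at this
      · exact hM.2.2.map _
    intro m hm
    exact hle _ h1 ⟨m, hm, rfl⟩
  intro v hv
  rw [mem_normalizer_iff]
  intro h
  refine ⟨e v hv h, fun hh => ?_⟩
  have := e v⁻¹ (inv_mem hv) _ hh
  have e2 : v⁻¹ * (v * h * v⁻¹) * v⁻¹⁻¹ = h := by group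
  rwa [e2] at this

end Pool.Agent.T6.H88.FP.B4

namespace Pool.Agent.T6.H88.FP

open Subgroup TensorProduct B4
open scoped commutatorElement

theorem b4 (hNS : StmtNS) : StmtStar := by
  classical
  intro r p hr U _ _ _ _ V R hE hVR hcen hsol hirr hfix
  have hRR : R ≤ normalizer (R : Set (U ≃ₗ[ZMod r] U)) := le_normalizer
  have hRV : R ⊔ V ≤ normalizer (R : Set (U ≃ₗ[ZMod r] U)) := sup_le hRR hVR
  haveI : Finite (U ≃ₗ[ZMod r] U) :=
    Finite.of_injective (fun e : U ≃ₗ[ZMod r] U => (e : U → U)) DFunLike.coe_injective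
  haveI : Module.Finite (ZMod r) U := Module.Finite.of_finite
  let k := AlgebraicClosure (ZMod r)
  haveI : CharP k r := charP_of_injective_algebraMap (algebraMap (ZMod r) k).injective r
  let ρ : Representation k (U ≃ₗ[ZMod r] U) (k ⊗[ZMod r] U) := rho k
  have hWn : ∃ w : k ⊗[ZMod r] U, w ≠ 0 := by
    obtain ⟨u, hu⟩ := exists_ne (0 : U)
    refine ⟨(1 : k) ⊗ₜ[ZMod r] u, fun h0 => ?_⟩
    have h1 : ∀ l : k →ₗ[ZMod r] ZMod r, l 1 = 0 := by
      intro l
      have h2 := T_tmul l (1 : k) u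
      rw [h0, map_zero] at h2
      exact (smul_eq_zero.1 h2.symm).resolve_right hu
    have h3 : (1 : k) = 0 := (Module.forall_dual_apply_eq_zero_iff (ZMod r) (1 : k)).1 h1
    exact one_ne_zero h3
  -- minimal submodule
  let S : Set (Submodule k (k ⊗[ZMod r] U)) := {N | N ≠ ⊥ ∧ ∀ g ∈ R ⊔ V, N.map (ρ g) ≤ N}
  have hSne : S.Nonempty := by
    refine ⟨⊤, ?_, fun g _ => le_top⟩
    obtain ⟨w, hw⟩ := hWn
    intro h
    have : w ∈ (⊤ : Submodule k (k ⊗[ZMod r] U)) := Submodule.mem_top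
    rw [h] at this
    exact hw ((Submodule.mem_bot _).1 this)
  obtain ⟨N, ⟨hN0, hNinv⟩, hNmin⟩ := (wellFounded_lt (α := Submodule k (k ⊗[ZMod r] U))).has_min S hSne
  have hNinv' : ∀ g ∈ R ⊔ V, ∀ n ∈ N, ρ g n ∈ N := fun g hg n hn =>
    hNinv g hg (Submodule.mem_map_of_mem hn)
  obtain ⟨w, hwN, hw0⟩ := (Submodule.ne_bot_iff N).1 hN0
  -- the kernel
  let Y : Subgroup (U ≃ₗ[ZMod r] U) :=
    { carrier := {x | x ∈ R ∧ ∀ n ∈ N, ρ x n = n}
      mul_mem' := by
        rintro a c ⟨ha, ha'⟩ ⟨hc, hc'⟩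
        refine ⟨mul_mem ha hc, fun n hn => ?_⟩
        rw [map_mul, Module.End.mul_apply, hc' n hn, ha' n hn]
      one_mem' := ⟨one_mem _, fun n _ => by rw [map_one, Module.End.one_apply]⟩
      inv_mem' := by
        rintro a ⟨ha, ha'⟩
        refine ⟨inv_mem ha, fun n hn => ?_⟩
        conv_lhs => rw [← ha' n hn]
        rw [← Module.End.mul_apply, ← map_mul, inv_mul_cancel, map_one, Module.End.one_apply] }
  have hYmem : ∀ x, x ∈ Y ↔ (x ∈ R ∧ ∀ n ∈ N, ρ x n = n) := fun x => Iff.rfl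
  have hYn : R ⊔ V ≤ normalizer (Y : Set (U ≃ₗ[ZMod r] U)) := by
    have e : ∀ g ∈ R ⊔ V, ∀ x ∈ Y, g * x * g⁻¹ ∈ Y := by
      rintro g hg x ⟨hx, hx'⟩
      refine ⟨(mem_normalizer_iff.1 (hRV hg) x).1 hx, fun n hn => ?_⟩
      rw [map_mul, map_mul, Module.End.mul_apply, Module.End.mul_apply,
        hx' _ (hNinv' _ (inv_mem hg) n hn), ← Module.End.mul_apply, ← map_mul, mul_inv_cancel,
        map_one, Module.End.one_apply]
    intro g hg
    rw [mem_normalizer_iff]
    intro h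
    refine ⟨e g hg h, fun hh => ?_⟩
    have := e g⁻¹ (inv_mem hg) _ hh
    have e2 : g⁻¹ * (g * h * g⁻¹) * g⁻¹⁻¹ = h := by group
    rwa [e2] at this
  have hY : Y = ⊥ := by
    obtain ⟨l, hl⟩ : ∃ l : k →ₗ[ZMod r] ZMod r, T l w ≠ 0 := by
      by_contra hcon
      exact hw0 (sep w fun l => by_contra fun hl => hcon ⟨l, hl⟩)
    refine triv V R hirr Y hYn (T l w) hl ?_
    intro x hx
    rw [← T_rho]
    congr 1
    exact hx.2 w hwN
  -- core
  have hcore : ∀ s : ℕ, s.Prime → (s : k) = 0 → core s R = ⊥ := by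
    intro s hs hs0
    have hsr : s = r := by
      have h1 := (CharP.cast_eq_zero_iff k r s).1 hs0
      exact ((Nat.prime_dvd_prime_iff_eq hr.out hs).1 h1).symm
    subst hsr
    obtain ⟨M, hMR, hRM, hMp, hVM, hle⟩ := core_aux s V R hVR
    have hM : M = ⊥ := by
      have hd : s ∣ Nat.card U := by
        rw [Module.natCard_eq_pow_finrank (K := ZMod s) (V := U), Nat.card_zmod]
        exact dvd_pow_self s (Module.finrank_pos (R := ZMod s) (M := U)).ne'
      obtain ⟨u, hu, hu0⟩ := hMp.exists_fixed_point_of_prime_dvd_card_of_fixed_point U hd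
        (a := (0 : U)) (by intro m; exact smul_zero m)
      refine triv V R hirr M (sup_le hRM hVM) u (fun h => hu0 h.symm) ?_
      intro x hx
      exact hu ⟨x, hx⟩
    rw [eq_bot_iff, ← hM]
    exact hle
  have key := hNS k (k ⊗[ZMod r] U) (U ≃ₗ[ZMod r] U) ρ p V R V N hE hVR hcen hsol hcore le_rfl ?_
    hN0 hNinv ?_ ?_
  · obtain ⟨v, hv, hv1, hcm⟩ := key
    refine ⟨v, hv, hv1, fun g hg => ?_⟩
    have hcR : cm R v ≤ R := by
      unfold cm
      rw [commutator_le]
      intro a ha c hc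
      have hcV : c ∈ V := by
        have : zpowers v ≤ V := by rwa [zpowers_le]
        exact this hc
      have h1 : c * a⁻¹ * c⁻¹ ∈ R := (mem_normalizer_iff.1 (hVR hcV) a⁻¹).1 (inv_mem ha)
      have h2 : ⁅a, c⁆ = a * (c * a⁻¹ * c⁻¹) := by
        rw [commutatorElement_def]; group
      rw [h2]
      exact mul_mem ha h1
    have h1 : ⁅g, v⁆ ∈ cm R v := commutator_mem_commutator hg (mem_zpowers v)
    have h2 : ⁅g, v⁆ ∈ Y := ⟨hcR h1, fun n hn => hcm _ h1 n hn⟩
    rw [hY, mem_bot, commutatorElement_eq_one_iff_mul_comm] at h2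
    exact h2.symm
  · intro x hx hx'
    have : x ∈ Y := by
      refine ⟨hx, fun n hn => ?_⟩
      have := hx' 1 (one_mem _) n hn
      simpa using this
    rw [hY, mem_bot] at this
    exact this
  · intro N' hN' hN'0 hN'inv
    by_contra hne
    exact hNmin N' ⟨hN'0, hN'inv⟩ (lt_of_le_of_ne hN' hne)
  · intro n hn hv
    apply sep n
    intro l
    apply hfix
    intro v hvV
    rw [← T_rho]
    congr 1
    exact hv v hvV

end Pool.Agent.T6.H88.FP
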