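import Pool.Agent.T6.H88.FP.Tools

/-! # Project FP, module B6: the soluble case of the problem -/

namespace Pool.Agent.T6.H88.FP

open Subgroup

namespace ModB6

variable {Γ : Type} [Group Γ]

lemma cm_le {G : Subgroup Γ} {v : Γ} (h : Inv (zpowers v) G) : cm G v ≤ G := by
  unfold cm
  rw [commutator_le]
  intro g hg w hw
  rw [commutatorElement_def, mul_assoc, mul_assoc, ← mul_assoc w]
  exact mul_mem hg (inv_iff.1 h w hw _ (inv_mem hg))

lemma inv_bot (X : Subgroup Γ) : Inv X (⊥ : Subgroup Γ) := by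
  rw [inv_iff]
  intro v _ x hx
  rw [mem_bot] at *
  rw [hx, mul_one, mul_inv_cancel]

/-- the map `X ↦ [X, H]` -/
def br (H : Subgroup Γ) (X : Subgroup Γ) : Subgroup Γ := ⁅X, H⁆

lemma br_mono (H : Subgroup Γ) : Monotone (br H) := fun _ _ h => commutator_mono h le_rfl

lemma lcs_le (H G : Subgroup Γ) (hHG : H ≤ G) (n : ℕ) :
    Subgroup.lowerCentralSeries H n ≤ (br H)^[n] G := by
  induction n with
  | zero => exact hHG
  | succ n ih =>
    rw [Function.iterate_succ_apply', Subgroup.lowerCentralSeries_succ]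
    exact commutator_mono ih le_rfl

end ModB6

open ModB6 in
/-- B6 -/
theorem b6 (hChief : StmtChief) : StmtMainSol := by
  classical
  intro Γ _ _ p V G hE hV hI hfpf hsol
  set H : Subgroup Γ := ⨅ (v : Γ) (_ : v ∈ V ∧ v ≠ 1), cm G v with hH
  have hHle : ∀ v ∈ V, v ≠ 1 → H ≤ cm G v := fun v hv hv1 => iInf₂_le v ⟨hv, hv1⟩
  obtain ⟨v₀, hv₀, hv₀1⟩ := V.bot_or_exists_ne_one.resolve_left hV
  have hHG : H ≤ G := (hHle v₀ hv₀ hv₀1).trans
    (cm_le (inv_mono hI (by rwa [zpowers_le])))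
  have key : ∀ (m : ℕ) (U : Subgroup Γ), Nat.card U = m → U ≤ G → Inv G U → Inv V U →
      ∃ n, (br H)^[n] U = ⊥ := by
    intro m
    induction m using Nat.strong_induction_on with
    | _ m IH =>
    intro U hm hU hGU hVU
    by_cases hU0 : U = ⊥
    · exact ⟨0, hU0⟩
    have hfin : {N : Subgroup Γ | N < U ∧ Inv G N ∧ Inv V N}.Finite := Set.toFinite _
    obtain ⟨U₂, hU₂⟩ := hfin.exists_maximal
      ⟨⊥, bot_lt_iff_ne_bot.2 hU0, inv_bot _, inv_bot _⟩
    obtain ⟨v, hv, ⟨u, hu, hvu⟩, hc⟩ := hChief Γ p V G U U₂ hE hI hfpf hsol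
      hU₂.prop.1 hU hGU hU₂.prop.2.1 hVU hU₂.prop.2.2 (by
        intro N h1 h2 h3 h4
        by_contra hcon
        push Not at hcon
        exact hcon.1 (le_antisymm (hU₂.le_of_ge ⟨lt_of_le_of_ne h2 hcon.2, h3, h4⟩ h1) h1))
    have hv1 : v ≠ 1 := by
      rintro rfl
      apply hvu
      simp
    have h1 : br H U ≤ U₂ := by
      unfold br
      rw [commutator_comm]
      exact (commutator_mono (hHle v hv hv1) le_rfl).trans hc
    obtain ⟨n, hn⟩ := IH (Nat.card U₂) (by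
      rw [← hm]
      exact lt_of_le_of_ne (card_le_of_le hU₂.prop.1.le) fun h =>
        hU₂.prop.1.ne (eq_of_le_of_card_ge hU₂.prop.1.le h.ge)) U₂ rfl
        (hU₂.prop.1.le.trans hU) hU₂.prop.2.1 hU₂.prop.2.2
    refine ⟨n + 1, ?_⟩
    rw [Function.iterate_succ_apply, eq_bot_iff, ← hn]
    exact (br_mono H).iterate n h1
  obtain ⟨n, hn⟩ := key _ G rfl le_rfl inv_self hI
  rw [Subgroup.isNilpotent_iff_lowerCentralSeries]
  refine ⟨n, ?_⟩
  rw [eq_bot_iff, ← hn]
  exact lcs_le H G hHG n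

end Pool.Agent.T6.H88.FP
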