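import Pool.Agent.T6.H88.FP.Tools

/-! # Project FP, module C1: a group acting with an offender contains a transvection -/

namespace Pool.Agent.T6.H88.FP

open Subgroup

namespace ModC1

variable {q : ℕ} [hq : Fact q.Prime] {W : Type} [AddCommGroup W] [Module (ZMod q) W]

/-- fixed vectors -/
def fx (B : Subgroup (W ≃ₗ[ZMod q] W)) : Submodule (ZMod q) W where
  carrier := {w | ∀ a ∈ B, a w = w}
  add_mem' := by
    intro v w hv hw a ha
    rw [map_add, hv a ha, hw a ha]
  zero_mem' := fun a _ => map_zero a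
  smul_mem' := by
    intro c w hw a ha
    rw [map_smul, hw a ha]

lemma mem_fx {B : Subgroup (W ≃ₗ[ZMod q] W)} {w : W} : w ∈ fx B ↔ ∀ a ∈ B, a w = w := Iff.rfl

lemma card_sub [Finite W] (N : Submodule (ZMod q) W) :
    Nat.card N = q ^ Module.finrank (ZMod q) N := by
  have : Fintype N := Fintype.ofFinite _
  rw [Nat.card_eq_fintype_card, Module.card_eq_pow_finrank (K := ZMod q), ZMod.card]

lemma card_mod [Finite W] : Nat.card W = q ^ Module.finrank (ZMod q) W := by
  have : Fintype W := Fintype.ofFinite _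
  rw [Nat.card_eq_fintype_card, Module.card_eq_pow_finrank (K := ZMod q), ZMod.card]

lemma fixvec [Finite W] (D : Subgroup (W ≃ₗ[ZMod q] W)) (hD : IsPGroup q D)
    (N : Submodule (ZMod q) W) (hN : N ≠ ⊥) (hDN : ∀ d ∈ D, ∀ w ∈ N, d w ∈ N) :
    ∃ w ∈ N, w ≠ 0 ∧ ∀ d ∈ D, d w = w := by
  let act : MulAction D N :=
    { smul := fun d w => ⟨d.1 w.1, hDN d.1 d.2 w.1 w.2⟩
      one_smul := fun w => Subtype.ext rfl
      mul_smul := fun a b w => Subtype.ext rfl }
  have hdvd : q ∣ Nat.card N := by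
    rw [card_sub]
    refine dvd_pow_self _ ?_
    intro h0
    exact hN (Submodule.finrank_eq_zero.1 h0)
  obtain ⟨b, hb, hb0⟩ := hD.exists_fixed_point_of_prime_dvd_card_of_fixed_point N hdvd
    (a := (0 : N)) (fun d => Subtype.ext (map_zero d.1))
  refine ⟨b.1, b.2, fun h => hb0 (Subtype.ext h.symm), fun d hd => ?_⟩
  exact congrArg Subtype.val (hb ⟨d, hd⟩)

lemma key [Finite W] (D : Subgroup (W ≃ₗ[ZMod q] W)) (hD : IsPGroup q D)
    (y : W ≃ₗ[ZMod q] W) (hy : ¬ q ∣ orderOf y) (hy1 : y ≠ 1) (hDy : ∀ d ∈ D, d * y = y * d) :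
    ∃ w, (∀ d ∈ D, d w = w) ∧ y w ≠ w := by
  set n := orderOf y with hn
  let S : W →ₗ[ZMod q] W := ∑ i ∈ Finset.range n, ((y ^ i : W ≃ₗ[ZMod q] W) : W →ₗ[ZMod q] W)
  have hS : ∀ w, S w = ∑ i ∈ Finset.range n, (y ^ i) w := by
    intro w
    simp [S, LinearMap.sum_apply]
  have hSy : ∀ w, S (y w) = S w := by
    intro w
    rw [hS, hS]
    have h1 : ∀ i, (y ^ i) (y w) = (y ^ (i + 1)) w := by
      intro i
      rw [pow_succ]
      rfl
    simp_rw [h1]
    have h2 := Finset.sum_range_succ (fun i => (y ^ i) w) n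
    have h3 := Finset.sum_range_succ' (fun i => (y ^ i) w) n
    rw [h3] at h2
    have h4 : (y ^ n) w = (y ^ 0) w := by rw [hn, pow_orderOf_eq_one, pow_zero]
    rw [h4] at h2
    exact add_right_cancel h2
  have hN : LinearMap.ker S ≠ ⊥ := by
    intro h
    apply hy1
    refine LinearEquiv.ext fun w => ?_
    have h1 : y w - w ∈ LinearMap.ker S := by
      rw [LinearMap.mem_ker, map_sub, hSy, sub_self]
    rw [h, Submodule.mem_bot, sub_eq_zero] at h1
    exact h1
  have hDN : ∀ d ∈ D, ∀ w ∈ LinearMap.ker S, d w ∈ LinearMap.ker S := by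
    intro d hd w hw
    rw [LinearMap.mem_ker] at hw ⊢
    rw [hS] at hw ⊢
    have h1 : ∀ i, (y ^ i) (d w) = d ((y ^ i) w) := by
      intro i
      have h2 : Commute d y := hDy d hd
      have h3 := (h2.pow_right i).eq
      have h4 := congrArg (fun f : W ≃ₗ[ZMod q] W => f w) h3
      exact h4.symm
    simp_rw [h1]
    rw [← map_sum, hw, map_zero]
  obtain ⟨w, hwN, hw0, hwD⟩ := fixvec D hD _ hN hDN
  refine ⟨w, hwD, fun hyw => hw0 ?_⟩
  rw [LinearMap.mem_ker, hS] at hwN
  have h1 : ∀ i, (y ^ i) w = w := by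
    intro i
    induction i with
    | zero => rfl
    | succ i ih =>
      rw [pow_succ]
      change (y ^ i) (y w) = w
      rw [hyw, ih]
  simp_rw [h1] at hwN
  rw [Finset.sum_const, Finset.card_range] at hwN
  have h2 : ((n : ℕ) : ZMod q) • w = 0 := by
    rw [Nat.cast_smul_eq_nsmul]
    exact hwN
  rcases smul_eq_zero.1 h2 with h3 | h3
  · exact absurd ((ZMod.natCast_eq_zero_iff _ _).1 h3) hy
  · exact h3

end ModC1

open ModC1 in
theorem c1 (hGen : StmtGen) : StmtOff := by
  intro q hq W _ _ _ A R hA hA1 hAR hqR hR hAcen hcard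
  classical
  have hfin : Finite (W ≃ₗ[ZMod q] W) :=
    Finite.of_injective (fun f : W ≃ₗ[ZMod q] W => (f : W → W)) DFunLike.coe_injective
  have hex : ∃ n, ∃ B ≤ A, B ≠ ⊥ ∧ Nat.card W ≤ Nat.card B * Nat.card (fx B) ∧ Nat.card B = n :=
    ⟨_, A, le_rfl, hA1, hcard, rfl⟩
  obtain ⟨B, hBA, hB1, hBc, hBn⟩ := Nat.find_spec hex
  have hmin := fun m (hm : m < Nat.find hex) => Nat.find_min hex hm
  rw [← hBn] at hmin
  have hE : ElAb q B := ⟨hq.out, fun v hv => hA.1 v (hBA hv),
    fun v hv w hw => hA.2 v (hBA hv) w (hBA hw)⟩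
  have hBR : Inv B R := inv_mono hAR hBA
  obtain ⟨D, hDB, hDq, hDc⟩ : ∃ D ≤ B, D.relIndex B ∣ q ∧
      ¬ cen R (D : Set (W ≃ₗ[ZMod q] W)) ≤ centralizer (B : Set (W ≃ₗ[ZMod q] W)) := by
    by_contra hcon
    push Not at hcon
    have h1 := hGen (W ≃ₗ[ZMod q] W) q B R (centralizer (B : Set (W ≃ₗ[ZMod q] W))) hE hBR hqR hR
      (fun K hK hd => hcon K hK hd)
    apply hB1
    rw [eq_bot_iff, ← hAcen]
    intro b hb
    rw [mem_cen]
    exact ⟨hBA hb, fun r hr => (mem_centralizer_iff.1 (h1 hr) b hb).symm⟩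
  have hDq' : D.relIndex B = q := by
    rcases (Nat.dvd_prime hq.out).1 hDq with h | h
    · exfalso
      apply hDc
      have hBD : B ≤ D := relIndex_eq_one.1 h
      intro x hx
      rw [mem_centralizer_iff]
      intro b hb
      exact (mem_cen.1 hx).2 b (hBD hb)
    · exact h
  have hcardB : Nat.card B = Nat.card D * q := by
    have h1 := (D.subgroupOf B).card_mul_index
    have h2 : Nat.card (D.subgroupOf B) = Nat.card D :=
      Nat.card_congr (subgroupOfEquivOfLe hDB).toEquiv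
    rw [h2] at h1
    rw [← h1]
    congr 1
    try exact hDq'.symm
  have hDp : IsPGroup q D := (hE.mono hDB).isPGroup
  obtain ⟨d, hd⟩ := IsPGroup.iff_card.1 hDp
  have hDbot : D = ⊥ := by
    by_contra hD1
    have hlt : Nat.card D < Nat.card B := by
      rw [hcardB]
      have := hq.out.one_lt
      have h3 : 0 < Nat.card D := Nat.card_pos
      nlinarith
    have h4 := hmin _ hlt
    push Not at h4
    have h5 : Nat.card D * Nat.card (fx D) < Nat.card W := by
      by_contra h6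
      exact h4 D (hDB.trans hBA) hD1 (not_lt.1 h6) rfl
    rw [card_sub (fx D), card_mod (q := q) (W := W), hd, ← pow_add] at h5
    rw [card_sub (fx B), card_mod (q := q) (W := W), hcardB, hd, ← pow_succ, ← pow_add] at hBc
    have h6 := (Nat.pow_lt_pow_iff_right hq.out.one_lt).1 h5
    have h7 := (Nat.pow_le_pow_iff_right hq.out.one_lt).1 hBc
    have h8 : fx B ≤ fx D := fun w hw a ha => hw a (hDB ha)
    have h9 : fx B = fx D := Submodule.eq_of_le_of_finrank_le h8 (by omega)
    obtain ⟨x, hx, hxB⟩ := SetLike.not_le_iff_exists.1 hDc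
    rw [mem_centralizer_iff] at hxB
    push Not at hxB
    obtain ⟨b, hb, hbx⟩ := hxB
    rw [mem_cen] at hx
    obtain ⟨hxR, hxD⟩ := hx
    set y := x * b * x⁻¹ * b⁻¹ with hy
    have hyR : y ∈ R := by
      have h10 := inv_iff.1 hBR b hb x⁻¹ (R.inv_mem hxR)
      have h11 := R.mul_mem hxR h10
      rw [hy]
      simpa [mul_assoc] using h11
    have hy1 : y ≠ 1 := by
      intro h
      apply hbx
      rw [hy, mul_inv_eq_one, mul_inv_eq_iff_eq_mul] at h
      exact h.symm
    have hyD : ∀ e ∈ D, e * y = y * e := by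
      intro e he
      have c1 : Commute e x := hxD e he
      have c2 : Commute e b := hE.comm e (hDB he) b hb
      exact (((c1.mul_right c2).mul_right c1.inv_right).mul_right c2.inv_right).eq
    have hyo : ¬ q ∣ orderOf y := by
      intro h
      apply hqR
      have h12 : orderOf (⟨y, hyR⟩ : R) ∣ Nat.card R := orderOf_dvd_natCard _
      rw [← Subgroup.orderOf_coe] at h12
      exact h.trans h12
    obtain ⟨w, hwD, hyw⟩ := key D hDp y hyo hy1 hyD
    apply hyw
    have hwB : ∀ w' ∈ fx D, ∀ b' ∈ B, b' w' = w' := by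
      intro w' hw'
      rw [← h9] at hw'
      exact hw'
    have hxw : ∀ w' ∈ fx D, x⁻¹ w' ∈ fx D := by
      intro w' hw' e he
      have c1 : Commute e x⁻¹ := (show Commute e x from hxD e he).inv_right
      have h13 := congrArg (fun f : W ≃ₗ[ZMod q] W => f w') c1.eq
      change e (x⁻¹ w') = x⁻¹ (e w') at h13
      rw [h13, hw' e he]
    have hw1 : w ∈ fx D := hwD
    change x (b (x⁻¹ (b⁻¹ w))) = w
    rw [hwB w hw1 b⁻¹ (B.inv_mem hb), hwB _ (hxw w hw1) b hb]
    change (x * x⁻¹) w = w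
    rw [mul_inv_cancel]
    rfl
  have hcB : Nat.card B = q := by
    rw [hcardB, hDbot, Subgroup.card_bot, one_mul]
  obtain ⟨a, haB, ha1⟩ : ∃ a ∈ B, a ≠ 1 := by
    rcases B.bot_or_exists_ne_one with h | h
    · exact absurd h hB1
    · exact h
  refine ⟨a, hBA haB, ha1, ?_⟩
  have hord : orderOf (a : W ≃ₗ[ZMod q] W) = q :=
    orderOf_eq_prime (hE.exp _ haB) ha1
  have hz : zpowers (a : W ≃ₗ[ZMod q] W) = B := by
    refine Subgroup.eq_of_le_of_card_ge ((zpowers_le).2 haB) ?_
    rw [hcB, Nat.card_zpowers, hord]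
  have hfx : Nat.card {w : W // (a : W ≃ₗ[ZMod q] W) w = w} = Nat.card (fx B) := by
    refine Nat.card_congr (Equiv.subtypeEquivRight fun w => ?_)
    constructor
    · intro h b hb
      rw [← hz] at hb
      have hst : zpowers (a : W ≃ₗ[ZMod q] W) ≤ MulAction.stabilizer (W ≃ₗ[ZMod q] W) w := by
        rw [zpowers_le]
        exact h
      exact hst hb
    · intro h
      exact h _ haB
  rw [hfx]
  rw [hcB] at hBc
  exact hBc

end Pool.Agent.T6.H88.FP
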