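import Pool.Agent.T6.H88.FP.Tools

/-! # Project FP, module C2: transvections and abelian groups

If `T = a - 1`, `T² = 0`, `q` odd, and `x` commutes with `a x a⁻¹` and with `a² x a⁻²`, then `x` commutes
with `T x - x T`; hence `T` commutes with `x`, the order of `x` being prime to `q`. -/

namespace Pool.Agent.T6.H88.FP

open Subgroup

namespace ModC2

/-- `(T x - x T)` commutes with `x` -/
lemma comm_comm {E : Type*} [Ring E] {T X : E} (hT : T * T = 0)
    (h1 : X * ((1 + T) * X * (1 - T)) = ((1 + T) * X * (1 - T)) * X)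
    (h2 : X * ((1 + T) * (1 + T) * X * ((1 - T) * (1 - T))) =
      ((1 + T) * (1 + T) * X * ((1 - T) * (1 - T))) * X) :
    (2 : E) * (X * (T * X - X * T)) = 2 * ((T * X - X * T) * X) := by
  have e1 : (1 + T) * (1 + T) = 1 + 2 * T := by
    have : (1 + T) * (1 + T) = 1 + 2 * T + T * T := by noncomm_ring
    rw [this, hT, add_zero]
  have e2 : (1 - T) * (1 - T) = 1 - 2 * T := by
    have : (1 - T) * (1 - T) = 1 - 2 * T + T * T := by noncomm_ring
    rw [this, hT, add_zero]
  rw [e1, e2] at h2
  have h3 : (2 : E) * (X * (T * X - X * T)) - 2 * ((T * X - X * T) * X) =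
      4 * (X * ((1 + T) * X * (1 - T)) - ((1 + T) * X * (1 - T)) * X) -
      (X * ((1 + 2 * T) * X * (1 - 2 * T)) - ((1 + 2 * T) * X * (1 - 2 * T)) * X) := by
    noncomm_ring
  rw [h1, h2, sub_self, sub_self, mul_zero, sub_zero] at h3
  exact sub_eq_zero.1 h3

lemma pow_comm {E : Type*} [Ring E] {T X : E}
    (h : X * (T * X - X * T) = (T * X - X * T) * X) (m : ℕ) :
    T * X ^ (m + 1) = X ^ (m + 1) * T + ((m + 1 : ℕ) : E) * (X ^ m * (T * X - X * T)) := by
  induction m with
  | zero =>
    rw [zero_add, pow_one, pow_zero, one_mul, Nat.cast_one, one_mul]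
    abel
  | succ m ih =>
    set D := T * X - X * T with hD
    have hTX : T * X = X * T + D := by rw [hD]; abel
    rw [pow_succ X (m + 1), ← mul_assoc, ih, add_mul, mul_assoc (X ^ (m + 1)) T X, hTX, mul_add,
      mul_assoc _ _ X, mul_assoc _ D X, ← h, ← mul_assoc (X ^ m) X, ← pow_succ, mul_assoc _ X T,
      add_assoc, Nat.cast_add (m + 1), Nat.cast_one, add_mul, one_mul, add_comm (X ^ (m + 1) * D)]

end ModC2

open ModC2 in
/-- C2 -/
theorem c2 : StmtTrA := by
  classical
  intro q hq W _ _ _ R a hq2 hqR hR hI ha hW x hx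
  rcases subsingleton_or_nontrivial W with hW0 | hW0
  · ext w
    exact Subsingleton.elim _ _
  have hfin : Module.Finite (ZMod q) W := Module.Finite.of_finite
  have hinj : Function.Injective (algebraMap (ZMod q) (Module.End (ZMod q) W)) :=
    RingHom.injective _
  have hch : CharP (Module.End (ZMod q) W) q := charP_of_injective_algebraMap hinj q
  let φ := LinearEquiv.automorphismGroup.toLinearMapMonoidHom (R := ZMod q) (M := W)
  have hφ : Function.Injective φ := fun f g h => LinearEquiv.toLinearMap_injective h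
  obtain ⟨T, hT⟩ : ∃ T : Module.End (ZMod q) W, φ a = 1 + T := ⟨φ a - 1, by abel⟩
  have hTw : ∀ w, T w = a w - w := by
    intro w
    have : φ a w = w + T w := by rw [hT]; rfl
    rw [eq_sub_iff_add_eq, add_comm, ← this]
    rfl
  -- `T` is nilpotent
  have hTq : T ^ q = 0 := by
    have h1 : (1 + T) ^ q = 1 := by rw [← hT, ← map_pow, ha, map_one]
    rw [add_pow_char_of_commute (R := Module.End (ZMod q) W) (p := q) (Commute.one_left T),
      one_pow] at h1
    exact add_eq_left.1 h1
  -- `T` has rank at most one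
  have hr : Module.finrank (ZMod q) (LinearMap.range T) ≤ 1 := by
    have e1 : Nat.card {w : W // a w = w} = Nat.card (LinearMap.ker T) := by
      refine Nat.card_congr (Equiv.subtypeEquivRight fun w => ?_)
      rw [LinearMap.mem_ker, hTw, sub_eq_zero]
    have e2 := LinearMap.finrank_range_add_finrank_ker T
    rw [e1, Module.natCard_eq_pow_finrank (K := ZMod q) (V := W),
      Module.natCard_eq_pow_finrank (K := ZMod q) (V := LinearMap.ker T), Nat.card_zmod,
      ← pow_succ', Nat.pow_le_pow_iff_right hq.out.one_lt] at hW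
    omega
  have hT2 : T * T = 0 := by
    by_contra hne
    obtain ⟨w, hw⟩ : ∃ w, T (T w) ≠ 0 := by
      by_contra hcon
      push Not at hcon
      exact hne (LinearMap.ext hcon)
    obtain ⟨v, hv⟩ := finrank_le_one_iff.1 hr
    obtain ⟨c, hc⟩ := hv ⟨T w, w, rfl⟩
    obtain ⟨d, hd⟩ := hv ⟨T (T w), T w, rfl⟩
    have hc' : c • (v : W) = T w := congrArg Subtype.val hc
    have hd' : d • (v : W) = T (T w) := congrArg Subtype.val hd
    have hc0 : c ≠ 0 := by
      rintro rfl
      rw [zero_smul] at hc'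
      rw [← hc', map_zero] at hw
      exact hw rfl
    have hd0 : d ≠ 0 := by
      rintro rfl
      rw [zero_smul] at hd'
      exact hw hd'.symm
    have hl : T (T w) = (d / c) • T w := by
      calc T (T w) = d • (v : W) := hd'.symm
        _ = (d / c) • c • (v : W) := by rw [smul_smul, div_mul_cancel₀ _ hc0]
        _ = (d / c) • T w := by rw [hc']
    have hn : ∀ n : ℕ, (T ^ n) (T w) = (d / c) ^ n • T w := by
      intro n
      induction n with
      | zero => simp
      | succ n ih =>
        rw [pow_succ, Module.End.mul_apply, hl, map_smul, ih, smul_smul, ← pow_succ']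
    have h1 := hn q
    rw [hTq, LinearMap.zero_apply] at h1
    have h2 : (d / c) ^ q ≠ 0 := pow_ne_zero _ (div_ne_zero hd0 hc0)
    have h3 : T w = 0 := (smul_eq_zero.1 h1.symm).resolve_left h2
    rw [h3, map_zero] at hw
    exact hw rfl
  have hinv : φ a⁻¹ = 1 - T := by
    have h1 : (1 + T) * (1 - T) = 1 := by
      have : (1 + T) * (1 - T) = 1 - T * T := by noncomm_ring
      rw [this, hT2, sub_zero]
    have h2 : φ a⁻¹ * φ a = 1 := by rw [← map_mul, inv_mul_cancel, map_one]
    calc φ a⁻¹ = φ a⁻¹ * ((1 + T) * (1 - T)) := by rw [h1, mul_one]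
      _ = 1 - T := by rw [← mul_assoc, ← hT, h2, one_mul]
  have hc1 := hR x hx _ (inv_iff.1 hI a (mem_zpowers a) x hx)
  have hc2 := hR x hx _ (inv_iff.1 hI (a * a) (mul_mem (mem_zpowers a) (mem_zpowers a)) x hx)
  have h2 : (2 : Module.End (ZMod q) W) * (φ x * (T * φ x - φ x * T)) =
      2 * ((T * φ x - φ x * T) * φ x) := by
    refine comm_comm hT2 ?_ ?_
    · rw [← hT, ← hinv, ← map_mul, ← map_mul, ← map_mul, ← map_mul, hc1]
    · rw [← hT, ← hinv, ← map_mul, ← map_mul, ← map_mul, ← map_mul, ← map_mul, ← map_mul,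
        ← mul_inv_rev, hc2]
  have h3 : φ x * (T * φ x - φ x * T) = (T * φ x - φ x * T) * φ x := by
    have h20 : (2 : ZMod q) ≠ 0 := by
      intro h
      have h' : ((2 : ℕ) : ZMod q) = 0 := by exact_mod_cast h
      rw [ZMod.natCast_eq_zero_iff] at h'
      exact hq2 ((Nat.prime_dvd_prime_iff_eq hq.out Nat.prime_two).1 h')
    have hu : IsUnit (2 : Module.End (ZMod q) W) := by
      have := (isUnit_iff_ne_zero.2 h20).map (algebraMap (ZMod q) (Module.End (ZMod q) W))
      rwa [map_ofNat] at this
    exact hu.mul_left_cancel h2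
  have h4 : T * φ x - φ x * T = 0 := by
    have hcard : x ^ Nat.card R = 1 := by
      have : (⟨x, hx⟩ : R) ^ Nat.card R = 1 := pow_card_eq_one'
      exact congrArg Subtype.val this
    have hfE : Finite (W ≃ₗ[ZMod q] W) :=
      Finite.of_injective (fun f : W ≃ₗ[ZMod q] W => (f : W → W)) DFunLike.coe_injective
    obtain ⟨m, hm⟩ : ∃ m, Nat.card R = m + 1 :=
      Nat.exists_eq_succ_of_ne_zero Nat.card_pos.ne'
    have e1 := pow_comm h3 m
    rw [← hm, ← map_pow, hcard, map_one, mul_one, one_mul] at e1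
    have e2 := left_eq_add.1 e1
    have hu : IsUnit ((Nat.card R : ℕ) : Module.End (ZMod q) W) := by
      have h0 : ((Nat.card R : ℕ) : ZMod q) ≠ 0 := by
        rwa [Ne, ZMod.natCast_eq_zero_iff]
      have := (isUnit_iff_ne_zero.2 h0).map (algebraMap (ZMod q) (Module.End (ZMod q) W))
      rwa [map_natCast] at this
    have e3 : φ x ^ m * (T * φ x - φ x * T) = 0 := by
      refine hu.mul_left_cancel ?_
      rw [mul_zero, e2]
    have e4 : φ x * φ x ^ m = 1 := by
      rw [← pow_succ', ← hm, ← map_pow, hcard, map_one]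
    calc T * φ x - φ x * T = (φ x * φ x ^ m) * (T * φ x - φ x * T) := by rw [e4, one_mul]
      _ = 0 := by rw [mul_assoc, e3, mul_zero]
  have h5 : T * φ x = φ x * T := sub_eq_zero.1 h4
  apply hφ
  rw [map_mul, map_mul, hT, add_mul, mul_add, h5, one_mul, mul_one]

end Pool.Agent.T6.H88.FP
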