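import Pool.Agent.T6.H38.FP.Basic

/-! # Project FP, module C3: two noncommuting transvections (helper29) -/

set_option autoImplicit false

namespace Pool.Agent.T6.H88.FP

open Subgroup

namespace ModC3

open Pool.Agent.T6.H38.FPB

variable {q : ℕ} [hq : Fact q.Prime] {W : Type} [AddCommGroup W] [Module (ZMod q) W] [Finite W]

/-- a transvection `w ↦ w + φ(w) e` -/
theorem exists_form (a : W ≃ₗ[ZMod q] W) (h : Nat.card W ≤ q * Nat.card {w : W // a w = w}) :
    ∃ (e : W) (φ : W →ₗ[ZMod q] ZMod q), ∀ w, a w = w + φ w • e := by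
  classical
  have : Module.Finite (ZMod q) W := Module.Finite.of_finite
  set A : W →ₗ[ZMod q] W := (a : W →ₗ[ZMod q] W) - LinearMap.id with hA
  have hAw : ∀ w, A w = a w - w := fun w => by simp [hA]
  have h1 : Nat.card {w : W // a w = w} = Nat.card (LinearMap.ker A) := by
    apply Nat.card_congr
    refine Equiv.subtypeEquivRight fun w => ?_
    rw [LinearMap.mem_ker, hAw, sub_eq_zero]
  have h2 := LinearMap.finrank_range_add_finrank_ker A
  have h3 : Module.finrank (ZMod q) (LinearMap.range A) ≤ 1 := by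
    rw [h1, Module.natCard_eq_pow_finrank (K := ZMod q) (V := W),
      Module.natCard_eq_pow_finrank (K := ZMod q) (V := LinearMap.ker A), Nat.card_zmod,
      ← pow_succ'] at h
    have := (Nat.pow_le_pow_iff_right hq.out.one_lt).1 h
    omega
  obtain ⟨v, hv⟩ := finrank_le_one_iff.1 h3
  by_cases hv0 : (v : W) = 0
  · refine ⟨0, 0, fun w => ?_⟩
    obtain ⟨c, hc⟩ := hv ⟨A w, LinearMap.mem_range_self A w⟩
    have hc' : c • (v : W) = A w := congrArg Subtype.val hc
    rw [hv0, smul_zero, hAw] at hc'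
    simpa [sub_eq_zero] using hc'.symm
  · obtain ⟨ψ, hψ⟩ : ∃ ψ : W →ₗ[ZMod q] ZMod q, ψ v ≠ 0 := by
      by_contra hcon
      push Not at hcon
      exact hv0 ((Module.forall_dual_apply_eq_zero_iff (ZMod q) (v : W)).1 hcon)
    refine ⟨v, (ψ v)⁻¹ • (ψ.comp A), fun w => ?_⟩
    obtain ⟨c, hc⟩ := hv ⟨A w, LinearMap.mem_range_self A w⟩
    have hc' : c • (v : W) = A w := congrArg Subtype.val hc
    have h4 : ψ (A w) = c * ψ v := by rw [← hc', map_smul, smul_eq_mul]
    have h5 : a w = w + A w := by rw [hAw]; abel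
    simp only [LinearMap.smul_apply, LinearMap.comp_apply, smul_eq_mul]
    rw [h4, mul_comm c, inv_mul_cancel_left₀ hψ, hc', ← h5]

omit [Finite W] in
theorem phi_e (a : W ≃ₗ[ZMod q] W) (haq : a ^ q = 1) (e : W) (φ : W →ₗ[ZMod q] ZMod q)
    (h : ∀ w, a w = w + φ w • e) : φ e = 0 := by
  by_cases he : e = 0
  · rw [he, map_zero]
  have h1 : ∀ n : ℕ, (a ^ n) e = (1 + φ e) ^ n • e := by
    intro n
    induction n with
    | zero => simp
    | succ n ih =>
      rw [pow_succ', LinearEquiv.mul_apply, ih, map_smul, h e, pow_succ, mul_smul, add_smul,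
        one_smul]
  have h2 := h1 q
  rw [haq, ZMod.pow_card, LinearEquiv.coe_one, id, add_smul, one_smul] at h2
  have h3 : φ e • e = 0 := by simpa using h2.symm
  exact (smul_eq_zero.1 h3).resolve_right he

omit [Finite W] in
theorem pow_form (a : W ≃ₗ[ZMod q] W) (e : W) (φ : W →ₗ[ZMod q] ZMod q)
    (h : ∀ w, a w = w + φ w • e) (he : φ e = 0) (n : ℕ) (w : W) :
    (a ^ n) w = w + ((n : ZMod q) * φ w) • e := by
  induction n with
  | zero => simp
  | succ n ih =>
    rw [pow_succ', LinearEquiv.mul_apply, ih, map_add, map_smul, h e, h w, he]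
    push_cast
    rw [zero_smul, add_zero, add_mul, add_smul, one_mul]
    abel

omit [Finite W] in
theorem unip [Nontrivial W] (g : W ≃ₗ[ZMod q] W) (e f : W) (φ ψ : W →ₗ[ZMod q] ZMod q) (α β : ZMod q)
    (hg : ∀ w, g w = w + (ψ w • f - φ w • e - (α * ψ w) • e)) (h1 : φ e = 0) (h2 : φ f = α)
    (h3 : ψ e = β) (h4 : ψ f = 0) (h5 : α * β = 0) : g ^ q ^ 2 = 1 := by
  set N : Module.End (ZMod q) W := (g : W →ₗ[ZMod q] W) - 1 with hN
  have hNw : ∀ w, N w = ψ w • f - φ w • e - (α * ψ w) • e := fun w => by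
    simp only [hN, LinearMap.sub_apply, LinearEquiv.coe_coe, Module.End.one_apply, hg w]
    abel
  have hNe : N e = β • f := by
    rw [hNw, h1, h3, h5]; simp
  have hNf : N f = -(α • e) := by
    rw [hNw, h2, h4]; simp
  have hN3 : N ^ 3 = 0 := by
    ext w
    simp only [pow_succ, pow_zero, one_mul, Module.End.mul_apply, LinearMap.zero_apply]
    rw [hNw w]
    simp only [map_sub, map_smul, hNe, hNf, map_neg, smul_neg, smul_smul]
    have e1 : ψ w * (α * β) = 0 := by rw [h5, mul_zero]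
    have e2 : φ w * β * α = 0 := by rw [mul_assoc, mul_comm β, h5, mul_zero]
    have e3 : α * ψ w * β * α = 0 := by
      rw [show α * ψ w * β * α = (α * β) * (ψ w * α) by ring, h5, zero_mul]
    rw [mul_assoc (ψ w), e1, e2, e3]
    simp
  have : CharP (Module.End (ZMod q) W) q :=
    charP_of_injective_algebraMap (FaithfulSMul.algebraMap_injective (ZMod q) _) q
  have h6 : (1 + N) ^ q ^ 2 = 1 := by
    rw [add_pow_char_pow_of_commute q 2 (Commute.one_left N), one_pow]
    have : N ^ q ^ 2 = 0 := by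
      have h7 : 3 ≤ q ^ 2 := by
        have := hq.out.two_le
        nlinarith
      obtain ⟨k, hk⟩ := Nat.exists_eq_add_of_le h7
      rw [hk, pow_add, hN3, zero_mul]
    rw [this, add_zero]
  have h7 : (g : Module.End (ZMod q) W) = 1 + N := by rw [hN]; abel
  have h8 : ∀ n : ℕ, ∀ w, (g ^ n) w = ((1 + N) ^ n) w := by
    intro n
    induction n with
    | zero => intro w; simp
    | succ n ih =>
      intro w
      rw [pow_succ', pow_succ', LinearEquiv.mul_apply, Module.End.mul_apply, ih, ← h7]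
      rfl
  ext w
  rw [h8, h6]
  simp

end ModC3

/-- module C3 -/
theorem c3 : StmtTrV := by
  intro q hq W _ _ _ R a hqR hInv haq hcard hex p hp hpq
  obtain ⟨x, hx, hne⟩ := hex
  obtain ⟨e, φ, ha⟩ := ModC3.exists_form a hcard
  have hφe := ModC3.phi_e a haq e φ ha
  set b : W ≃ₗ[ZMod q] W := x * a * x⁻¹ with hb
  set f : W := x e with hf
  set ψ : W →ₗ[ZMod q] ZMod q := φ.comp ((x⁻¹ : W ≃ₗ[ZMod q] W) : W →ₗ[ZMod q] W) with hψ
  have hxx : ∀ w, x (x⁻¹ w) = w := fun w => by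
    rw [← LinearEquiv.mul_apply, mul_inv_cancel]; rfl
  have hxx' : ∀ w, x⁻¹ (x w) = w := fun w => by
    rw [← LinearEquiv.mul_apply, inv_mul_cancel]; rfl
  have hbw : ∀ w, b w = w + ψ w • f := fun w => by
    rw [hb, LinearEquiv.mul_apply, LinearEquiv.mul_apply, ha, map_add, map_smul, hxx]
    rfl
  have hψf : ψ f = 0 := by
    show φ (x⁻¹ (x e)) = 0
    rw [hxx', hφe]
  set α := φ f with hα
  set β := ψ e with hβ
  have hne' : b ≠ a := by
    intro h
    apply hne
    rw [← mul_inv_eq_iff_eq_mul.1 (hb.symm.trans h)]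
  have hW : Nontrivial W := by
    by_contra h
    rw [not_nontrivial_iff_subsingleton] at h
    exact hne' (LinearEquiv.ext fun w => Subsingleton.elim _ _)
  have hαβ : α * β ≠ 0 := by
    intro h0
    have hgR : a⁻¹ * b ∈ R := by
      have h1 : a⁻¹ * x * a ∈ R := by
        have := Pool.Agent.T6.H38.FPB.inv_iff.1 hInv a⁻¹ (inv_mem (mem_zpowers a)) x hx
        simpa using this
      have h2 := mul_mem h1 (inv_mem hx)
      have h3 : a⁻¹ * b = a⁻¹ * x * a * x⁻¹ := by rw [hb]; group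
      rwa [h3]
    have hg : ∀ w, (a⁻¹ * b) w = w + (ψ w • f - φ w • e - (α * ψ w) • e) := by
      intro w
      have hai : ∀ w, a⁻¹ w = w - φ w • e := by
        intro w
        have h1 : a (w - φ w • e) = w := by
          rw [ha, map_sub, map_smul, hφe]; simp
        have h2 : a⁻¹ (a (w - φ w • e)) = w - φ w • e := by
          rw [← LinearEquiv.mul_apply, inv_mul_cancel]; rfl
        rw [h1] at h2
        exact h2
      rw [LinearEquiv.mul_apply, hbw, hai, map_add, map_smul, ← hα, smul_eq_mul, add_smul,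
        mul_comm (ψ w) α]
      abel
    have h1 := ModC3.unip (a⁻¹ * b) e f φ ψ α β hg hφe rfl rfl hψf h0
    have h2 : (a⁻¹ * b) ^ Nat.card R = 1 := by
      have := pow_card_eq_one' (x := (⟨a⁻¹ * b, hgR⟩ : R))
      exact congrArg Subtype.val this
    have h3 : Nat.Coprime (Nat.card R) (q ^ 2) := by
      apply Nat.Coprime.pow_right
      rw [Nat.coprime_comm, hq.out.coprime_iff_not_dvd]
      exact hqR
    have h4 : a⁻¹ * b = 1 := by
      have h7 : orderOf (a⁻¹ * b) ∣ Nat.gcd (Nat.card R) (q ^ 2) :=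
        Nat.dvd_gcd (orderOf_dvd_of_pow_eq_one h2) (orderOf_dvd_of_pow_eq_one h1)
      rw [h3] at h7
      exact orderOf_eq_one_iff.1 (Nat.dvd_one.1 h7)
    exact hne' (inv_mul_eq_one.1 h4).symm
  have hα0 : α ≠ 0 := left_ne_zero_of_mul hαβ
  have hβ0 : β ≠ 0 := right_ne_zero_of_mul hαβ
  have he0 : e ≠ 0 := by
    rintro rfl
    exact hβ0 (map_zero ψ)
  obtain ⟨t, ht⟩ := exists_prime_orderOf_dvd_card' (G := (ZMod q)ˣ) p (hp := ⟨hp⟩) (by
    rw [Nat.card_eq_fintype_card, ZMod.card_units]; exact hpq)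
  have hu : ∀ c : ZMod q, ∃ u ∈ R ⊔ zpowers a, u e = e ∧ u f = f + c • e := by
    intro c
    refine ⟨a ^ (c / α).val, pow_mem (mem_sup_right (mem_zpowers a)) _, ?_, ?_⟩
    · rw [ModC3.pow_form a e φ ha hφe, hφe]; simp
    · rw [ModC3.pow_form a e φ ha hφe, ZMod.natCast_zmod_val, ← hα, div_mul_cancel₀ _ hα0]
  have hbm : b ∈ R ⊔ zpowers a :=
    mul_mem (mul_mem (mem_sup_left hx) (mem_sup_right (mem_zpowers a))) (inv_mem (mem_sup_left hx))
  have hl : ∀ c : ZMod q, ∃ u ∈ R ⊔ zpowers a, u e = e + c • f ∧ u f = f := by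
    intro c
    refine ⟨b ^ (c / β).val, pow_mem hbm _, ?_, ?_⟩
    · rw [ModC3.pow_form b f ψ hbw hψf, ZMod.natCast_zmod_val, ← hβ, div_mul_cancel₀ _ hβ0]
    · rw [ModC3.pow_form b f ψ hbw hψf, hψf]; simp
  have hw : ∀ t : ZMod q, t ≠ 0 → ∃ w ∈ R ⊔ zpowers a, w e = -(t⁻¹ • f) ∧ w f = t • e := by
    intro t ht0
    obtain ⟨u, hu1, hu2, hu3⟩ := hu t
    obtain ⟨l, hl1, hl2, hl3⟩ := hl (-t⁻¹)
    refine ⟨u * l * u, mul_mem (mul_mem hu1 hl1) hu1, ?_, ?_⟩
    · rw [LinearEquiv.mul_apply, LinearEquiv.mul_apply, hu2, hl2, map_add, map_smul, hu2, hu3,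
        smul_add, smul_smul, neg_mul, inv_mul_cancel₀ ht0]
      simp
    · rw [LinearEquiv.mul_apply, LinearEquiv.mul_apply, hu3, map_add, map_smul, hl2, hl3, smul_add,
        smul_smul, mul_neg, mul_inv_cancel₀ ht0]
      simp [hu2]
  obtain ⟨w1, hw1, hw2, hw3⟩ := hw t (Units.ne_zero t)
  obtain ⟨v1, hv1, hv2, hv3⟩ := hw (-1) (neg_ne_zero.2 one_ne_zero)
  have hg : (w1 * v1) e = (t : ZMod q) • e := by
    rw [LinearEquiv.mul_apply, hv2, map_neg, map_smul, hw3]
    rw [show ((-1 : ZMod q))⁻¹ = -1 by norm_num]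
    simp
  have hgn : ∀ n : ℕ, ((w1 * v1) ^ n) e = ((t : ZMod q) ^ n) • e := by
    intro n
    induction n with
    | zero => simp
    | succ n ih => rw [pow_succ', LinearEquiv.mul_apply, ih, map_smul, hg, smul_smul, pow_succ]
  have hmem : w1 * v1 ∈ R ⊔ zpowers a := mul_mem hw1 hv1
  have h1 : (w1 * v1) ^ Nat.card (R ⊔ zpowers a : Subgroup (W ≃ₗ[ZMod q] W)) = 1 := by
    have := pow_card_eq_one' (x := (⟨w1 * v1, hmem⟩ : (R ⊔ zpowers a : Subgroup _)))
    exact congrArg Subtype.val this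
  have h2 := hgn (Nat.card (R ⊔ zpowers a : Subgroup (W ≃ₗ[ZMod q] W)))
  rw [h1] at h2
  have h3 : ((t : ZMod q) ^ Nat.card (R ⊔ zpowers a : Subgroup (W ≃ₗ[ZMod q] W)) - 1) • e = 0 := by
    rw [sub_smul, ← h2, one_smul]
    simp
  have h4 := (smul_eq_zero.1 h3).resolve_right he0
  rw [← ht]
  apply orderOf_dvd_of_pow_eq_one
  ext
  rw [Units.val_pow_eq_pow_val, Units.val_one]
  exact sub_eq_zero.1 h4

end Pool.Agent.T6.H88.FP
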