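import Pool.Agent.T6.H88.FP.C4E

set_option autoImplicit false
set_option linter.unusedSectionVars false

/-! # Module C4: Thompson's normal `p`-complement theorem -/

namespace Pool.Agent.T6.H88.FP.C4

open Subgroup Pool.Agent.R691.PN

section
variable {H : Type} [Group H] [Finite H] {p : ℕ} [hp : Fact p.Prime]

lemma JJ_eq_of_le {q : ℕ} {X P : Subgroup H} (hXP : X ≤ P) (h : JJ q P ≤ X) :
    JJ q X = JJ q P := by
  apply le_antisymm
  · apply sSup_le
    rintro A ⟨hA1, hA2, hA3⟩
    apply le_sSup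
    refine ⟨hA1.trans hXP, hA2, ?_⟩
    intro B hB hBe
    -- a maximal elementary abelian subgroup of P
    obtain ⟨C, ⟨hC1, hC2⟩, hC3⟩ := Set.exists_max_image {A : Subgroup H | A ≤ P ∧ eab q A}
      (fun A => Nat.card A) (Set.toFinite _) ⟨B, hB, hBe⟩
    have hC4 : C ≤ JJ q P := le_sSup ⟨hC1, hC2, fun B hB hBe => hC3 B ⟨hB, hBe⟩⟩
    exact (hC3 B ⟨hB, hBe⟩).trans (hA3 C (hC4.trans h) hC2)
  · apply sSup_le
    rintro A ⟨hA1, hA2, hA3⟩
    have hA4 : A ≤ JJ q P := le_sSup ⟨hA1, hA2, hA3⟩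
    apply le_sSup
    exact ⟨hA4.trans h, hA2, fun B hB hBe => hA3 B (hB.trans hXP) hBe⟩

/-- coprime action on an abelian `p`-group which is trivial on the elements of order `p` -/
lemma coprime_triv {X Z : Subgroup H} (hXp : IsPGroup p X) (hZX : Z ≤ X) (hZn : Z.Normal)
    (hZc : ∀ z ∈ Z, ∀ x ∈ X, z * x = x * z) {g : H} {m : ℕ} (hm : ¬ p ∣ m) (hg : g ^ m ∈ X)
    (hg1 : ∀ z ∈ Z, z ^ p = 1 → g * z = z * g) :
    ∀ z ∈ Z, g * z = z * g := by
  have key : ∀ e : ℕ, ∀ z ∈ Z, z ^ p ^ e = 1 → g * z = z * g := by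
    intro e
    induction e with
    | zero =>
      intro z hz hz1
      rw [pow_zero, pow_one] at hz1
      rw [hz1, mul_one, one_mul]
    | succ e ih =>
      intro z hz hz1
      have h1 : g * z ^ p = z ^ p * g := by
        apply ih _ (Z.pow_mem hz p)
        rw [← pow_mul, ← pow_succ']
        exact hz1
      set w : H := g * z * g⁻¹ * z⁻¹ with hw
      have hgz : g * z * g⁻¹ ∈ Z := hZn.conj_mem z hz g
      have hwZ : w ∈ Z := Z.mul_mem hgz (Z.inv_mem hz)
      have hcomm : Commute (g * z * g⁻¹) (z⁻¹) := hZc _ hgz _ (X.inv_mem (hZX hz))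
      have hwp : w ^ p = 1 := by
        rw [hw, hcomm.mul_pow, conj_pow, h1, inv_pow, mul_inv_cancel_right, mul_inv_cancel]
      have hgw : Commute g w := hg1 w hwZ hwp
      have hgzw : g * z = w * z * g := by rw [hw]; group
      have hpow : ∀ j : ℕ, g ^ j * z = w ^ j * z * g ^ j := by
        intro j
        induction j with
        | zero => simp
        | succ j ihj =>
          have h2 : g * w ^ j = w ^ j * g := (hgw.pow_right j).eq
          calc g ^ (j + 1) * z = g * (g ^ j * z) := by rw [pow_succ', mul_assoc]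
            _ = g * (w ^ j * z * g ^ j) := by rw [ihj]
            _ = g * w ^ j * z * g ^ j := by simp only [mul_assoc]
            _ = w ^ j * g * z * g ^ j := by rw [h2]
            _ = w ^ j * (g * z) * g ^ j := by simp only [mul_assoc]
            _ = w ^ j * (w * z * g) * g ^ j := by rw [hgzw]
            _ = w ^ (j + 1) * z * g ^ (j + 1) := by
              rw [pow_succ, pow_succ']; simp only [mul_assoc]
      have h3 := hpow m
      have h4 : z * g ^ m = g ^ m * z := hZc z hz _ hg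
      rw [mul_assoc, h4] at h3
      have h5 : w ^ m = 1 := by
        have h6 : 1 * (g ^ m * z) = w ^ m * (g ^ m * z) := by rw [one_mul]; exact h3
        exact (mul_right_cancel h6).symm
      have h6 : w ^ p ^ 1 = 1 := by rw [pow_one]; exact hwp
      have h7 := eq_one_of_both h6 h5 hm
      rw [hw, mul_inv_eq_one, mul_inv_eq_iff_eq_mul] at h7
      exact h7
  intro z hz
  obtain ⟨e, he⟩ := hXp ⟨z, hZX hz⟩
  exact key e z hz (congrArg Subtype.val he)

end

theorem main (hOff : StmtOff) (hTrA : StmtTrA) {p : ℕ} [hp : Fact p.Prime] (hp2 : p ≠ 2) :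
    ∀ (n : ℕ) (H : Type) [Group H] [Finite H], Nat.card H = n → Hyp p H → PNilp p H := by
  intro n
  induction n using Nat.strong_induction_on with
  | _ n ih =>
  intro H _ _ hn hH
  subst hn
  have IH : IHyp p (Nat.card H) := fun H' _ _ h hy => ih _ h H' rfl hy
  by_contra hN
  obtain ⟨X, hX, hXp, hmax⟩ := exists_core p H
  have hXb : X ≠ ⊥ := by
    obtain ⟨Y, hY1, hY2, hY3⟩ := step1 IH hH hN
    intro hb
    apply hY3
    rw [eq_bot_iff, ← hb]
    exact hmax Y hY1 hY2
  obtain ⟨N, hNn, hNc, k, hk⟩ := step3 IH hH hN hX hXp hXb hmax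
  have hsur : Function.Surjective (QuotientGroup.mk' X) := QuotientGroup.mk'_surjective X
  have hmk : ∀ x : H, QuotientGroup.mk' X x = 1 ↔ x ∈ X := fun x => QuotientGroup.eq_one_iff x
  set π := QuotientGroup.mk' X with hπ
  set K : Subgroup H := N.comap π with hKdef
  have hKn : K.Normal := hNn.comap π
  have hKi : K.index = p ^ k := by rw [hKdef, index_comap_of_surjective _ hsur, hk]
  set m := Nat.card N with hmdef
  have hKm : ∀ x ∈ K, x ^ m ∈ X := by
    intro x hx
    rw [← hmk, map_pow]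
    have h5 : (⟨π x, hx⟩ : N) ^ Nat.card N = 1 := pow_card_eq_one'
    exact congrArg Subtype.val h5
  have hXK : X ≤ K := by
    intro x hx
    rw [hKdef, mem_comap, (hmk x).2 hx]
    exact one_mem _
  have hO : ∀ Y : Subgroup H, Y.Normal → ¬ p ∣ Nat.card Y → Y = ⊥ :=
    fun Y h1 h2 => step2 IH hH hN Y h1 h2
  have hCX := step4 hX hXp hmax hO hKn hKi hNc hKm
  have h5 : ∀ M : Subgroup H, M ≠ ⊤ → ¬ p ∣ M.index → IsPGroup p M :=
    fun M h1 h2 => step5 IH hH hX hXp hCX M h1 h2
  have h5' : ∀ M : Subgroup (H ⧸ X), M ≠ ⊤ → ¬ p ∣ M.index → IsPGroup p M := by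
    intro M h1 h2
    have h3 : IsPGroup p ↥(M.comap π) := by
      apply h5
      · intro ht
        apply h1
        rw [eq_top_iff]
        intro y _
        obtain ⟨x, rfl⟩ := hsur y
        have : x ∈ M.comap π := by rw [ht]; exact mem_top _
        exact this
      · rw [index_comap_of_surjective _ hsur]; exact h2
    have h4 := h3.map π
    rwa [map_comap_eq_self_of_surjective hsur] at h4
  obtain ⟨hclaim, hNcomm⟩ := quot_struct h5' hNn hNc
  have hcenN := quot_cen (fun Y h1 h2 => core_quot hX hXp hmax Y h1 h2) hNn hNc hk hNcomm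
  -- a Sylow subgroup
  obtain ⟨P⟩ : Nonempty (Sylow p H) := inferInstance
  have hXP : X ≤ P := normal_le_sylow hX hXp P
  obtain ⟨g1, g2⟩ := hH P P.isPGroup' P.not_dvd_index
  -- the centre of X
  have hZmem : ∀ x, x ∈ cen X X ↔ x ∈ X ∧ ∀ b ∈ X, b * x = x * b := fun x => mem_cen
  have hZn : (cen X X).Normal := by
    rw [← normalizer_eq_top_iff, eq_top_iff, ← normalizer_eq_top_iff.2 hX]
    exact normalizer_le_cen
  have hZX : cen X X ≤ X := cen_le
  have hZc : ∀ z ∈ cen X X, ∀ x ∈ X, z * x = x * z := fun z hz x hx =>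
    (((hZmem z).1 hz).2 x hx).symm
  have hZP : cen (P : Subgroup H) (P : Subgroup H) ≤ cen X X := by
    intro x hx
    obtain ⟨h1, h2⟩ := mem_cen.1 hx
    rw [hZmem]
    have h3 : x ∈ X := by
      apply hCX
      rw [mem_centralizer_iff]
      exact fun y hy => h2 y (hXP hy)
    exact ⟨h3, fun y hy => h2 y (hXP hy)⟩
  let W : Subgroup H :=
    { carrier := {x | x ∈ cen X X ∧ x ^ p = 1}
      one_mem' := ⟨one_mem _, one_pow _⟩
      mul_mem' := by
        rintro a b ⟨ha1, ha2⟩ ⟨hb1, hb2⟩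
        have hab : Commute a b := hZc a ha1 b (hZX hb1)
        exact ⟨mul_mem ha1 hb1, by rw [hab.mul_pow, ha2, hb2, one_mul]⟩
      inv_mem' := by
        rintro a ⟨ha1, ha2⟩
        exact ⟨inv_mem ha1, by rw [inv_pow, ha2, inv_one]⟩ }
  have hWmem : ∀ x, x ∈ W ↔ x ∈ cen X X ∧ x ^ p = 1 := fun x => Iff.rfl
  have hWn : W.Normal := by
    constructor
    intro x hx g
    exact ⟨hZn.conj_mem x hx.1 g, by rw [conj_pow, hx.2, mul_one, mul_inv_cancel]⟩
  have hWX : W ≤ X := fun x hx => hZX hx.1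
  have hWc : ∀ x ∈ W, ∀ y ∈ X, x * y = y * x := fun x hx y hy => hZc x hx.1 y hy
  -- Claim A
  have claimA : centralizer (W : Set H) ≤ X := by
    set C := centralizer (W : Set H) with hCdef
    have hC : C.Normal := normal_centralizer_of hWn
    have hXC : X ≤ C := by
      intro x hx
      rw [hCdef, mem_centralizer_iff]
      intro w hw
      exact hWc w hw x hx
    by_cases hpg : IsPGroup p ↥(C.map π)
    · have h6 := core_quot hX hXp hmax (C.map π) (hC.map π hsur) hpg
      intro x hx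
      rw [← hmk]
      have h7 : π x ∈ C.map π := ⟨x, hx, rfl⟩
      rwa [h6, mem_bot] at h7
    · exfalso
      have h6 := hclaim (C.map π) (hC.map π hsur) hpg
      have h7 : K ≤ C := by
        intro x hx
        obtain ⟨c, hc, hcx⟩ := h6 hx
        have h8 : c⁻¹ * x ∈ X := by
          rw [← hmk, map_mul, map_inv, hcx, inv_mul_cancel]
        have h9 := C.mul_mem hc (hXC h8)
        rwa [mul_inv_cancel_left] at h9
      have h8 : ∀ g ∈ K, ∀ z ∈ cen X X, g * z = z * g := by
        intro g hg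
        apply coprime_triv hXp hZX hZn hZc hNc (hKm g hg)
        intro z hz hzp
        exact (mem_centralizer_iff.1 (h7 hg) z ⟨hz, hzp⟩).symm
      have h9 : K ≤ centralizer (cen (P : Subgroup H) (P : Subgroup H) : Set H) := by
        intro g hg
        rw [mem_centralizer_iff]
        intro z hz
        exact (h8 g hg z (hZP hz)).symm
      have h10 : (P : Subgroup H) ≤ centralizer (cen (P : Subgroup H) (P : Subgroup H) : Set H) := by
        intro g hg
        rw [mem_centralizer_iff]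
        intro z hz
        exact ((mem_cen.1 hz).2 g hg).symm
      have h11 : centralizer (cen (P : Subgroup H) (P : Subgroup H) : Set H) = ⊤ := by
        have h12 := (index_dvd_of_le h9)
        have h13 := (index_dvd_of_le h10)
        rw [hKi] at h12
        have h14 : Nat.Coprime (p ^ k) (P : Subgroup H).index :=
          ((Nat.Prime.coprime_iff_not_dvd hp.out).2 P.not_dvd_index).pow_left k
        exact index_eq_one.1 (Nat.eq_one_of_dvd_coprimes h14 h12 h13)
      rw [h11] at g2
      exact hN (pnilp_top g2)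
  -- Claim B
  obtain ⟨A, hAP, hAe, hAm, hAX⟩ : ∃ A : Subgroup H, A ≤ P ∧ eab p A ∧
      (∀ B ≤ (P : Subgroup H), eab p B → Nat.card B ≤ Nat.card A) ∧ ¬ A ≤ X := by
    by_contra hcon
    have h6 : JJ p (P : Subgroup H) ≤ X := by
      apply sSup_le
      rintro A ⟨hA1, hA2, hA3⟩
      by_contra h7
      exact hcon ⟨A, hA1, hA2, hA3, h7⟩
    rw [← JJ_eq_of_le hXP h6] at g1
    apply hN
    apply pnilp_top
    refine pnilp_mono ?_ g1
    rw [← normalizer_eq_top_iff.2 hX]
    exact normalizer_le_JJ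
  -- the representation
  obtain ⟨V, _, _, φ, e, he⟩ := exists_rep (p := p) W hWn
    (fun x hx y hy => hWc x hx y (hWX hy)) (fun x hx => hx.2)
  have hVfin : Finite V := Finite.of_equiv _ e.symm
  have hfix : ∀ g v, φ g v = v ↔ g * (e v : H) = (e v : H) * g := by
    intro g v
    rw [← e.injective.eq_iff, ← Subtype.coe_injective.eq_iff, he, mul_inv_eq_iff_eq_mul]
  have hker : ∀ g, φ g = 1 ↔ g ∈ X := by
    intro g
    constructor
    · intro h6
      apply claimA
      rw [mem_centralizer_iff]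
      intro w hw
      have h7 : φ g (e.symm ⟨w, hw⟩) = e.symm ⟨w, hw⟩ := by rw [h6]; rfl
      rw [hfix, Equiv.apply_symm_apply] at h7
      exact h7.symm
    · intro h6
      apply LinearEquiv.ext
      intro v
      change φ g v = v
      rw [hfix]
      exact (hWc _ (e v).2 g h6).symm
  have hkerX : φ.ker = X := by
    ext g
    exact hker g
  have hkc : ∀ x y, φ (x * y) = φ (y * x) ↔ π (x * y) = π (y * x) := by
    intro x y
    rw [← mul_inv_eq_one, ← map_inv, ← map_mul, hker, ← hmk, map_mul, map_inv, mul_inv_eq_one]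
  refine offend hOff hTrA hp2 φ hAe (by rw [hkerX]; exact hAX) hKn hNc
    (fun x hx => (hker _).2 (hKm x hx)) ?_ ?_ ?_
  · intro x hx y hy
    rw [hkc, map_mul, map_mul]
    exact hNcomm _ hx _ hy
  · intro a ha hcomm
    rw [hker, ← hmk]
    have h6 : π a ∈ centralizer (N : Set (H ⧸ X)) := by
      rw [mem_centralizer_iff]
      intro y hy
      obtain ⟨x, rfl⟩ := hsur y
      have h7 := (hkc _ _).1 (hcomm x hy)
      rw [map_mul, map_mul] at h7
      exact h7.symm
    have h7 := hcenN h6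
    have h8 : (π a) ^ p ^ 1 = 1 := by rw [pow_one, ← map_pow, hAe.1 a ha, map_one]
    have h9 : (π a) ^ Nat.card N = 1 := by
      have h5 : (⟨π a, h7⟩ : N) ^ Nat.card N = 1 := pow_card_eq_one'
      exact congrArg Subtype.val h5
    exact eq_one_of_both h8 h9 hNc
  · -- the inequality
    have hcV : Nat.card V = Nat.card W := Nat.card_congr e
    have hcA : Nat.card ↥(X ⊓ A) * Nat.card (A.map φ) = Nat.card A := by
      have h6 := relIndex_mul_relIndex ⊥ (X ⊓ A) A bot_le inf_le_right
      rw [relIndex_bot_left, relIndex_bot_left, inf_relIndex_right, ← hkerX, relIndex_ker,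
        hkerX] at h6
      exact h6
    have hB : eab p (X ⊓ A ⊔ W) := by
      have hdec : ∀ x ∈ X ⊓ A ⊔ W, ∃ a ∈ X ⊓ A, ∃ w ∈ W, a * w = x := by
        intro x hx
        rw [mem_sup_of_normal_right] at hx
        exact hx
      refine ⟨?_, ?_⟩
      · intro x hx
        obtain ⟨a, ha, w, hw, rfl⟩ := hdec x hx
        have h6 : Commute a w := (hWc w hw a ha.1).symm
        rw [h6.mul_pow, hAe.1 a ha.2, hw.2, one_mul]
      · intro x hx y hy
        obtain ⟨a, ha, w, hw, rfl⟩ := hdec x hx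
        obtain ⟨b, hb, v, hv, rfl⟩ := hdec y hy
        have h6 : Commute a b := hAe.2 a ha.2 b hb.2
        have h7 : Commute a v := (hWc v hv a ha.1).symm
        have h8 : Commute w b := hWc w hw b hb.1
        have h9 : Commute w v := hWc w hw v (hWX hv)
        exact ((h6.mul_right h7).mul_left (h8.mul_right h9)).eq
    have hBP : X ⊓ A ⊔ W ≤ (P : Subgroup H) := sup_le (inf_le_right.trans hAP) (hWX.trans hXP)
    have hBc := hAm _ hBP hB
    have hcB : Nat.card ↥(X ⊓ A ⊔ W) * Nat.card ↥(W ⊓ (X ⊓ A)) =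
        Nat.card W * Nat.card ↥(X ⊓ A) := by
      have h6 := relIndex_mul_relIndex ⊥ W (X ⊓ A ⊔ W) bot_le le_sup_right
      rw [relIndex_bot_left, relIndex_bot_left, relIndex_sup_right] at h6
      have h7 := relIndex_mul_relIndex ⊥ (W ⊓ (X ⊓ A)) (X ⊓ A) bot_le inf_le_right
      rw [relIndex_bot_left, relIndex_bot_left, inf_relIndex_right] at h7
      rw [← h6, ← h7]
      ring
    have hF : Nat.card ↥(W ⊓ (X ⊓ A)) ≤ Nat.card {v : V // ∀ a ∈ A, φ a v = v} := by
      apply Nat.card_le_card_of_injective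
        (fun w : ↥(W ⊓ (X ⊓ A)) => (⟨e.symm ⟨w, w.2.1⟩, by
          intro a ha
          rw [hfix, Equiv.apply_symm_apply]
          exact hAe.2 a ha _ w.2.2.2⟩ : {v : V // ∀ a ∈ A, φ a v = v}))
      intro v w hvw
      have h6 := congrArg (fun z => z.1) hvw
      have h7 := e.symm.injective h6
      exact Subtype.ext (congrArg (fun z : ↥W => (z : H)) h7)
    rw [hcV]
    have hpos : 0 < Nat.card ↥(X ⊓ A) := Nat.card_pos
    refine Nat.le_of_mul_le_mul_left (c := Nat.card ↥(X ⊓ A)) ?_ hpos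
    calc Nat.card ↥(X ⊓ A) * Nat.card W
        = Nat.card ↥(X ⊓ A ⊔ W) * Nat.card ↥(W ⊓ (X ⊓ A)) := by rw [hcB, mul_comm]
      _ ≤ Nat.card A * Nat.card {v : V // ∀ a ∈ A, φ a v = v} := Nat.mul_le_mul hBc hF
      _ = Nat.card ↥(X ⊓ A) * (Nat.card (A.map φ) * Nat.card {v : V // ∀ a ∈ A, φ a v = v}) := by
        rw [← hcA, mul_assoc]

lemma pnil_iff {Γ : Type} [Group Γ] {p : ℕ} {X : Subgroup Γ} : PNil p X ↔ PNilp p ↥X := by
  constructor
  · rintro ⟨N, hNX, hI, hc, k, hk⟩
    refine ⟨N.subgroupOf X, ?_, ?_, k, hk⟩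
    · constructor
      intro n hn g
      exact (mem_normalizer_iff.1 (hI g.2) n).1 hn
    · rwa [Nat.card_congr (Subgroup.subgroupOfEquivOfLe hNX).toEquiv]
  · rintro ⟨N, hN, hc, k, hk⟩
    have hNX : N.map X.subtype ≤ X := by
      rintro _ ⟨y, -, rfl⟩; exact y.2
    have hsub : (N.map X.subtype).subgroupOf X = N := by
      rw [subgroupOf, comap_map_eq_self_of_injective X.subtype_injective]
    refine ⟨N.map X.subtype, hNX, ?_, ?_, k, ?_⟩
    · intro g hg
      rw [mem_normalizer_iff]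
      intro n
      constructor
      · rintro ⟨y, hy, rfl⟩
        exact ⟨⟨g, hg⟩ * y * ⟨g, hg⟩⁻¹, hN.conj_mem y hy _, rfl⟩
      · rintro ⟨y, hy, hyn⟩
        refine ⟨⟨g, hg⟩⁻¹ * y * ⟨g, hg⟩, ?_, ?_⟩
        · have := hN.conj_mem y hy ⟨g, hg⟩⁻¹
          rwa [inv_inv] at this
        · change g⁻¹ * (y : Γ) * g = n
          have : (y : Γ) = g * n * g⁻¹ := hyn
          rw [this]; group
    · rwa [← Nat.card_congr (N.equivMapOfInjective _ X.subtype_injective).toEquiv]
    · change ((N.map X.subtype).subgroupOf X).index = p ^ k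
      rw [hsub]; exact hk

end Pool.Agent.T6.H88.FP.C4

namespace Pool.Agent.T6.H88.FP

open Subgroup Pool.Agent.R691.PN C4

/-- Thompson's normal `p`-complement theorem. -/
theorem c4' (hOff : StmtOff) (hTrA : StmtTrA) : StmtTho := by
  intro Γ _ _ p G P hp hp2 hPG hPp hPi h1 h2
  have hp' : Fact p.Prime := ⟨hp⟩
  rw [pnil_iff] at h1 h2 ⊢
  apply main hOff hTrA hp2 (Nat.card G) G rfl
  have hPp' : IsPGroup p ↥(P.subgroupOf G) := hPp.comap_of_injective G.subtype G.subtype_injective
  have hmap : (P.subgroupOf G).map G.subtype = P := by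
    rw [subgroupOf_map_subtype, inf_eq_left.2 hPG]
  have hinj : ∀ A : Subgroup G, ∀ x ∈ A, G.subtype x = 1 → x = 1 := by
    intro A x _ hx
    exact Subtype.ext hx
  refine hyp_of_one hPp' hPi ⟨?_, ?_⟩
  · refine pnilp_transfer G.subtype (hinj _) ?_ h1
    rintro _ ⟨x, hx, rfl⟩
    refine ⟨x.2, ?_⟩
    have h3 := le_normalizer_map G.subtype (Subgroup.mem_map_of_mem G.subtype hx)
    rwa [JJ_map G.subtype (hinj _), hmap] at h3
  · refine pnilp_transfer G.subtype (hinj _) ?_ h2
    rintro _ ⟨x, hx, rfl⟩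
    rw [mem_cen]
    refine ⟨x.2, ?_⟩
    intro b hb
    have h3 : (cen (P.subgroupOf G) (P.subgroupOf G)).map G.subtype = cen P P := by
      rw [cen_map G.subtype (hinj _), hmap]
    rw [← h3] at hb
    obtain ⟨b, hb, rfl⟩ := hb
    exact congrArg Subtype.val (mem_centralizer_iff.1 hx b hb)

/-- Thompson's normal `p`-complement theorem (with the arguments of the project). -/
theorem c4 (hOff : StmtOff) (hTrA : StmtTrA) (_hAxB : StmtAxB) : StmtTho := c4' hOff hTrA

end Pool.Agent.T6.H88.FP
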