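import Mathlib
import Pool.Agent.T6.H88.FP.Defs

/-!
# The uniqueness theorem
-/

set_option autoImplicit false

namespace Pool.Agent.T6.H88.FP

open Subgroup

namespace D2

variable {Γ : Type} [Group Γ]

theorem inv_iff {V X : Subgroup Γ} : Inv V X ↔ ∀ v ∈ V, ∀ x ∈ X, v * x * v⁻¹ ∈ X := by
  constructor
  · intro h v hv x hx
    exact (mem_normalizer_iff.1 (h hv) x).1 hx
  · intro h v hv
    rw [mem_normalizer_iff]
    intro x
    refine ⟨fun hx => h v hv x hx, fun hx => ?_⟩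
    have := h v⁻¹ (inv_mem hv) _ hx
    simpa [mul_assoc] using this

theorem inv_mono {V V' X : Subgroup Γ} (h : Inv V X) (hV : V' ≤ V) : Inv V' X := hV.trans h

theorem inv_self (X : Subgroup Γ) : Inv X X := le_normalizer

theorem inv_inf {V X Y : Subgroup Γ} (h1 : Inv V X) (h2 : Inv V Y) : Inv V (X ⊓ Y) := by
  rw [inv_iff] at *
  exact fun v hv x hx => ⟨h1 v hv x hx.1, h2 v hv x hx.2⟩

theorem inv_centralizer {V X : Subgroup Γ} (h : Inv V X) : Inv V (centralizer (X : Set Γ)) := by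
  rw [inv_iff]
  intro v hv c hc
  rw [mem_centralizer_iff] at hc ⊢
  intro x hx
  have h1 : v⁻¹ * x * v⁻¹⁻¹ ∈ X := inv_iff.1 h v⁻¹ (inv_mem hv) x hx
  have h2 := hc _ h1
  rw [inv_inv] at h2
  calc x * (v * c * v⁻¹) = v * ((v⁻¹ * x * v) * c) * v⁻¹ := by group
    _ = v * (c * (v⁻¹ * x * v)) * v⁻¹ := by rw [h2]
    _ = v * c * v⁻¹ * x := by group

theorem mem_cen {X : Subgroup Γ} {B : Set Γ} {x : Γ} :
    x ∈ cen X B ↔ x ∈ X ∧ x ∈ centralizer B := Iff.rfl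

theorem inv_cen {V X Y : Subgroup Γ} (h1 : Inv V X) (h2 : Inv V Y) :
    Inv V (cen X (Y : Set Γ)) := inv_inf h1 (inv_centralizer h2)

/-- Elements of coprime prime power orders. -/
theorem eq_one {q r : ℕ} (hq : q.Prime) (hr : r.Prime) (hne : q ≠ r) {x : Γ} {a b : ℕ}
    (h1 : x ^ q ^ a = 1) (h2 : x ^ r ^ b = 1) : x = 1 := by
  have h3 := orderOf_dvd_of_pow_eq_one h1
  have h4 := orderOf_dvd_of_pow_eq_one h2
  have h5 : Nat.Coprime (q ^ a) (r ^ b) :=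
    Nat.Coprime.pow _ _ ((Nat.coprime_primes hq hr).2 hne)
  have h6 := Nat.eq_one_of_dvd_coprimes h5 h3 h4
  exact orderOf_eq_one_iff.1 h6

theorem pg {q : ℕ} {X : Subgroup Γ} (h : IsPGroup q X) {x : Γ} (hx : x ∈ X) :
    ∃ k : ℕ, x ^ q ^ k = 1 := by
  obtain ⟨k, hk⟩ := h ⟨x, hx⟩
  exact ⟨k, by simpa [Subtype.ext_iff] using hk⟩

theorem pg_of {q : ℕ} {X : Subgroup Γ} (h : ∀ x ∈ X, ∃ k : ℕ, x ^ q ^ k = 1) : IsPGroup q X := by
  rintro ⟨x, hx⟩
  obtain ⟨k, hk⟩ := h x hx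
  exact ⟨k, by simpa [Subtype.ext_iff] using hk⟩

theorem pg_le {q : ℕ} {X Y : Subgroup Γ} (h : IsPGroup q X) (hY : Y ≤ X) : IsPGroup q Y :=
  pg_of fun _ hx => pg h (hY hx)

theorem mem_sup_comm {A B : Subgroup Γ} (h : ∀ a ∈ A, ∀ b ∈ B, a * b = b * a) {x : Γ}
    (hx : x ∈ A ⊔ B) : ∃ a ∈ A, ∃ b ∈ B, x = a * b := by
  let D : Subgroup Γ :=
    { carrier := {x | ∃ a ∈ A, ∃ b ∈ B, x = a * b}
      mul_mem' := by
        rintro x y ⟨a, ha, b, hb, rfl⟩ ⟨a', ha', b', hb', rfl⟩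
        refine ⟨a * a', mul_mem ha ha', b * b', mul_mem hb hb', ?_⟩
        calc a * b * (a' * b') = a * (b * a') * b' := by group
          _ = a * (a' * b) * b' := by rw [h a' ha' b hb]
          _ = a * a' * (b * b') := by group
      one_mem' := ⟨1, one_mem _, 1, one_mem _, by simp⟩
      inv_mem' := by
        rintro x ⟨a, ha, b, hb, rfl⟩
        refine ⟨a⁻¹, inv_mem ha, b⁻¹, inv_mem hb, ?_⟩
        rw [mul_inv_rev, h a⁻¹ (inv_mem ha) b⁻¹ (inv_mem hb)] }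
  have h1 : A ⊔ B ≤ D := sup_le (fun a ha => ⟨a, ha, 1, one_mem _, by simp⟩)
    (fun b hb => ⟨1, one_mem _, b, hb, by simp⟩)
  exact h1 hx

/-- The subgroup generated by the `r`-elements. -/
def OO (r : ℕ) (C : Subgroup Γ) : Subgroup Γ := closure {c | c ∈ C ∧ ∃ b : ℕ, c ^ r ^ b = 1}

theorem OO_le (r : ℕ) (C : Subgroup Γ) : OO r C ≤ C :=
  (closure_le C).2 fun _ hc => hc.1

theorem inv_OO {r : ℕ} {V C : Subgroup Γ} (h : Inv V C) : Inv V (OO r C) := by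
  rw [inv_iff] at *
  intro v hv x hx
  have h1 : OO r C ≤ (OO r C).comap (MulAut.conj v).toMonoidHom := by
    refine (closure_le _).2 ?_
    rintro c ⟨hc, b, hb⟩
    rw [SetLike.mem_coe, mem_comap]
    apply Subgroup.subset_closure
    refine ⟨?_, b, ?_⟩
    · simpa using h v hv c hc
    · rw [← map_pow, hb, map_one]
  have h2 := h1 hx
  rw [mem_comap] at h2
  simpa using h2

theorem inv_core {r : ℕ} {X O : Subgroup Γ} (h : Inv X O) : Inv X (core r O) := by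
  rw [inv_iff]
  intro v hv x hx
  have h1 : core r O ≤ (core r O).comap (MulAut.conj v).toMonoidHom := by
    refine sSup_le ?_
    rintro N ⟨hN1, hN2, hN3⟩
    intro n hn
    rw [mem_comap]
    have h2 : N.map (MulAut.conj v).toMonoidHom ≤ core r O := by
      apply le_sSup
      refine ⟨?_, ?_, ?_⟩
      · rintro _ ⟨y, hy, rfl⟩
        have := inv_iff.1 h v hv y (hN1 hy)
        simpa using this
      · rw [inv_iff]
        rintro o ho _ ⟨y, hy, rfl⟩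
        have h3 : v⁻¹ * o * v⁻¹⁻¹ ∈ O := inv_iff.1 h v⁻¹ (inv_mem hv) o ho
        rw [inv_inv] at h3
        refine ⟨(v⁻¹ * o * v) * y * (v⁻¹ * o * v)⁻¹, inv_iff.1 hN2 _ h3 y hy, ?_⟩
        simp only [MulEquiv.toMonoidHom_eq_coe, MonoidHom.coe_coe, MulAut.conj_apply]
        group
      · exact hN3.map _
    exact h2 ⟨n, hn, rfl⟩
  have h2 := h1 hx
  rw [mem_comap] at h2
  simpa using h2

theorem le_core {r : ℕ} {X N : Subgroup Γ} (h1 : N ≤ X) (h2 : Inv X N) (h3 : IsPGroup r N) :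
    N ≤ core r X := le_sSup ⟨h1, h2, h3⟩

theorem bot_of {q r : ℕ} (hq : q.Prime) (hr : r.Prime) (hne : q ≠ r) {A B : Subgroup Γ}
    (hA : IsPGroup q A) (hB : IsPGroup r B) {x : Γ} (h1 : x ∈ A) (h2 : x ∈ B) : x = 1 := by
  obtain ⟨a, ha⟩ := pg hA h1
  obtain ⟨b, hb⟩ := pg hB h2
  exact eq_one hq hr hne ha hb

/-- Two subgroups which are normalised by `M` and have coprime orders commute. -/
theorem comm_of {q r : ℕ} (hq : q.Prime) (hr : r.Prime) (hne : q ≠ r) {A B : Subgroup Γ}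
    (hA : IsPGroup q A) (hB : IsPGroup r B) (h1 : Inv B A) (h2 : Inv A B) :
    ∀ a ∈ A, ∀ b ∈ B, a * b = b * a := by
  intro a ha b hb
  have h3 : a * b * a⁻¹ * b⁻¹ = 1 := by
    apply bot_of hq hr hne hA hB
    · have := inv_iff.1 h1 b hb a⁻¹ (inv_mem ha)
      have h4 := mul_mem ha this
      convert h4 using 1
      group
    · exact mul_mem (inv_iff.1 h2 a ha b hb) (inv_mem hb)
  rw [mul_inv_eq_one, mul_inv_eq_iff_eq_mul] at h3
  exact h3

theorem inv_of_comm {A B : Subgroup Γ} (h : B ≤ centralizer (A : Set Γ)) : Inv A B := by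
  rw [inv_iff]
  intro a ha b hb
  have := mem_centralizer_iff.1 (h hb) a ha
  rw [this]
  simpa using hb

theorem cen_self_ne [Finite Γ] {q : ℕ} (hq : q.Prime) {E : Subgroup Γ} (h : IsPGroup q E)
    (hE : E ≠ ⊥) : cen E (E : Set Γ) ≠ ⊥ := by
  have : Fact q.Prime := ⟨hq⟩
  have : Nontrivial E := (nontrivial_iff_ne_bot E).2 hE
  have := h.center_nontrivial
  obtain ⟨⟨z, hz⟩, hz1⟩ := exists_ne (1 : center E)
  intro hcon
  apply hz1
  have hz' : (z : Γ) ∈ cen E (E : Set Γ) := ⟨z.2, mem_centralizer_iff.2 fun h hh => by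
    simpa using congrArg Subtype.val (mem_center_iff.1 hz ⟨h, hh⟩)⟩
  rw [hcon, mem_bot] at hz'
  ext
  simpa using hz'

section main

variable [Finite Γ] {p q r : ℕ} {V G : Subgroup Γ}

theorem half1 (hAxB : StmtAxB) (hq : q.Prime) (hr : r.Prime) (hne : q ≠ r)
    {P Er M X xq xr : Subgroup Γ} (hP : IsPGroup q P) (hEr : IsPGroup r Er)
    (hxq : IsPGroup q xq) (hxrE : xr ≤ Er) (hXP : Inv X P) (hPX : P ≤ X) (hME : Inv M Er)
    (hxqX : xq ≤ X) (hxrX : xr ≤ X) (hcomm : ∀ a ∈ xr, ∀ b ∈ xq, a * b = b * a)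
    (hc : cen X (xq : Set Γ) ≤ M) : P ≤ centralizer (xr : Set Γ) := by
  have hcard : ¬ q ∣ Nat.card xr := by
    have : Fact r.Prime := ⟨hr⟩
    obtain ⟨n, hn⟩ := IsPGroup.iff_card.1 (pg_le hEr hxrE)
    rw [hn]
    intro hd
    exact hne ((Nat.prime_dvd_prime_iff_eq hq hr).1 (hq.dvd_of_dvd_pow hd))
  refine hAxB Γ q xr xq P hq hxq hP hcard (inv_mono hXP hxrX) (inv_mono hXP hxqX) hcomm ?_
  intro c hc1
  rw [mem_centralizer_iff]
  intro y hy
  have hcP : c ∈ P := (mem_cen.1 hc1).1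
  have hcM : c ∈ M := hc (mem_cen.2 ⟨hPX hcP, (mem_cen.1 hc1).2⟩)
  have h3 : c * y * c⁻¹ * y⁻¹ = 1 := by
    apply bot_of hq hr hne hP hEr
    · have := inv_iff.1 hXP y (hxrX hy) c⁻¹ (inv_mem hcP)
      have h4 := mul_mem hcP this
      convert h4 using 1
      group
    · exact mul_mem (inv_iff.1 hME c hcM y (hxrE hy)) (inv_mem (hxrE hy))
  rw [mul_inv_eq_one, mul_inv_eq_iff_eq_mul] at h3
  exact h3.symm

omit [Finite Γ] in
theorem LL_sub {X Y : Subgroup Γ} (hX : LL V G q r X) (hY : Y ≤ X) (hV : Inv V Y) :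
    LL V G q r Y := by
  refine ⟨hY.trans hX.1, hV, ?_, ?_⟩
  · rintro rfl
    exact hX.2.2.1 (le_antisymm hX.1 hY)
  · intro s hs hd
    exact hX.2.2.2 s hs (hd.trans (card_dvd_of_le hY))

theorem half2 (hq : q.Prime) (hr : r.Prime) (hne : q ≠ r) (L : Loc p q r V G)
    (L' : Loc p r q V G) {Er M X xq xr : Subgroup Γ} (hX : LL V G q r X)
    (hEr : IsPGroup r Er) (hME : Inv M Er) (hxqX : xq ≤ X) (hxq : IsPGroup q xq)
    (hxrX : xr ≤ X) (hxrE : xr ≤ Er) (h1 : core q X ≤ centralizer (xr : Set Γ))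
    (h2 : core r X ≤ centralizer (xq : Set Γ)) (hc : cen X (xq : Set Γ) ≤ M) :
    xr ≤ core r X := by
  obtain ⟨q1, q2, q3, q4⟩ := L.cq X hX
  obtain ⟨r1, r2, r3, r4⟩ := L'.cq X (L.symL X hX)
  set C := cen X (core q X : Set Γ) with hC
  have hXC : Inv X C := inv_cen (inv_self X) q2
  have hVC : Inv V C := inv_cen hX.2.1 q4
  have hxrC : xr ≤ C := fun y hy => ⟨hxrX hy, mem_centralizer_iff.2 fun z hz =>
    (mem_centralizer_iff.1 (h1 hz) y hy).symm⟩
  have hqr : ∀ a ∈ core q X, ∀ b ∈ core r X, a * b = b * a :=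
    comm_of hq hr hne q3 r3 (inv_mono q2 r1) (inv_mono r2 q1)
  -- the `r`-elements of `C` centralise `xq`
  have key : ∀ c ∈ C, (∃ b : ℕ, c ^ r ^ b = 1) → ∀ y ∈ xq, y * c = c * y := by
    rintro c hc' ⟨b, hb⟩ y hy
    have hc : c ∈ X ∧ c ∈ centralizer (core q X : Set Γ) := hc'
    have hw : c * y * c⁻¹ * y⁻¹ ∈ cen X ((core q X ⊔ core r X : Subgroup Γ) : Set Γ) := by
      refine mem_cen.2 ⟨mul_mem (mul_mem (mul_mem hc.1 (hxqX hy)) (inv_mem hc.1)) (inv_mem (hxqX hy)), ?_⟩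
      have h3 : core q X ≤ centralizer {c * y * c⁻¹ * y⁻¹} := by
        intro z hz
        rw [mem_centralizer_iff]
        rintro _ rfl
        have e1 := mem_centralizer_iff.1 hc.2 z hz
        have hz2 : y⁻¹ * z * y⁻¹⁻¹ ∈ core q X := inv_iff.1 q2 y⁻¹ (inv_mem (hxqX hy)) z hz
        have e2 := mem_centralizer_iff.1 (inv_mem hc.2) _ hz2
        rw [inv_inv] at e2
        calc c * y * c⁻¹ * y⁻¹ * z = c * y * (c⁻¹ * (y⁻¹ * z * y)) * y⁻¹ := by group
          _ = c * y * ((y⁻¹ * z * y) * c⁻¹) * y⁻¹ := by rw [← e2]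
          _ = (c * z) * y * c⁻¹ * y⁻¹ := by group
          _ = (z * c) * y * c⁻¹ * y⁻¹ := by rw [e1]
          _ = z * (c * y * c⁻¹ * y⁻¹) := by group
      have h4 : core r X ≤ centralizer {c * y * c⁻¹ * y⁻¹} := by
        intro z hz
        rw [mem_centralizer_iff]
        rintro _ rfl
        have e1 := mem_centralizer_iff.1 (inv_mem (h2 hz)) y hy
        have e1' := mem_centralizer_iff.1 (h2 hz) y hy
        have hz2 : c⁻¹ * z * c⁻¹⁻¹ ∈ core r X := inv_iff.1 r2 c⁻¹ (inv_mem hc.1) z hz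
        have e2 := mem_centralizer_iff.1 (h2 hz2) y hy
        rw [inv_inv] at e2
        have e3 : y⁻¹ * z = z * y⁻¹ := by
          rw [inv_mul_eq_iff_eq_mul, ← mul_assoc, e1', mul_assoc, mul_inv_cancel, mul_one]
        calc c * y * c⁻¹ * y⁻¹ * z = c * y * c⁻¹ * (y⁻¹ * z) := by group
          _ = c * y * c⁻¹ * (z * y⁻¹) := by rw [e3]
          _ = c * (y * (c⁻¹ * z * c)) * c⁻¹ * y⁻¹ := by group
          _ = c * ((c⁻¹ * z * c) * y) * c⁻¹ * y⁻¹ := by rw [e2]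
          _ = z * (c * y * c⁻¹ * y⁻¹) := by group
      rw [mem_centralizer_iff]
      intro z hz
      exact (mem_centralizer_iff.1 (sup_le h3 h4 hz) _ rfl).symm
    obtain ⟨zq, hzq, zr, hzr, hzz⟩ := mem_sup_comm hqr (L.fit X hX hw)
    -- `zr = 1`
    have hzr1 : zr = 1 := by
      have hcy : c * y * c⁻¹ = zr * (zq * y) := by
        have : c * y * c⁻¹ = (c * y * c⁻¹ * y⁻¹) * y := by group
        rw [this, hzz, hqr zq hzq zr hzr, mul_assoc]
      have hcom : Commute zr (zq * y) := by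
        have e1 : zr * zq = zq * zr := (hqr zq hzq zr hzr).symm
        have e2 : y * zr = zr * y := mem_centralizer_iff.1 (h2 hzr) y hy
        show zr * (zq * y) = zq * y * zr
        rw [mul_assoc, e2, ← mul_assoc, ← mul_assoc, e1]
      have hsup : IsPGroup q (xq ⊔ core q X : Subgroup Γ) :=
        IsPGroup.to_sup_of_normal_right' hxq q3 (inv_mono q2 hxqX)
      obtain ⟨k, hk⟩ := pg hsup (mul_mem ((le_sup_right : core q X ≤ xq ⊔ core q X) hzq)
        ((le_sup_left : xq ≤ xq ⊔ core q X) hy))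
      obtain ⟨m, hm⟩ := pg hxq hy
      obtain ⟨n, hn⟩ := pg r3 hzr
      have e3 : (c * y * c⁻¹) ^ (q ^ (k + m)) = 1 := by
        rw [conj_pow, pow_add, mul_comm, pow_mul, hm, one_pow]
        group
      have e4 : (zq * y) ^ (q ^ (k + m)) = 1 := by
        rw [pow_add, pow_mul, hk, one_pow]
      rw [hcy, hcom.mul_pow, e4, mul_one] at e3
      exact eq_one hq hr hne e3 hn
    rw [hzr1, mul_one] at hzz
    have hcz : c * zq = zq * c := (mem_centralizer_iff.1 hc.2 zq hzq).symm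
    have hcy : c * y * c⁻¹ = zq * y := by
      rw [← hzz]; group
    have hpow : ∀ n : ℕ, c ^ n * y * (c ^ n)⁻¹ = zq ^ n * y := by
      intro n
      induction n with
      | zero => simp
      | succ n ih =>
        have hcz' : c * zq ^ n = zq ^ n * c := (show Commute c zq from hcz).pow_right n
        calc c ^ (n + 1) * y * (c ^ (n + 1))⁻¹ = c * (c ^ n * y * (c ^ n)⁻¹) * c⁻¹ := by
              rw [pow_succ']; group
          _ = c * (zq ^ n * y) * c⁻¹ := by rw [ih]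
          _ = (c * zq ^ n) * y * c⁻¹ := by group
          _ = zq ^ n * (c * y * c⁻¹) := by rw [hcz']; group
          _ = zq ^ (n + 1) * y := by rw [hcy, pow_succ]; group
    have h5 := hpow (r ^ b)
    rw [hb] at h5
    have h6 : zq ^ r ^ b = 1 := by
      have : (1 : Γ) * y * 1⁻¹ = 1 * y := by group
      rw [this] at h5
      exact (mul_right_cancel h5).symm
    obtain ⟨m, hm⟩ := pg q3 hzq
    have h7 : zq = 1 := eq_one hq hr hne hm h6
    rw [h7, one_mul, mul_inv_eq_iff_eq_mul] at hcy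
    exact hcy.symm
  have hOM : OO r C ≤ M := by
    refine le_trans ?_ hc
    refine (closure_le _).2 ?_
    rintro c ⟨hc, hb⟩
    exact ⟨hc.1, mem_centralizer_iff.2 fun y hy => key c hc hb y hy⟩
  have hxrO : xr ≤ OO r C := fun y hy => Subgroup.subset_closure
    ⟨hxrC hy, pg hEr (hxrE hy)⟩
  have hOX : OO r C ≤ X := (OO_le r C).trans inf_le_left
  have hD : OO r C ⊓ Er ≤ core r (OO r C) :=
    le_core inf_le_left (inv_inf (inv_self _) (inv_mono hME hOM)) (pg_le hEr inf_le_right)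
  obtain ⟨o1, _, o3, _⟩ := L'.cq (OO r C) (L.symL _ (LL_sub hX hOX (inv_OO hVC)))
  have hO : core r (OO r C) ≤ core r X :=
    le_core (o1.trans hOX) (inv_core (inv_OO hXC)) o3
  exact fun y hy => hO (hD ⟨hxrO hy, hxrE hy⟩)

/-- The main lemma. -/
theorem lem (hAxB : StmtAxB) (hq : q.Prime) (hr : r.Prime) (hne : q ≠ r) (L : Loc p q r V G)
    (L' : Loc p r q V G) {Eq Er M X xq xr : Subgroup Γ} (hX : LL V G q r X)
    (hEq : IsPGroup q Eq) (hEr : IsPGroup r Er) (hMEq : Inv M Eq) (hMEr : Inv M Er)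
    (hEqM : Eq ≤ M) (hErM : Er ≤ M) (hxqX : xq ≤ X) (hxrX : xr ≤ X) (hxqE : xq ≤ Eq)
    (hxrE : xr ≤ Er) (hcq : cen X (xq : Set Γ) ≤ M) (hcr : cen X (xr : Set Γ) ≤ M) :
    xq ≤ core q X ∧ xr ≤ core r X ∧ core q X ≤ M ∧ core r X ≤ M := by
  obtain ⟨q1, q2, q3, q4⟩ := L.cq X hX
  obtain ⟨r1, r2, r3, r4⟩ := L'.cq X (L.symL X hX)
  have hcomm := comm_of hq hr hne hEq hEr (inv_mono hMEq hErM) (inv_mono hMEr hEqM)
  have hxq := pg_le hEq hxqE
  have hxr := pg_le hEr hxrE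
  have h1 : core q X ≤ centralizer (xr : Set Γ) :=
    half1 hAxB hq hr hne q3 hEr hxq hxrE q2 q1 hMEr hxqX hxrX
      (fun a ha b hb => (hcomm b (hxqE hb) a (hxrE ha)).symm) hcq
  have h2 : core r X ≤ centralizer (xq : Set Γ) :=
    half1 hAxB hr hq hne.symm r3 hEq hxr hxqE r2 r1 hMEq hxrX hxqX
      (fun a ha b hb => hcomm a (hxqE ha) b (hxrE hb)) hcr
  refine ⟨?_, ?_, fun z hz => hcr ⟨q1 hz, h1 hz⟩, fun z hz => hcq ⟨r1 hz, h2 hz⟩⟩
  · exact half2 hr hq hne.symm L' L (L.symL X hX) hEq hMEq hxrX hxr hxqX hxqE h2 h1 hcr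
  · exact half2 hq hr hne L L' hX hEr hMEr hxqX hxq hxrX hxrE h1 h2 hcq

omit [Finite Γ] in
theorem ne_G {M x : Subgroup Γ} (hM : LL V G q r M) (hx : x ≤ M) : x ≠ G := by
  rintro rfl
  exact hM.2.2.1 (le_antisymm hM.1 hx)

theorem cen_le_Hn (L : Loc p q r V G) {M X x : Subgroup Γ} (hM : LL V G q r M)
    (hX : LL V G q r X) (hx : x ≤ M) (hV : Inv V x) (hx0 : x ≠ ⊥) :
    cen X (x : Set Γ) ≤ Hn V G q r x := by
  refine L.le_nor _ x (LL_sub hX inf_le_left (inv_cen hX.2.1 hV)) ?_ (hx.trans hM.1) hV hx0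
    (ne_G hM hx)
  apply inv_of_comm
  rw [le_centralizer_iff]
  exact inf_le_right

theorem u0 (hAxB : StmtAxB) (hq : q.Prime) (hr : r.Prime) (hne : q ≠ r) (L : Loc p q r V G)
    (L' : Loc p r q V G) {M X : Subgroup Γ} (hM : MM V G q r M) (hMq : core q M ≠ ⊥)
    (hMr : core r M ≠ ⊥) (hX : MM V G q r X) (h1 : core q M ≤ X) (h2 : core r M ≤ X) :
    X = M := by
  obtain ⟨q1, q2, q3, q4⟩ := L.cq M hM.1
  obtain ⟨r1, r2, r3, r4⟩ := L'.cq M (L.symL M hM.1)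
  obtain ⟨a1, a2, a3, a4⟩ := L.cq X hX.1
  obtain ⟨b1, b2, b3, b4⟩ := L'.cq X (L.symL X hX.1)
  have e1 := L.eqn M (core q M) hM q1 q4 q2 hMq
  have e2 := L.eqn M (core r M) hM r1 r4 r2 hMr
  have c1 := cen_le_Hn L hM.1 hX.1 q1 q4 hMq
  have c2 := cen_le_Hn L hM.1 hX.1 r1 r4 hMr
  rw [e1] at c1
  rw [e2] at c2
  obtain ⟨d1, d2, d3, d4⟩ := lem hAxB hq hr hne L L' hX.1 q3 r3 q2 r2 q1 r1 h1 h2 le_rfl le_rfl
    c1 c2
  have hXq : core q X ≠ ⊥ := fun h => hMq (le_bot_iff.1 (h ▸ d1))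
  have hXr : core r X ≠ ⊥ := fun h => hMr (le_bot_iff.1 (h ▸ d2))
  have f1 := L.eqn X (core q X) hX a1 a4 a2 hXq
  have f2 := L.eqn X (core r X) hX b1 b4 b2 hXr
  have g1 := cen_le_Hn L hX.1 hM.1 a1 a4 hXq
  have g2 := cen_le_Hn L hX.1 hM.1 b1 b4 hXr
  rw [f1] at g1
  rw [f2] at g2
  obtain ⟨k1, _, _, _⟩ := lem hAxB hq hr hne L L' hM.1 a3 b3 a2 b2 a1 b1 d3 d4 le_rfl le_rfl
    g1 g2
  have : core q X = core q M := le_antisymm k1 d1
  rw [← f1, ← e1, this]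

theorem fin1 (hAxB : StmtAxB) (hq : q.Prime) (hr : r.Prime) (hne : q ≠ r) (L : Loc p q r V G)
    (L' : Loc p r q V G) {M X x y : Subgroup Γ} (hM : MM V G q r M) (hX : MM V G q r X)
    (hx : x ≤ core q M) (hy : y ≤ core r M) (hx0 : x ≠ ⊥) (hy0 : y ≠ ⊥) (hxX : x ≤ X)
    (hyX : y ≤ X) (hcx : cen X (x : Set Γ) ≤ M) (hcy : cen X (y : Set Γ) ≤ M) : X = M := by
  obtain ⟨q1, q2, q3, q4⟩ := L.cq M hM.1
  obtain ⟨r1, r2, r3, r4⟩ := L'.cq M (L.symL M hM.1)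
  obtain ⟨d1, d2, d3, d4⟩ := lem hAxB hq hr hne L L' hX.1 q3 r3 q2 r2 q1 r1 hxX hyX hx hy
    hcx hcy
  have hXq : core q X ≠ ⊥ := fun h => hx0 (le_bot_iff.1 (h ▸ d1))
  have hXr : core r X ≠ ⊥ := fun h => hy0 (le_bot_iff.1 (h ▸ d2))
  exact (u0 hAxB hq hr hne L L' hX hXq hXr hM d3 d4).symm

theorem key1 (L : Loc p q r V G) {M X z A B : Subgroup Γ} (hM : MM V G q r M)
    (hu : ∀ X', MM V G q r X' → A ≤ X' → B ≤ X' → X' = M)
    (hX : LL V G q r X) (hz : z ≤ M) (hVz : Inv V z) (hz0 : z ≠ ⊥) (hA : LL V G q r A)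
    (hB : LL V G q r B) (h1 : A ≤ centralizer (z : Set Γ))
    (h2 : B ≤ centralizer (z : Set Γ)) : cen X (z : Set Γ) ≤ M := by
  have hzG := hz.trans hM.1.1
  have hzn := ne_G hM.1 hz
  obtain ⟨X', hX', hle⟩ := L.mx _ (L.nor z hzG hVz hz0 hzn).1
  have hA' : A ≤ X' := (L.le_nor A z hA (inv_of_comm (le_centralizer_iff.1 h1)) hzG hVz hz0
    hzn).trans hle
  have hB' : B ≤ X' := (L.le_nor B z hB (inv_of_comm (le_centralizer_iff.1 h2)) hzG hVz hz0
    hzn).trans hle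
  rw [← hu X' hX' hA' hB']
  exact (cen_le_Hn L hM.1 hX hz hVz hz0).trans hle

theorem u1 (hAxB : StmtAxB) (hq : q.Prime) (hr : r.Prime) (hne : q ≠ r) (L : Loc p q r V G)
    (L' : Loc p r q V G) {M X x y : Subgroup Γ} (hM : MM V G q r M) (hMq : core q M ≠ ⊥)
    (hMr : core r M ≠ ⊥) (hX : MM V G q r X) (hx : x ≤ cen (core q M) (core q M : Set Γ))
    (hy : y ≤ cen (core r M) (core r M : Set Γ)) (hx0 : x ≠ ⊥) (hy0 : y ≠ ⊥)
    (hVx : Inv V x) (hVy : Inv V y) (hxX : x ≤ X) (hyX : y ≤ X) : X = M := by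
  obtain ⟨q1, q2, q3, q4⟩ := L.cq M hM.1
  obtain ⟨r1, r2, r3, r4⟩ := L'.cq M (L.symL M hM.1)
  have hcomm := comm_of hq hr hne q3 r3 (inv_mono q2 r1) (inv_mono r2 q1)
  have hLq := LL_sub hM.1 q1 q4
  have hLr := LL_sub hM.1 r1 r4
  have hxq : x ≤ core q M := hx.trans inf_le_left
  have hyr : y ≤ core r M := hy.trans inf_le_left
  refine fin1 hAxB hq hr hne L L' hM hX hxq hyr hx0 hy0 hxX hyX ?_ ?_
  · refine key1 L hM (fun X' hX' h1 h2 => u0 hAxB hq hr hne L L' hM hMq hMr hX' h1 h2) hX.1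
      (hxq.trans q1) hVx hx0 hLq hLr ?_ ?_
    · rw [le_centralizer_iff]
      exact hx.trans inf_le_right
    · intro b hb
      rw [mem_centralizer_iff]
      exact fun a ha => hcomm a (hxq ha) b hb
  · refine key1 L hM (fun X' hX' h1 h2 => u0 hAxB hq hr hne L L' hM hMq hMr hX' h1 h2) hX.1
      (hyr.trans r1) hVy hy0 hLq hLr ?_ ?_
    · intro a ha
      rw [mem_centralizer_iff]
      exact fun b hb => (hcomm a ha b (hyr hb)).symm
    · rw [le_centralizer_iff]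
      exact hy.trans inf_le_right

theorem u2 (hAxB : StmtAxB) (hq : q.Prime) (hr : r.Prime) (hne : q ≠ r) (L : Loc p q r V G)
    (L' : Loc p r q V G) {M X x y : Subgroup Γ} (hM : MM V G q r M) (hMq : core q M ≠ ⊥)
    (hMr : core r M ≠ ⊥) (hX : MM V G q r X) (hx : x ≤ core q M)
    (hy : y ≤ core r M) (hx0 : x ≠ ⊥) (hy0 : y ≠ ⊥)
    (hVx : Inv V x) (hVy : Inv V y) (hxX : x ≤ X) (hyX : y ≤ X) : X = M := by
  obtain ⟨q1, q2, q3, q4⟩ := L.cq M hM.1
  obtain ⟨r1, r2, r3, r4⟩ := L'.cq M (L.symL M hM.1)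
  have hcomm := comm_of hq hr hne q3 r3 (inv_mono q2 r1) (inv_mono r2 q1)
  set A := cen (core q M) (core q M : Set Γ) with hA
  set B := cen (core r M) (core r M : Set Γ) with hB
  have hAq : A ≤ core q M := inf_le_left
  have hBr : B ≤ core r M := inf_le_left
  have hVA : Inv V A := inv_cen q4 q4
  have hVB : Inv V B := inv_cen r4 r4
  have hLA := LL_sub hM.1 (hAq.trans q1) hVA
  have hLB := LL_sub hM.1 (hBr.trans r1) hVB
  have hu : ∀ X', MM V G q r X' → A ≤ X' → B ≤ X' → X' = M := fun X' hX' h1 h2 =>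
    u1 hAxB hq hr hne L L' hM hMq hMr hX' le_rfl le_rfl (cen_self_ne hq q3 hMq)
      (cen_self_ne hr r3 hMr) hVA hVB h1 h2
  refine fin1 hAxB hq hr hne L L' hM hX hx hy hx0 hy0 hxX hyX ?_ ?_
  · refine key1 L hM hu hX.1 (hx.trans q1) hVx hx0 hLA hLB ?_ ?_
    · intro a ha
      rw [mem_centralizer_iff]
      exact fun b hb => mem_centralizer_iff.1 ha.2 b (hx hb)
    · intro b hb
      rw [mem_centralizer_iff]
      exact fun a ha => hcomm a (hx ha) b (hBr hb)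
  · refine key1 L hM hu hX.1 (hy.trans r1) hVy hy0 hLA hLB ?_ ?_
    · intro a ha
      rw [mem_centralizer_iff]
      exact fun b hb => (hcomm a (hAq ha) b (hy hb)).symm
    · intro b hb
      rw [mem_centralizer_iff]
      exact fun a ha => mem_centralizer_iff.1 hb.2 a (hy ha)

end main

end D2

/-- The uniqueness theorem. -/
theorem d2 (hLoc : StmtLoc) (hAxB : StmtAxB) : StmtU := by
  intro Γ _ _ p q r V G hB M hM hMq hMr X hX x y hx hy hx0 hy0 hVx hVy hxX hyX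
  obtain ⟨_, L, L'⟩ := hLoc Γ p q r V G hB
  obtain ⟨X', hX', hle⟩ := L.mx X hX
  have := D2.u2 hAxB hB.hq hB.hr hB.ne L L' hM hMq hMr hX' hx hy hx0 hy0 hVx hVy
    (hxX.trans hle) (hyX.trans hle)
  rwa [← this]

end Pool.Agent.T6.H88.FP
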