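import Mathlib
import Pool.Agent.T6.H88.FP.D2

/-!
# Fixed point free automorphisms of prime order
-/

set_option autoImplicit false

namespace Pool.Agent.T6.H88.FP

open Subgroup

namespace C5

open D2

variable {Γ : Type} [Group Γ]

theorem meet_center [Finite Γ] {r : ℕ} (hr : r.Prime) {T E : Subgroup Γ} (hT : IsPGroup r T)
    (hE : r ∣ Nat.card E) (h : Inv T E) : ∃ z ∈ E, z ≠ 1 ∧ ∀ t ∈ T, t * z = z * t := by
  have : Fact r.Prime := ⟨hr⟩
  let act : MulAction T E :=
    { smul := fun t e => ⟨t * e * (t : Γ)⁻¹, inv_iff.1 h t t.2 e e.2⟩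
      one_smul := fun e => Subtype.ext (by
        show ((1 : T) : Γ) * e * ((1 : T) : Γ)⁻¹ = e
        simp)
      mul_smul := fun s t e => Subtype.ext (by
        show ((s * t : T) : Γ) * e * ((s * t : T) : Γ)⁻¹ = s * (t * e * (t : Γ)⁻¹) * (s : Γ)⁻¹
        push_cast
        group) }
  have h1 : (1 : E) ∈ MulAction.fixedPoints T E := fun t => Subtype.ext (by
    show (t : Γ) * ((1 : E) : Γ) * (t : Γ)⁻¹ = ((1 : E) : Γ)
    simp)
  obtain ⟨b, hb, hb1⟩ := hT.exists_fixed_point_of_prime_dvd_card_of_fixed_point E hE h1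
  refine ⟨b, b.2, fun hc => hb1 (Subtype.ext (by simpa using hc.symm)), ?_⟩
  intro t ht
  have h2 := congrArg Subtype.val (hb ⟨t, ht⟩)
  change t * (b : Γ) * t⁻¹ = b at h2
  exact mul_inv_eq_iff_eq_mul.1 h2

/-- A nilpotent finite group has a normal complement of a Sylow subgroup. -/
theorem pnil_group (X : Type) [Group X] [Finite X] (q : ℕ) (hq : q.Prime)
    (h : Group.IsNilpotent X) :
    ∃ N : Subgroup X, N.Normal ∧ ¬ q ∣ Nat.card N ∧ ∃ k : ℕ, N.index = q ^ k := by
  have : Fact q.Prime := ⟨hq⟩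
  classical
  obtain ⟨e⟩ := ((Group.isNilpotent_of_finite_tfae (G := X)).out 0 4).mp h
  by_cases hqX : q ∈ (Nat.card X).primeFactors
  · let f : X →* (∀ P : Sylow q X, P) :=
      (Pi.evalMonoidHom (fun s : (Nat.card X).primeFactors => ∀ P : Sylow (s : ℕ) X, P)
        ⟨q, hqX⟩).comp e.symm.toMonoidHom
    refine ⟨f.ker, inferInstance, ?_, ?_⟩
    · intro hd
      obtain ⟨x, hx⟩ := exists_prime_orderOf_dvd_card' q hd
      have hx1 : (x : X) ^ q = 1 := by
        have := pow_orderOf_eq_one x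
        rw [hx] at this
        simpa using congrArg Subtype.val this
      have hx2 : e.symm (x : X) = 1 := by
        funext s P
        by_cases hs : (s : ℕ) = q
        · obtain ⟨s, hs'⟩ := s
          subst hs
          have h3 := x.2
          rw [MonoidHom.mem_ker] at h3
          exact congrFun h3 P
        · have hsp : (s : ℕ).Prime := Nat.prime_of_mem_primeFactors s.2
          have h4 : (e.symm (x : X) s P) ^ q ^ 1 = 1 := by
            rw [pow_one]
            have : (e.symm (x : X)) ^ q = 1 := by rw [← map_pow, hx1, map_one]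
            exact congrFun (congrFun this s) P
          obtain ⟨k, hk⟩ := P.isPGroup' (e.symm (x : X) s P)
          exact eq_one hq hsp (fun h => hs h.symm) h4 hk
      have hx3 : (x : X) = 1 := by
        have := congrArg e hx2
        simpa using this
      have hx4 : x = 1 := Subtype.ext hx3
      rw [hx4, orderOf_one] at hx
      exact hq.one_lt.ne hx
    · have hp : IsPGroup q (∀ P : Sylow q X, P) := by
        intro g
        have : ∀ P : Sylow q X, ∃ k : ℕ, (g P) ^ q ^ k = 1 := fun P => P.isPGroup' (g P)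
        choose k hk using this
        have : Fintype (Sylow q X) := Fintype.ofFinite _
        refine ⟨∑ P, k P, ?_⟩
        funext P
        rw [Pi.pow_apply, ← Finset.add_sum_erase _ _ (Finset.mem_univ P), pow_add, pow_mul,
          hk P, one_pow]
        rfl
      have hp2 : IsPGroup q f.range := hp.to_subgroup _
      obtain ⟨k, hk⟩ := IsPGroup.iff_card.1 hp2
      exact ⟨k, by rw [← hk, Subgroup.index_ker]⟩
  · refine ⟨⊤, inferInstance, ?_, 0, by simp⟩
    rw [Subgroup.card_top]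
    intro hd
    exact hqX (Nat.mem_primeFactors.2 ⟨hq, hd, Nat.card_pos.ne'⟩)

theorem pnil_of [Finite Γ] {q : ℕ} (hq : q.Prime) {X : Subgroup Γ} (h : Group.IsNilpotent X) :
    PNil q X := by
  obtain ⟨N, hN, h1, k, hk⟩ := pnil_group X q hq h
  refine ⟨N.map X.subtype, map_subtype_le N, ?_, ?_, k, ?_⟩
  · rw [inv_iff]
    rintro x hx _ ⟨n, hn, rfl⟩
    exact ⟨⟨x, hx⟩ * n * ⟨x, hx⟩⁻¹, hN.conj_mem n hn ⟨x, hx⟩, rfl⟩
  · rwa [card_map_of_injective X.subtype_injective]
  · rw [← hk, relIndex, subgroupOf, comap_map_eq_self_of_injective X.subtype_injective]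

theorem inv_JJ {q : ℕ} {V S : Subgroup Γ} (h : Inv V S) : Inv V (JJ q S) := by
  rw [inv_iff]
  intro v hv x hx
  have h1 : JJ q S ≤ (JJ q S).comap (MulAut.conj v).toMonoidHom := by
    refine sSup_le ?_
    rintro A ⟨hA1, hA2, hA3⟩
    intro n hn
    rw [mem_comap]
    have h2 : A.map (MulAut.conj v).toMonoidHom ≤ JJ q S := by
      apply le_sSup
      refine ⟨?_, ⟨?_, ?_⟩, ?_⟩
      · rintro _ ⟨y, hy, rfl⟩
        have := inv_iff.1 h v hv y (hA1 hy)
        simpa using this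
      · rintro _ ⟨y, hy, rfl⟩
        rw [← map_pow, hA2.1 y hy, map_one]
      · rintro _ ⟨y, hy, rfl⟩ _ ⟨z, hz, rfl⟩
        rw [← map_mul, ← map_mul, hA2.2 y hy z hz]
      · intro B hB hB2
        rw [card_map_of_injective (MulAut.conj v).injective]
        exact hA3 B hB hB2
    exact h2 ⟨n, hn, rfl⟩
  have h2 := h1 hx
  rw [mem_comap] at h2
  simpa using h2

theorem JJ_le (q : ℕ) (S : Subgroup Γ) : JJ q S ≤ S := sSup_le fun _ h => h.1

theorem JJ_ne [Finite Γ] {q : ℕ} (hq : q.Prime) {S : Subgroup Γ} (hS : IsPGroup q S)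
    (h : S ≠ ⊥) : JJ q S ≠ ⊥ := by
  have : Fact q.Prime := ⟨hq⟩
  have : Nontrivial S := (nontrivial_iff_ne_bot S).2 h
  have hd : q ∣ Nat.card S := by
    rcases hS.card_eq_or_dvd with h1 | h1
    · exact absurd (card_eq_one.1 h1) h
    · exact h1
  obtain ⟨z, hz⟩ := exists_prime_orderOf_dvd_card' q hd
  have hz' : orderOf (z : Γ) = q := by rw [← hz]; exact orderOf_coe z
  have hZ : eab q (zpowers (z : Γ)) := by
    constructor
    · rintro _ ⟨n, rfl⟩
      show ((z : Γ) ^ n) ^ q = 1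
      rw [← zpow_natCast, ← zpow_mul, mul_comm, zpow_mul, zpow_natCast, ← hz', pow_orderOf_eq_one,
        one_zpow]
    · rintro _ ⟨n, rfl⟩ _ ⟨m, rfl⟩
      show (z : Γ) ^ n * (z : Γ) ^ m = (z : Γ) ^ m * (z : Γ) ^ n
      rw [← zpow_add, ← zpow_add, add_comm]
  have hZS : zpowers (z : Γ) ≤ S := by
    rw [zpowers_le]; exact z.2
  obtain ⟨A, hA, hmax⟩ := Set.exists_max_image {A : Subgroup Γ | A ≤ S ∧ eab q A}
    (fun A => Nat.card A) (Set.toFinite _) ⟨_, hZS, hZ⟩
  intro hJ
  have hAJ : A ≤ JJ q S := le_sSup ⟨hA.1, hA.2, fun B hB hB2 => hmax B ⟨hB, hB2⟩⟩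
  rw [hJ, le_bot_iff] at hAJ
  have h3 := hmax _ ⟨hZS, hZ⟩
  rw [hAJ, Nat.card_zpowers, hz', card_bot] at h3
  exact absurd h3 (not_le.2 hq.one_lt)

theorem inv_normalizer {V G X : Subgroup Γ} (h1 : Inv V G) (h2 : Inv V X) :
    Inv V (G ⊓ normalizer (X : Set Γ)) := by
  apply inv_inf h1
  exact h2.trans le_normalizer

/-- A normal `q`-complement is invariant. -/
theorem inv_compl [Finite Γ] {q : ℕ} (hq : q.Prime) {V G N : Subgroup Γ} (hVG : Inv V G)
    (hN : N ≤ G) (hGN : Inv G N) (h1 : ¬ q ∣ Nat.card N) {k : ℕ} (hk : N.relIndex G = q ^ k) :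
    Inv V N := by
  rw [inv_iff]
  intro v hv n hn
  have hm : v * n * v⁻¹ ∈ G := inv_iff.1 hVG v hv n (hN hn)
  have hnorm : (N.subgroupOf G).Normal := by
    constructor
    rintro ⟨y, hy⟩ hyN ⟨g, hg⟩
    rw [mem_subgroupOf] at hyN ⊢
    exact inv_iff.1 hGN g hg y hyN
  have h2 := Subgroup.pow_index_mem (N.subgroupOf G) ⟨_, hm⟩
  have h3 : (N.subgroupOf G).index = q ^ k := hk
  rw [h3, mem_subgroupOf] at h2
  have h4 : (v * n * v⁻¹) ^ q ^ k ∈ N := by simpa using h2
  have h5 : orderOf (v * n * v⁻¹) = orderOf n := by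
    have : v * n * v⁻¹ = MulAut.conj v n := rfl
    rw [this]
    exact orderOf_injective (MulAut.conj v).toMonoidHom (MulAut.conj v).injective n
  have h6 : (q ^ k).Coprime (orderOf (v * n * v⁻¹)) := by
    rw [h5]
    apply Nat.Coprime.pow_left
    rw [Nat.Prime.coprime_iff_not_dvd hq]
    intro hd
    apply h1
    have : orderOf (⟨n, hn⟩ : N) = orderOf n := (orderOf_coe (⟨n, hn⟩ : N)).symm
    exact hd.trans (this ▸ orderOf_dvd_natCard (⟨n, hn⟩ : N))
  obtain ⟨m, hm'⟩ := exists_pow_eq_self_of_coprime h6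
  rw [← hm']
  exact pow_mem h4 m

/-- A subgroup containing all invariant Sylow subgroups. -/
theorem le_of_syl {V G C : Subgroup Γ}
    (h : ∀ s : ℕ, s.Prime → syl V s G ≤ C ∧ ¬ s ∣ (syl V s G).relIndex G) : G ≤ C := by
  rw [← relIndex_eq_one]
  by_contra hne
  obtain ⟨s, hs, hd⟩ := Nat.exists_prime_and_dvd hne
  obtain ⟨h1, h2⟩ := h s hs
  exact h2 (hd.trans (relIndex_dvd_of_le_left G h1))

theorem mem_cent_zpowers {x e : Γ} (h : x ∈ centralizer {e}) :
    x ∈ centralizer (zpowers e : Set Γ) := by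
  rw [mem_centralizer_iff] at h ⊢
  rintro _ ⟨n, rfl⟩
  exact ((show Commute e x from h e rfl).zpow_left n)

theorem nil_of_le [Finite Γ] {q : ℕ} (hq : q.Prime) {G S : Subgroup Γ} (hS : IsPGroup q S)
    (h : G ≤ S) : Group.IsNilpotent G := by
  have : Fact q.Prime := ⟨hq⟩
  exact (hS.to_le h).isNilpotent

/-- A group with a nontrivial centre. -/
theorem centre_case (hCop : StmtCop) (hLift : StmtLift) {n : ℕ}
    (ih : ∀ m < n, ∀ (Γ : Type) [Group Γ] [Finite Γ] (p : ℕ) (V G : Subgroup Γ),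
      Nat.card G = m → ElAb p V → Nat.card V ∣ p → Inv V G → cen G V = ⊥ →
        Group.IsNilpotent G)
    (Γ : Type) [Group Γ] [Finite Γ] (p : ℕ) (V G : Subgroup Γ) (hn : Nat.card G = n)
    (hV : ElAb p V) (hVp : Nat.card V ∣ p) (hVG : Inv V G) (hfix : cen G (V : Set Γ) = ⊥)
    (hZ : cen G (G : Set Γ) ≠ ⊥) : Group.IsNilpotent G := by
  have hp := hV.prime
  have hcop : ¬ p ∣ Nat.card G := hCop Γ p V G hV hVG hfix
  set Z := cen G (G : Set Γ) with hZdef
  have hZG : Z ≤ G := inf_le_left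
  have hGZ : Inv G Z := inv_cen (inv_self G) (inv_self G)
  have hVZ : Inv V Z := inv_cen hVG hVG
  let π : normalizer (Z : Set Γ) →* (normalizer (Z : Set Γ)) ⧸ Z.subgroupOf
    (normalizer (Z : Set Γ)) := QuotientGroup.mk' _
  have hπ : ∀ x : normalizer (Z : Set Γ), π x = 1 ↔ (x : Γ) ∈ Z := by
    intro x
    rw [← MonoidHom.mem_ker, QuotientGroup.ker_mk', mem_subgroupOf]
  let φ := π.comp (inclusion hGZ)
  let ψ := π.comp (inclusion hVZ)
  have hφker : ∀ g : G, φ g = 1 ↔ (g : Γ) ∈ Z := fun g => hπ _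
  have hker : φ.ker ≤ center G := by
    intro g hg
    rw [MonoidHom.mem_ker, hφker] at hg
    rw [mem_center_iff]
    intro h
    apply Subtype.ext
    exact mem_centralizer_iff.1 hg.2 h h.2
  have hcard : Nat.card φ.range < n := by
    have h1 : Nat.card φ.range * Nat.card φ.ker = Nat.card G := by
      rw [← Subgroup.index_ker, mul_comm]
      exact φ.ker.card_mul_index
    have h2 : φ.ker ≠ ⊥ := by
      intro hc
      apply hZ
      rw [eq_bot_iff]
      intro z hz
      have h3 : (⟨z, hZG hz⟩ : G) ∈ φ.ker := by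
        rw [MonoidHom.mem_ker, hφker]
        exact hz
      rw [hc, mem_bot] at h3
      rw [mem_bot]
      exact congrArg Subtype.val h3
    have h3 : 1 < Nat.card φ.ker := by
      have := (one_lt_card_iff_ne_bot φ.ker).2 h2
      exact this
    have h4 : 0 < Nat.card φ.range := Nat.card_pos
    rw [← hn, ← h1]
    exact (lt_mul_iff_one_lt_right h4).2 h3
  have hnil : Group.IsNilpotent φ.range := by
    refine ih _ hcard _ p ψ.range φ.range rfl ⟨hp, ?_, ?_⟩ ?_ ?_ ?_
    · rintro _ ⟨v, rfl⟩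
      rw [← map_pow]
      have : v ^ p = 1 := Subtype.ext (by simpa using hV.exp v v.2)
      rw [this, map_one]
    · rintro _ ⟨v, rfl⟩ _ ⟨w, rfl⟩
      rw [← map_mul, ← map_mul]
      congr 1
      exact Subtype.ext (hV.comm v v.2 w w.2)
    · exact (card_range_dvd ψ).trans hVp
    · rw [inv_iff]
      rintro _ ⟨v, rfl⟩ _ ⟨g, rfl⟩
      refine ⟨⟨v * g * (v : Γ)⁻¹, inv_iff.1 hVG v v.2 g g.2⟩, ?_⟩
      show π _ = π _ * π _ * (π _)⁻¹
      rw [← map_mul, ← map_inv, ← map_mul]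
      rfl
    · rw [eq_bot_iff]
      rintro _ ⟨⟨g, rfl⟩, hg⟩
      rw [mem_bot, hφker]
      obtain ⟨z, hz, hgz⟩ := hLift Γ p V Z g hp
        (pg_of fun v hv => ⟨1, by rw [pow_one]; exact hV.exp v hv⟩) hVZ
        (fun hd => hcop (hd.trans (card_dvd_of_le hZG))) (by
        intro b hb
        have h1 := mem_centralizer_iff.1 hg (ψ ⟨b, hb⟩) ⟨⟨b, hb⟩, rfl⟩
        have h2 : π ((inclusion hGZ g)⁻¹ * (inclusion hVZ ⟨b, hb⟩ * inclusion hGZ g *
            (inclusion hVZ ⟨b, hb⟩)⁻¹)) = 1 := by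
          rw [map_mul, map_inv, map_mul, map_mul, map_inv]
          change (φ g)⁻¹ * (ψ ⟨b, hb⟩ * φ g * (ψ ⟨b, hb⟩)⁻¹) = 1
          rw [h1]
          group
        rw [hπ] at h2
        exact h2)
      have h3 : (g : Γ) * z ∈ cen G (V : Set Γ) :=
        mem_cen.2 ⟨mul_mem g.2 (hZG hz), mem_centralizer_iff.2 fun b hb => hgz b hb⟩
      rw [hfix, mem_bot] at h3
      have h4 : (g : Γ) = z⁻¹ := mul_eq_one_iff_eq_inv.1 h3
      rw [h4]
      exact inv_mem hz
  refine Subgroup.isNilpotent_of_ker_le_center φ.rangeRestrict ?_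
  rw [MonoidHom.ker_rangeRestrict]
  exact hker

/-- The subgroup of the central elements with `z ^ r = 1`. -/
def EE (r : ℕ) (N : Subgroup Γ) : Subgroup Γ where
  carrier := {z | z ∈ cen N (N : Set Γ) ∧ z ^ r = 1}
  one_mem' := ⟨one_mem _, one_pow _⟩
  mul_mem' := by
    rintro a b ⟨ha, ha'⟩ ⟨hb, hb'⟩
    refine ⟨mul_mem ha hb, ?_⟩
    have : Commute a b := mem_centralizer_iff.1 hb.2 a ha.1
    rw [this.mul_pow, ha', hb', one_mul]
  inv_mem' := by
    rintro a ⟨ha, ha'⟩
    refine ⟨inv_mem ha, ?_⟩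
    rw [inv_pow, ha', inv_one]

theorem mem_EE {r : ℕ} {N : Subgroup Γ} {z : Γ} :
    z ∈ EE r N ↔ z ∈ cen N (N : Set Γ) ∧ z ^ r = 1 := Iff.rfl

theorem inv_EE {r : ℕ} {V N : Subgroup Γ} (h : Inv V N) : Inv V (EE r N) := by
  rw [inv_iff]
  rintro v hv z ⟨hz1, hz2⟩
  refine ⟨inv_iff.1 (inv_cen h h) v hv z hz1, ?_⟩
  rw [conj_pow, hz2]
  group

end C5

open D2 C5 in
/-- Thompson's theorem: a finite group with a fixed point free automorphism of prime order is
nilpotent. -/
theorem c5 (hSyl : StmtSyl) (hTho : StmtTho) (hF0 : StmtF0) (hCop : StmtCop)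
    (hLift : StmtLift) : StmtS1 := by
  suffices H : ∀ (n : ℕ) (Γ : Type) [Group Γ] [Finite Γ] (p : ℕ) (V G : Subgroup Γ),
      Nat.card G = n → ElAb p V → Nat.card V ∣ p → Inv V G → cen G V = ⊥ →
        Group.IsNilpotent G by
    intro Γ _ _ p V G h1 h2 h3 h4
    exact H _ Γ p V G rfl h1 h2 h3 h4
  intro n
  induction n using Nat.strong_induction_on with
  | _ n ih =>
  intro Γ _ _ p V G hn hV hVp hVG hfix
  have hp := hV.prime
  have hcop : ¬ p ∣ Nat.card G := hCop Γ p V G hV hVG hfix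
  have hsub : ∀ X ≤ G, Inv V X → X ≠ G → Group.IsNilpotent X := by
    intro X hX hVX hne
    have hlt : Nat.card X < n := by
      rw [← hn]
      refine lt_of_le_of_ne (card_le_of_le hX) fun hc => hne ?_
      exact eq_of_le_of_card_ge hX hc.ge
    exact ih _ hlt Γ p V X rfl hV hVp hVX (le_bot_iff.1 (hfix ▸ inf_le_inf_right _ hX))
  have : Fact p.Prime := ⟨hp⟩
  obtain ⟨e, he⟩ := (Subgroup.isCyclic_iff_exists_zpowers_eq_top V).1 (isCyclic_of_card_dvd_prime hVp)
  have heV : e ∈ V := he ▸ mem_zpowers e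
  have hcenE : ∀ X ≤ G, cen X {e} = ⊥ := by
    intro X hX
    rw [eq_bot_iff, ← hfix]
    intro x hx
    refine mem_cen.2 ⟨hX (mem_cen.1 hx).1, ?_⟩
    rw [← he]
    exact mem_cent_zpowers (mem_cen.1 hx).2
  by_cases hN : ∃ N ≤ G, Inv V N ∧ Inv G N ∧ N ≠ ⊥ ∧ N ≠ G
  · obtain ⟨N, hNG, hVN, hGN, hN1, hN2⟩ := hN
    have hnilN := hsub N hNG hVN hN2
    have : Nontrivial N := (nontrivial_iff_ne_bot N).2 hN1
    have hZ1 : cen N (N : Set Γ) ≠ ⊥ := by
      obtain ⟨⟨z, hz⟩, hz1⟩ : ∃ z : center N, z ≠ 1 := by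
        have := (nontrivial_iff_ne_bot _).2 (Group.IsNilpotent.center_ne_bot (G := N))
        exact exists_ne 1
      intro hcon
      apply hz1
      have hz' : (z : Γ) ∈ cen N (N : Set Γ) := ⟨z.2, mem_centralizer_iff.2 fun h hh => by
        simpa using congrArg Subtype.val (mem_center_iff.1 hz ⟨h, hh⟩)⟩
      rw [hcon, mem_bot] at hz'
      ext
      simpa using hz'
    obtain ⟨r, hr, hrd⟩ := Nat.exists_prime_and_dvd (n := Nat.card (cen N (N : Set Γ)))
      (fun h => hZ1 (card_eq_one.1 h))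
    have : Fact r.Prime := ⟨hr⟩
    have hEG : EE r N ≤ G := fun z hz => hNG (mem_cen.1 (mem_EE.1 hz).1).1
    have hGE : Inv G (EE r N) := inv_EE hGN
    have hVE : Inv V (EE r N) := inv_EE hVN
    have hEp : IsPGroup r (EE r N) := pg_of fun z hz => ⟨1, by rw [pow_one]; exact hz.2⟩
    have hrE : r ∣ Nat.card (EE r N) := by
      obtain ⟨z, hz⟩ := exists_prime_orderOf_dvd_card' r hrd
      have h1 : (z : Γ) ^ r = 1 := by
        have := pow_orderOf_eq_one z
        rw [hz] at this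
        simpa using congrArg Subtype.val this
      have h2 : (z : Γ) ∈ EE r N := ⟨z.2, h1⟩
      have h3 : orderOf (⟨(z : Γ), h2⟩ : EE r N) = orderOf z := by
        rw [← orderOf_coe, ← orderOf_coe]
      have h4 := _root_.orderOf_dvd_natCard (⟨(z : Γ), h2⟩ : EE r N)
      rw [h3] at h4
      exact hz.symm.dvd.trans h4
    have hsolE : Group.IsSolvable (EE r N) := by
      have : Group.IsNilpotent (EE r N) := hEp.isNilpotent
      infer_instance
    obtain ⟨z, hz, hz1, hzT⟩ := meet_center hr (hSyl Γ p V G r hV hVG hfix hr).2.2.1 hrE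
      (inv_mono hGE (hSyl Γ p V G r hV hVG hfix hr).1)
    have hGz : G ≤ centralizer {z} := by
      apply le_of_syl (V := V)
      intro s hs
      obtain ⟨s1, s2, s3, s4, _⟩ := hSyl Γ p V G s hV hVG hfix hs
      refine ⟨?_, s4⟩
      intro t ht
      rw [mem_centralizer_iff]
      rintro _ rfl
      by_cases hsr : s = r
      · subst hsr
        exact (hzT t ht).symm
      · have : Fact s.Prime := ⟨hs⟩
        have h1 := hF0 Γ p (EE r N) (syl V s G) e hp (hV.exp e heV) (he ▸ s2) (he ▸ hVE)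
          (inv_mono hGE s1) (hcenE _ s1) (hcenE _ hEG) (by
            obtain ⟨a, ha⟩ := IsPGroup.iff_card.1 s3
            obtain ⟨b, hb⟩ := IsPGroup.iff_card.1 hEp
            rw [ha, hb]
            exact Nat.Coprime.pow _ _ ((Nat.coprime_primes hs hr).2 hsr)) hsolE
        exact (mem_centralizer_iff.1 (h1 hz) t ht).symm
    have hzc : z ∈ cen G (G : Set Γ) := mem_cen.2 ⟨hEG hz, mem_centralizer_iff.2 fun g hg =>
      (mem_centralizer_iff.1 (hGz hg) z rfl).symm⟩
    refine centre_case hCop hLift ih Γ p V G hn hV hVp hVG hfix fun hc => hz1 ?_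
    rw [hc, mem_bot] at hzc
    exact hzc
  · have hN' : ∀ N ≤ G, Inv V N → Inv G N → N ≠ ⊥ → N = G := by
      intro N h1 h2 h3 h4
      by_contra h5
      exact hN ⟨N, h1, h2, h3, h4, h5⟩
    by_cases hodd : ∃ q : ℕ, q.Prime ∧ q ≠ 2 ∧ q ∣ Nat.card G
    · obtain ⟨q, hq, hq2, hqG⟩ := hodd
      have : Fact q.Prime := ⟨hq⟩
      obtain ⟨s1, s2, s3, s4, _⟩ := hSyl Γ p V G q hV hVG hfix hq
      set S := syl V q G with hS
      have hS0 : S ≠ ⊥ := by
        intro hc
        rw [hc, relIndex_bot_left] at s4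
        exact s4 hqG
      by_cases hJ : G ⊓ normalizer (JJ q S : Set Γ) = G
      · have h1 : Inv G (JJ q S) := inf_eq_left.1 hJ
        have h2 := hN' (JJ q S) ((JJ_le q S).trans s1) (inv_JJ s2) h1 (JJ_ne hq s3 hS0)
        exact nil_of_le hq s3 (h2 ▸ JJ_le q S)
      have hJn := hsub _ inf_le_left (inv_normalizer hVG (inv_JJ s2)) hJ
      by_cases hC : cen G (cen S (S : Set Γ) : Set Γ) = G
      · have h1 : G ≤ centralizer (cen S (S : Set Γ) : Set Γ) := inf_eq_left.1 hC
        have h2 : Inv G (cen S (S : Set Γ)) := by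
          apply inv_of_comm
          rw [le_centralizer_iff]
          exact h1
        have h3 := hN' (cen S (S : Set Γ)) (inf_le_left.trans s1) (inv_cen s2 s2) h2
          (cen_self_ne hq s3 hS0)
        refine nil_of_le hq s3 (G := G) ?_
        rw [← h3]
        exact inf_le_left
      have hCn := hsub _ inf_le_left (inv_cen hVG (inv_cen s2 s2)) hC
      obtain ⟨N, n1, n2, n3, k, n4⟩ := hTho Γ q G S hq hq2 s1 s3 s4 (pnil_of hq hJn)
        (pnil_of hq hCn)
      have hVN := inv_compl hq hVG n1 n2 n3 n4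
      by_cases hNb : N = ⊥
      · rw [hNb, relIndex_bot_left] at n4
        exact (IsPGroup.of_card n4).isNilpotent
      · have := hN' N n1 hVN n2 hNb
        rw [this] at n3
        exact absurd hqG n3
    · have h2 : Nat.card G = 2 ^ (Nat.card G).primeFactorsList.length := by
        apply Nat.eq_prime_pow_of_unique_prime_dvd Nat.card_pos.ne'
        intro d hd hdG
        by_contra h
        exact hodd ⟨d, hd, h, hdG⟩
      exact (IsPGroup.of_card h2).isNilpotent

end Pool.Agent.T6.H88.FP
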