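import Pool.Agent.T6.H88.FP.Defs

/-! # Project FP, module C6 (helper58): fusion and transfer -/

namespace Pool.Agent.T6.H88.FP

open Subgroup

namespace ModC6

lemma commute_of_coprime (C : Type) [Group C] [Group.IsNilpotent C] :
    ∀ (a b : C) (m n : ℕ), m.Coprime n → a ^ m = 1 → b ^ n = 1 → a * b = b * a := by
  refine Group.nilpotent_center_quotient_ind (P := fun C _ _ =>
    ∀ (a b : C) (m n : ℕ), m.Coprime n → a ^ m = 1 → b ^ n = 1 → a * b = b * a) C ?_ ?_
  · intro G _ _ a b m n _ _ _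
    exact Subsingleton.elim _ _
  · intro G _ _ ih a b m n hmn ha hb
    have h1 := ih (a : G ⧸ center G) (b : G ⧸ center G) m n hmn
      (by rw [← QuotientGroup.mk_pow, ha]; rfl) (by rw [← QuotientGroup.mk_pow, hb]; rfl)
    have hc : (b * a)⁻¹ * (a * b) ∈ center G := by
      rw [← QuotientGroup.mk_mul, ← QuotientGroup.mk_mul] at h1
      exact QuotientGroup.eq.1 h1.symm
    set c := (b * a)⁻¹ * (a * b) with hcdef
    have hcc : ∀ g, g * c = c * g := fun g => (mem_center_iff.1 hc g)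
    have hab : a * b = b * a * c := by rw [hcdef]; group
    have hk : ∀ k : ℕ, a ^ k * b = b * a ^ k * c ^ k := by
      intro k
      induction k with
      | zero => simp
      | succ k ih =>
        calc a ^ (k + 1) * b = a * (a ^ k * b) := by rw [pow_succ']; group
          _ = a * (b * a ^ k * c ^ k) := by rw [ih]
          _ = (a * b) * a ^ k * c ^ k := by group
          _ = b * a * c * a ^ k * c ^ k := by rw [hab]
          _ = b * a * (c * a ^ k) * c ^ k := by group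
          _ = b * a * (a ^ k * c) * c ^ k := by rw [← hcc (a ^ k)]
          _ = b * a ^ (k + 1) * c ^ (k + 1) := by rw [pow_succ' a, pow_succ' c]; group
    have hk2 : ∀ k : ℕ, a * b ^ k = b ^ k * a * c ^ k := by
      intro k
      induction k with
      | zero => simp
      | succ k ih =>
        calc a * b ^ (k + 1) = (a * b ^ k) * b := by rw [pow_succ]; group
          _ = (b ^ k * a * c ^ k) * b := by rw [ih]
          _ = b ^ k * a * (c ^ k * b) := by group
          _ = b ^ k * a * (b * c ^ k) := by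
              rw [((show Commute b c from hcc b).pow_right k).eq]
          _ = b ^ k * (a * b) * c ^ k := by group
          _ = b ^ k * (b * a * c) * c ^ k := by rw [hab]
          _ = b ^ (k + 1) * a * c ^ (k + 1) := by rw [pow_succ b, pow_succ' c]; group
    have h3 : c ^ m = 1 := by
      have := hk m
      rw [ha, one_mul, mul_one] at this
      exact (mul_left_cancel ((mul_one b).trans this)).symm
    have h4 : c ^ n = 1 := by
      have := hk2 n
      rw [hb, mul_one, one_mul] at this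
      exact (mul_left_cancel ((mul_one a).trans this)).symm
    have h5 : c = 1 := by
      have := pow_gcd_eq_one.2 ⟨h3, h4⟩
      rwa [hmn, pow_one] at this
    rw [hab, h5, mul_one]

lemma transfer_pow {G : Type} [Group G] {H : Subgroup G} [H.FiniteIndex] {A : Type}
    [CommGroup A] (ϕ : H →* A) (x : H)
    (key : ∀ (k : ℕ) (g₀ : G) (hk : g₀⁻¹ * (x : G) ^ k * g₀ ∈ H),
      ϕ ⟨g₀⁻¹ * (x : G) ^ k * g₀, hk⟩ = ϕ x ^ k) :
    MonoidHom.transfer ϕ (x : G) = ϕ x ^ H.index := by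
  classical
  let := H.fintypeQuotientOfFiniteIndex
  rw [MonoidHom.transfer_eq_prod_quotient_orbitRel_zpowers_quot,
    index_eq_sum_minimalPeriod H (x : G), ← Finset.prod_pow_eq_pow_sum]
  refine Finset.prod_congr rfl fun q _ => ?_
  exact key _ _ _

variable {Γ : Type} [Group Γ] [Finite Γ]

/-- conjugation in `G` is conjugation in `C_G(e)` -/
lemma conj_cen (hFix : StmtFix) {p : ℕ} {G S : Subgroup Γ} {e : Γ} (hp : p.Prime)
    (hep : e ^ p = 1) (hinv : Inv (zpowers e) G) (hpG : ¬ p ∣ Nat.card G)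
    (hSe : S ≤ centralizer {e}) {x y g : Γ} (hx : x ∈ S) (hy : y ∈ S)
    (hg : g ∈ G) (hgxy : g * x * g⁻¹ = y) : ∃ c ∈ cen G {e}, c * x * c⁻¹ = y := by
  let Ω : Set Γ := {g | g ∈ G ∧ g * x * g⁻¹ = y}
  have hex : e * x = x * e := by
    have := mem_centralizer_iff.1 (hSe hx) e rfl
    exact this
  have hey : e * y = y * e := by
    have := mem_centralizer_iff.1 (hSe hy) e rfl
    exact this
  have hB : IsPGroup p (zpowers e) := by
    have : Fact p.Prime := ⟨hp⟩
    rw [IsPGroup.iff_card]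
    rcases (Nat.dvd_prime hp).1 (Nat.card_zpowers e ▸ orderOf_dvd_of_pow_eq_one hep) with h | h
    · exact ⟨0, by rw [h, pow_zero]⟩
    · exact ⟨1, by rw [h, pow_one]⟩
  have hcomm : ∀ b ∈ zpowers e, b * x = x * b ∧ b * y = y * b := by
    rintro b ⟨k, rfl⟩
    exact ⟨((show Commute e x from hex).zpow_left k).eq, ((show Commute e y from hey).zpow_left k).eq⟩
  have hΩ1 : ∀ b ∈ zpowers e, ∀ w ∈ Ω, b * w * b⁻¹ ∈ Ω := by
    rintro b hb w ⟨hw, hwx⟩
    refine ⟨?_, ?_⟩
    · exact (mem_normalizer_iff.1 (hinv hb) w).1 hw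
    · obtain ⟨h1, h2⟩ := hcomm b hb
      have h3 : b⁻¹ * x * b = x := by rw [mul_assoc, ← h1]; group
      calc b * w * b⁻¹ * x * (b * w * b⁻¹)⁻¹ = b * (w * (b⁻¹ * x * b) * w⁻¹) * b⁻¹ := by group
        _ = b * y * b⁻¹ := by rw [h3, hwx]
        _ = y := by rw [h2]; group
  have hΩ2 : Ω = (fun c => g * c) '' ((cen G {x} : Subgroup Γ) : Set Γ) := by
    ext w
    constructor
    · rintro ⟨hw, hwx⟩
      refine ⟨g⁻¹ * w, ?_, by simp⟩
      refine ⟨G.mul_mem (G.inv_mem hg) hw, ?_⟩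
      refine mem_centralizer_iff.2 ?_
      rintro z rfl
      have : w * z * w⁻¹ = g * z * g⁻¹ := by rw [hwx, hgxy]
      have h2 : w * z = g * z * g⁻¹ * w := by rw [← this]; group
      calc z * (g⁻¹ * w) = g⁻¹ * (g * z * g⁻¹ * w) := by group
        _ = g⁻¹ * (w * z) := by rw [h2]
        _ = g⁻¹ * w * z := by group
    · rintro ⟨c, ⟨hc1, hc2⟩, rfl⟩
      have := mem_centralizer_iff.1 hc2 x rfl
      refine ⟨G.mul_mem hg hc1, ?_⟩
      show g * c * x * (g * c)⁻¹ = y
      calc g * c * x * (g * c)⁻¹ = g * (c * x) * c⁻¹ * g⁻¹ := by group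
        _ = g * (x * c) * c⁻¹ * g⁻¹ := by rw [this]
        _ = g * x * g⁻¹ := by group
        _ = y := hgxy
  have hΩ3 : ¬ p ∣ Ω.ncard := by
    rw [hΩ2, Set.ncard_image_of_injective _ (mul_right_injective g), ← Nat.card_coe_set_eq]
    intro h
    exact hpG (h.trans (card_dvd_of_le (inf_le_left : cen G {x} ≤ G)))
  obtain ⟨c, ⟨hc1, hc2⟩, hc3⟩ := hFix Γ p (zpowers e) Ω hp hB hΩ1 hΩ3
  refine ⟨c, ⟨hc1, ?_⟩, hc2⟩
  refine mem_centralizer_iff.2 ?_
  rintro z rfl
  exact hc3 z (mem_zpowers z)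

/-- conjugation in a nilpotent group `C` between elements of its Sylow subgroup `S` -/
lemma conj_S {r : ℕ} (hr : r.Prime) {C S : Subgroup Γ} (hnil : Group.IsNilpotent C) (hSC : S ≤ C)
    (hS : IsPGroup r S) (hrS : ¬ r ∣ S.relIndex C) {x g : Γ} (hx : x ∈ S)
    (hg : g ∈ C) : ∃ s ∈ S, g * x * g⁻¹ = s * x * s⁻¹ := by
  have : Fact r.Prime := ⟨hr⟩
  -- the Sylow subgroup
  have hS' : IsPGroup r (S.subgroupOf C) := hS.comap_of_injective C.subtype C.subtype_injective
  let P : Sylow r C := hS'.toSylow hrS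
  have hPn : (P : Subgroup C).Normal := by
    have h := (Group.isNilpotent_of_finite_tfae (G := C)).out 0 3
    exact (h.1 hnil) r ⟨hr⟩ P
  have hPc : (P : Subgroup C) = S.subgroupOf C := rfl
  -- decomposition of g
  let g' : C := ⟨g, hg⟩
  obtain ⟨a, m, hm, hgm⟩ := Nat.exists_eq_pow_mul_and_not_dvd (orderOf_pos g').ne' r hr.ne_one
  have hcop : (r ^ a).Coprime m := Nat.Coprime.pow_left a ((Nat.Prime.coprime_iff_not_dvd hr).2 hm)
  obtain ⟨u, v, huv⟩ : ∃ u v : ℤ, u * (r ^ a : ℕ) + v * m = 1 := by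
    have := (Nat.isCoprime_iff_coprime.2 hcop)
    exact this
  let g1 : C := g' ^ (v * m)
  let g2 : C := g' ^ (u * (r ^ a : ℕ))
  have hgg : g' = g1 * g2 := by
    show g' = g' ^ (v * m) * g' ^ (u * (r ^ a : ℕ))
    rw [← zpow_add, add_comm, huv, zpow_one]
  have hg0 : g' ^ ((r ^ a * m : ℕ) : ℤ) = 1 := by
    rw [← hgm, zpow_natCast, pow_orderOf_eq_one]
  have hg1 : g1 ^ (r ^ a) = 1 := by
    show (g' ^ (v * m)) ^ (r ^ a) = 1
    rw [← zpow_natCast, ← zpow_mul]
    have : v * (m : ℤ) * ((r ^ a : ℕ) : ℤ) = ((r ^ a * m : ℕ) : ℤ) * v := by push_cast; ring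
    rw [this, zpow_mul, hg0, one_zpow]
  have hg2 : g2 ^ m = 1 := by
    show (g' ^ (u * (r ^ a : ℕ))) ^ m = 1
    rw [← zpow_natCast, ← zpow_mul]
    have : u * ((r ^ a : ℕ) : ℤ) * (m : ℤ) = ((r ^ a * m : ℕ) : ℤ) * u := by push_cast; ring
    rw [this, zpow_mul, hg0, one_zpow]
  -- g1 in S
  have hg1S : g1 ∈ (P : Subgroup C) := by
    have hz : IsPGroup r (zpowers g1) := by
      rw [IsPGroup.iff_card]
      obtain ⟨k, -, hk⟩ := (Nat.dvd_prime_pow hr).1
        ((Nat.card_zpowers g1) ▸ orderOf_dvd_of_pow_eq_one hg1)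
      exact ⟨k, hk⟩
    obtain ⟨Q, hQ⟩ := hz.exists_le_sylow
    have : Q = P := by
      have := hPn
      have := Sylow.unique_of_normal P hPn
      exact Subsingleton.elim _ _
    rw [← this]
    exact hQ (mem_zpowers g1)
  -- g2 commutes with x
  have hx2 : g2 * ⟨x, hSC hx⟩ = ⟨x, hSC hx⟩ * g2 := by
    obtain ⟨k, hk⟩ := hS ⟨x, hx⟩
    refine commute_of_coprime C g2 ⟨x, hSC hx⟩ m (r ^ k) ?_ hg2 ?_
    · exact (Nat.Coprime.pow_left k ((Nat.Prime.coprime_iff_not_dvd hr).2 hm)).symm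
    · ext
      have := congrArg Subtype.val hk
      simpa using this
  refine ⟨g1, ?_, ?_⟩
  · rw [hPc, mem_subgroupOf] at hg1S
    exact hg1S
  · have h1 : g = (g1 : Γ) * (g2 : Γ) := by
      have := congrArg Subtype.val hgg
      simpa using this
    have h2 : (g2 : Γ) * x = x * (g2 : Γ) := by
      have := congrArg Subtype.val hx2
      simpa using this
    rw [h1]
    calc (g1 : Γ) * g2 * x * (g1 * g2 : Γ)⁻¹ = g1 * (g2 * x) * (g2 : Γ)⁻¹ * (g1 : Γ)⁻¹ := by group
      _ = g1 * (x * g2) * (g2 : Γ)⁻¹ * (g1 : Γ)⁻¹ := by rw [h2]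
      _ = g1 * x * (g1 : Γ)⁻¹ := by group

end ModC6

open ModC6 in
theorem c6 (hFix : StmtFix) : StmtFus := by
  intro Γ _ _ p r G S e hp hr hep hinv hpG hSG hS hrS hSne hSe hnil heq
  have : Fact r.Prime := ⟨hr⟩
  set C := cen G {e} with hC
  have hSC : S ≤ C := le_inf hSG hSe
  have hrC : ¬ r ∣ S.relIndex C := by
    intro h
    apply hrS
    rw [← relIndex_mul_relIndex S C G hSC inf_le_left]
    exact Dvd.dvd.mul_right h _
  have hconj : ∀ x ∈ S, ∀ y ∈ S, ∀ g ∈ G, g * x * g⁻¹ = y → ∃ s ∈ S, y = s * x * s⁻¹ := by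
    intro x hx y hy g hg h
    obtain ⟨c, hc, hcx⟩ := conj_cen hFix hp hep hinv hpG hSe hx hy hg h
    obtain ⟨s, hs, h2⟩ := conj_S hr hnil hSC hS hrC hx hc
    exact ⟨s, hs, by rw [← hcx, h2]⟩
  set H : Subgroup G := S.subgroupOf G with hH
  let ϕ : H →* Abelianization H := Abelianization.of
  have htop : commutator G = ⊤ := by
    apply map_injective (G.subtype_injective)
    rw [commutator_def, map_commutator, ← MonoidHom.range_eq_map, range_subtype, heq]
  have htriv : ∀ x : G, MonoidHom.transfer ϕ x = 1 := by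
    intro x
    have h1 := Abelianization.commutator_subset_ker (MonoidHom.transfer ϕ)
    rw [htop] at h1
    exact MonoidHom.mem_ker.1 (h1 (mem_top x))
  have hpow : ∀ x : H, ϕ x ^ H.index = 1 := by
    intro x
    rw [← transfer_pow ϕ x, htriv]
    intro k g₀ hk
    rw [← map_pow]
    have hxS : ((x : G) : Γ) ∈ S := x.2
    have hxk : ((x : G) : Γ) ^ k ∈ S := S.pow_mem hxS k
    have hk' : (g₀ : Γ)⁻¹ * ((x : G) : Γ) ^ k * (g₀ : Γ) ∈ S := by
      have h0 := mem_subgroupOf.1 hk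
      simpa using h0
    obtain ⟨s, hs, hsx⟩ := hconj _ hxk _ hk' (g₀ : Γ)⁻¹ (G.inv_mem g₀.2) (by rw [inv_inv])
    have hs' : (⟨s, hSG hs⟩ : G) ∈ H := by rw [hH, mem_subgroupOf]; exact hs
    have : (⟨g₀⁻¹ * (x : G) ^ k * g₀, hk⟩ : H) =
        ⟨⟨s, hSG hs⟩, hs'⟩ * x ^ k * (⟨⟨s, hSG hs⟩, hs'⟩ : H)⁻¹ := by
      ext
      simpa using hsx
    rw [this, map_mul, map_mul, map_inv, mul_comm (ϕ _) (ϕ (x ^ k)), mul_assoc, mul_inv_cancel,
      mul_one]
  have hHp : IsPGroup r H := hS.comap_of_injective G.subtype G.subtype_injective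
  have hone : ∀ x : H, ϕ x = 1 := by
    intro x
    obtain ⟨k, hk⟩ := hHp x
    have h1 : ϕ x ^ (r ^ k) = 1 := by rw [← map_pow, hk, map_one]
    have h2 := pow_gcd_eq_one.2 ⟨h1, hpow x⟩
    have h3 : (r ^ k).gcd H.index = 1 :=
      Nat.Coprime.pow_left k ((Nat.Prime.coprime_iff_not_dvd hr).2 hrS)
    rwa [h3, pow_one] at h2
  have hcomm : commutator H = ⊤ := by
    rw [eq_top_iff]
    intro x _
    have := hone x
    rw [← Abelianization.ker_of H]
    exact this
  have hnt : Nontrivial H := by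
    rw [nontrivial_iff_ne_bot, hH, Ne, subgroupOf_eq_bot]
    intro h
    exact hSne (disjoint_self.1 (h.mono_right hSG))
  have : Group.IsNilpotent H := hHp.isNilpotent
  have hsol : Group.IsSolvable H := inferInstance
  exact (Group.IsSolvable.commutator_lt_top_of_nontrivial H).ne hcomm

end Pool.Agent.T6.H88.FP
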