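import Pool.Agent.T6.H88.FP.Tools

/-! # Module D1 (helper94): the local API -/

namespace Pool.Agent.T6.H88.FP

open Subgroup

namespace ModD1

section basics

variable {Γ : Type} [Group Γ]

lemma isPi_symm {q r : ℕ} {X : Subgroup Γ} (h : IsPi q r X) : IsPi r q X :=
  fun s hs hd => (h s hs hd).symm

lemma LL_symm {q r : ℕ} {V G X : Subgroup Γ} (h : LL V G q r X) : LL V G r q X :=
  ⟨h.1, h.2.1, h.2.2.1, isPi_symm h.2.2.2⟩

lemma MM_symm {q r : ℕ} {V G X : Subgroup Γ} (h : MM V G q r X) : MM V G r q X :=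
  ⟨LL_symm h.1, fun Y hY hXY => h.2 Y (LL_symm hY) hXY⟩

lemma bad_symm {p q r : ℕ} {V G : Subgroup Γ} (b : Bad p q r V G) : Bad p r q V G where
  elAb' := b.elAb'
  inv := b.inv
  fpf := b.fpf
  big := b.big
  hq := b.hr
  hr := b.hq
  ne := b.ne.symm
  hqG := b.hrG
  hrG := b.hqG
  sol := b.sol
  simp := b.simp
  nsol := b.nsol
  faith := b.faith
  bad := fun X h1 h2 h3 h4 h5 => b.bad X h1 h2 (isPi_symm h3) h5 h4

lemma inv_sup {V A B : Subgroup Γ} (hA : Inv V A) (hB : Inv V B) : Inv V (A ⊔ B) := by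
  intro v hv
  rw [mem_normalizer_iff_map_conj_eq]
  have h1 := hA hv
  have h2 := hB hv
  rw [mem_normalizer_iff_map_conj_eq] at h1 h2
  rw [Subgroup.map_sup, h1, h2]

lemma inv_normalizer {V x : Subgroup Γ} (h : Inv V x) : Inv V (normalizer (x : Set Γ)) := by
  rw [inv_iff]
  intro v hv n hn
  exact mul_mem (mul_mem (h hv) hn) (inv_mem (h hv))

lemma isPi_of_pgroup [Finite Γ] {q r : ℕ} (hq : q.Prime) {X : Subgroup Γ} (h : IsPGroup q X) :
    IsPi q r X := by
  intro s hs hd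
  have := Fact.mk hq
  obtain ⟨n, hn⟩ := IsPGroup.iff_card.mp h
  rw [hn] at hd
  exact Or.inl ((Nat.prime_dvd_prime_iff_eq hs hq).mp (hs.dvd_of_dvd_pow hd))

/-- elements of prime power order for different primes commute in a nilpotent group -/
lemma nil_comm [Finite Γ] {q r : ℕ} (hq : q.Prime) (hr : r.Prime) (hne : q ≠ r)
    (hN : Group.IsNilpotent Γ) {x y : Γ} {a b : ℕ} (hx : x ^ q ^ a = 1) (hy : y ^ r ^ b = 1) :
    x * y = y * x := by
  have := Fact.mk hq
  have := Fact.mk hr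
  have := hN
  have hx' : IsPGroup q (zpowers x) := by
    intro g
    obtain ⟨k, hk⟩ := mem_zpowers_iff.mp g.2
    refine ⟨a, ?_⟩
    ext
    rw [coe_pow, ← hk, ← zpow_natCast, ← zpow_mul, mul_comm, zpow_mul, zpow_natCast, hx, one_zpow]
    rfl
  have hy' : IsPGroup r (zpowers y) := by
    intro g
    obtain ⟨k, hk⟩ := mem_zpowers_iff.mp g.2
    refine ⟨b, ?_⟩
    ext
    rw [coe_pow, ← hk, ← zpow_natCast, ← zpow_mul, mul_comm, zpow_mul, zpow_natCast, hy, one_zpow]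
    rfl
  obtain ⟨P, hP⟩ := hx'.exists_le_sylow
  obtain ⟨Q, hQ⟩ := hy'.exists_le_sylow
  have hPn : (P : Subgroup Γ).Normal :=
    Sylow.normal_of_normalizerCondition Group.normalizerCondition_of_isNilpotent P
  have hQn : (Q : Subgroup Γ).Normal :=
    Sylow.normal_of_normalizerCondition Group.normalizerCondition_of_isNilpotent Q
  have hd : Disjoint (P : Subgroup Γ) (Q : Subgroup Γ) :=
    IsPGroup.disjoint_of_ne q r hne _ _ P.2 Q.2
  exact commute_of_normal_of_disjoint _ _ hPn hQn hd x y (hP (mem_zpowers x)) (hQ (mem_zpowers y))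

lemma hyp_gen {p : ℕ} (hp : p.Prime) {K V : Subgroup Γ} {e : Γ} (heV : e ∈ V) (heK : e ∉ K)
    (hKV : K ≤ V) (h : K.relIndex V = p) : V ≤ K ⊔ zpowers e := by
  have h1 : K ≤ K ⊔ zpowers e := le_sup_left
  have h2 : K ⊔ zpowers e ≤ V := sup_le hKV (zpowers_le.mpr heV)
  have h3 := relIndex_mul_relIndex K (K ⊔ zpowers e) V h1 h2
  rw [h] at h3
  rcases (Nat.prime_mul_iff.mp (h3 ▸ hp)) with ⟨_, h5⟩ | ⟨_, h5⟩
  · exact relIndex_eq_one.mp h5
  · exfalso
    apply heK
    have h6 := relIndex_eq_one.mp h5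
    exact h6 (mem_sup_right (mem_zpowers e))

end basics

theorem loc (hCop : StmtCop) (hSyl : StmtSyl) (hHall : StmtHall) (hCore : StmtCore)
    (hQ : StmtQ) (hS1 : StmtS1) (Γ : Type) [Group Γ] [Finite Γ] (p q r : ℕ) (V G : Subgroup Γ)
    (b : Bad p q r V G) : Loc p q r V G := by
  have hV := b.elAb'
  have hcop : ¬ p ∣ Nat.card G := hCop Γ p V G hV b.inv b.fpf
  have hfix : ∀ X ≤ G, cen X (V : Set Γ) = ⊥ := by
    intro X hX
    rw [eq_bot_iff, ← b.fpf]
    exact inf_le_inf_right _ hX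
  have hcopX : ∀ X ≤ G, ¬ p ∣ Nat.card X := fun X hX h => hcop (h.trans (card_dvd_of_le hX))
  -- Sylow
  have hS := hSyl Γ p V G q hV b.inv b.fpf b.hq
  have hSr := hSyl Γ p V G r hV b.inv b.fpf b.hr
  have hsylX : ∀ X ≤ G, Inv V X → ∀ t : ℕ, t.Prime →
      syl V t X ≤ X ∧ Inv V (syl V t X) ∧ IsPGroup t (syl V t X) ∧
        ¬ t ∣ (syl V t X).relIndex X := by
    intro X hX hI t ht
    have h := hSyl Γ p V X t hV hI (hfix X hX) ht
    exact ⟨h.1, h.2.1, h.2.2.1, h.2.2.2.1⟩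
  -- Hall subgroups of soluble V-invariant subgroups
  have hallX : ∀ X ≤ G, Inv V X → X ≠ G →
      hall V q r X ≤ X ∧ Inv V (hall V q r X) ∧ IsPi q r (hall V q r X) ∧
        (∀ Y ≤ X, Inv V Y → IsPi q r Y → Y ≤ hall V q r X) ∧
        (∀ x ∈ hall V q r X, ∃ a ∈ syl V q X, ∃ b ∈ syl V r X, x = a * b) := by
    intro X hX hI hne
    have h1 := hsylX X hX hI q b.hq
    have h2 := hsylX X hX hI r b.hr
    have h3 := hHall Γ p V X q r hV hI (hfix X hX) (b.sol X hX hI hne) b.hq b.hr b.ne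
    refine ⟨sup_le h1.1 h2.1, inv_sup h1.2.1 h2.2.1, ?_, h3.2.2, h3.1⟩
    intro s hs hd
    rw [h3.2.1] at hd
    rcases (hs.dvd_mul).mp hd with hd | hd
    · rcases isPi_of_pgroup (r := q) b.hq h1.2.2.1 s hs hd with h | h
      · exact Or.inl h
      · exact Or.inl h
    · rcases isPi_of_pgroup (r := r) b.hr h2.2.2.1 s hs hd with h | h
      · exact Or.inr h
      · exact Or.inr h
  have hallLL : ∀ X ≤ G, Inv V X → X ≠ G → LL V G q r (hall V q r X) := by
    intro X hX hI hne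
    have h := hallX X hX hI hne
    refine ⟨h.1.trans hX, h.2.1, ?_, h.2.2.1⟩
    intro heq
    exact hne (le_antisymm hX (heq ▸ h.1))
  -- normalisers
  have hNinv : ∀ x ≤ G, Inv V x → Inv V (G ⊓ normalizer (x : Set Γ)) := by
    intro x hx hI
    exact inv_inf b.inv (inv_normalizer hI)
  have hNne : ∀ x ≤ G, Inv V x → x ≠ ⊥ → x ≠ G → G ⊓ normalizer (x : Set Γ) ≠ G := by
    intro x hx hI h1 h2 h3
    have h4 : Inv G x := by
      intro g hg
      rw [← h3] at hg
      exact hg.2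
    rcases b.simp x hx hI h4 with h | h
    · exact h1 h
    · exact h2 h
  have hle_nor : ∀ X x, LL V G q r X → Inv X x → x ≤ G → Inv V x → x ≠ ⊥ → x ≠ G →
      X ≤ Hn V G q r x := by
    intro X x hX hXx hx hI h1 h2
    have h := hallX (G ⊓ normalizer (x : Set Γ)) inf_le_left (hNinv x hx hI)
      (hNne x hx hI h1 h2)
    exact h.2.2.2.1 X (le_inf hX.1 hXx) hX.2.1 hX.2.2.2
  have hnor : ∀ x ≤ G, Inv V x → x ≠ ⊥ → x ≠ G →
      LL V G q r (Hn V G q r x) ∧ Inv (Hn V G q r x) x := by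
    intro x hx hI h1 h2
    refine ⟨hallLL _ inf_le_left (hNinv x hx hI) (hNne x hx hI h1 h2), ?_⟩
    have h := hallX (G ⊓ normalizer (x : Set Γ)) inf_le_left (hNinv x hx hI)
      (hNne x hx hI h1 h2)
    exact h.1.trans inf_le_right
  have hCinv : ∀ v ∈ V, Inv V (cen G {v}) := fun v hv => inv_cen_elem hV b.inv hv
  refine
    { cop := hcop
      symL := fun X => LL_symm
      symM := fun X => MM_symm
      symn := fun x => sup_comm _ _
      symc := fun v => sup_comm _ _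
      sq := ?_
      syl_eq := fun X hX hI => hS.2.2.2.2 X hX hI
      le_syl := fun X hX hI hp => le_sSup ⟨hX, hI, hp⟩
      mx := ?_
      dec := ?_
      nor := hnor
      le_nor := hle_nor
      eqn := ?_
      cn := ?_
      le_cn := ?_
      nilK := ?_
      cq := ?_
      fit := ?_
      lemQ := ?_ }
  · -- sq
    have hne : syl V q G ≠ ⊥ := by
      intro h
      apply hS.2.2.2.1
      rw [h, relIndex_bot_left]
      exact b.hqG
    have hneG : syl V q G ≠ G := by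
      intro h
      apply b.nsol
      have := Fact.mk b.hq
      have h1 : IsPGroup q G := h ▸ hS.2.2.1
      have := h1.isNilpotent
      infer_instance
    exact ⟨hS.1, hS.2.1, hS.2.2.1, hS.2.2.2.1, hne, hS.1, hS.2.1, hneG,
      isPi_of_pgroup b.hq hS.2.2.1⟩
  · -- mx
    intro X hX
    obtain ⟨M, hXM, hM⟩ := (Set.toFinite {X | LL V G q r X}).exists_le_maximal hX
    refine ⟨M, ⟨hM.prop, fun Y hY hMY => ?_⟩, hXM⟩
    exact (hM.eq_of_le hY hMY).symm
  · -- dec
    intro X hX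
    have h := hallX X hX.1 hX.2.1 hX.2.2.1
    refine ⟨b.sol X hX.1 hX.2.1 hX.2.2.1, fun x hx => ?_⟩
    obtain ⟨a, ha, c, hc, h1⟩ := h.2.2.2.2 x (h.2.2.2.1 X le_rfl hX.2.1 hX.2.2.2 hx)
    rw [hS.2.2.2.2 X hX.1 hX.2.1] at ha
    rw [hSr.2.2.2.2 X hX.1 hX.2.1] at hc
    exact ⟨a, ha, c, hc, h1⟩
  · -- eqn
    intro M x hM hx hI hMx hne
    have hxG : x ≤ G := hx.trans hM.1.1
    have hxG' : x ≠ G := by
      intro h
      apply hM.1.2.2.1
      exact le_antisymm hM.1.1 (h ▸ hx)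
    exact hM.2 _ (hnor x hxG hI hne hxG').1 (hle_nor M x hM.1 hMx hxG hI hne hxG')
  · -- cn
    intro v hv hv1
    refine ⟨hallLL _ inf_le_left (hCinv v hv) (b.faith v hv hv1), ?_⟩
    exact (hallX _ inf_le_left (hCinv v hv) (b.faith v hv hv1)).1.trans inf_le_right
  · -- le_cn
    intro X hX v hv hv1 hXv
    exact (hallX _ inf_le_left (hCinv v hv) (b.faith v hv hv1)).2.2.2.1 X (le_inf hX.1 hXv)
      hX.2.1 hX.2.2.2
  · -- nilK
    intro K hK hKp x hx y hy
    have hKne : ¬ V ≤ K := by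
      intro h
      have h1 := relIndex_eq_one.mpr h
      rw [hKp] at h1
      exact hV.prime.one_lt.ne' h1
    obtain ⟨u, huV, huK⟩ := Set.not_subset.mp hKne
    have hVK := hyp_gen hV.prime huV huK hK hKp
    have hu : zpowers u ≤ V := zpowers_le.mpr huV
    have hCI : Inv V (cen G (K : Set Γ)) := inv_cen_elab hV b.inv hK
    have hfixC : cen (cen G (K : Set Γ)) (zpowers u : Set Γ) = ⊥ := by
      rw [eq_bot_iff, ← b.fpf]
      intro z hz
      rw [mem_cen] at hz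
      obtain ⟨hz1, hz2⟩ := hz
      rw [mem_cen] at hz1
      rw [mem_cen]
      refine ⟨hz1.1, fun v hv => ?_⟩
      have h1 : K ⊔ zpowers u ≤ centralizer {z} := by
        refine sup_le ?_ ?_
        · intro k hk
          rw [mem_centralizer_singleton_iff]
          exact hz1.2 k hk
        · intro k hk
          rw [mem_centralizer_singleton_iff]
          exact hz2 k hk
      have h2 := h1 (hVK hv)
      rw [mem_centralizer_singleton_iff] at h2
      exact h2
    have hcard : Nat.card (zpowers u) ∣ p := by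
      rw [Nat.card_zpowers]
      exact orderOf_dvd_iff_pow_eq_one.mpr (hV.exp u huV)
    have hnil := hS1 Γ p (zpowers u) (cen G (K : Set Γ)) (hV.mono hu) hcard (inv_mono hCI hu)
      hfixC
    rw [mem_cen] at hx hy
    have hxC : x ∈ cen G (K : Set Γ) := mem_cen.mpr ⟨hS.1 hx.1, hx.2⟩
    have hyC : y ∈ cen G (K : Set Γ) := mem_cen.mpr ⟨hSr.1 hy.1, hy.2⟩
    obtain ⟨k, hk⟩ := hS.2.2.1 ⟨x, hx.1⟩
    obtain ⟨l, hl⟩ := hSr.2.2.1 ⟨y, hy.1⟩
    have hk' : x ^ q ^ k = 1 := by simpa using congrArg (fun z : syl V q G => (z : Γ)) hk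
    have hl' : y ^ r ^ l = 1 := by simpa using congrArg (fun z : syl V r G => (z : Γ)) hl
    have hfin := nil_comm (Γ := cen G (K : Set Γ)) b.hq b.hr b.ne hnil (x := ⟨x, hxC⟩)
      (y := ⟨y, hyC⟩) (a := k) (b := l) (Subtype.ext (by simpa using hk'))
      (Subtype.ext (by simpa using hl'))
    exact congrArg (fun z : cen G (K : Set Γ) => (z : Γ)) hfin
  · -- cq
    intro X hX
    have h := (hCore Γ q X b.hq).1
    exact ⟨h.1, h.2.1, h.2.2.1, h.2.2.2 V hX.2.1⟩
  · -- fit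
    intro X hX
    exact (hCore Γ q X b.hq).2 r b.hr b.ne hX.2.2.2 (b.sol X hX.1 hX.2.1 hX.2.2.1)
  · -- lemQ
    intro X hX e he hXe
    have h1 := hsylX X hX.1 hX.2.1 r b.hr
    rw [hSr.2.2.2.2 X hX.1 hX.2.1] at h1
    exact hQ Γ p X (X ⊓ syl V r G) e q r hV.prime (hV.exp e he)
      (inv_mono hX.2.1 (zpowers_le.mpr he)) (hcopX X hX.1) (b.sol X hX.1 hX.2.1 hX.2.2.1)
      b.hq b.hr b.ne hX.2.2.2 h1.1 h1.2.2.1 h1.2.2.2 hXe

end ModD1

/-- Module D1 -/
theorem d1 (hCop : StmtCop) (hSyl : StmtSyl) (hHall : StmtHall) (hCore : StmtCore)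
    (hQ : StmtQ) (hS1 : StmtS1) : StmtLoc := by
  intro Γ _ _ p q r V G b
  exact ⟨ModD1.bad_symm b, ModD1.loc hCop hSyl hHall hCore hQ hS1 Γ p q r V G b,
    ModD1.loc hCop hSyl hHall hCore hQ hS1 Γ p r q V G (ModD1.bad_symm b)⟩

end Pool.Agent.T6.H88.FP
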