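import Pool.Agent.T6.H38.FP.Basic

/-! Module D3 of project FP (helper88), MP_e56c9f_al: there are no maximal subgroups with two
nontrivial cores. -/

namespace Pool.Agent.T6.H88.FP

open Subgroup Pool.Agent.T6.H38.FPB
open scoped commutatorElement

set_option linter.unusedSectionVars false

namespace ModD3

variable {Γ : Type} [Group Γ]

theorem inv_of_cent {X Y : Subgroup Γ} (h : X ≤ centralizer (Y : Set Γ)) : Inv X Y := by
  rw [inv_iff]
  intro x hx y hy
  have := mem_centralizer_iff.1 (h hx) y hy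
  rw [← this, mul_inv_cancel_right]
  exact hy

theorem inv_sub {p : ℕ} {V K : Subgroup Γ} (hV : ElAb p V) (hK : K ≤ V) : Inv V K := by
  rw [inv_iff]
  intro v hv k hk
  rw [hV.comm v hv k (hK hk), mul_inv_cancel_right]
  exact hk

theorem elab_sub {p : ℕ} {V K : Subgroup Γ} (hV : ElAb p V) (hK : K ≤ V) : ElAb p K :=
  ⟨hV.prime, fun v hv => hV.exp v (hK hv), fun v hv w hw => hV.comm v (hK hv) w (hK hw)⟩

/-- elements of `A ⊔ B` for commuting `A`, `B` -/
theorem mem_sup_comm {A B : Subgroup Γ} (h : A ≤ centralizer (B : Set Γ)) {x : Γ}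
    (hx : x ∈ A ⊔ B) : ∃ a ∈ A, ∃ b ∈ B, x = a * b := by
  have hc : ∀ a ∈ A, ∀ b ∈ B, b * a = a * b := fun a ha b hb => mem_centralizer_iff.1 (h ha) b hb
  let P : Subgroup Γ :=
    { carrier := {x | ∃ a ∈ A, ∃ b ∈ B, x = a * b}
      one_mem' := ⟨1, A.one_mem, 1, B.one_mem, by simp⟩
      mul_mem' := by
        rintro x y ⟨a, ha, b, hb, rfl⟩ ⟨a', ha', b', hb', rfl⟩
        refine ⟨a * a', A.mul_mem ha ha', b * b', B.mul_mem hb hb', ?_⟩
        calc a * b * (a' * b') = a * (b * a') * b' := by group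
          _ = a * (a' * b) * b' := by rw [hc a' ha' b hb]
          _ = a * a' * (b * b') := by group
      inv_mem' := by
        rintro x ⟨a, ha, b, hb, rfl⟩
        refine ⟨a⁻¹, A.inv_mem ha, b⁻¹, B.inv_mem hb, ?_⟩
        rw [mul_inv_rev]
        exact hc _ (A.inv_mem ha) _ (B.inv_mem hb) }
  have hle : A ⊔ B ≤ P := by
    refine sup_le (fun a ha => ⟨a, ha, 1, B.one_mem, by simp⟩)
      (fun b hb => ⟨1, A.one_mem, b, hb, by simp⟩)
  exact hle hx

theorem cen_zp {X K : Subgroup Γ} {e : Γ} {p : ℕ} (hp : p.Prime) (hK : Nat.card K = p)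
    (heK : e ∈ K) (he : e ≠ 1) : cen X {e} ≤ cen X (K : Set Γ) := by
  intro x hx
  rw [mem_cen_singleton] at hx
  rw [mem_cen]
  refine ⟨hx.1, fun k hk => ?_⟩
  have hW : K ⊓ centralizer {x} = K := by
    refine eq_of_prime_card hp hK inf_le_left fun h => he ?_
    have : e ∈ K ⊓ centralizer {x} := ⟨heK, mem_centralizer_singleton_iff.2 hx.2⟩
    rw [h, mem_bot] at this
    exact this
  have hk' : k ∈ K ⊓ centralizer {x} := by rw [hW]; exact hk
  exact mem_centralizer_singleton_iff.1 hk'.2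

/-- `x` centralised by a subgroup `K` of prime index and an element `f ∉ K` is centralised by `V` -/
theorem cen_two {p : ℕ} (hp : p.Prime) {V K X : Subgroup Γ} (hKV : K ≤ V)
    (hK : K.relIndex V = p) {f x : Γ} (hf : f ∈ V) (hfK : f ∉ K) (hx : x ∈ X)
    (hxK : ∀ k ∈ K, k * x = x * k) (hxf : f * x = x * f) : x ∈ cen X (V : Set Γ) := by
  have hW : V ⊓ centralizer {x} = V := by
    exact eq_of_prime_index hp hK
      (fun k hk => ⟨hKV hk, mem_centralizer_singleton_iff.2 (hxK k hk)⟩) inf_le_left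
      fun h => hfK (h ⟨hf, mem_centralizer_singleton_iff.2 hxf⟩)
  rw [mem_cen]
  refine ⟨hx, fun v hv => ?_⟩
  have hv' : v ∈ V ⊓ centralizer {x} := by rw [hW]; exact hv
  exact mem_centralizer_singleton_iff.1 hv'.2

variable [Finite Γ]

theorem pgroup_solvable {r : ℕ} (hr : r.Prime) {X : Subgroup Γ} (hX : IsPGroup r X) :
    Group.IsSolvable X := by
  have := Fact.mk hr
  have := hX.isNilpotent
  infer_instance

/-- the common context -/
structure Ctx (p q r : ℕ) (V G M : Subgroup Γ) : Prop where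
  B : Bad p q r V G
  B' : Bad p r q V G
  L : Loc p q r V G
  L' : Loc p r q V G
  hm : MM V G q r M
  hm' : MM V G r q M
  nq : core q M ≠ ⊥
  nr : core r M ≠ ⊥

namespace Ctx

variable {p q r : ℕ} {V G M : Subgroup Γ} (C : Ctx p q r V G M)
include C

theorem symm : Ctx p r q V G M := ⟨C.B', C.B, C.L', C.L, C.hm', C.hm, C.nr, C.nq⟩

theorem MG : M ≤ G := C.hm.1.1
theorem VM : Inv V M := C.hm.1.2.1
theorem qM : core q M ≤ M := (C.L.cq M C.hm.1).1
theorem rM : core r M ≤ M := (C.L'.cq M C.hm'.1).1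
theorem Mq : Inv M (core q M) := (C.L.cq M C.hm.1).2.1
theorem Mr : Inv M (core r M) := (C.L'.cq M C.hm'.1).2.1
theorem pq : IsPGroup q (core q M) := (C.L.cq M C.hm.1).2.2.1
theorem pr : IsPGroup r (core r M) := (C.L'.cq M C.hm'.1).2.2.1
theorem Vq : Inv V (core q M) := (C.L.cq M C.hm.1).2.2.2
theorem Vr : Inv V (core r M) := (C.L'.cq M C.hm'.1).2.2.2
theorem qS : core q M ≤ syl V q G := C.L.le_syl _ (C.qM.trans C.MG) C.Vq C.pq
theorem rS : core r M ≤ syl V r G := C.L'.le_syl _ (C.rM.trans C.MG) C.Vr C.pr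

theorem qr : core q M ≤ centralizer (core r M : Set Γ) :=
  commute_of_disj (inv_mono C.qM C.Mr) (inv_mono C.rM C.Mq)
    (disj_pq C.B.hq C.B.hr C.B.ne C.pq C.pr)

theorem cop {X : Subgroup Γ} (h : X ≤ G) : ¬ p ∣ Nat.card X :=
  fun hd => C.L.cop (hd.trans (card_dvd_of_le h))

/-- (U') -/
theorem up (hU : StmtU) {x y z X : Subgroup Γ} (hx : x ≤ M) (hxV : Inv V x) (hx0 : x ≠ ⊥)
    (hy : y ≤ core q M) (hyV : Inv V y) (hy0 : y ≠ ⊥) (hyx : Inv y x)
    (hz : z ≤ core r M) (hzV : Inv V z) (hz0 : z ≠ ⊥) (hzx : Inv z x)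
    (hX : LL V G q r X) (hXx : Inv X x) : X ≤ M := by
  have hxG : x ≤ G := hx.trans C.MG
  have hxne : x ≠ G := by
    rintro rfl
    exact C.hm.1.2.2.1 (le_antisymm C.MG hx)
  have h1 := C.L.nor x hxG hxV hx0 hxne
  have hyL : LL V G q r y := LL_mono C.hm.1 (hy.trans C.qM) hyV
  have hzL : LL V G q r z := LL_mono C.hm.1 (hz.trans C.rM) hzV
  have h2 := C.L.le_nor y x hyL hyx hxG hxV hx0 hxne
  have h3 := C.L.le_nor z x hzL hzx hxG hxV hx0 hxne
  have h4 := C.L.le_nor X x hX hXx hxG hxV hx0 hxne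
  exact h4.trans (hU Γ p q r V G C.B M C.hm C.nq C.nr _ h1.1 y z hy hz hy0 hz0 hyV hzV h2 h3)

end Ctx

/-- the data produced by steps (1)-(4) -/
structure Half (p q r : ℕ) (V G M K P' : Subgroup Γ) (e : Γ) : Prop where
  KV : K ≤ V
  Kp : K.relIndex V = p
  PS : P' ≤ syl V r G
  VP : Inv V P'
  PK : P' ≤ centralizer (K : Set Γ)
  PM : ¬ P' ≤ M
  Pn : Inv P' (M ⊓ syl V r G)
  eK : e ∈ K
  e1 : e ≠ 1
  ce : cen (core q M) {e} = ⊥
  Se : syl V r G ≤ centralizer {e}

theorem half (hU : StmtU) (hAxB : StmtAxB) (hGen : StmtGen) (hGen2 : StmtGen2) (hNp : StmtNp)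
    (hSplit : StmtSplit) {p q r : ℕ} {V G M : Subgroup Γ} (C : Ctx p q r V G M)
    (hr : ¬ syl V r G ≤ M) : ∃ K P' e, Half p q r V G M K P' e := by
  have hp := C.B.elAb'.prime
  have hqp := C.B.hq
  have hrp := C.B.hr
  have hE := C.B.elAb'
  have hcopG := C.L.cop
  obtain ⟨hSG, hVS, hSr, -, hS0, hSL⟩ := C.L'.sq
  have hSL' : LL V G q r (syl V r G) := C.L'.symL _ hSL
  set S := syl V r G with hSdef
  set Mr := M ⊓ S with hMr
  have hVMr : Inv V Mr := inv_inf C.VM hVS
  have hMrS : Mr ≤ S := inf_le_right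
  have hMrM : Mr ≤ M := inf_le_left
  have hErMr : core r M ≤ Mr := le_inf C.rM C.rS
  have hMrp : IsPGroup r Mr := hSr.to_le hMrS
  have hMr0 : Mr ≠ ⊥ := fun h => C.nr (by rw [eq_bot_iff, ← h]; exact hErMr)
  have hSMr : ¬ S ≤ Mr := fun h => hr (h.trans hMrM)
  obtain ⟨y, hyS, hyM, hyn⟩ := normalizer_grows hrp hSr hMrS hSMr
  set P := S ⊓ normalizer (Mr : Set Γ) with hP
  have hVP : Inv V P := inv_normalizer hVS hVMr
  have hPL : LL V G q r P := LL_mono hSL' inf_le_left hVP
  have hyP : y ∈ P := ⟨hyS, hyn⟩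
  have hPMr : Inv P Mr := inf_le_right
  set ζ := cen Mr (Mr : Set Γ) with hζ
  have hζ0 : ζ ≠ ⊥ := center_ne_bot hrp hMrp hMr0
  have hζMr : ζ ≤ Mr := cen_le _ _
  have hVζ : Inv V ζ := inv_cen hVMr hVMr
  have hErζ : core r M ≤ centralizer (ζ : Set Γ) := by
    rw [le_centralizer_iff]
    intro z hz
    rw [mem_centralizer_iff]
    intro s hs
    exact (mem_cen.1 hz).2 s (hErMr hs)
  have hVr := C.Vr
  have hVq := C.Vq
  -- (1)
  have h1 : cen (core q M) (ζ : Set Γ) = ⊥ := by
    by_contra h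
    have hPM : P ≤ M := C.up hU (hζMr.trans hMrM) hVζ hζ0 (cen_le _ _) (inv_cen hVq hVζ) h
      (inv_of_cent inf_le_right) le_rfl hVr C.nr (inv_of_cent hErζ) hPL (inv_cen hPMr hPMr)
    exact hyM ⟨hPM hyP, hyS⟩
  -- (2)
  have h2 : ∃ K ≤ V, K.relIndex V = p ∧ ¬ cen P (K : Set Γ) ≤ Mr := by
    by_contra hcon
    push Not at hcon
    refine hyM (hGen Γ p V P Mr hE hVP (C.cop hPL.1) (pgroup_solvable hrp (hSr.to_le inf_le_left))
      (fun K hK hd => ?_) hyP)
    rcases (Nat.dvd_prime hp).1 hd with h | h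
    · have hVK : V ≤ K := relIndex_eq_one.1 h
      refine (cen_anti P hVK).trans ((cen_mono hPL.1 _).trans ?_)
      rw [C.B.fpf]
      exact bot_le
    · exact hcon K hK h
  obtain ⟨K, hKV, hKp, hK⟩ := h2
  set P' := cen P (K : Set Γ) with hP'
  have hVP' : Inv V P' := inv_cen hVP (inv_sub hE hKV)
  have hP'P : P' ≤ P := cen_le _ _
  have hP'S : P' ≤ S := hP'P.trans inf_le_left
  have hP'K : P' ≤ centralizer (K : Set Γ) := inf_le_right
  have hP'M : ¬ P' ≤ M := fun h => hK (le_inf h hP'S)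
  have hP'n : Inv P' Mr := hP'P.trans inf_le_right
  have hP'L : LL V G q r P' := LL_mono hPL hP'P hVP'
  have hcEK : cen (core q M) (K : Set Γ) = ⊥ := by
    by_contra h
    have hVc : Inv V (cen (core q M) (K : Set Γ)) := inv_cen hVq (inv_sub hE hKV)
    refine hP'M (C.up hU ((cen_le _ _).trans C.qM) hVc h (cen_le _ _) hVc h (inv_self _) le_rfl
      hVr C.nr (inv_of_cent ?_) hP'L (inv_of_cent ?_))
    · rw [le_centralizer_iff]
      exact (cen_le _ _).trans C.qr
    · intro u hu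
      rw [mem_centralizer_iff]
      intro w hw
      refine C.L.nilK K hKV hKp w (cen_mono C.qS _ hw) u ?_
      rw [mem_cen]
      exact ⟨hP'S hu, fun s hs => mem_centralizer_iff.1 (hP'K hu) s hs⟩
  have hcardK : Nat.card K * p = Nat.card V := by rw [← hKp]; exact card_mul_relIndex' hKV
  -- the element e
  have he : ∃ e ∈ K, e ≠ 1 ∧ cen (core q M) {e} = ⊥ := by
    by_cases hV2 : Nat.card V ∣ p ^ 2
    · have hcK : Nat.card K = p := by
        obtain ⟨k, hk, hk2⟩ := (Nat.dvd_prime_pow hp).1 hV2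
        have hk' : k = 2 := by
          by_contra hne
          have : k ≤ 1 := by omega
          refine C.B.big ?_
          rw [hk2]
          calc p ^ k ∣ p ^ 1 := pow_dvd_pow p this
            _ = p := pow_one p
        rw [hk2, hk', pow_two] at hcardK
        exact Nat.eq_of_mul_eq_mul_right hp.pos hcardK
      have hK0 : K ≠ ⊥ := by
        intro h
        rw [h, card_bot] at hcK
        exact hp.one_lt.ne hcK
      obtain ⟨⟨e, heK⟩, he⟩ := Subgroup.ne_bot_iff_exists_ne_one.1 hK0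
      have he1 : e ≠ 1 := fun h => he (Subtype.ext h)
      refine ⟨e, heK, he1, ?_⟩
      rw [eq_bot_iff, ← hcEK]
      exact cen_zp hp hcK heK he1
    · have hK2 : ¬ Nat.card K ∣ p := by
        intro h
        apply hV2
        rw [← hcardK, pow_two]
        exact Nat.mul_dvd_mul_right h p
      have hsol : Group.IsSolvable (core r M) := pgroup_solvable hrp C.pr
      have hex : ∃ e ∈ K, e ≠ 1 ∧ cen (core r M) {e} ≠ ⊥ := by
        by_contra hcon
        push Not at hcon
        refine C.nr (eq_bot_iff.2 (hGen2 Γ p K (core r M) ⊥ (elab_sub hE hKV) hK2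
          (inv_mono hKV hVr) (C.cop (C.rM.trans C.MG)) hsol fun v hv hv1 => ?_))
        rw [hcon v hv hv1]
      obtain ⟨e, heK, he1, her⟩ := hex
      refine ⟨e, heK, he1, ?_⟩
      by_contra hne
      have heV := hKV heK
      have hcom : ∀ v ∈ V, v * e = e * v := fun v hv => hE.comm v hv e heV
      have hVa := inv_cen_el hVq hcom
      have hVb := inv_cen_el hVr hcom
      have hLa : LL V G q r (cen (core q M) {e}) := LL_mono C.hm.1 ((cen_le _ _).trans C.qM) hVa
      have hLb : LL V G q r (cen (core r M) {e}) := LL_mono C.hm.1 ((cen_le _ _).trans C.rM) hVb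
      have hle := hU Γ p q r V G C.B M C.hm C.nq C.nr (Hc V G q r e) (C.L.cn e heV he1).1
        (cen (core q M) {e}) (cen (core r M) {e}) (cen_le _ _) (cen_le _ _) hne her hVa hVb
        (C.L.le_cn _ hLa e heV he1 inf_le_right) (C.L.le_cn _ hLb e heV he1 inf_le_right)
      refine hP'M ((C.L.le_cn _ hP'L e heV he1 (hP'K.trans (centralizer_le ?_))).trans hle)
      simpa using heK
  obtain ⟨e, heK, he1, hce⟩ := he
  have heV : e ∈ V := hKV heK
  have hcom : ∀ v ∈ V, v * e = e * v := fun v hv => hE.comm v hv e heV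
  have hep : e ^ p = 1 := hE.exp e heV
  -- (3)
  set J := cm Mr e with hJ
  have hVJ : Inv V J := inv_cm hVMr hcom
  have hJMr : J ≤ Mr := cm_le (zpowers_inv hVMr heV)
  have hMrJ : Inv Mr J := inv_cm_self Mr e
  have hcopr : Nat.Coprime (Nat.card Mr) (Nat.card (core q M)) := by
    have := Fact.mk hrp
    have := Fact.mk hqp
    exact IsPGroup.coprime_card_of_ne r q C.B.ne.symm _ _ hMrp C.pq
  have hEqJ : core q M ≤ centralizer (J : Set Γ) := by
    refine hNp Γ p V (core q M) Mr e hE hVMr hVq (inv_mono hMrM C.Mq) ?_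
      (pgroup_solvable hrp hMrp) (pgroup_solvable hqp C.pq) hcopr heV hce
    rw [eq_bot_iff, ← C.B.fpf]
    exact cen_mono (hMrS.trans hSG) _
  have hP'J : Inv P' J := by
    refine inv_comm hP'n (inv_zpowers fun v hv => ?_)
    exact (mem_centralizer_iff.1 (hP'K hv) e heK).symm
  have hJ0 : J = ⊥ := by
    by_contra hne
    have hJEr : J ⊓ core r M ≠ ⊥ := by
      intro hd
      have hc1 : J ≤ centralizer (core r M : Set Γ) :=
        commute_of_disj (inv_mono (hJMr.trans hMrM) C.Mr) (inv_mono hErMr hMrJ) hd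
      have hc2 : J ≤ centralizer (core q M : Set Γ) := le_centralizer_iff.1 hEqJ
      have hJF : J ≤ core q M ⊔ core r M := by
        refine le_trans ?_ (C.L.fit M C.hm.1)
        refine le_inf (hJMr.trans hMrM) ?_
        rw [le_centralizer_iff]
        exact sup_le (le_centralizer_iff.1 hc2) (le_centralizer_iff.1 hc1)
      apply hne
      rw [eq_bot_iff, ← hd]
      intro j hj
      obtain ⟨a, ha, b, hb, hab⟩ := mem_sup_comm C.qr (hJF hj)
      have hjS : j ∈ S := hMrS (hJMr hj)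
      have hbS : b ∈ S := C.rS hb
      have haS : a ∈ S := by
        have : a = j * b⁻¹ := by rw [hab, mul_inv_cancel_right]
        rw [this]
        exact S.mul_mem hjS (S.inv_mem hbS)
      have ha1 : a ∈ core q M ⊓ S := ⟨ha, haS⟩
      rw [disj_pq hqp hrp C.B.ne C.pq hSr, mem_bot] at ha1
      rw [ha1, one_mul] at hab
      exact ⟨hj, hab ▸ hb⟩
    exact hP'M (C.up hU (hJMr.trans hMrM) hVJ hne le_rfl hVq C.nq (inv_of_cent hEqJ)
      inf_le_right (inv_inf hVJ hVr) hJEr (inv_of_le inf_le_left) hP'L hP'J)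
  have hMre : Mr ≤ centralizer {e} := cm_eq_bot.1 hJ0
  have hMe : cm M e ≤ core q M := C.L.lemQ M C.hm.1 e heV hMre
  -- (4)
  have hMrG : Mr ≤ G := hMrM.trans C.MG
  have hMrne : Mr ≠ G := by
    intro h
    exact C.hm.1.2.2.1 (le_antisymm C.MG (h ▸ hMrM))
  obtain ⟨hN1, hN2⟩ := C.L.nor Mr hMrG hVMr hMr0 hMrne
  set N := Hn V G q r Mr with hN
  have hVN : Inv V N := hN1.2.1
  set C₁ := cen N (Mr : Set Γ) with hC₁
  have hVC₁ : Inv V C₁ := inv_cen hVN hVMr
  have hC₁L : LL V G q r C₁ := LL_mono hN1 (cen_le _ _) hVC₁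
  have hC₁M : C₁ ≤ M := by
    have hErne : core r M ≠ G := by
      intro h
      exact C.hm.1.2.2.1 (le_antisymm C.MG (h ▸ C.rM))
    have hle := C.L.le_nor C₁ (core r M) hC₁L
      (inv_of_cent (inf_le_right.trans (centralizer_le hErMr))) (C.rM.trans C.MG) hVr C.nr hErne
    rw [C.L.eqn M (core r M) C.hm C.rM hVr C.Mr C.nr] at hle
    exact hle
  have hC₁e : cm C₁ e = ⊥ := by
    rw [eq_bot_iff, ← h1]
    refine le_inf ((cm_mono hC₁M e).trans hMe) ?_
    refine (cm_le (zpowers_inv hVC₁ heV)).trans (inf_le_right.trans (centralizer_le ?_))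
    exact hζMr
  have hNC₁ : cm N e ≤ C₁ := le_inf (cm_le (zpowers_inv hVN heV)) (cm_le_centralizer hN2 hMre)
  have hNe : cm N e = ⊥ := by
    have h3 := (hSplit Γ p N e hp hep (zpowers_inv hVN heV) (C.cop hN1.1)).2
    rw [eq_bot_iff, ← h3, ← hC₁e]
    exact cm_mono hNC₁ e
  have hNe' : N ≤ centralizer {e} := cm_eq_bot.1 hNe
  have hrz : ¬ r ∣ Nat.card (zpowers e) := by
    have := Fact.mk hp
    rw [Nat.card_zpowers, orderOf_eq_prime hep he1, Nat.prime_dvd_prime_iff_eq hrp hp]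
    rintro rfl
    exact hcopG C.B.hrG
  have hSe : S ≤ centralizer ((zpowers e : Subgroup Γ) : Set Γ) := by
    refine hAxB Γ r (zpowers e) Mr S hrp hMrp hSr hrz (zpowers_inv hVS heV) (inv_of_le hMrS) ?_ ?_
    · intro a ha b hb
      have hb' := hMre hb
      rw [← centralizer_zpowers] at hb'
      exact mem_centralizer_iff.1 hb' a ha
    · rw [centralizer_zpowers]
      refine le_trans ?_ hNe'
      refine C.L.le_nor _ Mr (LL_mono hSL' (cen_le _ _) (inv_cen hVS hVMr)) ?_ hMrG hVMr hMr0 hMrne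
      exact inv_of_cent inf_le_right
  rw [centralizer_zpowers] at hSe
  exact ⟨K, P', e, hKV, hKp, hP'S, hVP', hP'K, hP'M, hP'n, heK, he1, hce, hSe⟩

/-- the contradiction from `S_r ≰ M` -/
theorem main (hU : StmtU) (hAxB : StmtAxB) (hGen : StmtGen) (hGen2 : StmtGen2) (hNp : StmtNp)
    (hFus : StmtFus) (hS1 : StmtS1) (hSplit : StmtSplit) {p q r : ℕ} {V G M : Subgroup Γ}
    (C : Ctx p q r V G M) (hr : ¬ syl V r G ≤ M) : False := by
  have hp := C.B.elAb'.prime
  have hqp := C.B.hq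
  have hrp := C.B.hr
  have hE := C.B.elAb'
  have hcopG := C.L.cop
  obtain ⟨hSG, hVS, hSr, hSi, hS0, hSL⟩ := C.L'.sq
  have hSL' : LL V G q r (syl V r G) := C.L'.symL _ hSL
  obtain ⟨K, P', e, H⟩ := half hU hAxB hGen hGen2 hNp hSplit C hr
  have hKV := H.KV
  have heK := H.eK
  have heV : e ∈ V := hKV heK
  have he1 := H.e1
  have hep : e ^ p = 1 := hE.exp e heV
  have hcom : ∀ v ∈ V, v * e = e * v := fun v hv => hE.comm v hv e heV
  have hVr := C.Vr
  have hVq := C.Vq
  have hP'L : LL V G q r P' := LL_mono hSL' H.PS H.VP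
  have hcardK : Nat.card K * p = Nat.card V := by rw [← H.Kp]; exact card_mul_relIndex' hKV
  have hMr : IsPGroup r (M ⊓ syl V r G : Subgroup Γ) := hSr.to_le inf_le_right
  have hErS := C.rS
  -- elements of `K` centralise `P'`
  have hPK : ∀ w ∈ K, P' ≤ centralizer {w} := fun w hw =>
    H.PK.trans (centralizer_le (by simpa using hw))
  by_cases hV2 : Nat.card V ∣ p ^ 2
  · -- (5)
    have hcK : Nat.card K = p := by
      obtain ⟨k, hk, hk2⟩ := (Nat.dvd_prime_pow hp).1 hV2
      have hk' : k = 2 := by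
        by_contra hne
        have : k ≤ 1 := by omega
        refine C.B.big ?_
        rw [hk2]
        calc p ^ k ∣ p ^ 1 := pow_dvd_pow p this
          _ = p := pow_one p
      rw [hk2, hk', pow_two] at hcardK
      exact Nat.eq_of_mul_eq_mul_right hp.pos hcardK
    have hex : ∃ u ∈ V, u ∉ K := by
      by_contra hcon
      push Not at hcon
      have : K.relIndex V = 1 := relIndex_eq_one.2 hcon
      rw [H.Kp] at this
      exact hp.one_lt.ne' this
    obtain ⟨u, huV, huK⟩ := hex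
    have hnil : Group.IsNilpotent (cen G {e}) := by
      refine hS1 Γ p (zpowers u) (cen G {e}) (elab_sub hE (zpowers_le' huV)) ?_ ?_ ?_
      · rw [Nat.card_zpowers]
        exact orderOf_dvd_of_pow_eq_one (hE.exp u huV)
      · exact inv_mono (zpowers_le' huV) (inv_cen_el C.B.inv hcom)
      · rw [eq_bot_iff, ← C.B.fpf]
        intro x hx
        rw [mem_cen] at hx
        have h1 := cen_zp (X := G) hp hcK heK he1 hx.1
        rw [mem_cen] at h1
        exact cen_two hp hKV H.Kp huV huK h1.1 h1.2 (hx.2 u (mem_zpowers u))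
    have hne := hFus Γ p r G (syl V r G) e hp hrp hep (zpowers_inv C.B.inv heV) hcopG hSG hSr hSi hS0
      H.Se hnil
    have hGG : ⁅G, G⁆ ≤ G := by
      rw [commutator_le]
      intro a ha b hb
      rw [commutatorElement_def]
      exact G.mul_mem (G.mul_mem (G.mul_mem ha hb) (G.inv_mem ha)) (G.inv_mem hb)
    rcases C.B.simp ⁅G, G⁆ hGG (inv_comm C.B.inv C.B.inv) (inv_comm (inv_self G) (inv_self G))
      with h | h
    · apply C.B.nsol
      rw [commutator_eq_bot_iff_le_centralizer] at h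
      refine Group.isSolvable_of_comm fun a b => ?_
      have := mem_centralizer_iff.1 (h a.2) b b.2
      exact Subtype.ext this.symm
    · exact hne h
  · have hK2 : ¬ Nat.card K ∣ p := by
      intro h
      apply hV2
      rw [← hcardK, pow_two]
      exact Nat.mul_dvd_mul_right h p
    -- choice of w
    have hex : ∃ w ∈ K, w ≠ 1 ∧ cen (core q M) {w} ≠ ⊥ := by
      by_contra hcon
      push Not at hcon
      refine C.nq (eq_bot_iff.2 (hGen2 Γ p K (core q M) ⊥ (elab_sub hE hKV) hK2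
        (inv_mono hKV hVq) (C.cop (C.qM.trans C.MG)) (pgroup_solvable hqp C.pq)
        fun v hv hv1 => ?_))
      rw [hcon v hv hv1]
    obtain ⟨w, hwK, hw1, hxw⟩ := hex
    have hwV := hKV hwK
    have hcomw : ∀ v ∈ V, v * w = w * v := fun v hv => hE.comm v hv w hwV
    set xw := cen (core q M) {w} with hxwdef
    have hVxw : Inv V xw := inv_cen_el hVq hcomw
    have hxwq : xw ≤ core q M := cen_le _ _
    have hxwM : xw ≤ M := hxwq.trans C.qM
    have hxwG : xw ≤ G := hxwM.trans C.MG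
    have hxwne : xw ≠ G := by
      intro h
      exact C.hm.1.2.2.1 (le_antisymm C.MG (h ▸ hxwM))
    have hxwL : LL V G q r xw := LL_mono C.hm.1 hxwM hVxw
    set Y := Hc V G q r w with hY
    obtain ⟨hYL, hYw⟩ := C.L.cn w hwV hw1
    have hVY : Inv V Y := hYL.2.1
    have hP'Y : P' ≤ Y := C.L.le_cn _ hP'L w hwV hw1 (hPK w hwK)
    have hxwY : xw ≤ Y := C.L.le_cn _ hxwL w hwV hw1 inf_le_right
    have hYe : cm Y e ≤ core q Y := C.L.lemQ Y hYL e heV (inf_le_right.trans H.Se)
    have hYL' := C.L.symL Y hYL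
    obtain ⟨hqY, hYq, hqYp, hVqY⟩ := C.L.cq Y hYL
    obtain ⟨hrY, hYr, hrYp, hVrY⟩ := C.L'.cq Y hYL'
    -- anything in `LL` normalising `xw` is in `M`
    have hN : ∀ X, LL V G q r X → Inv X xw → X ≤ M := fun X hX hXx =>
      C.up hU hxwM hVxw hxw hxwq hVxw hxw (inv_self _) le_rfl hVr C.nr
        (inv_of_cent ((le_centralizer_iff.1 C.qr).trans (centralizer_le hxwq))) hX hXx
    have hxwe : xw ≤ cm xw e := by
      intro x hx
      obtain ⟨c, hc, y, hy, hcy⟩ := (hSplit Γ p xw e hp hep (zpowers_inv hVxw heV)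
        (C.cop hxwG)).1 x hx
      have hc' := cen_mono hxwq _ hc
      rw [H.ce, mem_bot] at hc'
      rw [hcy, hc', one_mul]
      exact hy
    by_cases hq : syl V q G ≤ M
    · -- (7)
      have h1 : cm Y e ≤ M := hYe.trans ((C.L.le_syl _ (hqY.trans hYL.1) hVqY hqYp).trans hq)
      have h2 : cm Y e ≤ xw := by
        refine le_inf ?_ ((cm_le (zpowers_inv hVY heV)).trans hYw)
        have h3 := (hSplit Γ p Y e hp hep (zpowers_inv hVY heV) (C.cop hYL.1)).2
        rw [← h3]
        refine (cm_mono h1 e).trans ?_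
        refine C.L.lemQ M C.hm.1 e heV ?_
        exact inf_le_right.trans H.Se
      have h3 : cm Y e = xw := le_antisymm h2 (hxwe.trans (cm_mono hxwY e))
      refine H.PM (hP'Y.trans (hN Y hYL ?_))
      rw [← h3]
      exact inv_cm_self Y e
    · -- (6)
      obtain ⟨K', P'', f, H'⟩ := half hU hAxB hGen hGen2 hNp hSplit C.symm hq
      have hfV : f ∈ V := H'.KV H'.eK
      have hfp : f ^ p = 1 := hE.exp f hfV
      have hcomf : ∀ v ∈ V, v * f = f * v := fun v hv => hE.comm v hv f hfV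
      by_cases hfK : f ∈ K
      · -- (6a)
        set J := cm (M ⊓ syl V r G) f with hJ
        have hVMr : Inv V (M ⊓ syl V r G) := inv_inf C.VM hVS
        have hVJ : Inv V J := inv_cm hVMr hcomf
        have hJMr : J ≤ M ⊓ syl V r G := cm_le (zpowers_inv hVMr hfV)
        have hP'J : Inv P' J := by
          refine inv_comm H.Pn (inv_zpowers fun v hv => ?_)
          exact (mem_centralizer_iff.1 (H.PK hv) f hfK).symm
        have hJq : J ≤ centralizer (core q M : Set Γ) :=
          cm_le_centralizer (inv_mono inf_le_left C.Mq) (C.qS.trans H'.Se)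
        have hrJ : core r M ≤ J := by
          intro x hx
          obtain ⟨c, hc, y, hy, hcy⟩ := (hSplit Γ p (core r M) f hp hfp (zpowers_inv hVr hfV)
            (C.cop (C.rM.trans C.MG))).1 x hx
          rw [H'.ce, mem_bot] at hc
          rw [hcy, hc, one_mul]
          exact cm_mono (le_inf C.rM hErS) f hy
        have hJ0 : J ≠ ⊥ := fun h => C.nr (by rw [eq_bot_iff, ← h]; exact hrJ)
        exact H.PM (C.up hU (hJMr.trans inf_le_left) hVJ hJ0 le_rfl hVq C.nq
          (inv_of_cent (le_centralizer_iff.1 hJq)) le_rfl hVr C.nr (inv_of_le hrJ) hP'L hP'J)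
      · -- (6b)
        have hYf : cm Y f ≤ core r Y := C.L'.lemQ Y hYL' f hfV (inf_le_right.trans H'.Se)
        have hP'f : P' ≤ core r Y := by
          intro x hx
          obtain ⟨c, hc, y, hy, hcy⟩ := (hSplit Γ p P' f hp hfp (zpowers_inv H.VP hfV)
            (C.cop hP'L.1)).1 x hx
          rw [mem_cen_singleton] at hc
          have hc1 : c ∈ cen G (V : Set Γ) := cen_two hp hKV H.Kp hfV hfK (hP'L.1 hc.1)
            (fun k hk => mem_centralizer_iff.1 (H.PK hc.1) k hk) hc.2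
          rw [C.B.fpf, mem_bot] at hc1
          rw [hcy, hc1, one_mul]
          exact hYf (cm_mono hP'Y f hy)
        have hxq : xw ≤ core q Y := hxwe.trans ((cm_mono hxwY e).trans hYe)
        have hcc : core r Y ≤ centralizer (core q Y : Set Γ) :=
          commute_of_disj (inv_mono hrY hYq) (inv_mono hqY hYr)
            (disj_pq hrp hqp C.B.ne.symm hrYp hqYp)
        exact H.PM (hN P' hP'L (inv_of_cent (hP'f.trans (hcc.trans (centralizer_le hxq)))))

end ModD3

open ModD3 in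
theorem d3 (hLoc : StmtLoc) (hU : StmtU) (hAxB : StmtAxB) (hGen : StmtGen) (hGen2 : StmtGen2)
    (hNp : StmtNp) (hFus : StmtFus) (hS1 : StmtS1) (hSplit : StmtSplit) : StmtTA := by
  intro Γ _ _ p q r V G hB M hM
  by_contra hcon
  push Not at hcon
  obtain ⟨hB', hL, hL'⟩ := hLoc Γ p q r V G hB
  have C : Ctx p q r V G M := ⟨hB, hB', hL, hL', hM, hL.symM M hM, hcon.1, hcon.2⟩
  by_cases hr : syl V r G ≤ M
  · have hq : ¬ syl V q G ≤ M := by
      intro hq
      exact hM.1.2.2.1 (hB.bad M hM.1.1 hM.1.2.1 hM.1.2.2.2 hq hr)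
    exact main hU hAxB hGen hGen2 hNp hFus hS1 hSplit C.symm hq
  · exact main hU hAxB hGen hGen2 hNp hFus hS1 hSplit C hr

end Pool.Agent.T6.H88.FP
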