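import Pool.Agent.T6.H88.FP.Defs

set_option linter.unusedSectionVars false
set_option linter.unusedVariables false

namespace Pool.Agent.T6.H88.FP
open Subgroup

namespace D4x

variable {Γ : Type} [Group Γ]

lemma inv_iff {V X : Subgroup Γ} : Inv V X ↔ ∀ v ∈ V, ∀ x ∈ X, v * x * v⁻¹ ∈ X := by
  constructor
  · intro h v hv x hx
    exact ((mem_normalizer_iff.mp (h hv)) x).mp hx
  · intro h v hv
    rw [mem_normalizer_iff]
    intro x
    refine ⟨h v hv x, fun hx => ?_⟩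
    have := h v⁻¹ (inv_mem hv) _ hx
    simpa [mul_assoc] using this

lemma iconj {V X : Subgroup Γ} (h : Inv V X) {v x : Γ} (hv : v ∈ V) (hx : x ∈ X) :
    v * x * v⁻¹ ∈ X := inv_iff.mp h v hv x hx

lemma iconj' {V X : Subgroup Γ} (h : Inv V X) {v x : Γ} (hv : v ∈ V) (hx : x ∈ X) :
    v⁻¹ * x * v ∈ X := by
  have := inv_iff.mp h v⁻¹ (inv_mem hv) x hx
  simpa using this

lemma imono {V W X : Subgroup Γ} (h : Inv V X) (hW : W ≤ V) : Inv W X := hW.trans h

lemma iinf {V X Y : Subgroup Γ} (h : Inv V X) (h' : Inv V Y) : Inv V (X ⊓ Y) := by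
  rw [inv_iff] at *
  intro v hv x hx
  exact ⟨h v hv x hx.1, h' v hv x hx.2⟩

lemma iself (X : Subgroup Γ) : Inv X X := le_normalizer

lemma ibot (X : Subgroup Γ) : Inv X ⊥ := by
  rw [inv_iff]
  intro v _ x hx
  rw [mem_bot] at hx ⊢
  subst hx
  group

lemma mem_cen {X : Subgroup Γ} {B : Set Γ} {x : Γ} :
    x ∈ cen X B ↔ x ∈ X ∧ ∀ b ∈ B, b * x = x * b := by
  rw [cen, mem_inf, mem_centralizer_iff]

lemma mem_cen1 {X : Subgroup Γ} {v : Γ} {x : Γ} :
    x ∈ cen X {v} ↔ x ∈ X ∧ v * x = x * v := by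
  rw [mem_cen]; simp

lemma cen_le (X : Subgroup Γ) (B : Set Γ) : cen X B ≤ X := inf_le_left

lemma cen_zpowers (X : Subgroup Γ) (v : Γ) : cen X (zpowers v : Set Γ) = cen X {v} := by
  ext x
  rw [mem_cen, mem_cen1]
  constructor
  · rintro ⟨h1, h2⟩
    exact ⟨h1, h2 v (mem_zpowers v)⟩
  · rintro ⟨h1, h2⟩
    refine ⟨h1, ?_⟩
    rintro _ ⟨k, rfl⟩
    exact ((show Commute v x from h2).zpow_left k)

/-- centraliser of a normalised subgroup is normalised -/
lemma icenn {V X Y : Subgroup Γ} (h : Inv V X) (h' : Inv V Y) : Inv V (cen X (Y : Set Γ)) := by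
  rw [inv_iff]
  intro v hv x hx
  rw [mem_cen] at hx ⊢
  refine ⟨iconj h hv hx.1, fun b hb => ?_⟩
  have h1 := hx.2 _ (iconj' h' hv hb)
  calc b * (v * x * v⁻¹) = v * ((v⁻¹ * b * v) * x) * v⁻¹ := by group
    _ = v * (x * (v⁻¹ * b * v)) * v⁻¹ := by rw [h1]
    _ = v * x * v⁻¹ * b := by group

lemma icen1 {V X : Subgroup Γ} (h : Inv V X) (hc : ∀ v ∈ V, ∀ w ∈ V, v * w = w * v)
    {e : Γ} (he : e ∈ V) : Inv V (cen X {e}) := by
  rw [← cen_zpowers]
  refine icenn h ?_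
  rw [inv_iff]
  intro v hv x hx
  have hx' : x ∈ V := (zpowers_le.mpr he) hx
  rw [hc v hv x hx', mul_inv_cancel_right]
  exact hx

lemma icomm {V X Y : Subgroup Γ} (h : Inv V X) (h' : Inv V Y) : Inv V ⁅X, Y⁆ := by
  rw [inv_iff]
  intro v hv x hx
  have h1 : (⁅X, Y⁆ : Subgroup Γ).map (MulAut.conj v).toMonoidHom ≤ ⁅X, Y⁆ := by
    rw [map_commutator]
    refine commutator_mono ?_ ?_
    · rintro _ ⟨y, hy, rfl⟩
      exact iconj h hv hy
    · rintro _ ⟨y, hy, rfl⟩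
      exact iconj h' hv hy
  exact h1 ⟨x, hx, rfl⟩

lemma inorm {V X Y : Subgroup Γ} (h : Inv V X) (h' : Inv V Y) :
    Inv V (X ⊓ normalizer (Y : Set Γ)) := by
  rw [inv_iff]
  intro v hv x hx
  refine ⟨iconj h hv hx.1, ?_⟩
  refine mem_normalizer_iff.mpr ?_
  intro y
  have h1 := (mem_normalizer_iff.mp hx.2) (v⁻¹ * y * v)
  have e1 : y ∈ Y ↔ v⁻¹ * y * v ∈ Y := ⟨fun hy => iconj' h' hv hy, fun hy => by
    have := iconj h' hv hy
    simpa [mul_assoc] using this⟩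
  have e2 : v * x * v⁻¹ * y * (v * x * v⁻¹)⁻¹ ∈ Y ↔ x * (v⁻¹ * y * v) * x⁻¹ ∈ Y := by
    have e : v * x * v⁻¹ * y * (v * x * v⁻¹)⁻¹ = v * (x * (v⁻¹ * y * v) * x⁻¹) * v⁻¹ := by group
    rw [e]
    refine ⟨fun hy => ?_, fun hy => iconj h' hv hy⟩
    have := iconj' h' hv hy
    simpa [mul_assoc] using this
  rw [e1, e2]
  exact h1

lemma cm_le {X : Subgroup Γ} {e : Γ} (h : Inv (zpowers e) X) : cm X e ≤ X := by
  rw [cm, commutator_le]
  intro x hx y hy
  rw [commutatorElement_def]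
  have h1 := iconj h hy (inv_mem hx)
  have h2 := mul_mem hx h1
  simpa [mul_assoc] using h2

/-! ## the group V -/

lemma pow_p {p : ℕ} {V : Subgroup Γ} (hE : ElAb p V) {v : Γ} (hv : v ∈ V) (h1 : v ≠ 1) :
    Nat.card (zpowers v) = p := by
  rw [Nat.card_zpowers]
  have : Fact p.Prime := ⟨hE.prime⟩
  exact orderOf_eq_prime (hE.exp v hv) h1

variable [Finite Γ]

lemma card_mul_rel {H K : Subgroup Γ} (h : H ≤ K) : Nat.card H * H.relIndex K = Nat.card K := by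
  have := relIndex_mul_relIndex (⊥ : Subgroup Γ) H K bot_le h
  rwa [relIndex_bot_left, relIndex_bot_left] at this

lemma eq_of_card {H K : Subgroup Γ} (h : H ≤ K) (hc : Nat.card K ≤ Nat.card H) : H = K :=
  Subgroup.eq_of_le_of_card_ge h hc

lemma card_V {p : ℕ} {V : Subgroup Γ} (hp : p.Prime) (h : Nat.card V ∣ p ^ 2)
    (hb : ¬ Nat.card V ∣ p) : Nat.card V = p ^ 2 := by
  obtain ⟨k, hk, hk'⟩ := (Nat.dvd_prime_pow hp).1 h
  have : k = 2 := by
    by_contra hne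
    apply hb
    rw [hk']
    have : k ≤ 1 := by omega
    calc p ^ k ∣ p ^ 1 := pow_dvd_pow p this
      _ = p := pow_one p
  rw [hk', this]

lemma relV {p : ℕ} {V : Subgroup Γ} (hE : ElAb p V) (hV : Nat.card V = p ^ 2) {v : Γ}
    (hv : v ∈ V) (h1 : v ≠ 1) : (zpowers v).relIndex V = p := by
  have h := card_mul_rel (H := zpowers v) (K := V) (zpowers_le.mpr hv)
  rw [pow_p hE hv h1, hV, pow_two] at h
  exact Nat.eq_of_mul_eq_mul_left hE.prime.pos h

lemma zp_eq {p : ℕ} {V : Subgroup Γ} (hE : ElAb p V) {u v : Γ}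
    (hu : u ∈ V) (h1 : u ≠ 1) (hv : v ∈ V) (h2 : v ≠ 1) (h : u ∈ zpowers v) :
    zpowers u = zpowers v := by
  refine eq_of_card (zpowers_le.mpr h) ?_
  rw [pow_p hE hu h1, pow_p hE hv h2]

/-- two independent elements generate `V` -/
lemma gen2V {p : ℕ} {V : Subgroup Γ} (hE : ElAb p V) (hV : Nat.card V = p ^ 2) {u v : Γ}
    (hu : u ∈ V) (hv : v ∈ V) (h2 : v ≠ 1) (h : u ∉ zpowers v) :
    V ≤ zpowers u ⊔ zpowers v := by
  have hle : zpowers u ⊔ zpowers v ≤ V := sup_le (zpowers_le.mpr hu) (zpowers_le.mpr hv)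
  have h3 : zpowers v ≤ zpowers u ⊔ zpowers v := le_sup_right
  have h4 := relIndex_mul_relIndex (zpowers v) (zpowers u ⊔ zpowers v) V h3 hle
  rw [relV hE hV hv h2] at h4
  have h5 : (zpowers v).relIndex (zpowers u ⊔ zpowers v) ≠ 1 := by
    intro h5
    rw [relIndex_eq_one] at h5
    exact h (h5 (le_sup_left (α := Subgroup Γ) (mem_zpowers u)))
  have h6 : (zpowers u ⊔ zpowers v).relIndex V = 1 := by
    rcases (Nat.dvd_prime hE.prime).1 (Dvd.intro _ h4) with h6 | h6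
    · exact absurd h6 h5
    · rw [h6] at h4
      exact Nat.eq_of_mul_eq_mul_left hE.prime.pos (h4.trans (mul_one p).symm)
  exact relIndex_eq_one.mp h6

/-- an element outside two given subgroups of order `p` -/
lemma exV {p : ℕ} {V : Subgroup Γ} (hE : ElAb p V) (hV : Nat.card V = p ^ 2) {v w : Γ}
    (hv : v ∈ V) (h1 : v ≠ 1) (hw : w ∈ V) (h2 : w ≠ 1) :
    ∃ u ∈ V, u ∉ zpowers v ∧ u ∉ zpowers w := by
  have key : ∀ x ∈ V, x ≠ 1 → ∃ a ∈ V, a ∉ zpowers x := by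
    intro x hx hx1
    by_contra hcon
    push Not at hcon
    have h3 : V ≤ zpowers x := hcon
    have h4 := relIndex_eq_one.mpr h3
    rw [relV hE hV hx hx1] at h4
    exact hE.prime.one_lt.ne' h4
  obtain ⟨a, ha, ha'⟩ := key v hv h1
  obtain ⟨b, hb, hb'⟩ := key w hw h2
  by_cases h3 : a ∈ zpowers w
  · by_cases h4 : b ∈ zpowers v
    · refine ⟨a * b, mul_mem ha hb, ?_, ?_⟩
      · intro h5
        exact ha' ((mul_mem_cancel_right h4).1 h5)
      · intro h5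
        exact hb' ((mul_mem_cancel_left h3).1 h5)
    · exact ⟨b, hb, h4, hb'⟩
  · exact ⟨a, ha, ha', h3⟩

lemma isPGroup_of {q : ℕ} {X : Subgroup Γ}
    (h : ∀ s : ℕ, s.Prime → s ∣ Nat.card X → s = q) : IsPGroup q X := by
  have h1 : Nat.card X ≠ 0 := Nat.card_pos.ne'
  have := Nat.eq_prime_pow_of_unique_prime_dvd (p := q) h1 (fun {d} hd hd' => h d hd hd')
  exact IsPGroup.of_card this

lemma pprime_dvd {q s : ℕ} {X : Subgroup Γ} (hq : q.Prime) (h : IsPGroup q X)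
    (hs : s.Prime) (hd : s ∣ Nat.card X) : s = q := by
  have : Fact q.Prime := ⟨hq⟩
  obtain ⟨n, hn⟩ := IsPGroup.iff_card.mp h
  rw [hn] at hd
  exact (Nat.prime_dvd_prime_iff_eq hs hq).1 (hs.dvd_of_dvd_pow hd)

/-- a subgroup of coprime groups is trivial -/
lemma inf_bot {q r : ℕ} (hq : q.Prime) (hr : r.Prime) (hne : q ≠ r) {X Y : Subgroup Γ}
    (h : IsPGroup q X) (h' : IsPGroup r Y) : X ⊓ Y = ⊥ := by
  have : Fact q.Prime := ⟨hq⟩
  have : Fact r.Prime := ⟨hr⟩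
  exact (IsPGroup.disjoint_of_ne q r hne X Y h h').eq_bot

end D4x


namespace D4x

variable {Γ : Type} [Group Γ] [Finite Γ]

open scoped commutatorElement

lemma cenV {p : ℕ} {V : Subgroup Γ} (hE : ElAb p V) (hV : Nat.card V = p ^ 2) {u v : Γ}
    (hu : u ∈ V) (hv : v ∈ V) (h2 : v ≠ 1) (h : u ∉ zpowers v) {x : Γ} (hux : u * x = x * u)
    (hvx : v * x = x * v) {w : Γ} (hw : w ∈ V) : w * x = x * w := by
  have h1 : zpowers u ⊔ zpowers v ≤ centralizer {x} := by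
    refine sup_le (zpowers_le.mpr ?_) (zpowers_le.mpr ?_)
    · rw [mem_centralizer_iff]
      rintro _ rfl
      exact hux.symm
    · rw [mem_centralizer_iff]
      rintro _ rfl
      exact hvx.symm
  have h3 := h1 (gen2V hE hV hu hv h2 h hw)
  rw [mem_centralizer_iff] at h3
  exact (h3 x rfl).symm

lemma not_sol_of_p {q : ℕ} (hq : q.Prime) {X : Subgroup Γ} (h : IsPGroup q X) :
    Group.IsSolvable X := by
  have : Fact q.Prime := ⟨hq⟩
  have : Group.IsNilpotent X := h.isNilpotent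
  infer_instance

lemma fus (hS1 : StmtS1) (hFus : StmtFus) {p q r : ℕ} {V G : Subgroup Γ} (hb : Bad p q r V G)
    (hV : Nat.card V = p ^ 2) (L' : Loc p r q V G) {v : Γ} (hv : v ∈ V) (h1 : v ≠ 1)
    (hS : syl V r G ≤ centralizer {v}) : False := by
  have hE := hb.elAb'
  obtain ⟨s1, s2, s3, s4, s5, s6⟩ := L'.sq
  obtain ⟨u, hu, hu1, -⟩ := exV hE hV hv h1 hv h1
  have hu0 : u ≠ 1 := fun h => hu1 (h ▸ one_mem _)
  have hnil : Group.IsNilpotent (cen G {v}) := by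
    refine hS1 Γ p (zpowers u) (cen G {v}) ⟨hE.prime, ?_, ?_⟩ ?_ ?_ ?_
    · intro w hw
      exact hE.exp w (zpowers_le.mpr hu hw)
    · intro w hw w' hw'
      exact hE.comm w (zpowers_le.mpr hu hw) w' (zpowers_le.mpr hu hw')
    · rw [pow_p hE hu hu0]
    · exact imono (icen1 hb.inv hE.comm hv) (zpowers_le.mpr hu)
    · rw [eq_bot_iff]
      intro x hx
      rw [cen_zpowers, mem_cen1, mem_cen1] at hx
      rw [← hb.fpf, mem_cen]
      exact ⟨hx.1.1, fun w hw => cenV hE hV hu hv h1 hu1 hx.2 hx.1.2 hw⟩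
  have h2 : ⁅G, G⁆ ≠ G := hFus Γ p r G (syl V r G) v hE.prime hb.hr (hE.exp v hv)
    (imono hb.inv (zpowers_le.mpr hv)) L'.cop s1 s3 s4 s5 hS hnil
  have hle : (⁅G, G⁆ : Subgroup Γ) ≤ G := by
    rw [commutator_le]
    intro a ha b hb
    rw [commutatorElement_def]
    exact mul_mem (mul_mem (mul_mem ha hb) (inv_mem ha)) (inv_mem hb)
  rcases hb.simp ⁅G, G⁆ hle (icomm hb.inv hb.inv) (icomm (iself G) (iself G)) with h | h
  · apply hb.nsol
    rw [commutator_eq_bot_iff_le_centralizer] at h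
    refine Group.isSolvable_of_comm (G := G) (fun a b => ?_)
    have h3 := h b.2
    rw [mem_centralizer_iff] at h3
    exact Subtype.ext (h3 a a.2)
  · exact h2 h

lemma cop_of {q : ℕ} (hq : q.Prime) {ρ E : Subgroup Γ} (hρ : ¬ q ∣ Nat.card ρ)
    (hE : IsPGroup q E) : Nat.Coprime (Nat.card ρ) (Nat.card E) := by
  have : Fact q.Prime := ⟨hq⟩
  obtain ⟨n, hn⟩ := IsPGroup.iff_card.mp hE
  rw [hn]
  exact Nat.Coprime.pow_right n (Nat.Coprime.symm ((Nat.Prime.coprime_iff_not_dvd hq).2 hρ))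

lemma not_dvd_le {p : ℕ} {X Y : Subgroup Γ} (h : X ≤ Y) (hp : ¬ p ∣ Nat.card Y) :
    ¬ p ∣ Nat.card X := fun h' => hp (h'.trans (card_dvd_of_le h))

lemma lemP (hP : StmtP) {p q : ℕ} {V G ρ E : Subgroup Γ} (hE : ElAb p V)
    (hV : Nat.card V = p ^ 2) (hf : cen G V = ⊥) (hcop : ¬ p ∣ Nat.card G)
    (hq : q.Prime) (hρ : Inv V ρ) (hρG : ρ ≤ G) (hρq : ¬ q ∣ Nat.card ρ) (hEG : E ≤ G)
    (hEp : IsPGroup q E) (hEi : Inv V E) (hρE : Inv ρ E) {v u : Γ} (hv : v ∈ V) (hv1 : v ≠ 1)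
    (hρv : ∀ x ∈ ρ, v * x = x * v) (hu : u ∈ V) (hu1 : u ∉ zpowers v)
    (h : cen E {u} ≤ centralizer (ρ : Set Γ)) : E ≤ centralizer (ρ : Set Γ) := by
  refine hP Γ p V (zpowers v) E ρ u hE hρ hEi hρE ?_ (not_sol_of_p hq hEp)
    (not_dvd_le hEG hcop) (cop_of hq hρq hEp) (zpowers_le.mpr hv) (relV hE hV hv hv1) ?_ hu hu1 h
  · rw [eq_bot_iff, ← hf]
    intro x hx
    exact ⟨hρG hx.1, hx.2⟩
  · intro x hx
    rw [mem_centralizer_iff]
    rintro _ ⟨k, rfl⟩
    exact (show Commute v x from hρv x hx).zpow_left k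

/-- the centraliser of `U₁/U₂` in `M` -/
def CC (M U₁ U₂ : Subgroup Γ) (h2 : Inv M U₂) : Subgroup Γ where
  carrier := {x | x ∈ M ∧ ∀ u ∈ U₁, x * u * x⁻¹ * u⁻¹ ∈ U₂}
  one_mem' := ⟨one_mem _, fun u _ => by simp⟩
  mul_mem' := by
    rintro x y ⟨hx, hx'⟩ ⟨hy, hy'⟩
    refine ⟨mul_mem hx hy, fun u hu => ?_⟩
    have e : x * y * u * (x * y)⁻¹ * u⁻¹ =
        (x * (y * u * y⁻¹ * u⁻¹) * x⁻¹) * (x * u * x⁻¹ * u⁻¹) := by group
    rw [e]
    exact mul_mem (iconj h2 hx (hy' u hu)) (hx' u hu)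
  inv_mem' := by
    rintro x ⟨hx, hx'⟩
    refine ⟨inv_mem hx, fun u hu => ?_⟩
    have e : x⁻¹ * u * x⁻¹⁻¹ * u⁻¹ = x⁻¹ * (x * u * x⁻¹ * u⁻¹)⁻¹ * x := by group
    rw [e]
    exact iconj' h2 hx (inv_mem (hx' u hu))

lemma mem_CC {M U₁ U₂ : Subgroup Γ} {h2 : Inv M U₂} {x : Γ} :
    x ∈ CC M U₁ U₂ h2 ↔ x ∈ M ∧ ∀ u ∈ U₁, x * u * x⁻¹ * u⁻¹ ∈ U₂ := Iff.rfl

lemma CC_norm {M U₁ U₂ : Subgroup Γ} (h1 : Inv M U₁) (h2 : Inv M U₂) :
    Inv M (CC M U₁ U₂ h2) := by
  rw [inv_iff]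
  rintro m hm x ⟨hx, hx'⟩
  refine ⟨mul_mem (mul_mem hm hx) (inv_mem hm), fun u hu => ?_⟩
  have e : m * x * m⁻¹ * u * (m * x * m⁻¹)⁻¹ * u⁻¹ =
      m * (x * (m⁻¹ * u * m) * x⁻¹ * (m⁻¹ * u * m)⁻¹) * m⁻¹ := by group
  rw [e]
  exact iconj h2 hm (hx' _ (iconj' h1 hm hu))

/-- commutators of elements which commute modulo `C` -/
lemma comm_C {M C A B : Subgroup Γ} (hC : Inv M C) (hCM : C ≤ M) {v : Γ} (hA : A ≤ M) (hB : B ≤ M)
    (h1 : ∀ a ∈ A, ∃ c ∈ cen A {v}, ∃ y ∈ C, a = c * y)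
    (h2 : ∀ a ∈ B, ∃ c ∈ cen B {v}, ∃ y ∈ C, a = c * y)
    (h3 : ∀ a ∈ cen A {v}, ∀ b ∈ cen B {v}, a * b = b * a) : (⁅A, B⁆ : Subgroup Γ) ≤ C := by
  rw [commutator_le]
  intro a ha b hb
  obtain ⟨c, hc, d, hd, rfl⟩ := h1 a ha
  obtain ⟨c', hc', d', hd', rfl⟩ := h2 b hb
  have hcc := h3 c hc c' hc'
  have hcM : c ∈ M := hA hc.1
  have hcM' : c' ∈ M := hB hc'.1
  have e1 : c * c'⁻¹ * c⁻¹ = c'⁻¹ := by
    have : c * c'⁻¹ = c'⁻¹ * c := (Commute.inv_right (show Commute c c' from hcc))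
    rw [this, mul_inv_cancel_right]
  have e : ⁅c * d, c' * d'⁆ =
      (c * c') * ((c'⁻¹ * d * c') * d' * d⁻¹ * (c⁻¹ * d'⁻¹ * c)) * (c * c')⁻¹ := by
    rw [commutatorElement_def]
    calc c * d * (c' * d') * (c * d)⁻¹ * (c' * d')⁻¹
        = c * d * c' * d' * d⁻¹ * c⁻¹ * d'⁻¹ * c'⁻¹ := by group
      _ = c * d * c' * d' * d⁻¹ * c⁻¹ * d'⁻¹ * (c * c'⁻¹ * c⁻¹) := by rw [e1]
      _ = _ := by group
  rw [e]
  refine iconj hC (mul_mem hcM hcM') ?_
  exact mul_mem (mul_mem (mul_mem (iconj' hC hcM' hd) hd') (inv_mem hd))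
    (iconj' hC hcM (inv_mem hd'))

end D4x

namespace D4x

open scoped commutatorElement

variable {Γ : Type} [Group Γ] [Finite Γ]

lemma stabB (hChief : StmtChief) (hSplit : StmtSplit) (hLift : StmtLift) {p q r : ℕ}
    {V G : Subgroup Γ} (hb : Bad p q r V G) (hV : Nat.card V = p ^ 2) (L : Loc p q r V G)
    (L' : Loc p r q V G) {M B : Subgroup Γ} (hM : LL V G q r M)
    (hB : B ≤ ⁅M ⊓ syl V q G, M ⊓ syl V r G⁆) (hBr : IsPGroup r B) :
    ∀ n : ℕ, ∀ U : Subgroup Γ, Nat.card U ≤ n → U ≤ M → IsPGroup q U → Inv M U → Inv V U →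
      ∀ u ∈ U, ∀ b ∈ B, b * u = u * b := by
  have hE := hb.elAb'
  have hNM : (⁅M ⊓ syl V q G, M ⊓ syl V r G⁆ : Subgroup Γ) ≤ M := by
    rw [commutator_le]
    intro a ha b hb
    rw [commutatorElement_def]
    exact mul_mem (mul_mem (mul_mem ha.1 hb.1) (inv_mem ha.1)) (inv_mem hb.1)
  have hBM : B ≤ M := hB.trans hNM
  have hr : Fact r.Prime := ⟨hb.hr⟩
  have hqp : Fact q.Prime := ⟨hb.hq⟩
  intro n
  induction n with
  | zero =>
    intro U hU
    have : 0 < Nat.card U := Nat.card_pos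
    omega
  | succ n ih =>
    intro U hU hUM hUq hMU hVU
    by_cases h0 : U = ⊥
    · intro u hu b _
      rw [h0, mem_bot] at hu
      rw [hu, mul_one, one_mul]
    obtain ⟨U₂, hU₂, hmax⟩ := Set.Finite.exists_maximal
      (Set.toFinite {W : Subgroup Γ | W < U ∧ Inv M W ∧ Inv V W})
      ⟨⊥, bot_lt_iff_ne_bot.mpr h0, ibot M, ibot V⟩
    obtain ⟨hlt, hi1, hi2⟩ := hU₂
    obtain ⟨v, hv, ⟨u₀, hu₀, hu₀'⟩, hcm⟩ := hChief Γ p V M U U₂ hE hM.2.1
      (by
        rw [eq_bot_iff, ← hb.fpf]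
        exact fun x hx => ⟨hM.1 hx.1, hx.2⟩)
      (L.dec M hM).1 hlt hUM hMU hi1 hVU hi2 (by
        intro N h1 h2 h3 h4
        by_cases h5 : N = U
        · exact Or.inr h5
        · refine Or.inl (le_antisymm (hmax ⟨lt_of_le_of_ne h2 h5, h3, h4⟩ h1) h1))
    have hv1 : v ≠ 1 := by
      rintro rfl
      apply hu₀'
      simp
    have hzM : Inv (zpowers v) M := imono hM.2.1 (zpowers_le.mpr hv)
    have hcmM : cm M v ≤ M := cm_le hzM
    have hcmC : cm M v ≤ CC M U U₂ hi1 := by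
      intro x hx
      refine ⟨hcmM hx, fun u hu => ?_⟩
      have := hcm (commutator_mem_commutator hx hu)
      rwa [commutatorElement_def] at this
    have hpq : ∀ q' : ℕ, Inv V (syl V q' G) → ∀ a ∈ M ⊓ syl V q' G,
        ∃ c ∈ cen (M ⊓ syl V q' G) {v}, ∃ y ∈ CC M U U₂ hi1, a = c * y := by
      intro q' hq' a ha
      obtain ⟨c, hc, y, hy, e⟩ := (hSplit Γ p (M ⊓ syl V q' G) v hE.prime (hE.exp v hv)
        (iinf hzM (imono hq' (zpowers_le.mpr hv)))
        (not_dvd_le (inf_le_left.trans hM.1) L.cop)).1 a ha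
      exact ⟨c, hc, y, hcmC (commutator_mono inf_le_left le_rfl hy), e⟩
    have hC : (⁅M ⊓ syl V q G, M ⊓ syl V r G⁆ : Subgroup Γ) ≤ CC M U U₂ hi1 := by
      refine comm_C (CC_norm hMU hi1) (fun x hx => hx.1) inf_le_left inf_le_left
        (hpq q L.sq.2.1) (hpq r L'.sq.2.1) ?_
      intro a ha b hb'
      rw [← cen_zpowers] at ha hb'
      refine L.nilK (zpowers v) (zpowers_le.mpr hv) (relV hE hV hv hv1) a ?_ b ?_
      · exact ⟨ha.1.2, ha.2⟩
      · exact ⟨hb'.1.2, hb'.2⟩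
    have hU₂card : Nat.card U₂ ≤ n := by
      have : Nat.card U₂ < Nat.card U := by
        by_contra hcon
        exact hlt.ne (eq_of_card hlt.le (not_lt.mp hcon))
      omega
    have hU₂U : U₂ ≤ U := hlt.le
    have hih := ih U₂ hU₂card (hU₂U.trans hUM) (hUq.to_le hU₂U) hi1 hi2
    intro u hu b hbB
    have hru : ¬ r ∣ Nat.card U₂ := by
      intro hd
      exact hb.ne (pprime_dvd hb.hq (hUq.to_le hU₂U) hb.hr hd).symm
    obtain ⟨m, hm, hm'⟩ := hLift Γ r B U₂ u hb.hr hBr (imono hi1 hBM) hru (by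
      intro b hb'
      have h5 := (hC (hB hb')).2 u hu
      have h6 := iconj' hi1 (hUM hu) h5
      have e : u⁻¹ * (b * u * b⁻¹ * u⁻¹) * u = u⁻¹ * (b * u * b⁻¹) := by group
      rwa [e] at h6)
    have h7 := hm' b hbB
    have h8 := hih m hm b hbB
    have h9 : b * u * m = u * b * m := by
      rw [mul_assoc, h7, mul_assoc, mul_assoc, h8]
    exact mul_right_cancel h9

lemma aprime (hChief : StmtChief) (hSplit : StmtSplit) (hLift : StmtLift) {p q r : ℕ}
    {V G : Subgroup Γ} (hb : Bad p q r V G) (hV : Nat.card V = p ^ 2) (L : Loc p q r V G)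
    (L' : Loc p r q V G) {M : Subgroup Γ} (hM : LL V G q r M) (hcr : core r M = ⊥) :
    Inv M (M ⊓ syl V q G) := by
  have hr : Fact r.Prime := ⟨hb.hr⟩
  have hqp : Fact q.Prime := ⟨hb.hq⟩
  have hNM : (⁅M ⊓ syl V q G, M ⊓ syl V r G⁆ : Subgroup Γ) ≤ M := by
    rw [commutator_le]
    intro a ha b hb
    rw [commutatorElement_def]
    exact mul_mem (mul_mem (mul_mem ha.1 hb.1) (inv_mem ha.1)) (inv_mem hb.1)
  obtain ⟨k1, k2, k3, k4⟩ := L.cq M hM
  have hNq : IsPGroup q (⁅M ⊓ syl V q G, M ⊓ syl V r G⁆ : Subgroup Γ) := by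
    refine isPGroup_of ?_
    intro s hs hd
    rcases hM.2.2.2 s hs (hd.trans (card_dvd_of_le hNM)) with h | h
    · exact h
    · exfalso
      subst h
      obtain ⟨x, hx⟩ := exists_prime_orderOf_dvd_card' s hd
      have hxN := x.2
      have hx1 : orderOf (x : Γ) = s := by rw [Subgroup.orderOf_coe, hx]
      have hB : zpowers (x : Γ) ≤ ⁅M ⊓ syl V q G, M ⊓ syl V s G⁆ := zpowers_le.mpr hxN
      have hBs : IsPGroup s (zpowers (x : Γ)) := by
        refine IsPGroup.of_card (n := 1) ?_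
        rw [Nat.card_zpowers, hx1, pow_one]
      have h1 := stabB hChief hSplit hLift hb hV L L' hM hB hBs _ (core q M) le_rfl k1 k3 k2 k4
      have h2 : (x : Γ) ∈ core q M := by
        have h3 := L.fit M hM
        rw [hcr, sup_bot_eq] at h3
        refine h3 ⟨hNM hxN, ?_⟩
        show (x : Γ) ∈ centralizer (core q M : Set Γ)
        rw [mem_centralizer_iff]
        intro y hy
        exact (h1 y hy x (mem_zpowers _)).symm
      have h4 : (x : Γ) ∈ core q M ⊓ zpowers (x : Γ) := ⟨h2, mem_zpowers _⟩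
      rw [inf_bot hb.hq hb.hr hb.ne k3 hBs, mem_bot] at h4
      rw [h4, orderOf_one] at hx1
      exact hb.hr.one_lt.ne hx1
  have hNS : (⁅M ⊓ syl V q G, M ⊓ syl V r G⁆ : Subgroup Γ) ≤ syl V q G :=
    L.le_syl _ (hNM.trans hM.1)
      (icomm (iinf hM.2.1 L.sq.2.1) (iinf hM.2.1 L'.sq.2.1)) hNq
  rw [inv_iff]
  intro m hm x hx
  obtain ⟨a, ha, b, hb', rfl⟩ := (L.dec M hM).2 m hm
  have h1 : b * x * b⁻¹ ∈ M ⊓ syl V q G := by
    have h2 := commutator_mem_commutator hx hb'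
    rw [commutatorElement_def] at h2
    have h3 : x * b * x⁻¹ * b⁻¹ ∈ M ⊓ syl V q G := ⟨hNM h2, hNS h2⟩
    have h4 := mul_mem (inv_mem hx) h3
    have h5 := inv_mem h4
    have e : (x⁻¹ * (x * b * x⁻¹ * b⁻¹))⁻¹ = b * x * b⁻¹ := by group
    rwa [e] at h5
  have e : a * b * x * (a * b)⁻¹ = a * (b * x * b⁻¹) * a⁻¹ := by group
  rw [e]
  exact mul_mem (mul_mem ha h1) (inv_mem ha)

/-- proper subgroups of `q`-groups are not self-normalising -/
lemma nor_lt {q : ℕ} (hq : q.Prime) {S T : Subgroup Γ} (hS : IsPGroup q S) (hT : T ≤ S)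
    (h : S ⊓ normalizer (T : Set Γ) ≤ T) : T = S := by
  have : Fact q.Prime := ⟨hq⟩
  have hn : Group.IsNilpotent S := hS.isNilpotent
  have hc : NormalizerCondition S := Group.normalizerCondition_of_isNilpotent
  by_contra hne
  have h1 : T.subgroupOf S < ⊤ := by
    rw [lt_top_iff_ne_top]
    intro h2
    rw [subgroupOf_eq_top] at h2
    exact hne (le_antisymm hT h2)
  have h3 := hc _ h1
  apply h3.not_ge
  intro x hx
  rw [mem_subgroupOf]
  refine h ⟨x.2, ?_⟩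
  refine mem_normalizer_iff.mpr ?_
  intro y
  constructor
  · intro hy
    have h4 := (mem_normalizer_iff.mp hx) ⟨y, hT hy⟩
    exact h4.mp hy
  · intro hy
    have hyS : y ∈ S := by
      have h5 : (x : Γ) * y * (x : Γ)⁻¹ ∈ S := hT hy
      have h6 := mul_mem (mul_mem (inv_mem x.2) h5) x.2
      have e : (x : Γ)⁻¹ * ((x : Γ) * y * (x : Γ)⁻¹) * (x : Γ) = y := by group
      rwa [e] at h6
    have h4 := (mem_normalizer_iff.mp hx) ⟨y, hyS⟩
    exact h4.mpr hy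

/-- the maximal subgroups of type `q` -/
lemma half (hChief : StmtChief) (hSplit : StmtSplit) (hLift : StmtLift) {p q r : ℕ}
    {V G : Subgroup Γ} (hb : Bad p q r V G) (hV : Nat.card V = p ^ 2) (L : Loc p q r V G)
    (L' : Loc p r q V G) {M : Subgroup Γ} (hM : MM V G q r M) (hcr : core r M = ⊥) :
    Hn V G q r (syl V q G) = M ∧ syl V q G ≤ M ∧ Inv M (syl V q G) := by
  have hr : Fact r.Prime := ⟨hb.hr⟩
  have hqp : Fact q.Prime := ⟨hb.hq⟩
  have h1 := aprime hChief hSplit hLift hb hV L L' hM.1 hcr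
  obtain ⟨s1, s2, s3, s4, s5, s6⟩ := L.sq
  have h0 : M ⊓ syl V q G ≠ ⊥ := by
    intro h0
    -- then `M` is an `r`-group
    have h2 : M ≤ syl V r G := by
      intro x hx
      obtain ⟨a, ha, b, hb', rfl⟩ := (L.dec M hM.1).2 x hx
      rw [h0, mem_bot] at ha
      rw [ha, one_mul]
      exact hb'.2
    have h3 : M ≤ core r M := le_sSup ⟨le_rfl, iself M, L'.sq.2.2.1.to_le h2⟩
    rw [hcr, le_bot_iff] at h3
    have h4 := hM.2 _ s6 (h3 ▸ bot_le)
    rw [h3] at h4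
    exact s5 h4
  have h2 : Hn V G q r (M ⊓ syl V q G) = M :=
    L.eqn M _ hM inf_le_left (iinf hM.1.2.1 s2) h1 h0
  have hMSG : M ⊓ syl V q G ≠ G := by
    intro h
    apply hM.1.2.2.1
    exact le_antisymm hM.1.1 (h ▸ inf_le_left)
  have h3 : M ⊓ syl V q G = syl V q G := by
    refine nor_lt hb.hq s3 inf_le_right ?_
    intro x hx
    refine ⟨?_, hx.1⟩
    rw [← h2]
    refine L.le_nor (syl V q G ⊓ normalizer ((M ⊓ syl V q G : Subgroup Γ) : Set Γ)) _ ?_
      (fun y hy => hy.2) (inf_le_left.trans hM.1.1) (iinf hM.1.2.1 s2) h0 hMSG hx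
    refine ⟨inf_le_left.trans s1, inorm s2 (iinf hM.1.2.1 s2), ?_, ?_⟩
    · intro h
      apply s6.2.2.1
      refine le_antisymm s1 ?_
      conv_lhs => rw [← h]
      exact inf_le_left
    · intro s hs hd
      exact s6.2.2.2 s hs (hd.trans (card_dvd_of_le inf_le_left))
  rw [h3] at h1 h2
  exact ⟨h2, by rw [← h3]; exact inf_le_left, h1⟩

end D4x

namespace D4x

open scoped commutatorElement

variable {Γ : Type} [Group Γ] [Finite Γ]

/-- the situation after step (a) -/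
structure Setup (p q r : ℕ) (V G A B : Subgroup Γ) : Prop where
  hb : Bad p q r V G
  hV : Nat.card V = p ^ 2
  L : Loc p q r V G
  L' : Loc p r q V G
  hA : LL V G q r A
  hB : LL V G q r B
  sA : syl V q G ≤ A
  sB : syl V r G ≤ B
  nA : Inv A (syl V q G)
  nB : Inv B (syl V r G)
  cA : ∀ x ∈ A ⊓ syl V r G, (∀ y ∈ syl V q G, y * x = x * y) → x = 1
  cB : ∀ x ∈ B ⊓ syl V q G, (∀ y ∈ syl V r G, y * x = x * y) → x = 1
  nsA : ¬ syl V r G ≤ A
  nsB : ¬ syl V q G ≤ B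
  cov : ∀ X, LL V G q r X → X ≤ A ∨ X ≤ B

lemma Setup.symm {p q r : ℕ} {V G A B : Subgroup Γ} (h : Setup p q r V G A B)
    (hLoc : StmtLoc) : Setup p r q V G B A where
  hb := (hLoc Γ p q r V G h.hb).1
  hV := h.hV
  L := h.L'
  L' := h.L
  hA := h.L.symL _ h.hB
  hB := h.L.symL _ h.hA
  sA := h.sB
  sB := h.sA
  nA := h.nB
  nB := h.nA
  cA := h.cB
  cB := h.cA
  nsA := h.nsB
  nsB := h.nsA
  cov := fun X hX => (h.cov X (h.L'.symL X hX)).symm

lemma r_not_dvd {q r : ℕ} (hq : q.Prime) (hr : r.Prime) (hne : q ≠ r) {X : Subgroup Γ}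
    (h : IsPGroup q X) : ¬ r ∣ Nat.card X := fun hd => hne (pprime_dvd hq h hr hd).symm

lemma Setup.cenbot {p q r : ℕ} {V G A B : Subgroup Γ} (h : Setup p q r V G A B)
    {X : Subgroup Γ} (hX : X ≤ G) : cen X V = ⊥ := by
  rw [eq_bot_iff, ← h.hb.fpf]
  exact fun x hx => ⟨hX hx.1, hx.2⟩

/-- generation by the fixed points of elements -/
lemma Setup.gen {p q r : ℕ} {V G A B : Subgroup Γ} (h : Setup p q r V G A B)
    (hGen2 : StmtGen2) {X Y : Subgroup Γ} (hX : X ≤ G) (hi : Inv V X) (hs : Group.IsSolvable X)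
    (h1 : ∀ v ∈ V, v ≠ 1 → cen X {v} ≤ Y) : X ≤ Y :=
  hGen2 Γ p V X Y h.hb.elAb' h.hb.big hi (not_dvd_le hX h.L.cop) hs h1

lemma Setup.iR {p q r : ℕ} {V G A B : Subgroup Γ} (h : Setup p q r V G A B) :
    Inv V (A ⊓ syl V r G) := iinf h.hA.2.1 h.L'.sq.2.1

lemma Setup.R_ex {p q r : ℕ} {V G A B : Subgroup Γ} (h : Setup p q r V G A B)
    (hGen2 : StmtGen2) (hR : A ⊓ syl V r G ≠ ⊥) :
    ∃ v ∈ V, v ≠ 1 ∧ cen (A ⊓ syl V r G) {v} ≠ ⊥ := by
  by_contra hcon
  push Not at hcon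
  apply hR
  rw [eq_bot_iff]
  refine h.gen hGen2 (inf_le_left.trans h.hA.1) h.iR
    (not_sol_of_p h.hb.hr (h.L'.sq.2.2.1.to_le inf_le_right)) ?_
  intro v hv h1
  rw [hcon v hv h1]

/-- step (P) -/
lemma Setup.P {p q r : ℕ} {V G A B : Subgroup Γ} (h : Setup p q r V G A B) (hP : StmtP)
    {v u : Γ} (hv : v ∈ V) (h1 : v ≠ 1) (hne : cen (A ⊓ syl V r G) {v} ≠ ⊥) (hu : u ∈ V)
    (hu1 : u ∉ zpowers v)
    (hc : ∀ x ∈ cen (syl V q G) {u}, ∀ y ∈ A ⊓ syl V r G, y * x = x * y) : False := by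
  have hE := h.hb.elAb'
  have h2 : syl V q G ≤ centralizer (cen (A ⊓ syl V r G) {v} : Set Γ) := by
    refine lemP hP hE h.hV h.hb.fpf h.L.cop h.hb.hq (icen1 h.iR hE.comm hv)
      ((cen_le _ _).trans (inf_le_left.trans h.hA.1)) ?_ h.L.sq.1 h.L.sq.2.2.1 h.L.sq.2.1
      (imono h.nA ((cen_le _ _).trans inf_le_left)) hv h1 ?_ hu hu1 ?_
    · exact r_not_dvd h.hb.hr h.hb.hq h.hb.ne.symm
        (h.L'.sq.2.2.1.to_le ((cen_le _ _).trans inf_le_right))
    · intro x hx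
      exact (mem_cen1.mp hx).2
    · intro x hx
      rw [mem_centralizer_iff]
      intro y hy
      exact hc x hx y (cen_le _ _ hy)
  apply hne
  rw [eq_bot_iff]
  intro x hx
  rw [mem_bot]
  refine h.cA x (cen_le _ _ hx) ?_
  intro y hy
  have := h2 hy
  rw [mem_centralizer_iff] at this
  exact (this x hx).symm

/-- `[Q*, R*] = 1` -/
lemma Setup.QR {p q r : ℕ} {V G A B : Subgroup Γ} (h : Setup p q r V G A B) :
    ∀ x ∈ B ⊓ syl V q G, ∀ y ∈ A ⊓ syl V r G, y * x = x * y := by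
  intro x hx y hy
  have h1 : x * y * x⁻¹ * y⁻¹ ∈ syl V q G ⊓ syl V r G := by
    refine ⟨?_, ?_⟩
    · have h2 := iconj h.nA hy.1 (inv_mem hx.2)
      have h3 := mul_mem hx.2 h2
      simpa [mul_assoc] using h3
    · exact (syl V r G).mul_mem (iconj h.nB hx.1 hy.2) ((syl V r G).inv_mem hy.2)
  rw [inf_bot h.hb.hq h.hb.hr h.hb.ne h.L.sq.2.2.1 h.L'.sq.2.2.1, mem_bot] at h1
  have h2 : x * y * x⁻¹ = y := by
    have := congrArg (· * y) h1
    simpa using this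
  have h3 := congrArg (· * x) h2
  simp only [inv_mul_cancel_right] at h3
  exact h3.symm

lemma Setup.cH {p q r : ℕ} {V G A B : Subgroup Γ} (h : Setup p q r V G A B) {u : Γ}
    (hu : u ∈ V) (hu1 : u ≠ 1) :
    cen (syl V r G) {u} ≤ A ⊓ syl V r G ∨ cen (syl V q G) {u} ≤ B ⊓ syl V q G := by
  have hE := h.hb.elAb'
  have key : ∀ q' : ℕ, syl V q' G ≤ G → Inv V (syl V q' G) → LL V G q r (syl V q' G) →
      cen (syl V q' G) {u} ≤ Hc V G q r u := by
    intro q' h1 h2 h3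
    refine h.L.le_cn (cen (syl V q' G) {u}) ⟨(cen_le _ _).trans h1, icen1 h2 hE.comm hu, ?_, ?_⟩
      u hu hu1 ?_
    · intro h4
      apply h3.2.2.1
      refine le_antisymm h1 ?_
      conv_lhs => rw [← h4]
      exact cen_le _ _
    · intro s hs hd
      exact h3.2.2.2 s hs (hd.trans (card_dvd_of_le (cen_le _ _)))
    · exact inf_le_right
  have kq := key q h.L.sq.1 h.L.sq.2.1 h.L.sq.2.2.2.2.2
  have kr := key r h.L'.sq.1 h.L'.sq.2.1 (h.L'.symL _ h.L'.sq.2.2.2.2.2)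
  rcases h.cov _ (h.L.cn u hu hu1).1 with h1 | h1
  · exact Or.inl (le_inf (kr.trans h1) (cen_le _ _))
  · exact Or.inr (le_inf (kq.trans h1) (cen_le _ _))

/-- `Q_u ≤ Q*` is impossible for `u` outside a subgroup of order `p` -/
lemma Setup.bq {p q r : ℕ} {V G A B : Subgroup Γ} (h : Setup p q r V G A B) (hP : StmtP)
    (hGen2 : StmtGen2) (hR : A ⊓ syl V r G ≠ ⊥) :
    ∃ v ∈ V, v ≠ 1 ∧ ∀ u ∈ V, u ∉ zpowers v → ¬ cen (syl V q G) {u} ≤ B ⊓ syl V q G := by
  obtain ⟨v, hv, h1, h2⟩ := h.R_ex hGen2 hR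
  refine ⟨v, hv, h1, fun u hu hu1 hle => ?_⟩
  exact h.P hP hv h1 h2 hu hu1 (fun x hx y hy => h.QR x (hle hx) y hy)

lemma Setup.caseb {p q r : ℕ} {V G A B : Subgroup Γ} (h : Setup p q r V G A B)
    (hLoc : StmtLoc) (hP : StmtP) (hGen2 : StmtGen2) (hR : A ⊓ syl V r G ≠ ⊥)
    (hQ : B ⊓ syl V q G ≠ ⊥) : False := by
  obtain ⟨v, hv, hv1, h1⟩ := h.bq hP hGen2 hR
  obtain ⟨w, hw, hw1, h2⟩ := (h.symm hLoc).bq hP hGen2 hQ
  obtain ⟨u, hu, huv, huw⟩ := exV h.hb.elAb' h.hV hv hv1 hw hw1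
  have hu1 : u ≠ 1 := fun h => huv (h ▸ one_mem _)
  rcases h.cH hu hu1 with h3 | h3
  · exact h2 u hu huw h3
  · exact h1 u hu huv h3

lemma Setup.casec {p q r : ℕ} {V G A B : Subgroup Γ} (h : Setup p q r V G A B)
    (hP : StmtP) (hGen2 : StmtGen2) (hNp : StmtNp) (hS1 : StmtS1) (hFus : StmtFus)
    (hR : A ⊓ syl V r G ≠ ⊥) (hQ : B ⊓ syl V q G = ⊥) : False := by
  have hE := h.hb.elAb'
  obtain ⟨v, hv, hv1, h1⟩ := h.bq hP hGen2 hR
  have h2 : ∀ u ∈ V, u ∉ zpowers v → cen (syl V r G) {u} ≤ A ⊓ syl V r G := by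
    intro u hu huv
    have hu1 : u ≠ 1 := fun h => huv (h ▸ one_mem _)
    rcases h.cH hu hu1 with h3 | h3
    · exact h3
    · exact absurd h3 (h1 u hu huv)
  have same : ∀ u ∈ V, u ≠ 1 → u ∈ zpowers v → ∀ X : Subgroup Γ, cen X {u} = cen X {v} := by
    intro u hu hu1 huv X
    rw [← cen_zpowers, ← cen_zpowers, zp_eq hE hu hu1 hv hv1 huv]
  have hsr := not_sol_of_p h.hb.hr h.L'.sq.2.2.1
  have h4 : ¬ cen (syl V r G) {v} ≤ A ⊓ syl V r G := by
    intro h4
    apply h.nsA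
    have : syl V r G ≤ A ⊓ syl V r G := by
      refine h.gen hGen2 h.L'.sq.1 h.L'.sq.2.1 hsr ?_
      intro u hu hu1
      by_cases huv : u ∈ zpowers v
      · rw [same u hu hu1 huv]
        exact h4
      · exact h2 u hu huv
    exact this.trans inf_le_left
  have h5 : cen (syl V q G) {v} = ⊥ := by
    rcases h.cH hv hv1 with h6 | h6
    · exact absurd h6 h4
    · rw [hQ, le_bot_iff] at h6
      exact h6
  have hRG : A ⊓ syl V r G ≤ G := inf_le_left.trans h.hA.1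
  have hRr : IsPGroup r (A ⊓ syl V r G : Subgroup Γ) := h.L'.sq.2.2.1.to_le inf_le_right
  have hsolR := not_sol_of_p h.hb.hr hRr
  have h6 : syl V q G ≤ centralizer (cm (A ⊓ syl V r G) v : Set Γ) := by
    refine hNp Γ p V (syl V q G) (A ⊓ syl V r G) v hE h.iR h.L.sq.2.1
      (imono h.nA inf_le_left) (h.cenbot hRG) hsolR (not_sol_of_p h.hb.hq h.L.sq.2.2.1)
      (cop_of h.hb.hq ?_ h.L.sq.2.2.1) hv h5
    exact r_not_dvd h.hb.hr h.hb.hq h.hb.ne.symm hRr
  have hcmle : cm (A ⊓ syl V r G) v ≤ A ⊓ syl V r G :=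
    cm_le (imono h.iR (zpowers_le.mpr hv))
  have h7 : ∀ x ∈ A ⊓ syl V r G, v * x = x * v := by
    intro x hx
    have h8 : x * v * x⁻¹ * v⁻¹ ∈ cm (A ⊓ syl V r G) v := by
      have := commutator_mem_commutator hx (mem_zpowers v)
      rwa [commutatorElement_def] at this
    have h9 := h.cA _ (hcmle h8) (by
      intro y hy
      have := h6 hy
      rw [mem_centralizer_iff] at this
      exact (this _ h8).symm)
    have h10 : x * v * x⁻¹ = v := by
      have := congrArg (· * v) h9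
      simpa using this
    have h11 := congrArg (· * x) h10
    simp only [inv_mul_cancel_right] at h11
    exact h11.symm
  have h8 : syl V r G ≤ cen (syl V r G) {v} := by
    refine h.gen hGen2 h.L'.sq.1 h.L'.sq.2.1 hsr ?_
    intro u hu hu1
    by_cases huv : u ∈ zpowers v
    · rw [same u hu hu1 huv]
    · intro x hx
      have h9 := h2 u hu huv hx
      exact mem_cen1.mpr ⟨h9.2, h7 x h9⟩
  exact fus hS1 hFus h.hb h.hV h.L' hv hv1 (h8.trans inf_le_right)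

end D4x

namespace D4x

open scoped commutatorElement

variable {Γ : Type} [Group Γ] [Finite Γ]

lemma isup {V X Y : Subgroup Γ} (h : Inv V X) (h' : Inv V Y) : Inv V (X ⊔ Y) := by
  rw [inv_iff]
  intro v hv x hx
  have h1 : X ⊔ Y ≤ (X ⊔ Y).comap (MulAut.conj v).toMonoidHom := by
    refine sup_le ?_ ?_
    · intro y hy
      exact le_sup_left (a := X) (iconj h hv hy)
    · intro y hy
      exact le_sup_right (b := Y) (iconj h' hv hy)
  exact h1 hx

lemma relsup {N R : Subgroup Γ} (h : Inv R N) : N.relIndex (N ⊔ R) = N.relIndex R := by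
  have hn : (N.subgroupOf (N ⊔ R)).Normal := by
    rw [normal_subgroupOf_iff_le_normalizer le_sup_left]
    exact sup_le le_normalizer h
  have h1 : N.subgroupOf (N ⊔ R) ⊔ R.subgroupOf (N ⊔ R) = ⊤ := by
    rw [← subgroupOf_sup le_sup_left le_sup_right, subgroupOf_self]
  have h2 : (N.subgroupOf (N ⊔ R)).relIndex (R.subgroupOf (N ⊔ R)) = N.relIndex R :=
    relIndex_subgroupOf le_sup_right
  have h3 : (N.subgroupOf (N ⊔ R)).relIndex (N.subgroupOf (N ⊔ R) ⊔ R.subgroupOf (N ⊔ R)) =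
      (N.subgroupOf (N ⊔ R)).relIndex (R.subgroupOf (N ⊔ R)) := relIndex_sup_left _ _
  rw [h1, relIndex_top_right, h2] at h3
  exact h3

lemma qpow_of_dvd {q : ℕ} (hq : q.Prime) {n m : ℕ} (h : n ∣ q ^ m) : ∃ k, n = q ^ k := by
  obtain ⟨k, -, hk⟩ := (Nat.dvd_prime_pow hq).1 h
  exact ⟨k, hk⟩

lemma one_of {q : ℕ} (hq : q.Prime) {n k : ℕ} (h : n ∣ q ^ k) (h' : ¬ q ∣ n) : n = 1 := by
  obtain ⟨j, hj⟩ := qpow_of_dvd hq h
  rcases Nat.eq_zero_or_pos j with h0 | h0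
  · rw [hj, h0, pow_zero]
  · exfalso
    apply h'
    rw [hj]
    exact dvd_pow_self q h0.ne'

/-- elements of the normal `q`-complement -/
lemma mem_of_order {q : ℕ} (hq : q.Prime) {N X : Subgroup Γ} (hN : N ≤ X) (hi : Inv X N) {k : ℕ}
    (hk : N.relIndex X = q ^ k) {x : Γ} (hx : x ∈ X) (ho : ¬ q ∣ orderOf x) : x ∈ N := by
  have hn : (N.subgroupOf X).Normal := by
    rw [normal_subgroupOf_iff_le_normalizer hN]
    exact hi
  have h1 := Subgroup.pow_index_mem (N.subgroupOf X) (⟨x, hx⟩ : X)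
  have h2 : (N.subgroupOf X).index = q ^ k := hk
  rw [h2, mem_subgroupOf] at h1
  have h3 : x ^ (q ^ k) ∈ N := h1
  have h4 : Nat.Coprime (q ^ k) (orderOf x) :=
    Nat.Coprime.pow_left k ((Nat.Prime.coprime_iff_not_dvd hq).2 ho)
  obtain ⟨m, hm⟩ := exists_pow_eq_self_of_coprime h4
  rw [← hm]
  exact pow_mem h3 m

lemma order_of_mem {q : ℕ} {N : Subgroup Γ} (h : ¬ q ∣ Nat.card N) {x : Γ} (hx : x ∈ N) :
    ¬ q ∣ orderOf x := fun h' => h (h'.trans (Subgroup.orderOf_dvd_natCard N hx))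

lemma orderOf_conj' (g x : Γ) : orderOf (g * x * g⁻¹) = orderOf x := by
  have := orderOf_injective (MulAut.conj g).toMonoidHom (MulAut.conj g).injective x
  exact this

lemma inv_compl {q : ℕ} (hq : q.Prime) {N X W : Subgroup Γ} (hN : N ≤ X) (hi : Inv X N) {k : ℕ}
    (hk : N.relIndex X = q ^ k) (hq' : ¬ q ∣ Nat.card N) (hW : Inv W X) : Inv W N := by
  rw [inv_iff]
  intro w hw x hx
  refine mem_of_order hq hN hi hk (iconj hW hw (hN hx)) ?_
  rw [orderOf_conj']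
  exact order_of_mem hq' hx

lemma pnil_up {q : ℕ} (hq : q.Prime) {U X : Subgroup Γ} (hU : U ≤ X) (hi : Inv X U)
    (h : PNil q U) {j : ℕ} (hj : U.relIndex X = q ^ j) : PNil q X := by
  obtain ⟨N, h1, h2, h3, k, hk⟩ := h
  refine ⟨N, h1.trans hU, inv_compl hq h1 h2 hk h3 hi, h3, k + j, ?_⟩
  rw [← relIndex_mul_relIndex N U X h1 hU, hk, hj, pow_add]

/-- products of a subgroup with a subgroup which it normalises -/
lemma mem_sup_inv {N E : Subgroup Γ} (h : Inv E N) {x : Γ} (hx : x ∈ N ⊔ E) :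
    ∃ n ∈ N, ∃ e ∈ E, x = n * e := by
  let K : Subgroup Γ :=
    { carrier := {x | ∃ n ∈ N, ∃ e ∈ E, x = n * e}
      one_mem' := ⟨1, one_mem _, 1, one_mem _, by simp⟩
      mul_mem' := by
        rintro _ _ ⟨n, hn, e, he, rfl⟩ ⟨n', hn', e', he', rfl⟩
        refine ⟨n * (e * n' * e⁻¹), mul_mem hn (iconj h he hn'), e * e', mul_mem he he', ?_⟩
        group
      inv_mem' := by
        rintro _ ⟨n, hn, e, he, rfl⟩
        refine ⟨e⁻¹ * n⁻¹ * e, iconj' h he (inv_mem hn), e⁻¹, inv_mem he, ?_⟩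
        group }
  have h1 : N ⊔ E ≤ K := sup_le (fun n hn => ⟨n, hn, 1, one_mem _, by simp⟩)
    (fun e he => ⟨1, one_mem _, e, he, by simp⟩)
  exact h1 hx

/-- Frattini argument -/
lemma frattini {q : ℕ} (hq : q.Prime) {U X E : Subgroup Γ} (hU : U ≤ X) (hi : Inv X U)
    (hEU : E ≤ U) (hE : IsPGroup q E) (hEi : ¬ q ∣ E.relIndex U) {x : Γ} (hx : x ∈ X) :
    ∃ u ∈ U, ∃ y ∈ X ⊓ normalizer (E : Set Γ), x = u * y := by
  have : Fact q.Prime := ⟨hq⟩
  -- the conjugate subgroup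
  let φ : Γ →* Γ := (MulAut.conj x).toMonoidHom
  have hinj : Function.Injective φ := (MulAut.conj x).injective
  have hE'U : E.map φ ≤ U := by
    rintro _ ⟨e, he, rfl⟩
    exact iconj hi hx (hEU he)
  have hcard : Nat.card (E.map φ) = Nat.card E := card_map_of_injective hinj
  have hE'i : ¬ q ∣ (E.map φ).relIndex U := by
    have h1 := card_mul_rel hE'U
    have h2 := card_mul_rel hEU
    rw [hcard, ← h2] at h1
    rwa [Nat.eq_of_mul_eq_mul_left Nat.card_pos h1]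
  have hE' : IsPGroup q (E.map φ) := hE.map φ
  have p1 : IsPGroup q (E.subgroupOf U) := hE.comap_subtype
  have p2 : IsPGroup q ((E.map φ).subgroupOf U) := hE'.comap_subtype
  let P : Sylow q U := p1.toSylow hEi
  let Q : Sylow q U := p2.toSylow hE'i
  obtain ⟨g, hg⟩ := MulAction.exists_smul_eq U P Q
  have hgg : ∀ e ∈ E, (g : Γ) * e * (g : Γ)⁻¹ ∈ E.map φ := by
    intro e he
    have h1 : (⟨e, hEU he⟩ : U) ∈ P :=
      (IsPGroup.mem_toSylow p1 hEi).mpr (mem_subgroupOf.mpr he)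
    have h2 : g * (⟨e, hEU he⟩ : U) * g⁻¹ ∈ (g • P : Sylow q U) := by
      have := Subgroup.smul_mem_pointwise_smul (⟨e, hEU he⟩ : U) (MulAut.conj g) (P : Subgroup U) h1
      show _ ∈ ((g • P : Sylow q U) : Subgroup U)
      rw [Sylow.coe_subgroup_smul]
      simpa using this
    rw [hg] at h2
    have h3 : g * (⟨e, hEU he⟩ : U) * g⁻¹ ∈ ((E.map φ).subgroupOf U) :=
      (IsPGroup.mem_toSylow p2 hE'i).mp h2
    rw [mem_subgroupOf] at h3
    exact h3
  refine ⟨g, g.2, (g : Γ)⁻¹ * x, ⟨X.mul_mem (X.inv_mem (hU g.2)) hx, ?_⟩, by group⟩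
  -- `y = g⁻¹ x` normalises `E`
  have hinc : E ≤ E.map (MulAut.conj ((g : Γ)⁻¹ * x)).toMonoidHom := by
    intro e he
    obtain ⟨e', he', h1⟩ := hgg e he
    refine ⟨e', he', ?_⟩
    have h2 : x * e' * x⁻¹ = (g : Γ) * e * (g : Γ)⁻¹ := h1
    show ((g : Γ)⁻¹ * x) * e' * ((g : Γ)⁻¹ * x)⁻¹ = e
    have h3 : ((g : Γ)⁻¹ * x) * e' * ((g : Γ)⁻¹ * x)⁻¹ = (g : Γ)⁻¹ * (x * e' * x⁻¹) * (g : Γ) := by
      group
    rw [h3, h2]
    group
  have heq : E = E.map (MulAut.conj ((g : Γ)⁻¹ * x)).toMonoidHom := by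
    refine eq_of_card hinc ?_
    rw [card_map_of_injective (MulAut.conj ((g : Γ)⁻¹ * x)).injective]
  refine mem_normalizer_iff.mpr ?_
  intro e
  constructor
  · intro he
    show (MulAut.conj ((g : Γ)⁻¹ * x)).toMonoidHom e ∈ E
    rw [heq]
    exact ⟨e, he, rfl⟩
  · intro he
    rw [heq] at he
    obtain ⟨e', he', h1⟩ := he
    have h2 := (MulAut.conj ((g : Γ)⁻¹ * x)).injective h1
    rwa [h2] at he'

/-- the inductive step -/
lemma pnil_step {q : ℕ} (hq : q.Prime) {U X E : Subgroup Γ} (hU : U ≤ X) (hi : Inv X U)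
    (hEU : E ≤ U) (hE : IsPGroup q E) (hEi : ¬ q ∣ E.relIndex U) (h : PNil q U)
    (hY : PNil q (X ⊓ normalizer (E : Set Γ))) : PNil q X := by
  obtain ⟨N, h1, h2, h3, k, hk⟩ := h
  obtain ⟨R, r1, r2, r3, j, hj⟩ := hY
  have hXN : Inv X N := inv_compl hq h1 h2 hk h3 hi
  have hRX : R ≤ X := r1.trans inf_le_left
  have hT : Inv (X ⊓ normalizer (E : Set Γ)) (N ⊔ R) := isup (imono hXN inf_le_left) r2
  -- `U = N E`
  have hEX : E ≤ X := hEU.trans hU
  have hUNE : U ≤ N ⊔ E := by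
    rw [← relIndex_eq_one]
    have e1 := relIndex_mul_relIndex N (N ⊔ E) U le_sup_left (sup_le h1 hEU)
    have e2 := relIndex_mul_relIndex E (N ⊔ E) U le_sup_right (sup_le h1 hEU)
    refine one_of hq (k := k) ?_ ?_
    · rw [← hk]
      exact Dvd.intro_left _ e1
    · intro h'
      exact hEi (h'.trans (Dvd.intro_left _ e2))
  have hdec : ∀ x ∈ X, ∃ n ∈ N, ∃ y ∈ X ⊓ normalizer (E : Set Γ), x = n * y := by
    intro x hx
    obtain ⟨u, hu, y, hy, rfl⟩ := frattini hq hU hi hEU hE hEi hx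
    obtain ⟨n, hn, e, he, rfl⟩ := mem_sup_inv (imono hXN hEX) (hUNE hu)
    refine ⟨n, hn, e * y, mul_mem ⟨hEX he, le_normalizer he⟩ hy, by group⟩
  have hXT : Inv X (N ⊔ R) := by
    rw [inv_iff]
    intro x hx t ht
    obtain ⟨n, hn, y, hy, rfl⟩ := hdec x hx
    have h5 := iconj hT hy ht
    have hn' : n ∈ N ⊔ R := le_sup_left (a := N) hn
    have h6 := mul_mem (mul_mem hn' h5) (inv_mem hn')
    have e : n * y * t * (n * y)⁻¹ = n * (y * t * y⁻¹) * n⁻¹ := by group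
    rwa [e]
  have hTX : N ⊔ R ≤ X := sup_le (h1.trans hU) hRX
  have hTY : X ≤ (N ⊔ R) ⊔ (X ⊓ normalizer (E : Set Γ)) := by
    intro x hx
    obtain ⟨n, hn, y, hy, rfl⟩ := hdec x hx
    exact mul_mem (le_sup_left (a := N ⊔ R) (le_sup_left (a := N) hn))
      (le_sup_right (b := X ⊓ normalizer (E : Set Γ)) hy)
  have hTX' : (N ⊔ R) ⊔ (X ⊓ normalizer (E : Set Γ)) = X :=
    le_antisymm (sup_le hTX inf_le_left) hTY
  refine ⟨N ⊔ R, hTX, hXT, ?_, ?_⟩
  · rw [← card_mul_rel (le_sup_left : N ≤ N ⊔ R), relsup (imono hXN hRX)]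
    intro h'
    rcases (hq.dvd_mul).1 h' with h6 | h6
    · exact h3 h6
    · exact r3 (h6.trans (relIndex_dvd_card _ _))
  · have e1 : (N ⊔ R).relIndex X = (N ⊔ R).relIndex (X ⊓ normalizer (E : Set Γ)) := by
      conv_lhs => rw [← hTX']
      exact relsup hT
    refine qpow_of_dvd hq (m := j) ?_
    rw [e1, ← hj]
    exact relIndex_dvd_of_le_left _ le_sup_right

/-- the case of a normal Sylow `q`-subgroup -/
lemma pnil_base {q : ℕ} (hq : q.Prime) {X E : Subgroup Γ} (hEX : E ≤ X) (hi : Inv X E)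
    (hE : IsPGroup q E) (hEi : ¬ q ∣ E.relIndex X) {k : ℕ}
    (hk : (cen X (E : Set Γ)).relIndex X = q ^ k) : PNil q X := by
  have : Fact q.Prime := ⟨hq⟩
  have hn : (E.subgroupOf X).Normal := by
    rw [normal_subgroupOf_iff_le_normalizer hEX]
    exact hi
  have hcE : Nat.card (E.subgroupOf X) = Nat.card E := by
    have := card_map_of_injective (K := E.subgroupOf X) (X.subtype_injective)
    rw [map_subgroupOf_eq_of_le hEX] at this
    exact this.symm
  obtain ⟨n, hn'⟩ := IsPGroup.iff_card.mp hE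
  have hco : Nat.Coprime (Nat.card (E.subgroupOf X)) (E.subgroupOf X).index := by
    rw [hcE, hn']
    exact Nat.Coprime.pow_left n ((Nat.Prime.coprime_iff_not_dvd hq).2 hEi)
  obtain ⟨H, hH⟩ := exists_right_complement'_of_coprime hco
  have hRX : H.map X.subtype ≤ X := map_subtype_le H
  have hcR : Nat.card (H.map X.subtype) = Nat.card H :=
    card_map_of_injective X.subtype_injective
  have hcH : Nat.card H = E.relIndex X := (IsComplement'.index_eq_card hH.symm).symm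
  have hqR : ¬ q ∣ Nat.card (H.map X.subtype) := by
    rw [hcR, hcH]
    exact hEi
  have hC : H.map X.subtype ≤ cen X (E : Set Γ) := by
    intro x hx
    exact mem_of_order hq (cen_le _ _) (icenn (iself X) hi) hk (hRX hx) (order_of_mem hqR hx)
  have hsup : E ⊔ H.map X.subtype = X := by
    have h1 : (E.subgroupOf X ⊔ H).map X.subtype = (⊤ : Subgroup X).map X.subtype := by
      rw [hH.sup_eq_top]
    rw [Subgroup.map_sup, map_subgroupOf_eq_of_le hEX] at h1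
    rw [h1, ← MonoidHom.range_eq_map, range_subtype]
  refine ⟨H.map X.subtype, hRX, ?_, hqR, n, ?_⟩
  · rw [Inv]
    conv_lhs => rw [← hsup]
    refine sup_le ?_ le_normalizer
    show Inv E _
    rw [inv_iff]
    intro e he x hx
    have h1 := (mem_cen.mp (hC hx)).2 e he
    rw [h1, mul_inv_cancel_right]
    exact hx
  · have h1 := card_mul_rel hRX
    have h2 := card_mul_rel hEX
    rw [hcR, hcH, ← h2, mul_comm] at h1
    rw [← hn']
    refine Nat.eq_of_mul_eq_mul_right (m := E.relIndex X) ?_ h1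
    exact Nat.pos_of_ne_zero (fun h0 => hEi (h0 ▸ dvd_zero q))

end D4x

namespace D4x

open scoped commutatorElement

variable {Γ : Type} [Group Γ] [Finite Γ]

lemma Setup.duv {p q r : ℕ} {V G A B : Subgroup Γ} (h : Setup p q r V G A B)
    (hGen2 : StmtGen2) (hS1 : StmtS1) (hFus : StmtFus)
    (hR : A ⊓ syl V r G = ⊥) (hQ : B ⊓ syl V q G = ⊥) :
    ∃ u ∈ V, ∃ v ∈ V, v ≠ 1 ∧ u ∉ zpowers v ∧ cen (syl V q G) {u} = ⊥ ∧
      cen (syl V q G) {v} = ⊥ := by
  have hE := h.hb.elAb'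
  have hsr := not_sol_of_p h.hb.hr h.L'.sq.2.2.1
  have key : ∀ u ∈ V, u ≠ 1 → cen (syl V r G) {u} ≠ ⊥ → cen (syl V q G) {u} = ⊥ := by
    intro u hu hu1 hne
    rcases h.cH hu hu1 with h1 | h1
    · rw [hR, le_bot_iff] at h1
      exact absurd h1 hne
    · rw [hQ, le_bot_iff] at h1
      exact h1
  have h1 : ∃ v ∈ V, v ≠ 1 ∧ cen (syl V r G) {v} ≠ ⊥ := by
    by_contra hcon
    push Not at hcon
    apply h.L'.sq.2.2.2.2.1
    rw [eq_bot_iff]
    refine h.gen hGen2 h.L'.sq.1 h.L'.sq.2.1 hsr ?_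
    intro v hv hv1
    rw [hcon v hv hv1]
  obtain ⟨v, hv, hv1, hv2⟩ := h1
  have h2 : ∃ u ∈ V, u ∉ zpowers v ∧ cen (syl V r G) {u} ≠ ⊥ := by
    by_contra hcon
    push Not at hcon
    have h8 : syl V r G ≤ cen (syl V r G) {v} := by
      refine h.gen hGen2 h.L'.sq.1 h.L'.sq.2.1 hsr ?_
      intro u hu hu1
      by_cases huv : u ∈ zpowers v
      · rw [← cen_zpowers, ← cen_zpowers, zp_eq hE hu hu1 hv hv1 huv]
      · rw [hcon u hu huv]
        exact bot_le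
    exact fus hS1 hFus h.hb h.hV h.L' hv hv1 (h8.trans inf_le_right)
  obtain ⟨u, hu, huv, hu2⟩ := h2
  have hu1 : u ≠ 1 := fun h => huv (h ▸ one_mem _)
  exact ⟨u, hu, v, hv, hv1, huv, key u hu hu1 hu2, key v hv hv1 hv2⟩

/-- (N): `V`-invariant `q'`-groups centralise the `V`-invariant `q`-groups which they normalise -/
lemma Setup.N {p q r : ℕ} {V G A B : Subgroup Γ} (h : Setup p q r V G A B)
    (hGen2 : StmtGen2) (hP : StmtP) {u v : Γ} (hu : u ∈ V) (hv : v ∈ V) (hv1 : v ≠ 1)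
    (huv : u ∉ zpowers v) (hcu : cen (syl V q G) {u} = ⊥) (hcv : cen (syl V q G) {v} = ⊥)
    {R E : Subgroup Γ} (hR : R ≤ G) (hRi : Inv V R) (hRs : Group.IsSolvable R)
    (hRq : ¬ q ∣ Nat.card R) (hEG : E ≤ G) (hEi : Inv V E) (hEq : IsPGroup q E)
    (hRE : Inv R E) : R ≤ centralizer (E : Set Γ) := by
  have hE := h.hb.elAb'
  have hu1 : u ≠ 1 := fun h => huv (h ▸ one_mem _)
  have hES : E ≤ syl V q G := h.L.le_syl E hEG hEi hEq
  refine h.gen hGen2 hR hRi hRs ?_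
  intro w hw hw1
  have ht : ∃ t ∈ V, t ∉ zpowers w ∧ cen (syl V q G) {t} = ⊥ := by
    by_cases h1 : u ∈ zpowers w
    · by_cases h2 : v ∈ zpowers w
      · exfalso
        apply huv
        rw [zp_eq hE hv hv1 hw hw1 h2]
        exact h1
      · exact ⟨v, hv, h2, hcv⟩
    · exact ⟨u, hu, h1, hcu⟩
  obtain ⟨t, ht, ht1, ht2⟩ := ht
  have h3 : E ≤ centralizer (cen R {w} : Set Γ) := by
    refine lemP hP hE h.hV h.hb.fpf h.L.cop h.hb.hq (icen1 hRi hE.comm hw)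
      ((cen_le _ _).trans hR) (not_dvd_le (cen_le _ _) hRq) hEG hEq hEi
      (imono hRE (cen_le _ _)) hw hw1 (fun x hx => (mem_cen1.mp hx).2) ht ht1 ?_
    have h4 : cen E {t} ≤ cen (syl V q G) {t} := fun x hx => ⟨hES hx.1, hx.2⟩
    rw [ht2, le_bot_iff] at h4
    rw [h4]
    exact bot_le
  intro x hx
  rw [mem_centralizer_iff]
  intro y hy
  have := h3 hy
  rw [mem_centralizer_iff] at this
  exact (this x hx).symm

lemma comm_lt {X : Subgroup Γ} (hs : Group.IsSolvable X) (h : X ≠ ⊥) :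
    (⁅X, X⁆ : Subgroup Γ) ≤ X ∧ (⁅X, X⁆ : Subgroup Γ) ≠ X := by
  constructor
  · rw [commutator_le]
    intro a ha b hb
    rw [commutatorElement_def]
    exact mul_mem (mul_mem (mul_mem ha hb) (inv_mem ha)) (inv_mem hb)
  · intro heq
    have : Nontrivial X := (Subgroup.nontrivial_iff_ne_bot X).mpr h
    have h1 := Group.IsSolvable.commutator_lt_top_of_nontrivial X
    apply h1.ne
    rw [_root_.commutator_def]
    apply Subgroup.map_injective X.subtype_injective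
    rw [map_commutator, ← MonoidHom.range_eq_map, range_subtype]
    exact heq

/-- every proper `V`-invariant subgroup is `q`-nilpotent -/
lemma Setup.pn {p q r : ℕ} {V G A B : Subgroup Γ} (h : Setup p q r V G A B) (hSyl : StmtSyl)
    (hN : ∀ R E : Subgroup Γ, R ≤ G → Inv V R → Group.IsSolvable R → ¬ q ∣ Nat.card R → E ≤ G →
      Inv V E → IsPGroup q E → Inv R E → R ≤ centralizer (E : Set Γ)) :
    ∀ n : ℕ, ∀ X : Subgroup Γ, Nat.card X ≤ n → X ≤ G → Inv V X → X ≠ G → PNil q X := by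
  have hE := h.hb.elAb'
  have hq := h.hb.hq
  have : Fact q.Prime := ⟨hq⟩
  intro n
  induction n with
  | zero =>
    intro X hX
    have : 0 < Nat.card X := Nat.card_pos
    omega
  | succ n ih =>
    intro X hX hXG hVX hXne
    have ih' : ∀ Z : Subgroup Γ, Z ≤ X → Z ≠ X → Inv V Z → PNil q Z := by
      intro Z hZX hZne hVZ
      refine ih Z ?_ (hZX.trans hXG) hVZ ?_
      · have h1 : Nat.card Z < Nat.card X := by
          by_contra hcon
          exact hZne (eq_of_card hZX (not_lt.mp hcon))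
        omega
      · intro h1
        apply hXne
        exact le_antisymm hXG (h1 ▸ hZX)
    obtain ⟨e1, e2, e3, e4, -⟩ := hSyl Γ p V X q hE hVX (h.cenbot hXG) hq
    by_cases hnorm : Inv X (syl V q X)
    · -- `q`-Sylow normal
      refine pnil_base hq e1 hnorm e3 e4 (k := ((cen X (syl V q X : Set Γ)).relIndex X).primeFactorsList.length) ?_
      have hpos : (cen X (syl V q X : Set Γ)).relIndex X ≠ 0 := by
        intro h0
        have := card_mul_rel (cen_le X (syl V q X : Set Γ))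
        rw [h0, mul_zero] at this
        exact (Nat.card_pos (α := X)).ne this
      refine Nat.eq_prime_pow_of_unique_prime_dvd hpos ?_
      intro s hs hd
      by_contra hsq
      obtain ⟨f1, f2, f3, f4, -⟩ := hSyl Γ p V X s hE hVX (h.cenbot hXG) hs
      apply f4
      have : syl V s X ≤ cen X (syl V q X : Set Γ) := by
        refine le_inf f1 ?_
        exact hN (syl V s X) (syl V q X) (f1.trans hXG) f2 (not_sol_of_p hs f3)
          (r_not_dvd hs hq hsq f3) (e1.trans hXG) e2 e3 (imono hnorm f1)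
      exact hd.trans (relIndex_dvd_of_le_left _ this)
    · have hY : PNil q (X ⊓ normalizer (syl V q X : Set Γ)) := by
        refine ih' _ inf_le_left ?_ (inorm hVX e2)
        intro h1
        apply hnorm
        rw [Inv]
        conv_lhs => rw [← h1]
        exact inf_le_right
      have hXb : X ≠ ⊥ := by
        intro h0
        apply hnorm
        have h1 : syl V q X = ⊥ := by
          rw [← le_bot_iff]
          conv_rhs => rw [← h0]
          exact e1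
        rw [h1]
        exact ibot X
      obtain ⟨c1, c2⟩ := comm_lt (h.hb.sol X hXG hVX hXne) hXb
      have hiD : Inv X (⁅X, X⁆ : Subgroup Γ) := icomm (iself X) (iself X)
      have hVD : Inv V (⁅X, X⁆ : Subgroup Γ) := icomm hVX hVX
      have hUX : ⁅X, X⁆ ⊔ syl V q X ≤ X := sup_le c1 e1
      have hiU : Inv X (⁅X, X⁆ ⊔ syl V q X) := by
        rw [inv_iff]
        intro x hx y hy
        have h1 : x * y * x⁻¹ * y⁻¹ ∈ (⁅X, X⁆ : Subgroup Γ) := by
          have := commutator_mem_commutator hx (hUX hy)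
          rwa [commutatorElement_def] at this
        have h2 := mul_mem (le_sup_left (a := (⁅X, X⁆ : Subgroup Γ)) (b := syl V q X) h1) hy
        simpa using h2
      by_cases hU : ⁅X, X⁆ ⊔ syl V q X = X
      · -- `X/D` is a `q`-group
        obtain ⟨m, hm⟩ := IsPGroup.iff_card.mp e3
        have h1 : (⁅X, X⁆ : Subgroup Γ).relIndex X ∣ q ^ m := by
          have h2 := relsup (N := (⁅X, X⁆ : Subgroup Γ)) (R := syl V q X) (imono hiD e1)
          rw [hU] at h2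
          rw [h2, ← hm]
          exact relIndex_dvd_card _ _
        obtain ⟨j, hj⟩ := qpow_of_dvd hq h1
        exact pnil_up hq c1 hiD (ih' _ c1 c2 hVD) hj
      · refine pnil_step hq hUX hiU le_sup_right e3 ?_ (ih' _ hUX hU (isup hVD e2)) hY
        intro hd
        apply e4
        rw [← relIndex_mul_relIndex _ _ X le_sup_right hUX]
        exact hd.mul_right _

/-- the Thompson subgroup is invariant -/
lemma iJJ {q : ℕ} {V T : Subgroup Γ} (h : Inv V T) : Inv V (JJ q T) := by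
  rw [inv_iff]
  intro v hv x hx
  have h1 : JJ q T ≤ (JJ q T).comap (MulAut.conj v).toMonoidHom := by
    refine sSup_le ?_
    rintro A ⟨hA, hA1, hA2⟩
    rw [← map_le_iff_le_comap]
    refine le_sSup ⟨?_, ⟨?_, ?_⟩, ?_⟩
    · rintro _ ⟨a, ha, rfl⟩
      exact iconj h hv (hA ha)
    · rintro _ ⟨a, ha, rfl⟩
      rw [← map_pow, hA1.1 a ha, map_one]
    · rintro _ ⟨a, ha, rfl⟩ _ ⟨b, hb, rfl⟩
      rw [← map_mul, hA1.2 a ha b hb, map_mul]
    · intro B hB hB1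
      rw [card_map_of_injective (MulAut.conj v).injective]
      exact hA2 B hB hB1
  exact h1 hx

lemma JJ_le {q : ℕ} (T : Subgroup Γ) : JJ q T ≤ T := sSup_le (fun A hA => hA.1)

lemma JJ_ne {q : ℕ} (hq : q.Prime) {T : Subgroup Γ} (hT : IsPGroup q T) (h : T ≠ ⊥) :
    JJ q T ≠ ⊥ := by
  have : Fact q.Prime := ⟨hq⟩
  have hd : q ∣ Nat.card T := by
    obtain ⟨n, hn⟩ := IsPGroup.iff_card.mp hT
    rw [hn]
    refine dvd_pow_self q ?_
    rintro rfl
    rw [pow_zero] at hn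
    exact h (eq_bot_of_card_eq T hn)
  obtain ⟨x, hx⟩ := exists_prime_orderOf_dvd_card' q hd
  have hx1 : orderOf (x : Γ) = q := by rw [Subgroup.orderOf_coe, hx]
  have hxT : zpowers (x : Γ) ≤ T := zpowers_le.mpr x.2
  have hex : eab q (zpowers (x : Γ)) := by
    constructor
    · rintro _ ⟨k, rfl⟩
      show ((x : Γ) ^ k) ^ q = 1
      rw [← zpow_natCast, zpow_comm, zpow_natCast, ← hx1, pow_orderOf_eq_one, one_zpow]
    · rintro _ ⟨k, rfl⟩ _ ⟨j, rfl⟩
      exact ((Commute.refl (x : Γ)).zpow_zpow k j)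
  obtain ⟨A, hA, hA'⟩ := Set.exists_max_image {A : Subgroup Γ | A ≤ T ∧ eab q A}
    (fun A => Nat.card A) (Set.toFinite _) ⟨_, hxT, hex⟩
  have hAJ : A ≤ JJ q T := le_sSup ⟨hA.1, hA.2, fun B hB hB' => hA' B ⟨hB, hB'⟩⟩
  intro h0
  rw [h0, le_bot_iff] at hAJ
  have h3 := hA' (zpowers (x : Γ)) ⟨hxT, hex⟩
  rw [hAJ, Nat.card_zpowers, hx1, Subgroup.card_bot] at h3
  exact absurd hq.one_lt (not_lt.mpr h3)

lemma Setup.cased {p q r : ℕ} {V G A B : Subgroup Γ} (h : Setup p q r V G A B)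
    (hGen2 : StmtGen2) (hP : StmtP) (hS1 : StmtS1) (hFus : StmtFus) (hSyl : StmtSyl)
    (hTho : StmtTho) (hR : A ⊓ syl V r G = ⊥) (hQ : B ⊓ syl V q G = ⊥) (hq2 : q ≠ 2) :
    False := by
  have hE := h.hb.elAb'
  have hq := h.hb.hq
  have : Fact q.Prime := ⟨hq⟩
  obtain ⟨u, hu, v, hv, hv1, huv, hcu, hcv⟩ := h.duv hGen2 hS1 hFus hR hQ
  have hN : ∀ R E : Subgroup Γ, R ≤ G → Inv V R → Group.IsSolvable R → ¬ q ∣ Nat.card R → E ≤ G →
      Inv V E → IsPGroup q E → Inv R E → R ≤ centralizer (E : Set Γ) :=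
    fun R E a1 a2 a3 a4 a5 a6 a7 a8 =>
      h.N hGen2 hP hu hv hv1 huv hcu hcv a1 a2 a3 a4 a5 a6 a7 a8
  have hpn := fun X => h.pn hSyl hN _ X le_rfl
  obtain ⟨s1, s2, s3, s4, s5, s6⟩ := h.L.sq
  have hGq : ¬ IsPGroup q G := fun hG => h.hb.nsol (not_sol_of_p hq hG)
  have hne : ∀ Z : Subgroup Γ, Z ≤ syl V q G → Inv V Z → Z ≠ ⊥ → ¬ Inv G Z := by
    intro Z h1 h2 h3 h4
    rcases h.hb.simp Z (h1.trans s1) h2 h4 with h5 | h5
    · exact h3 h5
    · exact hGq (h5 ▸ s3.to_le h1)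
  have t1 : PNil q (G ⊓ normalizer (JJ q (syl V q G) : Set Γ)) := by
    refine hpn _ inf_le_left (inorm h.hb.inv (iJJ s2)) ?_
    intro h1
    refine hne _ (JJ_le _) (iJJ s2) (JJ_ne hq s3 s5) ?_
    rw [Inv]
    conv_lhs => rw [← h1]
    exact inf_le_right
  have t2 : PNil q (cen G (cen (syl V q G) (syl V q G : Set Γ) : Set Γ)) := by
    refine hpn _ (cen_le _ _) (icenn h.hb.inv (icenn s2 s2)) ?_
    intro h1
    refine hne (cen (syl V q G) (syl V q G : Set Γ)) (cen_le _ _) (icenn s2 s2) ?_ ?_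
    · have hnt : Nontrivial (syl V q G) := (Subgroup.nontrivial_iff_ne_bot _).mpr s5
      have hcn := s3.center_nontrivial
      obtain ⟨z, hz⟩ := exists_ne (1 : center (syl V q G))
      intro h0
      apply hz
      have h2 : ((z : syl V q G) : Γ) ∈ cen (syl V q G) (syl V q G : Set Γ) := by
        refine mem_cen.mpr ⟨(z : syl V q G).2, fun b hb => ?_⟩
        have h3 := (mem_center_iff.mp z.2) ⟨b, hb⟩
        exact congrArg Subtype.val h3
      rw [h0, mem_bot] at h2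
      exact Subtype.ext (Subtype.ext h2)
    · rw [inv_iff]
      intro g hg z hz
      rw [← h1] at hg
      have h3 := (mem_cen.mp hg).2 z hz
      rw [← h3, mul_inv_cancel_right]
      exact hz
  obtain ⟨N, n1, n2, n3, k, hk⟩ := hTho Γ q G (syl V q G) hq hq2 s1 s3 s4 t1 t2
  rcases h.hb.simp N n1 (inv_compl hq n1 n2 hk n3 h.hb.inv) n2 with h5 | h5
  · rw [h5, relIndex_bot_left] at hk
    exact hGq (IsPGroup.of_card hk)
  · exact n3 (h5 ▸ h.hb.hqG)

end D4x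

/-- D4 -/
theorem d4 (hLoc : StmtLoc) (hTA : StmtTA) (hGen2 : StmtGen2) (hP : StmtP) (hNp : StmtNp)
    (hFus : StmtFus) (hS1 : StmtS1) (hTho : StmtTho) (hChief : StmtChief) (hLift : StmtLift)
    (hSplit : StmtSplit) (hSyl : StmtSyl) : StmtTB2 := by
  intro Γ _ _ p q r V G hb hV2
  obtain ⟨hb', L, L'⟩ := hLoc Γ p q r V G hb
  have hE := hb.elAb'
  have hV : Nat.card V = p ^ 2 := D4x.card_V hE.prime hV2 hb.big
  -- the maximal subgroup containing `S_q`
  have key : ∀ q r : ℕ, Bad p q r V G → Loc p q r V G → Loc p r q V G →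
      ∃ A, MM V G q r A ∧ core r A = ⊥ ∧ Hn V G q r (syl V q G) = A ∧ syl V q G ≤ A ∧
        Inv A (syl V q G) ∧ (∀ x ∈ A ⊓ syl V r G, (∀ y ∈ syl V q G, y * x = x * y) → x = 1) ∧
        ¬ syl V r G ≤ A := by
    intro q r hb L L'
    obtain ⟨M, hM, hSM⟩ := L.mx _ L.sq.2.2.2.2.2
    have hnr : ¬ syl V r G ≤ M := by
      intro h1
      exact hM.1.2.2.1 (hb.bad M hM.1.1 hM.1.2.1 hM.1.2.2.2 hSM h1)
    have hcr : core r M = ⊥ := by
      rcases hTA Γ p q r V G hb M hM with h1 | h1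
      · exfalso
        have h2 := D4x.half hChief hSplit hLift (hLoc Γ p q r V G hb).1 hV L' L
          (L.symM M hM) h1
        exact hnr h2.2.1
      · exact h1
    obtain ⟨a1, a2, a3⟩ := D4x.half hChief hSplit hLift hb hV L L' hM hcr
    refine ⟨M, hM, hcr, a1, a2, a3, ?_, hnr⟩
    intro x hx hc
    obtain ⟨k1, k2, k3, k4⟩ := L.cq M hM.1
    have h3 := L.fit M hM.1
    rw [hcr, sup_bot_eq] at h3
    have hkS : core q M ≤ syl V q G := L.le_syl _ (k1.trans hM.1.1) k4 k3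
    have h4 : x ∈ core q M := by
      refine h3 (D4x.mem_cen.mpr ⟨hx.1, fun b hb => hc b (hkS hb)⟩)
    have h5 : x ∈ syl V q G ⊓ syl V r G := ⟨hkS h4, hx.2⟩
    rwa [D4x.inf_bot hb.hq hb.hr hb.ne L.sq.2.2.1 L'.sq.2.2.1, mem_bot] at h5
  obtain ⟨A, hA, hA1, hA2, hA3, hA4, hA5, hA6⟩ := key q r hb L L'
  obtain ⟨B, hB, hB1, hB2, hB3, hB4, hB5, hB6⟩ := key r q hb' L' L
  have S : D4x.Setup p q r V G A B :=
    { hb := hb
      hV := hV
      L := L
      L' := L'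
      hA := hA.1
      hB := L'.symL B hB.1
      sA := hA3
      sB := hB3
      nA := hA4
      nB := hB4
      cA := hA5
      cB := hB5
      nsA := hA6
      nsB := hB6
      cov := by
        intro X hX
        obtain ⟨M, hM, hXM⟩ := L.mx X hX
        rcases hTA Γ p q r V G hb M hM with h1 | h1
        · right
          have h2 := D4x.half hChief hSplit hLift hb' hV L' L (L.symM M hM) h1
          rw [← hB2, h2.1]
          exact hXM
        · left
          have h2 := D4x.half hChief hSplit hLift hb hV L L' hM h1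
          rw [← hA2, h2.1]
          exact hXM }
  have S' := S.symm hLoc
  by_cases hR : A ⊓ syl V r G = ⊥
  · by_cases hQ : B ⊓ syl V q G = ⊥
    · by_cases h2 : q = 2
      · have h3 : r ≠ 2 := fun h3 => hb.ne (h2.trans h3.symm)
        exact S'.cased hGen2 hP hS1 hFus hSyl hTho hQ hR h3
      · exact S.cased hGen2 hP hS1 hFus hSyl hTho hR hQ h2
    · exact S'.casec hP hGen2 hNp hS1 hFus hQ hR
  · by_cases hQ : B ⊓ syl V q G = ⊥
    · exact S.casec hP hGen2 hNp hS1 hFus hR hQ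
    · exact S.caseb hLoc hP hGen2 hR hQ

end Pool.Agent.T6.H88.FP
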