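import Pool.Agent.T6.H88.FP.Defs

set_option autoImplicit false

namespace Pool.Agent.T6.H88.FP

open Subgroup

namespace Brg

variable {Γ : Type} [Group Γ]

lemma inv_conj {H U : Subgroup Γ} (h : Inv H U) {g x : Γ} (hg : g ∈ H) (hx : x ∈ U) :
    g * x * g⁻¹ ∈ U := (mem_normalizer_iff.1 (h hg) x).1 hx

lemma inv_of_conj [Finite Γ] {H U : Subgroup Γ} (h : ∀ g ∈ H, ∀ x ∈ U, g * x * g⁻¹ ∈ U) :
    Inv H U := by
  intro g hg
  rw [mem_normalizer_iff]
  intro x
  refine ⟨h g hg x, fun hx => ?_⟩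
  have := h g⁻¹ (H.inv_mem hg) _ hx
  simpa [mul_assoc] using this

lemma bridge1 (q : ℕ) {H : Type} [Group H] {Q : Type} [AddCommGroup Q] [Module (ZMod q) Q]
    (f : H → (Q →+ Q)) (h1 : ∀ x, f 1 x = x) (hm : ∀ a b x, f (a * b) x = f a (f b x)) :
    ∃ (ρ : H →* (Q ≃ₗ[ZMod q] Q)), ∀ h x, ρ h x = f h x := by
  let ρ0 : H →* Module.End (ZMod q) Q :=
    { toFun := fun h => (f h).toZModLinearMap q
      map_one' := LinearMap.ext h1
      map_mul' := fun a b => LinearMap.ext (hm a b) }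
  exact ⟨(LinearMap.GeneralLinearGroup.generalLinearEquiv (ZMod q) Q).toMonoidHom.comp
      ρ0.toHomUnits, fun _ _ => rfl⟩

lemma bridge0 (q : ℕ) {H : Type} [Group H] {E : Type} [CommGroup E] [Finite E]
    (hE : ∀ x : E, x ^ q = 1) (cj : H → (E →* E)) (h1 : ∀ x, cj 1 x = x)
    (hm : ∀ a b x, cj (a * b) x = cj a (cj b x)) :
    ∃ (Q : Type) (_ : AddCommGroup Q) (_ : Module (ZMod q) Q) (_ : Finite Q) (π : E → Q)
      (ρ : H →* (Q ≃ₗ[ZMod q] Q)), Function.Bijective π ∧ (∀ x y, π (x * y) = π x + π y) ∧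
      (∀ h x, ρ h (π x) = π (cj h x)) := by
  let hmod : Module (ZMod q) (Additive E) := AddCommGroup.zmodModule (fun x => hE x.toMul)
  obtain ⟨ρ, hρ⟩ := bridge1 q (Q := Additive E) (fun h : H => MonoidHom.toAdditive (cj h))
    (fun x => congrArg Additive.ofMul (h1 x.toMul))
    (fun a b x => congrArg Additive.ofMul (hm a b x.toMul))
  exact ⟨Additive E, inferInstance, hmod, inferInstance, Additive.ofMul, ρ,
    Additive.ofMul.bijective, fun _ _ => rfl, fun h x => hρ h _⟩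

/-- a section `U₁/U₂` as a module, and the action on it -/
lemma bridge [Finite Γ] (q : ℕ) (H U₁ U₂ : Subgroup Γ) (hab : eab q U₁)
    (h1 : Inv H U₁) (h2 : Inv H U₂) :
    ∃ (Q : Type) (_ : AddCommGroup Q) (_ : Module (ZMod q) Q) (_ : Finite Q) (π : ↥U₁ → Q)
      (ρ : ↥H →* (Q ≃ₗ[ZMod q] Q)), Function.Surjective π ∧ (∀ x y, π (x * y) = π x + π y) ∧
      (∀ x, π x = 0 ↔ (x : Γ) ∈ U₂) ∧
      (∀ (h : H) (u u' : U₁), (u' : Γ) = h * u * (h : Γ)⁻¹ → ρ h (π u) = π u') := by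
  let _ : CommGroup ↥U₁ := { (inferInstance : Group ↥U₁) with
    mul_comm := fun a b => Subtype.ext (hab.2 a a.2 b b.2) }
  let cj : ↥H → (↥U₁ →* ↥U₁) := fun h =>
    { toFun := fun u => ⟨h * u * (h : Γ)⁻¹, inv_conj h1 h.2 u.2⟩
      map_one' := Subtype.ext (by simp)
      map_mul' := fun a b => Subtype.ext (by simp [mul_assoc]) }
  have hN : ∀ h, U₂.subgroupOf U₁ ≤ (U₂.subgroupOf U₁).comap (cj h) := by
    intro h x hx
    rw [mem_comap, mem_subgroupOf]
    exact inv_conj h2 h.2 (mem_subgroupOf.1 hx)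
  have hE : ∀ x : ↥U₁ ⧸ U₂.subgroupOf U₁, x ^ q = 1 := by
    intro x
    obtain ⟨u, rfl⟩ := QuotientGroup.mk_surjective x
    rw [← QuotientGroup.mk_pow]
    have : u ^ q = 1 := Subtype.ext (by simpa using hab.1 u u.2)
    rw [this, QuotientGroup.mk_one]
  obtain ⟨Q, i1, i2, i3, π, ρ, hπ, hadd, hρ⟩ := bridge0 q hE
    (fun h : ↥H => QuotientGroup.map (U₂.subgroupOf U₁) (U₂.subgroupOf U₁) (cj h) (hN h))
    (by
      intro x
      obtain ⟨u, rfl⟩ := QuotientGroup.mk_surjective x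
      have : cj 1 u = u := Subtype.ext (by simp [cj])
      simp only [QuotientGroup.map_mk, this])
    (by
      intro a b x
      obtain ⟨u, rfl⟩ := QuotientGroup.mk_surjective x
      have : cj (a * b) u = cj a (cj b u) := Subtype.ext (by simp [cj, mul_assoc])
      simp only [QuotientGroup.map_mk, this])
  refine ⟨Q, i1, i2, i3, fun u => π (QuotientGroup.mk u), ρ, ?_, ?_, ?_, ?_⟩
  · intro x
    obtain ⟨y, hy⟩ := hπ.2 x
    obtain ⟨u, rfl⟩ := QuotientGroup.mk_surjective y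
    exact ⟨u, hy⟩
  · intro x y
    exact hadd (QuotientGroup.mk x) (QuotientGroup.mk y)
  · intro x
    have h0 : π 1 = 0 := by
      have := hadd 1 1
      rw [mul_one] at this
      exact left_eq_add.1 this
    rw [← mem_subgroupOf, ← QuotientGroup.eq_one_iff, ← h0]
    exact hπ.1.eq_iff
  · intro h u u' hu
    rw [hρ]
    have : cj h u = u' := Subtype.ext hu.symm
    simp only [QuotientGroup.map_mk, this]

end Brg

end Pool.Agent.T6.H88.FP
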