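import Pool.Agent.T6.H88.FP.Defs
import Pool.Agent.T6.H88.FP.Brg

set_option autoImplicit false

namespace Pool.Agent.T6.H88.FP

open Subgroup

namespace ModD5

open Brg

variable {Γ : Type} [Group Γ]

lemma pow_eq_one_cop {a : Γ} {q r k : ℕ} (hq : q.Prime) (hr : r.Prime) (hne : q ≠ r)
    (h1 : a ^ q = 1) (h2 : a ^ (r ^ k) = 1) : a = 1 := by
  have h3 : Nat.Coprime q (r ^ k) := Nat.Coprime.pow_right k ((Nat.coprime_primes hq hr).2 hne)
  have h4 : orderOf a ∣ Nat.gcd q (r ^ k) :=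
    Nat.dvd_gcd (orderOf_dvd_of_pow_eq_one h1) (orderOf_dvd_of_pow_eq_one h2)
  rw [h3] at h4
  exact orderOf_eq_one_iff.1 (Nat.dvd_one.1 h4)

/-- Fitting: an element of order `q` does not centralise `O_r(X)` if `O_q(X) = 1` -/
lemma not_cent [Finite Γ] (hCore : StmtCore) {q r : ℕ} (hq : q.Prime) (hr : r.Prime) (hne : q ≠ r)
    (X : Subgroup Γ) (hpi : IsPi q r X) (hsol : Group.IsSolvable X) (h0 : core q X = ⊥) {a : Γ}
    (ha : a ∈ X) (haq : a ^ q = 1) (hc : ∀ x ∈ core r X, x * a = a * x) : a = 1 := by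
  have h1 := (hCore Γ q X hq).2 r hr hne hpi hsol
  rw [h0, bot_sup_eq] at h1
  have h2 : a ∈ core r X := h1 ⟨ha, mem_centralizer_iff.2 hc⟩
  have h3 := (hCore Γ r X hr).1.2.2.1
  obtain ⟨k, hk⟩ := h3 ⟨a, h2⟩
  exact pow_eq_one_cop hq hr hne haq (by simpa using congrArg Subtype.val hk)

lemma mem_cen {X : Subgroup Γ} {B : Set Γ} {g : Γ} :
    g ∈ cen X B ↔ g ∈ X ∧ ∀ w ∈ B, w * g = g * w := by
  unfold cen
  rw [mem_inf, mem_centralizer_iff]

/-- relative indices of `C_M(W)` -/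
lemma relq [Finite Γ] {q : ℕ} (hq : q.Prime) (M W D : Subgroup Γ) (hMW : Inv M W) (hDM : D ≤ M)
    (h : ∀ m ∈ D, ∃ k : ℕ, ∀ w ∈ W, w * m ^ (q ^ k) = m ^ (q ^ k) * w) :
    ∃ k : ℕ, (cen M W).relIndex D = q ^ k := by
  have _ : Fact q.Prime := ⟨hq⟩
  have hn : ((cen M (W : Set Γ)).subgroupOf D).Normal := by
    constructor
    intro c hc g
    rw [mem_subgroupOf, mem_cen] at hc ⊢
    obtain ⟨hc1, hc2⟩ := hc
    have hg : (g : Γ) ∈ M := hDM g.2
    refine ⟨M.mul_mem (M.mul_mem hg hc1) (M.inv_mem hg), ?_⟩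
    intro w hw
    have h1 : (g : Γ)⁻¹ * w * ((g : Γ)⁻¹)⁻¹ ∈ W := inv_conj hMW (M.inv_mem hg) hw
    have h2 := hc2 _ h1
    have h3 : (g : Γ) * ((g : Γ)⁻¹ * w * ((g : Γ)⁻¹)⁻¹ * c) * (g : Γ)⁻¹ =
      g * (c * ((g : Γ)⁻¹ * w * ((g : Γ)⁻¹)⁻¹)) * (g : Γ)⁻¹ := by rw [h2]
    simpa [mul_assoc] using h3
  have hp : IsPGroup q (↥D ⧸ (cen M (W : Set Γ)).subgroupOf D) := by
    intro x
    obtain ⟨m, rfl⟩ := QuotientGroup.mk_surjective x
    obtain ⟨k, hk⟩ := h m m.2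
    refine ⟨k, ?_⟩
    rw [← QuotientGroup.mk_pow, QuotientGroup.eq_one_iff, mem_subgroupOf, mem_cen]
    exact ⟨M.pow_mem (hDM m.2) _, fun w hw => hk w hw⟩
  obtain ⟨k, hk⟩ := IsPGroup.iff_card.1 hp
  exact ⟨k, hk⟩

/-- the chief factors of `W` -/
structure Chf (M V W U₁ U₂ : Subgroup Γ) : Prop where
  lt : U₂ < U₁
  le : U₁ ≤ W
  m1 : Inv M U₁
  m2 : Inv M U₂
  v1 : Inv V U₁
  v2 : Inv V U₂
  ch : ∀ N : Subgroup Γ, U₂ ≤ N → N ≤ U₁ → Inv M N → Inv V N → N = U₂ ∨ N = U₁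

/-- the elements of `M` which act trivially on all chief factors -/
def DD (M V W : Subgroup Γ) : Subgroup Γ where
  carrier := {m | m ∈ M ∧ ∀ U₁ U₂, Chf M V W U₁ U₂ → ∀ u ∈ U₁, m * u * m⁻¹ * u⁻¹ ∈ U₂}
  one_mem' := ⟨M.one_mem, fun U₁ U₂ _ u _ => by simp⟩
  mul_mem' := by
    rintro a b ⟨ha, ha'⟩ ⟨hb, hb'⟩
    refine ⟨M.mul_mem ha hb, fun U₁ U₂ h u hu => ?_⟩
    have h1 := inv_conj h.m2 ha (hb' U₁ U₂ h u hu)
    have h2 := U₂.mul_mem h1 (ha' U₁ U₂ h u hu)
    have e : a * (b * u * b⁻¹ * u⁻¹) * a⁻¹ * (a * u * a⁻¹ * u⁻¹) = a * b * u * (a * b)⁻¹ * u⁻¹ := by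
      group
    rwa [e] at h2
  inv_mem' := by
    rintro a ⟨ha, ha'⟩
    refine ⟨M.inv_mem ha, fun U₁ U₂ h u hu => ?_⟩
    have h1 : a⁻¹ * u * a⁻¹⁻¹ ∈ U₁ := inv_conj h.m1 (M.inv_mem ha) hu
    have h2 := U₂.inv_mem (ha' U₁ U₂ h _ h1)
    have e : (a * (a⁻¹ * u * a⁻¹⁻¹) * a⁻¹ * (a⁻¹ * u * a⁻¹⁻¹)⁻¹)⁻¹ = a⁻¹ * u * a⁻¹⁻¹ * u⁻¹ := by
      group
    rwa [e] at h2

lemma DD_inv [Finite Γ] (M V W : Subgroup Γ) : Inv M (DD M V W) := by
  apply inv_of_conj
  rintro g hg x ⟨hx, hx'⟩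
  refine ⟨M.mul_mem (M.mul_mem hg hx) (M.inv_mem hg), fun U₁ U₂ h u hu => ?_⟩
  have h1 : g⁻¹ * u * g⁻¹⁻¹ ∈ U₁ := inv_conj h.m1 (M.inv_mem hg) hu
  have h2 := inv_conj h.m2 hg (hx' U₁ U₂ h _ h1)
  have e : g * (x * (g⁻¹ * u * g⁻¹⁻¹) * x⁻¹ * (g⁻¹ * u * g⁻¹⁻¹)⁻¹) * g⁻¹ =
      g * x * g⁻¹ * u * (g * x * g⁻¹)⁻¹ * u⁻¹ := by group
  rwa [e] at h2

lemma chain [Finite Γ] {q : ℕ} (M V W : Subgroup Γ) (hW : eab q W) :
    ∀ (n : ℕ) (U : Subgroup Γ), Nat.card U ≤ n → U ≤ W → Inv M U → Inv V U →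
      ∀ m ∈ DD M V W, ∃ k : ℕ, ∀ w ∈ U, w * m ^ (q ^ k) = m ^ (q ^ k) * w := by
  intro n
  induction n with
  | zero =>
    intro U hU
    have := Nat.card_pos (α := U)
    omega
  | succ n ih =>
    intro U hU hUW h1 h2 m hm
    by_cases hb : U = ⊥
    · refine ⟨0, fun w hw => ?_⟩
      rw [hb, mem_bot] at hw
      simp [hw]
    · have hfin : {N : Subgroup Γ | N < U ∧ Inv M N ∧ Inv V N}.Finite := Set.toFinite _
      have hbot : ∀ X : Subgroup Γ, Inv X ⊥ := by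
        intro X
        apply inv_of_conj
        intro g _ x hx
        rw [mem_bot] at hx ⊢
        simp [hx]
      obtain ⟨U₂, hU₂⟩ := hfin.exists_maximal ⟨⊥, bot_lt_iff_ne_bot.2 hb, hbot M, hbot V⟩
      have hlt : U₂ < U := hU₂.prop.1
      have hcard : Nat.card U₂ < Nat.card U := by
        have := Set.ncard_lt_ncard (show (U₂ : Set Γ) ⊂ U from SetLike.coe_ssubset_coe.2 hlt)
          (Set.toFinite _)
        exact this
      have hchf : Chf M V W U U₂ := by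
        refine ⟨hlt, hUW, h1, hU₂.prop.2.1, h2, hU₂.prop.2.2, ?_⟩
        intro N hN1 hN2 hN3 hN4
        by_cases hNU : N = U
        · exact Or.inr hNU
        · left
          exact le_antisymm (hU₂.le_of_ge ⟨lt_of_le_of_ne hN2 hNU, hN3, hN4⟩ hN1) hN1
      obtain ⟨k, hk⟩ := ih U₂ (by omega) (hlt.le.trans hUW) hU₂.prop.2.1 hU₂.prop.2.2 m hm
      refine ⟨k + 1, fun w hw => ?_⟩
      obtain ⟨x, hx⟩ : ∃ x, x = m ^ (q ^ k) := ⟨_, rfl⟩
      have hxD : x ∈ DD M V W := by rw [hx]; exact (DD M V W).pow_mem hm _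
      have hc : x * w * x⁻¹ * w⁻¹ ∈ U₂ := hxD.2 U U₂ hchf w hw
      obtain ⟨c, hcdef⟩ : ∃ c, c = x * w * x⁻¹ * w⁻¹ := ⟨_, rfl⟩
      rw [← hcdef] at hc
      have hcx : c * x = x * c := by rw [hx]; exact hk c hc
      have hxw : x * w = c * w * x := by rw [hcdef]; group
      have hcw : c * w = w * c := hW.2 c (hUW (hlt.le hc)) w (hUW hw)
      have hpow : ∀ j : ℕ, x ^ j * w = c ^ j * w * x ^ j := by
        intro j
        induction j with
        | zero => simp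
        | succ j ihj =>
          have h3 : Commute (c ^ j) x := (Commute.pow_left (show Commute c x from hcx) j)
          calc x ^ (j + 1) * w = x * (x ^ j * w) := by rw [pow_succ' x, mul_assoc]
            _ = x * (c ^ j * w * x ^ j) := by rw [ihj]
            _ = (x * c ^ j) * w * x ^ j := by group
            _ = (c ^ j * x) * w * x ^ j := by rw [h3.eq]
            _ = c ^ j * (x * w) * x ^ j := by group
            _ = c ^ j * (c * w * x) * x ^ j := by rw [hxw]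
            _ = c ^ (j + 1) * w * x ^ (j + 1) := by rw [pow_succ c, pow_succ' x]; group
      have h4 := hpow q
      rw [hW.1 c (hUW (hlt.le hc)), one_mul] at h4
      have h5 : m ^ (q ^ (k + 1)) = x ^ q := by rw [hx, ← pow_mul, pow_succ]
      rw [h5]
      exact h4.symm


lemma inv_bot [Finite Γ] (X : Subgroup Γ) : Inv X ⊥ := by
  apply inv_of_conj
  intro g _ x hx
  rw [mem_bot] at hx ⊢
  simp [hx]

lemma card_split {q : ℕ} {Q : Type} [AddCommGroup Q] [Module (ZMod q) Q] [Finite Q]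
    (g : Q ≃ₗ[ZMod q] Q) : Nat.card Q = Nat.card {w : Q // g w = w} *
      (Set.range (fun x => g x - x)).ncard := by
  let f : Q →+ Q :=
    { toFun := fun x => g x - x
      map_zero' := by simp
      map_add' := fun x y => by simp only [map_add]; abel }
  have h1 : Nat.card f.ker * f.ker.index = Nat.card Q := f.ker.card_mul_index
  rw [AddSubgroup.index_ker] at h1
  have h2 : Nat.card f.ker = Nat.card {w : Q // g w = w} := by
    apply Nat.card_congr
    refine Equiv.subtypeEquivRight (fun x => ?_)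
    rw [AddMonoidHom.mem_ker]
    show g x - x = 0 ↔ _
    exact sub_eq_zero
  have h3 : Nat.card f.range = (Set.range (fun x => g x - x)).ncard := rfl
  rw [← h1, h2, h3]

/-- consequences of the bridge -/
lemma pi_facts {q : ℕ} {H U₁ : Subgroup Γ} {Q : Type} [AddCommGroup Q] [Module (ZMod q) Q]
    (π : ↥U₁ → Q) (ρ : ↥H →* (Q ≃ₗ[ZMod q] Q)) (hadd : ∀ x y, π (x * y) = π x + π y)
    (hact : ∀ (h : H) (u u' : U₁), (u' : Γ) = h * u * (h : Γ)⁻¹ → ρ h (π u) = π u')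
    (h : H) (u : U₁) (c : U₁) (hc : (c : Γ) = h * u * (h : Γ)⁻¹ * (u : Γ)⁻¹) :
    ρ h (π u) - π u = π c := by
  have h1 : ρ h (π u) = π (c * u) := hact h u (c * u) (by simp [hc])
  rw [h1, hadd]
  abel

lemma step1 [Finite Γ] (hOff : StmtOff) (hCore : StmtCore) {q r : ℕ} (hq : q.Prime) (hr : r.Prime)
    (hne : q ≠ r) (M W A : Subgroup Γ) (hsol : Group.IsSolvable M) (hpi : IsPi q r M)
    (hW : eab q W) (hMW : Inv M W)
    (hD : ∀ D ≤ M, Inv M D → (∃ k : ℕ, (cen M W).relIndex D = q ^ k) → D ≤ cen M W)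
    (hAM : A ≤ M) (hA : eab q A)
    (hineq : ∀ B ≤ A, Nat.card B * Nat.card (cen W B) ≤ Nat.card A * Nat.card (cen W A))
    (hnc : ¬ A ≤ centralizer (W : Set Γ)) :
    ∃ a ∈ A, (∃ w ∈ W, w * a ≠ a * w) ∧ {g : Γ | ∃ u ∈ W, g = a * u * a⁻¹ * u⁻¹}.ncard ≤ q := by
  have hfq : Fact q.Prime := ⟨hq⟩
  obtain ⟨Q, _, _, _, π, ρ, hπ, hadd, hker, hact⟩ := bridge q M W ⊥ hW hMW (inv_bot M)
  have hzero : π 1 = 0 := (hker 1).2 (by simp)
  have hinj : Function.Injective π := by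
    intro x y hxy
    have h1 : π (x * y⁻¹) = 0 := by
      have h2 := hadd (x * y⁻¹) y
      rw [inv_mul_cancel_right, hxy] at h2
      exact (left_eq_add.1 (h2.trans (add_comm _ _)))
    have h2 := (hker _).1 h1
    rw [mem_bot] at h2
    have h3 : x * y⁻¹ = 1 := Subtype.ext h2
    exact mul_inv_eq_one.1 h3
  have hfix : ∀ (m : M), (ρ m = 1 ↔ ∀ w ∈ W, w * (m : Γ) = m * w) := by
    intro m
    constructor
    · intro h w hw
      have h1 := hact m ⟨w, hw⟩ ⟨m * w * (m : Γ)⁻¹, inv_conj hMW m.2 hw⟩ rfl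
      rw [h] at h1
      have h2 := hinj h1
      have h3 : w = m * w * (m : Γ)⁻¹ := congrArg Subtype.val h2
      exact (eq_mul_inv_iff_mul_eq.1 h3)
    · intro h
      ext x
      obtain ⟨u, rfl⟩ := hπ x
      rw [hact m u u (by rw [eq_mul_inv_iff_mul_eq]; exact h u u.2)]
      rfl
  have hXsol : Group.IsSolvable ρ.range := by
    have := hsol
    exact Group.isSolvable_of_surjective ρ.rangeRestrict_surjective
  have hXpi : IsPi q r ρ.range := fun s hs hd => hpi s hs (hd.trans (card_range_dvd ρ))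
  have hfinGL : Finite (Q ≃ₗ[ZMod q] Q) := DFunLike.finite _
  have hCq := (hCore _ q ρ.range hq).1
  have hCr := (hCore _ r ρ.range hr).1
  have hC0 : core q ρ.range = ⊥ := by
    have hDle : ((core q ρ.range).comap ρ).map M.subtype ≤ cen M (W : Set Γ) := by
      apply hD
      · rintro _ ⟨m, _, rfl⟩
        exact m.2
      · apply inv_of_conj
        rintro g hg _ ⟨m, hm, rfl⟩
        refine ⟨⟨g, hg⟩ * m * ⟨g, hg⟩⁻¹, ?_, rfl⟩
        show ρ _ ∈ core q ρ.range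
        rw [map_mul, map_mul, map_inv]
        exact inv_conj hCq.2.1 ⟨_, rfl⟩ hm
      · apply relq hq M W _ hMW
        · rintro _ ⟨m, _, rfl⟩
          exact m.2
        · rintro _ ⟨m, hm, rfl⟩
          obtain ⟨k, hk⟩ := hCq.2.2.1 ⟨ρ m, hm⟩
          refine ⟨k, ?_⟩
          have h1 : ρ (m ^ (q ^ k)) = 1 := by
            rw [map_pow]
            simpa using congrArg Subtype.val hk
          have h2 := (hfix _).1 h1
          simpa using h2
    rw [eq_bot_iff]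
    intro y hy
    obtain ⟨m, rfl⟩ := hCq.1 hy
    have h1 : (m : Γ) ∈ cen M (W : Set Γ) := hDle ⟨m, hy, rfl⟩
    rw [mem_bot]
    exact (hfix m).2 (mem_cen.1 h1).2
  -- the image of `A`
  obtain ⟨φ, hφ⟩ : ∃ φ : ↥A →* (Q ≃ₗ[ZMod q] Q), φ = ρ.comp (inclusion hAM) := ⟨_, rfl⟩
  have hφa : ∀ a : A, φ a = ρ ⟨a, hAM a.2⟩ := fun a => by rw [hφ]; rfl
  have hφX : φ.range ≤ ρ.range := by
    rintro _ ⟨a, rfl⟩
    rw [hφa]
    exact ⟨_, rfl⟩
  have hAe : eab q φ.range := by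
    constructor
    · rintro _ ⟨a, rfl⟩
      rw [← map_pow]
      have : a ^ q = 1 := Subtype.ext (by simpa using hA.1 a a.2)
      rw [this, map_one]
    · rintro _ ⟨a, rfl⟩ _ ⟨b, rfl⟩
      rw [← map_mul, ← map_mul]
      congr 1
      exact Subtype.ext (hA.2 a a.2 b b.2)
  have hAne : φ.range ≠ ⊥ := by
    intro h
    apply hnc
    intro a ha
    have h1 : φ ⟨a, ha⟩ = 1 := by
      have : φ ⟨a, ha⟩ ∈ φ.range := ⟨_, rfl⟩
      rwa [h, mem_bot] at this
    rw [hφa] at h1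
    exact mem_centralizer_iff.2 (fun w hw => (hfix _).1 h1 w hw)
  have hInv : Inv φ.range (core r ρ.range) := hφX.trans hCr.2.1
  have hqR : ¬ q ∣ Nat.card (core r ρ.range) := by
    intro hd
    have _ : Fact r.Prime := ⟨hr⟩
    obtain ⟨n, hn⟩ := IsPGroup.iff_card.1 hCr.2.2.1
    rw [hn] at hd
    exact hne ((Nat.prime_dvd_prime_iff_eq hq hr).1 (hq.dvd_of_dvd_pow hd))
  have hRsol : Group.IsSolvable (core r ρ.range) := by
    have := hXsol
    exact Group.isSolvable_of_isSolvable_injective (inclusion_injective hCr.1)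
  have hcen : cen φ.range (core r ρ.range : Set (Q ≃ₗ[ZMod q] Q)) = ⊥ := by
    rw [eq_bot_iff]
    intro y hy
    obtain ⟨hy1, hy2⟩ := mem_cen.1 hy
    rw [mem_bot]
    exact not_cent hCore hq hr hne ρ.range hXpi hXsol hC0 (hφX hy1) (hAe.1 y hy1) hy2
  have hcard : Nat.card Q ≤ Nat.card φ.range * Nat.card {w : Q // ∀ a ∈ φ.range, a w = w} := by
    have h1 := hineq (A ⊓ centralizer (W : Set Γ)) inf_le_left
    have h2 : cen W ((A ⊓ centralizer (W : Set Γ) : Subgroup Γ) : Set Γ) = W := by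
      apply le_antisymm inf_le_left
      intro w hw
      exact mem_cen.2 ⟨hw, fun b hb => (mem_centralizer_iff.1 hb.2 w hw).symm⟩
    rw [h2] at h1
    have h3 : Nat.card Q = Nat.card W := (Nat.card_congr (Equiv.ofBijective π ⟨hinj, hπ⟩)).symm
    have h4 : Nat.card A = Nat.card (A ⊓ centralizer (W : Set Γ) : Subgroup Γ) *
        Nat.card φ.range := by
      have h5 : Nat.card φ.ker * φ.ker.index = Nat.card A := φ.ker.card_mul_index
      rw [index_ker] at h5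
      have h6 : φ.ker.map A.subtype = A ⊓ centralizer (W : Set Γ) := by
        ext a
        constructor
        · rintro ⟨b, hb, rfl⟩
          refine ⟨b.2, ?_⟩
          have h7 : φ b = 1 := hb
          rw [hφa] at h7
          exact mem_centralizer_iff.2 (fun w hw => (hfix _).1 h7 w hw)
        · rintro ⟨ha, ha'⟩
          refine ⟨⟨a, ha⟩, ?_, rfl⟩
          show φ _ = 1
          rw [hφa]
          exact (hfix _).2 (mem_centralizer_iff.1 ha')
      have h7 : Nat.card (φ.ker.map A.subtype) = Nat.card φ.ker :=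
        card_map_of_injective A.subtype_injective
      rw [← h6, h7, h5]
    have h5 : Nat.card (cen W (A : Set Γ)) ≤ Nat.card {w : Q // ∀ a ∈ φ.range, a w = w} := by
      apply Nat.card_le_card_of_injective
        (fun w : cen W (A : Set Γ) => (⟨π ⟨w, w.2.1⟩, by
          rintro _ ⟨a, rfl⟩
          rw [hφa]
          apply hact
          have := (mem_cen.1 w.2).2 a a.2
          show (w : Γ) = a * w * (a : Γ)⁻¹
          rw [this]; group⟩ : {w : Q // ∀ a ∈ φ.range, a w = w}))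
      intro x y hxy
      have h6 : π ⟨x, x.2.1⟩ = π ⟨y, y.2.1⟩ := congrArg Subtype.val hxy
      have h7 := congrArg Subtype.val (hinj h6)
      exact Subtype.ext h7
    rw [h4, ← h3] at h1
    have h6 : 0 < Nat.card (A ⊓ centralizer (W : Set Γ) : Subgroup Γ) := Nat.card_pos
    have h7 : Nat.card (A ⊓ centralizer (W : Set Γ) : Subgroup Γ) * Nat.card Q ≤
        Nat.card (A ⊓ centralizer (W : Set Γ) : Subgroup Γ) *
          (Nat.card φ.range * Nat.card (cen W (A : Set Γ))) := by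
      rw [← mul_assoc]; exact h1
    exact (Nat.le_of_mul_le_mul_left h7 h6).trans (Nat.mul_le_mul_left _ h5)
  obtain ⟨y, ⟨a, rfl⟩, hy1, hy2⟩ := hOff q hfq Q φ.range (core r ρ.range) hAe hAne hInv hqR hRsol
    hcen hcard
  refine ⟨a, a.2, ?_, ?_⟩
  · by_contra hcon
    push Not at hcon
    apply hy1
    rw [hφa]
    exact (hfix _).2 hcon
  · have h1 := card_split (φ a)
    have h2 : 0 < Nat.card {w : Q // φ a w = w} := Nat.card_pos_iff.2 ⟨⟨⟨0, map_zero _⟩⟩, inferInstance⟩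
    have h3 : (Set.range (fun x => φ a x - x)).ncard ≤ q := by
      rw [h1, mul_comm q] at hy2
      exact Nat.le_of_mul_le_mul_left hy2 h2
    refine le_trans ?_ h3
    have hSW : ∀ g ∈ {g : Γ | ∃ u ∈ W, g = a * u * (a : Γ)⁻¹ * u⁻¹}, g ∈ W := by
      rintro g ⟨u, hu, rfl⟩
      exact W.mul_mem (inv_conj hMW (hAM a.2) hu) (W.inv_mem hu)
    refine Set.ncard_le_ncard_of_injOn
      (fun g => by classical exact if h : g ∈ W then π ⟨g, h⟩ else 0) ?_ ?_ (Set.toFinite _)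
    · intro g hg
      simp only [hSW g hg, dite_true]
      obtain ⟨u, hu, hgu⟩ := hg
      refine ⟨π ⟨u, hu⟩, ?_⟩
      show φ a (π ⟨u, hu⟩) - π ⟨u, hu⟩ = _
      rw [hφa]
      exact pi_facts π ρ hadd hact _ _ _ hgu
    · intro g hg g' hg' h
      simp only [hSW g hg, hSW g' hg', dite_true] at h
      exact congrArg Subtype.val (hinj h)


/-- invariant subgroups of a chief factor -/
lemma chiefQ [Finite Γ] {q : ℕ} {M V W U₁ U₂ : Subgroup Γ} (hch : Chf M V W U₁ U₂) {Q : Type}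
    [AddCommGroup Q] [Module (ZMod q) Q]
    (π : ↥U₁ → Q) (ρ : ↥(M ⊔ V) →* (Q ≃ₗ[ZMod q] Q)) (hπ : Function.Surjective π)
    (hadd : ∀ x y, π (x * y) = π x + π y) (hker : ∀ x, π x = 0 ↔ (x : Γ) ∈ U₂)
    (hact : ∀ (h : ↥(M ⊔ V)) (u u' : U₁), (u' : Γ) = h * u * (h : Γ)⁻¹ → ρ h (π u) = π u')
    (F : AddSubgroup Q)
    (hM : ∀ (m : Γ) (hm : m ∈ M), ∀ x ∈ F, ρ ⟨m, (le_sup_left : M ≤ M ⊔ V) hm⟩ x ∈ F)
    (hV : ∀ (m : Γ) (hm : m ∈ V), ∀ x ∈ F, ρ ⟨m, (le_sup_right : V ≤ M ⊔ V) hm⟩ x ∈ F) :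
    F = ⊥ ∨ F = ⊤ := by
  have hone : π 1 = 0 := (hker 1).2 U₂.one_mem
  have hinv : ∀ x, π x⁻¹ = - π x := by
    intro x
    have h1 := hadd x⁻¹ x
    rw [inv_mul_cancel, hone] at h1
    exact eq_neg_of_add_eq_zero_left h1.symm
  let N0 : Subgroup ↥U₁ :=
    { carrier := {u | π u ∈ F}
      one_mem' := by
        show π 1 ∈ F
        rw [hone]; exact F.zero_mem
      mul_mem' := by
        intro a b ha hb
        show π (a * b) ∈ F
        rw [hadd]
        exact F.add_mem ha hb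
      inv_mem' := by
        intro a ha
        show π a⁻¹ ∈ F
        rw [hinv]
        exact F.neg_mem ha }
  have hN0 : ∀ u, u ∈ N0 ↔ π u ∈ F := fun u => Iff.rfl
  have hle : U₂ ≤ N0.map U₁.subtype := by
    intro x hx
    refine ⟨⟨x, hch.lt.le hx⟩, ?_, rfl⟩
    show π _ ∈ F
    rw [(hker _).2 hx]
    exact F.zero_mem
  have hle2 : N0.map U₁.subtype ≤ U₁ := by
    rintro _ ⟨u, _, rfl⟩
    exact u.2
  have hiM : Inv M (N0.map U₁.subtype) := by
    apply inv_of_conj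
    rintro m hm _ ⟨u, hu, rfl⟩
    refine ⟨⟨m * u * m⁻¹, inv_conj hch.m1 hm u.2⟩, ?_, rfl⟩
    show π _ ∈ F
    rw [← hact ⟨m, (le_sup_left : M ≤ M ⊔ V) hm⟩ u _ rfl]
    exact hM m hm _ hu
  have hiV : Inv V (N0.map U₁.subtype) := by
    apply inv_of_conj
    rintro m hm _ ⟨u, hu, rfl⟩
    refine ⟨⟨m * u * m⁻¹, inv_conj hch.v1 hm u.2⟩, ?_, rfl⟩
    show π _ ∈ F
    rw [← hact ⟨m, (le_sup_right : V ≤ M ⊔ V) hm⟩ u _ rfl]
    exact hV m hm _ hu
  rcases hch.ch _ hle hle2 hiM hiV with h | h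
  · left
    rw [eq_bot_iff]
    intro x hx
    obtain ⟨u, rfl⟩ := hπ x
    rw [AddSubgroup.mem_bot, hker, ← h]
    exact ⟨u, hx, rfl⟩
  · right
    rw [eq_top_iff]
    intro x _
    obtain ⟨u, rfl⟩ := hπ x
    have h1 : (u : Γ) ∈ N0.map U₁.subtype := by rw [h]; exact u.2
    obtain ⟨u', hu', huu⟩ := h1
    have h2 : u' = u := Subtype.ext huu
    rw [← h2]
    exact hu'

lemma q_dvd_card {q : ℕ} (hq : q.Prime) {Q : Type} [AddCommGroup Q] [Module (ZMod q) Q] [Finite Q]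
    (L : AddSubgroup Q) (hL : L ≠ ⊥) : q ∣ Nat.card L := by
  obtain ⟨x, hx, hx0⟩ := L.bot_or_exists_ne_zero.resolve_left hL
  have h1 : addOrderOf (⟨x, hx⟩ : L) = q := by
    have : Fact q.Prime := ⟨hq⟩
    apply addOrderOf_eq_prime
    · apply Subtype.ext
      show q • x = 0
      have h2 : ((q : ℕ) : ZMod q) • x = q • x := Nat.cast_smul_eq_nsmul (ZMod q) q x
      rw [← h2, ZMod.natCast_self, zero_smul]
    · intro h
      exact hx0 (congrArg Subtype.val h)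
  rw [← h1]
  exact addOrderOf_dvd_natCard _

lemma step3 [Finite Γ] (hTrV : StmtTrV) (hChief : StmtChief) (hCore : StmtCore) (hCop : StmtCop)
    {p q r : ℕ} (hq : q.Prime) (hr : r.Prime)
    (hne : q ≠ r) (V M W U₁ U₂ : Subgroup Γ) (hV : ElAb p V) (hVM : Inv V M) (hfpf : cen M V = ⊥)
    (hsol : Group.IsSolvable M) (hpi : IsPi q r M) (hWM : W ≤ M)
    (hW : eab q W) (hch : Chf M V W U₁ U₂) (a : Γ) (haM : a ∈ M) (haq : a ^ q = 1)
    (hcard : {g : Γ | ∃ u ∈ W, g = a * u * a⁻¹ * u⁻¹}.ncard ≤ q)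
    (hnt : ∃ u ∈ U₁, a * u * a⁻¹ * u⁻¹ ∉ U₂) : False := by
  have hfq : Fact q.Prime := ⟨hq⟩
  have hp : p.Prime := hV.prime
  have hfp : Fact p.Prime := ⟨hp⟩
  have hU₁ : eab q U₁ := ⟨fun x hx => hW.1 x (hch.le hx), fun x hx y hy =>
    hW.2 x (hch.le hx) y (hch.le hy)⟩
  obtain ⟨Q, _, _, hfinQ, π, ρ, hπ, hadd, hker, hact⟩ := bridge q (M ⊔ V) U₁ U₂ hU₁
    (sup_le hch.m1 hch.v1) (sup_le hch.m2 hch.v2)
  have hfinGL : Finite (Q ≃ₗ[ZMod q] Q) := DFunLike.finite _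
  obtain ⟨φM, hφM⟩ : ∃ φ : ↥M →* (Q ≃ₗ[ZMod q] Q),
    φ = ρ.comp (inclusion (le_sup_left : M ≤ M ⊔ V)) := ⟨_, rfl⟩
  obtain ⟨φV, hφV⟩ : ∃ φ : ↥V →* (Q ≃ₗ[ZMod q] Q),
    φ = ρ.comp (inclusion (le_sup_right : V ≤ M ⊔ V)) := ⟨_, rfl⟩
  have hM' : ∀ (m : Γ) (hm : m ∈ M), φM ⟨m, hm⟩ = ρ ⟨m, (le_sup_left : M ≤ M ⊔ V) hm⟩ :=
    fun m hm => by rw [hφM]; rfl
  have hV' : ∀ (m : Γ) (hm : m ∈ V), φV ⟨m, hm⟩ = ρ ⟨m, (le_sup_right : V ≤ M ⊔ V) hm⟩ :=
    fun m hm => by rw [hφV]; rfl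
  obtain ⟨ab, hab⟩ : ∃ ab, ab = φM ⟨a, haM⟩ := ⟨_, rfl⟩
  have hfacts : ∀ (h : ↥(M ⊔ V)) (u : U₁) (c : U₁), (c : Γ) = h * u * (h : Γ)⁻¹ * (u : Γ)⁻¹ →
      ρ h (π u) - π u = π c := fun h u c hc => pi_facts π ρ hadd hact h u c hc
  have hXsol : Group.IsSolvable φM.range := by
    have := hsol
    exact Group.isSolvable_of_surjective φM.rangeRestrict_surjective
  have hXpi : IsPi q r φM.range := fun s hs hd => hpi s hs (hd.trans (card_range_dvd φM))
  have habX : ab ∈ φM.range := ⟨_, hab.symm⟩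
  have habq : ab ^ q = 1 := by
    rw [hab, ← map_pow]
    have : (⟨a, haM⟩ : ↥M) ^ q = 1 := Subtype.ext (by simpa using haq)
    rw [this, map_one]
  have hab1 : ab ≠ 1 := by
    obtain ⟨u, hu, huu⟩ := hnt
    intro h
    have hc : a * u * a⁻¹ * u⁻¹ ∈ U₁ := U₁.mul_mem (inv_conj hch.m1 haM hu) (U₁.inv_mem hu)
    have h1 := hfacts ⟨a, (le_sup_left : M ≤ M ⊔ V) haM⟩ ⟨u, hu⟩ ⟨_, hc⟩ rfl
    rw [← hM' a haM, ← hab, h] at h1
    apply huu
    rw [← hker ⟨_, hc⟩, ← h1]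
    exact sub_self _
  -- the commutator map of `a`
  have hrange : (Set.range (fun x => ab x - x)).ncard ≤ q := by
    refine le_trans ?_ hcard
    have hsub : Set.range (fun x => ab x - x) ⊆
        (fun g : Γ => by classical exact if h : g ∈ U₁ then π ⟨g, h⟩ else (0 : Q)) ''
          {g : Γ | ∃ u ∈ W, g = a * u * a⁻¹ * u⁻¹} := by
      rintro _ ⟨x, rfl⟩
      obtain ⟨u, rfl⟩ := hπ x
      have hc : a * u * a⁻¹ * (u : Γ)⁻¹ ∈ U₁ :=
        U₁.mul_mem (inv_conj hch.m1 haM u.2) (U₁.inv_mem u.2)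
      refine ⟨a * u * a⁻¹ * (u : Γ)⁻¹, ⟨u, hch.le u.2, rfl⟩, ?_⟩
      simp only [hc, dite_true]
      rw [hab, hM']
      exact (hfacts ⟨a, _⟩ u ⟨_, hc⟩ rfl).symm
    exact (Set.ncard_le_ncard hsub (Set.toFinite _)).trans (Set.ncard_image_le (Set.toFinite _))
  have hcardQ : Nat.card Q ≤ q * Nat.card {w : Q // ab w = w} := by
    rw [card_split ab, mul_comm]
    exact Nat.mul_le_mul_right _ hrange
  -- the element `v`
  obtain ⟨v, hv, hv1, hv2⟩ := hChief Γ p V M U₁ U₂ hV hVM hfpf hsol hch.lt (hch.le.trans hWM)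
    hch.m1 hch.m2 hch.v1 hch.v2 hch.ch
  obtain ⟨vb, hvb⟩ : ∃ vb, vb = φV ⟨v, hv⟩ := ⟨_, rfl⟩
  have hcomM : ∀ (m : Γ) (hm : m ∈ M), φM ⟨m, hm⟩ * vb = vb * φM ⟨m, hm⟩ := by
    intro m hm
    have hmH : m ∈ M ⊔ V := (le_sup_left : M ≤ M ⊔ V) hm
    have hvH : v ∈ M ⊔ V := (le_sup_right : V ≤ M ⊔ V) hv
    have h1 : ρ (⟨m, hmH⟩ * ⟨v, hvH⟩ * ⟨m, hmH⟩⁻¹ * ⟨v, hvH⟩⁻¹) = 1 := by
      ext x
      obtain ⟨u, rfl⟩ := hπ x
      have hcm : m * v * m⁻¹ * v⁻¹ ∈ cm M v := by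
        have := commutator_mem_commutator hm (mem_zpowers v)
        simpa [cm, commutatorElement_def] using this
      have hc : (m * v * m⁻¹ * v⁻¹) * u * (m * v * m⁻¹ * v⁻¹)⁻¹ * (u : Γ)⁻¹ ∈ U₂ := by
        apply hv2
        have := commutator_mem_commutator hcm u.2
        simpa [commutatorElement_def] using this
      have h2 := hfacts (⟨m, hmH⟩ * ⟨v, hvH⟩ * ⟨m, hmH⟩⁻¹ * ⟨v, hvH⟩⁻¹) u
        ⟨_, hch.lt.le hc⟩ rfl
      rw [(hker ⟨_, hch.lt.le hc⟩).2 hc, sub_eq_zero] at h2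
      exact h2
    rw [map_mul, map_mul, map_mul, map_inv, map_inv] at h1
    rw [hvb, hM', hV']
    have h3 := mul_inv_eq_one.1 h1
    exact mul_inv_eq_iff_eq_mul.1 h3
  have hcomV : ∀ (m : Γ) (hm : m ∈ V), φV ⟨m, hm⟩ * vb = vb * φV ⟨m, hm⟩ := by
    intro m hm
    rw [hvb, ← map_mul, ← map_mul]
    congr 1
    exact Subtype.ext (hV.comm m hm v hv)
  have happ : ∀ (g h : Q ≃ₗ[ZMod q] Q) (x : Q), (g * h) x = g (h x) := fun _ _ _ => rfl
  have hFv : ∀ x : Q, vb x = x → x = 0 := by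
    let F : AddSubgroup Q :=
      { carrier := {x | vb x = x}
        zero_mem' := map_zero vb
        add_mem' := by
          intro x y hx hy
          show vb (x + y) = x + y
          rw [map_add, show vb x = x from hx, show vb y = y from hy]
        neg_mem' := by
          intro x hx
          show vb (-x) = -x
          rw [map_neg, show vb x = x from hx] }
    have hF : F = ⊥ ∨ F = ⊤ := by
      apply chiefQ hch π ρ hπ hadd hker hact
      · intro m hm x hx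
        show vb (ρ _ x) = ρ _ x
        rw [← hM' m hm, ← happ, ← hcomM m hm, happ, show vb x = x from hx]
      · intro m hm x hx
        show vb (ρ _ x) = ρ _ x
        rw [← hV' m hm, ← happ, ← hcomV m hm, happ, show vb x = x from hx]
    rcases hF with hF | hF
    · intro x hx
      have : x ∈ F := hx
      rwa [hF, AddSubgroup.mem_bot] at this
    · exfalso
      obtain ⟨u, hu, huu⟩ := hv1
      apply huu
      have hc : v * u * v⁻¹ * u⁻¹ ∈ U₁ := U₁.mul_mem (inv_conj hch.v1 hv hu) (U₁.inv_mem hu)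
      rw [← hker ⟨_, hc⟩, ← hfacts ⟨v, (le_sup_right : V ≤ M ⊔ V) hv⟩ ⟨u, hu⟩ ⟨_, hc⟩ rfl,
        ← hV' v hv, ← hvb, sub_eq_zero]
      have : π ⟨u, hu⟩ ∈ F := by rw [hF]; trivial
      exact this
  -- `p` divides `q - 1`
  have hpq : p ∣ q - 1 := by
    let f : Q →+ Q :=
      { toFun := fun x => ab x - x
        map_zero' := by simp
        map_add' := fun x y => by simp only [map_add]; abel }
    have hfr : Nat.card f.range ≤ q := hrange
    have hfne : f.range ≠ ⊥ := by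
      intro h
      apply hab1
      ext x
      have : f x ∈ f.range := ⟨x, rfl⟩
      rw [h, AddSubgroup.mem_bot] at this
      exact sub_eq_zero.1 this
    have hcardL : Nat.card f.range = q :=
      le_antisymm hfr (Nat.le_of_dvd Nat.card_pos (q_dvd_card hq _ hfne))
    have hLv : ∀ x ∈ f.range, vb x ∈ f.range := by
      rintro _ ⟨x, rfl⟩
      refine ⟨vb x, ?_⟩
      show ab (vb x) - vb x = vb (ab x - x)
      rw [map_sub, ← happ, ← happ, hab, hcomM]
    let g : Function.End f.range := fun x => ⟨vb x, hLv x x.2⟩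
    have hgpow : ∀ (n : ℕ) (x : f.range), ((g ^ n) x : Q) = (vb ^ n) x := by
      intro n
      induction n with
      | zero => intro x; rfl
      | succ n ih =>
        intro x
        rw [pow_succ', pow_succ']
        show vb ((g ^ n) x : Q) = vb ((vb ^ n) x)
        rw [ih]
    have hvp : vb ^ p = 1 := by
      rw [hvb, ← map_pow]
      have : (⟨v, hv⟩ : ↥V) ^ p = 1 := Subtype.ext (by simpa using hV.exp v hv)
      rw [this, map_one]
    have hg1 : g ^ p ^ 1 = 1 := by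
      funext x
      apply Subtype.ext
      rw [pow_one, hgpow, hvp]
      rfl
    classical
    have _ : Fintype f.range := Fintype.ofFinite _
    have h1 := Equiv.Perm.card_fixedPoints_modEq (p := p) (n := 1) hg1
    have h2 : Fintype.card g.fixedPoints = 1 := by
      rw [Fintype.card_eq_one_iff]
      refine ⟨⟨0, ?_⟩, ?_⟩
      · show g 0 = 0
        apply Subtype.ext
        show vb 0 = 0
        exact map_zero vb
      · rintro ⟨y, hy⟩
        apply Subtype.ext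
        apply Subtype.ext
        have h3 : g y = y := hy
        exact hFv _ (congrArg Subtype.val h3)
    rw [h2, ← Nat.card_eq_fintype_card, hcardL] at h1
    exact (Nat.modEq_iff_dvd' hq.one_lt.le).1 h1.symm
  -- `O_q(M_U) = 1`
  have hCq := (hCore _ q φM.range hq).1
  have hCr := (hCore _ r φM.range hr).1
  have hVX : Inv φV.range φM.range := by
    apply inv_of_conj
    rintro _ ⟨w, rfl⟩ _ ⟨m, rfl⟩
    refine ⟨⟨w * m * (w : Γ)⁻¹, inv_conj hVM w.2 m.2⟩, ?_⟩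
    rw [hM' _ (inv_conj hVM w.2 m.2)]
    have h1 : φV w = ρ ⟨w, (le_sup_right : V ≤ M ⊔ V) w.2⟩ := hV' w w.2
    have h2 : φM m = ρ ⟨m, (le_sup_left : M ≤ M ⊔ V) m.2⟩ := hM' m m.2
    rw [h1, h2, ← map_mul, ← map_inv, ← map_mul]
    rfl
  have hVK := hCq.2.2.2 _ hVX
  have hC0 : core q φM.range = ⊥ := by
    let F : AddSubgroup Q :=
      { carrier := {x | ∀ k ∈ core q φM.range, k x = x}
        zero_mem' := fun k _ => map_zero k
        add_mem' := by
          intro x y hx hy k hk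
          rw [map_add, hx k hk, hy k hk]
        neg_mem' := by
          intro x hx k hk
          rw [map_neg, hx k hk] }
    have hnorm : ∀ g : Q ≃ₗ[ZMod q] Q, g ∈ normalizer (core q φM.range : Set (Q ≃ₗ[ZMod q] Q)) →
        ∀ x ∈ F, g x ∈ F := by
      intro g hg x hx k hk
      have h1 : g⁻¹ * k * g ∈ core q φM.range := (mem_normalizer_iff''.1 hg k).1 hk
      have h2 := hx _ h1
      have h3 : k (g x) = (g * (g⁻¹ * k * g)) x := by
        rw [show g * (g⁻¹ * k * g) = k * g by group]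
        rfl
      rw [h3, happ, h2]
    have hF : F = ⊥ ∨ F = ⊤ := by
      apply chiefQ hch π ρ hπ hadd hker hact
      · intro m hm x hx
        rw [← hM' m hm]
        exact hnorm _ (hCq.2.1 ⟨_, rfl⟩) x hx
      · intro m hm x hx
        rw [← hV' m hm]
        exact hnorm _ (hVK ⟨_, rfl⟩) x hx
    rcases hF with hF | hF
    · exfalso
      -- a `q`-group acting on a nontrivial `q`-group has a nontrivial fixed point
      have hQne : (⊤ : AddSubgroup Q) ≠ ⊥ := by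
        intro h
        apply hab1
        ext x
        have h1 : x ∈ (⊤ : AddSubgroup Q) := trivial
        have h2 : ab x ∈ (⊤ : AddSubgroup Q) := trivial
        rw [h, AddSubgroup.mem_bot] at h1 h2
        rw [h2]
        exact h1.symm
      have hqQ : q ∣ Nat.card Q := by
        have h1 := q_dvd_card hq (⊤ : AddSubgroup Q) hQne
        rwa [AddSubgroup.card_top] at h1
      obtain ⟨b, hb, hb0⟩ := IsPGroup.exists_fixed_point_of_prime_dvd_card_of_fixed_point (p := q)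
        (G := ↥(core q φM.range)) hCq.2.2.1 Q hqQ (a := (0 : Q)) (by
          intro k
          exact map_zero (k : Q ≃ₗ[ZMod q] Q))
      apply hb0
      have h1 : b ∈ F := by
        intro k hk
        exact hb ⟨k, hk⟩
      rw [hF, AddSubgroup.mem_bot] at h1
      exact h1.symm
    · rw [eq_bot_iff]
      intro k hk
      rw [mem_bot]
      ext x
      have : x ∈ F := by rw [hF]; trivial
      exact this k hk
  have hex : ∃ x ∈ core r φM.range, ab * x ≠ x * ab := by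
    by_contra hcon
    push Not at hcon
    exact hab1 (not_cent hCore hq hr hne φM.range hXpi hXsol hC0 habX habq
      (fun x hx => (hcon x hx).symm))
  have hqR : ¬ q ∣ Nat.card (core r φM.range) := by
    intro hd
    have _ : Fact r.Prime := ⟨hr⟩
    obtain ⟨n, hn⟩ := IsPGroup.iff_card.1 hCr.2.2.1
    rw [hn] at hd
    exact hne ((Nat.prime_dvd_prime_iff_eq hq hr).1 (hq.dvd_of_dvd_pow hd))
  have hzX : zpowers ab ≤ φM.range := by rw [zpowers_le]; exact habX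
  have hfin := hTrV q hfq Q (core r φM.range) ab hqR (hzX.trans hCr.2.1) habq hcardQ hex p hp hpq
  have h1 : Nat.card (core r φM.range ⊔ zpowers ab : Subgroup (Q ≃ₗ[ZMod q] Q)) ∣
      Nat.card φM.range := card_dvd_of_le (sup_le hCr.1 hzX)
  exact hCop Γ p V M hV hVM hfpf (hfin.trans (h1.trans (card_range_dvd φM)))

end ModD5

theorem d5 (hOff : StmtOff) (hTrV : StmtTrV) (hChief : StmtChief) (hCore : StmtCore)
    (hCop : StmtCop) : StmtF := by
  intro Γ _ _ p q r V M W A hV hVM hfpf hsol hq hr hne hpi hWM hW hMW hVW hD hAM hA hineq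
  by_contra hnc
  obtain ⟨a, haA, ⟨w, hw, hwa⟩, hcard⟩ := ModD5.step1 hOff hCore hq hr hne M W A hsol hpi hW hMW hD
    hAM hA hineq hnc
  have hDD : ModD5.DD M V W ≤ cen M (W : Set Γ) := by
    apply hD
    · intro x hx
      exact hx.1
    · exact ModD5.DD_inv M V W
    · apply ModD5.relq hq M W _ hMW
      · intro x hx
        exact hx.1
      · intro m hm
        exact ModD5.chain M V W hW (Nat.card W) W le_rfl le_rfl hMW hVW m hm
  have hnD : ¬ a ∈ ModD5.DD M V W := by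
    intro h
    exact hwa ((ModD5.mem_cen.1 (hDD h)).2 w hw)
  have hex : ∃ U₁ U₂, ModD5.Chf M V W U₁ U₂ ∧ ∃ u ∈ U₁, a * u * a⁻¹ * u⁻¹ ∉ U₂ := by
    by_contra hcon
    push Not at hcon
    exact hnD ⟨hAM haA, fun U₁ U₂ h u hu => hcon U₁ U₂ h u hu⟩
  obtain ⟨U₁, U₂, hch, hnt⟩ := hex
  exact ModD5.step3 hTrV hChief hCore hCop hq hr hne V M W U₁ U₂ hV hVM hfpf hsol hpi hWM hW hch a
    (hAM haA) (hA.1 a haA) hcard hnt

end Pool.Agent.T6.H88.FP
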