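import Pool.Agent.T6.H88.FP.Defs

/-! Module D6 of the project FP: domination in rank at least three. -/

set_option autoImplicit false
set_option linter.unusedSectionVars false
set_option linter.unusedVariables false

namespace Pool.Agent.T6.H88.FP

open Subgroup

namespace D6

section basic

variable {Γ : Type} [Group Γ]

theorem inv_of {V X : Subgroup Γ} (h : ∀ v ∈ V, ∀ x ∈ X, v * x * v⁻¹ ∈ X) : Inv V X := by
  intro v hv
  rw [mem_normalizer_iff]
  intro x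
  constructor
  · exact h v hv x
  · intro hx
    have h1 := h v⁻¹ (V.inv_mem hv) _ hx
    have h2 : v⁻¹ * (v * x * v⁻¹) * v⁻¹⁻¹ = x := by group
    rwa [h2] at h1

theorem inv_mem {V X : Subgroup Γ} (h : Inv V X) {v x : Γ} (hv : v ∈ V) (hx : x ∈ X) :
    v * x * v⁻¹ ∈ X := by
  have := h hv
  rw [mem_normalizer_iff] at this
  exact (this x).1 hx

theorem inv_iff {V X : Subgroup Γ} (h : Inv V X) {v x : Γ} (hv : v ∈ V) :
    x ∈ X ↔ v * x * v⁻¹ ∈ X := by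
  have := h hv
  rw [mem_normalizer_iff] at this
  exact this x

theorem Inv.inf {V X Y : Subgroup Γ} (h : Inv V X) (h' : Inv V Y) : Inv V (X ⊓ Y) :=
  inv_of fun v hv x hx => ⟨inv_mem h hv hx.1, inv_mem h' hv hx.2⟩

theorem mem_cen {X : Subgroup Γ} {B : Set Γ} {x : Γ} :
    x ∈ cen X B ↔ x ∈ X ∧ ∀ b ∈ B, b * x = x * b := by
  unfold cen
  rw [mem_inf, mem_centralizer_iff]

theorem cen_le {X : Subgroup Γ} {B : Set Γ} : cen X B ≤ X := inf_le_left

theorem cen_mono {X Y : Subgroup Γ} {B : Set Γ} (h : X ≤ Y) : cen X B ≤ cen Y B :=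
  inf_le_inf_right _ h

/-- fixed points of a subgroup of `V` -/
theorem inv_cen {p : ℕ} {V Z K : Subgroup Γ} (hV : ElAb p V) (hZ : Inv V Z) (hK : K ≤ V) :
    Inv V (cen Z (K : Set Γ)) := by
  refine inv_of fun v hv x hx => ?_
  rw [mem_cen] at hx ⊢
  refine ⟨inv_mem hZ hv hx.1, fun k hk => ?_⟩
  have h1 := hx.2 k hk
  have h2 := hV.comm v hv k (hK hk)
  calc k * (v * x * v⁻¹) = (k * v) * x * v⁻¹ := by group
    _ = (v * k) * x * v⁻¹ := by rw [h2]
    _ = v * (k * x) * v⁻¹ := by group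
    _ = v * (x * k) * v⁻¹ := by rw [h1]
    _ = v * x * (k * v) * (v⁻¹ * v⁻¹) := by group
    _ = v * x * (v * k) * (v⁻¹ * v⁻¹) := by rw [h2]
    _ = v * x * v⁻¹ * (v * v * k * v⁻¹ * v⁻¹) := by group
    _ = v * x * v⁻¹ * (v * (v * k) * v⁻¹ * v⁻¹) := by group
    _ = v * x * v⁻¹ * (v * (k * v) * v⁻¹ * v⁻¹) := by rw [h2]
    _ = v * x * v⁻¹ * (v * k * v⁻¹) := by group
    _ = v * x * v⁻¹ * (k * v * v⁻¹) := by rw [h2]
    _ = v * x * v⁻¹ * k := by group

theorem inv_cen1 {p : ℕ} {V Z : Subgroup Γ} (hV : ElAb p V) (hZ : Inv V Z) {u : Γ} (hu : u ∈ V) :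
    Inv V (cen Z {u}) := by
  refine inv_of fun v hv x hx => ?_
  have h := inv_cen hV hZ (K := zpowers u) (by rw [zpowers_le]; exact hu)
  have hx' : x ∈ cen Z ((zpowers u : Subgroup Γ) : Set Γ) := by
    rw [mem_cen] at hx ⊢
    refine ⟨hx.1, ?_⟩
    have h1 : Commute u x := hx.2 u rfl
    rintro _ ⟨n, rfl⟩
    exact h1.zpow_left n
  have h2 := inv_mem h hv hx'
  rw [mem_cen] at h2 ⊢
  refine ⟨h2.1, ?_⟩
  intro b hb
  rw [Set.mem_singleton_iff] at hb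
  subst hb
  exact h2.2 _ (mem_zpowers _)

theorem mem_ZZ {q : ℕ} {S : Subgroup Γ} {x : Γ} :
    x ∈ ZZ q S ↔ (x ∈ S ∧ ∀ s ∈ S, s * x = x * s) ∧ x ^ q = 1 := by
  constructor
  · intro hx
    let Ω : Subgroup Γ :=
      { carrier := {x | (x ∈ S ∧ ∀ s ∈ S, s * x = x * s) ∧ x ^ q = 1}
        mul_mem' := by
          rintro a b ⟨⟨ha, ha'⟩, ha''⟩ ⟨⟨hb, hb'⟩, hb''⟩
          refine ⟨⟨S.mul_mem ha hb, fun s hs => ?_⟩, ?_⟩
          · rw [← mul_assoc, ha' s hs, mul_assoc, hb' s hs, mul_assoc]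
          · have : Commute a b := hb' a ha
            rw [this.mul_pow, ha'', hb'', one_mul]
        one_mem' := ⟨⟨S.one_mem, fun s _ => by simp⟩, one_pow _⟩
        inv_mem' := by
          rintro a ⟨⟨ha, ha'⟩, ha''⟩
          refine ⟨⟨S.inv_mem ha, fun s hs => ?_⟩, by rw [inv_pow, ha'', inv_one]⟩
          have : Commute s a := ha' s hs
          exact this.inv_right }
    have hle : ZZ q S ≤ Ω := by
      unfold ZZ
      refine sSup_le ?_
      rintro A ⟨hA1, hA2⟩ a ha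
      have h1 := mem_cen.1 (hA1 ha)
      exact ⟨⟨h1.1, h1.2⟩, hA2.1 a ha⟩
    exact hle hx
  · rintro ⟨⟨h1, h2⟩, h3⟩
    have hle : zpowers x ≤ ZZ q S := by
      refine le_sSup ⟨?_, ?_, ?_⟩
      · rw [zpowers_le, mem_cen]
        exact ⟨h1, h2⟩
      · rintro _ ⟨n, rfl⟩
        simp only
        rw [← zpow_natCast, ← zpow_mul, mul_comm, zpow_mul, zpow_natCast, h3, one_zpow]
      · rintro _ ⟨n, rfl⟩ _ ⟨m, rfl⟩
        simp only
        rw [← zpow_add, ← zpow_add, add_comm]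
    exact hle (mem_zpowers x)

theorem ZZ_le {q : ℕ} {S : Subgroup Γ} : ZZ q S ≤ S := fun _ hx => (mem_ZZ.1 hx).1.1

theorem inv_ZZ {q : ℕ} {V S : Subgroup Γ} (h : Inv V S) : Inv V (ZZ q S) := by
  refine inv_of fun v hv x hx => ?_
  rw [mem_ZZ] at hx ⊢
  refine ⟨⟨inv_mem h hv hx.1.1, fun s hs => ?_⟩, ?_⟩
  · have h1 : v⁻¹ * s * v⁻¹⁻¹ ∈ S := inv_mem h (V.inv_mem hv) hs
    rw [inv_inv] at h1
    have h2 := hx.1.2 _ h1
    calc s * (v * x * v⁻¹) = v * ((v⁻¹ * s * v) * x) * v⁻¹ := by group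
      _ = v * (x * (v⁻¹ * s * v)) * v⁻¹ := by rw [h2]
      _ = v * x * v⁻¹ * s := by group
  · rw [conj_pow, hx.2, mul_one, mul_inv_cancel]

theorem ZZ_ne [Finite Γ] {q : ℕ} (hq : q.Prime) {S : Subgroup Γ} (hS : IsPGroup q S) (h : S ≠ ⊥) :
    ZZ q S ≠ ⊥ := by
  have : Fact q.Prime := ⟨hq⟩
  have : Nontrivial S := (Subgroup.nontrivial_iff_ne_bot S).2 h
  have h1 : Nontrivial (Subgroup.center S) := hS.center_nontrivial
  have h2 : IsPGroup q (Subgroup.center S) := hS.to_subgroup _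
  obtain ⟨n, hn0, hn⟩ := h2.nontrivial_iff_card.1 h1
  have h3 : q ∣ Nat.card (Subgroup.center S) := by
    rw [hn]; exact dvd_pow_self q (by omega)
  obtain ⟨z, hz⟩ := exists_prime_orderOf_dvd_card' q h3
  intro hbot
  have h4 : ((z : S) : Γ) ∈ ZZ q S := by
    rw [mem_ZZ]
    refine ⟨⟨(z : S).2, fun s hs => ?_⟩, ?_⟩
    · have := (Subgroup.mem_center_iff.1 z.2) ⟨s, hs⟩
      exact congrArg Subtype.val this
    · have h5 : z ^ q = 1 := by rw [← hz]; exact pow_orderOf_eq_one z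
      have h6 := congrArg (fun t : Subgroup.center S => ((t : S) : Γ)) h5
      simpa using h6
  rw [hbot, mem_bot] at h4
  have h5 : z = 1 := by
    apply Subtype.ext
    apply Subtype.ext
    exact h4
  rw [h5, orderOf_one] at hz
  exact hq.one_lt.ne hz

/-- a group is not the union of two proper subgroups -/
theorem two_union {V K L : Subgroup Γ} (hK : ¬ V ≤ K) (hL : ¬ V ≤ L)
    (h : ∀ v ∈ V, v ≠ 1 → v ∈ K ∨ v ∈ L) : False := by
  obtain ⟨a, haV, haK⟩ := SetLike.not_le_iff_exists.1 hK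
  obtain ⟨b, hbV, hbL⟩ := SetLike.not_le_iff_exists.1 hL
  have ha1 : a ≠ 1 := fun e => haK (e ▸ K.one_mem)
  have hb1 : b ≠ 1 := fun e => hbL (e ▸ L.one_mem)
  have haL : a ∈ L := (h a haV ha1).resolve_left haK
  have hbK : b ∈ K := (h b hbV hb1).resolve_right hbL
  have hab : a * b ≠ 1 := by
    intro e
    apply hbL
    have : b = a⁻¹ := (inv_eq_of_mul_eq_one_right e).symm
    rw [this]
    exact L.inv_mem haL
  rcases h (a * b) (V.mul_mem haV hbV) hab with h1 | h1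
  · apply haK
    have : a = (a * b) * b⁻¹ := by group
    rw [this]
    exact K.mul_mem h1 (K.inv_mem hbK)
  · apply hbL
    have : b = a⁻¹ * (a * b) := by group
    rw [this]
    exact L.mul_mem (L.inv_mem haL) h1

theorem LL_of_le {V G X Y : Subgroup Γ} {q r : ℕ} [Finite Γ] (hY : LL V G q r Y) (h : X ≤ Y)
    (hX : Inv V X) : LL V G q r X := by
  refine ⟨h.trans hY.1, hX, ?_, ?_⟩
  · intro e
    subst e
    exact hY.2.2.1 (le_antisymm hY.1 h)
  · intro s hs hd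
    exact hY.2.2.2 s hs (hd.trans (Subgroup.card_dvd_of_le h))

end basic

/-- the context, symmetric in `q` and `r` -/
structure Ctx {Γ : Type} [Group Γ] (p q r : ℕ) (V G : Subgroup Γ) : Prop where
  bd : Bad p q r V G
  lc : Loc p q r V G
  lc' : Loc p r q V G
  ta : ∀ M, MM V G q r M → core q M = ⊥ ∨ core r M = ⊥

section ctx

variable {Γ : Type} [Group Γ] [Finite Γ] {p q r : ℕ} {V G : Subgroup Γ}

/-- type `q` -/
def Ty (V G : Subgroup Γ) (q r : ℕ) (M : Subgroup Γ) : Prop := MM V G q r M ∧ core r M = ⊥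

theorem Ty.ne (c : Ctx p q r V G) {M : Subgroup Γ} (hM : MM V G q r M) : M ≠ ⊥ := by
  intro h
  have h1 := hM.2 _ c.lc.sq.2.2.2.2.2 (by rw [h]; exact bot_le)
  rw [h] at h1
  exact c.lc.sq.2.2.2.2.1 h1

theorem Ty.fit (c : Ctx p q r V G) {M : Subgroup Γ} (hM : Ty V G q r M) :
    cen M (core q M : Set Γ) ≤ core q M := by
  have h := c.lc.fit M hM.1.1
  rw [hM.2, sup_bot_eq] at h
  exact h

theorem Ty.core_ne (c : Ctx p q r V G) {M : Subgroup Γ} (hM : Ty V G q r M) : core q M ≠ ⊥ := by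
  intro h
  have h1 := hM.fit c
  rw [h] at h1
  apply Ty.ne c hM.1
  rw [eq_bot_iff]
  intro x hx
  refine h1 ?_
  rw [mem_cen]
  refine ⟨hx, ?_⟩
  intro b hb
  have hb' : b = 1 := by simpa using hb
  rw [hb', one_mul, mul_one]

theorem not_dvd (c : Ctx p q r V G) {X : Subgroup Γ} (hX : X ≤ G) : ¬ p ∣ Nat.card X :=
  fun h => c.lc.cop (h.trans (Subgroup.card_dvd_of_le hX))

theorem cen_V (c : Ctx p q r V G) {X : Subgroup Γ} (hX : X ≤ G) : cen X (V : Set Γ) = ⊥ := by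
  rw [eq_bot_iff, ← c.bd.fpf]
  exact cen_mono hX

/-- step (1) -/
theorem ZZ_core (c : Ctx p q r V G) {M : Subgroup Γ} (hM : Ty V G q r M) :
    ZZ q (syl V q G) ≤ core q M := by
  obtain ⟨h1, h2, h3, h4⟩ := c.lc.cq M hM.1.1
  have hQG : core q M ≤ G := h1.trans hM.1.1.1
  have hQS : core q M ≤ syl V q G := c.lc.le_syl _ hQG h4 h3
  have hZV : Inv V (ZZ q (syl V q G)) := inv_ZZ c.lc.sq.2.1
  have hZL : LL V G q r (ZZ q (syl V q G)) := LL_of_le c.lc.sq.2.2.2.2.2 ZZ_le hZV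
  have hcomm : ∀ z ∈ ZZ q (syl V q G), ∀ x ∈ core q M, x * z = z * x :=
    fun z hz x hx => (mem_ZZ.1 hz).1.2 x (hQS hx)
  have hZQ : Inv (ZZ q (syl V q G)) (core q M) := by
    refine inv_of fun z hz x hx => ?_
    rw [← hcomm z hz x hx, mul_inv_cancel_right]
    exact hx
  have hQne := hM.core_ne c
  have hQneG : core q M ≠ G := by
    intro e
    exact hM.1.1.2.2.1 (le_antisymm hM.1.1.1 (e ▸ h1))
  have h5 := c.lc.le_nor _ _ hZL hZQ hQG h4 hQne hQneG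
  rw [c.lc.eqn M _ hM.1 h1 h4 h2 hQne] at h5
  intro z hz
  refine hM.fit c ?_
  rw [mem_cen]
  exact ⟨h5 hz, fun x hx => hcomm z hz x hx⟩

/-- step (2) -/
theorem P3 (hP : StmtP) (c : Ctx p q r V G) {M X K ρ : Subgroup Γ} {u : Γ} (hM : Ty V G q r M)
    (hX : MM V G q r X) (hK : K ≤ V) (hKp : K.relIndex V = p)
    (h1 : ρ ≤ core r X) (h2 : ρ ≤ M) (h3 : Inv V ρ) (h4 : ρ ≠ ⊥)
    (h5 : ρ ≤ centralizer (K : Set Γ)) (hu : u ∈ V) (huK : u ∉ K) : ¬ Hc V G q r u ≤ X := by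
  intro hcon
  have fq : Fact q.Prime := ⟨c.bd.hq⟩
  have fr : Fact r.Prime := ⟨c.bd.hr⟩
  obtain ⟨e1, e2, e3, e4⟩ := c.lc.cq M hM.1.1
  have hXr := c.lc'.cq X (c.lc.symL X hX.1)
  obtain ⟨x1, x2, x3, x4⟩ := hXr
  have hEG : core q M ≤ G := e1.trans hM.1.1.1
  have hρG : ρ ≤ G := h2.trans hM.1.1.1
  have hρr : IsPGroup r ρ := x3.to_le h1
  have hdisj : Disjoint (core q M) (core r X) :=
    IsPGroup.disjoint_of_ne q r c.bd.ne _ _ e3 x3
  have hρE : Inv ρ (core q M) := fun y hy => e2 (h2 hy)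
  have hu1 : u ≠ 1 := fun e => huK (e ▸ K.one_mem)
  have hCL : LL V G q r (cen (core q M) {u}) :=
    LL_of_le hM.1.1 (cen_le.trans e1) (inv_cen1 c.bd.elAb' e4 hu)
  have hCX : cen (core q M) {u} ≤ X := by
    refine le_trans (c.lc.le_cn _ hCL u hu hu1 ?_) hcon
    intro y hy
    exact hy.2
  have hCρ : cen (core q M) {u} ≤ centralizer (ρ : Set Γ) := by
    intro y hy
    rw [mem_centralizer_iff]
    intro s hs
    have hyE : y ∈ core q M := cen_le hy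
    have hyX : y ∈ X := hCX hy
    -- the commutator
    have m1 : s * y * s⁻¹ * y⁻¹ ∈ core q M :=
      mul_mem (inv_mem hρE hs hyE) (inv_mem' hyE)
    have m2 : s * y * s⁻¹ * y⁻¹ ∈ core r X := by
      have : s * y * s⁻¹ * y⁻¹ = s * (y * s⁻¹ * y⁻¹) := by group
      rw [this]
      exact mul_mem (h1 hs) (inv_mem x2 hyX (inv_mem' (h1 hs)))
    have m3 : s * y * s⁻¹ * y⁻¹ = 1 := by
      have := hdisj.le_bot ⟨m1, m2⟩
      simpa using this
    calc s * y = (s * y * s⁻¹ * y⁻¹) * (y * s) := by group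
      _ = y * s := by rw [m3, one_mul]
  have hcop : Nat.Coprime (Nat.card ρ) (Nat.card (core q M : Subgroup Γ)) :=
    IsPGroup.coprime_card_of_ne r q c.bd.ne.symm _ _ hρr e3
  have hsol : Group.IsSolvable (core q M : Subgroup Γ) :=
    (c.lc.dec _ (LL_of_le hM.1.1 e1 e4)).1
  have hfin := hP Γ p V K (core q M) ρ u c.bd.elAb' h3 e4 hρE (cen_V c hρG) hsol
    (not_dvd c hEG) hcop hK hKp h5 hu huK hCρ
  -- so `ρ` centralises the core
  apply h4
  rw [eq_bot_iff]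
  intro s hs
  have h6 : s ∈ core q M := by
    refine hM.fit c ?_
    rw [mem_cen]
    refine ⟨h2 hs, fun b hb => ?_⟩
    have := mem_centralizer_iff.1 (hfin hb) s hs
    exact this.symm
  exact hdisj.le_bot ⟨h6, h1 hs⟩
where
  inv_mem' {H : Subgroup Γ} {x : Γ} (hx : x ∈ H) : x⁻¹ ∈ H := H.inv_mem hx

/-- `Hc v` is contained in a maximal element of type `q` -/
def VQ (V G : Subgroup Γ) (q r : ℕ) (v : Γ) : Prop := ∃ M, Ty V G q r M ∧ Hc V G q r v ≤ M

/-- the context with the primes exchanged -/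
theorem Ctx.symm (c : Ctx p q r V G) (hb : Bad p r q V G) : Ctx p r q V G :=
  ⟨hb, c.lc', c.lc, fun M hM => (c.ta M (c.lc'.symM M hM)).symm⟩

theorem VQ_symm (c : Ctx p q r V G) {v : Γ} :
    VQ V G r q v ↔ ∃ M, MM V G q r M ∧ core q M = ⊥ ∧ Hc V G q r v ≤ M := by
  constructor
  · rintro ⟨M, ⟨h1, h2⟩, h3⟩
    exact ⟨M, c.lc'.symM M h1, h2, by rw [c.lc.symc]; exact h3⟩
  · rintro ⟨M, h1, h2, h3⟩
    exact ⟨M, ⟨c.lc.symM M h1, h2⟩, by rw [← c.lc.symc]; exact h3⟩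

/-- step (3) -/
theorem VQ_or (c : Ctx p q r V G) {v : Γ} (hv : v ∈ V) (hv1 : v ≠ 1) :
    VQ V G q r v ∨ VQ V G r q v := by
  obtain ⟨M, hM, hle⟩ := c.lc.mx _ (c.lc.cn v hv hv1).1
  rcases c.ta M hM with h | h
  · right
    rw [VQ_symm c]
    exact ⟨M, hM, h, hle⟩
  · left
    exact ⟨M, ⟨hM, h⟩, hle⟩

/-- step (4) -/
theorem D1 (hP : StmtP) (c : Ctx p q r V G) (c' : Ctx p r q V G) {K : Subgroup Γ} (hK : K ≤ V)
    (hKp : K.relIndex V = p) (hne : cen (ZZ r (syl V r G)) (K : Set Γ) ≠ ⊥)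
    {v' : Γ} (hv' : v' ∈ K) (hv1 : v' ≠ 1) (hvq : VQ V G q r v') {u : Γ} (hu : u ∈ V)
    (hur : VQ V G r q u) : u ∈ K := by
  by_contra huK
  obtain ⟨M', hM', hle⟩ := hvq
  obtain ⟨X, hX, hXle⟩ := hur
  have hZV : Inv V (ZZ r (syl V r G)) := inv_ZZ c.lc'.sq.2.1
  have hρV : Inv V (cen (ZZ r (syl V r G)) (K : Set Γ)) := inv_cen c.bd.elAb' hZV hK
  have hρL' : LL V G r q (cen (ZZ r (syl V r G)) (K : Set Γ)) :=
    LL_of_le c.lc'.sq.2.2.2.2.2 (cen_le.trans ZZ_le) hρV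
  have hρL : LL V G q r (cen (ZZ r (syl V r G)) (K : Set Γ)) := c.lc'.symL _ hρL'
  have h1 : cen (ZZ r (syl V r G)) (K : Set Γ) ≤ M' := by
    refine le_trans (c.lc.le_cn _ hρL v' (hK hv') hv1 ?_) hle
    intro y hy
    rw [mem_cen] at hy
    rw [mem_centralizer_iff]
    intro b hb
    rw [Set.mem_singleton_iff] at hb
    subst hb
    exact hy.2 _ hv'
  have h2 : cen (ZZ r (syl V r G)) (K : Set Γ) ≤ core r X := cen_le.trans (ZZ_core c' hX)
  refine P3 hP c (u := u) hM' (c.lc'.symM X hX.1) hK hKp h2 h1 hρV hne ?_ hu huK ?_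
  · intro y hy
    exact hy.2
  · rw [c.lc.symc]; exact hXle

theorem exists_hyp (hGen : StmtGen) (c : Ctx p q r V G) {y : Subgroup Γ} (hy : LL V G q r y)
    (hne : y ≠ ⊥) : ∃ L ≤ V, L.relIndex V = p ∧ cen y (L : Set Γ) ≠ ⊥ := by
  by_contra hcon
  push Not at hcon
  apply hne
  rw [eq_bot_iff]
  refine hGen Γ p V y ⊥ c.bd.elAb' hy.2.1 (not_dvd c hy.1) (c.lc.dec y hy).1 ?_
  intro K hK hKd
  rcases (Nat.dvd_prime c.bd.elAb'.prime).1 hKd with h | h
  · have hVK : V ≤ K := relIndex_eq_one.1 h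
    have : K = V := le_antisymm hK hVK
    rw [this, cen_V c hy.1]
  · exact (hcon K hK h).le

theorem aux (hP : StmtP) (hGen : StmtGen) (c : Ctx p q r V G) (c' : Ctx p r q V G)
    {K L : Subgroup Γ} (hK : K ≤ V) (hKp : K.relIndex V = p)
    (hKne : cen (ZZ r (syl V r G)) (K : Set Γ) ≠ ⊥) (hL : L ≤ V) (hLp : L.relIndex V = p)
    (hLne : cen (ZZ q (syl V q G)) (L : Set Γ) ≠ ⊥) {v : Γ} (hvK : v ∈ K)
    (hv1 : v ≠ 1) (hvq : VQ V G q r v) : Dom p q r V G := by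
  have hp1 : p ≠ 1 := c.bd.elAb'.prime.one_lt.ne'
  have hVK : ¬ V ≤ K := by
    intro h
    have := relIndex_eq_one.2 h
    omega
  -- (D1)
  have hr : ∀ u ∈ V, VQ V G r q u → u ∈ K := fun u hu h =>
    D1 hP c c' hK hKp hKne hvK hv1 hvq hu h
  constructor
  · refine ⟨L, hL, hLp, fun w hw hw1 => ?_⟩
    have hVL : ¬ V ≤ L := by
      intro h
      have := relIndex_eq_one.2 h
      omega
    rcases VQ_or c (hL hw) hw1 with h | h
    · obtain ⟨M, hM, hle⟩ := h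
      exact ⟨M, hM.1, hM.2, hle⟩
    · exfalso
      refine two_union hVK hVL fun a ha ha1 => ?_
      rcases VQ_or c ha ha1 with h' | h'
      · right
        exact D1 hP c' c hL hLp hLne hw hw1 h ha h'
      · left
        exact hr a ha h'
  · intro X hX hXc
    by_contra hy
    have hZV : Inv V (ZZ q (syl V q G)) := inv_ZZ c.lc.sq.2.1
    have hyV : Inv V (X ⊓ ZZ q (syl V q G)) := Inv.inf hX.1.2.1 hZV
    have hyL : LL V G q r (X ⊓ ZZ q (syl V q G)) := LL_of_le hX.1 inf_le_left hyV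
    obtain ⟨L₁, hL₁, hL₁p, hL₁ne⟩ := exists_hyp hGen c hyL hy
    have hVL : ¬ V ≤ L₁ := by
      intro h
      have := relIndex_eq_one.2 h
      omega
    refine two_union hVK hVL fun a ha ha1 => ?_
    rcases VQ_or c ha ha1 with h' | h'
    · right
      by_contra haL
      obtain ⟨M, hM, hle⟩ := h'
      have hXT : Ty V G r q X := ⟨c.lc.symM X hX, hXc⟩
      refine P3 hP c' (M := X) (X := M) (K := L₁)
        (ρ := cen (X ⊓ ZZ q (syl V q G)) (L₁ : Set Γ)) (u := a) hXT (c.lc.symM M hM.1) hL₁ hL₁p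
        ?_ ?_ ?_ hL₁ne ?_ ha haL ?_
      · exact cen_le.trans (inf_le_right.trans (ZZ_core c hM))
      · exact cen_le.trans inf_le_left
      · exact inv_cen c.bd.elAb' hyV hL₁
      · intro y hy'
        exact hy'.2
      · rw [← c.lc.symc]; exact hle
    · left
      exact hr a ha h'

end ctx

end D6

open D6 in
theorem d6 (hLoc : StmtLoc) (hTA : StmtTA) (hGen : StmtGen) (hP : StmtP) : StmtDom := by
  intro Γ _ _ p q r V G hB hcard
  obtain ⟨hB', lc, lc'⟩ := hLoc Γ p q r V G hB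
  have c : Ctx p q r V G := ⟨hB, lc, lc', hTA Γ p q r V G hB⟩
  have c' : Ctx p r q V G := c.symm hB'
  have fp : Fact p.Prime := ⟨hB.elAb'.prime⟩
  -- the two hyperplanes
  have hZq : LL V G q r (ZZ q (syl V q G)) := LL_of_le lc.sq.2.2.2.2.2 ZZ_le (inv_ZZ lc.sq.2.1)
  have hZr : LL V G r q (ZZ r (syl V r G)) := LL_of_le lc'.sq.2.2.2.2.2 ZZ_le (inv_ZZ lc'.sq.2.1)
  obtain ⟨L, hL, hLp, hLne⟩ := exists_hyp hGen c hZq (ZZ_ne hB.hq lc.sq.2.2.1 lc.sq.2.2.2.2.1)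
  obtain ⟨K, hK, hKp, hKne⟩ := exists_hyp hGen c' hZr (ZZ_ne hB.hr lc'.sq.2.2.1 lc'.sq.2.2.2.2.1)
  -- an element of the intersection
  have hex : ∃ v ∈ L ⊓ K, v ≠ 1 := by
    by_contra hcon
    push Not at hcon
    have hbot : L ⊓ K = ⊥ := by
      rw [eq_bot_iff]
      intro x hx
      rw [mem_bot]
      exact hcon x hx
    have h1 : (L ⊓ K).relIndex V ≤ L.relIndex V * K.relIndex V := relIndex_inf_le
    rw [hbot, relIndex_bot_left, hLp, hKp] at h1
    have h2 : IsPGroup p V := by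
      intro x
      refine ⟨1, ?_⟩
      rw [pow_one]
      apply Subtype.ext
      exact hB.elAb'.exp x x.2
    obtain ⟨n, hn⟩ := IsPGroup.iff_card.1 h2
    apply hcard
    rw [hn] at h1 ⊢
    apply pow_dvd_pow
    have h3 : p ^ n ≤ p ^ 2 := by rw [pow_two]; exact h1
    exact (Nat.pow_le_pow_iff_right hB.elAb'.prime.one_lt).1 h3
  obtain ⟨v, hv, hv1⟩ := hex
  rcases VQ_or c (hL hv.1) hv1 with h | h
  · left
    exact aux hP hGen c c' hK hKp hKne hL hLp hLne hv.2 hv1 h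
  · right
    exact aux hP hGen c' c hL hLp hLne hK hKp hKne hv.1 hv1 h

end Pool.Agent.T6.H88.FP
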