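import Pool.Agent.T6.H88.FP.D7a

/-! # Project FP, module D7: the maximal `W` (helper99) -/

namespace Pool.Agent.T6.H88.FP

open Subgroup
open Pool.Agent.T6.H88.FP.D7
open scoped Pointwise

set_option linter.unusedSectionVars false

namespace D7

variable {Γ : Type} [Group Γ] [Finite Γ] {p q r : ℕ} {V G : Subgroup Γ}

theorem LL_mono {X Y : Subgroup Γ} (hX : LL V G q r X) (hY : Y ≤ X) (hI : Inv V Y) :
    LL V G q r Y := by
  refine ⟨hY.trans hX.1, hI, ?_, fun s hs hd => hX.2.2.2 s hs (hd.trans (card_dvd_of_le hY))⟩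
  rintro rfl
  exact hX.2.2.1 (le_antisymm hX.1 hY)

theorem ne_G {X Y : Subgroup Γ} (hX : LL V G q r X) (hY : Y ≤ X) : Y ≠ G := by
  rintro rfl
  exact hX.2.2.1 (le_antisymm hX.1 hY)

/-- the standing situation -/
structure Sit (p q r : ℕ) (V G : Subgroup Γ) : Prop where
  B : Bad p q r V G
  L : Loc p q r V G
  L' : Loc p r q V G
  TA : ∀ M, MM V G q r M → core q M = ⊥ ∨ core r M = ⊥
  D : Dom p q r V G

/-- `M` is a maximal subgroup of type `q` -/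
def Mq (V G : Subgroup Γ) (q r : ℕ) (M : Subgroup Γ) : Prop := MM V G q r M ∧ core r M = ⊥

theorem WW_eq (M : Subgroup Γ) : WW V G q M = CC (ZZ q (syl V q G)) M := rfl

theorem cen_inv {V X : Subgroup Γ} {Y : Subgroup Γ} (hX : Inv V X) (hY : Inv V Y) :
    Inv V (cen X (Y : Set Γ)) := by
  rw [inv_iff] at *
  intro v hv x hx
  rw [mem_cen] at hx ⊢
  refine ⟨hX v hv x hx.1, fun b hb => ?_⟩
  have h1 := hx.2 (v⁻¹ * b * v) (by
    have := hY v⁻¹ (inv_mem hv) b hb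
    rwa [inv_inv] at this)
  calc b * (v * x * v⁻¹) = v * ((v⁻¹ * b * v) * x) * v⁻¹ := by group
    _ = v * (x * (v⁻¹ * b * v)) * v⁻¹ := by rw [h1]
    _ = v * x * v⁻¹ * b := by group

theorem inf_inv {V X Y : Subgroup Γ} (hX : Inv V X) (hY : Inv V Y) : Inv V (X ⊓ Y) := by
  rw [inv_iff] at *
  exact fun v hv x hx => ⟨hX v hv x hx.1, hY v hv x hx.2⟩

theorem nor_inv {V X Y : Subgroup Γ} (hX : Inv V X) (hY : Inv V Y) :
    Inv V (X ⊓ normalizer (Y : Set Γ)) := by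
  apply inf_inv hX
  rw [inv_iff]
  intro v hv x hx
  exact mul_mem (mul_mem (hY hv) hx) (inv_mem (hY hv))

theorem inf_inv_self {M N : Subgroup Γ} (h : Inv M N) (T : Subgroup Γ) (hT : T ≤ M) : Inv T N :=
  hT.trans h

namespace Sit

variable (S : Sit p q r V G)
include S

theorem Zne : ZZ q (syl V q G) ≠ ⊥ := ZZ_ne_bot S.B.hq S.L.sq.2.2.1 S.L.sq.2.2.2.2.1

theorem Zinv : Inv V (ZZ q (syl V q G)) := ZZ_inv S.L.sq.2.1

theorem ZLL : LL V G q r (ZZ q (syl V q G)) := LL_mono S.L.sq.2.2.2.2.2 ZZ_le S.Zinv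

theorem type_of_Z {X M : Subgroup Γ} (hZ : ZZ q (syl V q G) ≤ X) (hX : X ≤ M)
    (hM : MM V G q r M) : Mq V G q r M := by
  refine ⟨hM, ?_⟩
  rcases S.TA M hM with h | h
  · exfalso
    have := S.D.2 M hM h
    rw [inf_eq_right.2 (hZ.trans hX)] at this
    exact S.Zne this
  · exact h

variable {M : Subgroup Γ} (hM : Mq V G q r M)
include hM

theorem fit : cen M (core q M : Set Γ) ≤ core q M := by
  have := S.L.fit M hM.1.1
  rwa [hM.2, sup_bot_eq] at this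

theorem core_ne : core q M ≠ ⊥ := by
  intro h
  have h1 := S.fit hM
  rw [h] at h1
  have h2 : M ≤ cen M ((⊥ : Subgroup Γ) : Set Γ) := by
    intro x hx
    rw [mem_cen]
    refine ⟨hx, fun b hb => ?_⟩
    rw [mem_bot.1 hb, one_mul, mul_one]
  have h3 : M = ⊥ := le_bot_iff.1 (h2.trans h1)
  have h4 := hM.1.2 _ S.L.sq.2.2.2.2.2 (by rw [h3]; exact bot_le)
  rw [h3] at h4
  exact S.L.sq.2.2.2.2.1 h4

theorem core_le_S : core q M ≤ syl V q G :=
  S.L.le_syl _ ((S.L.cq M hM.1.1).1.trans hM.1.1.1) (S.L.cq M hM.1.1).2.2.2 (S.L.cq M hM.1.1).2.2.1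

theorem Hn_core : Hn V G q r (core q M) = M :=
  S.L.eqn M _ hM.1 (S.L.cq M hM.1.1).1 (S.L.cq M hM.1.1).2.2.2 (S.L.cq M hM.1.1).2.1 (S.core_ne hM)

theorem Z_le_core : ZZ q (syl V q G) ≤ core q M := by
  have h1 : ZZ q (syl V q G) ≤ M := by
    rw [← S.Hn_core hM]
    apply S.L.le_nor _ _ S.ZLL _ ((S.L.cq M hM.1.1).1.trans hM.1.1.1) (S.L.cq M hM.1.1).2.2.2
      (S.core_ne hM) (ne_G hM.1.1 (S.L.cq M hM.1.1).1)
    rw [inv_iff]
    intro z hz x hx
    have := (mem_cen.1 (mem_ZZ.1 hz).1).2 x (S.core_le_S hM hx)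
    have e : z * x * z⁻¹ = x := by rw [← this]; group
    rw [e]
    exact hx
  refine le_trans ?_ (S.fit hM)
  intro z hz
  rw [mem_cen]
  exact ⟨h1 hz, fun b hb => (mem_cen.1 (mem_ZZ.1 hz).1).2 b (S.core_le_S hM hb)⟩

/-- `W(M) ≤ Z(O_q(M))` -/
theorem WW_le : WW V G q M ≤ cen (core q M) (core q M : Set Γ) := by
  rw [WW_eq]
  apply CC_le
  intro m hm z hz
  have hI := inv_iff.1 (S.L.cq M hM.1.1).2.1
  rw [mem_cen]
  refine ⟨hI m hm z (S.Z_le_core hM hz), fun b hb => ?_⟩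
  have h1 := (mem_cen.1 (mem_ZZ.1 hz).1).2 (m⁻¹ * b * m) (S.core_le_S hM (by
    have := hI m⁻¹ (inv_mem hm) b hb
    rwa [inv_inv] at this))
  calc b * (m * z * m⁻¹) = m * ((m⁻¹ * b * m) * z) * m⁻¹ := by group
    _ = m * (z * (m⁻¹ * b * m)) * m⁻¹ := by rw [h1]
    _ = m * z * m⁻¹ * b := by group

theorem WW_eab : eab q (WW V G q M) := by
  have h1 := S.WW_le hM
  have hcomm : ∀ a ∈ WW V G q M, ∀ b ∈ WW V G q M, a * b = b * a := fun a ha b hb =>
    (mem_cen.1 (h1 hb)).2 a (mem_cen.1 (h1 ha)).1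
  refine ⟨?_, hcomm⟩
  let E : Subgroup Γ :=
    { carrier := {x | x ∈ cen (core q M) (core q M : Set Γ) ∧ x ^ q = 1}
      one_mem' := ⟨one_mem _, one_pow _⟩
      mul_mem' := by
        rintro a b ⟨ha, ha'⟩ ⟨hb, hb'⟩
        refine ⟨mul_mem ha hb, ?_⟩
        have hc : Commute a b := (mem_cen.1 hb).2 a (mem_cen.1 ha).1
        rw [hc.mul_pow, ha', hb', one_mul]
      inv_mem' := by
        rintro a ⟨ha, ha'⟩
        exact ⟨inv_mem ha, by rw [inv_pow, ha', inv_one]⟩ }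
  have hle : WW V G q M ≤ E := by
    rw [WW_eq]
    apply CC_le
    intro m hm z hz
    refine ⟨h1 (CC_mem hm hz), ?_⟩
    rw [conj_pow, (mem_ZZ.1 hz).2]
    group
  exact fun a ha => (hle ha).2

theorem WW_le_M : WW V G q M ≤ M := fun _ hx =>
  (S.L.cq M hM.1.1).1 (mem_cen.1 (S.WW_le hM hx)).1

theorem WW_inv : Inv V (WW V G q M) := CC_invV hM.1.1.2.1 S.Zinv

theorem WW_ne : WW V G q M ≠ ⊥ := by
  intro h
  have := (le_CC : ZZ q (syl V q G) ≤ CC (ZZ q (syl V q G)) M)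
  rw [← WW_eq (V := V) (G := G), h, le_bot_iff] at this
  exact S.Zne this

theorem Hn_WW : Hn V G q r (WW V G q M) = M :=
  S.L.eqn M _ hM.1 (S.WW_le_M hM) (S.WW_inv hM) CC_inv (S.WW_ne hM)

omit hM in
theorem type_eq {M₁ M₂ : Subgroup Γ} (h1 : Mq V G q r M₁) (h2 : Mq V G q r M₂)
    (h : WW V G q M₁ = WW V G q M₂) : M₁ = M₂ := by
  rw [← S.Hn_WW h1, ← S.Hn_WW h2, h]

/-- the `V`-invariant Sylow `q`-subgroup of `M` -/
theorem T_syl (hSyl : StmtSyl) : ¬ q ∣ (M ⊓ syl V q G).relIndex M := by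
  have hfpf : cen M V = ⊥ := by
    rw [eq_bot_iff, ← S.B.fpf]
    exact inf_le_inf_right _ hM.1.1.1
  have := (hSyl Γ p V M q S.B.elAb' hM.1.1.2.1 hfpf S.B.hq).2.2.2.1
  rwa [S.L.syl_eq M hM.1.1.1 hM.1.1.2.1] at this

omit hM in
theorem cent_Z {x z : Γ} (hx : x ∈ syl V q G) (hz : z ∈ ZZ q (syl V q G)) : x * z = z * x :=
  (mem_cen.1 (mem_ZZ.1 hz).1).2 x hx

/-- `O_q(M/C_M(W(M))) = 1` -/
theorem D_cond (hSyl : StmtSyl) : ∀ D ≤ M, Inv M D →
    (∃ k : ℕ, (cen M (WW V G q M : Set Γ)).relIndex D = q ^ k) →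
    D ≤ cen M (WW V G q M : Set Γ) := by
  rintro D hD hI ⟨k, hk⟩
  set C := cen M (WW V G q M : Set Γ) with hC
  have h1 : ¬ q ∣ (M ⊓ syl V q G).relIndex D := syl_inf inf_le_left hD hI (S.T_syl hM hSyl)
  have h2 : ∀ x ∈ D, ∃ a ∈ C ⊓ D, ∃ b ∈ (M ⊓ syl V q G) ⊓ D, x = a * b := by
    apply prod_cop inf_le_right inf_le_right
    rw [inf_relIndex_right, inf_relIndex_right, hk]
    exact Nat.Coprime.pow_left k ((Nat.Prime.coprime_iff_not_dvd S.B.hq).2 h1)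
  have h3 : ∀ x ∈ D, ∀ z ∈ ZZ q (syl V q G), x * z = z * x := by
    intro x hx z hz
    obtain ⟨a, ha, b, hb, rfl⟩ := h2 x hx
    have c1 : Commute a z := ((mem_cen.1 ha.1).2 z (le_CC hz)).symm
    have c2 : Commute b z := S.cent_Z hb.1.2 hz
    exact (c1.mul_left c2).eq
  have hDi := inv_iff.1 hI
  intro x hx
  rw [hC, mem_cen]
  refine ⟨hD hx, fun b hb => ?_⟩
  have h4 : WW V G q M ≤ centralizer (D : Set Γ) := by
    rw [WW_eq]
    apply CC_le
    intro m hm z hz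
    rw [mem_centralizer_iff]
    intro y hy
    have h5 := h3 (m⁻¹ * y * m) (by
      have := hDi m⁻¹ (inv_mem hm) y hy
      rwa [inv_inv] at this) z hz
    calc y * (m * z * m⁻¹) = m * ((m⁻¹ * y * m) * z) * m⁻¹ := by group
      _ = m * (z * (m⁻¹ * y * m)) * m⁻¹ := by rw [h5]
      _ = m * z * m⁻¹ * y := by group
  exact ((mem_centralizer_iff.1 (h4 hb)) x hx).symm

theorem core_le_T : core q M ≤ M ⊓ syl V q G := le_inf (S.L.cq M hM.1.1).1 (S.core_le_S hM)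

theorem WW_le_T : WW V G q M ≤ M ⊓ syl V q G := fun _ hx =>
  S.core_le_T hM (mem_cen.1 (S.WW_le hM hx)).1

/-- Thompson's inequality for the elementary abelian subgroups of maximal order -/
theorem ineq {A : Subgroup Γ} (hA : A ∈ JF q (M ⊓ syl V q G)) : ∀ B ≤ A,
    Nat.card B * Nat.card (cen (WW V G q M) (B : Set Γ)) ≤
      Nat.card A * Nat.card (cen (WW V G q M) (A : Set Γ)) := by
  intro B hB
  set W := WW V G q M with hW
  have hE : eab q W := S.WW_eab hM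
  have hCW : cen W (B : Set Γ) ≤ W := inf_le_left
  have h1 : eab q (B ⊔ cen W (B : Set Γ)) :=
    eab_sup (eab_mono hB hA.2.1) (eab_mono hCW hE) fun a ha b hb => (mem_cen.1 hb).2 a ha
  have h2 : B ⊔ cen W (B : Set Γ) ≤ M ⊓ syl V q G :=
    sup_le (hB.trans hA.1) (hCW.trans (S.WW_le_T hM))
  have h3 := hA.2.2 _ h2 h1
  have h4 : ∀ x ∈ B ⊔ cen W (B : Set Γ), ∃ a ∈ B, ∃ b ∈ cen W (B : Set Γ), x = a * b := by
    intro x hx
    have hn : cen W (B : Set Γ) ≤ normalizer (B : Set Γ) := by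
      rw [le_normalizer_iff]
      intro b hb a ha
      have : b * a * b⁻¹ = a := by rw [← (mem_cen.1 hb).2 a ha]; group
      rw [this]
      exact ha
    have : x ∈ ((B : Set Γ) * (cen W (B : Set Γ) : Set Γ)) := by
      rw [← coe_mul_of_right_le_normalizer_left B _ hn]; exact hx
    obtain ⟨a, ha, b, hb, hab⟩ := this
    exact ⟨a, ha, b, hb, hab.symm⟩
  have h5 := (prod_card le_sup_left le_sup_right).1 h4
  rw [h5]
  apply Nat.mul_le_mul h3
  apply Nat.le_of_dvd Nat.card_pos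
  apply card_dvd_of_le
  intro x hx
  rw [mem_cen]
  exact ⟨(mem_cen.1 hx.2).1, fun b hb => hA.2.1.2 b hb x (hB hx.1)⟩

/-- `J(T)` centralises `W(M)` -/
theorem JJ_cent (hF : StmtF) (hSyl : StmtSyl) :
    JJ q (M ⊓ syl V q G) ≤ centralizer (WW V G q M : Set Γ) := by
  have hfpf : cen M V = ⊥ := by
    rw [eq_bot_iff, ← S.B.fpf]
    exact inf_le_inf_right _ hM.1.1.1
  apply sSup_le
  intro A hA
  exact hF Γ p q r V M (WW V G q M) A S.B.elAb' hM.1.1.2.1 hfpf (S.L.dec M hM.1.1).1 S.B.hq S.B.hr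
    S.B.ne hM.1.1.2.2.2 (S.WW_le_M hM) (S.WW_eab hM) CC_inv (S.WW_inv hM) (S.D_cond hM hSyl)
    (hA.1.trans inf_le_left) hA.2.1 (S.ineq hM hA)

theorem T_inv : Inv V (M ⊓ syl V q G) := inf_inv hM.1.1.2.1 S.L.sq.2.1

/-- Frattini: `M = C_M(W) N_M(J)` -/
theorem frat (hF : StmtF) (hSyl : StmtSyl) : ∀ m ∈ M,
    ∃ n ∈ M ⊓ normalizer (JJ q (M ⊓ syl V q G) : Set Γ), ∃ c ∈ cen M (WW V G q M : Set Γ),
      m = n * c := by
  set T := M ⊓ syl V q G with hT
  set C := cen M (WW V G q M : Set Γ) with hC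
  have hCM : C ≤ M := inf_le_left
  have hMM : Inv M M := inv_iff.2 (fun v hv x hx => mul_mem (mul_mem hv hx) (inv_mem hv))
  have hCI : Inv M C := cen_inv hMM CC_inv
  have hJC : JJ q T ≤ C := le_inf (JJ_le.trans inf_le_left) (S.JJ_cent hM hF hSyl)
  set T₁ := T ⊓ C with hT₁
  have hJ1 : JJ q T₁ = JJ q T := JJ_eq inf_le_left (le_inf JJ_le hJC)
  have hTs : ¬ q ∣ T₁.relIndex C := by
    rw [hT₁, inf_relIndex_right]
    exact syl_inf inf_le_left hCM hCI (S.T_syl hM hSyl)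
  have hT₁q : IsPGroup q T₁ :=
    S.L.sq.2.2.1.to_le ((inf_le_left : T₁ ≤ T).trans inf_le_right)
  intro m hm
  -- the conjugate of `T₁`
  have hci := inv_iff.1 hCI
  have key : ∃ c ∈ C, ∀ y, y ∈ T₁.map (MulAut.conj m).toMonoidHom ↔ c * y * c⁻¹ ∈ T₁ := by
    apply syl_conj S.B.hq _ inf_le_right (hT₁q.map _) hT₁q _ hTs
    · exact map_conj_mem (hci m hm) inf_le_right
    · have e1 : C = C.map (MulAut.conj m).toMonoidHom := by
        apply le_antisymm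
        · intro x hx
          refine ⟨m⁻¹ * x * m, ?_, ?_⟩
          · have := hci m⁻¹ (inv_mem hm) x hx
            rwa [inv_inv] at this
          · change m * (m⁻¹ * x * m) * m⁻¹ = x
            group
        · exact map_conj_mem (hci m hm) le_rfl
      have e2 : (T₁.map (MulAut.conj m).toMonoidHom).relIndex
          (C.map (MulAut.conj m).toMonoidHom) = T₁.relIndex C :=
        relIndex_map_map_of_injective _ _ (MulAut.conj m).injective
      rw [← e1] at e2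
      rw [e2]
      exact hTs
  obtain ⟨c, hc, hcy⟩ := key
  have hn : c * m ∈ normalizer (T₁ : Set Γ) := by
    rw [mem_normalizer_iff]
    intro y
    have h1 : y ∈ T₁ ↔ m * y * m⁻¹ ∈ T₁.map (MulAut.conj m).toMonoidHom := by
      constructor
      · intro hy
        exact ⟨y, hy, rfl⟩
      · rintro ⟨z, hz, hzy⟩
        have : z = y := (MulAut.conj m).injective hzy
        rwa [← this]
    rw [h1, hcy]
    have e : c * (m * y * m⁻¹) * c⁻¹ = c * m * y * (c * m)⁻¹ := by group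
    rw [e]
  have hn2 : c * m ∈ normalizer (JJ q T : Set Γ) := by
    have h1 : normalizer (T₁ : Set Γ) ≤ normalizer (JJ q T₁ : Set Γ) := by
      have : Inv (normalizer (T₁ : Set Γ)) T₁ := le_rfl
      exact JJ_inv this
    rw [hJ1] at h1
    exact h1 hn
  have hcM := hCM hc
  refine ⟨c * m, ⟨mul_mem hcM hm, hn2⟩, m⁻¹ * c⁻¹ * m, ?_, by group⟩
  have := hci m⁻¹ (inv_mem hm) c⁻¹ (inv_mem hc)
  rwa [inv_inv] at this

/-- `W(M)` is generated by the conjugates of `Z` under `N_M(J)` -/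
theorem WW_gen (hF : StmtF) (hSyl : StmtSyl) :
    WW V G q M = CC (ZZ q (syl V q G)) (M ⊓ normalizer (JJ q (M ⊓ syl V q G) : Set Γ)) := by
  apply le_antisymm
  · rw [WW_eq]
    apply CC_le
    intro m hm z hz
    obtain ⟨n, hn, c, hc, rfl⟩ := S.frat hM hF hSyl m hm
    have h1 := (mem_cen.1 hc).2 z (le_CC hz)
    have e : n * c * z * (n * c)⁻¹ = n * z * n⁻¹ := by
      have : c * z * c⁻¹ = z := by rw [← h1]; group
      calc n * c * z * (n * c)⁻¹ = n * (c * z * c⁻¹) * n⁻¹ := by group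
        _ = _ := by rw [this]
    rw [e]
    exact CC_mem hn hz
  · exact CC_mono inf_le_left

omit hM in
/-- the order of the `V`-invariant Sylow `r`-subgroup -/
theorem card_syl (hSyl : StmtSyl) {X : Subgroup Γ} (hX : X ≤ G) (hI : Inv V X) :
    Nat.card (X ⊓ syl V r G : Subgroup Γ) = r ^ (Nat.card X).factorization r := by
  have : Fact r.Prime := ⟨S.B.hr⟩
  have hfpf : cen X V = ⊥ := by
    rw [eq_bot_iff, ← S.B.fpf]
    exact inf_le_inf_right _ hX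
  have h1 := (hSyl Γ p V X r S.B.elAb' hI hfpf S.B.hr).2.2.2.1
  rw [S.L'.syl_eq X hX hI] at h1
  have h2 : IsPGroup r (X ⊓ syl V r G : Subgroup Γ) := S.L'.sq.2.2.1.to_le inf_le_right
  obtain ⟨n, hn⟩ := IsPGroup.iff_card.1 h2
  have h3 := card_rel (inf_le_left : X ⊓ syl V r G ≤ X)
  rw [hn] at h3 ⊢
  have hk : (X ⊓ syl V r G : Subgroup Γ).relIndex X ≠ 0 := by
    intro h0
    rw [h0, mul_zero] at h3
    exact Nat.card_pos.ne h3
  rw [← h3, Nat.factorization_mul (pow_ne_zero _ S.B.hr.ne_zero) hk, Finsupp.add_apply,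
    Nat.factorization_eq_zero_of_not_dvd h1, S.B.hr.factorization_pow, Finsupp.single_eq_same,
    add_zero]

/-- `M ↦ M₁` -/
theorem step (hF : StmtF) (hSyl : StmtSyl) : ∃ M₁, Mq V G q r M₁ ∧
    M ⊓ normalizer (JJ q (M ⊓ syl V q G) : Set Γ) ≤ M₁ ∧ WW V G q M ≤ WW V G q M₁ ∧
    (WW V G q M = WW V G q M₁ → syl V q G ≤ M ∧
      WW V G q M = CC (ZZ q (syl V q G)) (Hn V G q r (JJ q (syl V q G)))) := by
  obtain ⟨T, hT⟩ : ∃ T, T = M ⊓ syl V q G := ⟨_, rfl⟩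
  rw [← hT]
  have hTM : T ≤ M := hT ▸ inf_le_left
  have hJT : JJ q T ≤ T := JJ_le
  have hTI : Inv V T := hT ▸ S.T_inv hM
  have hJI : Inv V (JJ q T) := JJ_inv hTI
  have hJne : JJ q T ≠ ⊥ := JJ_ne_bot (hT ▸ S.WW_le_T hM) (S.WW_eab hM) (S.WW_ne hM)
  have hJG : JJ q T ≤ G := hJT.trans (hTM.trans hM.1.1.1)
  have hJneG : JJ q T ≠ G := ne_G hM.1.1 (hJT.trans hTM)
  have hTT : Inv T T := inv_iff.2 (fun v hv x hx => mul_mem (mul_mem hv hx) (inv_mem hv))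
  have hnor := S.L.nor _ hJG hJI hJne hJneG
  have hTLL : LL V G q r T := LL_mono hM.1.1 hTM hTI
  have hTH : T ≤ Hn V G q r (JJ q T) :=
    S.L.le_nor T _ hTLL (JJ_inv hTT) hJG hJI hJne hJneG
  obtain ⟨M₁, hM₁, hHM⟩ := S.L.mx _ hnor.1
  have hZT : ZZ q (syl V q G) ≤ T := hT ▸ (S.Z_le_core hM).trans (S.core_le_T hM)
  have hM₁q : Mq V G q r M₁ := S.type_of_Z (hZT.trans hTH) hHM hM₁
  have hNle : M ⊓ normalizer (JJ q T : Set Γ) ≤ Hn V G q r (JJ q T) :=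
    S.L.le_nor _ _ (LL_mono hM.1.1 inf_le_left (nor_inv hM.1.1.2.1 hJI)) inf_le_right hJG hJI
      hJne hJneG
  have hgen := S.WW_gen hM hF hSyl
  rw [← hT] at hgen
  refine ⟨M₁, hM₁q, hNle.trans hHM, ?_, fun heq => ?_⟩
  · rw [hgen]
    exact CC_mono (hNle.trans hHM)
  · have hMM := S.type_eq hM hM₁q heq
    rw [← hMM] at hHM
    have hN : syl V q G ⊓ normalizer (T : Set Γ) ≤ T := by
      have h1 : syl V q G ⊓ normalizer (T : Set Γ) ≤ Hn V G q r (JJ q T) := by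
        apply S.L.le_nor _ _ (LL_mono S.L.sq.2.2.2.2.2 inf_le_left
          (nor_inv S.L.sq.2.1 hTI)) _ hJG hJI hJne hJneG
        have : Inv (normalizer (T : Set Γ)) T := le_rfl
        exact inf_le_right.trans (JJ_inv this)
      have h2 : syl V q G ⊓ normalizer (T : Set Γ) ≤ M ⊓ syl V q G :=
        le_inf (h1.trans hHM) inf_le_left
      rwa [← hT] at h2
    have hTS : T = syl V q G := grow S.B.hq S.L.sq.2.2.1 (hT ▸ inf_le_right) hN
    refine ⟨hTS ▸ hTM, ?_⟩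
    rw [hTS] at hgen hNle hHM hnor
    have : M ⊓ normalizer (JJ q (syl V q G) : Set Γ) = Hn V G q r (JJ q (syl V q G)) :=
      le_antisymm hNle (le_inf hHM hnor.2)
    rw [hgen, this]

/-- the decomposition of the fixed points of `K` in the Sylow `r`-subgroup of `M` -/
theorem decomp (hF : StmtF) (hSyl : StmtSyl) (hProd : StmtProd) {M₁ : Subgroup Γ}
    (hM₁ : Mq V G q r M₁)
    (hle : M ⊓ normalizer (JJ q (M ⊓ syl V q G) : Set Γ) ≤ M₁) : ∀ K ≤ V,
    ∀ x ∈ cen (M ⊓ syl V r G) K,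
      ∃ a ∈ cen (cen (syl V r G) (ZZ q (syl V q G) : Set Γ)) K,
      ∃ b ∈ cen (M₁ ⊓ syl V r G) K, x = a * b := by
  obtain ⟨A, hA⟩ : ∃ A, A = cen M (ZZ q (syl V q G) : Set Γ) := ⟨_, rfl⟩
  obtain ⟨B, hB⟩ : ∃ B, B = M ⊓ M₁ := ⟨_, rfl⟩
  have hAM : A ≤ M := hA ▸ inf_le_left
  have hBM : B ≤ M := hB ▸ inf_le_left
  have hAI : Inv V A := hA ▸ cen_inv hM.1.1.2.1 S.Zinv
  have hBI : Inv V B := hB ▸ inf_inv hM.1.1.2.1 hM₁.1.1.2.1
  have hprod : ∀ x ∈ M, ∃ a ∈ A, ∃ b ∈ B, x = a * b := by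
    intro x hx
    obtain ⟨n, hn, c, hc, hnc⟩ := S.frat hM hF hSyl x⁻¹ (inv_mem hx)
    refine ⟨c⁻¹, ?_, n⁻¹, ?_, ?_⟩
    · rw [hA]
      apply inv_mem
      rw [mem_cen] at hc ⊢
      exact ⟨hc.1, fun b hb => hc.2 b (le_CC hb)⟩
    · rw [hB]
      exact inv_mem ⟨hn.1, hle hn⟩
    · rw [← inv_inv x, hnc]
      group
  have hc := (prod_card hAM hBM).1 hprod
  have hMG := hM.1.1.1
  have hABI : Inv V (A ⊓ B) := inf_inv hAI hBI
  have hABG : A ⊓ B ≤ G := inf_le_left.trans (hAM.trans hMG)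
  have hcr : Nat.card (A ⊓ syl V r G : Subgroup Γ) * Nat.card (B ⊓ syl V r G : Subgroup Γ) =
      Nat.card (M ⊓ syl V r G : Subgroup Γ) *
        Nat.card ((A ⊓ syl V r G) ⊓ (B ⊓ syl V r G) : Subgroup Γ) := by
    have e : (A ⊓ syl V r G) ⊓ (B ⊓ syl V r G) = (A ⊓ B) ⊓ syl V r G := by
      rw [inf_inf_inf_comm, inf_idem]
    rw [e, S.card_syl hSyl (hAM.trans hMG) hAI, S.card_syl hSyl (hBM.trans hMG) hBI,
      S.card_syl hSyl hMG hM.1.1.2.1, S.card_syl hSyl hABG hABI, ← pow_add, ← pow_add]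
    congr 1
    have h1 : (Nat.card A * Nat.card B).factorization r =
        (Nat.card M * Nat.card (A ⊓ B : Subgroup Γ)).factorization r := by rw [hc]
    rw [Nat.factorization_mul Nat.card_pos.ne' Nat.card_pos.ne',
      Nat.factorization_mul Nat.card_pos.ne' Nat.card_pos.ne'] at h1
    exact h1
  have hprod2 := (prod_card (inf_le_inf_right _ hAM) (inf_le_inf_right _ hBM)).2 hcr
  intro K hK x hx
  obtain ⟨a, ha, b, hb, rfl⟩ := hprod2 x (mem_cen.1 hx).1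
  have hKp : IsPGroup p K := fun v => ⟨1, by
    ext
    simpa using S.B.elAb'.exp v.1 (hK v.2)⟩
  have hSr := S.L'.sq.2.1
  obtain ⟨a', ha', b', hb', hab⟩ := hProd Γ p K (A ⊓ syl V r G) (B ⊓ syl V r G) a b
    S.B.elAb'.prime hKp (hK.trans (inf_inv hAI hSr)) (hK.trans (inf_inv hBI hSr))
    (fun hd => S.L.cop (hd.trans (card_dvd_of_le (inf_le_left.trans (hAM.trans hMG))))) ha hb
    (mem_cen.1 hx).2
  refine ⟨a', ?_, b', ?_, hab⟩
  · rw [mem_cen] at ha' ⊢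
    refine ⟨?_, ha'.2⟩
    have h1 := ha'.1
    rw [hA] at h1
    rw [mem_cen]
    exact ⟨h1.2, (mem_cen.1 h1.1).2⟩
  · rw [mem_cen] at hb' ⊢
    refine ⟨?_, hb'.2⟩
    have h1 := hb'.1
    rw [hB] at h1
    exact ⟨h1.1.2, h1.2⟩

end Sit

end D7

theorem d7 (hLoc : StmtLoc) (hTA : StmtTA) (hF : StmtF) (hProd : StmtProd) (_hCore : StmtCore)
    (hSyl : StmtSyl) : StmtW := by
  intro Γ _ _ p q r V G hB _ hD
  obtain ⟨hB', hL, hL'⟩ := hLoc Γ p q r V G hB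
  have S : Sit p q r V G := ⟨hB, hL, hL', hTA Γ p q r V G hB, hD⟩
  -- the maximal one
  have hfin : {M : Subgroup Γ | Mq V G q r M}.Finite := Set.toFinite _
  have hne : {M : Subgroup Γ | Mq V G q r M}.Nonempty := by
    obtain ⟨M, hM, hle⟩ := S.L.mx _ S.L.sq.2.2.2.2.2
    exact ⟨M, S.type_of_Z ZZ_le hle hM⟩
  obtain ⟨MJ, hMJ, hmax⟩ := hfin.exists_maximalFor
    (fun M : Subgroup Γ => Nat.card (WW V G q M)) _ hne
  have hmax' : ∀ M, Mq V G q r M → Nat.card (WW V G q M) ≤ Nat.card (WW V G q MJ) := by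
    intro M hM
    rcases le_total (Nat.card (WW V G q MJ)) (Nat.card (WW V G q M)) with h | h
    · exact hmax hM h
    · exact h
  obtain ⟨M₂, hM₂, -, hW₂, hEq₂⟩ := S.step hMJ hF hSyl
  have hWW : WW V G q MJ = WW V G q M₂ := Subgroup.eq_of_le_of_card_ge hW₂ (hmax' M₂ hM₂)
  obtain ⟨hS, hgen⟩ := hEq₂ hWW
  refine ⟨MJ, hMJ.1, hMJ.2, hS, S.Hn_WW hMJ, ?_⟩
  -- downward induction
  have key : ∀ n : ℕ, ∀ M, Mq V G q r M →
      Nat.card (WW V G q MJ) - Nat.card (WW V G q M) ≤ n → ∀ K ≤ V,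
      ∀ x ∈ cen (M ⊓ syl V r G) K,
      ∃ a ∈ cen (cen (syl V r G) (ZZ q (syl V q G) : Set Γ)) K,
      ∃ b ∈ cen (MJ ⊓ syl V r G) K, x = a * b := by
    intro n
    induction n with
    | zero =>
      intro M hM hn K hK x hx
      obtain ⟨M₁, hM₁, -, hW, hEq⟩ := S.step hM hF hSyl
      have h1 : WW V G q M = WW V G q M₁ := by
        apply Subgroup.eq_of_le_of_card_ge hW
        have := hmax' M₁ hM₁
        omega
      have h2 := (hEq h1).2
      rw [← hgen] at h2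
      have h3 := S.type_eq hM hMJ h2
      subst h3
      exact ⟨1, one_mem _, x, hx, by group⟩
    | succ n ih =>
      intro M hM hn K hK x hx
      obtain ⟨M₁, hM₁, hle, hW, hEq⟩ := S.step hM hF hSyl
      by_cases h1 : WW V G q M = WW V G q M₁
      · have h2 := (hEq h1).2
        rw [← hgen] at h2
        have h3 := S.type_eq hM hMJ h2
        subst h3
        exact ⟨1, one_mem _, x, hx, by group⟩
      · obtain ⟨a, ha, b, hb, rfl⟩ := S.decomp hM hF hSyl hProd hM₁ hle K hK x hx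
        have hlt : Nat.card (WW V G q M) < Nat.card (WW V G q M₁) := by
          by_contra hcon
          exact h1 (Subgroup.eq_of_le_of_card_ge hW (not_lt.1 hcon))
        obtain ⟨a₂, ha₂, b₂, hb₂, rfl⟩ := ih M₁ hM₁ (by
          have := hmax' M₁ hM₁
          omega) K hK b hb
        exact ⟨a * a₂, mul_mem ha ha₂, b₂, hb₂, by group⟩
  intro M hM hr K hK x hx
  exact key _ M ⟨hM, hr⟩ le_rfl K hK x hx

end Pool.Agent.T6.H88.FP
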