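import Pool.Agent.T6.H88.FP.Tools

/-! # Project FP, module D8 -/

namespace Pool.Agent.T6.H88.FP

open Subgroup

lemma mem_WW {Γ : Type} [Group Γ] {V G M : Subgroup Γ} {q : ℕ} {m z : Γ} (hm : m ∈ M)
    (hz : z ∈ ZZ q (syl V q G)) : m * z * m⁻¹ ∈ WW V G q M := by
  have h : (ZZ q (syl V q G)).map (MulAut.conj m).toMonoidHom ≤ WW V G q M :=
    le_iSup₂ (f := fun m (_ : m ∈ M) => (ZZ q (syl V q G)).map (MulAut.conj m).toMonoidHom) m hm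
  exact h ⟨z, hz, rfl⟩

lemma WW_le {Γ : Type} [Group Γ] {V G M X : Subgroup Γ} {q : ℕ}
    (h : ∀ m ∈ M, ∀ z ∈ ZZ q (syl V q G), m * z * m⁻¹ ∈ X) : WW V G q M ≤ X := by
  unfold WW
  refine iSup₂_le fun m hm => ?_
  rintro _ ⟨z, hz, rfl⟩
  exact h m hm z hz

lemma inv_WW {Γ : Type} [Group Γ] {V G M S : Subgroup Γ} {q : ℕ}
    (h : ∀ s ∈ S, ∀ m ∈ M, ∀ z ∈ ZZ q (syl V q G), s * (m * z * m⁻¹) * s⁻¹ ∈ WW V G q M) :
    Inv S (WW V G q M) := by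
  rw [inv_iff]
  intro s hs x hx
  have h1 : (WW V G q M).map (MulAut.conj s).toMonoidHom ≤ WW V G q M := by
    conv_lhs => unfold WW
    rw [Subgroup.map_iSup]
    refine iSup_le fun m => ?_
    rw [Subgroup.map_iSup]
    refine iSup_le fun hm => ?_
    rintro _ ⟨_, ⟨z, hz, rfl⟩, rfl⟩
    exact h s hs m hm z hz
  exact h1 ⟨x, hx, rfl⟩

lemma card_dvd_sq {Γ : Type} [Group Γ] [Finite Γ] {p : ℕ} {V K L : Subgroup Γ}
    (hV : ElAb p V) (hK : K.relIndex V = p) (hL : L.relIndex V = p) (h : K ⊓ L = ⊥) :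
    Nat.card V ∣ p ^ 2 := by
  have h1 : (K ⊓ L).relIndex V ≤ K.relIndex V * L.relIndex V := relIndex_inf_le
  rw [h, relIndex_bot_left, hK, hL] at h1
  have : Fact p.Prime := ⟨hV.prime⟩
  obtain ⟨n, hn⟩ := IsPGroup.iff_card.1 hV.isPGroup
  rw [hn] at h1 ⊢
  apply pow_dvd_pow
  have h2 : p ^ n ≤ p ^ 2 := by rw [pow_two]; exact h1
  exact (Nat.pow_le_pow_iff_right hV.prime.one_lt).1 h2

theorem d8_core (hLoc : StmtLoc) (hW : StmtW) (hAB : StmtAB) (Γ : Type) [Group Γ] [Finite Γ]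
    (p q r : ℕ) (V G : Subgroup Γ) (B : Bad p q r V G) (hbig : ¬ Nat.card V ∣ p ^ 2)
    (hD : Dom p q r V G) : False := by
  obtain ⟨MJ, hMJ, hcore, hSq, hHn, hdec⟩ := hW Γ p q r V G B hbig hD
  obtain ⟨Bs, L1, L2⟩ := hLoc Γ p q r V G B
  have hE := B.elAb'
  set S := syl V r G with hS
  set Z := ZZ q (syl V q G) with hZ
  have hSG : S ≤ G := L2.sq.1
  have hSV : Inv V S := L2.sq.2.1
  have hSL : LL V G q r S := L2.symL _ L2.sq.2.2.2.2.2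
  have hZV : Inv V Z := inv_ZZ L1.sq.2.1
  have hAV : Inv V (cen S (Z : Set Γ)) := inv_cen_sub hSV hZV
  have hBV : Inv V (MJ ⊓ S) := inv_inf hMJ.1.2.1 hSV
  have hcenS : cen S V = ⊥ := by
    rw [eq_bot_iff, ← B.fpf]
    exact inf_le_inf_right _ hSG
  obtain ⟨⟨L, hLV, hLi, hLD⟩, hD2⟩ := hD
  have key : ∀ x ∈ S, ∃ a ∈ cen S (Z : Set Γ), ∃ b ∈ MJ ⊓ S, x = a * b := by
    refine hAB Γ p V S (cen S (Z : Set Γ)) (MJ ⊓ S) hE hSV hcenS (L1.dec S hSL).1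
      inf_le_left inf_le_right hAV hBV ?_
    intro K hKV hKi x hx
    have hKL : K ⊓ L ≠ ⊥ := fun h => hbig (card_dvd_sq hE hKi hLi h)
    obtain ⟨v, hv, hv1⟩ : ∃ v : Γ, v ∈ K ⊓ L ∧ v ≠ 1 := by
      by_contra hcon
      push Not at hcon
      exact hKL ((Subgroup.eq_bot_iff_forall _).2 hcon)
    obtain ⟨M, hM, hMr, hMc⟩ := hLD v hv.2 hv1
    have hle : cen S (K : Set Γ) ≤ M := by
      refine le_trans ?_ hMc
      refine L1.le_cn _ (hSL.mono inf_le_left (inv_cen_elab hE hSV hKV)) v (hLV hv.2) hv1 ?_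
      refine inf_le_right.trans (centralizer_le ?_)
      rw [Set.singleton_subset_iff]
      exact hv.1
    refine hdec M hM hMr K hKV x ?_
    rw [mem_cen] at hx ⊢
    exact ⟨⟨hle (mem_cen.2 hx), hx.1⟩, hx.2⟩
  have hSZ : ∀ s ∈ syl V q G, ∀ z ∈ Z, s * z = z * s := fun s hs z hz => ZZ_comm hs hz
  have hgen : ∀ m ∈ MJ, ∃ b ∈ MJ ⊓ S, ∀ z ∈ Z, m * z * m⁻¹ = b * z * b⁻¹ := by
    intro m hm
    obtain ⟨a₀, ha₀, b₀, hb₀, h⟩ := (L1.dec MJ hMJ.1).2 m⁻¹ (MJ.inv_mem hm)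
    refine ⟨b₀⁻¹, (MJ ⊓ S).inv_mem hb₀, fun z hz => ?_⟩
    have hm' : m = b₀⁻¹ * a₀⁻¹ := by rw [← inv_inj, h]; group
    have h1 := hSZ a₀ ha₀.2 z hz
    rw [hm']
    have h2 : a₀⁻¹ * z * a₀ = z := by rw [mul_assoc, ← h1, inv_mul_cancel_left]
    calc b₀⁻¹ * a₀⁻¹ * z * (b₀⁻¹ * a₀⁻¹)⁻¹ = b₀⁻¹ * (a₀⁻¹ * z * a₀) * b₀⁻¹⁻¹ := by group
      _ = _ := by rw [h2]
  have hSW : Inv S (WW V G q MJ) := by
    refine inv_WW fun s hs m hm z hz => ?_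
    obtain ⟨b, hb, hb'⟩ := hgen m hm
    rw [hb' z hz]
    obtain ⟨a', ha', b', hb1, h⟩ := key (s * b)⁻¹ (S.inv_mem (S.mul_mem hs hb.2))
    have h1 : s * b = b'⁻¹ * a'⁻¹ := by rw [← inv_inj, h]; group
    have h2 : z * a' = a' * z := (mem_cen.1 ha').2 z hz
    have h3 : a'⁻¹ * z * a' = z := by rw [mul_assoc, h2, inv_mul_cancel_left]
    have h4 : s * (b * z * b⁻¹) * s⁻¹ = b'⁻¹ * z * b'⁻¹⁻¹ := by
      calc s * (b * z * b⁻¹) * s⁻¹ = (s * b) * z * (s * b)⁻¹ := by group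
        _ = b'⁻¹ * (a'⁻¹ * z * a') * b'⁻¹⁻¹ := by rw [h1]; group
        _ = _ := by rw [h3]
    rw [h4]
    exact mem_WW (MJ.inv_mem hb1.1) hz
  have hZS : Z ≤ syl V q G := ZZ_le.trans inf_le_left
  have hWM : WW V G q MJ ≤ MJ := WW_le fun m hm z hz =>
    MJ.mul_mem (MJ.mul_mem hm (hSq (hZS hz))) (MJ.inv_mem hm)
  have hSM : S ≤ MJ := by
    by_cases hW0 : WW V G q MJ = ⊥
    · rw [← hHn, hW0]
      unfold Hn hall
      have : normalizer ((⊥ : Subgroup Γ) : Set Γ) = ⊤ := normalizer_eq_top_iff.2 inferInstance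
      rw [this, inf_top_eq]
      exact le_sup_right
    · rw [← hHn]
      refine L1.le_nor S (WW V G q MJ) hSL hSW (hWM.trans hMJ.1.1) ?_ hW0 ?_
      · refine inv_WW fun v hv m hm z hz => ?_
        have h1 : v * (m * z * m⁻¹) * v⁻¹ =
            (v * m * v⁻¹) * (v * z * v⁻¹) * (v * m * v⁻¹)⁻¹ := by group
        rw [h1]
        exact mem_WW (inv_iff.1 hMJ.1.2.1 v hv m hm) (inv_iff.1 hZV v hv z hz)
      · intro h
        exact hMJ.1.2.2.1 (le_antisymm hMJ.1.1 (h ▸ hWM))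
  exact hMJ.1.2.2.1 (B.bad MJ hMJ.1.1 hMJ.1.2.1 hMJ.1.2.2.2 hSq hSM)

theorem d8 (hLoc : StmtLoc) (hDom : StmtDom) (hW : StmtW) (hAB : StmtAB) : StmtTB3 := by
  intro Γ _ _ p q r V G B hbig
  rcases hDom Γ p q r V G B hbig with h | h
  · exact d8_core hLoc hW hAB Γ p q r V G B hbig h
  · exact d8_core hLoc hW hAB Γ p r q V G (hLoc Γ p q r V G B).1 hbig h

end Pool.Agent.T6.H88.FP
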