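import Pool.Agent.T6.H88.FP.Tools

/-! # Project FP, module D9: the theorems of P. Hall and of Wielandt -/

namespace Pool.Agent.T6.H88.FP

open Subgroup

namespace D9

variable {Γ : Type} [Group Γ]

/-- `A` and `B` permute -/
def Pm (A B : Subgroup Γ) : Prop := ∀ b ∈ B, ∀ a ∈ A, ∃ a' ∈ A, ∃ b' ∈ B, b * a = a' * b'

lemma sup_ind {A B : Subgroup Γ} {C : Γ → Prop} (hA : ∀ x ∈ A, C x) (hB : ∀ x ∈ B, C x)
    (mul : ∀ x y, C x → C y → C (x * y)) : ∀ x ∈ A ⊔ B, C x := by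
  intro x hx
  rw [sup_eq_iSup] at hx
  refine Subgroup.iSup_induction (C := C) _ hx ?_ (hA 1 A.one_mem) mul
  intro i y hy
  cases i
  · exact hB y hy
  · exact hA y hy

lemma pm_bot (A : Subgroup Γ) : Pm A ⊥ := by
  intro b hb a ha
  rw [mem_bot] at hb
  subst hb
  exact ⟨a, ha, 1, Subgroup.one_mem _, by simp⟩

lemma pm_sup {A B C : Subgroup Γ} (hB : Pm A B) (hC : Pm A C) : Pm A (B ⊔ C) := by
  intro b hb
  refine sup_ind (A := B) (B := C)
    (C := fun x => ∀ a ∈ A, ∃ a' ∈ A, ∃ b' ∈ B ⊔ C, x * a = a' * b') ?_ ?_ ?_ b hb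
  · intro x hx a ha
    obtain ⟨a', ha', b', hb', h⟩ := hB x hx a ha
    exact ⟨a', ha', b', (le_sup_left : B ≤ B ⊔ C) hb', h⟩
  · intro x hx a ha
    obtain ⟨a', ha', b', hb', h⟩ := hC x hx a ha
    exact ⟨a', ha', b', (le_sup_right : C ≤ B ⊔ C) hb', h⟩
  · intro x y hx hy a ha
    obtain ⟨a', ha', b', hb', h⟩ := hy a ha
    obtain ⟨a'', ha'', b'', hb'', h'⟩ := hx a' ha'
    refine ⟨a'', ha'', b'' * b', Subgroup.mul_mem _ hb'' hb', ?_⟩
    rw [mul_assoc, h, ← mul_assoc, h', mul_assoc]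

lemma pm_mem {A B : Subgroup Γ} (h : Pm A B) : ∀ x ∈ A ⊔ B, ∃ a ∈ A, ∃ b ∈ B, x = a * b := by
  refine sup_ind ?_ ?_ ?_
  · intro x hx
    exact ⟨x, hx, 1, B.one_mem, by simp⟩
  · intro x hx
    exact ⟨1, A.one_mem, x, hx, by simp⟩
  · rintro _ _ ⟨a, ha, b, hb, rfl⟩ ⟨c, hc, d, hd, rfl⟩
    obtain ⟨c', hc', b', hb', h'⟩ := h b hb c hc
    refine ⟨a * c', A.mul_mem ha hc', b' * d, B.mul_mem hb' hd, ?_⟩
    calc a * b * (c * d) = a * (b * c) * d := by group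
      _ = a * (c' * b') * d := by rw [h']
      _ = a * c' * (b' * d) := by group

lemma card_sup [Finite Γ] {A B : Subgroup Γ} (h : Pm A B)
    (hc : Nat.Coprime (Nat.card A) (Nat.card B)) :
    Nat.card (A ⊔ B : Subgroup Γ) = Nat.card A * Nat.card B := by
  apply le_antisymm
  · rw [← Nat.card_prod]
    refine Nat.card_le_card_of_surjective
      (fun z : A × B => (⟨z.1.1 * z.2.1, Subgroup.mul_mem _ ((le_sup_left : A ≤ A ⊔ B) z.1.2)
        ((le_sup_right : B ≤ A ⊔ B) z.2.2)⟩ : (A ⊔ B : Subgroup Γ))) ?_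
    rintro ⟨x, hx⟩
    obtain ⟨a, ha, b, hb, rfl⟩ := pm_mem h x hx
    exact ⟨(⟨a, ha⟩, ⟨b, hb⟩), rfl⟩
  · refine Nat.le_of_dvd Nat.card_pos ?_
    exact Nat.Coprime.mul_dvd_of_dvd_of_dvd hc (card_dvd_of_le le_sup_left)
      (card_dvd_of_le le_sup_right)

lemma card_fin [Finite Γ] (S : ℕ → Subgroup Γ) (F : Finset ℕ)
    (hp : ∀ q ∈ F, q.Prime ∧ IsPGroup q (S q)) (h : ∀ q ∈ F, ∀ r ∈ F, q ≠ r → Pm (S q) (S r)) :
    Nat.card (F.sup S : Subgroup Γ) = ∏ q ∈ F, Nat.card (S q) := by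
  induction F using Finset.induction_on with
  | empty => simp
  | insert q F hq ih =>
    have ih' := ih (fun r hr => hp r (Finset.mem_insert_of_mem hr))
      (fun r hr s hs => h r (Finset.mem_insert_of_mem hr) s (Finset.mem_insert_of_mem hs))
    rw [Finset.sup_insert, Finset.prod_insert hq, ← ih']
    apply card_sup
    · refine Finset.sup_induction (p := fun B => Pm (S q) B) (pm_bot _) (fun _ h1 _ h2 => pm_sup h1 h2) ?_
      intro r hr
      refine h q (Finset.mem_insert_self _ _) r (Finset.mem_insert_of_mem hr) ?_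
      rintro rfl
      exact hq hr
    · rw [ih']
      refine Nat.Coprime.prod_right fun r hr => ?_
      obtain ⟨hq1, hq2⟩ := hp q (Finset.mem_insert_self _ _)
      obtain ⟨hr1, hr2⟩ := hp r (Finset.mem_insert_of_mem hr)
      have := Fact.mk hq1
      have := Fact.mk hr1
      obtain ⟨k, hk⟩ := IsPGroup.iff_card.1 hq2
      obtain ⟨l, hl⟩ := IsPGroup.iff_card.1 hr2
      rw [hk, hl]
      refine Nat.Coprime.pow _ _ ((Nat.coprime_primes hq1 hr1).2 ?_)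
      rintro rfl
      exact hq hr

lemma inv_sup {V A B : Subgroup Γ} (hA : Inv V A) (hB : Inv V B) : Inv V (A ⊔ B) := by
  rw [inv_iff]
  intro v hv x hx
  have h1 : (A ⊔ B).map (MulAut.conj v).toMonoidHom ≤ A ⊔ B := by
    rw [Subgroup.map_sup]
    exact sup_le_sup (inv_map hA hv) (inv_map hB hv)
  exact h1 ⟨x, hx, rfl⟩

lemma inv_bot (V : Subgroup Γ) : Inv V ⊥ := by
  rw [inv_iff]
  intro v _ x hx
  rw [mem_bot] at *
  rw [hx]
  group

lemma inv_comm {V A : Subgroup Γ} (hA : Inv V A) : Inv V ⁅A, A⁆ := by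
  rw [inv_iff]
  intro v hv x hx
  have h1 : (⁅A, A⁆ : Subgroup Γ).map (MulAut.conj v).toMonoidHom ≤ ⁅A, A⁆ := by
    rw [Subgroup.map_commutator, inv_map_eq hA hv]
  exact h1 ⟨x, hx, rfl⟩

/-- a nontrivial soluble group has a nontrivial invariant `r`-subgroup -/
lemma exists_min [Finite Γ] {V X : Subgroup Γ} (hX : X ≠ ⊥) (hV : Inv V X)
    (hs : Group.IsSolvable X) :
    ∃ r : ℕ, r.Prime ∧ ∃ M ≤ X, M ≠ ⊥ ∧ Inv X M ∧ Inv V M ∧ IsPGroup r M := by
  obtain ⟨M, ⟨hM1, hM2, hM3, hM4⟩, hM5⟩ := WellFounded.has_min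
    (wellFounded_lt : WellFounded ((· < ·) : Subgroup Γ → Subgroup Γ → Prop))
    {M | M ≤ X ∧ M ≠ ⊥ ∧ Inv X M ∧ Inv V M} ⟨X, le_rfl, hX, inv_self, hV⟩
  have hMs : Group.IsSolvable M :=
    Group.isSolvable_of_isSolvable_injective (Subgroup.inclusion_injective hM1)
  have hlt : (⁅M, M⁆ : Subgroup Γ) < M := by
    refine lt_of_le_of_ne (Subgroup.commutator_le_self M) fun he => ?_
    have : Nontrivial M := (Subgroup.nontrivial_iff_ne_bot M).2 hM2
    have h1 := Group.IsSolvable.commutator_lt_top_of_nontrivial (G := M)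
    apply h1.ne
    apply Subgroup.map_injective (Subgroup.subtype_injective M)
    rw [Subgroup.map_subtype_commutator, he, ← MonoidHom.range_eq_map, Subgroup.range_subtype]
  have hbot : (⁅M, M⁆ : Subgroup Γ) = ⊥ := by
    by_contra hne
    exact hM5 _ ⟨(Subgroup.commutator_le_self M).trans hM1, hne, inv_comm hM3, inv_comm hM4⟩ hlt
  have hab : ∀ x ∈ M, ∀ y ∈ M, y * x = x * y := by
    intro x hx y hy
    have := (Subgroup.commutator_eq_bot_iff_le_centralizer.1 hbot) hx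
    exact Subgroup.mem_centralizer_iff.1 this y hy
  have hcard : Nat.card M ≠ 1 := by
    intro h
    exact hM2 (Subgroup.card_eq_one.1 h)
  obtain ⟨r, hr, hrd⟩ := Nat.exists_prime_and_dvd hcard
  have := Fact.mk hr
  obtain ⟨x, hx⟩ := exists_prime_orderOf_dvd_card' r hrd
  refine ⟨r, hr, ⟨⟨⟨{x | x ∈ M ∧ x ^ r = 1}, ?_⟩, ?_⟩, ?_⟩, ?_, ?_, ?_, ?_, ?_⟩
  · rintro a b ⟨ha, ha'⟩ ⟨hb, hb'⟩
    refine ⟨M.mul_mem ha hb, ?_⟩
    have : Commute a b := (hab a ha b hb).symm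
    rw [this.mul_pow, ha', hb', one_mul]
  · exact ⟨M.one_mem, one_pow _⟩
  · rintro a ⟨ha, ha'⟩
    refine ⟨M.inv_mem ha, ?_⟩
    rw [inv_pow, ha', inv_one]
  · rintro a ⟨ha, _⟩
    exact hM1 ha
  · intro hb
    have h1 : (x : Γ) ∈ (⊥ : Subgroup Γ) := by
      rw [← hb]
      refine ⟨x.2, ?_⟩
      have := pow_orderOf_eq_one x
      rw [hx] at this
      exact_mod_cast congrArg Subtype.val this
    rw [mem_bot] at h1
    have h2 : x = 1 := Subtype.ext h1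
    rw [h2, orderOf_one] at hx
    exact hr.one_lt.ne hx
  · rw [inv_iff]
    rintro v hv a ⟨ha, ha'⟩
    refine ⟨inv_iff.1 hM3 v hv a ha, ?_⟩
    rw [conj_pow, ha']
    group
  · rw [inv_iff]
    rintro v hv a ⟨ha, ha'⟩
    refine ⟨inv_iff.1 hM4 v hv a ha, ?_⟩
    rw [conj_pow, ha']
    group
  · rintro ⟨a, ha, ha'⟩
    refine ⟨1, ?_⟩
    rw [pow_one]
    exact Subtype.ext ha'

end D9

open D9 in
theorem d9 (_hCop : StmtCop) (hSyl : StmtSyl) (hHall : StmtHall) : StmtHW := by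
  intro Γ _ _ p V G hE hI hF hsol hsimp hbad
  by_contra hns
  set P := (Nat.card G).primeFactors with hP
  set S : ℕ → Subgroup Γ := fun q => syl V q G with hS
  have hmemP : ∀ {q}, q ∈ P ↔ q.Prime ∧ q ∣ Nat.card G := by
    intro q
    rw [hP, Nat.mem_primeFactors]
    exact ⟨fun h => ⟨h.1, h.2.1⟩, fun h => ⟨h.1, h.2, Nat.card_pos.ne'⟩⟩
  have hcenX : ∀ X ≤ G, cen X V = ⊥ := by
    intro X hX
    rw [eq_bot_iff, ← hF]
    exact inf_le_inf_right _ hX
  -- a subgroup containing all Sylow subgroups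
  have hfull : ∀ X ≤ G, (∀ q ∈ P, S q ≤ X) → X = G := by
    intro X hX h
    apply le_antisymm hX
    rw [← Subgroup.relIndex_eq_one]
    by_contra hne
    obtain ⟨s, hs, hsd⟩ := Nat.exists_prime_and_dvd hne
    have hsG : s ∣ Nat.card G := hsd.trans (Subgroup.relIndex_dvd_card X G)
    obtain ⟨h1, h2, h3, h4, h5⟩ := hSyl Γ p V G s hE hI hF hs
    exact h4 (hsd.trans (Subgroup.relIndex_dvd_of_le_left G (h s (hmemP.2 ⟨hs, hsG⟩))))
  -- three primes
  have hA : ∀ q, ∃ t ∈ P, t ≠ q := by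
    intro q
    by_contra hno
    push Not at hno
    apply hns
    have h1 : ∀ {d : ℕ}, Nat.Prime d → d ∣ Nat.card G → d = q := by
      intro d hd hd'
      exact hno d (hmemP.2 ⟨hd, hd'⟩)
    have h2 := Nat.eq_prime_pow_of_unique_prime_dvd Nat.card_pos.ne' h1
    by_cases hq : q.Prime
    · have := Fact.mk hq
      have h3 : IsPGroup q G := IsPGroup.of_card h2
      have := h3.isNilpotent
      infer_instance
    · have h4 : Nat.card G = 1 := by
        by_contra hne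
        obtain ⟨s, hs, hsd⟩ := Nat.exists_prime_and_dvd hne
        exact hq (h1 hs hsd ▸ hs)
      have h5 : G = ⊥ := Subgroup.card_eq_one.1 h4
      rw [h5]
      infer_instance
  obtain ⟨t1, ht1, -⟩ := hA 0
  obtain ⟨t2, ht2, h21⟩ := hA t1
  have h3 : ∃ t ∈ P, t ≠ t1 ∧ t ≠ t2 := by
    by_contra hno
    push Not at hno
    obtain ⟨X, hX1, hX2, hX3, hX4, hX5⟩ := hbad t1 t2 (hmemP.1 ht1).1 (hmemP.1 ht2).1 h21.symm
      (hmemP.1 ht1).2 (hmemP.1 ht2).2
    apply hX3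
    apply hfull X hX1
    intro q hq
    by_cases h : q = t1
    · rw [h]
      exact hX4
    · rw [hno q hq h]
      exact hX5
  obtain ⟨t3, ht3, h31, h32⟩ := h3
  -- the Sylow subgroups permute
  have hperm : ∀ q ∈ P, ∀ r ∈ P, q ≠ r → Pm (S q) (S r) := by
    intro q hq r hr hqr
    obtain ⟨hq1, hq2⟩ := hmemP.1 hq
    obtain ⟨hr1, hr2⟩ := hmemP.1 hr
    obtain ⟨X, hX1, hX2, hX3, hX4, hX5⟩ := hbad q r hq1 hr1 hqr hq2 hr2
    obtain ⟨k1, -⟩ := hHall Γ p V X q r hE hX2 (hcenX X hX1) (hsol X hX1 hX2 hX3) hq1 hr1 hqr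
    have e1 : syl V q X = S q := by
      rw [(hSyl Γ p V G q hE hI hF hq1).2.2.2.2 X hX1 hX2]
      exact inf_eq_right.2 hX4
    have e2 : syl V r X = S r := by
      rw [(hSyl Γ p V G r hE hI hF hr1).2.2.2.2 X hX1 hX2]
      exact inf_eq_right.2 hX5
    unfold hall at k1
    rw [e1, e2] at k1
    intro b hb a ha
    exact k1 _ (Subgroup.mul_mem _ ((le_sup_right : S r ≤ S q ⊔ S r) hb)
      ((le_sup_left : S q ≤ S q ⊔ S r) ha))
  have hSp : ∀ q ∈ P, q.Prime ∧ IsPGroup q (S q) := fun q hq =>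
    ⟨(hmemP.1 hq).1, (hSyl Γ p V G q hE hI hF (hmemP.1 hq).1).2.2.1⟩
  have hSG : ∀ q ∈ P, S q ≤ G := fun q hq => (hSyl Γ p V G q hE hI hF (hmemP.1 hq).1).1
  have hSV : ∀ q ∈ P, Inv V (S q) := fun q hq => (hSyl Γ p V G q hE hI hF (hmemP.1 hq).1).2.1
  set H : ℕ → Subgroup Γ := fun t => (P.erase t).sup S with hH
  have hHG : ∀ t, H t ≤ G := fun t => Finset.sup_le fun q hq => hSG q (Finset.mem_of_mem_erase hq)
  have hHV : ∀ t, Inv V (H t) := fun t =>
    Finset.sup_induction (p := fun B => Inv V B) (inv_bot V) (fun _ h1 _ h2 => inv_sup h1 h2)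
      fun q hq => hSV q (Finset.mem_of_mem_erase hq)
  have hSH : ∀ t, ∀ q ∈ P, q ≠ t → S q ≤ H t := fun t q hq hqt =>
    Finset.le_sup (f := S) (Finset.mem_erase.2 ⟨hqt, hq⟩)
  have hHne : ∀ t ∈ P, H t ≠ G := by
    intro t ht he
    have h1 : t ∣ Nat.card (H t) := by
      rw [he]
      exact (hmemP.1 ht).2
    rw [hH] at h1
    simp only at h1
    rw [card_fin S (P.erase t) (fun q hq => hSp q (Finset.mem_of_mem_erase hq))
      (fun q hq r hr => hperm q (Finset.mem_of_mem_erase hq) r (Finset.mem_of_mem_erase hr)),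
      Prime.dvd_finsetProd_iff (hmemP.1 ht).1.prime] at h1
    obtain ⟨q, hq, hqd⟩ := h1
    obtain ⟨hq1, hq2⟩ := hSp q (Finset.mem_of_mem_erase hq)
    have := Fact.mk hq1
    obtain ⟨k, hk⟩ := IsPGroup.iff_card.1 hq2
    rw [hk] at hqd
    have h2 := (hmemP.1 ht).1.dvd_of_dvd_pow hqd
    exact (Finset.mem_erase.1 hq).1 ((Nat.prime_dvd_prime_iff_eq (hmemP.1 ht).1 hq1).1 h2).symm
  have hdec : ∀ t ∈ P, ∀ g ∈ G, ∃ s ∈ S t, ∃ h ∈ H t, g = s * h := by
    intro t ht g hg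
    have h1 : S t ⊔ H t = G := by
      apply hfull
      · exact sup_le (hSG t ht) (hHG t)
      · intro q hq
        by_cases hqt : q = t
        · rw [hqt]
          exact le_sup_left
        · exact (hSH t q hq hqt).trans le_sup_right
    apply pm_mem _ g
    · rw [h1]
      exact hg
    · refine Finset.sup_induction (p := fun B => Pm (S t) B) (pm_bot _)
        (fun _ h1 _ h2 => pm_sup h1 h2) ?_
      intro r hr
      exact hperm t ht r (Finset.mem_of_mem_erase hr) (Finset.mem_erase.1 hr).1.symm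
  -- an invariant subgroup of `H t1`
  have hne : H t1 ≠ ⊥ := by
    intro h0
    have h1 : S t2 = ⊥ := by
      rw [eq_bot_iff, ← h0]
      exact hSH t1 t2 ht2 h21
    obtain ⟨k1, k2, k3, k4, k5⟩ := hSyl Γ p V G t2 hE hI hF (hmemP.1 ht2).1
    apply k4
    have h2 : syl V t2 G = ⊥ := h1
    rw [h2, Subgroup.relIndex_bot_left]
    exact (hmemP.1 ht2).2
  obtain ⟨r, hr, M, hM1, hM2, hM3, hM4, hM5⟩ := exists_min hne (hHV t1)
    (hsol (H t1) (hHG t1) (hHV t1) (hHne t1 ht1))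
  have hrP : r ∈ P := by
    rw [hmemP]
    refine ⟨hr, ?_⟩
    have := Fact.mk hr
    obtain ⟨k, hk⟩ := IsPGroup.iff_card.1 hM5
    have hk0 : k ≠ 0 := by
      rintro rfl
      rw [pow_zero] at hk
      exact hM2 (Subgroup.card_eq_one.1 hk)
    have h1 : r ∣ Nat.card M := by
      rw [hk]
      exact dvd_pow_self r hk0
    exact h1.trans (card_dvd_of_le (hM1.trans (hHG t1)))
  have hMS : M ≤ S r := le_sSup ⟨hM1.trans (hHG t1), hM4, hM5⟩
  obtain ⟨j, hj, hj1, hjr⟩ : ∃ j ∈ P, j ≠ t1 ∧ r ≠ j := by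
    by_cases h : r = t2
    · exact ⟨t3, ht3, h31, by rw [h]; exact h32.symm⟩
    · exact ⟨t2, ht2, h21, h⟩
  have hMj : M ≤ H j := hMS.trans (hSH j r hrP hjr)
  -- its normal closure
  set N : Subgroup Γ := ⨆ g : G, M.map (MulAut.conj (g : Γ)).toMonoidHom with hN
  have hNH : N ≤ H j := by
    refine iSup_le ?_
    rintro ⟨g, hg⟩
    obtain ⟨s, hs, h, hh, rfl⟩ := hdec t1 ht1 g hg
    rintro _ ⟨m, hm, rfl⟩
    have h1 : h * m * h⁻¹ ∈ M := inv_iff.1 hM3 h hh m hm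
    have h2 : s ∈ H j := hSH j t1 ht1 hj1.symm hs
    have h3 := (H j).mul_mem ((H j).mul_mem h2 (hMj h1)) ((H j).inv_mem h2)
    have h4 : s * (h * m * h⁻¹) * s⁻¹ = (MulAut.conj (s * h)).toMonoidHom m := by
      simp [mul_assoc]
    rw [← h4]
    exact h3
  have hNG : Inv G N := by
    rw [inv_iff]
    intro v hv x hx
    have h1 : N.map (MulAut.conj v).toMonoidHom ≤ N := by
      rw [hN, Subgroup.map_iSup]
      refine iSup_le ?_
      rintro ⟨g, hg⟩
      rintro _ ⟨_, ⟨m, hm, rfl⟩, rfl⟩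
      refine (le_iSup (fun g : G => M.map (MulAut.conj (g : Γ)).toMonoidHom)
        ⟨v * g, G.mul_mem hv hg⟩) ⟨m, hm, ?_⟩
      simp [mul_assoc]
    exact h1 ⟨x, hx, rfl⟩
  have hNV : Inv V N := by
    rw [inv_iff]
    intro v hv x hx
    have h1 : N.map (MulAut.conj v).toMonoidHom ≤ N := by
      rw [hN, Subgroup.map_iSup]
      refine iSup_le ?_
      rintro ⟨g, hg⟩
      rintro _ ⟨_, ⟨m, hm, rfl⟩, rfl⟩
      refine (le_iSup (fun g : G => M.map (MulAut.conj (g : Γ)).toMonoidHom)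
        ⟨v * g * v⁻¹, inv_iff.1 hI v hv g hg⟩) ⟨v * m * v⁻¹, inv_iff.1 hM4 v hv m hm, ?_⟩
      simp [mul_assoc]
    exact h1 ⟨x, hx, rfl⟩
  rcases hsimp N (hNH.trans (hHG j)) hNV hNG with h | h
  · apply hM2
    rw [eq_bot_iff, ← h]
    refine le_trans ?_ (le_iSup (fun g : G => M.map (MulAut.conj (g : Γ)).toMonoidHom) 1)
    intro m hm
    exact ⟨m, hm, by simp⟩
  · apply hHne j hj
    exact le_antisymm (hHG j) (h ▸ hNH)

end Pool.Agent.T6.H88.FP
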