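import Pool.Agent.T6.H88.FP.Defs

/-! # Project FP, module E1: translation to the semidirect product -/

namespace Pool.Agent.T6.H88.FP

open Subgroup

lemma act_eq {G V : Type} [Group G] [CommGroup V] [MulDistribMulAction V G] (v : V) (g : G) :
    (SemidirectProduct.inr v : G ⋊[MulDistribMulAction.toMulAut V G] V) *
      SemidirectProduct.inl g * (SemidirectProduct.inr v)⁻¹ = SemidirectProduct.inl (v • g) := by
  rw [← map_inv, ← SemidirectProduct.inl_aut]
  rfl

theorem e1_core {p : ℕ} (hp : p.Prime) (G : Type) [Group G] [Finite G] (V : Type) [CommGroup V]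
    [Finite V] [MulDistribMulAction V G] (hV : Nontrivial V) (hexp : ∀ v : V, v ^ p = 1)
    (hfix : ∀ g : G, (∀ v : V, v • g = g) → g = 1)
    (hM : StmtMainSol)
    (hS : ∀ (Γ : Type) [Group Γ] [Finite Γ] (G' V' : Subgroup Γ), Nonempty (G' ≃* G) →
      ElAb p V' → Inv V' G' → cen G' V' = ⊥ → Group.IsSolvable G') :
    Group.IsNilpotent
        (↥((⨅ (v : V) (_ : v ≠ 1),
          Subgroup.closure {x : G | ∃ g : G, x = g⁻¹ * (v • g)}) : Subgroup G)) := by
  classical
  let φ := MulDistribMulAction.toMulAut V G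
  let Γ := G ⋊[φ] V
  have : Finite Γ := Finite.of_equiv (G × V) SemidirectProduct.equivProd.symm
  let G' : Subgroup Γ := (SemidirectProduct.inl : G →* Γ).range
  let V' : Subgroup Γ := (SemidirectProduct.inr : V →* Γ).range
  have hE : ElAb p V' := by
    refine ⟨hp, ?_, ?_⟩
    · rintro _ ⟨v, rfl⟩
      rw [← map_pow, hexp, map_one]
    · rintro _ ⟨v, rfl⟩ _ ⟨w, rfl⟩
      rw [← map_mul, ← map_mul, mul_comm]
  have hVne : V' ≠ ⊥ := by
    obtain ⟨v, hv⟩ := exists_ne (1 : V)
    intro h
    have h1 : (SemidirectProduct.inr v : Γ) ∈ V' := ⟨v, rfl⟩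
    rw [h, mem_bot] at h1
    exact hv (SemidirectProduct.inr_injective (by rw [h1, map_one]))
  have hN : G'.Normal := by
    have : G' = (SemidirectProduct.rightHom : Γ →* V).ker :=
      SemidirectProduct.range_inl_eq_ker_rightHom
    rw [this]; infer_instance
  have hInv : Inv V' G' := by
    unfold Inv
    rw [normalizer_eq_top_iff.2 hN]
    exact le_top
  have hcen : cen G' V' = ⊥ := by
    rw [eq_bot_iff]
    rintro x ⟨⟨g, rfl⟩, hx⟩
    rw [mem_bot]
    have hg : g = 1 := by
      apply hfix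
      intro v
      have h1 := mem_centralizer_iff.1 hx (SemidirectProduct.inr v) ⟨v, rfl⟩
      have h2 := act_eq v g
      apply SemidirectProduct.inl_injective (φ := φ)
      rw [← h2]
      change (SemidirectProduct.inr v : Γ) * SemidirectProduct.inl g * _ = _
      rw [h1, mul_assoc, mul_inv_cancel, mul_one]
    rw [hg, map_one]
  have hsol : Group.IsSolvable G' := by
    refine hS Γ G' V' ⟨?_⟩ hE hInv hcen
    exact (MonoidHom.ofInjective (f := (SemidirectProduct.inl : G →* Γ))
      SemidirectProduct.inl_injective).symm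
  have hnil := hM Γ p V' G' hE hVne hInv hcen hsol
  set H : Subgroup G := ⨅ (v : V) (_ : v ≠ 1),
    Subgroup.closure {x : G | ∃ g : G, x = g⁻¹ * (v • g)} with hH
  set H' : Subgroup Γ := ⨅ (v : Γ) (_ : v ∈ V' ∧ v ≠ 1), cm G' v with hH'
  have hle : H.map (SemidirectProduct.inl : G →* Γ) ≤ H' := by
    rw [hH']
    refine le_iInf fun w => le_iInf fun hw => ?_
    obtain ⟨⟨v, rfl⟩, hv⟩ := hw
    have hv1 : v ≠ 1 := fun h => hv (by rw [h, map_one])
    have h1 : H ≤ Subgroup.closure {x : G | ∃ g : G, x = g⁻¹ * (v • g)} := by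
      rw [hH]
      exact iInf_le_of_le v (iInf_le_of_le hv1 le_rfl)
    refine (Subgroup.map_mono h1).trans ?_
    rw [MonoidHom.map_closure, closure_le]
    rintro _ ⟨x, ⟨g, rfl⟩, rfl⟩
    have h2 : (SemidirectProduct.inl (g⁻¹ * (v • g)) : Γ) =
        (SemidirectProduct.inl g⁻¹ : Γ) * SemidirectProduct.inr v *
          (SemidirectProduct.inl g⁻¹ : Γ)⁻¹ * (SemidirectProduct.inr v : Γ)⁻¹ := by
      rw [map_mul, ← act_eq v g, map_inv, inv_inv]
      simp only [mul_assoc]
    rw [h2]
    have h3 : ∀ (K : Type) [Group K] (A B : Subgroup K) (a b : K), a ∈ A → b ∈ B →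
        a * b * a⁻¹ * b⁻¹ ∈ ⁅A, B⁆ := fun K _ A B a b ha hb => commutator_mem_commutator ha hb
    exact h3 Γ G' (zpowers (SemidirectProduct.inr v : Γ)) (SemidirectProduct.inl g⁻¹)
      (SemidirectProduct.inr v) ⟨g⁻¹, rfl⟩ (mem_zpowers _)
  let f : H →* H' := ((SemidirectProduct.inl : G →* Γ).comp H.subtype).codRestrict H'
    (fun x => hle ⟨x.1, x.2, rfl⟩)
  have hinj : Function.Injective f := by
    intro a b hab
    apply Subtype.ext
    apply SemidirectProduct.inl_injective (φ := φ)
    exact congrArg (fun x : H' => (x : Γ)) hab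
  exact Subgroup.isNilpotent_of_ker_le_center f (by rw [(MonoidHom.ker_eq_bot_iff f).2 hinj]; exact bot_le)

/-- the frozen statement -/
theorem e1 (hM : StmtMainSol) (hS : StmtSolv) : ∀ (p n : ℕ), p.Prime → 1 ≤ n →
    ∀ (G : Type) [Group G] [Finite G] (V : Type) [CommGroup V] [Finite V]
      [MulDistribMulAction V G] [FaithfulSMul V G],
      Nat.card V = p ^ n →
      (∀ v : V, v ^ p = 1) →
      (∀ g : G, (∀ v : V, v • g = g) → g = 1) →
      Group.IsNilpotent
        (↥((⨅ (v : V) (_ : v ≠ 1),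
          Subgroup.closure {x : G | ∃ g : G, x = g⁻¹ * (v • g)}) : Subgroup G)) := by
  intro p n hp hn G _ _ V _ _ _ _ hcard hexp hfix
  have hV : Nontrivial V := by
    rw [← Finite.one_lt_card_iff_nontrivial, hcard]
    exact Nat.one_lt_pow (by omega) hp.one_lt
  exact e1_core hp G V hV hexp hfix hM
    (fun Γ _ _ G' V' _ hE hI hc => hS Γ p V' G' hE hI hc)

/-- the soluble case -/
theorem e1_sol (hM : StmtMainSol) : ∀ (p n : ℕ), p.Prime → 1 ≤ n →
    ∀ (G : Type) [Group G] [Finite G] (V : Type) [CommGroup V] [Finite V]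
      [MulDistribMulAction V G], Group.IsSolvable G →
      Nat.card V = p ^ n →
      (∀ v : V, v ^ p = 1) →
      (∀ g : G, (∀ v : V, v • g = g) → g = 1) →
      Group.IsNilpotent
        (↥((⨅ (v : V) (_ : v ≠ 1),
          Subgroup.closure {x : G | ∃ g : G, x = g⁻¹ * (v • g)}) : Subgroup G)) := by
  intro p n hp hn G _ _ V _ _ _ hsol hcard hexp hfix
  have hV : Nontrivial V := by
    rw [← Finite.one_lt_card_iff_nontrivial, hcard]
    exact Nat.one_lt_pow (by omega) hp.one_lt
  refine e1_core hp G V hV hexp hfix hM (fun Γ _ _ G' V' he _ _ _ => ?_)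
  obtain ⟨e⟩ := he
  exact Group.isSolvable_of_isSolvable_injective (f := e.toMonoidHom) e.injective

end Pool.Agent.T6.H88.FP
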