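import Pool.Agent.T6.H88.FP.A1
import Pool.Agent.T6.H88.FP.A2
import Pool.Agent.T6.H88.FP.A3
import Pool.Agent.T6.H88.FP.A4
import Pool.Agent.T6.H88.FP.A5
import Pool.Agent.T6.H88.FP.A6
import Pool.Agent.T6.H88.FP.A7
import Pool.Agent.T6.H88.FP.A9
import Pool.Agent.T6.H88.FP.A10
import Pool.Agent.T6.H88.FP.B1
import Pool.Agent.T6.H88.FP.B2a
import Pool.Agent.T6.H88.FP.B2b
import Pool.Agent.T6.H88.FP.B2c
import Pool.Agent.T6.H88.FP.B3
import Pool.Agent.T6.H88.FP.B3a
import Pool.Agent.T6.H88.FP.B4
import Pool.Agent.T6.H88.FP.B5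
import Pool.Agent.T6.H88.FP.B6
import Pool.Agent.T6.H88.FP.C1
import Pool.Agent.T6.H88.FP.C2
import Pool.Agent.T6.H88.FP.C3
import Pool.Agent.T6.H88.FP.C4
import Pool.Agent.T6.H88.FP.C5
import Pool.Agent.T6.H88.FP.C6
import Pool.Agent.T6.H88.FP.D1
import Pool.Agent.T6.H88.FP.D2
import Pool.Agent.T6.H88.FP.D3
import Pool.Agent.T6.H88.FP.D4
import Pool.Agent.T6.H88.FP.D5
import Pool.Agent.T6.H88.FP.D6
import Pool.Agent.T6.H88.FP.D7
import Pool.Agent.T6.H88.FP.D8
import Pool.Agent.T6.H88.FP.D9
import Pool.Agent.T6.H88.FP.D10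
import Pool.Agent.T6.H88.FP.E1

/-! # Project FP: assembly of the modules -/

namespace Pool.Agent.T6.H88.FP

theorem cop : StmtCop := a1.1
theorem fix : StmtFix := a1.2.1
theorem lift : StmtLift := a1.2.2.1
theorem prodT : StmtProd := a1.2.2.2.1
theorem split : StmtSplit := a1.2.2.2.2
theorem axb : StmtAxB := a2 fix split
theorem sylT : StmtSyl := a3 cop fix
theorem hallT : StmtHall := a4 cop fix sylT
theorem gen : StmtGen := (a5 lift fix).1
theorem gen2 : StmtGen2 := (a5 lift fix).2
theorem abT : StmtAB := a6 cop lift prodT gen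
theorem coreT : StmtCore := (a7 split).1
theorem lemQ : StmtQ := (a7 split).2
theorem f0 : StmtF0 := a9
theorem np : StmtNp := (a10 cop split lift gen f0).1
theorem pT : StmtP := (a10 cop split lift gen f0).2
theorem ro : StmtRO := b1 lift split
theorem wt : StmtWt := ModB2a.b2a fix ro
theorem nil : StmtNil := ModB2b.b2b lift split gen
theorem nn : StmtNN := b2c cop lift split wt nil
theorem ker : StmtKer := b3a fix ro
theorem ns : StmtNS := b3 cop split nn ker
theorem star : StmtStar := b4 ns
theorem chief : StmtChief := b5 cop lift star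
theorem off : StmtOff := c1 gen
theorem trA : StmtTrA := c2
theorem trV : StmtTrV := c3
theorem tho : StmtTho := c4 off trA axb
theorem s1 : StmtS1 := c5 sylT tho f0 cop lift
theorem fus : StmtFus := c6 fix
theorem loc : StmtLoc := d1 cop sylT hallT coreT lemQ s1
theorem uT : StmtU := d2 loc axb
theorem tA : StmtTA := d3 loc uT axb gen gen2 np fus s1 split
theorem tB2 : StmtTB2 := d4 loc tA gen2 pT np fus s1 tho chief lift split sylT
theorem fT : StmtF := d5 off trV chief coreT cop
theorem dom : StmtDom := d6 loc tA gen pT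
theorem wT : StmtW := d7 loc tA fT prodT coreT sylT
theorem tB3 : StmtTB3 := d8 loc dom wT abT
theorem hW : StmtHW := d9 cop sylT hallT

/-- a finite group with a regular elementary abelian group of automorphisms is soluble -/
theorem solv : StmtSolv := d10 cop fix lift s1 tB2 tB3 hW

/-- the soluble case of the problem -/
theorem mainSol : StmtMainSol := b6 chief

end Pool.Agent.T6.H88.FP
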