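import Pool.Agent.T6.H88.FP.B2c

/-! # Module B5 of project FP (MP_e56c9f_al): `StmtChief` -/

namespace Pool.Agent.T6.H88.FP.ModB5

open Subgroup Pool.Agent.T6.H88.FP Pool.Agent.T6.H88.FP.ModB2c

lemma elab_map {H : Type} [Group H] {G : Type} [Group G] {p : ℕ} {V : Subgroup H} (hV : ElAb p V)
    (φ : H →* G) : ElAb p (V.map φ) := by
  refine ⟨hV.prime, ?_, ?_⟩
  · rintro _ ⟨v, hv, rfl⟩
    rw [← map_pow, hV.exp v hv, map_one]
  · rintro _ ⟨v, hv, rfl⟩ _ ⟨w, hw, rfl⟩
    rw [← map_mul, ← map_mul, hV.comm v hv w hw]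

lemma inv_map {H : Type} [Group H] {G : Type} [Group G] {V X : Subgroup H} (h : Inv V X)
    (φ : H →* G) : Inv (V.map φ) (X.map φ) := by
  refine inv_iff.2 ?_
  rintro _ ⟨v, hv, rfl⟩ _ ⟨x, hx, rfl⟩
  exact ⟨v * x * v⁻¹, inv_iff.1 h v hv x hx, by simp⟩

lemma cen_map {H : Type} [Group H] [Finite H] {G : Type} [Group G] {p : ℕ} {V X : Subgroup H}
    (hLift : StmtLift) (hpX : ¬ p ∣ Nat.card X) (hV : ElAb p V) (hVX : Inv V X)
    (hcen : cen X V = ⊥) (φ : H →* G) : cen (X.map φ) (V.map φ : Subgroup G) = ⊥ := by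
  rw [eq_bot_iff]
  rintro y hy
  obtain ⟨hy1, hy2⟩ := mem_inf.1 hy
  obtain ⟨x, hx, rfl⟩ := hy1
  rw [mem_bot]
  have hpN : ¬ p ∣ Nat.card (X ⊓ φ.ker : Subgroup H) := fun h =>
    hpX (h.trans (card_dvd_of_le inf_le_left))
  have hVN : Inv V (X ⊓ φ.ker) := by
    refine inv_iff.2 fun v hv x hx => ?_
    obtain ⟨h1, h2⟩ := mem_inf.1 hx
    refine mem_inf.2 ⟨inv_iff.1 hVX v hv x h1, ?_⟩
    rw [MonoidHom.mem_ker] at h2 ⊢
    simp [h2]
  obtain ⟨n, hn, hn'⟩ := hLift H p V (X ⊓ φ.ker) x hV.prime (isPGroup_of_elab hV) hVN hpN (by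
    intro b hb
    refine mem_inf.2 ⟨X.mul_mem (X.inv_mem hx) (inv_iff.1 hVX b hb x hx), ?_⟩
    have h2 := mem_centralizer_iff.1 hy2 (φ b) (mem_map_of_mem φ hb)
    rw [MonoidHom.mem_ker]
    simp only [map_mul, map_inv]
    rw [h2]
    group)
  have h4 : x * n ∈ cen X V := by
    refine mem_inf.2 ⟨X.mul_mem hx (mem_inf.1 hn).1, mem_centralizer_iff.2 ?_⟩
    intro b hb
    exact hn' b hb
  rw [hcen, mem_bot] at h4
  have h5 : x = n⁻¹ := mul_eq_one_iff_eq_inv.1 h4
  rw [h5, map_inv, (MonoidHom.mem_ker).1 (mem_inf.1 hn).2, inv_one]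

lemma sol_map {H : Type} [Group H] {G : Type} [Group G] {X : Subgroup H} (h : Group.IsSolvable X)
    (φ : H →* G) : Group.IsSolvable (X.map φ) :=
  Group.isSolvable_of_surjective (φ.subgroupMap_surjective X)

/-- `StmtStar` transported to an action -/
lemma star' (hCop : StmtCop) (hLift : StmtLift) (hStar : StmtStar) (r p : ℕ) [hr : Fact r.Prime]
    (U : Type) [AddCommGroup U] [Module (ZMod r) U] [Finite U] [Nontrivial U] {H : Type} [Group H]
    [Finite H] (V X : Subgroup H) (φ : H →* (U ≃ₗ[ZMod r] U)) (hV : ElAb p V) (hVX : Inv V X)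
    (hcen : cen X V = ⊥) (hsol : Group.IsSolvable X)
    (hirr : ∀ N : Submodule (ZMod r) U, (∀ g ∈ X ⊔ V, ∀ n ∈ N, φ g n ∈ N) → N = ⊥ ∨ N = ⊤)
    (hfix : ∀ u : U, (∀ v ∈ V, φ v u = u) → u = 0) :
    ∃ v ∈ V, φ v ≠ 1 ∧ ∀ x ∈ X, φ v * φ x = φ x * φ v := by
  have hpX := hCop H p V X hV hVX hcen
  obtain ⟨v', ⟨v, hv, rfl⟩, hv1, hvc⟩ := hStar r p hr U (V.map φ) (X.map φ) (elab_map hV φ)
    (inv_map hVX φ) (cen_map hLift hpX hV hVX hcen φ) (sol_map hsol φ)
    (by
      intro N hN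
      apply hirr N
      intro g hg n hn
      refine hN (φ g) ?_ n hn
      rw [← Subgroup.map_sup]
      exact mem_map_of_mem φ hg)
    (fun u hu => hfix u fun v hv => hu (φ v) (mem_map_of_mem φ hv))
  exact ⟨v, hv, hv1, fun x hx => hvc _ (mem_map_of_mem φ hx)⟩

/-- additive automorphisms are linear over `ZMod r` -/
def toLin (r : ℕ) {U : Type} [AddCommGroup U] [Module (ZMod r) U] (ψ : U ≃+ U) :
    U ≃ₗ[ZMod r] U := { ψ with map_smul' := fun c x => ZMod.map_smul ψ c x }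

lemma toLin_apply (r : ℕ) {U : Type} [AddCommGroup U] [Module (ZMod r) U] (ψ : U ≃+ U) (x : U) :
    toLin r ψ x = ψ x := rfl

lemma exists_action₀ {G : Type} [Group G] (r : ℕ) (U : Type) [AddCommGroup U]
    (hexp : ∀ a : U, r • a = 0) (ψ : G → (U ≃+ U)) (hψ : ∀ a b x, ψ (a * b) x = ψ a (ψ b x)) :
    ∃ (_ : Module (ZMod r) U) (φ : G →* (U ≃ₗ[ZMod r] U)), ∀ (g : G) (t : U), φ g t = ψ g t := by
  have hM : Module (ZMod r) U := AddCommGroup.zmodModule hexp
  refine ⟨hM, MonoidHom.mk' (fun g => toLin r (ψ g)) ?_, ?_⟩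
  · intro a b
    refine LinearEquiv.ext fun x => ?_
    exact hψ a b x
  · intro g t
    rfl

/-- the conjugation action on an elementary abelian normal subgroup by linear maps -/
lemma exists_action {G : Type} [Group G] (r : ℕ) (T : Subgroup G) [T.Normal]
    (hcomm : ∀ a ∈ T, ∀ b ∈ T, a * b = b * a) (hexp : ∀ a ∈ T, a ^ r = 1) :
    ∃ (U : Type) (_ : AddCommGroup U) (_ : Module (ZMod r) U) (e : T ≃ U)
      (φ : G →* (U ≃ₗ[ZMod r] U)), (∀ a b : T, e (a * b) = e a + e b) ∧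
      ∀ g : G, ∀ t : T, ((e.symm (φ g (e t)) : T) : G) = g * t * g⁻¹ := by
  let _ : CommGroup T :=
    { (inferInstance : Group T) with
      mul_comm := fun a b => Subtype.ext (hcomm a a.2 b b.2) }
  obtain ⟨hM, φ, hφ⟩ := exists_action₀ r (Additive T)
    (fun a => by
      have h : (Additive.toMul a) ^ r = 1 :=
        Subtype.ext (by simpa using hexp _ (Additive.toMul a).2)
      exact congrArg Additive.ofMul h)
    (fun g : G => MulEquiv.toAdditive (MulAut.conjNormal (H := T) g))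
    (fun a b x => by
      change Additive.ofMul (MulAut.conjNormal (a * b) (Additive.toMul x)) =
        Additive.ofMul (MulAut.conjNormal a (MulAut.conjNormal b (Additive.toMul x)))
      rw [map_mul]
      rfl)
  refine ⟨Additive T, inferInstance, hM, Additive.ofMul, φ, fun a b => rfl, ?_⟩
  intro g t
  rw [hφ]
  exact MulAut.conjNormal_apply g t

theorem main (hCop : StmtCop) (hLift : StmtLift) (hStar : StmtStar) : StmtChief := by
  intro Γ _ _ p V X U₁ U₂ hV hVX hcen hsol hlt hU₁X hXU₁ hXU₂ hVU₁ hVU₂ hchief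
  have hpX := hCop Γ p V X hV hVX hcen
  have hU₂₁ : U₂ ≤ U₁ := hlt.le
  have hpU₂ : ¬ p ∣ Nat.card U₂ := fun h => hpX (h.trans (card_dvd_of_le (hU₂₁.trans hU₁X)))
  set H : Subgroup Γ := X ⊔ V with hH
  have hXH : X ≤ H := le_sup_left
  have hVH : V ≤ H := le_sup_right
  have hHU₂ : H ≤ normalizer (U₂ : Set Γ) := sup_le hXU₂ hVU₂
  have hHU₁ : H ≤ normalizer (U₁ : Set Γ) := sup_le hXU₁ hVU₁
  have hU₁H : U₁ ≤ H := hU₁X.trans hXH
  have : (U₂.subgroupOf H).Normal := by
    refine ⟨fun n hn g => ?_⟩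
    rw [mem_subgroupOf] at hn ⊢
    exact (mem_normalizer_iff.1 (hHU₂ g.2) _).1 hn
  let f : H →* H ⧸ U₂.subgroupOf H := QuotientGroup.mk' (U₂.subgroupOf H)
  have hfs : Function.Surjective f := QuotientGroup.mk'_surjective _
  have hf1 : ∀ x : H, f x = 1 ↔ (x : Γ) ∈ U₂ := by
    intro x
    rw [← mem_subgroupOf, ← MonoidHom.mem_ker, QuotientGroup.ker_mk']
  let T : Subgroup (H ⧸ U₂.subgroupOf H) := (U₁.subgroupOf H).map f
  have hTm : ∀ x : H, f x ∈ T ↔ (x : Γ) ∈ U₁ := by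
    intro x
    constructor
    · rintro ⟨y, hy, hxy⟩
      have h1 : f (y⁻¹ * x) = 1 := by rw [map_mul, map_inv, hxy]; group
      rw [hf1] at h1
      have h2 := U₁.mul_mem (mem_subgroupOf.1 hy) (hU₂₁ h1)
      simpa using h2
    · intro h
      exact mem_map_of_mem f (mem_subgroupOf.2 h)
  have hTn : T.Normal := by
    refine ⟨fun n hn g => ?_⟩
    obtain ⟨y, rfl⟩ := hfs n
    obtain ⟨z, rfl⟩ := hfs g
    rw [← map_mul, ← map_inv, ← map_mul, hTm]
    exact (mem_normalizer_iff.1 (hHU₁ z.2) _).1 ((hTm y).1 hn)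
  have hTne : T ≠ ⊥ := by
    intro h
    apply hlt.not_ge
    intro x hx
    have h1 : f ⟨x, hU₁H hx⟩ ∈ T := (hTm _).2 hx
    rw [h, mem_bot, hf1] at h1
    exact h1
  have hTsol : Group.IsSolvable T := by
    have h1 : Group.IsSolvable U₁ := by
      have : Group.IsSolvable (U₁.subgroupOf X) := inferInstance
      exact Group.isSolvable_of_surjective (f := (subgroupOfEquivOfLe hU₁X).toMonoidHom)
        (subgroupOfEquivOfLe hU₁X).surjective
    have h2 : Group.IsSolvable (U₁.subgroupOf H) :=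
      Group.isSolvable_of_surjective (f := (subgroupOfEquivOfLe hU₁H).symm.toMonoidHom)
        (subgroupOfEquivOfLe hU₁H).symm.surjective
    exact sol_map h2 f
  -- chief
  have hK : ∀ K : Subgroup (H ⧸ U₂.subgroupOf H), K ≤ T → K.Normal → K = ⊥ ∨ K = T := by
    intro K hKT hKn
    let N : Subgroup Γ := (K.comap f).map H.subtype
    have hmN : ∀ x : H, (x : Γ) ∈ N ↔ f x ∈ K := by
      intro x
      simp only [N, mem_map, mem_comap, coe_subtype]
      constructor
      · rintro ⟨y, hy, h⟩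
        have : y = x := Subtype.ext h
        rwa [← this]
      · intro h
        exact ⟨x, h, rfl⟩
    have hNH : N ≤ H := by
      rintro _ ⟨y, _, rfl⟩
      exact y.2
    have hconj : H ≤ normalizer (N : Set Γ) := by
      refine inv_iff.2 fun v hv x hx => ?_
      have h1 := hKn.conj_mem _ ((hmN ⟨x, hNH hx⟩).1 hx) (f ⟨v, hv⟩)
      rw [← map_mul, ← map_inv, ← map_mul] at h1
      exact (hmN (⟨v, hv⟩ * ⟨x, hNH hx⟩ * ⟨v, hv⟩⁻¹)).2 h1
    rcases hchief N
      (by
        intro x hx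
        refine (hmN ⟨x, hU₁H (hU₂₁ hx)⟩).2 ?_
        rw [(hf1 ⟨x, hU₁H (hU₂₁ hx)⟩).2 hx]
        exact K.one_mem)
      (by
        intro x hx
        exact (hTm ⟨x, hNH hx⟩).1 (hKT ((hmN ⟨x, hNH hx⟩).1 hx)))
      (hXH.trans hconj) (hVH.trans hconj) with h | h
    · left
      rw [eq_bot_iff]
      intro y hy
      obtain ⟨x, rfl⟩ := hfs y
      rw [mem_bot, hf1, ← h]
      exact (hmN x).2 hy
    · right
      refine le_antisymm hKT ?_
      intro y hy
      obtain ⟨x, rfl⟩ := hfs y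
      rw [← hmN, h]
      exact (hTm x).1 hy
  -- commutativity
  have hTcomm : ∀ a ∈ T, ∀ b ∈ T, a * b = b * a := by
    have h1 : ⁅T, T⁆ ≤ T := commutator_le_left T T
    have h2 : ⁅T, T⁆ ≠ T := by
      intro h
      have : Nontrivial T := (nontrivial_iff_ne_bot T).2 hTne
      have h3 : commutator T < ⊤ := Group.IsSolvable.commutator_lt_top_of_nontrivial T
      apply h3.ne
      have h4 : (commutator T).map T.subtype = ⁅T, T⁆ := by
        rw [commutator_def, map_commutator, ← MonoidHom.range_eq_map, range_subtype]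
      rw [h] at h4
      rw [eq_top_iff]
      intro x _
      have h5 : (x : H ⧸ U₂.subgroupOf H) ∈ (commutator T).map T.subtype := by rw [h4]; exact x.2
      obtain ⟨y, hy, hxy⟩ := h5
      have : y = x := Subtype.ext hxy
      rwa [← this]
    have h3 : ⁅T, T⁆ = ⊥ := (hK _ h1 inferInstance).resolve_right h2
    intro a ha b hb
    have h4 := commutator_mem_commutator ha hb
    rw [h3, mem_bot, commutatorElement_eq_one_iff_mul_comm] at h4
    exact h4
  -- the prime
  have hcard : Nat.card T ≠ 1 := by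
    intro h
    exact hTne (card_eq_one.1 h)
  obtain ⟨r, hr, hrd⟩ := Nat.exists_prime_and_dvd hcard
  have : Fact r.Prime := ⟨hr⟩
  have hTexp : ∀ a ∈ T, a ^ r = 1 := by
    let K : Subgroup (H ⧸ U₂.subgroupOf H) :=
      { carrier := {a | a ∈ T ∧ a ^ r = 1}
        one_mem' := ⟨T.one_mem, one_pow r⟩
        mul_mem' := by
          rintro a b ⟨ha, ha'⟩ ⟨hb, hb'⟩
          refine ⟨T.mul_mem ha hb, ?_⟩
          rw [Commute.mul_pow (hTcomm a ha b hb), ha', hb', one_mul]
        inv_mem' := by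
          rintro a ⟨ha, ha'⟩
          exact ⟨T.inv_mem ha, by rw [inv_pow, ha', inv_one]⟩ }
    have h1 : K ≤ T := fun a ha => ha.1
    have h2 : K.Normal := by
      refine ⟨fun n hn g => ⟨hTn.conj_mem _ hn.1 g, ?_⟩⟩
      rw [conj_pow, hn.2]
      group
    have h3 : K ≠ ⊥ := by
      intro h
      obtain ⟨t, ht⟩ := exists_prime_orderOf_dvd_card' r hrd
      have h4 : (t : H ⧸ U₂.subgroupOf H) ∈ K := by
        refine ⟨t.2, ?_⟩
        have := pow_orderOf_eq_one t
        rw [ht] at this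
        have := congrArg Subtype.val this
        simpa using this
      rw [h, mem_bot] at h4
      have h5 : t = 1 := Subtype.ext h4
      rw [h5, orderOf_one] at ht
      exact hr.one_lt.ne ht
    have h4 : K = T := (hK K h1 h2).resolve_left h3
    intro a ha
    rw [← h4] at ha
    exact ha.2
  obtain ⟨U, _, _, e, φ, he, hφ⟩ := exists_action r T hTcomm hTexp
  have : Finite U := Finite.of_equiv _ e
  have : Nontrivial U := by
    have : Nontrivial T := (nontrivial_iff_ne_bot T).2 hTne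
    exact e.symm.nontrivial
  have he0 : e 1 = 0 := by
    have := he 1 1
    rw [mul_one] at this
    exact left_eq_add.1 this
  have hφe : ∀ (h x : H) (hx : f x ∈ T) (hx' : f (h * x * h⁻¹) ∈ T),
      φ (f h) (e ⟨f x, hx⟩) = e ⟨f (h * x * h⁻¹), hx'⟩ := by
    intro h x hx hx'
    rw [← Equiv.symm_apply_eq]
    apply Subtype.ext
    rw [hφ]
    simp
  have hUe : ∀ u : U, ∃ (x : H) (hx : f x ∈ T), u = e ⟨f x, hx⟩ := by
    intro u
    obtain ⟨x, hx⟩ := hfs (e.symm u)
    refine ⟨x, hx ▸ (e.symm u).2, ?_⟩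
    rw [← Equiv.symm_apply_eq]
    exact Subtype.ext hx.symm
  have hVH' : ElAb p (V.subgroupOf H) := by
    refine ⟨hV.prime, ?_, ?_⟩
    · intro v hv
      ext
      simpa using hV.exp v (mem_subgroupOf.1 hv)
    · intro v hv w hw
      ext
      simpa using hV.comm v (mem_subgroupOf.1 hv) w (mem_subgroupOf.1 hw)
  have hVXH : Inv (V.subgroupOf H) (X.subgroupOf H) := by
    refine inv_iff.2 fun v hv x hx => ?_
    rw [mem_subgroupOf] at *
    exact inv_iff.1 hVX _ hv _ hx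
  have hcenH : cen (X.subgroupOf H) (V.subgroupOf H : Subgroup H) = ⊥ := by
    rw [eq_bot_iff]
    intro x hx
    obtain ⟨h1, h2⟩ := mem_inf.1 hx
    have h3 : (x : Γ) ∈ cen X V := by
      refine mem_inf.2 ⟨mem_subgroupOf.1 h1, mem_centralizer_iff.2 fun v hv => ?_⟩
      have h4 := mem_centralizer_iff.1 h2 ⟨v, hVH hv⟩ (mem_subgroupOf.2 hv)
      exact congrArg Subtype.val h4
    rw [hcen, mem_bot] at h3
    rw [mem_bot]
    exact Subtype.ext h3
  have hsolH : Group.IsSolvable (X.subgroupOf H) :=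
    Group.isSolvable_of_surjective (f := (subgroupOfEquivOfLe hXH).symm.toMonoidHom)
      (subgroupOfEquivOfLe hXH).symm.surjective
  obtain ⟨v, hv, hv1, hvc⟩ := star' hCop hLift hStar r p U (V.subgroupOf H) (X.subgroupOf H)
    (φ.comp f) hVH' hVXH hcenH hsolH
    (by
      intro N hN
      have htop : X.subgroupOf H ⊔ V.subgroupOf H = ⊤ := by
        rw [← subgroupOf_sup hXH hVH, ← hH, subgroupOf_self]
      rw [htop] at hN
      let K : Subgroup (H ⧸ U₂.subgroupOf H) :=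
        { carrier := {a | ∃ h : a ∈ T, e ⟨a, h⟩ ∈ N}
          one_mem' := ⟨T.one_mem, by
            have : e ⟨1, T.one_mem⟩ = 0 := he0
            rw [this]; exact N.zero_mem⟩
          mul_mem' := by
            rintro a b ⟨ha, ha'⟩ ⟨hb, hb'⟩
            refine ⟨T.mul_mem ha hb, ?_⟩
            have : e ⟨a * b, T.mul_mem ha hb⟩ = e ⟨a, ha⟩ + e ⟨b, hb⟩ := he ⟨a, ha⟩ ⟨b, hb⟩
            rw [this]
            exact N.add_mem ha' hb'
          inv_mem' := by
            rintro a ⟨ha, ha'⟩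
            refine ⟨T.inv_mem ha, ?_⟩
            have h1 : e ⟨a⁻¹, T.inv_mem ha⟩ + e ⟨a, ha⟩ = 0 := by
              rw [← he, ← he0]
              congr 1
              exact Subtype.ext (inv_mul_cancel a)
            rw [eq_neg_of_add_eq_zero_left h1]
            exact N.neg_mem ha' }
      have hKn : K.Normal := by
        refine ⟨?_⟩
        rintro n ⟨hn, hn'⟩ g
        obtain ⟨h, rfl⟩ := hfs g
        obtain ⟨x, rfl⟩ := hfs n
        have h1 : f h * f x * (f h)⁻¹ ∈ T := hTn.conj_mem _ hn _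
        refine ⟨h1, ?_⟩
        have h2 := hN h (mem_top h) _ hn'
        have h3 : f (h * x * h⁻¹) ∈ T := by simpa using h1
        have h4 := hφe h x hn h3
        rw [MonoidHom.comp_apply, h4] at h2
        simpa using h2
      rcases hK K (fun a ha => ha.1) hKn with h | h
      · left
        rw [eq_bot_iff]
        intro u hu
        obtain ⟨x, hx, rfl⟩ := hUe u
        have h1 : f x ∈ K := ⟨hx, hu⟩
        rw [h, mem_bot] at h1
        rw [Submodule.mem_bot, ← he0]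
        congr 1
        exact Subtype.ext h1
      · right
        rw [eq_top_iff]
        intro u _
        obtain ⟨x, hx, rfl⟩ := hUe u
        have h1 : f x ∈ K := by rw [h]; exact hx
        exact h1.2)
    (by
      intro u hu
      obtain ⟨x, hx, rfl⟩ := hUe u
      have hxU : (x : Γ) ∈ U₁ := (hTm x).1 hx
      have h1 : ∀ b ∈ V, (x : Γ)⁻¹ * (b * x * b⁻¹) ∈ U₂ := by
        intro b hb
        have h2 := hu ⟨b, hVH hb⟩ (mem_subgroupOf.2 hb)
        have h3 : f (⟨b, hVH hb⟩ * x * ⟨b, hVH hb⟩⁻¹) ∈ T :=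
          (hTm _).2 (inv_iff.1 hVU₁ b hb _ hxU)
        rw [MonoidHom.comp_apply, hφe _ x hx h3] at h2
        have h4 := congrArg Subtype.val (e.injective h2)
        have h5 : f (x⁻¹ * (⟨b, hVH hb⟩ * x * ⟨b, hVH hb⟩⁻¹)) = 1 := by
          rw [map_mul, map_inv]
          dsimp only at h4
          rw [h4]
          group
        exact (hf1 _).1 h5
      obtain ⟨n, hn, hn'⟩ := hLift Γ p V U₂ x hV.prime (isPGroup_of_elab hV) hVU₂ hpU₂ h1
      have h4 : (x : Γ) * n ∈ cen X V :=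
        mem_inf.2 ⟨X.mul_mem (hU₁X hxU) (hU₁X (hU₂₁ hn)), mem_centralizer_iff.2 hn'⟩
      rw [hcen, mem_bot] at h4
      have h5 : (x : Γ) = n⁻¹ := mul_eq_one_iff_eq_inv.1 h4
      have h6 : f x = 1 := (hf1 x).2 (h5 ▸ U₂.inv_mem hn)
      rw [← he0]
      congr 1
      exact Subtype.ext h6)
  refine ⟨v, mem_subgroupOf.1 hv, ?_, ?_⟩
  · by_contra hcon
    push Not at hcon
    apply hv1
    ext u
    obtain ⟨x, hx, rfl⟩ := hUe u
    have hxU : (x : Γ) ∈ U₁ := (hTm x).1 hx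
    have h3 : f (v * x * v⁻¹) ∈ T := (hTm _).2 (inv_iff.1 hVU₁ _ (mem_subgroupOf.1 hv) _ hxU)
    rw [MonoidHom.comp_apply, hφe v x hx h3]
    have h4 : f (v * x * v⁻¹) = f x := by
      have := (hf1 (v * x * v⁻¹ * x⁻¹)).2 (hcon x hxU)
      rw [map_mul, map_inv f x, mul_inv_eq_one] at this
      exact this
    change e _ = e _
    congr 1
    exact Subtype.ext h4
  · let KK : Subgroup Γ := ((φ.comp f).ker).map H.subtype
    have hKK : cm X v ≤ KK := by
      refine cm_le_of fun x hx i => ?_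
      refine ⟨⟨x, hXH hx⟩ * v ^ i * ⟨x, hXH hx⟩⁻¹ * (v ^ i)⁻¹, ?_, by simp⟩
      have h1 := hvc ⟨x, hXH hx⟩ (mem_subgroupOf.2 hx)
      have h2 : Commute ((φ.comp f) ⟨x, hXH hx⟩) ((φ.comp f) v ^ i) :=
        Commute.zpow_right h1.symm i
      simp only [SetLike.mem_coe, MonoidHom.mem_ker, map_mul, map_inv, map_zpow]
      rw [h2.eq]
      group
    refine commutator_le.2 fun g hg u hu => ?_
    obtain ⟨y, hy, rfl⟩ := hKK hg
    have hy1 : (φ.comp f) y = 1 := hy
    have hx : f ⟨u, hU₁H hu⟩ ∈ T := (hTm _).2 hu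
    have hx' : f (y * ⟨u, hU₁H hu⟩ * y⁻¹) ∈ T := (hTm _).2 (inv_iff.1 hHU₁ _ y.2 _ hu)
    have h1 := hφe y _ hx hx'
    rw [MonoidHom.comp_apply] at hy1
    rw [hy1] at h1
    have h2 := congrArg Subtype.val (e.injective h1)
    dsimp only at h2
    have h3 : f (y * ⟨u, hU₁H hu⟩ * y⁻¹ * ⟨u, hU₁H hu⟩⁻¹) = 1 := by
      rw [map_mul f _ (⟨u, hU₁H hu⟩⁻¹), ← h2, map_inv]
      group
    have h4 := (hf1 _).1 h3
    rw [commutatorElement_def]
    exact h4

end Pool.Agent.T6.H88.FP.ModB5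

namespace Pool.Agent.T6.H88.FP

/-- module B5 -/
theorem b5 (hCop : StmtCop) (hLift : StmtLift) (hStar : StmtStar) : StmtChief :=
  ModB5.main hCop hLift hStar

end Pool.Agent.T6.H88.FP
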