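import Pool.Agent.T6.H88.FP.Defs
import Pool.Agent.R691.PN.Basic

set_option autoImplicit false
set_option linter.unusedSectionVars false

/-! # Module C4, part A: behaviour of the Thompson subgroup and of the centre under maps -/

namespace Pool.Agent.T6.H88.FP.C4

open Subgroup Pool.Agent.R691.PN

section maps
variable {Γ Γ' : Type} [Group Γ] [Group Γ']

lemma eab_map {q : ℕ} {A : Subgroup Γ} (f : Γ →* Γ') (h : eab q A) : eab q (A.map f) := by
  refine ⟨?_, ?_⟩
  · rintro _ ⟨a, ha, rfl⟩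
    rw [← map_pow, h.1 a ha, map_one]
  · rintro _ ⟨a, ha, rfl⟩ _ ⟨b, hb, rfl⟩
    rw [← map_mul, h.2 a ha b hb, map_mul]

lemma eab_of_map {q : ℕ} {A P : Subgroup Γ} (f : Γ →* Γ') (hf : ∀ x ∈ P, f x = 1 → x = 1)
    (hA : A ≤ P) (h : eab q (A.map f)) : eab q A := by
  refine ⟨fun a ha => ?_, fun a ha b hb => ?_⟩
  · apply hf _ (P.pow_mem (hA ha) _)
    rw [map_pow]; exact h.1 _ ⟨a, ha, rfl⟩
  · have : a * b * (b * a)⁻¹ = 1 := by
      apply hf
      · exact P.mul_mem (P.mul_mem (hA ha) (hA hb)) (P.inv_mem (P.mul_mem (hA hb) (hA ha)))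
      · rw [map_mul, map_inv, mul_inv_eq_one, map_mul, map_mul]
        exact h.2 _ ⟨a, ha, rfl⟩ _ ⟨b, hb, rfl⟩
    rwa [mul_inv_eq_one] at this

lemma injOn_of {A P : Subgroup Γ} (f : Γ →* Γ') (hf : ∀ x ∈ P, f x = 1 → x = 1) (hA : A ≤ P) :
    Set.InjOn f (A : Set Γ) := by
  intro a ha b hb hab
  have : a * b⁻¹ = 1 := by
    apply hf _ (P.mul_mem (hA ha) (P.inv_mem (hA hb)))
    rw [map_mul, map_inv, mul_inv_eq_one]
    exact hab
  rwa [mul_inv_eq_one] at this

lemma card_map_of {A P : Subgroup Γ} (f : Γ →* Γ') (hf : ∀ x ∈ P, f x = 1 → x = 1)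
    (hA : A ≤ P) : Nat.card (A.map f) = Nat.card A := by
  have h1 : Nat.card (A.map f) = Nat.card (f '' (A : Set Γ)) := by
    rw [← Subgroup.coe_map]; rfl
  rw [h1, Nat.card_image_of_injOn (injOn_of f hf hA)]
  rfl

lemma comap_inf_map {B : Subgroup Γ'} {P : Subgroup Γ} (f : Γ →* Γ') (hB : B ≤ P.map f) :
    (B.comap f ⊓ P).map f = B := by
  ext y
  constructor
  · rintro ⟨x, hx, rfl⟩
    exact hx.1
  · intro hy
    obtain ⟨x, hx, rfl⟩ := hB hy
    exact ⟨x, ⟨hy, hx⟩, rfl⟩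

lemma JJ_map {q : ℕ} {P : Subgroup Γ} (f : Γ →* Γ') (hf : ∀ x ∈ P, f x = 1 → x = 1) :
    (JJ q P).map f = JJ q (P.map f) := by
  apply le_antisymm
  · rw [map_le_iff_le_comap]
    apply sSup_le
    rintro A ⟨hA1, hA2, hA3⟩
    rw [← map_le_iff_le_comap]
    apply le_sSup
    refine ⟨Subgroup.map_mono hA1, eab_map f hA2, ?_⟩
    intro B hB hBe
    rw [card_map_of f hf hA1]
    have h1 := comap_inf_map f hB
    rw [← h1, card_map_of f hf inf_le_right]
    apply hA3 _ inf_le_right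
    apply eab_of_map f hf inf_le_right
    rw [h1]; exact hBe
  · apply sSup_le
    rintro B ⟨hB1, hB2, hB3⟩
    have h1 := comap_inf_map f hB1
    rw [← h1]
    apply Subgroup.map_mono
    apply le_sSup
    refine ⟨inf_le_right, ?_, ?_⟩
    · apply eab_of_map f hf inf_le_right
      rw [h1]; exact hB2
    · intro A hA hAe
      have h2 := hB3 (A.map f) (Subgroup.map_mono hA) (eab_map f hAe)
      rw [card_map_of f hf hA, ← h1, card_map_of f hf inf_le_right] at h2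
      exact h2

lemma JJ_le {q : ℕ} {P : Subgroup Γ} : JJ q P ≤ P := sSup_le fun _ h => h.1

lemma mem_cen {X : Subgroup Γ} {B : Set Γ} {x : Γ} :
    x ∈ cen X B ↔ x ∈ X ∧ ∀ b ∈ B, b * x = x * b := by
  rw [cen, mem_inf, mem_centralizer_iff]

lemma cen_map {P : Subgroup Γ} (f : Γ →* Γ') (hf : ∀ x ∈ P, f x = 1 → x = 1) :
    (cen P P).map f = cen (P.map f) (P.map f) := by
  ext y
  rw [mem_cen]
  constructor
  · rintro ⟨x, hx, rfl⟩
    obtain ⟨hx1, hx2⟩ := mem_cen.1 hx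
    refine ⟨⟨x, hx1, rfl⟩, ?_⟩
    rintro _ ⟨z, hz, rfl⟩
    rw [← map_mul, hx2 z hz, map_mul]
  · rintro ⟨⟨x, hx1, rfl⟩, hx2⟩
    refine ⟨x, mem_cen.2 ⟨hx1, ?_⟩, rfl⟩
    intro z hz
    have h1 := hx2 (f z) ⟨z, hz, rfl⟩
    have : z * x * (x * z)⁻¹ = 1 := by
      apply hf
      · exact P.mul_mem (P.mul_mem hz hx1) (P.inv_mem (P.mul_mem hx1 hz))
      · rw [map_mul, map_inv, mul_inv_eq_one, map_mul, map_mul]
        exact h1
    rwa [mul_inv_eq_one] at this

/-- the two conditions of Thompson's theorem -/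
def Good (p : ℕ) (P : Subgroup Γ) : Prop :=
  PNilp p ↥(normalizer (JJ p P : Set Γ)) ∧ PNilp p ↥(centralizer (cen P P : Set Γ))

/-- the hypothesis of Thompson's theorem -/
def Hyp (p : ℕ) (H : Type) [Group H] : Prop :=
  ∀ P : Subgroup H, IsPGroup p P → ¬ p ∣ P.index → Good p P

variable {p : ℕ} [hp : Fact p.Prime]

lemma pnilp_transfer {A : Subgroup Γ} {B : Subgroup Γ'} (f : Γ →* Γ')
    (hf : ∀ x ∈ A, f x = 1 → x = 1) (h : A.map f ≤ B) (hB : PNilp p B) : PNilp p A := by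
  have h1 : ∀ x : A, f x ∈ B := fun x => h ⟨x, x.2, rfl⟩
  refine hB.of_injective ((f.comp A.subtype).codRestrict B h1) ?_
  rw [injective_iff_map_eq_one]
  intro a ha
  apply Subtype.ext
  apply hf a a.2
  exact congrArg Subtype.val ha

lemma pnilp_mono {A B : Subgroup Γ} (h : A ≤ B) (hB : PNilp p B) : PNilp p A :=
  pnilp_transfer (MonoidHom.id Γ) (fun x _ h => h) (by simpa using h) hB

lemma good_of_map {P : Subgroup Γ} (f : Γ →* Γ') (hf : Function.Injective f)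
    (h : Good p (P.map f)) : Good p P := by
  have hf' : ∀ A : Subgroup Γ, ∀ x ∈ A, f x = 1 → x = 1 := by
    intro A x _ hx
    apply hf; rw [hx, map_one]
  obtain ⟨h1, h2⟩ := h
  rw [← JJ_map f (hf' _)] at h1
  rw [← cen_map f (hf' _)] at h2
  refine ⟨pnilp_transfer f (hf' _) ?_ h1, pnilp_transfer f (hf' _) ?_ h2⟩
  · exact le_normalizer_map f
  · rintro _ ⟨x, hx, rfl⟩
    rw [mem_centralizer_iff]
    rintro _ ⟨z, hz, rfl⟩
    rw [← map_mul, mem_centralizer_iff.1 hx z hz, map_mul]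

end maps

section fin
variable {Γ Γ' : Type} [Group Γ] [Group Γ'] [Finite Γ] [Finite Γ'] {p : ℕ} [hp : Fact p.Prime]

lemma hyp_of_one {P : Subgroup Γ} (h1 : IsPGroup p P) (h2 : ¬ p ∣ P.index) (h3 : Good p P) :
    Hyp p Γ := by
  intro Q hQ1 hQ2
  obtain ⟨g, hg⟩ := MulAction.exists_smul_eq Γ (hQ1.toSylow hQ2) (h1.toSylow h2)
  have h4 : Q.map (MulAut.conj g).toMonoidHom = P := by
    have := congrArg (fun S : Sylow p Γ => (S : Subgroup Γ)) hg
    exact this
  apply good_of_map (MulAut.conj g).toMonoidHom (MulAut.conj g).injective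
  rw [h4]; exact h3

lemma hyp_sub {M S : Subgroup Γ} (hSM : S ≤ M) (h1 : IsPGroup p S) (h2 : ¬ p ∣ S.relIndex M)
    (h3 : Good p S) : Hyp p ↥M := by
  have h4 : IsPGroup p ↥(S.subgroupOf M) := h1.comap_of_injective M.subtype M.subtype_injective
  refine hyp_of_one h4 h2 ?_
  apply good_of_map M.subtype M.subtype_injective
  rw [subgroupOf_map_subtype, inf_eq_left.2 hSM]
  exact h3

lemma not_dvd_card_iff {M : Subgroup Γ} :
    ¬ p ∣ Nat.card M ↔ ∀ x ∈ M, x ^ p = 1 → x = 1 := by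
  constructor
  · intro h x hx hxp
    have h1 : orderOf x ∣ p := orderOf_dvd_of_pow_eq_one hxp
    have h2 : orderOf x ∣ Nat.card M := Subgroup.orderOf_dvd_natCard M hx
    rcases (Nat.dvd_prime hp.out).1 h1 with h3 | h3
    · exact orderOf_eq_one_iff.1 h3
    · rw [h3] at h2; exact absurd h2 h
  · intro h hd
    obtain ⟨x, hx⟩ := exists_prime_orderOf_dvd_card' p hd
    have h1 : (x : Γ) ^ p = 1 := by
      have := pow_orderOf_eq_one x
      rw [hx] at this
      exact congrArg Subtype.val this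
    have h2 := h x x.2 h1
    have h3 : x = 1 := Subtype.ext h2
    rw [h3, orderOf_one] at hx
    exact hp.out.one_lt.ne hx

lemma pnilp_map (f : Γ →* Γ') (hf : Function.Surjective f) (h : PNilp p Γ) : PNilp p Γ' := by
  obtain ⟨N, hN, hc, k, hk⟩ := h
  refine ⟨N.map f, hN.map f hf, ?_, ?_⟩
  · intro hd
    exact hc (hd.trans (Subgroup.card_map_dvd N f))
  · have h1 : (N.map f).index ∣ p ^ k := by
      rw [← hk]; exact N.index_map_dvd hf
    obtain ⟨j, -, hj⟩ := (Nat.dvd_prime_pow hp.out).1 h1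
    exact ⟨j, hj⟩

lemma pnilp_map' (f : Γ →* Γ') {A : Subgroup Γ} (h : PNilp p A) : PNilp p (A.map f) :=
  pnilp_map (f.subgroupMap A) (f.subgroupMap_surjective A) h

lemma pnilp_of_ker (f : Γ →* Γ') (hf : Function.Surjective f) (hk : ¬ p ∣ Nat.card f.ker)
    (h : PNilp p Γ') : PNilp p Γ := by
  obtain ⟨N, hN, hc, k, hk'⟩ := h
  refine ⟨N.comap f, inferInstance, ?_, k, ?_⟩
  · rw [not_dvd_card_iff] at hc hk ⊢
    intro x hx hxp
    apply hk x _ hxp
    rw [MonoidHom.mem_ker]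
    apply hc _ hx
    rw [← map_pow, hxp, map_one]
  · rw [index_comap_of_surjective _ hf, hk']

end fin

end Pool.Agent.T6.H88.FP.C4
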