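import Pool.Agent.T6.H88.FP.C4A

set_option autoImplicit false
set_option linter.unusedSectionVars false

/-! # Module C4, part B: first reductions in a minimal counterexample -/

namespace Pool.Agent.T6.H88.FP.C4

open Subgroup Pool.Agent.R691.PN

variable {Γ Γ' : Type} [Group Γ] [Group Γ'] [Finite Γ] [Finite Γ'] {p : ℕ} [hp : Fact p.Prime]

lemma mem_normalizer_of {A : Subgroup Γ} {n : Γ} (h : ∀ a ∈ A, n * a * n⁻¹ ∈ A) :
    n ∈ normalizer (A : Set Γ) := by
  have h1 : A.map (MulAut.conj n).toMonoidHom ≤ A := by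
    rintro _ ⟨a, ha, rfl⟩
    exact h a ha
  have h2 : A.map (MulAut.conj n).toMonoidHom = A := by
    apply Subgroup.eq_of_le_of_card_ge h1
    rw [card_map_of (P := A) (MulAut.conj n).toMonoidHom _ le_rfl]
    intro x _ hx
    apply (MulAut.conj n).injective
    rw [map_one]; exact hx
  rw [mem_normalizer_iff]
  intro x
  constructor
  · exact h x
  · intro hx
    have h3 : n * x * n⁻¹ ∈ A.map (MulAut.conj n).toMonoidHom := by rw [h2]; exact hx
    obtain ⟨y, hy, hyx⟩ := h3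
    have : (MulAut.conj n) y = (MulAut.conj n) x := hyx
    rw [← (MulAut.conj n).injective this]; exact hy

lemma map_conj_of {A : Subgroup Γ} {n : Γ} (h : n ∈ normalizer (A : Set Γ)) :
    A.map (MulAut.conj n).toMonoidHom = A := by
  ext x
  constructor
  · rintro ⟨y, hy, rfl⟩
    exact (mem_normalizer_iff.1 h y).1 hy
  · intro hx
    refine ⟨n⁻¹ * x * n, ?_, ?_⟩
    · rw [SetLike.mem_coe, mem_normalizer_iff.1 h]
      have : n * (n⁻¹ * x * n) * n⁻¹ = x := by group
      rwa [this]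
    · change n * (n⁻¹ * x * n) * n⁻¹ = x
      group

lemma conj_inj (n : Γ) (P : Subgroup Γ) : ∀ x ∈ P, (MulAut.conj n).toMonoidHom x = 1 → x = 1 := by
  intro x _ hx
  apply (MulAut.conj n).injective
  rw [map_one]; exact hx

lemma mem_normalizer_of_map {A : Subgroup Γ} {n : Γ}
    (h : A.map (MulAut.conj n).toMonoidHom = A) : n ∈ normalizer (A : Set Γ) := by
  apply mem_normalizer_of
  intro a ha
  rw [← h]
  exact ⟨a, ha, rfl⟩

lemma normalizer_le_JJ {q : ℕ} {S : Subgroup Γ} :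
    normalizer (S : Set Γ) ≤ normalizer (JJ q S : Set Γ) := by
  intro n hn
  apply mem_normalizer_of_map
  rw [JJ_map _ (conj_inj n S), map_conj_of hn]

lemma normalizer_le_cen {S : Subgroup Γ} :
    normalizer (S : Set Γ) ≤ normalizer (cen S S : Set Γ) := by
  intro n hn
  apply mem_normalizer_of_map
  rw [cen_map _ (conj_inj n S), map_conj_of hn]

lemma cen_le {S : Subgroup Γ} : cen S S ≤ S := inf_le_left

lemma JJ_ne_bot {S : Subgroup Γ} (hS : IsPGroup p S) (h : S ≠ ⊥) : JJ p S ≠ ⊥ := by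
  obtain ⟨A, ⟨hA1, hA2⟩, hA3⟩ := Set.exists_max_image {A : Subgroup Γ | A ≤ S ∧ eab p A}
    (fun A => Nat.card A) (Set.toFinite _) ⟨⊥, bot_le, by
      refine ⟨?_, ?_⟩
      · intro a ha; rw [mem_bot.1 ha, one_pow]
      · intro a ha b hb; rw [mem_bot.1 ha, mem_bot.1 hb]⟩
  have hA4 : A ≤ JJ p S := le_sSup ⟨hA1, hA2, fun B hB hBe => hA3 B ⟨hB, hBe⟩⟩
  have hd : p ∣ Nat.card S := by
    by_contra hd
    apply h
    rw [eq_bot_iff]
    intro x hx
    rw [mem_bot]
    obtain ⟨e, he⟩ := hS ⟨x, hx⟩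
    have he' : x ^ p ^ e = 1 := congrArg Subtype.val he
    have h5 : x ^ Nat.card S = 1 := by
      have h5 : (⟨x, hx⟩ : S) ^ Nat.card S = 1 := pow_card_eq_one'
      exact congrArg Subtype.val h5
    exact eq_one_of_both he' h5 hd
  obtain ⟨x, hx⟩ := exists_prime_orderOf_dvd_card' p hd
  have hx' : orderOf (x : Γ) = p := by rw [Subgroup.orderOf_coe, hx]
  have h1 : Nat.card (zpowers (x : Γ)) ≤ Nat.card A := by
    apply hA3
    refine ⟨?_, ?_, ?_⟩
    · rw [zpowers_le]; exact x.2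
    · rintro _ ⟨k, rfl⟩
      have : ((x : Γ) ^ k) ^ p = ((x : Γ) ^ p) ^ k := by
        rw [← zpow_natCast, ← zpow_mul, mul_comm, zpow_mul, zpow_natCast]
      simp only
      rw [this, ← hx', pow_orderOf_eq_one, one_zpow]
    · rintro _ ⟨k, rfl⟩ _ ⟨l, rfl⟩
      simp only
      rw [← zpow_add, ← zpow_add, add_comm]
  rw [Nat.card_zpowers, hx'] at h1
  intro hJ
  rw [hJ, le_bot_iff] at hA4
  rw [hA4, card_bot] at h1
  exact absurd h1 (not_le.2 hp.out.one_lt)

lemma cen_ne_bot {S : Subgroup Γ} (hS : IsPGroup p S) (h : S ≠ ⊥) : cen S S ≠ ⊥ := by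
  have hnt : Nontrivial S := (nontrivial_iff_ne_bot _).2 h
  have h1 := hS.center_nontrivial
  obtain ⟨z, hz⟩ := exists_ne (1 : center S)
  intro hc
  apply hz
  have h2 : ((z : S) : Γ) ∈ cen S S := by
    rw [mem_cen]
    refine ⟨(z : S).2, ?_⟩
    intro b hb
    have := mem_center_iff.1 z.2 ⟨b, hb⟩
    exact congrArg Subtype.val this
  rw [hc, mem_bot] at h2
  exact Subtype.ext (Subtype.ext h2)

/-- lifting of normalisers of `p`-subgroups modulo a `p'`-kernel -/
lemma lift_normalizer (f : Γ →* Γ') (hK : ¬ p ∣ Nat.card f.ker) {A : Subgroup Γ}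
    (hA : IsPGroup p A) {g : Γ} (hg : f g ∈ normalizer (A.map f : Set Γ')) :
    ∃ n ∈ normalizer (A : Set Γ), f n = f g := by
  set M := (A.map f).comap f with hM
  have hAM : A ≤ M := le_comap_map f A
  have hkM : f.ker ≤ M := ker_le_comap f _
  have hMm : M.map f = A.map f := by
    rw [hM, map_comap_eq, inf_eq_right]
    exact map_le_range f A
  have hc1 : Nat.card A * A.relIndex M = Nat.card M := by
    have := relIndex_mul_relIndex ⊥ A M bot_le hAM
    rwa [relIndex_bot_left, relIndex_bot_left] at this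
  have hc2 : Nat.card f.ker * Nat.card (A.map f) = Nat.card M := by
    have := relIndex_mul_relIndex ⊥ f.ker M bot_le hkM
    rwa [relIndex_bot_left, relIndex_bot_left, relIndex_ker, hMm] at this
  have hidx : ¬ p ∣ A.relIndex M := by
    intro hd
    apply hK
    obtain ⟨c, hc⟩ := A.card_map_dvd f
    have h1 : Nat.card (A.map f) * (c * A.relIndex M) = Nat.card (A.map f) * Nat.card f.ker := by
      rw [← mul_assoc, ← hc, hc1, mul_comm, hc2]
    have h2 := Nat.eq_of_mul_eq_mul_left Nat.card_pos h1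
    rw [← h2]
    exact hd.mul_left c
  set B := A.map (MulAut.conj g).toMonoidHom with hB
  have hBM : B ≤ M := by
    rintro _ ⟨a, ha, rfl⟩
    rw [hM, mem_comap]
    change f (g * a * g⁻¹) ∈ _
    rw [map_mul, map_mul, map_inv]
    exact (mem_normalizer_iff.1 hg _).1 ⟨a, ha, rfl⟩
  have hcB : Nat.card B = Nat.card A := card_map_of _ (conj_inj g A) le_rfl
  have hBp : IsPGroup p B := hA.map _
  have hidx2 : ¬ p ∣ B.relIndex M := by
    have := relIndex_mul_relIndex ⊥ B M bot_le hBM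
    rw [relIndex_bot_left, relIndex_bot_left, hcB, ← hc1] at this
    rwa [Nat.eq_of_mul_eq_mul_left Nat.card_pos this]
  have hA' : IsPGroup p ↥(A.subgroupOf M) := hA.comap_of_injective M.subtype M.subtype_injective
  have hB' : IsPGroup p ↥(B.subgroupOf M) := hBp.comap_of_injective M.subtype M.subtype_injective
  obtain ⟨y, hy⟩ := MulAction.exists_smul_eq M (hA'.toSylow hidx) (hB'.toSylow hidx2)
  have hy2 : (A.subgroupOf M).map (MulAut.conj y).toMonoidHom = B.subgroupOf M := by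
    have := congrArg (fun S : Sylow p M => (S : Subgroup M)) hy
    exact this
  obtain ⟨a, ha, hay⟩ := (mem_comap.1 y.2 : f y ∈ A.map f)
  refine ⟨a * (y : Γ)⁻¹ * g, ?_, ?_⟩
  · apply mem_normalizer_of
    intro b hb
    have h1 : g * b * g⁻¹ ∈ B := ⟨b, hb, rfl⟩
    have h2 : (⟨g * b * g⁻¹, hBM h1⟩ : M) ∈ (A.subgroupOf M).map (MulAut.conj y).toMonoidHom := by
      rw [hy2]; exact h1
    obtain ⟨c, hc, hc2⟩ := h2
    have h3 : (y : Γ) * c * (y : Γ)⁻¹ = g * b * g⁻¹ := congrArg Subtype.val hc2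
    have h4 : a * (y : Γ)⁻¹ * g * b * (a * (y : Γ)⁻¹ * g)⁻¹ = a * (y : Γ)⁻¹ * (g * b * g⁻¹) * y * a⁻¹ := by
      group
    rw [h4, ← h3]
    have h5 : a * (y : Γ)⁻¹ * ((y : Γ) * c * (y : Γ)⁻¹) * y * a⁻¹ = a * c * a⁻¹ := by group
    rw [h5]
    exact A.mul_mem (A.mul_mem ha hc) (A.inv_mem ha)
  · rw [map_mul, map_mul, map_inv, hay, mul_inv_cancel, one_mul]

lemma lift_centralizer (f : Γ →* Γ') (hK : ¬ p ∣ Nat.card f.ker) {A : Subgroup Γ}
    (hA : IsPGroup p A) {g : Γ} (hg : f g ∈ centralizer (A.map f : Set Γ')) :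
    ∃ n ∈ centralizer (A : Set Γ), f n = f g := by
  have h1 : f g ∈ normalizer (A.map f : Set Γ') := by
    apply mem_normalizer_of
    intro a ha
    rw [← mem_centralizer_iff.1 hg a ha, mul_inv_cancel_right]
    exact ha
  obtain ⟨n, hn, hng⟩ := lift_normalizer f hK hA h1
  refine ⟨n, ?_, hng⟩
  rw [mem_centralizer_iff]
  intro a ha
  have h2 : f (n * a * n⁻¹ * a⁻¹) = 1 := by
    rw [map_mul, map_mul, map_mul, map_inv, map_inv, hng,
      ← mem_centralizer_iff.1 hg _ ⟨a, ha, rfl⟩, mul_inv_cancel_right, mul_inv_cancel]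
  have h3 : n * a * n⁻¹ * a⁻¹ ∈ A :=
    A.mul_mem ((mem_normalizer_iff.1 hn a).1 ha) (A.inv_mem ha)
  obtain ⟨e, he⟩ := hA ⟨_, h3⟩
  have he' : (n * a * n⁻¹ * a⁻¹) ^ p ^ e = 1 := congrArg Subtype.val he
  have h4 : (n * a * n⁻¹ * a⁻¹) ^ Nat.card f.ker = 1 := by
    have h5 : (⟨_, MonoidHom.mem_ker.2 h2⟩ : f.ker) ^ Nat.card f.ker = 1 := pow_card_eq_one'
    exact congrArg Subtype.val h5
  have h5 := eq_one_of_both he' h4 hK
  rw [mul_inv_eq_one, mul_inv_eq_iff_eq_mul] at h5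
  exact h5.symm

end Pool.Agent.T6.H88.FP.C4
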