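import Pool.Agent.T6.H88.FP.C4B

set_option autoImplicit false
set_option linter.unusedSectionVars false

/-! # Module C4, part C: reductions in a minimal counterexample -/

namespace Pool.Agent.T6.H88.FP.C4

open Subgroup Pool.Agent.R691.PN

variable {H : Type} [Group H] [Finite H] {p : ℕ} [hp : Fact p.Prime]

/-- the induction hypothesis -/
def IHyp (p : ℕ) (n : ℕ) : Prop :=
  ∀ (H' : Type) [Group H'] [Finite H'], Nat.card H' < n → Hyp p H' → PNilp p H'

lemma card_lt_of {M : Subgroup H} (hM : M ≠ ⊤) : Nat.card M < Nat.card H := by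
  rcases (Subgroup.card_le_card_group M).lt_or_eq with h | h
  · exact h
  · exact absurd (Subgroup.eq_top_of_card_eq _ h) hM

lemma pnilp_top (h : PNilp p ↥(⊤ : Subgroup H)) : PNilp p H :=
  h.of_injective (topEquiv (G := H)).symm.toMonoidHom (topEquiv (G := H)).symm.injective

/-- subgroups with a good Sylow subgroup are `p`-nilpotent -/
lemma good_sub (IH : IHyp p (Nat.card H)) {M S : Subgroup H} (hM : M ≠ ⊤) (hSM : S ≤ M)
    (h1 : IsPGroup p S) (h2 : ¬ p ∣ S.relIndex M) (h3 : Good p S) : PNilp p M :=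
  IH M (card_lt_of hM) (hyp_sub hSM h1 h2 h3)

lemma sylow_sub (IH : IHyp p (Nat.card H)) (hH : Hyp p H) {M S : Subgroup H} (hM : M ≠ ⊤)
    (hSM : S ≤ M) (h1 : IsPGroup p S) (h2 : ¬ p ∣ S.index) : PNilp p M := by
  refine good_sub IH hM hSM h1 ?_ (hH S h1 h2)
  intro hd
  exact h2 (hd.trans (relIndex_dvd_index_of_le hSM))

lemma frob_of_normalizers
    (h : ∀ X : Subgroup H, X ≠ ⊥ → IsPGroup p X → PNilp p ↥(normalizer (X : Set H))) :
    Frob p H := by
  intro Q hQ g hg hgp x hx
  by_cases hQb : Q = ⊥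
  · rw [hQb, mem_bot] at hx
    rw [hx, mul_one, one_mul]
  · have h1 := h Q hQb hQ
    set N := normalizer (Q : Set H) with hNdef
    have hQN : Q ≤ N := le_normalizer
    have hQ' : IsPGroup p ↥(Q.subgroupOf N) := hQ.comap_of_injective N.subtype N.subtype_injective
    have h2 := h1.comm hQ' (g := ⟨g, hg⟩) (by
      apply mem_normalizer_of
      intro a ha
      exact (mem_normalizer_iff.1 hg _).1 ha) (by rwa [← Subgroup.orderOf_coe]) (x := ⟨x, hQN hx⟩) hx
    exact congrArg Subtype.val h2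

theorem step1 (IH : IHyp p (Nat.card H)) (hH : Hyp p H) (hN : ¬ PNilp p H) :
    ∃ X : Subgroup H, X.Normal ∧ IsPGroup p X ∧ X ≠ ⊥ := by
  have hne : ({x : Subgroup H × Subgroup H | x.1 ≠ ⊥ ∧ IsPGroup p x.1 ∧
      ¬ PNilp p ↥(normalizer (x.1 : Set H)) ∧ x.2 ≤ normalizer (x.1 : Set H) ∧
      IsPGroup p x.2}).Nonempty := by
    by_contra hemp
    apply hN
    apply pnilp_of_frob (Nat.card H) H rfl
    apply frob_of_normalizers
    intro X hX1 hX2
    by_contra hX3
    apply hemp
    exact ⟨(X, ⊥), hX1, hX2, hX3, bot_le, IsPGroup.of_bot⟩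
  obtain ⟨⟨X, S⟩, ⟨hX1, hX2, hX3, hS1, hS2⟩, hmax⟩ := Set.exists_max_image _
    (fun x : Subgroup H × Subgroup H => Nat.card x.2) (Set.toFinite _) hne
  simp only at hX1 hX2 hX3 hS1 hS2
  have hmax' : ∀ X' S' : Subgroup H, X' ≠ ⊥ → IsPGroup p X' →
      ¬ PNilp p ↥(normalizer (X' : Set H)) → S' ≤ normalizer (X' : Set H) → IsPGroup p S' →
      Nat.card S' ≤ Nat.card S := fun X' S' h1 h2 h3 h4 h5 => hmax (X', S') ⟨h1, h2, h3, h4, h5⟩
  set N := normalizer (X : Set H) with hNdef
  by_cases hNt : N = ⊤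
  · exact ⟨X, normalizer_eq_top_iff.1 hNt, hX2, hX1⟩
  exfalso
  apply hX3
  -- S is a Sylow subgroup of N
  have hS' : IsPGroup p ↥(S.subgroupOf N) := hS2.comap_of_injective N.subtype N.subtype_injective
  have hSyl : ¬ p ∣ S.relIndex N := by
    obtain ⟨T, hT⟩ := hS'.exists_le_sylow
    have h1 : IsPGroup p ↥((T : Subgroup N).map N.subtype) := T.isPGroup'.map _
    have h2 : (T : Subgroup N).map N.subtype ≤ N := by
      rintro _ ⟨y, -, rfl⟩; exact y.2
    have h3 := hmax' X _ hX1 hX2 hX3 h2 h1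
    have h4 : S ≤ (T : Subgroup N).map N.subtype := by
      intro s hs
      exact ⟨⟨s, hS1 hs⟩, hT hs, rfl⟩
    have h5 := Subgroup.eq_of_le_of_card_ge h4 h3
    have h6 : S.subgroupOf N = T := by
      rw [h5, subgroupOf, comap_map_eq_self_of_injective N.subtype_injective]
    change ¬ p ∣ (S.subgroupOf N).index
    rw [h6]
    exact T.not_dvd_index
  have hXS : X ≤ S := by
    have h1 : IsPGroup p ↥(S ⊔ X) := IsPGroup.to_sup_of_normal_right' hS2 hX2 hS1
    have h2 : S ⊔ X ≤ N := sup_le hS1 le_normalizer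
    have h3 := hmax' X _ hX1 hX2 hX3 h2 h1
    have h5 := Subgroup.eq_of_le_of_card_ge (le_sup_left : S ≤ S ⊔ X) h3
    rw [h5]; exact le_sup_right
  have hSb : S ≠ ⊥ := by
    intro h
    apply hX1
    rw [eq_bot_iff, ← h]; exact hXS
  apply good_sub IH hNt hS1 hS2 hSyl
  obtain ⟨P, hP⟩ := hS2.exists_le_sylow
  by_cases hSP : S = P
  · rw [hSP]
    exact hH P P.isPGroup' P.not_dvd_index
  · -- the normaliser grows
    have hlt : S < (P : Subgroup H) := lt_of_le_of_ne hP hSP
    set S₁ : Subgroup H := (P : Subgroup H) ⊓ normalizer (S : Set H) with hS₁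
    have hgrow : Nat.card S < Nat.card S₁ := by
      have hnil : Group.IsNilpotent P := P.isPGroup'.isNilpotent
      have hnc := Group.normalizerCondition_of_isNilpotent (G := P)
      have h1 : S.subgroupOf (P : Subgroup H) < ⊤ := by
        rw [lt_top_iff_ne_top, Ne, subgroupOf_eq_top]
        exact not_le_of_gt hlt
      obtain ⟨x, hx1, hx2⟩ := SetLike.exists_of_lt (hnc _ h1)
      have h2 : (x : H) ∈ S₁ := by
        refine ⟨x.2, ?_⟩
        apply mem_normalizer_of
        intro a ha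
        exact (mem_normalizer_iff.1 hx1 ⟨a, hP ha⟩).1 ha
      have h3 : S ≤ S₁ := le_inf hP le_normalizer
      rcases (Nat.card_le_card_of_injective _ (inclusion_injective h3)).lt_or_eq with h | h
      · exact h
      · exfalso
        have h4 := Subgroup.eq_of_le_of_card_ge h3 h.ge
        rw [← h4] at h2
        exact hx2 h2
    have hS₁p : IsPGroup p S₁ := P.isPGroup'.to_le inf_le_left
    have key : ∀ L : Subgroup H, L ≠ ⊥ → IsPGroup p L → S₁ ≤ normalizer (L : Set H) →
        PNilp p ↥(normalizer (L : Set H)) := by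
      intro L h1 h2 h3
      by_contra h4
      exact absurd (hmax' L S₁ h1 h2 h4 h3 hS₁p) (not_le.2 hgrow)
    refine ⟨key _ (JJ_ne_bot hS2 hSb) (hS2.to_le JJ_le) (inf_le_right.trans normalizer_le_JJ), ?_⟩
    refine pnilp_mono ?_ (key _ (cen_ne_bot hS2 hSb) (hS2.to_le cen_le)
      (inf_le_right.trans normalizer_le_cen))
    intro g hg
    apply mem_normalizer_of
    intro a ha
    rw [← mem_centralizer_iff.1 hg a ha, mul_inv_cancel_right]
    exact ha

theorem step2 (IH : IHyp p (Nat.card H)) (hH : Hyp p H) (hN : ¬ PNilp p H) (K : Subgroup H)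
    (hK : K.Normal) (hKp : ¬ p ∣ Nat.card K) : K = ⊥ := by
  by_contra hKb
  have hker : (QuotientGroup.mk' K).ker = K := QuotientGroup.ker_mk' K
  have hsur : Function.Surjective (QuotientGroup.mk' K) := QuotientGroup.mk'_surjective K
  have hKp' : ¬ p ∣ Nat.card (QuotientGroup.mk' K).ker := by rw [hker]; exact hKp
  have hlt : Nat.card (H ⧸ K) < Nat.card H := by
    rw [card_eq_card_quotient_mul_card_subgroup K]
    have h1 : 1 < Nat.card K := by
      rw [← not_le]
      intro h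
      apply hKb
      exact card_eq_one.1 (le_antisymm h Nat.card_pos)
    exact lt_mul_of_one_lt_right Nat.card_pos h1
  apply hN
  apply pnilp_of_ker (QuotientGroup.mk' K) hsur hKp'
  apply IH _ hlt
  obtain ⟨P⟩ : Nonempty (Sylow p H) := inferInstance
  have hinj : ∀ x ∈ (P : Subgroup H), QuotientGroup.mk' K x = 1 → x = 1 := by
    intro x hx hx1
    have h2 : x ∈ K := by rw [← hker]; exact hx1
    obtain ⟨e, he⟩ := P.isPGroup' ⟨x, hx⟩
    have he' : x ^ p ^ e = 1 := congrArg Subtype.val he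
    have h5 : x ^ Nat.card K = 1 := by
      have h5 : (⟨x, h2⟩ : K) ^ Nat.card K = 1 := pow_card_eq_one'
      exact congrArg Subtype.val h5
    exact eq_one_of_both he' h5 hKp
  obtain ⟨g1, g2⟩ := hH P P.isPGroup' P.not_dvd_index
  refine hyp_of_one (P := (P : Subgroup H).map (QuotientGroup.mk' K)) (P.isPGroup'.map _) ?_ ?_
  · intro hd
    exact P.not_dvd_index (hd.trans ((P : Subgroup H).index_map_dvd hsur))
  · refine ⟨?_, ?_⟩
    · rw [← JJ_map _ hinj]
      refine pnilp_mono ?_ (pnilp_map' (QuotientGroup.mk' K) g1)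
      intro y hy
      obtain ⟨g, rfl⟩ := hsur y
      obtain ⟨n, hn, hng⟩ := lift_normalizer _ hKp' (P.isPGroup'.to_le JJ_le) hy
      exact ⟨n, hn, hng⟩
    · rw [← cen_map _ hinj]
      refine pnilp_mono ?_ (pnilp_map' (QuotientGroup.mk' K) g2)
      intro y hy
      obtain ⟨g, rfl⟩ := hsur y
      obtain ⟨n, hn, hng⟩ := lift_centralizer _ hKp' (P.isPGroup'.to_le cen_le) hy
      exact ⟨n, hn, hng⟩

lemma exists_core (p : ℕ) [Fact p.Prime] (H : Type) [Group H] [Finite H] :
    ∃ X : Subgroup H, X.Normal ∧ IsPGroup p X ∧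
      ∀ Y : Subgroup H, Y.Normal → IsPGroup p Y → Y ≤ X := by
  obtain ⟨X, ⟨hX1, hX2⟩, hmax⟩ := Set.exists_max_image
    {X : Subgroup H | X.Normal ∧ IsPGroup p X} (fun X => Nat.card X) (Set.toFinite _)
    ⟨⊥, inferInstance, IsPGroup.of_bot⟩
  refine ⟨X, hX1, hX2, fun Y hY1 hY2 => ?_⟩
  have h1 : (X ⊔ Y).Normal := Subgroup.sup_normal X Y
  have h2 : IsPGroup p ↥(X ⊔ Y) := IsPGroup.to_sup_of_normal_right hX2 hY2
  have h3 := hmax _ ⟨h1, h2⟩
  have h4 := Subgroup.eq_of_le_of_card_ge (le_sup_left : X ≤ X ⊔ Y) h3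
  rw [h4]; exact le_sup_right

/-- the preimage of a normal `p`-subgroup is a normal `p`-subgroup -/
lemma core_quot {X : Subgroup H} (hX : X.Normal) (hXp : IsPGroup p X)
    (hmax : ∀ Y : Subgroup H, Y.Normal → IsPGroup p Y → Y ≤ X) (Y : Subgroup (H ⧸ X))
    (hY : Y.Normal) (hYp : IsPGroup p Y) : Y = ⊥ := by
  have h1 : IsPGroup p ↥(Y.comap (QuotientGroup.mk' X)) := by
    intro x
    obtain ⟨e, he⟩ := hYp ⟨QuotientGroup.mk' X x, x.2⟩
    have he' : QuotientGroup.mk' X (x ^ p ^ e : H) = 1 := by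
      rw [map_pow]; exact congrArg Subtype.val he
    have h2 : (x ^ p ^ e : H) ∈ X := (QuotientGroup.eq_one_iff _).1 he'
    obtain ⟨e2, he2⟩ := hXp ⟨_, h2⟩
    refine ⟨e + e2, Subtype.ext ?_⟩
    have : ((x : H) ^ p ^ e) ^ p ^ e2 = 1 := congrArg Subtype.val he2
    rw [pow_add, pow_mul]
    exact this
  have h2 := hmax _ (hY.comap (QuotientGroup.mk' X)) h1
  rw [eq_bot_iff]
  intro y hy
  obtain ⟨x, rfl⟩ := QuotientGroup.mk'_surjective X y
  have h3 : x ∈ X := h2 hy
  rw [mem_bot]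
  exact (QuotientGroup.eq_one_iff x).2 h3

theorem step3 (IH : IHyp p (Nat.card H)) (hH : Hyp p H) (hN : ¬ PNilp p H) {X : Subgroup H}
    (hX : X.Normal) (hXp : IsPGroup p X) (hXb : X ≠ ⊥)
    (hmax : ∀ Y : Subgroup H, Y.Normal → IsPGroup p Y → Y ≤ X) : PNilp p (H ⧸ X) := by
  have hker : (QuotientGroup.mk' X).ker = X := QuotientGroup.ker_mk' X
  have hsur : Function.Surjective (QuotientGroup.mk' X) := QuotientGroup.mk'_surjective X
  have hlt : Nat.card (H ⧸ X) < Nat.card H := by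
    rw [card_eq_card_quotient_mul_card_subgroup X]
    have h1 : 1 < Nat.card X := by
      rw [← not_le]
      intro h
      apply hXb
      exact card_eq_one.1 (le_antisymm h Nat.card_pos)
    exact lt_mul_of_one_lt_right Nat.card_pos h1
  apply IH _ hlt
  obtain ⟨P⟩ : Nonempty (Sylow p H) := inferInstance
  set P' : Subgroup (H ⧸ X) := (P : Subgroup H).map (QuotientGroup.mk' X) with hP'
  have hP'p : IsPGroup p P' := P.isPGroup'.map _
  have hP'b : P' ≠ ⊥ := by
    intro hb
    have h1 : (P : Subgroup H) ≤ X := by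
      rw [hP', Subgroup.map_eq_bot_iff, hker] at hb
      exact hb
    have h2 : (P : Subgroup H) = X := by
      apply le_antisymm h1
      obtain ⟨Q, hQ⟩ := hXp.exists_le_sylow
      obtain ⟨g, hg⟩ := MulAction.exists_smul_eq H Q P
      intro x hx
      have h3 : g⁻¹ * x * g ∈ X := by
        have := hX.conj_mem x hx g⁻¹
        rwa [inv_inv] at this
      have h4 := hQ h3
      rw [← hg]
      refine ⟨_, h4, ?_⟩
      change g * (g⁻¹ * x * g) * g⁻¹ = x
      group
    apply hN
    obtain ⟨g1, -⟩ := hH P P.isPGroup' P.not_dvd_index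
    apply pnilp_top
    refine pnilp_mono ?_ g1
    rw [h2]
    refine le_trans ?_ normalizer_le_JJ
    rw [normalizer_eq_top_iff.2 hX]
  have key : ∀ L : Subgroup (H ⧸ X), L ≠ ⊥ → IsPGroup p L →
      P' ≤ normalizer (L : Set (H ⧸ X)) → PNilp p ↥(normalizer (L : Set (H ⧸ X))) := by
    intro L hL1 hL2 hL3
    set M := (normalizer (L : Set (H ⧸ X))).comap (QuotientGroup.mk' X) with hM
    have hPM : (P : Subgroup H) ≤ M := by
      rw [hM, ← map_le_iff_le_comap]; exact hL3
    have hMt : M ≠ ⊤ := by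
      intro ht
      apply hL1
      apply core_quot hX hXp hmax L _ hL2
      rw [← normalizer_eq_top_iff, eq_top_iff]
      intro y _
      obtain ⟨x, rfl⟩ := hsur y
      have : x ∈ M := by rw [ht]; exact mem_top _
      exact this
    have h1 := sylow_sub IH hH hMt hPM P.isPGroup' P.not_dvd_index
    have h2 := pnilp_map' (QuotientGroup.mk' X) h1
    rwa [hM, map_comap_eq_self_of_surjective hsur] at h2
  refine hyp_of_one (P := P') hP'p ?_ ?_
  · intro hd
    exact P.not_dvd_index (hd.trans ((P : Subgroup H).index_map_dvd hsur))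
  · refine ⟨key _ (JJ_ne_bot hP'p hP'b) (hP'p.to_le JJ_le)
      (le_normalizer.trans normalizer_le_JJ), ?_⟩
    refine pnilp_mono ?_ (key _ (cen_ne_bot hP'p hP'b) (hP'p.to_le cen_le)
      (le_normalizer.trans normalizer_le_cen))
    intro g hg
    apply mem_normalizer_of
    intro a ha
    rw [← mem_centralizer_iff.1 hg a ha, mul_inv_cancel_right]
    exact ha

end Pool.Agent.T6.H88.FP.C4
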