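import Pool.Agent.T6.H88.FP.C4C

set_option autoImplicit false
set_option linter.unusedSectionVars false

/-! # Module C4, part D: the structure of a minimal counterexample -/

namespace Pool.Agent.T6.H88.FP.C4

open Subgroup Pool.Agent.R691.PN
open scoped commutatorElement

lemma central_complement {X : Type} [Group X] [Finite X] (Z : Subgroup X)
    (hZ : ∀ z ∈ Z, ∀ x : X, z * x = x * z) (hcop : (Nat.card Z).Coprime Z.index) :
    ∃ K : Subgroup X, (∀ x, x ∈ K ↔ (orderOf x).Coprime (Nat.card Z)) ∧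
      ∀ x, ∃ z ∈ Z, ∃ y ∈ K, x = z * y := by
  have hn : Z.Normal := ⟨fun z hz x => by rw [← hZ z hz x]; simpa using hz⟩
  obtain ⟨K, hK⟩ := Subgroup.exists_right_complement'_of_coprime hcop
  have hdec : ∀ x, ∃ z ∈ Z, ∃ y ∈ K, x = z * y := by
    intro x
    obtain ⟨⟨⟨z, hz⟩, ⟨y, hy⟩⟩, h⟩ := hK.2 x
    exact ⟨z, hz, y, hy, h.symm⟩
  refine ⟨K, fun x => ⟨fun hx => ?_, fun hx => ?_⟩, hdec⟩
  · have h1 : orderOf x ∣ Nat.card K := Subgroup.orderOf_dvd_natCard K hx
    have h2 : Nat.card K = Z.index := hK.symm.index_eq_card.symm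
    rw [h2] at h1
    exact (Nat.Coprime.coprime_dvd_right h1 hcop).symm
  · obtain ⟨z, hz, y, hy, rfl⟩ := hdec x
    have h1 : z * y = y * z := hZ z hz y
    have h2 : (z * y) ^ orderOf (z * y) = 1 := pow_orderOf_eq_one _
    have hcomm : Commute z y := h1
    rw [hcomm.mul_pow] at h2
    have h3 : z ^ orderOf (z * y) ∈ Z ⊓ K := by
      refine ⟨Z.pow_mem hz _, ?_⟩
      rw [eq_inv_of_mul_eq_one_left h2]
      exact K.inv_mem (K.pow_mem hy _)
    rw [hK.disjoint.eq_bot, Subgroup.mem_bot] at h3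
    have h4 : orderOf z ∣ orderOf (z * y) := orderOf_dvd_of_pow_eq_one h3
    have h5 : orderOf z ∣ Nat.card Z := Subgroup.orderOf_dvd_natCard Z hz
    have h6 : orderOf z = 1 := Nat.eq_one_of_dvd_coprimes hx h4 h5
    rw [orderOf_eq_one_iff] at h6
    rw [h6, one_mul]; exact hy

variable {H : Type} [Group H] [Finite H] {p : ℕ} [hp : Fact p.Prime]

lemma central_trick {Z C : Subgroup H} (hZC : Z ≤ C) (hC : C.Normal)
    (hcen : ∀ z ∈ Z, ∀ x ∈ C, z * x = x * z) (hcop : (Nat.card Z).Coprime (Z.relIndex C)) :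
    ∃ K : Subgroup H, K.Normal ∧ K ≤ C ∧
      (∀ x ∈ C, x ∈ K ↔ (orderOf x).Coprime (Nat.card Z)) ∧
      ∀ x ∈ C, ∃ z ∈ Z, ∃ y ∈ K, x = z * y := by
  have hc1 : Nat.card (Z.subgroupOf C) = Nat.card Z :=
    Nat.card_congr (Subgroup.subgroupOfEquivOfLe hZC).toEquiv
  obtain ⟨K, hK1, hK2⟩ := central_complement (Z.subgroupOf C) (by
    intro z hz x
    exact Subtype.ext (hcen z hz x x.2)) (by
    rw [hc1]; exact hcop)
  rw [hc1] at hK1
  have hmem : ∀ x ∈ C, x ∈ K.map C.subtype ↔ (orderOf x).Coprime (Nat.card Z) := by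
    intro x hx
    have h1 := hK1 ⟨x, hx⟩
    rw [← Subgroup.orderOf_coe] at h1
    rw [← h1]
    constructor
    · rintro ⟨y, hy, hyx⟩
      have : y = ⟨x, hx⟩ := Subtype.ext hyx
      rwa [← this]
    · intro h
      exact ⟨_, h, rfl⟩
  have hKC : K.map C.subtype ≤ C := by
    rintro _ ⟨y, -, rfl⟩; exact y.2
  refine ⟨K.map C.subtype, ?_, hKC, hmem, ?_⟩
  · constructor
    intro x hx g
    have h1 : g * x * g⁻¹ ∈ C := hC.conj_mem x (hKC hx) g
    rw [hmem _ h1]
    have h2 : orderOf (MulAut.conj g x) = orderOf x :=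
      orderOf_injective (MulAut.conj g).toMonoidHom (MulAut.conj g).injective _
    have h3 : MulAut.conj g x = g * x * g⁻¹ := rfl
    rw [h3] at h2
    rw [h2]
    exact (hmem x (hKC hx)).1 hx
  · intro x hx
    obtain ⟨z, hz, y, hy, h⟩ := hK2 ⟨x, hx⟩
    exact ⟨z, hz, y, ⟨y, hy, rfl⟩, congrArg Subtype.val h⟩

lemma eq_one_of_mem {X : Subgroup H} (hXp : IsPGroup p X) {x : H} (hx : x ∈ X)
    (hxp : ¬ p ∣ orderOf x) : x = 1 := by
  obtain ⟨e, he⟩ := hXp ⟨x, hx⟩
  have he' : x ^ p ^ e = 1 := congrArg Subtype.val he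
  exact eq_one_of_both he' (pow_orderOf_eq_one x) hxp

/-- a subgroup all `p'`-elements of which are trivial is a `p`-group -/
lemma isPGroup_of {M : Subgroup H} (h : ∀ x ∈ M, ¬ p ∣ orderOf x → x = 1) : IsPGroup p M := by
  intro x
  obtain ⟨k, l, h1, ⟨e, he⟩, h3⟩ := decomp p (x : H)
  have h4 := h _ (M.pow_mem x.2 l) h3
  rw [h4, mul_one] at h1
  rw [h1] at he
  exact ⟨e, Subtype.ext he⟩

lemma normal_centralizer_of {X : Subgroup H} (hX : X.Normal) :
    (centralizer (X : Set H)).Normal := by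
  constructor
  intro x hx g
  rw [mem_centralizer_iff] at hx ⊢
  intro y hy
  have h1 : g⁻¹ * y * g ∈ X := by
    have := hX.conj_mem y hy g⁻¹
    rwa [inv_inv] at this
  have h2 := hx _ h1
  calc y * (g * x * g⁻¹) = g * (g⁻¹ * y * g * x) * g⁻¹ := by group
    _ = g * (x * (g⁻¹ * y * g)) * g⁻¹ := by rw [h2]
    _ = g * x * g⁻¹ * y := by group

lemma pow_p_card {X : Subgroup H} (hXp : IsPGroup p X) {n : ℕ} (hn : ¬ p ∣ n) :
    n.Coprime (Nat.card X) := by
  obtain ⟨c, hc⟩ := hXp.exists_card_eq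
  rw [hc]
  exact (((Nat.Prime.coprime_iff_not_dvd hp.out).2 hn).pow_left c).symm

theorem step4 {X K : Subgroup H} (hX : X.Normal) (hXp : IsPGroup p X)
    (hmax : ∀ Y : Subgroup H, Y.Normal → IsPGroup p Y → Y ≤ X)
    (hO : ∀ Y : Subgroup H, Y.Normal → ¬ p ∣ Nat.card Y → Y = ⊥)
    (hK : K.Normal) {k : ℕ} (hKi : K.index = p ^ k) {m : ℕ} (hm : ¬ p ∣ m)
    (hKm : ∀ x ∈ K, x ^ m ∈ X) : centralizer (X : Set H) ≤ X := by
  set C := centralizer (X : Set H) with hCdef
  have hC : C.Normal := normal_centralizer_of hX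
  have hD : (C ⊓ K).Normal := Subgroup.normal_inf_normal C K
  have hZD : C ⊓ K ⊓ X ≤ C ⊓ K := inf_le_left
  have hZp : IsPGroup p ↥(C ⊓ K ⊓ X) := hXp.to_le inf_le_right
  obtain ⟨L, hL1, hL2, hL3, -⟩ := central_trick hZD hD (by
    intro z hz x hx
    exact mem_centralizer_iff.1 hx.1 z hz.2) (by
    apply Nat.Coprime.symm
    apply pow_p_card hZp
    intro hd
    -- an element of order p in the quotient
    have hn : ((C ⊓ K ⊓ X).subgroupOf (C ⊓ K)).Normal := by
      have : (C ⊓ K ⊓ X).Normal := Subgroup.normal_inf_normal _ _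
      exact inferInstance
    have h1 : p ∣ Nat.card (↥(C ⊓ K) ⧸ ((C ⊓ K ⊓ X).subgroupOf (C ⊓ K))) := hd
    obtain ⟨y, hy⟩ := exists_prime_orderOf_dvd_card' p h1
    obtain ⟨x, rfl⟩ := QuotientGroup.mk_surjective y
    have h2 : ((QuotientGroup.mk x : ↥(C ⊓ K) ⧸ ((C ⊓ K ⊓ X).subgroupOf (C ⊓ K)))) ^ m = 1 := by
      rw [← QuotientGroup.mk_pow, QuotientGroup.eq_one_iff]
      exact ⟨(x ^ m).2, hKm x x.2.2⟩
    have h3 := orderOf_dvd_of_pow_eq_one h2
    rw [hy] at h3
    exact hm h3)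
  have hLb : L = ⊥ := by
    apply hO L hL1
    rw [not_dvd_card_iff]
    intro x hx hxp
    have hxD := hL2 hx
    have h1 := (hL3 x hxD).1 hx
    have h2 : x ^ m ∈ C ⊓ K ⊓ X := ⟨(C ⊓ K).pow_mem hxD m, hKm x hxD.2⟩
    have h3 : orderOf (x ^ m) ∣ Nat.card ↥(C ⊓ K ⊓ X) := Subgroup.orderOf_dvd_natCard _ h2
    have h4 : x ^ m = 1 :=
      orderOf_eq_one_iff.1 (Nat.eq_one_of_dvd_coprimes h1 (orderOf_pow_dvd m) h3)
    have h5 : x ^ p ^ 1 = 1 := by rw [pow_one]; exact hxp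
    exact eq_one_of_both h5 h4 hm
  apply hmax C hC
  apply isPGroup_of
  intro x hx hxp
  have hxK : x ∈ K := mem_of_index hKi hxp
  have h1 : x ∈ L := (hL3 x ⟨hx, hxK⟩).2 (pow_p_card hZp hxp)
  rw [hLb] at h1
  exact h1

lemma normal_le_sylow {X : Subgroup H} (hX : X.Normal) (hXp : IsPGroup p X) (P : Sylow p H) :
    X ≤ P := by
  obtain ⟨Q, hQ⟩ := hXp.exists_le_sylow
  obtain ⟨g, hg⟩ := MulAction.exists_smul_eq H Q P
  intro x hx
  have h3 : g⁻¹ * x * g ∈ X := by
    have := hX.conj_mem x hx g⁻¹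
    rwa [inv_inv] at this
  have h4 := hQ h3
  rw [← hg]
  refine ⟨_, h4, ?_⟩
  change g * (g⁻¹ * x * g) * g⁻¹ = x
  group

/-- subgroups of index prime to `p` contain a Sylow subgroup -/
lemma exists_sylow_le {M : Subgroup H} (h : ¬ p ∣ M.index) : ∃ P : Sylow p H,
    (P : Subgroup H) ≤ M := by
  obtain ⟨T⟩ : Nonempty (Sylow p M) := inferInstance
  have h1 : IsPGroup p ↥((T : Subgroup M).map M.subtype) := T.isPGroup'.map _
  have h2 : ¬ p ∣ ((T : Subgroup M).map M.subtype).index := by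
    rw [index_map_subtype]
    intro hd
    rcases hp.out.dvd_mul.1 hd with h3 | h3
    · exact T.not_dvd_index h3
    · exact h h3
  refine ⟨h1.toSylow h2, ?_⟩
  rintro _ ⟨y, -, rfl⟩
  exact y.2

theorem step5 (IH : IHyp p (Nat.card H)) (hH : Hyp p H) {X : Subgroup H}
    (hX : X.Normal) (hXp : IsPGroup p X) (hCX : centralizer (X : Set H) ≤ X)
    (M : Subgroup H) (hM : M ≠ ⊤) (hMi : ¬ p ∣ M.index) : IsPGroup p M := by
  obtain ⟨P, hP⟩ := exists_sylow_le hMi
  have h1 := sylow_sub IH hH hM hP P.isPGroup' P.not_dvd_index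
  have hXM : X ≤ M := (normal_le_sylow hX hXp P).trans hP
  apply isPGroup_of
  intro g hg hgp
  apply eq_one_of_mem hXp _ hgp
  apply hCX
  rw [mem_centralizer_iff]
  intro x hx
  have h2 := h1.comm (Q := X.subgroupOf M)
    (hXp.comap_of_injective M.subtype M.subtype_injective) (g := ⟨g, hg⟩) (by
    apply mem_normalizer_of
    intro a ha
    exact hX.conj_mem _ ha g) (by rwa [← Subgroup.orderOf_coe]) (x := ⟨x, hXM hx⟩) hx
  exact (congrArg Subtype.val h2).symm

theorem quot_struct (h1 : ∀ M : Subgroup H, M ≠ ⊤ → ¬ p ∣ M.index → IsPGroup p M)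
    {K : Subgroup H} (hK : K.Normal) (hKp : ¬ p ∣ Nat.card K) :
    (∀ N : Subgroup H, N.Normal → ¬ IsPGroup p N → K ≤ N) ∧
    (∀ x ∈ K, ∀ y ∈ K, x * y = y * x) := by
  have hord : ∀ x ∈ K, ¬ p ∣ orderOf x := fun x hx hd =>
    hKp (hd.trans (Subgroup.orderOf_dvd_natCard K hx))
  have claim : ∀ N : Subgroup H, N.Normal → ¬ IsPGroup p N → K ≤ N := by
    intro N hN hNp x hx
    obtain ⟨P⟩ : Nonempty (Sylow p H) := inferInstance
    have h2 : (P : Subgroup H) ⊔ N = ⊤ := by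
      by_contra h3
      apply hNp
      refine (h1 _ h3 ?_).to_le le_sup_right
      intro hd
      exact P.not_dvd_index (hd.trans (index_dvd_of_le le_sup_left))
    have h4 : N.index ∣ Nat.card P := by
      rw [← relIndex_top_right, ← h2, relIndex_sup_right]
      exact relIndex_dvd_card _ _
    obtain ⟨c, hc⟩ := P.isPGroup'.exists_card_eq
    rw [hc] at h4
    obtain ⟨j, -, hj⟩ := (Nat.dvd_prime_pow hp.out).1 h4
    exact mem_of_index hj (hord x hx)
  refine ⟨claim, ?_⟩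
  by_cases hKb : K = ⊥
  · intro x hx y hy
    rw [hKb, mem_bot] at hx hy
    rw [hx, hy]
  have hK1 : Nat.card K ≠ 1 := fun h => hKb (card_eq_one.1 h)
  obtain ⟨q, hq, hqd⟩ := Nat.exists_prime_and_dvd hK1
  have hq' : Fact q.Prime := ⟨hq⟩
  obtain ⟨Q⟩ : Nonempty (Sylow q K) := inferInstance
  set Q' : Subgroup H := (Q : Subgroup K).map K.subtype with hQ'
  have hQne : ∃ x ∈ Q', orderOf x = q := by
    have h2 : q ∣ Nat.card Q := Q.dvd_card_of_dvd_card hqd
    obtain ⟨x, hx⟩ := exists_prime_orderOf_dvd_card' q h2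
    refine ⟨(x : K), ⟨x, x.2, rfl⟩, ?_⟩
    rw [Subgroup.orderOf_coe, Subgroup.orderOf_coe, hx]
  have hQnp : ∀ M : Subgroup H, Q' ≤ M → ¬ IsPGroup p M := by
    intro M hM hMp
    obtain ⟨x, hx, hxo⟩ := hQne
    have hxK : x ∈ K := by
      obtain ⟨y, -, rfl⟩ := hx; exact y.2
    have := eq_one_of_mem hMp (hM hx) (hord x hxK)
    rw [this, orderOf_one] at hxo
    exact hq.one_lt.ne hxo
  have hfr : normalizer (Q' : Set H) ⊔ K = ⊤ := Sylow.normalizer_sup_eq_top Q
  have hNt : normalizer (Q' : Set H) = ⊤ := by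
    by_contra h3
    apply hQnp _ le_normalizer
    apply h1 _ h3
    intro hd
    apply hKp
    have h4 : (normalizer (Q' : Set H)).index * Nat.card ↥(normalizer (Q' : Set H)) =
        Nat.card K * K.relIndex (normalizer (Q' : Set H)) := by
      rw [index_mul_card, ← card_mul_index K, ← relIndex_top_right, ← hfr, relIndex_sup_right]
    obtain ⟨c, hc⟩ := relIndex_dvd_card K (normalizer (Q' : Set H))
    have h5 : 0 < K.relIndex (normalizer (Q' : Set H)) := by
      apply Nat.pos_of_ne_zero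
      intro h0
      rw [h0, zero_mul] at hc
      exact Nat.card_pos.ne' hc
    rw [hc, mul_comm (K.relIndex _) c, ← mul_assoc] at h4
    have h6 := Nat.eq_of_mul_eq_mul_right h5 h4
    rw [← h6]
    exact hd.mul_right c
  have hQn : Q'.Normal := normalizer_eq_top_iff.1 hNt
  have hKQ : K ≤ Q' := claim Q' hQn (hQnp Q' le_rfl)
  have hKq : IsPGroup q K := (Q.isPGroup'.map K.subtype).to_le hKQ
  have hnil : Group.IsNilpotent K := hKq.isNilpotent
  have hnt : Nontrivial K := (nontrivial_iff_ne_bot _).2 hKb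
  have hsolv : Group.IsSolvable K := inferInstance
  have h7 : commutator K < ⊤ := Group.IsSolvable.commutator_lt_top_of_nontrivial K
  have h8 : (⁅K, K⁆ : Subgroup H) = (commutator K).map K.subtype := by
    rw [commutator_def, map_commutator, ← MonoidHom.range_eq_map, range_subtype]
  have h9 : IsPGroup p ↥(⁅K, K⁆ : Subgroup H) := by
    by_contra h10
    have h11 := claim ⁅K, K⁆ inferInstance h10
    rw [h8] at h11
    obtain ⟨x, -, hx⟩ := SetLike.exists_of_lt h7
    obtain ⟨y, hy, hyx⟩ := h11 x.2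
    apply hx
    have : y = x := Subtype.ext hyx
    rwa [← this]
  have h10 : (⁅K, K⁆ : Subgroup H) ≤ K := commutator_le_left K K
  intro x hx y hy
  have h11 : ⁅x, y⁆ ∈ ⁅K, K⁆ := commutator_mem_commutator hx hy
  have h12 := eq_one_of_mem h9 h11 (hord _ (h10 h11))
  exact commutatorElement_eq_one_iff_mul_comm.1 h12

/-- `K` contains its centraliser -/
theorem quot_cen (h2 : ∀ N : Subgroup H, N.Normal → IsPGroup p N → N = ⊥)
    {K : Subgroup H} (hK : K.Normal) (hKp : ¬ p ∣ Nat.card K) {k : ℕ} (hKi : K.index = p ^ k)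
    (hKc : ∀ x ∈ K, ∀ y ∈ K, x * y = y * x) : centralizer (K : Set H) ≤ K := by
  set C := centralizer (K : Set H) with hCdef
  have hC : C.Normal := normal_centralizer_of hK
  have hKC : K ≤ C := by
    intro x hx
    rw [hCdef, mem_centralizer_iff]
    intro y hy
    exact hKc y hy x hx
  have hcop : (p ^ k).Coprime (Nat.card K) :=
    ((Nat.Prime.coprime_iff_not_dvd hp.out).2 hKp).pow_left k
  obtain ⟨L, hL1, hL2, hL3, hL4⟩ := central_trick hKC hC (by
    intro z hz x hx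
    exact mem_centralizer_iff.1 hx z hz) (by
    have h3 : K.relIndex C ∣ p ^ k := by
      rw [← hKi]; exact relIndex_dvd_index_of_le hKC
    exact (Nat.Coprime.coprime_dvd_left h3 hcop).symm)
  have hLb : L = ⊥ := by
    apply h2 L hL1
    apply isPGroup_of
    intro x hx hxp
    have h3 : x ∈ K := mem_of_index hKi hxp
    have h4 := (hL3 x (hL2 hx)).1 hx
    exact orderOf_eq_one_iff.1
      (Nat.eq_one_of_dvd_coprimes h4 dvd_rfl (Subgroup.orderOf_dvd_natCard K h3))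
  intro x hx
  obtain ⟨z, hz, y, hy, rfl⟩ := hL4 x hx
  rw [hLb, mem_bot] at hy
  rw [hy, mul_one]
  exact hz

end Pool.Agent.T6.H88.FP.C4
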