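import Pool.Agent.T6.H88.FP.C4D

set_option autoImplicit false
set_option linter.unusedSectionVars false

/-! # Module C4, part E: the linear part -/

namespace Pool.Agent.T6.H88.FP.C4

open Subgroup Pool.Agent.R691.PN

variable {H : Type} [Group H] [Finite H] {p : ℕ} [hp : Fact p.Prime]

/-- a homomorphism to linear automorphisms from an action by additive maps -/
theorem exists_hom {V : Type} [AddCommGroup V] [Module (ZMod p) V] (f : H → (V →+ V))
    (hf1 : ∀ v, f 1 v = v) (hfm : ∀ g h v, f (g * h) v = f g (f h v)) :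
    ∃ φ : H →* (V ≃ₗ[ZMod p] V), ∀ g v, φ g v = f g v := by
  have hinv1 : ∀ g v, f g⁻¹ (f g v) = v := fun g v => by rw [← hfm, inv_mul_cancel, hf1]
  have hinv2 : ∀ g v, f g (f g⁻¹ v) = v := fun g v => by rw [← hfm, mul_inv_cancel, hf1]
  let F : H → (V ≃ₗ[ZMod p] V) := fun g =>
    { toFun := f g
      invFun := f g⁻¹
      map_add' := map_add (f g)
      map_smul' := fun c v => ZMod.map_smul (f g) c v
      left_inv := hinv1 g
      right_inv := hinv2 g }
  have hF : ∀ g v, F g v = f g v := fun g v => rfl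
  refine ⟨⟨⟨F, ?_⟩, ?_⟩, hF⟩
  · apply LinearEquiv.ext
    intro v
    rw [hF, hf1]
    rfl
  · intro g h
    apply LinearEquiv.ext
    intro v
    change F (g * h) v = F g (F h v)
    rw [hF, hF, hF, hfm]

/-- the conjugation action on a normal elementary abelian subgroup -/
theorem exists_rep (W : Subgroup H) (hW : W.Normal) (hc : ∀ x ∈ W, ∀ y ∈ W, x * y = y * x)
    (he : ∀ x ∈ W, x ^ p = 1) :
    ∃ (V : Type) (_ : AddCommGroup V) (_ : Module (ZMod p) V) (φ : H →* (V ≃ₗ[ZMod p] V))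
      (e : V ≃ ↥W), ∀ g v, ((e (φ g v) : ↥W) : H) = g * e v * g⁻¹ := by
  let iG : CommGroup ↥W :=
    { (inferInstance : Group ↥W) with mul_comm := fun a b => Subtype.ext (hc a a.2 b b.2) }
  let iM : Module (ZMod p) (Additive ↥W) := AddCommGroup.zmodModule (n := p) (by
    intro x
    apply Additive.toMul.injective
    apply Subtype.ext
    exact he _ (Additive.toMul x).2)
  let f : H → (Additive ↥W →+ Additive ↥W) := fun g =>
    { toFun := fun v => Additive.ofMul (⟨g * (Additive.toMul v : ↥W) * g⁻¹,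
        hW.conj_mem _ (Additive.toMul v : ↥W).2 g⟩ : ↥W)
      map_zero' := by
        apply Additive.toMul.injective
        apply Subtype.ext
        change g * ((1 : ↥W) : H) * g⁻¹ = ((1 : ↥W) : H)
        simp
      map_add' := by
        intro v w
        apply Additive.toMul.injective
        apply Subtype.ext
        change g * (((Additive.toMul v : ↥W) : H) * (Additive.toMul w : ↥W)) * g⁻¹ =
          g * (Additive.toMul v : ↥W) * g⁻¹ * (g * (Additive.toMul w : ↥W) * g⁻¹)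
        group }
  have hfv : ∀ g v, ((Additive.toMul (f g v) : ↥W) : H) = g * (Additive.toMul v : ↥W) * g⁻¹ :=
    fun g v => rfl
  obtain ⟨φ, hφ⟩ := exists_hom (p := p) f (by
    intro v
    apply Additive.toMul.injective
    apply Subtype.ext
    rw [hfv, one_mul, inv_one, mul_one]) (by
    intro g h v
    apply Additive.toMul.injective
    apply Subtype.ext
    rw [hfv, hfv, hfv]
    group)
  refine ⟨Additive ↥W, inferInstance, iM, φ, Additive.toMul, fun g v => ?_⟩
  rw [hφ, hfv]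

theorem offend (hOff : StmtOff) (hTrA : StmtTrA) (hp2 : p ≠ 2) {V : Type} [AddCommGroup V]
    [Module (ZMod p) V] [Finite V] (φ : H →* (V ≃ₗ[ZMod p] V)) {A K : Subgroup H}
    (hA : eab p A) (hAne : ¬ A ≤ φ.ker) (hK : K.Normal) {m : ℕ} (hm : ¬ p ∣ m)
    (hKm : ∀ x ∈ K, φ (x ^ m) = 1) (hKc : ∀ x ∈ K, ∀ y ∈ K, φ (x * y) = φ (y * x))
    (hcen : ∀ a ∈ A, (∀ k ∈ K, φ (a * k) = φ (k * a)) → φ a = 1)
    (hcard : Nat.card V ≤ Nat.card (A.map φ) * Nat.card {v : V // ∀ a ∈ A, φ a v = v}) :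
    False := by
  have hfin : Finite (V ≃ₗ[ZMod p] V) :=
    Finite.of_injective (fun f => (f : V → V)) DFunLike.coe_injective
  have hKp : ¬ p ∣ Nat.card (K.map φ) := by
    rw [not_dvd_card_iff]
    rintro _ ⟨x, hx, rfl⟩ hxp
    have h1 : (φ x) ^ m = 1 := by rw [← map_pow]; exact hKm x hx
    have h2 : (φ x) ^ p ^ 1 = 1 := by rw [pow_one]; exact hxp
    exact eq_one_of_both h2 h1 hm
  have hcomm : ∀ x ∈ K.map φ, ∀ y ∈ K.map φ, x * y = y * x := by
    rintro _ ⟨x, hx, rfl⟩ _ ⟨y, hy, rfl⟩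
    rw [← map_mul, ← map_mul]
    exact hKc x hx y hy
  have hinv : ∀ g : H, φ g ∈ normalizer (K.map φ : Set (V ≃ₗ[ZMod p] V)) := by
    intro g
    apply mem_normalizer_of
    rintro _ ⟨x, hx, rfl⟩
    refine ⟨g * x * g⁻¹, hK.conj_mem x hx g, ?_⟩
    rw [map_mul, map_mul, map_inv]
  have hcenb : cen (A.map φ) (K.map φ : Set (V ≃ₗ[ZMod p] V)) = ⊥ := by
    rw [eq_bot_iff]
    intro x hx
    obtain ⟨⟨a, ha, rfl⟩, h2⟩ := mem_cen.1 hx
    rw [mem_bot]
    apply hcen a ha
    intro k hk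
    rw [map_mul, map_mul]
    exact (h2 (φ k) ⟨k, hk, rfl⟩).symm
  obtain ⟨a, ha, ha1, hac⟩ := hOff p hp V (A.map φ) (K.map φ) (eab_map φ hA) (by
      intro hb
      apply hAne
      rwa [Subgroup.map_eq_bot_iff] at hb) (by
      rintro _ ⟨x, -, rfl⟩
      exact hinv x) hKp (Group.isSolvable_of_comm (by
      intro a b
      exact Subtype.ext (hcomm a a.2 b b.2))) hcenb (by
      refine hcard.trans (Nat.mul_le_mul_left _ ?_)
      apply Nat.card_le_card_of_injective
        (fun v : {v : V // ∀ a ∈ A, φ a v = v} =>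
          (⟨v.1, by rintro _ ⟨a, ha, rfl⟩; exact v.2 a ha⟩ :
            {w : V // ∀ a ∈ A.map φ, a w = w}))
      intro v w hvw
      exact Subtype.ext (congrArg (fun z => z.1) hvw))
  obtain ⟨a₀, ha₀, rfl⟩ := ha
  have h3 := hTrA p hp V (K.map φ) (φ a₀) hp2 hKp hcomm (by
    intro x hx
    rw [mem_zpowers_iff] at hx
    obtain ⟨k, rfl⟩ := hx
    rw [← map_zpow]
    exact hinv _) (by rw [← map_pow, hA.1 a₀ ha₀, map_one]) hac
  apply ha1
  apply hcen a₀ ha₀
  intro k hk
  rw [map_mul, map_mul]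
  exact h3 (φ k) ⟨k, hk, rfl⟩

end Pool.Agent.T6.H88.FP.C4
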