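import Pool.Agent.T6.H88.FP.Tools

/-! # Project FP, module D10: solubility -/

namespace Pool.Agent.T6.H88.FP

open Subgroup
open scoped Pointwise

/-- a quotient of `G` with its action of `V` -/
theorem quot_setup (hCop : StmtCop) (hLift : StmtLift) {Γ : Type} [Group Γ] [Finite Γ] {p : ℕ}
    {V G N : Subgroup Γ} (hE : ElAb p V) (hV : Inv V G) (hfpf : cen G V = ⊥) (hN : N ≤ G)
    (hVN : Inv V N) (hGN : Inv G N) (hN0 : N ≠ ⊥) :
    ∃ (Γ' : Type) (_ : Group Γ') (_ : Finite Γ') (V' G' : Subgroup Γ'), ElAb p V' ∧ Inv V' G' ∧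
      cen G' V' = ⊥ ∧ Nat.card G' < Nat.card G ∧ Nat.card V' ≤ Nat.card V ∧
      ∃ f : G →* G', Function.Surjective f ∧ f.ker = N.subgroupOf G := by
  classical
  have hle : G ⊔ V ≤ normalizer (N : Set Γ) := sup_le hGN hVN
  let H : Subgroup Γ := G ⊔ V
  have hGH : G ≤ H := le_sup_left
  have hVH : V ≤ H := le_sup_right
  let N' : Subgroup H := N.subgroupOf H
  have hN' : N'.Normal := (normal_subgroupOf_iff_le_normalizer (hN.trans hGH)).2 hle
  let π : H →* H ⧸ N' := QuotientGroup.mk' N'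
  let G' : Subgroup (H ⧸ N') := (G.subgroupOf H).map π
  let V' : Subgroup (H ⧸ N') := (V.subgroupOf H).map π
  have hπ : ∀ x : H, π x = 1 ↔ (x : Γ) ∈ N := by
    intro x
    change (QuotientGroup.mk' N') x = 1 ↔ _
    rw [QuotientGroup.mk'_apply, QuotientGroup.eq_one_iff, mem_subgroupOf]
  have hEV : ElAb p V' := by
    refine ⟨hE.prime, ?_, ?_⟩
    · rintro _ ⟨v, hv, rfl⟩
      have : v ^ p = 1 := Subtype.ext (hE.exp v (mem_subgroupOf.1 hv))
      rw [← map_pow, this, map_one]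
    · rintro _ ⟨v, hv, rfl⟩ _ ⟨w, hw, rfl⟩
      have : v * w = w * v := Subtype.ext (hE.comm v (mem_subgroupOf.1 hv) w
        (mem_subgroupOf.1 hw))
      rw [← map_mul, ← map_mul, this]
  have hI : Inv V' G' := by
    rw [inv_iff]
    rintro _ ⟨v, hv, rfl⟩ _ ⟨x, hx, rfl⟩
    rw [← map_mul, ← map_inv, ← map_mul]
    refine ⟨_, ?_, rfl⟩
    exact inv_iff.1 hV _ (mem_subgroupOf.1 hv) _ (mem_subgroupOf.1 hx)
  have hc : cen G' V' = ⊥ := by
    rw [eq_bot_iff]
    intro x hx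
    obtain ⟨⟨g, hg, rfl⟩, hx2⟩ := mem_cen.1 hx
    have hg' : (g : Γ) ∈ G := mem_subgroupOf.1 hg
    have hp : ¬ p ∣ Nat.card N := by
      refine hCop Γ p V N hE hVN ?_
      rw [eq_bot_iff, ← hfpf]
      exact inf_le_inf_right _ hN
    obtain ⟨n, hn, hn2⟩ := hLift Γ p V N (g : Γ) hE.prime hE.isPGroup hVN hp (by
      intro b hb
      have h1 := hx2 (π ⟨b, hVH hb⟩) ⟨⟨b, hVH hb⟩, mem_subgroupOf.2 hb, rfl⟩
      have h2 : π (g⁻¹ * (⟨b, hVH hb⟩ * g * (⟨b, hVH hb⟩ : H)⁻¹)) = 1 := by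
        rw [map_mul, map_mul, map_mul, h1, map_inv, map_inv]
        group
      exact (hπ _).1 h2)
    have h3 : (g : Γ) * n ∈ cen G (V : Set Γ) := mem_cen.2 ⟨G.mul_mem hg' (hN hn), hn2⟩
    rw [hfpf, mem_bot] at h3
    have h4 : (g : Γ) = n⁻¹ := eq_inv_of_mul_eq_one_left h3
    rw [mem_bot]
    exact (hπ g).2 (h4 ▸ N.inv_mem hn)
  let f : G →* G' := (π.comp (Subgroup.inclusion hGH)).codRestrict G'
    (fun x => ⟨Subgroup.inclusion hGH x, mem_subgroupOf.2 x.2, rfl⟩)
  have hfs : Function.Surjective f := by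
    rintro ⟨_, ⟨x, hx, rfl⟩⟩
    exact ⟨⟨x, mem_subgroupOf.1 hx⟩, rfl⟩
  have hfk : f.ker = N.subgroupOf G := by
    ext x
    rw [MonoidHom.mem_ker, mem_subgroupOf]
    constructor
    · intro h
      exact (hπ _).1 (congrArg Subtype.val h)
    · intro h
      exact Subtype.ext ((hπ (Subgroup.inclusion hGH x)).2 h)
  refine ⟨H ⧸ N', inferInstance, inferInstance, V', G', hEV, hI, hc, ?_, ?_, f, hfs, hfk⟩
  · have h1 : Nat.card G' * Nat.card f.ker = Nat.card G := by
      rw [mul_comm, ← Subgroup.card_mul_index f.ker, Subgroup.index_ker,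
        MonoidHom.range_eq_top.2 hfs, card_top]
    have h2 : 1 < Nat.card f.ker := by
      rw [hfk, Nat.card_congr (subgroupOfEquivOfLe hN).toEquiv]
      exact (one_lt_card_iff_ne_bot N).2 hN0
    have h3 : 0 < Nat.card G' := Nat.card_pos
    rw [← h1]
    nlinarith
  · have h1 : Nat.card V' ≤ Nat.card (V.subgroupOf H) :=
      Nat.card_le_card_of_surjective _ (MonoidHom.subgroupMap_surjective π (V.subgroupOf H))
    rwa [Nat.card_congr (subgroupOfEquivOfLe hVH).toEquiv] at h1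

/-- a complement of a cyclic subgroup of an elementary abelian group -/
lemma exists_compl {Γ : Type} [Group Γ] [Finite Γ] {p : ℕ} {V : Subgroup Γ} (hE : ElAb p V)
    {v : Γ} (hv1 : v ≠ 1) :
    ∃ V₁ ≤ V, v ∉ V₁ ∧ V ≤ V₁ ⊔ zpowers v := by
  classical
  have hfin : {K : Subgroup Γ | K ≤ V ∧ v ∉ K}.Finite := Set.toFinite _
  obtain ⟨K, hK⟩ := hfin.exists_maximal ⟨⊥, bot_le, fun h => hv1 (mem_bot.1 h)⟩
  refine ⟨K, hK.prop.1, hK.prop.2, fun w hw => ?_⟩
  by_contra hcon
  have h1 : ¬ (K ⊔ zpowers w ≤ V ∧ v ∉ K ⊔ zpowers w) := by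
    intro h
    have h2 : K ⊔ zpowers w ≤ K := hK.le_of_ge h le_sup_left
    have h3 : w ∈ K := h2 ((le_sup_right : zpowers w ≤ K ⊔ zpowers w) (mem_zpowers w))
    exact hcon ((le_sup_left : K ≤ K ⊔ zpowers v) h3)
  have h2 : v ∈ K ⊔ zpowers w := by
    by_contra h3
    exact h1 ⟨sup_le hK.prop.1 (by rwa [zpowers_le]), h3⟩
  have hKw : Inv (zpowers w) K := by
    refine (zpowers_le.2 ?_ : zpowers w ≤ normalizer (K : Set Γ))
    rw [mem_normalizer_iff]
    intro x
    have hcomm : ∀ y ∈ V, w * y * w⁻¹ = y := by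
      intro y hy
      rw [hE.comm w hw y hy, mul_inv_cancel_right]
    constructor
    · intro hx
      rwa [hcomm x (hK.prop.1 hx)]
    · intro hx
      have h3 : w * x * w⁻¹ ∈ V := hK.prop.1 hx
      have h4 : x ∈ V := by
        have := V.mul_mem (V.mul_mem (V.inv_mem hw) h3) hw
        simpa [mul_assoc] using this
      rwa [hcomm x h4] at hx
  have h3 : v ∈ (K : Set Γ) * (zpowers w : Set Γ) := by
    rw [← coe_mul_of_right_le_normalizer_left K (zpowers w) hKw]
    exact h2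
  obtain ⟨u, hu, _, ⟨k, rfl⟩, h4⟩ := h3
  change u * w ^ k = v at h4
  have h5 : w ^ k ∈ K ⊔ zpowers v := by
    have h6 : w ^ k = u⁻¹ * v := by rw [← h4, inv_mul_cancel_left]
    rw [h6]
    exact mul_mem (inv_mem ((le_sup_left : K ≤ K ⊔ zpowers v) hu))
      ((le_sup_right : zpowers v ≤ K ⊔ zpowers v) (mem_zpowers v))
  have hw1 : w ^ (p : ℤ) = 1 := by
    rw [zpow_natCast]
    exact hE.exp w hw
  by_cases hk : (p : ℤ) ∣ k
  · obtain ⟨m, rfl⟩ := hk
    rw [zpow_mul, hw1, one_zpow, mul_one] at h4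
    exact hK.prop.2 (h4 ▸ hu)
  · have hpp : IsCoprime (p : ℤ) k :=
      (Prime.coprime_iff_not_dvd (Nat.prime_iff_prime_int.1 hE.prime)).2 hk
    obtain ⟨a, b, hab⟩ := hpp
    have h6 : w = (w ^ k) ^ b := by
      rw [← zpow_mul]
      calc w = w ^ (a * p + b * k) := by rw [hab, zpow_one]
        _ = w ^ (k * b) := by
          rw [zpow_add, mul_comm a, zpow_mul, hw1, one_zpow, one_mul, mul_comm b]
    exact hcon (h6 ▸ zpow_mem h5 b)

/-- D10 -/
theorem d10 (hCop : StmtCop) (_hFix : StmtFix) (hLift : StmtLift) (hS1 : StmtS1)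
    (hTB2 : StmtTB2) (hTB3 : StmtTB3) (hHW : StmtHW) : StmtSolv := by
  classical
  suffices H : ∀ (n : ℕ) (Γ : Type) [Group Γ] [Finite Γ] (p : ℕ) (V G : Subgroup Γ),
      Nat.card G + Nat.card V = n → ElAb p V → Inv V G → cen G V = ⊥ → Group.IsSolvable G by
    intro Γ _ _ p V G
    exact H _ Γ p V G rfl
  intro n
  induction n using Nat.strong_induction_on with
  | _ n IH =>
  intro Γ _ _ p V G hn hE hI hfpf
  -- rank one
  by_cases hbig : Nat.card V ∣ p
  · have := hS1 Γ p V G hE hbig hI hfpf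
    exact inferInstance
  -- proper subgroups
  have hsub : ∀ X ≤ G, Inv V X → X ≠ G → Group.IsSolvable X := by
    intro X hX hVX hne
    refine IH (Nat.card X + Nat.card V) ?_ Γ p V X rfl hE hVX ?_
    · have h1 : Nat.card X < Nat.card G := by
        refine lt_of_le_of_ne (card_le_of_le hX) fun h => hne ?_
        exact eq_of_le_of_card_ge hX h.ge
      omega
    · rw [eq_bot_iff, ← hfpf]
      exact inf_le_inf_right _ hX
  by_contra hns
  -- no invariant normal subgroups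
  have hsimp : ∀ N ≤ G, Inv V N → Inv G N → N = ⊥ ∨ N = G := by
    intro N hN hVN hGN
    by_contra hcon
    push Not at hcon
    obtain ⟨Γ', _, _, V', G', hE', hI', hc', hlt, hle, f, hf, hker⟩ :=
      quot_setup hCop hLift hE hI hfpf hN hVN hGN hcon.1
    have h1 : Group.IsSolvable G' :=
      IH (Nat.card G' + Nat.card V') (by omega) Γ' p V' G' rfl hE' hI' hc'
    have h2 : Group.IsSolvable N := hsub N hN hVN hcon.2
    refine hns (Group.isSolvable_of_ker_le_range (Subgroup.inclusion hN) f ?_)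
    rw [hker]
    intro x hx
    exact ⟨⟨x, mem_subgroupOf.1 hx⟩, rfl⟩
  have hfaith : ∀ v ∈ V, v ≠ 1 → cen G {v} ≠ G := by
    intro v hv hv1 hc
    obtain ⟨V₁, hV₁, hvV₁, hsup⟩ := exists_compl hE hv1
    refine hns (IH (Nat.card G + Nat.card V₁) ?_ Γ p V₁ G rfl (hE.mono hV₁) (inv_mono hI hV₁) ?_)
    · have h1 : Nat.card V₁ < Nat.card V := by
        refine lt_of_le_of_ne (card_le_of_le hV₁) fun h => hvV₁ ?_
        rw [eq_of_le_of_card_ge hV₁ h.ge]
        exact hv
      omega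
    · rw [eq_bot_iff, ← hfpf]
      intro x hx
      have hx' := mem_cen.1 hx
      have h2 : V ≤ centralizer {x} := by
        refine hsup.trans (sup_le ?_ ?_)
        · intro w hw
          rw [mem_centralizer_iff]
          intro y hy
          rw [Set.mem_singleton_iff.1 hy]
          exact (hx'.2 w hw).symm
        · rw [zpowers_le, mem_centralizer_iff]
          intro y hy
          rw [Set.mem_singleton_iff.1 hy]
          have h3 : x ∈ cen G {v} := by rw [hc]; exact hx'.1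
          exact ((mem_cen.1 h3).2 v rfl).symm
      refine mem_cen.2 ⟨hx'.1, fun w hw => ?_⟩
      exact (mem_centralizer_iff.1 (h2 hw) x rfl).symm
  refine hns (hHW Γ p V G hE hI hfpf hsub hsimp ?_)
  intro q r hq hr hqr hqG hrG
  by_contra hcon
  push Not at hcon
  have hBad : Bad p q r V G := by
    refine ⟨hE, hI, hfpf, hbig, hq, hr, hqr, hqG, hrG, hsub, hsimp, hns, hfaith, ?_⟩
    intro X hX hVX hpi hqX hrX
    by_contra hne
    exact hcon X hX hVX hne hqX hrX
  by_cases h2 : Nat.card V ∣ p ^ 2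
  · exact hTB2 Γ p q r V G hBad h2
  · exact hTB3 Γ p q r V G hBad h2

end Pool.Agent.T6.H88.FP
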