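import Pool.Agent.T6.H88.FP.Defs

/-! # Project FP, helper lemmas for module D7 (helper99) -/

namespace Pool.Agent.T6.H88.FP.D7

open Subgroup Pool.Agent.T6.H88.FP
open scoped Pointwise

variable {Γ : Type} [Group Γ]

theorem inv_iff {V X : Subgroup Γ} : Inv V X ↔ ∀ v ∈ V, ∀ x ∈ X, v * x * v⁻¹ ∈ X :=
  le_normalizer_iff

theorem mem_cen {X : Subgroup Γ} {B : Set Γ} {x : Γ} :
    x ∈ cen X B ↔ x ∈ X ∧ ∀ b ∈ B, b * x = x * b := by
  unfold cen
  rw [Subgroup.mem_inf, Subgroup.mem_centralizer_iff]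

/-- products of two subgroups and indices -/
theorem prod_rel [Finite Γ] {A B M : Subgroup Γ} (hA : A ≤ M) :
    (∀ x ∈ M, ∃ a ∈ A, ∃ b ∈ B, x = a * b) ↔ B.relIndex A = B.relIndex M := by
  have hinj := (quotientSubgroupOfEmbeddingOfLE B hA).injective
  have h1 : B.relIndex A = Nat.card (A ⧸ B.subgroupOf A) := rfl
  have h2 : B.relIndex M = Nat.card (M ⧸ B.subgroupOf M) := rfl
  constructor
  · intro h
    rw [h1, h2]
    apply Nat.card_congr
    apply Equiv.ofBijective _ ⟨hinj, ?_⟩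
    intro y
    obtain ⟨m, rfl⟩ := QuotientGroup.mk_surjective y
    obtain ⟨a, ha, b, hb, hm⟩ := h m.1 m.2
    refine ⟨QuotientGroup.mk ⟨a, ha⟩, ?_⟩
    rw [quotientSubgroupOfEmbeddingOfLE_apply_mk, QuotientGroup.eq, mem_subgroupOf]
    have : ((inclusion hA ⟨a, ha⟩)⁻¹ * m : M).1 = b := by
      rw [Subgroup.coe_mul, Subgroup.coe_inv, hm]
      simp [inclusion]
    rw [this]
    exact hb
  · intro h x hx
    have hb : Function.Bijective (quotientSubgroupOfEmbeddingOfLE B hA) :=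
      hinj.bijective_of_nat_card_le (by rw [← h1, ← h2, h])
    obtain ⟨y, hy⟩ := hb.2 (QuotientGroup.mk ⟨x, hx⟩)
    obtain ⟨a, rfl⟩ := QuotientGroup.mk_surjective y
    rw [quotientSubgroupOfEmbeddingOfLE_apply_mk, QuotientGroup.eq, mem_subgroupOf] at hy
    refine ⟨a.1, a.2, a.1⁻¹ * x, ?_, by group⟩
    simpa using hy

theorem card_rel {A B : Subgroup Γ} (h : A ≤ B) : Nat.card A * A.relIndex B = Nat.card B := by
  rw [← relIndex_bot_left A, relIndex_mul_relIndex _ _ _ bot_le h, relIndex_bot_left]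

theorem prod_card [Finite Γ] {A B M : Subgroup Γ} (hA : A ≤ M) (hB : B ≤ M) :
    (∀ x ∈ M, ∃ a ∈ A, ∃ b ∈ B, x = a * b) ↔
      Nat.card A * Nat.card B = Nat.card M * Nat.card (A ⊓ B : Subgroup Γ) := by
  rw [prod_rel hA]
  have h1 : Nat.card (A ⊓ B : Subgroup Γ) * B.relIndex A = Nat.card A := by
    have := card_rel (inf_le_left : A ⊓ B ≤ A)
    rwa [inf_relIndex_left] at this
  have h2 := card_rel hB
  have hc : 0 < Nat.card (A ⊓ B : Subgroup Γ) := Nat.card_pos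
  have hb : 0 < Nat.card B := Nat.card_pos
  rw [← h1, ← h2]
  constructor
  · intro h
    rw [h]
    ring
  · intro h
    have h3 : (Nat.card (A ⊓ B : Subgroup Γ) * Nat.card B) * B.relIndex A =
        (Nat.card (A ⊓ B : Subgroup Γ) * Nat.card B) * B.relIndex M := by
      calc _ = Nat.card (A ⊓ B : Subgroup Γ) * B.relIndex A * Nat.card B := by ring
        _ = _ := h
        _ = _ := by ring
    exact Nat.eq_of_mul_eq_mul_left (Nat.mul_pos hc hb) h3

theorem prod_cop [Finite Γ] {A B M : Subgroup Γ} (hA : A ≤ M) (hB : B ≤ M)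
    (h : Nat.Coprime (A.relIndex M) (B.relIndex M)) :
    ∀ x ∈ M, ∃ a ∈ A, ∃ b ∈ B, x = a * b := by
  rw [prod_rel hA]
  have h1 : (A ⊓ B).relIndex A * A.relIndex M = (A ⊓ B).relIndex M :=
    relIndex_mul_relIndex _ _ _ inf_le_left hA
  have h2 : (A ⊓ B).relIndex B * B.relIndex M = (A ⊓ B).relIndex M :=
    relIndex_mul_relIndex _ _ _ inf_le_right hB
  rw [inf_relIndex_left] at h1
  rw [inf_relIndex_right] at h2
  have h3 : B.relIndex M ∣ B.relIndex A * A.relIndex M := by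
    rw [h1, ← h2]
    exact dvd_mul_left _ _
  have h4 : B.relIndex M ∣ B.relIndex A := (Nat.Coprime.dvd_of_dvd_mul_right h.symm h3)
  apply le_antisymm
  · exact Finite.card_le_of_embedding (quotientSubgroupOfEmbeddingOfLE B hA)
  · refine Nat.le_of_dvd ?_ h4
    exact Nat.pos_of_ne_zero FiniteIndex.index_ne_zero

/-- a Sylow subgroup of `M` meets an invariant subgroup `D` in a Sylow subgroup of `D` -/
theorem syl_inf [Finite Γ] {q : ℕ} {T M D : Subgroup Γ} (hT : T ≤ M) (hD : D ≤ M) (hI : Inv M D)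
    (h : ¬ q ∣ T.relIndex M) : ¬ q ∣ T.relIndex D := by
  have h1 : ∀ x ∈ D ⊔ T, ∃ a ∈ D, ∃ b ∈ T, x = a * b := by
    intro x hx
    have hsup := coe_mul_of_right_le_normalizer_left D T (hT.trans hI)
    have : x ∈ (D : Set Γ) * (T : Set Γ) := by rw [← hsup]; exact hx
    obtain ⟨a, ha, b, hb, hab⟩ := this
    exact ⟨a, ha, b, hb, hab.symm⟩
  have h2 := (prod_rel (le_sup_left : D ≤ D ⊔ T)).1 h1
  rw [h2]
  intro h3
  exact h (h3.trans (Dvd.intro _ (relIndex_mul_relIndex _ _ _ le_sup_right (sup_le hD hT))))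

theorem pgroup_mono {q : ℕ} {A B : Subgroup Γ} (h : A ≤ B) (hB : IsPGroup q B) : IsPGroup q A :=
  hB.to_le h

/-- conjugacy of Sylow subgroups -/
theorem syl_conj [Finite Γ] {q : ℕ} (hq : q.Prime) {P Q X : Subgroup Γ} (hP : P ≤ X) (hQ : Q ≤ X)
    (h1 : IsPGroup q P) (h2 : IsPGroup q Q) (h3 : ¬ q ∣ P.relIndex X) (h4 : ¬ q ∣ Q.relIndex X) :
    ∃ x ∈ X, ∀ y, y ∈ P ↔ x * y * x⁻¹ ∈ Q := by
  have : Fact q.Prime := ⟨hq⟩
  have h1' : IsPGroup q (P.subgroupOf X) :=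
    h1.comap_of_injective X.subtype X.subtype_injective
  have h2' : IsPGroup q (Q.subgroupOf X) :=
    h2.comap_of_injective X.subtype X.subtype_injective
  have h3' : ¬ q ∣ (P.subgroupOf X).index := h3
  have h4' : ¬ q ∣ (Q.subgroupOf X).index := h4
  obtain ⟨x, hx⟩ := MulAction.exists_smul_eq X (h1'.toSylow h3') (h2'.toSylow h4')
  refine ⟨x.1, x.2, fun y => ?_⟩
  have hx' : ∀ z : X, z ∈ P.subgroupOf X ↔ x * z * x⁻¹ ∈ Q.subgroupOf X := by
    intro z
    have e1 : x * z * x⁻¹ ∈ (h2'.toSylow h4') ↔ x * z * x⁻¹ ∈ Q.subgroupOf X := by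
      rw [IsPGroup.mem_toSylow]
    rw [← e1, ← hx]
    have e2 : x * z * x⁻¹ ∈ x • (h1'.toSylow h3') ↔ z ∈ (h1'.toSylow h3') := by
      change x * z * x⁻¹ ∈ ((x • (h1'.toSylow h3') : Sylow q X) : Subgroup X) ↔ _
      rw [Sylow.coe_subgroup_smul, Subgroup.mem_pointwise_smul_iff_inv_smul_mem]
      have : (MulAut.conj x)⁻¹ • (x * z * x⁻¹) = z := by
        rw [← map_inv, MulAut.smul_def, MulAut.conj_apply]
        group
      rw [this]
      rfl
    rw [e2, IsPGroup.mem_toSylow]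
  constructor
  · intro hy
    have := (hx' ⟨y, hP hy⟩).1 hy
    exact this
  · intro hy
    have hyX : y ∈ X := by
      have e : y = x.1⁻¹ * (x.1 * y * x.1⁻¹) * x.1 := by group
      rw [e]
      exact X.mul_mem (X.mul_mem (X.inv_mem x.2) (hQ hy)) x.2
    exact (hx' ⟨y, hyX⟩).2 hy

/-- normalisers grow -/
theorem grow [Finite Γ] {q : ℕ} (hq : q.Prime) {T S : Subgroup Γ} (hS : IsPGroup q S) (hT : T ≤ S)
    (h : S ⊓ normalizer (T : Set Γ) ≤ T) : T = S := by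
  have : Fact q.Prime := ⟨hq⟩
  have : Group.IsNilpotent S := hS.isNilpotent
  have hc := Group.normalizerCondition_of_isNilpotent (G := S)
  by_contra hne
  have hlt : T.subgroupOf S < ⊤ := by
    rw [lt_top_iff_ne_top, Ne, subgroupOf_eq_top]
    exact fun h' => hne (le_antisymm hT h')
  obtain ⟨y, hy1, hy2⟩ := SetLike.exists_of_lt (hc _ hlt)
  apply hy2
  rw [mem_subgroupOf]
  apply h
  refine ⟨y.2, ?_⟩
  rw [SetLike.mem_coe, mem_normalizer_iff] at *
  intro z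
  constructor
  · intro hz
    have := (hy1 ⟨z, hT hz⟩).1 hz
    exact this
  · intro hz
    have hzS : z ∈ S := by
      have e : z = y.1⁻¹ * (y.1 * z * y.1⁻¹) * y.1 := by group
      rw [e]
      exact S.mul_mem (S.mul_mem (S.inv_mem y.2) (hT hz)) y.2
    exact (hy1 ⟨z, hzS⟩).2 hz

/-! ### elementary abelian subgroups, `JJ` -/

theorem eab_mono {q : ℕ} {A B : Subgroup Γ} (h : A ≤ B) (hB : eab q B) : eab q A :=
  ⟨fun a ha => hB.1 a (h ha), fun a ha b hb => hB.2 a (h ha) b (h hb)⟩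

theorem eab_bot {q : ℕ} : eab q (⊥ : Subgroup Γ) :=
  ⟨fun a ha => by rw [mem_bot.1 ha, one_pow], fun a ha b hb => by
    rw [mem_bot.1 ha, mem_bot.1 hb]⟩

theorem eab_sup {q : ℕ} {A B : Subgroup Γ} (hA : eab q A) (hB : eab q B)
    (h : ∀ a ∈ A, ∀ b ∈ B, a * b = b * a) : eab q (A ⊔ B) := by
  have hn : B ≤ normalizer (A : Set Γ) := by
    rw [le_normalizer_iff]
    intro b hb a ha
    have : b * a * b⁻¹ = a := by rw [← h a ha b hb]; group
    rw [this]
    exact ha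
  have hmem : ∀ x ∈ A ⊔ B, ∃ a ∈ A, ∃ b ∈ B, x = a * b := by
    intro x hx
    have : x ∈ (A : Set Γ) * (B : Set Γ) := by
      rw [← coe_mul_of_right_le_normalizer_left A B hn]; exact hx
    obtain ⟨a, ha, b, hb, hab⟩ := this
    exact ⟨a, ha, b, hb, hab.symm⟩
  constructor
  · intro x hx
    obtain ⟨a, ha, b, hb, rfl⟩ := hmem x hx
    have hc : Commute a b := h a ha b hb
    rw [hc.mul_pow, hA.1 a ha, hB.1 b hb, one_mul]
  · intro x hx y hy
    obtain ⟨a, ha, b, hb, rfl⟩ := hmem x hx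
    obtain ⟨a', ha', b', hb', rfl⟩ := hmem y hy
    have c1 : Commute a a' := hA.2 a ha a' ha'
    have c2 : Commute b b' := hB.2 b hb b' hb'
    have c3 : Commute a b' := h a ha b' hb'
    have c4 : Commute a' b := h a' ha' b hb
    exact ((c1.mul_right c3).mul_left (c4.symm.mul_right c2)).eq

/-- the subgroups which generate `JJ q T` -/
def JF (q : ℕ) (T : Subgroup Γ) : Set (Subgroup Γ) :=
  {A | A ≤ T ∧ eab q A ∧ ∀ B ≤ T, eab q B → Nat.card B ≤ Nat.card A}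

theorem JJ_def {q : ℕ} {T : Subgroup Γ} : JJ q T = sSup (JF q T) := rfl

theorem JF_nonempty [Finite Γ] (q : ℕ) (T : Subgroup Γ) : ∃ A, A ∈ JF q T := by
  have hfin : (Set.univ : Set (Subgroup Γ)).Finite := Set.toFinite _
  have hf : {A : Subgroup Γ | A ≤ T ∧ eab q A}.Finite := hfin.subset (Set.subset_univ _)
  obtain ⟨A, hA, hmax⟩ := hf.exists_maximalFor (fun A : Subgroup Γ => Nat.card A) _
    ⟨⊥, bot_le, eab_bot⟩
  refine ⟨A, hA.1, hA.2, fun B hB hB2 => ?_⟩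
  rcases le_total (Nat.card A) (Nat.card B) with h | h
  · exact hmax ⟨hB, hB2⟩ h
  · exact h

theorem JJ_le {q : ℕ} {T : Subgroup Γ} : JJ q T ≤ T := sSup_le fun _ hA => hA.1

theorem JJ_eq [Finite Γ] {q : ℕ} {T T₁ : Subgroup Γ} (h : T₁ ≤ T) (h1 : JJ q T ≤ T₁) :
    JJ q T₁ = JJ q T := by
  have hle : ∀ A ∈ JF q T, A ∈ JF q T₁ := by
    intro A hA
    exact ⟨(le_sSup hA).trans h1, hA.2.1, fun B hB hB2 => hA.2.2 B (hB.trans h) hB2⟩
  apply le_antisymm
  · apply sSup_le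
    intro A hA
    apply le_sSup
    refine ⟨hA.1.trans h, hA.2.1, fun B hB hB2 => ?_⟩
    obtain ⟨A₀, hA₀⟩ := JF_nonempty q T
    exact (hA₀.2.2 B hB hB2).trans (hA.2.2 A₀ (hle A₀ hA₀).1 hA₀.2.1)
  · exact sSup_le fun A hA => le_sSup (hle A hA)

theorem JJ_ne_bot [Finite Γ] {q : ℕ} {T W : Subgroup Γ} (h : W ≤ T) (hW : eab q W) (h1 : W ≠ ⊥) :
    JJ q T ≠ ⊥ := by
  intro h0
  obtain ⟨A₀, hA₀⟩ := JF_nonempty q T
  have h2 := hA₀.2.2 W h hW
  have h3 : A₀ ≤ JJ q T := le_sSup hA₀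
  rw [h0, le_bot_iff] at h3
  rw [h3, card_bot] at h2
  exact h1 ((card_le_one_iff_eq_bot W).1 h2)

theorem map_conj_mem {g : Γ} {A T : Subgroup Γ} (hg : ∀ x ∈ T, g * x * g⁻¹ ∈ T) (hA : A ≤ T) :
    A.map (MulAut.conj g).toMonoidHom ≤ T := by
  rintro _ ⟨a, ha, rfl⟩
  exact hg a (hA ha)

theorem eab_map {q : ℕ} {A : Subgroup Γ} (f : Γ →* Γ) (hA : eab q A) : eab q (A.map f) := by
  constructor
  · rintro _ ⟨a, ha, rfl⟩
    rw [← map_pow, hA.1 a ha, map_one]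
  · rintro _ ⟨a, ha, rfl⟩ _ ⟨b, hb, rfl⟩
    rw [← map_mul, hA.2 a ha b hb, map_mul]

/-- elements normalising `T` normalise `JJ q T` -/
theorem JJ_conj {q : ℕ} {T : Subgroup Γ} {g : Γ} (hg : ∀ x ∈ T, g * x * g⁻¹ ∈ T) :
    ∀ x ∈ JJ q T, g * x * g⁻¹ ∈ JJ q T := by
  have : JJ q T ≤ (JJ q T).comap (MulAut.conj g).toMonoidHom := by
    apply sSup_le
    intro A hA
    rw [← map_le_iff_le_comap]
    apply le_sSup
    refine ⟨map_conj_mem hg hA.1, eab_map _ hA.2.1, fun B hB hB2 => ?_⟩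
    have hc : Nat.card (A.map (MulAut.conj g).toMonoidHom) = Nat.card A :=
      Nat.card_congr (A.equivMapOfInjective _ (MulAut.conj g).injective).toEquiv.symm
    rw [hc]
    exact hA.2.2 B hB hB2
  exact this

theorem JJ_inv {q : ℕ} {V T : Subgroup Γ} (h : Inv V T) : Inv V (JJ q T) := by
  rw [inv_iff] at h ⊢
  exact fun v hv => JJ_conj (h v hv)

/-! ### `ZZ` -/

theorem mem_ZZ {q : ℕ} {T : Subgroup Γ} {x : Γ} : x ∈ ZZ q T ↔ x ∈ cen T T ∧ x ^ q = 1 := by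
  constructor
  · let E : Subgroup Γ :=
      { carrier := {x | x ∈ cen T T ∧ x ^ q = 1}
        one_mem' := ⟨one_mem _, one_pow _⟩
        mul_mem' := by
          rintro a b ⟨ha, ha'⟩ ⟨hb, hb'⟩
          refine ⟨mul_mem ha hb, ?_⟩
          have hc : Commute a b := (mem_cen.1 hb).2 a (mem_cen.1 ha).1
          rw [hc.mul_pow, ha', hb', one_mul]
        inv_mem' := by
          rintro a ⟨ha, ha'⟩
          exact ⟨inv_mem ha, by rw [inv_pow, ha', inv_one]⟩ }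
    have hle : ZZ q T ≤ E := by
      apply sSup_le
      intro A hA a ha
      exact ⟨hA.1 ha, hA.2.1 a ha⟩
    intro hx
    exact hle hx
  · rintro ⟨h1, h2⟩
    have : zpowers x ≤ ZZ q T := by
      apply le_sSup
      refine ⟨by rwa [zpowers_le], ?_, ?_⟩
      · rintro _ ⟨n, rfl⟩
        change (x ^ n) ^ q = 1
        rw [← zpow_natCast, ← zpow_mul, mul_comm, zpow_mul, zpow_natCast, h2, one_zpow]
      · rintro _ ⟨n, rfl⟩ _ ⟨m, rfl⟩
        exact (Commute.zpow_zpow_self x n m)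
    exact this (mem_zpowers x)

theorem ZZ_eab {q : ℕ} {T : Subgroup Γ} : eab q (ZZ q T) :=
  ⟨fun _ ha => (mem_ZZ.1 ha).2, fun a ha b hb =>
    (mem_cen.1 (mem_ZZ.1 hb).1).2 a (mem_cen.1 (mem_ZZ.1 ha).1).1⟩

theorem ZZ_le {q : ℕ} {T : Subgroup Γ} : ZZ q T ≤ T := fun _ hx => (mem_cen.1 (mem_ZZ.1 hx).1).1

theorem ZZ_inv {q : ℕ} {V T : Subgroup Γ} (h : Inv V T) : Inv V (ZZ q T) := by
  rw [inv_iff] at h ⊢
  intro v hv x hx
  rw [mem_ZZ, mem_cen] at hx ⊢
  refine ⟨⟨h v hv x hx.1.1, fun b hb => ?_⟩, ?_⟩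
  · have h1 := hx.1.2 (v⁻¹ * b * v) (by
      have := h v⁻¹ (inv_mem hv) b hb
      rwa [inv_inv] at this)
    calc b * (v * x * v⁻¹) = v * ((v⁻¹ * b * v) * x) * v⁻¹ := by group
      _ = v * (x * (v⁻¹ * b * v)) * v⁻¹ := by rw [h1]
      _ = v * x * v⁻¹ * b := by group
  · rw [conj_pow, hx.2]
    group

theorem ZZ_ne_bot [Finite Γ] {q : ℕ} (hq : q.Prime) {T : Subgroup Γ} (hT : IsPGroup q T)
    (h : T ≠ ⊥) : ZZ q T ≠ ⊥ := by
  have : Fact q.Prime := ⟨hq⟩
  have : Nontrivial T := (nontrivial_iff_ne_bot T).2 h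
  have hc := hT.center_nontrivial
  have hcp : IsPGroup q (center T) := hT.to_subgroup _
  obtain ⟨n, hn⟩ := hcp.exists_card_eq
  have hn0 : n ≠ 0 := by
    rintro rfl
    rw [pow_zero] at hn
    have := Finite.one_lt_card (α := center T)
    omega
  obtain ⟨x, hx⟩ := exists_prime_orderOf_dvd_card' (G := center T) q (by
    rw [hn]; exact dvd_pow_self q hn0)
  intro h0
  have hmem : (x.1.1 : Γ) ∈ ZZ q T := by
    rw [mem_ZZ, mem_cen]
    refine ⟨⟨x.1.2, fun b hb => ?_⟩, ?_⟩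
    · have := (mem_center_iff.1 x.2) ⟨b, hb⟩
      exact congrArg Subtype.val this
    · have h1 : x ^ q = 1 := by rw [← hx]; exact pow_orderOf_eq_one x
      have h2 : ((x ^ q : center T) : T) = 1 := by rw [h1]; rfl
      have h3 := congrArg Subtype.val h2
      simpa using h3
  rw [h0, mem_bot] at hmem
  have hx1 : x = 1 := by
    ext
    exact hmem
  rw [hx1, orderOf_one] at hx
  exact hq.one_lt.ne hx

/-! ### conjugates -/

/-- the join of the conjugates `m Z m⁻¹`, `m ∈ M` -/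
def CC (Z M : Subgroup Γ) : Subgroup Γ := ⨆ m ∈ M, Z.map (MulAut.conj m).toMonoidHom

theorem CC_mem {Z M : Subgroup Γ} {m z : Γ} (hm : m ∈ M) (hz : z ∈ Z) :
    m * z * m⁻¹ ∈ CC Z M :=
  (le_iSup₂_of_le (f := fun m (_ : m ∈ M) => Z.map (MulAut.conj m).toMonoidHom) m hm le_rfl)
    ⟨z, hz, rfl⟩

theorem CC_le {Z M H : Subgroup Γ} (h : ∀ m ∈ M, ∀ z ∈ Z, m * z * m⁻¹ ∈ H) : CC Z M ≤ H := by
  apply iSup₂_le
  rintro m hm _ ⟨z, hz, rfl⟩
  exact h m hm z hz

theorem le_CC {Z M : Subgroup Γ} : Z ≤ CC Z M := fun z hz => by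
  simpa using CC_mem (one_mem M) hz

theorem CC_inv {Z M : Subgroup Γ} : Inv M (CC Z M) := by
  rw [inv_iff]
  intro v hv
  have : CC Z M ≤ (CC Z M).comap (MulAut.conj v).toMonoidHom := by
    apply CC_le
    intro m hm z hz
    change v * (m * z * m⁻¹) * v⁻¹ ∈ CC Z M
    have := CC_mem (mul_mem hv hm) hz
    convert this using 1
    group
  exact this

theorem CC_invV {Z M V : Subgroup Γ} (hM : Inv V M) (hZ : Inv V Z) : Inv V (CC Z M) := by
  rw [inv_iff] at *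
  intro v hv
  have : CC Z M ≤ (CC Z M).comap (MulAut.conj v).toMonoidHom := by
    apply CC_le
    intro m hm z hz
    change v * (m * z * m⁻¹) * v⁻¹ ∈ CC Z M
    have := CC_mem (hM v hv m hm) (hZ v hv z hz)
    convert this using 1
    group
  exact this

theorem CC_mono {Z M M' : Subgroup Γ} (h : M ≤ M') : CC Z M ≤ CC Z M' :=
  CC_le fun _ hm _ hz => CC_mem (h hm) hz

end Pool.Agent.T6.H88.FP.D7
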