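import Pool.Agent.T6.H88.FP.Defs

/-! # Project FP: elementary tools -/

namespace Pool.Agent.T6.H88.FP

open Subgroup

variable {Γ : Type} [Group Γ]

lemma inv_iff {V X : Subgroup Γ} : Inv V X ↔ ∀ v ∈ V, ∀ x ∈ X, v * x * v⁻¹ ∈ X := by
  constructor
  · intro h v hv x hx
    exact (mem_normalizer_iff.1 (h hv) x).1 hx
  · intro h v hv
    rw [mem_normalizer_iff]
    intro x
    constructor
    · exact h v hv x
    · intro hx
      have := h v⁻¹ (V.inv_mem hv) _ hx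
      simpa [mul_assoc] using this

lemma inv_map {V X : Subgroup Γ} (h : Inv V X) {v : Γ} (hv : v ∈ V) :
    X.map (MulAut.conj v).toMonoidHom ≤ X := by
  rintro _ ⟨x, hx, rfl⟩
  exact inv_iff.1 h v hv x hx

lemma inv_map_eq {V X : Subgroup Γ} (h : Inv V X) {v : Γ} (hv : v ∈ V) :
    X.map (MulAut.conj v).toMonoidHom = X := by
  refine le_antisymm (inv_map h hv) fun x hx => ⟨v⁻¹ * x * v, ?_, by simp [mul_assoc]⟩
  have := inv_iff.1 h v⁻¹ (V.inv_mem hv) x hx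
  simpa using this

lemma mem_cen {X : Subgroup Γ} {B : Set Γ} {x : Γ} :
    x ∈ cen X B ↔ x ∈ X ∧ ∀ b ∈ B, b * x = x * b := by
  unfold cen
  rw [mem_inf, mem_centralizer_iff]

lemma inv_inf {V X Y : Subgroup Γ} (h : Inv V X) (h' : Inv V Y) : Inv V (X ⊓ Y) := by
  rw [inv_iff] at *
  exact fun v hv x hx => ⟨h v hv x hx.1, h' v hv x hx.2⟩

lemma inv_mono {V V' X : Subgroup Γ} (h : Inv V X) (hV : V' ≤ V) : Inv V' X := hV.trans h

lemma inv_self {X : Subgroup Γ} : Inv X X := le_normalizer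

lemma inv_cen {V X : Subgroup Γ} {B : Set Γ} (h : Inv V X)
    (hB : ∀ v ∈ V, ∀ b ∈ B, v⁻¹ * b * v ∈ B) : Inv V (cen X B) := by
  rw [inv_iff] at *
  intro v hv x hx
  rw [mem_cen] at *
  refine ⟨h v hv x hx.1, fun b hb => ?_⟩
  have h1 := hx.2 _ (hB v hv b hb)
  have h2 : b * (v * x * v⁻¹) = v * ((v⁻¹ * b * v) * x) * v⁻¹ := by group
  rw [h2, h1]
  group

lemma inv_cen_sub {V X Y : Subgroup Γ} (h : Inv V X) (hY : Inv V Y) :
    Inv V (cen X (Y : Set Γ)) := by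
  refine inv_cen h fun v hv b hb => ?_
  have := inv_iff.1 hY v⁻¹ (V.inv_mem hv) b hb
  simpa using this

lemma inv_cen_elab {p : ℕ} {V X K : Subgroup Γ} (hV : ElAb p V) (h : Inv V X) (hK : K ≤ V) :
    Inv V (cen X (K : Set Γ)) := by
  refine inv_cen h fun v hv b hb => ?_
  rw [mul_assoc, hV.comm b (hK hb) v hv, ← mul_assoc, inv_mul_cancel, one_mul]
  exact hb

lemma inv_cen_elem {p : ℕ} {V X : Subgroup Γ} (hV : ElAb p V) (h : Inv V X) {v : Γ}
    (hv : v ∈ V) : Inv V (cen X {v}) := by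
  refine inv_cen h fun w hw b hb => ?_
  rw [Set.mem_singleton_iff] at hb
  rw [hb, mul_assoc, hV.comm v hv w hw, ← mul_assoc, inv_mul_cancel, one_mul]
  exact Set.mem_singleton v

lemma ElAb.mono {p : ℕ} {V K : Subgroup Γ} (hV : ElAb p V) (hK : K ≤ V) : ElAb p K :=
  ⟨hV.prime, fun v hv => hV.exp v (hK hv), fun v hv w hw => hV.comm v (hK hv) w (hK hw)⟩

lemma ElAb.isPGroup {p : ℕ} {V : Subgroup Γ} (hV : ElAb p V) : IsPGroup p V := by
  intro v
  refine ⟨1, ?_⟩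
  rw [pow_one]
  exact Subtype.ext (hV.exp v.1 v.2)

lemma eab.map_conj {q : ℕ} {A : Subgroup Γ} (h : eab q A) (v : Γ) :
    eab q (A.map (MulAut.conj v).toMonoidHom) := by
  constructor
  · rintro _ ⟨a, ha, rfl⟩
    rw [← map_pow, h.1 a ha, map_one]
  · rintro _ ⟨a, ha, rfl⟩ _ ⟨b, hb, rfl⟩
    rw [← map_mul, ← map_mul, h.2 a ha b hb]

lemma inv_sSup {V : Subgroup Γ} {s : Set (Subgroup Γ)}
    (h : ∀ v ∈ V, ∀ A ∈ s, A.map (MulAut.conj v).toMonoidHom ∈ s) : Inv V (sSup s) := by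
  rw [inv_iff]
  intro v hv x hx
  have h1 : (sSup s).map (MulAut.conj v).toMonoidHom ≤ sSup s := by
    rw [sSup_eq_iSup, Subgroup.map_iSup]
    refine iSup_le fun A => ?_
    rw [Subgroup.map_iSup]
    refine iSup_le fun hA => ?_
    rw [← sSup_eq_iSup]
    exact le_sSup (h v hv A hA)
  exact h1 ⟨x, hx, rfl⟩

lemma inv_ZZ {V T : Subgroup Γ} {q : ℕ} (h : Inv V T) : Inv V (ZZ q T) := by
  refine inv_sSup ?_
  rintro v hv A ⟨hA, hA'⟩
  refine ⟨?_, hA'.map_conj v⟩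
  refine (Subgroup.map_mono hA).trans ?_
  exact inv_map (inv_cen_sub h h) hv

lemma ZZ_le {T : Subgroup Γ} {q : ℕ} : ZZ q T ≤ cen T T := sSup_le fun _ hA => hA.1

lemma ZZ_comm {T : Subgroup Γ} {q : ℕ} {t z : Γ} (ht : t ∈ T) (hz : z ∈ ZZ q T) :
    t * z = z * t := (mem_cen.1 (ZZ_le hz)).2 t ht

lemma LL.mono {V G X Y : Subgroup Γ} {q r : ℕ} (h : LL V G q r Y) (hX : X ≤ Y)
    (hI : Inv V X) [Finite Γ] : LL V G q r X := by
  refine ⟨hX.trans h.1, hI, ?_, ?_⟩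
  · rintro rfl
    exact h.2.2.1 (le_antisymm h.1 hX)
  · intro s hs hd
    exact h.2.2.2 s hs (hd.trans (card_dvd_of_le hX))

end Pool.Agent.T6.H88.FP
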